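import Pool.Agent.Work.MP_0909b4_al.NAFacts1

/-! Checked facts on the tables, II: double loops. -/

namespace Pool.Agent.Work.MP_0909b4_al.NA.Dat

/-- the `i`-th child of the type `t` -/
def cj (t : Fin 6) (i : ℕ) : Fin 145 := Fin.ofNat 145 (clo t + i)

/-- the `i`-th dart of the child `j` -/
def dj (j : Fin 145) (i : ℕ) : Fin 521 := Fin.ofNat 521 (first j + i)

theorem f_del : ∀ v : Fin 174, ∀ i < 37, par (cj (dpar (ord v)) i) = dpar (ord v) →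
    (rr (ty (cj (dpar (ord v)) i)) : ℤ) ≤ (PVx (ord v) - PCx (cj (dpar (ord v)) i)) ^ 2 +
      (PVy (ord v) - PCy (cj (dpar (ord v)) i)) ^ 2 ∧
    ((PVx (ord v) - PCx (cj (dpar (ord v)) i)) ^ 2 + (PVy (ord v) - PCy (cj (dpar (ord v)) i)) ^ 2 =
      rr (ty (cj (dpar (ord v)) i)) →
      ∃ n < 4, dch (dj (cj (dpar (ord v)) i) n) = cj (dpar (ord v)) i ∧
        st (dj (cj (dpar (ord v)) i) n) = ord v) := by decide +kernel

theorem f_PVin : ∀ v : Fin 174, ∀ k, cty k = dpar (ord v) →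
    0 ≤ cr (Dx k) (Dy k) (PVx (ord v) - 5 * Vx k) (PVy (ord v) - 5 * Vy k) := by decide +kernel

theorem f_PCin : ∀ j k, cty k = par j → 0 ≤ cr (Dx k) (Dy k) (PCx j - Cx (par j) - 4 * Vx k)
    (PCy j - Cy (par j) - 4 * Vy k) := by decide +kernel

theorem f_PCinj : ∀ j, ∀ i < 37, par (cj (par j) i) = par j → PCx j = PCx (cj (par j) i) →
    PCy j = PCy (cj (par j) i) → j = cj (par j) i := by decide +kernel

theorem f_vconv : ∀ d, ¬(isB d = true ∧ bp d = 0) → vnx (vnx d) ≠ d → ∀ n < 8, vnx^[n] d ≠ d →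
    vnx^[n] d ≠ vnx d → 0 < cr (PCx (dch (vnx d)) - PCx (dch d)) (PCy (dch (vnx d)) - PCy (dch d))
      (PCx (dch (vnx^[n] d)) - PCx (dch d)) (PCy (dch (vnx^[n] d)) - PCy (dch d)) := by
  decide +kernel

theorem f_per : ∀ d, ∃ n < 8, vnx^[n + 1] d = d := by decide +kernel

/-- two common vertices span a common side -/
def shr (d₁ d₂ e₁ e₂ : Fin 521) : Prop := dch d₂ = dch d₁ → dch e₂ = dch e₁ → d₁ ≠ d₂ →
  st d₂ = st e₂ →
    (d₂ = nxd d₁ ∧ isB d₁ = false ∧ opp d₁ = e₂) ∨ (d₁ = nxd d₂ ∧ isB d₂ = false ∧ opp d₂ = e₁)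

instance (d₁ d₂ e₁ e₂ : Fin 521) : Decidable (shr d₁ d₂ e₁ e₂) := by
  unfold shr
  infer_instance

theorem f_share : ∀ d, ∀ n < 8, dch d ≠ dch (vnx^[n] d) → ∀ i < 4, ∀ i' < 4,
    shr d (dj (dch d) i) (vnx^[n] d) (dj (dch (vnx^[n] d)) i') := by
  decide +kernel

end Pool.Agent.Work.MP_0909b4_al.NA.Dat
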