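import Pool.Agent.Work.MP_0909b4_al.NAPoly
import Mathlib
import Pool.Agent.Work.MP_0909b4_al.NAFacts2

-- merged part: Pool.Agent.Work.MP_0909b4_al.NASub
section
/-! Delaunay substitutions with inflation factor 5 (definitions and first consequences).

`Co` are the corners of the tile types, `Ch` the children, `D` the darts (a child with one of its
corners, also read as the side that starts there). Positions of darts and centres of children are
taken in the frame of the inflated parent `5 t`.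

Plan. Everything below follows from the fields by rewriting. For `st_nxd` and `st_ls` use `st_iff`
and the positions in `bd_PV`, `bd_PV'`. `two_vnx`, `two_of_st`: by `vcyc` the darts at a vertex with
`two d` are `d` and `vnx d`. `vnx_inj`: `vnx d` is a boundary dart iff `isB (pvd d)`; in that case
`d = ls (st d)`.
-/

namespace Pool.Agent.Work.MP_0909b4_al.NA

/-- the data of a substitution -/
structure Sub0 where
  Ty : Type
  Co : Type
  Ch : Type
  D : Type
  finTy : Finite Ty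
  finCo : Finite Co
  finCh : Finite Ch
  finD : Finite D
  cty : Co → Ty
  nx : Co → Co
  pv : Co → Co
  V : Co → ℂ
  C : Ty → ℂ
  rr : Ty → ℝ
  par : Ch → Ty
  ty : Ch → Ty
  mo : Ch → Mot
  da : Ch → Co
  db : Ch → Co
  dch : D → Ch
  dco : D → Co
  dart : Ch → Co → D
  isB : D → Bool
  opp : D → D
  left : D → Bool
  bs : D → Co
  bp : D → Fin 5
  bd : Co → Fin 5 → D
  st : D → D
  tS : Ty
  j0 : Ch
  j1 : Ch

namespace Sub0

variable (S : Sub0)

noncomputable def δ (k : S.Co) : ℂ := S.V (S.nx k) - S.V k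
noncomputable def hx (k : S.Co) : ℝ := cross (S.δ k) (S.C (S.cty k) - S.V k)
def nxd (d : S.D) : S.D := S.dart (S.dch d) (S.nx (S.dco d))
def pvd (d : S.D) : S.D := S.dart (S.dch d) (S.pv (S.dco d))
def dpar (d : S.D) : S.Ty := S.par (S.dch d)
noncomputable def PV (d : S.D) : ℂ := S.mo (S.dch d) • S.V (S.dco d)
noncomputable def PC (j : S.Ch) : ℂ := S.mo j • S.C (S.ty j)
/-- the dart starts at a corner of the parent -/
def isC (d : S.D) : Prop := S.isB d = true ∧ S.bp d = 0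
/-- the dart starts at an inner point of a side of the parent -/
def onS (d : S.D) : Prop := S.isB (S.st d) = true ∧ S.bp (S.st d) ≠ 0
def cor (k : S.Co) : S.Co := S.dco (S.bd k 0)
noncomputable def ra (k : S.Co) : ℂ := (S.mo (S.dch (S.bd k 0))).a
def turn (d : S.D) : S.D := S.opp (S.pvd d)
/-- the next dart counterclockwise around the vertex -/
def vnx (d : S.D) : S.D := if S.isB (S.pvd d) = true then S.st d else S.turn d
/-- only two children meet at the vertex -/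
def two (d : S.D) : Prop := S.vnx (S.vnx d) = d
/-- the last dart at the vertex of the boundary dart `d` -/
def ls (d : S.D) : S.D := S.nxd (S.bd (S.bs d) (S.bp d - 1))

end Sub0

/-- a Delaunay substitution -/
structure Sub extends Sub0 where
  cty_nx : ∀ k, cty (nx k) = cty k
  nx_pv : ∀ k, nx (pv k) = k
  pv_nx : ∀ k, pv (nx k) = k
  cyc : ∀ k k', cty k = cty k' → ∃ n, nx^[n] k = k'
  three : ∀ k, nx (nx k) ≠ k
  convex : ∀ k k', cty k = cty k' → k' ≠ k → k' ≠ nx k → 0 < cross (V (nx k) - V k) (V k' - V k)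
  co_surj : ∀ t, ∃ k, cty k = t
  circ : ∀ k, Complex.normSq (V k - C (cty k)) = rr (cty k)
  rr_le : ∀ t, rr t ≤ 2
  one_le : ∀ k, 1 ≤ Complex.normSq (toSub0.δ k)
  dco_ty : ∀ d, cty (dco d) = ty (dch d)
  dart_eta : ∀ d, dart (dch d) (dco d) = d
  dch_dart : ∀ j k, cty k = ty j → dch (dart j k) = j
  dco_dart : ∀ j k, cty k = ty j → dco (dart j k) = k
  opp_B : ∀ d, isB d = false → isB (opp d) = false
  opp_opp : ∀ d, isB d = false → opp (opp d) = d
  opp_par : ∀ d, isB d = false → toSub0.dpar (opp d) = toSub0.dpar d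
  opp_PV : ∀ d, isB d = false → toSub0.PV (opp d) = toSub0.PV (toSub0.nxd d)
  opp_left : ∀ d, isB d = false → left (opp d) = !left d
  opp_hx : ∀ d, isB d = false → 0 < toSub0.hx (dco d) + toSub0.hx (dco (opp d))
  bd_B : ∀ k p, isB (bd k p) = true
  bd_bs : ∀ k p, bs (bd k p) = k
  bd_bp : ∀ k p, bp (bd k p) = p
  bd_par : ∀ k p, toSub0.dpar (bd k p) = cty k
  bd_PV : ∀ k p, toSub0.PV (bd k p) = 5 * V k + (p.val : ℂ) * toSub0.δ k
  bd_PV' : ∀ k p, toSub0.PV (toSub0.nxd (bd k p)) = 5 * V k + (p.val + 1 : ℂ) * toSub0.δ k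
  bd_PC : ∀ k p, toSub0.PC (dch (bd k p)) = C (cty k) + 4 * V k + (p.val : ℂ) * toSub0.δ k
  bd_eta : ∀ d, isB d = true → bd (bs d) (bp d) = d
  corner : ∀ k, toSub0.pvd (bd k 0) = bd (pv k) 4
  cor_cor : ∀ k, toSub0.cor (toSub0.cor k) = toSub0.cor k
  ra_cor : ∀ k, toSub0.ra (toSub0.cor k) = 1
  BB : ∀ d, isB d = true → isB (toSub0.pvd d) = true → bp d = 0
  da_ty : ∀ j, cty (da j) = par j
  db_ty : ∀ j, cty (db j) = par j
  dab_C : ∀ k, da (dch (bd k 0)) = k ∧ db (dch (bd k 0)) = k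
  dab_S : ∀ k p, p ≠ 0 → p ≠ 4 → da (dch (bd k p)) = k ∧ db (dch (bd k p)) = nx k
  dab_T : ∀ d, toSub0.onS d → da (dch d) = bs (st d) ∨ da (dch d) = nx (bs (st d)) ∨
    db (dch d) = bs (st d) ∨ db (dch d) = nx (bs (st d))
  st_iff : ∀ d d', st d = st d' ↔ toSub0.dpar d = toSub0.dpar d' ∧ toSub0.PV d = toSub0.PV d'
  st_st : ∀ d, st (st d) = st d
  st_B : ∀ d, isB d = true → st d = d
  st_C : ∀ d, toSub0.isC (st d) → st d = d
  vcyc : ∀ d d', ¬toSub0.isC d → st d = st d' → ∃ n, toSub0.vnx^[n] d = d'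
  vconvex : ∀ d d', ¬toSub0.isC d → ¬toSub0.two d → st d = st d' → d' ≠ d → d' ≠ toSub0.vnx d →
    0 < cross (toSub0.PC (dch (toSub0.vnx d)) - toSub0.PC (dch d))
      (toSub0.PC (dch d') - toSub0.PC (dch d))
  two_B : ∀ d, ¬toSub0.isC d → toSub0.two d → isB d = true ∨ isB (toSub0.pvd d) = true
  two_perp : ∀ d, ¬toSub0.isC d → toSub0.two d →
    dot (toSub0.δ (dco d)) (toSub0.δ (pv (dco d))) = 0
  del_le : ∀ j d, par j = toSub0.dpar d → rr (ty j) ≤ Complex.normSq (toSub0.PV d - toSub0.PC j)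
  del_eq : ∀ j d, par j = toSub0.dpar d → Complex.normSq (toSub0.PV d - toSub0.PC j) = rr (ty j) →
    ∃ d', dch d' = j ∧ st d' = st d
  PV_in : ∀ d k, cty k = toSub0.dpar d → 0 ≤ cross (toSub0.δ k) (toSub0.PV d - 5 * V k)
  PC_in : ∀ j k, cty k = par j → 0 ≤ cross (toSub0.δ k) (toSub0.PC j - C (par j) - 4 * V k)
  PC_inj : ∀ j j', par j = par j' → toSub0.PC j = toSub0.PC j' → j = j'
  share : ∀ d₁ d₂ e₁ e₂, dch d₁ = dch d₂ → dch e₁ = dch e₂ → dch d₁ ≠ dch e₁ → d₁ ≠ d₂ →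
    st d₁ = st e₁ → st d₂ = st e₂ →
    (d₂ = toSub0.nxd d₁ ∧ isB d₁ = false ∧ opp d₁ = e₂) ∨
      (d₁ = toSub0.nxd d₂ ∧ isB d₂ = false ∧ opp d₂ = e₁)
  reach : ∀ t, ∃ i₁ i₂ i₃, par i₁ = t ∧ par i₂ = ty i₁ ∧ par i₃ = ty i₂ ∧ ty i₃ = tS
  j0_par : par j0 = tS
  j0_ty : ty j0 = tS
  j0_a : (mo j0).a = 1
  j1_par : par j1 = tS
  j1_ty : ty j1 = tS
  j1_a : ∀ n : ℕ, 0 < n → (mo j1).a ^ n ≠ 1
  j1_int : ∀ d, dch d = j1 → isB (st d) = false
  tS_ball : ∀ k, cty k = tS → ‖toSub0.δ k‖ ≤ toSub0.hx k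

namespace Sub

variable (S : Sub)

instance : Finite S.Ty := S.finTy
instance : Finite S.Co := S.finCo
instance : Finite S.Ch := S.finCh
instance : Finite S.D := S.finD

/-- the tiles as polygons -/
def gon : Gon S.Co S.Ty where
  fin := S.finCo
  fc := S.cty
  nx := S.nx
  vt := S.V
  fc_nx := S.cty_nx
  cyc := S.cyc
  three := S.three
  convex := S.convex

def tile (t : S.Ty) : Set ℂ := S.gon.poly t

theorem cross_mot_NASub (m : Mot) (z w : ℂ) : cross (m.a * z) (m.a * w) = cross z w := by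
  have h : m.a.re * m.a.re + m.a.im * m.a.im = 1 := by
    rw [← Complex.normSq_apply, Complex.normSq_eq_norm_sq, m.norm_a, one_pow]
  simp only [cross, Complex.mul_re, Complex.mul_im]
  linear_combination (z.re * w.im - z.im * w.re) * h

theorem val_succ_NASub (p : Fin 5) (h : p ≠ 4) : (p + 1).val = p.val + 1 := by
  revert p
  decide

theorem vnx_false_NASub {d : S.D} (h : S.isB (S.pvd d) = false) : S.vnx d = S.opp (S.pvd d) :=
  if_neg (by rw [h]; exact Bool.false_ne_true)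

theorem vnx_true_NASub {d : S.D} (h : S.isB (S.pvd d) = true) : S.vnx d = S.st d := if_pos h

theorem ls_bd_NASub (k : S.Co) (p : Fin 5) : S.ls (S.bd k p) = S.nxd (S.bd k (p - 1)) := by
  unfold Sub0.ls
  rw [S.bd_bs, S.bd_bp]

theorem cty_pv (k : S.Co) : S.cty (S.pv k) = S.cty k := by
  rw [← S.cty_nx (S.pv k), S.nx_pv]

theorem δ_ne (k : S.Co) : S.δ k ≠ 0 := by
  intro h
  have h1 := S.one_le k
  rw [h, map_zero] at h1
  linarith only [h1]

theorem dch_nxd (d : S.D) : S.dch (S.nxd d) = S.dch d := by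
  exact S.dch_dart _ _ (by rw [S.cty_nx, S.dco_ty])

theorem dco_nxd (d : S.D) : S.dco (S.nxd d) = S.nx (S.dco d) := by
  exact S.dco_dart _ _ (by rw [S.cty_nx, S.dco_ty])

theorem dch_pvd (d : S.D) : S.dch (S.pvd d) = S.dch d := by
  exact S.dch_dart _ _ (by rw [S.cty_pv, S.dco_ty])

theorem dco_pvd (d : S.D) : S.dco (S.pvd d) = S.pv (S.dco d) := by
  exact S.dco_dart _ _ (by rw [S.cty_pv, S.dco_ty])

theorem nxd_pvd (d : S.D) : S.nxd (S.pvd d) = d := by
  change S.dart (S.dch (S.pvd d)) (S.nx (S.dco (S.pvd d))) = d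
  rw [S.dch_pvd, S.dco_pvd, S.nx_pv, S.dart_eta]

theorem pvd_nxd (d : S.D) : S.pvd (S.nxd d) = d := by
  change S.dart (S.dch (S.nxd d)) (S.pv (S.dco (S.nxd d))) = d
  rw [S.dch_nxd, S.dco_nxd, S.pv_nx, S.dart_eta]

theorem d_ext {d d' : S.D} (h : S.dch d = S.dch d') (h' : S.dco d = S.dco d') : d = d' := by
  rw [← S.dart_eta d, h, h', S.dart_eta]

theorem dpar_nxd (d : S.D) : S.dpar (S.nxd d) = S.dpar d := by
  exact congrArg S.par (S.dch_nxd d)

theorem dpar_pvd (d : S.D) : S.dpar (S.pvd d) = S.dpar d := by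
  exact congrArg S.par (S.dch_pvd d)

theorem PV_nxd (d : S.D) : S.PV (S.nxd d) = S.PV d + (S.mo (S.dch d)).a * S.δ (S.dco d) := by
  simp only [Sub0.PV, Sub0.δ, S.dch_nxd, S.dco_nxd, Mot.smul_def]
  ring

theorem opp_PV' {d : S.D} (h : S.isB d = false) : S.PV (S.nxd (S.opp d)) = S.PV d := by
  rw [← S.opp_PV _ (S.opp_B d h), S.opp_opp d h]

theorem cty_bs {d : S.D} (h : S.isB d = true) : S.cty (S.bs d) = S.dpar d := by
  rw [← S.bd_par (S.bs d) (S.bp d), S.bd_eta d h]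

theorem nxd_bd4 (k : S.Co) : S.nxd (S.bd k 4) = S.bd (S.nx k) 0 := by
  have h := S.corner (S.nx k)
  rw [S.pv_nx] at h
  rw [← h, S.nxd_pvd]

theorem isC_iff (d : S.D) : S.isC d ↔ ∃ k, d = S.bd k 0 := by
  constructor
  · rintro ⟨h1, h2⟩
    exact ⟨S.bs d, by rw [← h2, S.bd_eta d h1]⟩
  · rintro ⟨k, rfl⟩
    exact ⟨S.bd_B k 0, S.bd_bp k 0⟩

theorem isC_pvd {d : S.D} (h : S.isC d) : S.isB (S.pvd d) = true := by
  obtain ⟨k, rfl⟩ := (S.isC_iff d).1 h
  rw [S.corner, S.bd_B]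

theorem isC_nxd_bd (k : S.Co) (p : Fin 5) : S.isC (S.nxd (S.bd k p)) ↔ p = 4 := by
  constructor
  · intro h
    obtain ⟨k', e⟩ := (S.isC_iff _).1 h
    have e' := congrArg (fun d => S.bp (S.pvd d)) e
    simpa only [S.pvd_nxd, S.corner, S.bd_bp] using e'
  · rintro rfl
    exact (S.isC_iff _).2 ⟨_, S.nxd_bd4 k⟩

theorem last_NASub {d : S.D} (h : S.isB (S.pvd d) = true) (hc : ¬S.isC d) :
    ∃ k p, p ≠ 4 ∧ d = S.nxd (S.bd k p) := by
  have e : d = S.nxd (S.bd (S.bs (S.pvd d)) (S.bp (S.pvd d))) := by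
    rw [S.bd_eta _ h, S.nxd_pvd]
  exact ⟨_, _, fun h4 => hc (e ▸ (S.isC_nxd_bd _ _).2 h4), e⟩

theorem bd_δ (k : S.Co) (p : Fin 5) :
    (S.mo (S.dch (S.bd k p))).a * S.δ (S.dco (S.bd k p)) = S.δ k := by
  have h1 := S.PV_nxd (S.bd k p)
  rw [S.bd_PV, S.bd_PV'] at h1
  linear_combination -h1

theorem bd_hx (k : S.Co) (p : Fin 5) : S.hx (S.dco (S.bd k p)) = S.hx k := by
  have h1 := S.bd_δ k p
  have h2 : (S.mo (S.dch (S.bd k p))).a *
      (S.C (S.cty (S.dco (S.bd k p))) - S.V (S.dco (S.bd k p))) = S.C (S.cty k) - S.V k := by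
    have h3 := S.bd_PV k p
    have h4 := S.bd_PC k p
    rw [S.dco_ty, ← Mot.smul_sub]
    change S.PC _ - S.PV _ = _
    rw [h3, h4]
    ring
  unfold Sub0.hx
  rw [← h1, ← h2, cross_mot_NASub]

theorem ra_δ (k : S.Co) : S.ra k * S.δ (S.cor k) = S.δ k := by
  exact S.bd_δ k 0

theorem ra_δ_pv (k : S.Co) : S.ra k * S.δ (S.pv (S.cor k)) = S.δ (S.pv k) := by
  have h := S.bd_δ (S.pv k) 4
  rwa [← S.corner, S.dch_pvd, S.dco_pvd] at h

theorem dco_bd4 (k : S.Co) : S.dco (S.bd k 4) = S.pv (S.cor (S.nx k)) := by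
  have h := S.corner (S.nx k)
  rw [S.pv_nx] at h
  rw [← h, S.dco_pvd]
  rfl

theorem dch_bd4 (k : S.Co) : S.dch (S.bd k 4) = S.dch (S.bd (S.nx k) 0) := by
  rw [← S.nxd_bd4, S.dch_nxd]

theorem st_par (d : S.D) : S.dpar (S.st d) = S.dpar d := by
  exact ((S.st_iff _ _).1 (S.st_st d)).1

theorem st_PV (d : S.D) : S.PV (S.st d) = S.PV d := by
  exact ((S.st_iff _ _).1 (S.st_st d)).2

theorem st_nxd (k : S.Co) (p : Fin 5) (h : p ≠ 4) : S.st (S.nxd (S.bd k p)) = S.bd k (p + 1) := by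
  rw [← S.st_B _ (S.bd_B k (p + 1)), S.st_iff, S.dpar_nxd, S.bd_par, S.bd_par, S.bd_PV, S.bd_PV',
    val_succ_NASub p h]
  refine ⟨rfl, ?_⟩
  push_cast
  ring

theorem st_nxd_opp {d : S.D} (h : S.isB d = false) : S.st (S.nxd (S.opp d)) = S.st d := by
  exact (S.st_iff _ _).2 ⟨(S.dpar_nxd _).trans (S.opp_par d h), S.opp_PV' h⟩

theorem st_opp {d : S.D} (h : S.isB d = false) : S.st (S.opp d) = S.st (S.nxd d) := by
  exact (S.st_iff _ _).2 ⟨(S.opp_par d h).trans (S.dpar_nxd _).symm, S.opp_PV d h⟩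

theorem st_vnx (d : S.D) : S.st (S.vnx d) = S.st d := by
  cases h : S.isB (S.pvd d)
  · rw [S.vnx_false_NASub h, S.st_opp h, S.nxd_pvd]
  · rw [S.vnx_true_NASub h, S.st_st]

theorem isC_of_st {d d' : S.D} (h : S.st d = S.st d') (hc : S.isC d) : d' = d := by
  rw [S.st_B d hc.1] at h
  rw [← S.st_C d' (h ▸ hc), ← h]

theorem not_isC_vnx {d : S.D} (h : ¬S.isC d) : ¬S.isC (S.vnx d) := by
  intro hc
  exact h ((S.isC_of_st (S.st_vnx d) hc).symm ▸ hc)

theorem isB_vnx {d : S.D} (h : ¬S.isC d) : S.isB (S.vnx d) = S.isB (S.pvd d) := by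
  cases hb : S.isB (S.pvd d)
  · rw [S.vnx_false_NASub hb, S.opp_B _ hb]
  · obtain ⟨k, p, hp, rfl⟩ := S.last_NASub hb h
    rw [S.vnx_true_NASub hb, S.st_nxd k p hp, S.bd_B]

theorem ls_bd (k : S.Co) (p : Fin 4) : S.ls (S.bd k p.succ) = S.nxd (S.bd k p.castSucc) := by
  rw [S.ls_bd_NASub]
  congr 2
  revert p
  decide

theorem ls_bd_rev (k : S.Co) (p : Fin 4) :
    S.ls (S.bd k p.castSucc.rev) = S.nxd (S.bd k p.succ.rev) := by
  rw [S.ls_bd_NASub]
  congr 2
  revert p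
  decide

/-- facts on the first dart `d` at a vertex on a side -/
theorem first_facts {d : S.D} (h : S.isB d = true) (h0 : S.bp d ≠ 0) :
    ¬S.isC d ∧ S.isB (S.pvd d) = false ∧ S.st (S.ls d) = d ∧ S.isB (S.pvd (S.ls d)) = true ∧
      ¬S.isC (S.ls d) ∧ S.isB (S.ls d) = false ∧ S.vnx (S.ls d) = d ∧ S.dpar (S.ls d) = S.dpar d ∧
      S.PC (S.dch d) - S.PC (S.dch (S.ls d)) = S.δ (S.bs d) ∧
      (S.mo (S.dch (S.ls d))).a * S.δ (S.pv (S.dco (S.ls d))) = S.δ (S.bs d) ∧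
      (S.mo (S.dch d)).a * S.δ (S.dco d) = S.δ (S.bs d) := by
  obtain ⟨k, q, hq, rfl⟩ : ∃ k q, q ≠ 4 ∧ d = S.bd k (q + 1) := by
    refine ⟨S.bs d, S.bp d - 1, ?_, by rw [sub_add_cancel, S.bd_eta d h]⟩
    revert h0
    generalize S.bp d = p
    revert p
    decide
  have hl : S.ls (S.bd k (q + 1)) = S.nxd (S.bd k q) := by
    rw [S.ls_bd_NASub, add_sub_cancel_right]
  have h1 : S.isB (S.pvd (S.nxd (S.bd k q))) = true := by rw [S.pvd_nxd, S.bd_B]
  have h2 : ¬S.isC (S.nxd (S.bd k q)) := fun hc => hq ((S.isC_nxd_bd k q).1 hc)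
  rw [hl, S.bd_bs]
  refine ⟨fun hc => h0 hc.2, Bool.eq_false_iff.2 fun hb => h0 (S.BB _ h hb), S.st_nxd k q hq, h1,
    h2, Bool.eq_false_iff.2 fun hb => h2 ⟨hb, S.BB _ hb h1⟩, ?_, ?_, ?_, ?_, S.bd_δ k _⟩
  · rw [S.vnx_true_NASub h1, S.st_nxd k q hq]
  · rw [S.dpar_nxd, S.bd_par, S.bd_par]
  · rw [S.dch_nxd, S.bd_PC, S.bd_PC, val_succ_NASub q hq]
    push_cast
    ring
  · rw [S.dch_nxd, S.dco_nxd, S.pv_nx, S.bd_δ]

/-- facts on the last dart `d` at a vertex on a side -/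
theorem last_facts {d : S.D} (h : S.isB (S.pvd d) = true) (hc : ¬S.isC d) :
    S.isB (S.st d) = true ∧ S.bp (S.st d) ≠ 0 ∧ S.ls (S.st d) = d := by
  obtain ⟨k, p, hp, rfl⟩ := S.last_NASub h hc
  rw [S.st_nxd k p hp, S.bd_bp, S.ls_bd_NASub, add_sub_cancel_right]
  refine ⟨S.bd_B _ _, ?_, rfl⟩
  revert hp
  generalize p = q
  revert q
  decide

theorem vnx_inj {d d' : S.D} (h : ¬S.isC d) (h' : ¬S.isC d') (e : S.vnx d = S.vnx d') :
    d = d' := by
  have hb : S.isB (S.pvd d') = S.isB (S.pvd d) := by rw [← S.isB_vnx h, ← S.isB_vnx h', e]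
  cases h1 : S.isB (S.pvd d)
  · rw [h1] at hb
    rw [S.vnx_false_NASub h1, S.vnx_false_NASub hb] at e
    have e' := congrArg (fun x => S.nxd (S.opp x)) e
    simpa only [S.opp_opp _ h1, S.opp_opp _ hb, S.nxd_pvd] using e'
  · rw [h1] at hb
    rw [S.vnx_true_NASub h1, S.vnx_true_NASub hb] at e
    rw [← (S.last_facts h1 h).2.2, e, (S.last_facts hb h').2.2]

theorem two_of_st {d d' : S.D} (hc : ¬S.isC d) (h : S.st d = S.st d') (h2 : S.two d) :
    S.two d' ∧ (d' = d ∨ d' = S.vnx d) := by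
  obtain ⟨n, rfl⟩ := S.vcyc d d' hc h
  have h3 : S.vnx^[n] d = d ∨ S.vnx^[n] d = S.vnx d := by
    clear h
    induction n with
    | zero => exact Or.inl rfl
    | succ n ih =>
      rw [Function.iterate_succ_apply']
      rcases ih with e | e
      · exact Or.inr (by rw [e])
      · exact Or.inl (by rw [e]; exact h2)
  refine ⟨?_, h3⟩
  rcases h3 with e | e
  · rwa [e]
  · rw [e]
    exact congrArg S.vnx h2

theorem two_first {d : S.D} (h : S.isB d = true) (h0 : S.bp d ≠ 0) (h2 : S.two d) :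
    S.turn d = S.ls d ∧ S.vnx d = S.ls d := by
  obtain ⟨h1, h3, -, -, h4, -, h5, -⟩ := S.first_facts h h0
  have e : S.vnx d = S.ls d := S.vnx_inj (S.not_isC_vnx h1) h4 (by rw [h5]; exact h2)
  exact ⟨by rw [← e, S.vnx_false_NASub h3]; rfl, e⟩

/-- the polygons spanned by the centres of the children around a vertex -/
noncomputable def gonV : Gon {d : S.D // ¬S.isC d ∧ ¬S.two d} S.D where
  fin := inferInstance
  fc d := S.st d.1
  nx d := ⟨S.vnx d.1, S.not_isC_vnx d.2.1,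
    fun h => d.2.2 (S.two_of_st (S.not_isC_vnx d.2.1) (S.st_vnx d.1) h).1⟩
  vt d := S.PC (S.dch d.1)
  fc_nx := fun c => S.st_vnx c.1
  cyc := by
    intro c c' h
    obtain ⟨n, e⟩ := S.vcyc c.1 c'.1 c.2.1 h
    refine ⟨n, Subtype.ext (Eq.trans ?_ e)⟩
    clear e
    induction n with
    | zero => rfl
    | succ n ih =>
      rw [Function.iterate_succ_apply', Function.iterate_succ_apply', ← ih]
  three := fun c h => c.2.2 (congrArg Subtype.val h)
  convex := fun c c' h h1 h2 => S.vconvex c.1 c'.1 c.2.1 c.2.2 h (fun e => h1 (Subtype.ext e))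
    fun e => h2 (Subtype.ext e)

end Sub

end Pool.Agent.Work.MP_0909b4_al.NA
end

-- merged part: Pool.Agent.Work.MP_0909b4_al.NAMem
section
/-! The finite labels of tiles and of adjacent pairs of tiles.

A memory `(d, o, old)` records the dart at which a vertex was born, the side `o` of the supertile
on the other side (if it was born on a side), and whether the tile is a corner descendant.

Plan.
* `rotL_rotR` etc.: case split on `isB`; `bd_eta`, `Fin.rev_rev`.
* `memD_cd`: unfold; in the corner case use `dab_C`; in the side case `dab_T` and the third clause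
  of `Val` (`acrossL (mem G (nx K)) = acrossR (mem G K)`).
* `val_chd`: for a dart `d` of the child both sides of the third clause are `dco (opp d)` if `d` is
  interior, and `dco (bd O (rev p))` with `O = acrossR (mem G K)` if `d = bd K p`
  (four cases `p = 0`, `p ≠ 0` at the start, `p = 4`, `p ≠ 4` at the end; `cur_age`, `dco_bd4`).
* `IsAdj.inv`: induction. For a birth both memories are fresh with the same `o` (it depends on
  `st` only). For `subz`, `acrossR (memD Q) = dco R` and `acrossR (memD R) = dco Q` by `Inv`, `Val`.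
* `lock`: a birth has an interior dart and is determined by its register; for `subz z p` the label
  `R` is computed from `Q = (bd k p, ma, mb)`: `(bd O 4, rotR ma, rotR ma)` with `O = acrossR ma` for
  `p = 0`, `(bd O 0, rotL ma, rotL ma)` with `O = acrossL ma` for `p = 4`, else
  `(bd O (rev p), rotL mb, rotR ma)` with `O = acrossR ma`. `Inv` is symmetric (`Inv.symm`), so `Q` is
  computed from `R` in the same way.
-/

namespace Pool.Agent.Work.MP_0909b4_al.NA

namespace Sub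

variable (S : Sub)

abbrev Mem : Type := S.D × S.Co × Bool
/-- labels of tiles -/
abbrev TS : Type := S.Ch × S.Mem × S.Mem
/-- labels of tiles with a corner -/
abbrev DS : Type := S.D × S.Mem × S.Mem
/-- labels of adjacent pairs, with a register -/
abbrev ZS : Type := S.DS × S.DS × S.TS × S.D

/-- the memory of the next tile clockwise -/
def rotR (m : S.Mem) : S.Mem :=
  if S.isB m.1 = true then (S.nxd (S.bd m.2.1 (S.bp m.1).rev), S.bs m.1, m.2.2)
  else (S.nxd (S.opp m.1), m.2.1, m.2.2)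

/-- the memory of the next tile counterclockwise -/
def rotL (m : S.Mem) : S.Mem :=
  if S.isB (S.pvd m.1) = true then (S.bd m.2.1 (S.bp (S.pvd m.1)).rev, S.bs (S.pvd m.1), m.2.2)
  else (S.opp (S.pvd m.1), m.2.1, m.2.2)

def cur (m : S.Mem) : S.Co := if m.2.2 = true then S.cor (S.dco m.1) else S.dco m.1
def age (m : S.Mem) : S.Mem := (m.1, m.2.1, true)
def acrossR (m : S.Mem) : S.Co := S.pv (S.cur (S.rotR m))
def acrossL (m : S.Mem) : S.Co := S.cur (S.rotL m)

def ts (x : S.DS) : S.TS := (S.dch x.1, x.2)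
def nxD (x : S.DS) : S.DS := (S.nxd x.1, x.2)

open Classical in
/-- the side of the neighbouring supertile -/
noncomputable def oth (x : S.DS) : S.Co :=
  if S.da (S.dch x.1) = S.bs (S.st x.1) then S.acrossR x.2.1
  else if S.da (S.dch x.1) = S.nx (S.bs (S.st x.1)) then S.acrossL x.2.1
  else if S.db (S.dch x.1) = S.bs (S.st x.1) then S.acrossR x.2.2 else S.acrossL x.2.2

open Classical in
noncomputable def memD (x : S.DS) : S.Mem :=
  if S.isC x.1 then S.age x.2.1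
  else if S.onS x.1 then (x.1, S.oth x, false) else (x.1, S.dco (S.st x.1), false)

noncomputable def mem (G : S.TS) (k : S.Co) : S.Mem := S.memD (S.dart G.1 k, G.2)

noncomputable def chd (G : S.TS) (j : S.Ch) : S.TS := (j, S.mem G (S.da j), S.mem G (S.db j))

noncomputable def cd (G : S.TS) (d : S.D) : S.DS := (d, (S.chd G (S.dch d)).2)

/-- consistent labels -/
def Val (G : S.TS) : Prop := ∀ k, S.cty k = S.ty G.1 → ¬S.isC (S.mem G k).1 ∧
  S.cur (S.mem G k) = k ∧ S.acrossR (S.mem G k) = S.acrossL (S.mem G (S.nx k))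

noncomputable def subD (x : S.DS) (p : Fin 5) : S.DS := S.cd (S.ts x) (S.bd (S.dco x.1) p)

/-- the corner child -/
noncomputable def cc (x : S.DS) : S.DS := S.subD x 0

noncomputable def birth (G : S.TS) (e : S.D) : S.ZS := (S.cd G e, S.cd G (S.opp e), G, e)

noncomputable def subz (p : Fin 5) (z : S.ZS) : S.ZS := (S.subD z.1 p, S.subD z.2.1 p.rev, z.2.2)

/-- the adjacent pairs that occur -/
inductive IsAdj : S.ZS → Prop
  | birth {G : S.TS} {e : S.D} : S.Val G → S.dpar e = S.ty G.1 → S.isB e = false →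
      S.left e = true → IsAdj (S.birth G e)
  | sub {z : S.ZS} (p : Fin 5) : IsAdj z → IsAdj (S.subz p z)

/-- two sides that can be glued -/
def GE (k k' : S.Co) : Prop := ‖S.δ k‖ = ‖S.δ k'‖ ∧ 0 < S.hx k + S.hx k'

def Inv (Q R : S.DS) : Prop := S.Val (S.ts Q) ∧ S.Val (S.ts R) ∧
  S.memD (S.nxD R) = S.rotR (S.memD Q) ∧ S.memD R = S.rotL (S.memD (S.nxD Q)) ∧
  S.GE (S.dco Q.1) (S.dco R.1)

/-- the age of an apex -/
noncomputable def ag (x : S.DS) : Fin 3 :=
  if (S.memD x).2.2 = true then (if x.2.1.2.2 = true then 2 else 1) else 0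

/-- the apex of age `a` born at the dart `d` -/
noncomputable def apx (G : S.TS) (d : S.D) (a : Fin 3) : S.DS := S.cc^[a.val] (S.cd G d)

/-- the corner of a descendant of age `a` -/
def cora (a : Fin 3) (k : S.Co) : S.Co := if a = 0 then k else S.cor k

variable {S}

theorem rotL_rotR (m : S.Mem) : S.rotL (S.rotR m) = m := by
  obtain ⟨d, o, b⟩ := m
  cases h : S.isB d
  · simp [rotR, rotL, h, S.pvd_nxd, S.opp_B d h, S.opp_opp d h]
  · simp [rotR, rotL, h, S.pvd_nxd, S.bd_B, S.bd_bs, S.bd_bp, S.bd_eta d h]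

theorem rotR_rotL (m : S.Mem) : S.rotR (S.rotL m) = m := by
  obtain ⟨d, o, b⟩ := m
  cases h : S.isB (S.pvd d)
  · simp [rotR, rotL, h, S.nxd_pvd, S.opp_B _ h, S.opp_opp _ h]
  · simp [rotR, rotL, h, S.nxd_pvd, S.bd_B, S.bd_bs, S.bd_bp, S.bd_eta _ h]

theorem rotR_age (m : S.Mem) : S.rotR (S.age m) = S.age (S.rotR m) := by
  cases h : S.isB m.1 <;> simp [rotR, age, h]

theorem rotL_age (m : S.Mem) : S.rotL (S.age m) = S.age (S.rotL m) := by
  cases h : S.isB (S.pvd m.1) <;> simp [rotL, age, h]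

theorem cur_age (m : S.Mem) : S.cur (S.age m) = S.cor (S.cur m) := by
  cases h : m.2.2 <;> simp [cur, age, h, S.cor_cor]

theorem ts_cd (G : S.TS) (d : S.D) : S.ts (S.cd G d) = S.chd G (S.dch d) := rfl

theorem ts_nxD (x : S.DS) : S.ts (S.nxD x) = S.ts x := by
  simp only [ts, nxD, S.dch_nxd]

theorem nxD_cd (G : S.TS) (d : S.D) : S.nxD (S.cd G d) = S.cd G (S.nxd d) := by
  simp only [cd, nxD, S.dch_nxd]

theorem nxD_inj {x y : S.DS} (h : S.nxD x = S.nxD y) : x = y := by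
  refine Prod.ext ?_ (congrArg (fun z : S.DS => z.2) h :)
  rw [← S.pvd_nxd x.1, ← S.pvd_nxd y.1]
  exact congrArg (fun z : S.DS => S.pvd z.1) h

theorem ds_ext {x y : S.DS} (h : S.ts x = S.ts y) (h' : S.dco x.1 = S.dco y.1) : x = y := by
  exact Prod.ext (S.d_ext (congrArg Prod.fst h) h') (congrArg (fun z : S.TS => z.2) h)

theorem mem_ts (x : S.DS) : S.mem (S.ts x) (S.dco x.1) = S.memD x := by
  simp only [mem, ts, S.dart_eta]

theorem mem_ts_nx (x : S.DS) : S.mem (S.ts x) (S.nx (S.dco x.1)) = S.memD (S.nxD x) := by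
  rfl

theorem NAMem_isC0 (k : S.Co) : S.isC (S.bd k 0) := ⟨S.bd_B k 0, S.bd_bp k 0⟩

theorem NAMem_fresh {x : S.DS} (hc : ¬S.isC x.1) : ∃ o, S.memD x = (x.1, o, false) := by
  unfold memD
  rw [if_neg hc]
  split_ifs <;> exact ⟨_, rfl⟩

theorem NAMem_notC {d : S.D} (h : S.isB d = false) : ¬S.isC d := fun hc => by
  simp [hc.1] at h

theorem NAMem_notC_nx {d : S.D} (h : S.isB d = false) : ¬S.isC (S.nxd d) := fun hc => by
  have := S.isC_pvd hc
  rw [S.pvd_nxd, h] at this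
  exact absurd this (by simp)

theorem memD_cd_C (G : S.TS) (k : S.Co) : S.memD (S.cd G (S.bd k 0)) = S.age (S.mem G k) := by
  unfold memD
  rw [if_pos (show S.isC (S.cd G (S.bd k 0)).1 from NAMem_isC0 k)]
  simp only [cd, chd, (S.dab_C k).1]

theorem memD_cd_S {G : S.TS} (h : S.Val G) {d : S.D} (hd : S.dpar d = S.ty G.1) (hc : ¬S.isC d)
    (hs : S.onS d) : S.memD (S.cd G d) = (d, S.acrossR (S.mem G (S.bs (S.st d))), false) := by
  have hK := (h _ ((S.cty_bs hs.1).trans ((S.st_par d).trans hd))).2.2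
  unfold memD
  rw [if_neg (show ¬S.isC (S.cd G d).1 from hc), if_pos (show S.onS (S.cd G d).1 from hs)]
  refine Prod.ext rfl (Prod.ext ?_ rfl)
  simp only [oth, cd, chd]
  split_ifs with h1 h2 h3
  · rw [h1]
  · rw [h2, hK]
  · rw [h3]
  · rw [(((S.dab_T d hs).resolve_left h1).resolve_left h2).resolve_left h3, hK]

theorem memD_cd_I (G : S.TS) {d : S.D} (hc : ¬S.isC d) (hs : ¬S.onS d) :
    S.memD (S.cd G d) = (d, S.dco (S.st d), false) := by
  unfold memD
  rw [if_neg (show ¬S.isC (S.cd G d).1 from hc), if_neg (show ¬S.onS (S.cd G d).1 from hs)]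
  rfl

theorem NAMem_int {x : S.DS} (h : S.isB x.1 = false) :
    S.acrossR (S.memD x) = S.acrossL (S.memD (S.nxD x)) := by
  obtain ⟨o, h1⟩ := NAMem_fresh (NAMem_notC h)
  obtain ⟨o', h2⟩ := NAMem_fresh (x := S.nxD x) (NAMem_notC_nx h)
  rw [h1, h2]
  simp [acrossR, acrossL, rotR, rotL, cur, nxD, h, S.pvd_nxd, S.dco_nxd, S.pv_nx]

theorem NAMem_bd {G : S.TS} (h : S.Val G) {k : S.Co} (hk : S.cty k = S.ty G.1) {p : Fin 5}
    (hp : p ≠ 0) : S.memD (S.cd G (S.bd k p)) = (S.bd k p, S.acrossR (S.mem G k), false) := by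
  have h1 := S.st_B _ (S.bd_B k p)
  rw [memD_cd_S h ((S.bd_par k p).trans hk) (fun hc => hp ((S.bd_bp k p).symm.trans hc.2))
    ⟨by rw [h1, S.bd_B], by rwa [h1, S.bd_bp]⟩, h1, S.bd_bs]

theorem NAMem_bd_nx {G : S.TS} (h : S.Val G) {k : S.Co} (hk : S.cty k = S.ty G.1) {p : Fin 5}
    (hp : p ≠ 4) : S.memD (S.cd G (S.nxd (S.bd k p))) =
      (S.nxd (S.bd k p), S.acrossR (S.mem G k), false) := by
  have h2 : p + 1 ≠ 0 := by
    revert p
    decide
  have h1 := S.st_nxd k p hp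
  rw [memD_cd_S h ((S.dpar_nxd _).trans ((S.bd_par k p).trans hk))
    (fun hc => hp ((S.isC_nxd_bd k p).1 hc)) ⟨by rw [h1, S.bd_B], by rwa [h1, S.bd_bp]⟩, h1,
    S.bd_bs]

theorem NAMem_R {G : S.TS} (h : S.Val G) {k : S.Co} (hk : S.cty k = S.ty G.1) (p : Fin 5) :
    S.acrossR (S.memD (S.cd G (S.bd k p))) = S.dco (S.bd (S.acrossR (S.mem G k)) p.rev) := by
  by_cases hp : p = 0
  · subst hp
    rw [memD_cd_C, acrossR, rotR_age, cur_age, show (0 : Fin 5).rev = 4 from rfl, S.dco_bd4,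
      acrossR, S.nx_pv]
  · rw [NAMem_bd h hk hp]
    generalize S.acrossR (S.mem G k) = O
    simp [acrossR, rotR, cur, S.bd_B, S.bd_bp, S.dco_nxd, S.pv_nx]

theorem NAMem_L {G : S.TS} (h : S.Val G) {k : S.Co} (hk : S.cty k = S.ty G.1) (p : Fin 5) :
    S.acrossL (S.memD (S.cd G (S.nxd (S.bd k p)))) =
      S.dco (S.bd (S.acrossR (S.mem G k)) p.rev) := by
  by_cases hp : p = 4
  · subst hp
    rw [S.nxd_bd4, memD_cd_C, acrossL, rotL_age, cur_age, (h k hk).2.2]
    rfl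
  · rw [NAMem_bd_nx h hk hp]
    generalize S.acrossR (S.mem G k) = O
    simp [acrossL, rotL, cur, S.bd_B, S.bd_bp, S.pvd_nxd]

theorem NAMem_val {G : S.TS} (h : S.Val G) {d : S.D} (hd : S.dpar d = S.ty G.1) :
    S.Val (S.ts (S.cd G d)) := by
  have key : ∀ d, S.dpar d = S.ty G.1 → ¬S.isC (S.memD (S.cd G d)).1 ∧
      S.cur (S.memD (S.cd G d)) = S.dco d ∧
      S.acrossR (S.memD (S.cd G d)) = S.acrossL (S.memD (S.cd G (S.nxd d))) := by
    intro d hd
    refine and_assoc.1 ⟨?_, ?_⟩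
    · by_cases hc : S.isC d
      · obtain ⟨k, rfl⟩ := (S.isC_iff d).1 hc
        have hk := h k ((S.bd_par k 0).symm.trans hd)
        rw [memD_cd_C, cur_age, hk.2.1]
        exact ⟨hk.1, rfl⟩
      · obtain ⟨o, h1⟩ := NAMem_fresh (x := S.cd G d) hc
        rw [h1]
        exact ⟨hc, rfl⟩
    · cases hb : S.isB d
      · rw [← nxD_cd]
        exact NAMem_int hb
      · have hk := (S.cty_bs hb).trans hd
        rw [← S.bd_eta d hb, NAMem_R h hk, NAMem_L h hk]
  intro k hk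
  have h1 : S.dch (S.dart (S.dch d) k) = S.dch d := S.dch_dart _ k hk
  have h2 : S.dco (S.dart (S.dch d) k) = k := S.dco_dart _ k hk
  have h3 := key (S.dart (S.dch d) k) ((congrArg S.par h1).trans hd)
  rw [← nxD_cd, ← mem_ts_nx, ← mem_ts, ts_cd, h1] at h3
  simp only [cd, h2] at h3
  exact h3

theorem Val.chd {G : S.TS} (h : S.Val G) {j : S.Ch} (hj : S.par j = S.ty G.1) :
    S.Val (S.chd G j) := by
  obtain ⟨k, hk⟩ := S.co_surj (S.ty j)
  have h1 := S.dch_dart j k hk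
  have := NAMem_val h (d := S.dart j k) ((congrArg S.par h1).trans hj)
  rwa [ts_cd, h1] at this

theorem val_seed (m : S.Mem) : S.Val (S.j1, m, m) := by
  intro k hk
  have h1 : S.dch (S.dart S.j1 k) = S.j1 := S.dch_dart _ k hk
  have h2 : S.dco (S.dart S.j1 k) = k := S.dco_dart _ k hk
  have hb : S.isB (S.dart S.j1 k) = false := by
    by_contra hb
    have h3 := S.j1_int _ h1
    rw [S.st_B _ (by simpa using hb)] at h3
    exact hb h3
  have h3 := NAMem_int (x := (S.dart S.j1 k, m, m)) hb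
  obtain ⟨o, h4⟩ := NAMem_fresh (x := (S.dart S.j1 k, m, m)) (NAMem_notC hb)
  refine ⟨?_, ?_, ?_⟩
  · rw [mem, h4]
    exact NAMem_notC hb
  · rw [mem, h4]
    exact h2
  · simpa only [mem, nxD, Sub0.nxd, h1, h2] using h3

theorem exists_val : ∃ G : S.TS, S.Val G := by
  obtain ⟨k, -⟩ := S.co_surj S.tS
  exact ⟨_, val_seed (S.bd k 0, k, false)⟩

theorem Val.subD {x : S.DS} (h : S.Val (S.ts x)) (p : Fin 5) : S.Val (S.ts (S.subD x p)) := by
  exact NAMem_val h ((S.bd_par _ p).trans (S.dco_ty _))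

theorem Val.wf {x : S.DS} (h : S.Val (S.ts x)) :
    ¬S.isC (S.memD x).1 ∧ S.cur (S.memD x) = S.dco x.1 := by
  have := h _ (S.dco_ty x.1)
  rw [mem_ts] at this
  exact ⟨this.1, this.2.1⟩

theorem cc_eq (x : S.DS) : S.cc x = (S.bd (S.dco x.1) 0, S.memD x, S.memD x) := by
  simp only [cc, subD, cd, chd, (S.dab_C _).1, (S.dab_C _).2, mem_ts]

theorem memD_cc (x : S.DS) : S.memD (S.cc x) = S.age (S.memD x) := by
  rw [cc, subD, memD_cd_C, mem_ts]

theorem NAMem_dco_cc (x : S.DS) : S.dco (S.cc x).1 = S.cor (S.dco x.1) := rfl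

theorem cc_three (x : S.DS) : S.cc^[3] x = S.cc^[2] x := by
  change S.cc (S.cc (S.cc x)) = S.cc (S.cc x)
  rw [cc_eq (S.cc (S.cc x)), memD_cc, NAMem_dco_cc, NAMem_dco_cc, S.cor_cor, cc_eq (S.cc x),
    memD_cc]
  rfl

theorem nxD_subD4 (x : S.DS) : S.nxD (S.subD x 4) = S.cc (S.nxD x) := by
  rw [subD, nxD_cd, S.nxd_bd4, cc, subD, ts_nxD, ← S.dco_nxd]
  rfl

theorem subz0_iter (z : S.ZS) (n : ℕ) : ((S.subz 0)^[n] z).1 = S.cc^[n] z.1 ∧
    S.nxD ((S.subz 0)^[n] z).2.1 = S.cc^[n] (S.nxD z.2.1) ∧ ((S.subz 0)^[n] z).2.2 = z.2.2 := by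
  induction n with
  | zero => exact ⟨rfl, rfl, rfl⟩
  | succ n ih =>
    simp only [Function.iterate_succ_apply']
    exact ⟨congrArg S.cc ih.1, (nxD_subD4 _).trans (congrArg S.cc ih.2.1), ih.2.2⟩

theorem subz4_iter (z : S.ZS) (n : ℕ) : S.nxD ((S.subz 4)^[n] z).1 = S.cc^[n] (S.nxD z.1) ∧
    ((S.subz 4)^[n] z).2.1 = S.cc^[n] z.2.1 ∧ ((S.subz 4)^[n] z).2.2 = z.2.2 := by
  induction n with
  | zero => exact ⟨rfl, rfl, rfl⟩
  | succ n ih =>
    simp only [Function.iterate_succ_apply']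
    exact ⟨(nxD_subD4 _).trans (congrArg S.cc ih.1), congrArg S.cc ih.2.1, ih.2.2⟩

theorem subz0_three (z : S.ZS) : (S.subz 0)^[3] z = (S.subz 0)^[2] z := by
  obtain ⟨a1, a2, a3⟩ := subz0_iter z 3
  obtain ⟨b1, b2, b3⟩ := subz0_iter z 2
  exact Prod.ext (by rw [a1, b1, cc_three])
    (Prod.ext (nxD_inj (by rw [a2, b2, cc_three])) (a3.trans b3.symm))

theorem subz4_three (z : S.ZS) : (S.subz 4)^[3] z = (S.subz 4)^[2] z := by
  obtain ⟨a1, a2, a3⟩ := subz4_iter z 3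
  obtain ⟨b1, b2, b3⟩ := subz4_iter z 2
  exact Prod.ext (nxD_inj (by rw [a1, b1, cc_three]))
    (Prod.ext (by rw [a2, b2, cc_three]) (a3.trans b3.symm))

theorem IsAdj.iter {z : S.ZS} (h : S.IsAdj z) (p : Fin 5) (n : ℕ) :
    S.IsAdj ((S.subz p)^[n] z) := by
  induction n with
  | zero => exact h
  | succ n ih =>
    rw [Function.iterate_succ_apply']
    exact ih.sub p

theorem Inv.symm {Q R : S.DS} (h : S.Inv Q R) : S.Inv R Q := by
  obtain ⟨h1, h2, h3, h4, h5, h6⟩ := h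
  exact ⟨h2, h1, by rw [h4, rotR_rotL], by rw [h3, rotL_rotR], h5.symm, by rwa [add_comm]⟩

theorem NAMem_across {Q R : S.DS} (h : S.Inv Q R) : S.acrossR (S.memD Q) = S.dco R.1 := by
  have h1 := (Val.wf (x := S.nxD R) (by rw [ts_nxD]; exact h.2.1)).2
  rw [acrossR, ← h.2.2.1, h1]
  simp only [nxD, S.dco_nxd, S.pv_nx]

theorem NAMem_sub {Q R : S.DS} (h : S.Inv Q R) (p : Fin 5) :
    S.memD (S.nxD (S.subD R p.rev)) = S.rotR (S.memD (S.subD Q p)) := by
  by_cases hp : p = 0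
  · subst hp
    rw [show (0 : Fin 5).rev = 4 from rfl, nxD_subD4, memD_cc, h.2.2.1, ← rotR_age, ← memD_cc]
    rfl
  · have hp' : p.rev ≠ 4 := by
      revert p
      decide
    rw [subD, subD, nxD_cd, NAMem_bd h.1 (S.dco_ty _) hp, NAMem_bd_nx h.2.1 (S.dco_ty _) hp',
      mem_ts, mem_ts, NAMem_across h, NAMem_across h.symm]
    simp [rotR, S.bd_B, S.bd_bp, S.bd_bs]

theorem NAMem_same {G : S.TS} (h : S.Val G) {d d' : S.D} (hd : S.dpar d = S.ty G.1)
    (hc : ¬S.isC d) (hc' : ¬S.isC d') (e : S.st d' = S.st d) :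
    ∃ o, S.memD (S.cd G d) = (d, o, false) ∧ S.memD (S.cd G d') = (d', o, false) := by
  have hd' : S.dpar d' = S.ty G.1 := ((S.st_iff d' d).1 e).1.trans hd
  have hs : S.onS d' ↔ S.onS d := by simp only [Sub0.onS, e]
  by_cases h1 : S.onS d
  · exact ⟨_, memD_cd_S h hd hc h1, by rw [memD_cd_S h hd' hc' (hs.2 h1), e]⟩
  · exact ⟨_, memD_cd_I G hc h1, by rw [memD_cd_I G hc' (mt hs.1 h1), e]⟩

theorem NAMem_norm_bd (k : S.Co) (p : Fin 5) : ‖S.δ (S.dco (S.bd k p))‖ = ‖S.δ k‖ := by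
  rw [← S.bd_δ k p, norm_mul, Mot.norm_a, one_mul]

theorem IsAdj.inv {z : S.ZS} (h : S.IsAdj z) : S.Inv z.1 z.2.1 := by
  induction h with
  | @birth G e h hd hb _ =>
    have hb' := S.opp_B e hb
    have hd' := (S.opp_par e hb).trans hd
    refine ⟨NAMem_val h hd, NAMem_val h hd', ?_, ?_, ?_, S.opp_hx e hb⟩
    · obtain ⟨o, h1, h2⟩ := NAMem_same h hd (NAMem_notC hb) (NAMem_notC_nx hb') (S.st_nxd_opp hb)
      simp [Sub.birth, nxD_cd, h1, h2, rotR, hb]
    · obtain ⟨o, h1, h2⟩ := NAMem_same h hd' (NAMem_notC hb') (NAMem_notC_nx hb) (S.st_opp hb).symm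
      simp [Sub.birth, nxD_cd, h1, h2, rotL, hb, S.pvd_nxd]
    · have h1 := S.PV_nxd e
      have h2 := S.PV_nxd (S.opp e)
      rw [S.opp_PV' hb, S.opp_PV e hb, h1] at h2
      have h3 : (S.mo (S.dch e)).a * S.δ (S.dco e) =
          -((S.mo (S.dch (S.opp e))).a * S.δ (S.dco (S.opp e))) := by linear_combination -h2
      have h4 := congrArg norm h3
      rwa [norm_neg, norm_mul, norm_mul, Mot.norm_a, Mot.norm_a, one_mul, one_mul] at h4
  | @sub z p _ ih =>
    refine ⟨ih.1.subD p, ih.2.1.subD p.rev, NAMem_sub ih p, ?_, ?_, ?_⟩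
    · have h1 := NAMem_sub ih.symm p.rev
      rw [Fin.rev_rev] at h1
      simp only [subz]
      rw [h1, rotL_rotR]
    · exact (NAMem_norm_bd _ _).trans (ih.2.2.2.2.1.trans (NAMem_norm_bd _ _).symm)
    · have h1 := ih.2.2.2.2.2
      rwa [← S.bd_hx _ p, ← S.bd_hx (S.dco z.2.1.1) p.rev] at h1

theorem NAMem_subD_mid (x : S.DS) {p : Fin 5} (h0 : p ≠ 0) (h4 : p ≠ 4) :
    S.subD x p = (S.bd (S.dco x.1) p, S.memD x, S.memD (S.nxD x)) := by
  simp only [subD, cd, chd, (S.dab_S _ p h0 h4).1, (S.dab_S _ p h0 h4).2, mem_ts, mem_ts_nx]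

theorem NAMem_lock {Q R Q' R' : S.DS} (h : S.Inv Q R) (h' : S.Inv Q' R') {p p' : Fin 5}
    (e : S.subD Q p = S.subD Q' p') : S.subD R p.rev = S.subD R' p'.rev := by
  have e1 : S.bd (S.dco Q.1) p = S.bd (S.dco Q'.1) p' := congrArg Prod.fst e
  obtain rfl : p = p' := by rw [← S.bd_bp (S.dco Q.1) p, e1, S.bd_bp]
  have hR : S.memD Q = S.memD Q' → S.memD (S.nxD R) = S.memD (S.nxD R') ∧ S.dco R.1 = S.dco R'.1 :=
    fun e => ⟨by rw [h.2.2.1, h'.2.2.1, e], by rw [← NAMem_across h, ← NAMem_across h', e]⟩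
  have hL : S.memD (S.nxD Q) = S.memD (S.nxD Q') → S.memD R = S.memD R' :=
    fun e => by rw [h.2.2.2.1, h'.2.2.2.1, e]
  by_cases h0 : p = 0
  · subst h0
    have e2 : S.cc Q = S.cc Q' := e
    rw [cc_eq, cc_eq] at e2
    obtain ⟨h1, h2⟩ := hR (congrArg (fun x : S.DS => x.2.1) e2)
    refine nxD_inj ?_
    rw [show (0 : Fin 5).rev = 4 from rfl, nxD_subD4, nxD_subD4, cc_eq, cc_eq, h1]
    simp only [nxD, S.dco_nxd, h2]
  by_cases h4 : p = 4
  · subst h4
    have e2 := congrArg S.nxD e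
    rw [nxD_subD4, nxD_subD4, cc_eq, cc_eq] at e2
    have h1 := hL (congrArg (fun x : S.DS => x.2.1) e2)
    change S.cc R = S.cc R'
    rw [cc_eq, cc_eq, ← h.2.1.wf.2, ← h'.2.1.wf.2, h1]
  have h0' : p.rev ≠ 0 ∧ p.rev ≠ 4 := by
    clear e e1
    revert p
    decide
  rw [NAMem_subD_mid _ h0 h4, NAMem_subD_mid _ h0 h4] at e
  obtain ⟨h1, h2⟩ := hR (congrArg (fun x : S.DS => x.2.1) e)
  rw [NAMem_subD_mid _ h0'.1 h0'.2, NAMem_subD_mid _ h0'.1 h0'.2, h1, h2,
    hL (congrArg (fun x : S.DS => x.2.2) e)]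

theorem NAMem_mixed {G : S.TS} {d : S.D} (hb : S.isB d = false) (z : S.ZS) (p : Fin 5) :
    ¬((S.birth G d).1 = (S.subz p z).1 ∨ (S.birth G d).2.1 = (S.subz p z).2.1) := by
  rintro (e | e)
  · have h1 : S.isB d = S.isB (S.bd _ _) := congrArg (fun x : S.DS => S.isB x.1) e
    simp [hb, S.bd_B] at h1
  · have h1 : S.isB (S.opp d) = S.isB (S.bd _ _) := congrArg (fun x : S.DS => S.isB x.1) e
    simp [S.opp_B d hb, S.bd_B] at h1

theorem lock {z z' : S.ZS} (h : S.IsAdj z) (h' : S.IsAdj z') (e : z.2.2 = z'.2.2)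
    (e' : z.1 = z'.1 ∨ z.2.1 = z'.2.1) : z = z' := by
  rcases h with ⟨-, -, hb, -⟩ | ⟨p, h⟩ <;> rcases h' with ⟨-, -, hb', -⟩ | ⟨p', h'⟩
  · obtain ⟨rfl, rfl⟩ := Prod.mk.inj e
    rfl
  · exact (NAMem_mixed hb _ _ e').elim
  · exact (NAMem_mixed hb' _ _ (e'.imp Eq.symm Eq.symm)).elim
  · rcases e' with e' | e'
    · exact Prod.ext e' (Prod.ext (NAMem_lock h.inv h'.inv e') e)
    · have := NAMem_lock h.inv.symm h'.inv.symm e'
      rw [Fin.rev_rev, Fin.rev_rev] at this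
      exact Prod.ext this (Prod.ext e' e)

theorem apx_val {G : S.TS} (h : S.Val G) {d : S.D} (hd : S.dpar d = S.ty G.1) (a : Fin 3) :
    S.Val (S.ts (S.apx G d a)) := by
  unfold apx
  induction a.val with
  | zero => exact NAMem_val h hd
  | succ n ih =>
    rw [Function.iterate_succ_apply']
    exact ih.subD 0

theorem apx_info (G : S.TS) {d : S.D} (hc : ¬S.isC d) (a : Fin 3) :
    (S.memD (S.apx G d a)).1 = d ∧ S.ag (S.apx G d a) = a ∧
      S.dco (S.apx G d a).1 = S.cora a (S.dco d) := by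
  obtain ⟨o, h⟩ : ∃ o, S.memD (S.cd G d) = (d, o, false) := NAMem_fresh (x := S.cd G d) hc
  have h1 : ∀ x, (S.cc x).2.1 = S.memD x := fun x => congrArg (fun x : S.DS => x.2.1) (cc_eq x)
  fin_cases a
  · refine ⟨?_, ?_, rfl⟩ <;> simp [ag, apx, h]
  · refine ⟨?_, ?_, rfl⟩ <;> simp [ag, apx, h, h1, memD_cc, age]
  · refine ⟨?_, ?_, S.cor_cor _⟩ <;> simp [ag, apx, h, h1, memD_cc, age]

theorem dco_cc_iter (x : S.DS) (a : Fin 3) :
    S.dco (S.cc^[a.val] x).1 = S.cora a (S.dco x.1) := by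
  fin_cases a
  exacts [rfl, rfl, S.cor_cor _]

end Sub

end Pool.Agent.Work.MP_0909b4_al.NA
end

-- merged part: Pool.Agent.Work.MP_0909b4_al.NAGeoZ
section
/-! The motions that glue adjacent tiles.

Plan. `C - V k = δ / 2 + (hx k / ‖δ‖ ^ 2) I δ` because `C` is at the same distance from `V k` and
`V (nx k)` (`circ`). With `az * δ k' = - δ k` this gives `wz_eq`. A motion is determined by its
rotation and the image of one point. For `gm_birth` use `opp_PV`, `opp_PV'`, `PV_nxd`; for `gm_sub`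
use `bd_δ`, `bd_PV`, `bd_PV'`, `bd_hx`. The iterated statements: `a` is `0`, `1` or `2`, with
`dch_bd4`, `dco_bd4`, `ra_cor`.
-/

namespace Pool.Agent.Work.MP_0909b4_al.NA

namespace Sub

variable (S : Sub)

/-- the rotation that takes the side `k'` to the reversed side `k` -/
noncomputable def az (k k' : S.Co) : ℂ := -(S.δ k / ‖S.δ k‖) / (S.δ k' / ‖S.δ k'‖)

theorem norm_az (k k' : S.Co) : ‖S.az k k'‖ = 1 := by
  have h1 : ‖S.δ k‖ ≠ 0 := norm_ne_zero_iff.2 (S.δ_ne k)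
  have h2 : ‖S.δ k'‖ ≠ 0 := norm_ne_zero_iff.2 (S.δ_ne k')
  simp [az, h1, h2]

/-- the gluing motion at scale `s` -/
noncomputable def gm (k k' : S.Co) (s : ℝ) : Mot :=
  ⟨S.az k k', s * (S.V (S.nx k) - S.az k k' * S.V k'), S.norm_az k k'⟩

/-- the vector between the two centres -/
noncomputable def wz (k k' : S.Co) : ℂ := S.gm k k' 1 • S.C (S.cty k') - S.C (S.cty k)

/-- the placement of a child at scale `s` -/
noncomputable def Bm (s : ℝ) (j : S.Ch) : Mot := (S.mo j).at' (s * (S.mo j).b)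

/-- the rotation of a corner descendant of age `a` -/
noncomputable def rotm (a : Fin 3) (k : S.Co) : Mot :=
  if a = 0 then 1 else (S.mo (S.dch (S.bd k 0))).at' 0

/-- the placement of an apex in the frame of a vertex face -/
noncomputable def am (d : S.D) (a : Fin 3) : Mot :=
  (S.mo (S.dch d) * S.rotm a (S.dco d)).at' (S.PC (S.dch d) / 2)

variable {S}

theorem centre_eq (k : S.Co) : S.C (S.cty k) - S.V k =
    S.δ k / 2 + ((S.hx k / ‖S.δ k‖ ^ 2 : ℝ) : ℂ) * (Complex.I * S.δ k) := by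
  have h1 := S.circ k
  have h2 := S.circ (S.nx k)
  rw [S.cty_nx, ← h1] at h2
  have h3 : ‖S.δ k‖ ^ 2 ≠ 0 := pow_ne_zero 2 (norm_ne_zero_iff.2 (S.δ_ne k))
  have h4 : S.V (S.nx k) - S.C (S.cty k) = S.δ k - (S.C (S.cty k) - S.V k) := by
    rw [Sub0.δ]; ring
  rw [h4, ← Complex.normSq_neg (S.V k - _), neg_sub] at h2
  rw [Complex.sq_norm] at h3 ⊢
  rw [Sub0.hx]
  generalize S.C (S.cty k) - S.V k = u at h2 ⊢
  generalize S.δ k = d at h2 h3 ⊢
  obtain ⟨y, hy⟩ : ∃ y, y = cross d u / Complex.normSq d := ⟨_, rfl⟩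
  rw [← hy]
  rw [eq_div_iff h3] at hy
  simp only [Complex.normSq_apply, Complex.sub_re, Complex.sub_im, cross] at h2 h3 hy
  apply Complex.ext
  · simp only [Complex.add_re, Complex.div_ofNat_re, Complex.mul_re, Complex.ofReal_re,
      Complex.ofReal_im, Complex.I_re, Complex.I_im, Complex.mul_im]
    apply mul_right_cancel₀ h3
    linear_combination d.im * hy - d.re / 2 * h2
  · simp only [Complex.add_im, Complex.div_ofNat_im, Complex.mul_re, Complex.ofReal_re,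
      Complex.ofReal_im, Complex.I_re, Complex.I_im, Complex.mul_im]
    apply mul_right_cancel₀ h3
    linear_combination -d.re * hy - d.im / 2 * h2

theorem GE.symm {k k' : S.Co} (h : S.GE k k') : S.GE k' k := by
  exact ⟨h.1.symm, by rw [add_comm]; exact h.2⟩

theorem GE.az_δ {k k' : S.Co} (h : S.GE k k') : S.az k k' * S.δ k' = -S.δ k := by
  have h1 : ((‖S.δ k'‖ : ℝ) : ℂ) ≠ 0 := by exact_mod_cast norm_ne_zero_iff.2 (S.δ_ne k')
  have h2 := S.δ_ne k'
  rw [az, h.1]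
  field_simp

theorem GE.gm_V {k k' : S.Co} (h : S.GE k k') (s t : ℝ) :
    S.gm k k' s • ((s : ℂ) * S.V k' + t * S.δ k') = s * S.V k + (s - t) * S.δ k := by
  have h1 := h.az_δ
  have h2 : S.V (S.nx k) = S.V k + S.δ k := by rw [Sub0.δ]; ring
  simp only [Mot.smul_def, gm, h2]
  linear_combination (t : ℂ) * h1

theorem GE.NAGeoZ_wz {k k' : S.Co} (h : S.GE k k') :
    S.wz k k' = (((S.hx k + S.hx k') / ‖S.δ k‖ ^ 2 : ℝ) : ℂ) * (-Complex.I * S.δ k) := by
  have h1 := h.az_δ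
  have h2 : S.V (S.nx k) = S.V k + S.δ k := by rw [Sub0.δ]; ring
  have h3 := centre_eq k
  have h4 := centre_eq k'
  rw [← h.1] at h4
  rw [add_div, Complex.ofReal_add]
  simp only [wz, Mot.smul_def, gm, h2, Complex.ofReal_one]
  linear_combination S.az k k' * h4 - h3 +
    (1 / 2 + ((S.hx k' / ‖S.δ k‖ ^ 2 : ℝ) : ℂ) * Complex.I) * h1

theorem GE.wz_eq {k k' : S.Co} (h : S.GE k k') :
    ∃ l : ℝ, 0 < l ∧ S.wz k k' = l * (-Complex.I * S.δ k) := by
  exact ⟨_, div_pos h.2 (pow_pos (norm_pos_iff.2 (S.δ_ne k)) 2), h.NAGeoZ_wz⟩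

theorem NAGeoZ_opp {e : S.D} (h : S.isB e = false) :
    (S.mo (S.dch (S.opp e))).a * S.δ (S.dco (S.opp e)) =
      -((S.mo (S.dch e)).a * S.δ (S.dco e)) := by
  have h1 := S.PV_nxd e
  have h2 := S.PV_nxd (S.opp e)
  have h3 := S.opp_PV e h
  have h4 := S.opp_PV' h
  linear_combination h4 - h2 - h3 - h1

theorem GE.NAGeoZ_key {k k' κ κ' : S.Co} (h : S.GE k k') {ρ ρ' : ℂ} (n : ‖ρ‖ = 1) (n' : ‖ρ'‖ = 1)
    (e : ρ * S.δ κ = S.δ k) (e' : ρ' * S.δ κ' = S.δ k') (x : S.hx κ = S.hx k)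
    (x' : S.hx κ' = S.hx k') :
    S.GE κ κ' ∧ ρ * S.az κ κ' = S.az k k' * ρ' ∧ ρ * S.wz κ κ' = S.wz k k' := by
  have h1 : ‖S.δ κ‖ = ‖S.δ k‖ := by rw [← e, norm_mul, n, one_mul]
  have h2 : ‖S.δ κ'‖ = ‖S.δ k'‖ := by rw [← e', norm_mul, n', one_mul]
  have g : S.GE κ κ' := ⟨by rw [h1, h2, h.1], by rw [x, x']; exact h.2⟩
  refine ⟨g, mul_right_cancel₀ (S.δ_ne κ') ?_, ?_⟩
  · linear_combination ρ * g.az_δ - e - S.az k k' * e' - h.az_δ
  · rw [g.NAGeoZ_wz, h.NAGeoZ_wz, x, x', h1, ← e]; ring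

theorem GE.NAGeoZ_bd {k k' : S.Co} (h : S.GE k k') (p q : Fin 5) :
    S.GE (S.dco (S.bd k p)) (S.dco (S.bd k' q)) ∧
      (S.mo (S.dch (S.bd k p))).a * S.az (S.dco (S.bd k p)) (S.dco (S.bd k' q)) =
        S.az k k' * (S.mo (S.dch (S.bd k' q))).a ∧
      (S.mo (S.dch (S.bd k p))).a * S.wz (S.dco (S.bd k p)) (S.dco (S.bd k' q)) = S.wz k k' :=
  h.NAGeoZ_key (Mot.norm_a _) (Mot.norm_a _) (S.bd_δ k p) (S.bd_δ k' q) (S.bd_hx k p)
    (S.bd_hx k' q)

theorem GE.birth {e : S.D} (h : S.isB e = false) : S.GE (S.dco e) (S.dco (S.opp e)) := by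
  refine ⟨?_, S.opp_hx e h⟩
  have := congrArg norm (NAGeoZ_opp h)
  rw [norm_neg, norm_mul, norm_mul, Mot.norm_a, Mot.norm_a, one_mul, one_mul] at this
  exact this.symm

theorem GE.sub {k k' : S.Co} (h : S.GE k k') (p q : Fin 5) :
    S.GE (S.dco (S.bd k p)) (S.dco (S.bd k' q)) := by
  exact (h.NAGeoZ_bd p q).1

theorem NAGeoZ_birth_a {e : S.D} (h : S.isB e = false) :
    (S.mo (S.dch e)).a * S.az (S.dco e) (S.dco (S.opp e)) = (S.mo (S.dch (S.opp e))).a := by
  apply mul_right_cancel₀ (S.δ_ne (S.dco (S.opp e)))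
  linear_combination (S.mo (S.dch e)).a * (GE.birth h).az_δ - NAGeoZ_opp h

theorem NAGeoZ_birth_b {e : S.D} (h : S.isB e = false) :
    (S.mo (S.dch (S.opp e))).a * S.V (S.dco (S.opp e)) + (S.mo (S.dch (S.opp e))).b =
      (S.mo (S.dch e)).a * S.V (S.nx (S.dco e)) + (S.mo (S.dch e)).b := by
  have h2 := S.opp_PV e h
  rwa [Sub0.PV, Sub0.PV, S.dch_nxd, S.dco_nxd] at h2

theorem NAGeoZ_rev (p : Fin 5) : ((p.rev.val : ℕ) : ℂ) = 4 - p.val := by
  have : p.rev.val + p.val = 4 := by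
    rw [Fin.val_rev]
    omega
  rw [eq_sub_iff_add_eq]
  exact_mod_cast this

theorem gm_birth {e : S.D} (h : S.isB e = false) (s : ℝ) :
    S.Bm s (S.dch e) * S.gm (S.dco e) (S.dco (S.opp e)) s = S.Bm s (S.dch (S.opp e)) := by
  have h1 := NAGeoZ_birth_a h
  have h2 := NAGeoZ_birth_b h
  apply Mot.ext
  · exact h1
  · simp only [Bm, gm, Mot.mul_b, Mot.at'_a, Mot.at'_b]
    linear_combination -(s : ℂ) * h2 - s * S.V (S.dco (S.opp e)) * h1

theorem wz_birth {e : S.D} (h : S.isB e = false) :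
    (S.mo (S.dch e)).a * S.wz (S.dco e) (S.dco (S.opp e)) =
      S.PC (S.dch (S.opp e)) - S.PC (S.dch e) := by
  have h1 := NAGeoZ_birth_a h
  have h2 := NAGeoZ_birth_b h
  simp only [wz, gm, Sub0.PC, Mot.smul_def, S.dco_ty, Complex.ofReal_one]
  linear_combination (S.C (S.ty (S.dch (S.opp e))) - S.V (S.dco (S.opp e))) * h1 - h2

theorem GE.gm_sub {k k' : S.Co} (h : S.GE k k') (p : Fin 5) (s : ℝ) :
    S.Bm s (S.dch (S.bd k p)) * S.gm (S.dco (S.bd k p)) (S.dco (S.bd k' p.rev)) s =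
      S.gm k k' (5 * s) * S.Bm s (S.dch (S.bd k' p.rev)) := by
  have h1 := (h.NAGeoZ_bd p p.rev).2.1
  have h2 := S.bd_PV' k p
  have h3 := S.bd_PV k' p.rev
  have h4 : S.V (S.nx k) = S.V k + S.δ k := by rw [Sub0.δ]; ring
  have h5 := h.az_δ
  rw [Sub0.PV, S.dch_nxd, S.dco_nxd, Mot.smul_def] at h2
  rw [Sub0.PV, Mot.smul_def, NAGeoZ_rev] at h3
  apply Mot.ext
  · exact h1
  · simp only [Bm, gm, Mot.mul_b, Mot.at'_a, Mot.at'_b, h4]
    push_cast
    linear_combination (s : ℂ) * h2 - s * S.V (S.dco (S.bd k' p.rev)) * h1 -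
      s * S.az k k' * h3 - s * (4 - p.val) * h5

theorem GE.wz_sub {k k' : S.Co} (h : S.GE k k') (p : Fin 5) :
    (S.mo (S.dch (S.bd k p))).a * S.wz (S.dco (S.bd k p)) (S.dco (S.bd k' p.rev)) = S.wz k k' := by
  exact (h.NAGeoZ_bd p p.rev).2.2

theorem GE.PC_sub {k k' : S.Co} (h : S.GE k k') (p : Fin 5) :
    S.gm k k' (5 / 2) • (S.PC (S.dch (S.bd k' p.rev)) / 2) =
      (S.PC (S.dch (S.bd k p)) + S.wz k k') / 2 := by
  have h4 : S.V (S.nx k) = S.V k + S.δ k := by rw [Sub0.δ]; ring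
  have h5 := h.az_δ
  rw [S.bd_PC, S.bd_PC, NAGeoZ_rev]
  simp only [wz, gm, Mot.smul_def, h4]
  push_cast
  linear_combination (4 - p.val : ℂ) / 2 * h5

theorem rotm_b (a : Fin 3) (k : S.Co) : (S.rotm a k).b = 0 := by
  rw [rotm]
  split_ifs <;> rfl

theorem rotm_δ (a : Fin 3) (k : S.Co) : (S.rotm a k).a * S.δ (S.cora a k) = S.δ k ∧
    (S.rotm a k).a * S.δ (S.pv (S.cora a k)) = S.δ (S.pv k) := by
  rw [rotm, cora]
  split_ifs
  · exact ⟨one_mul _, one_mul _⟩
  · exact ⟨S.ra_δ k, S.ra_δ_pv k⟩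

theorem NAGeoZ_hx (a : Fin 3) (k : S.Co) : S.hx (S.cora a k) = S.hx k := by
  rw [cora]
  split_ifs
  · rfl
  · exact S.bd_hx k 0

theorem NAGeoZ_pv (a : Fin 3) (k : S.Co) :
    (S.rotm a (S.nx k)).a * S.δ (S.pv (S.cora a (S.nx k))) = S.δ k ∧
      S.hx (S.pv (S.cora a (S.nx k))) = S.hx k := by
  refine ⟨by rw [(rotm_δ a _).2, S.pv_nx], ?_⟩
  rw [cora]
  split_ifs
  · rw [S.pv_nx]
  · rw [← S.dco_bd4, S.bd_hx]

theorem NAGeoZ_dco {x y : S.DS} {a : Fin 3} (h : S.nxD y = S.cc^[a.val] (S.nxD x)) :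
    S.dco y.1 = S.pv (S.cora a (S.nx (S.dco x.1))) := by
  have h1 := dco_cc_iter (S.nxD x) a
  rw [← h, nxD, nxD, S.dco_nxd, S.dco_nxd] at h1
  rw [← h1, S.pv_nx]

theorem iter0_geo {z : S.ZS} (h : S.GE (S.dco z.1.1) (S.dco z.2.1.1)) (a : Fin 3) {z' : S.ZS}
    (e : z' = (S.subz 0)^[a.val] z) :
    (S.rotm a (S.dco z.1.1)).a * S.az (S.dco z'.1.1) (S.dco z'.2.1.1) =
      S.az (S.dco z.1.1) (S.dco z.2.1.1) * (S.rotm a (S.nx (S.dco z.2.1.1))).a ∧
    (S.rotm a (S.dco z.1.1)).a * S.wz (S.dco z'.1.1) (S.dco z'.2.1.1) =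
      S.wz (S.dco z.1.1) (S.dco z.2.1.1) := by
  obtain ⟨h1, h2, -⟩ := subz0_iter z a.val
  rw [← e] at h1 h2
  have e1 : S.dco z'.1.1 = S.cora a (S.dco z.1.1) := by rw [h1, dco_cc_iter]
  rw [e1, NAGeoZ_dco h2]
  exact (h.NAGeoZ_key (Mot.norm_a _) (Mot.norm_a _) (rotm_δ a _).1 (NAGeoZ_pv a _).1
    (NAGeoZ_hx a _) (NAGeoZ_pv a _).2).2

theorem iter4_geo {z : S.ZS} (h : S.GE (S.dco z.1.1) (S.dco z.2.1.1)) (a : Fin 3) {z' : S.ZS}
    (e : z' = (S.subz 4)^[a.val] z) :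
    (S.rotm a (S.nx (S.dco z.1.1))).a * S.az (S.dco z'.1.1) (S.dco z'.2.1.1) =
      S.az (S.dco z.1.1) (S.dco z.2.1.1) * (S.rotm a (S.dco z.2.1.1)).a ∧
    (S.rotm a (S.nx (S.dco z.1.1))).a * S.wz (S.dco z'.1.1) (S.dco z'.2.1.1) =
      S.wz (S.dco z.1.1) (S.dco z.2.1.1) := by
  obtain ⟨h1, h2, -⟩ := subz4_iter z a.val
  rw [← e] at h1 h2
  have e1 : S.dco z'.2.1.1 = S.cora a (S.dco z.2.1.1) := by rw [h2, dco_cc_iter]
  rw [e1, NAGeoZ_dco h1]
  exact (h.NAGeoZ_key (Mot.norm_a _) (Mot.norm_a _) (NAGeoZ_pv a _).1 (rotm_δ a _).1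
    (NAGeoZ_pv a _).2 (NAGeoZ_hx a _)).2

end Sub

end Pool.Agent.Work.MP_0909b4_al.NA
end

-- merged part: Pool.Agent.Work.MP_0909b4_al.NALab
section
/-! The labelled cells (definitions) and their combinatorial properties.

Faces: `core G` is the tile shrunk towards its centre, `strip z` the rectangle between two cores,
`vf G d a` the polygon of the centres around a vertex born in `G` (closed by the side `hs` if the
vertex is on a side of `G`), `mid z p a` the rectangle between two such caps.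

Plan.
* finiteness: inject into a sum of products.
* `vside_out`, `vside_inn`, `vside_ma`, `vside_ma'`: three cases; `subz0_iter`, `subz4_iter`, `nxD_cd`,
  `last_facts`, `first_facts`, and for the motions `iter0_geo`, `iter4_geo`, `gm_birth` with `s = 1`,
  `wz_birth`.
* `hside_*`: two cases, `two_first`.
* `ok_nx`, `ok_sd`, `fc_nx0`, `cyc0`, `three0`: case analysis on the corner.
-/

namespace Pool.Agent.Work.MP_0909b4_al.NA

namespace Sub

variable (S : Sub)

inductive Si : Type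
  | cs (x : S.DS)
  | se (z : S.ZS) (b : Bool)
  | hs (G : S.TS) (d : S.D) (a : Fin 3)

inductive Fa : Type
  | core (G : S.TS)
  | strip (z : S.ZS)
  | vf (G : S.TS) (d : S.D) (a : Fin 3)
  | mid (z : S.ZS) (p : Fin 4) (a : Fin 3)

inductive Cn0 : Type
  | core (x : S.DS)
  | strip (z : S.ZS) (i : Fin 4)
  | vf (G : S.TS) (d : S.D) (a : Fin 3)
  | mid (z : S.ZS) (p : Fin 4) (a : Fin 3) (i : Fin 4)

theorem finSi : Finite S.Si := by
  refine Finite.of_surjective
    (fun x : S.DS ⊕ (S.ZS × Bool) ⊕ (S.TS × S.D × Fin 3) => match x with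
      | .inl x => Si.cs x
      | .inr (.inl y) => .se y.1 y.2
      | .inr (.inr y) => .hs y.1 y.2.1 y.2.2) ?_
  rintro (x | ⟨z, b⟩ | ⟨G, d, a⟩)
  exacts [⟨.inl x, rfl⟩, ⟨.inr (.inl (z, b)), rfl⟩, ⟨.inr (.inr (G, d, a)), rfl⟩]

theorem finFa : Finite S.Fa := by
  refine Finite.of_surjective
    (fun x : S.TS ⊕ S.ZS ⊕ (S.TS × S.D × Fin 3) ⊕ (S.ZS × Fin 4 × Fin 3) => match x with
      | .inl x => Fa.core x
      | .inr (.inl y) => .strip y
      | .inr (.inr (.inl y)) => .vf y.1 y.2.1 y.2.2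
      | .inr (.inr (.inr y)) => .mid y.1 y.2.1 y.2.2) ?_
  rintro (x | z | ⟨G, d, a⟩ | ⟨z, p, a⟩)
  exacts [⟨.inl x, rfl⟩, ⟨.inr (.inl z), rfl⟩, ⟨.inr (.inr (.inl (G, d, a))), rfl⟩,
    ⟨.inr (.inr (.inr (z, p, a))), rfl⟩]

theorem finCn0 : Finite S.Cn0 := by
  have h1 : Finite S.DS := inferInstance
  have h2 : Finite S.ZS := inferInstance
  have h3 : Finite S.TS := inferInstance
  have h4 : Finite (S.ZS × Fin 4) := inferInstance
  have h5 : Finite (S.TS × S.D × Fin 3) := inferInstance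
  have h6 : Finite (S.ZS × Fin 4 × Fin 3 × Fin 4) := inferInstance
  refine Finite.of_surjective
    (fun x : S.DS ⊕ (S.ZS × Fin 4) ⊕ (S.TS × S.D × Fin 3) ⊕ (S.ZS × Fin 4 × Fin 3 × Fin 4) =>
      match x with
      | .inl x => Cn0.core x
      | .inr (.inl y) => .strip y.1 y.2
      | .inr (.inr (.inl y)) => .vf y.1 y.2.1 y.2.2
      | .inr (.inr (.inr y)) => .mid y.1 y.2.1 y.2.2.1 y.2.2.2) ?_
  rintro (x | ⟨z, i⟩ | ⟨G, d, a⟩ | ⟨z, p, a, i⟩)
  exacts [⟨.inl x, rfl⟩, ⟨.inr (.inl (z, i)), rfl⟩, ⟨.inr (.inr (.inl (G, d, a))), rfl⟩,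
    ⟨.inr (.inr (.inr (z, p, a, i))), rfl⟩]

/-- the corner of the first tile of a pair -/
def kQ (z : S.ZS) : S.Co := S.dco z.1.1
/-- the corner of the second tile of a pair -/
def kR (z : S.ZS) : S.Co := S.dco z.2.1.1

/-- a vertex of the core -/
noncomputable def cv (k : S.Co) : ℂ := (S.V k + S.C (S.cty k)) / 2

noncomputable def en : S.Si → Bool → S.DS
  | .cs x, false => x
  | .cs x, true => S.nxD x
  | .se z false, false => z.1
  | .se z false, true => S.nxD z.2.1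
  | .se z true, false => S.nxD z.1
  | .se z true, true => z.2.1
  | .hs G d a, false => S.apx G (S.ls d) a
  | .hs G d a, true => S.apx G d a

noncomputable def m1 : S.Si → Bool → Mot
  | .cs x, false => Mot.tr (S.cv (S.dco x.1))
  | .cs x, true => Mot.tr (S.cv (S.nx (S.dco x.1)))
  | .se _ _, false => 1
  | .se z _, true => (S.gm (S.kQ z) (S.kR z) 1).at' (S.wz (S.kQ z) (S.kR z) / 2)
  | .hs _ d a, false => S.am (S.ls d) a
  | .hs _ d a, true => S.am d a

/-- the side of a vertex face from the corner `d` to the corner `vnx d` -/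
noncomputable def vside (G : S.TS) (d : S.D) (a : Fin 3) : S.Si × Bool × Mot :=
  if S.isB (S.pvd d) = true then (.hs G (S.st d) a, false, 1)
  else if S.left (S.pvd d) = true then
    (.se ((S.subz 4)^[a.val] (S.birth G (S.pvd d))) true, false, S.am d a)
  else (.se ((S.subz 0)^[a.val] (S.birth G (S.turn d))) false, true, S.am (S.turn d) a)

open Classical in
/-- the side from the first corner `d` to the last corner `ls d` -/
noncomputable def hside (G : S.TS) (d : S.D) (a : Fin 3) : S.Si × Bool × Mot :=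
  if S.two d then S.vside G d a else (.hs G d a, true, 1)

/-- the first dart of the first supertile at the vertex `p + 1` of a pair -/
def dQ (z : S.ZS) (p : Fin 4) : S.D := S.bd (S.kQ z) p.succ
/-- the first dart of the second supertile at this vertex -/
def dR (z : S.ZS) (p : Fin 4) : S.D := S.bd (S.kR z) p.castSucc.rev

/-- side, direction and motion of a corner -/
noncomputable def sdm : S.Cn0 → S.Si × Bool × Mot
  | .core x => (.cs x, false, 1)
  | .strip z i => ![(.se z false, false, Mot.tr (S.cv (S.kQ z))),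
      (.cs z.2.1, true, S.gm (S.kQ z) (S.kR z) 1),
      (.se z true, true, Mot.tr (S.cv (S.nx (S.kQ z)))), (.cs z.1, true, 1)] i
  | .vf G d a => S.vside G d a
  | .mid z p a i => ![S.hside (S.ts z.1) (S.dQ z p) a,
      (.se ((S.subz 4)^[a.val] (S.subz p.castSucc z)) true, false, S.am (S.ls (S.dQ z p)) a),
      ((S.hside (S.ts z.2.1) (S.dR z p) a).1, (S.hside (S.ts z.2.1) (S.dR z p) a).2.1,
        S.gm (S.kQ z) (S.kR z) (5 / 2) * (S.hside (S.ts z.2.1) (S.dR z p) a).2.2),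
      (.se ((S.subz 0)^[a.val] (S.subz p.succ z)) false, true, S.am (S.dQ z p) a)] i

noncomputable def fc0 : S.Cn0 → S.Fa
  | .core x => .core (S.ts x)
  | .strip z _ => .strip z
  | .vf G d a => .vf G (S.st d) a
  | .mid z p a _ => .mid z p a

def nx0 : S.Cn0 → S.Cn0
  | .core x => .core (S.nxD x)
  | .strip z i => .strip z (i + 1)
  | .vf G d a => .vf G (S.vnx d) a
  | .mid z p a i => .mid z p a (i + 1)

/-- the corners that occur -/
def ok : S.Cn0 → Prop
  | .core x => S.Val (S.ts x)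
  | .strip z _ => S.IsAdj z
  | .vf G d _ => S.Val G ∧ S.dpar d = S.ty G.1 ∧ ¬S.isC d ∧ ¬S.two d
  | .mid z _ _ _ => S.IsAdj z

/-- the sides that occur -/
def okS : S.Si → Prop
  | .cs x => S.Val (S.ts x)
  | .se z _ => S.IsAdj z
  | .hs G d _ => S.Val G ∧ S.dpar d = S.ty G.1 ∧ S.isB d = true ∧ S.bp d ≠ 0

variable {S}

theorem NALab_vside (G : S.TS) (d : S.D) (a : Fin 3) :
    (S.isB (S.pvd d) = true ∧ S.vside G d a = (.hs G (S.st d) a, false, 1)) ∨
    (S.isB (S.pvd d) = false ∧ S.left (S.pvd d) = true ∧ S.vside G d a =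
      (.se ((S.subz 4)^[a.val] (S.birth G (S.pvd d))) true, false, S.am d a)) ∨
    (S.isB (S.pvd d) = false ∧ S.left (S.pvd d) = false ∧ S.vside G d a =
      (.se ((S.subz 0)^[a.val] (S.birth G (S.opp (S.pvd d)))) false, true,
        S.am (S.opp (S.pvd d)) a)) := by
  unfold vside
  by_cases h1 : S.isB (S.pvd d) = true
  · exact Or.inl ⟨h1, if_pos h1⟩
  · by_cases h2 : S.left (S.pvd d) = true
    · exact Or.inr (Or.inl ⟨by simpa using h1, h2, by rw [if_neg h1, if_pos h2]⟩)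
    · exact Or.inr (Or.inr ⟨by simpa using h1, by simpa using h2,
        by rw [if_neg h1, if_neg h2]; rfl⟩)

theorem NALab_hside (G : S.TS) (d : S.D) (a : Fin 3) :
    (S.two d ∧ S.hside G d a = S.vside G d a) ∨
      (¬S.two d ∧ S.hside G d a = (.hs G d a, true, 1)) := by
  unfold hside
  by_cases h : S.two d
  · exact Or.inl ⟨h, if_pos h⟩
  · exact Or.inr ⟨h, if_neg h⟩

theorem NALab_vnx_B {d : S.D} (h : S.isB (S.pvd d) = true) : S.vnx d = S.st d := if_pos h

theorem NALab_vnx_I {d : S.D} (h : S.isB (S.pvd d) = false) : S.vnx d = S.opp (S.pvd d) :=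
  if_neg (by simp [h])

theorem NALab_dQ (z : S.ZS) (p : Fin 4) : S.isB (S.dQ z p) = true ∧ S.bp (S.dQ z p) ≠ 0 ∧
    S.dpar (S.dQ z p) = S.ty (S.ts z.1).1 ∧ S.bs (S.dQ z p) = S.kQ z := by
  refine ⟨S.bd_B _ _, ?_, (S.bd_par _ _).trans (S.dco_ty _), S.bd_bs _ _⟩
  rw [dQ, S.bd_bp]
  exact Fin.succ_ne_zero p

theorem NALab_dR (z : S.ZS) (p : Fin 4) : S.isB (S.dR z p) = true ∧ S.bp (S.dR z p) ≠ 0 ∧
    S.dpar (S.dR z p) = S.ty (S.ts z.2.1).1 ∧ S.bs (S.dR z p) = S.kR z := by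
  refine ⟨S.bd_B _ _, ?_, (S.bd_par _ _).trans (S.dco_ty _), S.bd_bs _ _⟩
  rw [dR, S.bd_bp]
  revert p
  decide

theorem NALab_glue {e : S.D} (h : S.isB e = false) (r r' g : Mot) (W : ℂ)
    (h1 : r.a * g.a = S.az (S.dco e) (S.dco (S.opp e)) * r'.a)
    (h2 : r.a * W = S.wz (S.dco e) (S.dco (S.opp e))) :
    (S.mo (S.dch e) * r).at' (S.PC (S.dch e) / 2) * g.at' (W / 2) =
      (S.mo (S.dch (S.opp e)) * r').at' (S.PC (S.dch (S.opp e)) / 2) := by
  have e1 : (S.mo (S.dch e)).a * S.az (S.dco e) (S.dco (S.opp e)) = (S.mo (S.dch (S.opp e))).a :=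
    congrArg Mot.a (gm_birth h 1)
  have e2 := wz_birth h
  refine Mot.ext ?_ ?_
  · simp only [Mot.mul_a, Mot.at'_a]
    rw [mul_assoc, h1, ← mul_assoc, e1]
  · simp only [Mot.mul_a, Mot.mul_b, Mot.at'_a, Mot.at'_b]
    linear_combination (S.mo (S.dch e)).a / 2 * h2 + e2 / 2

theorem ok_nx {c : S.Cn0} (h : S.ok c) : S.ok (S.nx0 c) := by
  cases c with
  | core x =>
    change S.Val (S.ts (S.nxD x))
    rw [ts_nxD]
    exact h
  | strip z i => exact h
  | vf G d a =>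
    obtain ⟨h1, h2, h3, h4⟩ := h
    refine ⟨h1, ?_, S.not_isC_vnx h3, fun h5 => h4 ?_⟩
    · rw [← S.st_par, S.st_vnx, S.st_par, h2]
    · exact (S.two_of_st (S.not_isC_vnx h3) (S.st_vnx d) h5).1
  | mid z p a i => exact h

theorem okS_vside {G : S.TS} (h : S.Val G) {d : S.D} (hd : S.dpar d = S.ty G.1) (hc : ¬S.isC d)
    (a : Fin 3) : S.okS (S.vside G d a).1 := by
  rcases NALab_vside G d a with ⟨h1, e⟩ | ⟨h1, h2, e⟩ | ⟨h1, h2, e⟩ <;> rw [e]
  · obtain ⟨l1, l2, -⟩ := S.last_facts h1 hc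
    exact ⟨h, by rw [S.st_par, hd], l1, l2⟩
  · exact (IsAdj.birth h (by rw [S.dpar_pvd, hd]) h1 h2).iter 4 a.val
  · refine (IsAdj.birth h ?_ (S.opp_B _ h1) ?_).iter 0 a.val
    · rw [S.opp_par _ h1, S.dpar_pvd, hd]
    · rw [S.opp_left _ h1, h2]
      rfl

theorem okS_hside {G : S.TS} (h : S.Val G) {d : S.D} (hd : S.dpar d = S.ty G.1)
    (hB : S.isB d = true) (h0 : S.bp d ≠ 0) (a : Fin 3) : S.okS (S.hside G d a).1 := by
  rcases NALab_hside G d a with ⟨-, e⟩ | ⟨-, e⟩ <;> rw [e]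
  · exact okS_vside h hd (S.first_facts hB h0).1 a
  · exact ⟨h, hd, hB, h0⟩

theorem ok_sd {c : S.Cn0} (h : S.ok c) : S.okS (S.sdm c).1 := by
  cases c with
  | core x => exact h
  | strip z i =>
    have hz : S.IsAdj z := h
    match i with
    | 0 => exact hz
    | 1 => exact hz.inv.2.1
    | 2 => exact hz
    | 3 => exact hz.inv.1
  | vf G d a => exact okS_vside h.1 h.2.1 h.2.2.1 a
  | mid z p a i =>
    have hz : S.IsAdj z := h
    obtain ⟨q1, q2, q3, -⟩ := NALab_dQ z p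
    obtain ⟨r1, r2, r3, -⟩ := NALab_dR z p
    match i with
    | 0 => exact okS_hside hz.inv.1 q3 q1 q2 a
    | 1 => exact (hz.sub p.castSucc).iter 4 a.val
    | 2 => exact okS_hside hz.inv.2.1 r3 r1 r2 a
    | 3 => exact (hz.sub p.succ).iter 0 a.val

theorem vside_out (G : S.TS) {d : S.D} (hc : ¬S.isC d) (a : Fin 3) :
    S.en (S.vside G d a).1 (S.vside G d a).2.1 = S.apx G d a := by
  rcases NALab_vside G d a with ⟨h1, e⟩ | ⟨h1, -, e⟩ | ⟨h1, -, e⟩ <;> rw [e]
  · change S.apx G (S.ls (S.st d)) a = _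
    rw [(S.last_facts h1 hc).2.2]
  · refine (subz4_iter _ _).1.trans ?_
    change S.cc^[a.val] (S.nxD (S.cd G (S.pvd d))) = _
    rw [nxD_cd, S.nxd_pvd]
    rfl
  · refine (subz0_iter _ _).2.1.trans ?_
    change S.cc^[a.val] (S.nxD (S.cd G (S.opp (S.opp (S.pvd d))))) = _
    rw [S.opp_opp _ h1, nxD_cd, S.nxd_pvd]
    rfl

theorem vside_inn (G : S.TS) {d : S.D} (hc : ¬S.isC d) (a : Fin 3) :
    S.en (S.vside G d a).1 (!(S.vside G d a).2.1) = S.apx G (S.vnx d) a := by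
  rcases NALab_vside G d a with ⟨h1, e⟩ | ⟨h1, -, e⟩ | ⟨h1, -, e⟩ <;> rw [e]
  · obtain ⟨-, -, -⟩ := S.last_facts h1 hc
    rw [NALab_vnx_B h1]
    rfl
  · rw [NALab_vnx_I h1]
    exact (subz4_iter _ _).2.1
  · rw [NALab_vnx_I h1]
    exact (subz0_iter _ _).1

theorem vside_ma (G : S.TS) {d : S.D} (hc : ¬S.isC d) (a : Fin 3) :
    (S.vside G d a).2.2 * S.m1 (S.vside G d a).1 (S.vside G d a).2.1 = S.am d a := by
  rcases NALab_vside G d a with ⟨h1, e⟩ | ⟨h1, -, e⟩ | ⟨h1, -, e⟩ <;> rw [e]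
  · change 1 * S.am (S.ls (S.st d)) a = _
    rw [(S.last_facts h1 hc).2.2, one_mul]
  · exact mul_one _
  · have h2 := S.opp_B _ h1
    obtain ⟨g1, g2⟩ := iter0_geo (z := S.birth G (S.opp (S.pvd d))) (GE.birth h2) a rfl
    refine (NALab_glue h2 _ _ _ _ g1 g2).trans ?_
    change (S.mo (S.dch (S.opp (S.opp (S.pvd d)))) *
      S.rotm a (S.nx (S.dco (S.opp (S.opp (S.pvd d)))))).at'
        (S.PC (S.dch (S.opp (S.opp (S.pvd d)))) / 2) = _
    rw [S.opp_opp _ h1, S.dch_pvd, S.dco_pvd, S.nx_pv]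
    rfl

theorem vside_ma' (G : S.TS) {d : S.D} (hc : ¬S.isC d) (a : Fin 3) :
    (S.vside G d a).2.2 * S.m1 (S.vside G d a).1 (!(S.vside G d a).2.1) = S.am (S.vnx d) a := by
  rcases NALab_vside G d a with ⟨h1, e⟩ | ⟨h1, -, e⟩ | ⟨h1, -, e⟩ <;> rw [e]
  · obtain ⟨-, -, -⟩ := S.last_facts h1 hc
    rw [NALab_vnx_B h1]
    exact one_mul _
  · rw [NALab_vnx_I h1]
    obtain ⟨g1, g2⟩ := iter4_geo (z := S.birth G (S.pvd d)) (GE.birth h1) a rfl
    refine Eq.trans ?_ (NALab_glue h1 _ _ (S.gm _ _ 1) _ g1 g2)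
    have e2 : S.am d a = (S.mo (S.dch (S.pvd d)) * S.rotm a (S.nx (S.dco (S.pvd d)))).at'
        (S.PC (S.dch (S.pvd d)) / 2) := by
      rw [S.dch_pvd, S.dco_pvd, S.nx_pv]
      rfl
    rw [e2]
    rfl
  · rw [NALab_vnx_I h1]
    exact mul_one _

theorem hside_out (G : S.TS) {d : S.D} (hB : S.isB d = true) (h0 : S.bp d ≠ 0) (a : Fin 3) :
    S.en (S.hside G d a).1 (S.hside G d a).2.1 = S.apx G d a ∧
      (S.hside G d a).2.2 * S.m1 (S.hside G d a).1 (S.hside G d a).2.1 = S.am d a := by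
  rcases NALab_hside G d a with ⟨-, e⟩ | ⟨-, e⟩ <;> rw [e]
  · exact ⟨vside_out G (S.first_facts hB h0).1 a, vside_ma G (S.first_facts hB h0).1 a⟩
  · exact ⟨rfl, one_mul _⟩

theorem hside_inn (G : S.TS) {d : S.D} (hB : S.isB d = true) (h0 : S.bp d ≠ 0) (a : Fin 3) :
    S.en (S.hside G d a).1 (!(S.hside G d a).2.1) = S.apx G (S.ls d) a ∧
      (S.hside G d a).2.2 * S.m1 (S.hside G d a).1 (!(S.hside G d a).2.1) = S.am (S.ls d) a := by
  rcases NALab_hside G d a with ⟨h2, e⟩ | ⟨-, e⟩ <;> rw [e]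
  · rw [← (S.two_first hB h0 h2).2]
    exact ⟨vside_inn G (S.first_facts hB h0).1 a, vside_ma' G (S.first_facts hB h0).1 a⟩
  · exact ⟨rfl, one_mul _⟩

theorem dQ_facts (z : S.ZS) (p : Fin 4) : S.isB (S.dQ z p) = true ∧ S.bp (S.dQ z p) ≠ 0 ∧
    S.dpar (S.dQ z p) = S.ty (S.ts z.1).1 ∧ S.bs (S.dQ z p) = S.kQ z := by
  exact NALab_dQ z p

theorem dR_facts (z : S.ZS) (p : Fin 4) : S.isB (S.dR z p) = true ∧ S.bp (S.dR z p) ≠ 0 ∧
    S.dpar (S.dR z p) = S.ty (S.ts z.2.1).1 ∧ S.bs (S.dR z p) = S.kR z := by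
  exact NALab_dR z p

theorem fc_nx0 (c : S.Cn0) : S.fc0 (S.nx0 c) = S.fc0 c := by
  cases c with
  | core x => exact congrArg Fa.core (ts_nxD x)
  | strip z i => rfl
  | vf G d a => exact congrArg (fun e => Fa.vf G e a) (S.st_vnx d)
  | mid z p a i => rfl

theorem cyc0 {c c' : S.Cn0} (h : S.ok c) (e : S.fc0 c = S.fc0 c') : ∃ n, S.nx0^[n] c = c' := by
  have four : ∀ i i' : Fin 4, ∃ n : Fin 4, (fun j : Fin 4 => j + 1)^[n.val] i = i' := by decide
  cases c with
  | core x =>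
    cases c' with
    | core y =>
      have e1 : S.ts x = S.ts y := Fa.core.inj e
      have e2 : S.dch x.1 = S.dch y.1 := congrArg Prod.fst e1
      obtain ⟨n, hn⟩ := S.cyc (S.dco x.1) (S.dco y.1) (by rw [S.dco_ty, S.dco_ty, e2])
      have s1 : Function.Semiconj (Cn0.core (S := S)) S.nxD S.nx0 := fun _ => rfl
      have s2 : Function.Semiconj (fun x : S.DS => S.dco x.1) S.nxD S.nx := fun x =>
        S.dco_nxd x.1
      have s3 : Function.Semiconj S.ts S.nxD id := fun x => ts_nxD x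
      refine ⟨n, (s1.iterate_right n x).symm.trans (congrArg Cn0.core (ds_ext ?_ ?_))⟩
      · rw [s3.iterate_right n x, Function.iterate_id]
        exact e1
      · exact (s2.iterate_right n x).trans hn
    | strip => cases e
    | vf => cases e
    | mid => cases e
  | strip z i =>
    cases c' with
    | core => cases e
    | strip z' i' =>
      obtain rfl : z = z' := Fa.strip.inj e
      obtain ⟨n, hn⟩ := four i i'
      have s1 : Function.Semiconj (Cn0.strip (S := S) z) (fun j : Fin 4 => j + 1) S.nx0 :=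
        fun _ => rfl
      exact ⟨n, (s1.iterate_right n i).symm.trans (congrArg (Cn0.strip z) hn)⟩
    | vf => cases e
    | mid => cases e
  | vf G d a =>
    cases c' with
    | core => cases e
    | strip => cases e
    | vf G' d' a' =>
      obtain ⟨rfl, e2, rfl⟩ := Fa.vf.inj e
      obtain ⟨n, hn⟩ := S.vcyc d d' h.2.2.1 e2
      have s1 : Function.Semiconj (fun d => Cn0.vf (S := S) G d a) S.vnx S.nx0 := fun _ => rfl
      exact ⟨n, (s1.iterate_right n d).symm.trans (congrArg (fun d => Cn0.vf G d a) hn)⟩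
    | mid => cases e
  | mid z p a i =>
    cases c' with
    | core => cases e
    | strip => cases e
    | vf => cases e
    | mid z' p' a' i' =>
      obtain ⟨rfl, rfl, rfl⟩ := Fa.mid.inj e
      obtain ⟨n, hn⟩ := four i i'
      have s1 : Function.Semiconj (Cn0.mid (S := S) z p a) (fun j : Fin 4 => j + 1) S.nx0 :=
        fun _ => rfl
      exact ⟨n, (s1.iterate_right n i).symm.trans (congrArg (Cn0.mid z p a) hn)⟩

theorem three0 {c : S.Cn0} (h : S.ok c) : S.nx0 (S.nx0 c) ≠ c := by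
  have four : ∀ i : Fin 4, i + 1 + 1 ≠ i := by decide
  intro e
  cases c with
  | core x =>
    have e1 : S.nxd (S.nxd x.1) = x.1 := congrArg Prod.fst (Cn0.core.inj e)
    have e2 := congrArg S.dco e1
    rw [S.dco_nxd, S.dco_nxd] at e2
    exact S.three _ e2
  | strip z i => exact four i (Cn0.strip.inj e).2
  | vf G d a => exact h.2.2.2 (Cn0.vf.inj e).2.1
  | mid z p a i => exact four i (Cn0.mid.inj e).2.2.2

variable (S)

/-- the complex of labelled cells -/
noncomputable def poly0 : Poly0 where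
  Ap := S.DS
  Si := S.Si
  Fa := S.Fa
  Cn := {c : S.Cn0 // S.ok c}
  finA := inferInstance
  finS := S.finSi
  finF := S.finFa
  finC := by have := S.finCn0; infer_instance
  neF := ⟨.core S.exists_val.choose⟩
  en := S.en
  m1 := S.m1
  fc c := S.fc0 c.1
  nx c := ⟨S.nx0 c.1, ok_nx c.2⟩
  sd c := (S.sdm c.1).1
  fl c := (S.sdm c.1).2.1
  m2 c := (S.sdm c.1).2.2

end Sub

end Pool.Agent.Work.MP_0909b4_al.NA
end

-- merged part: Pool.Agent.Work.MP_0909b4_al.NALab2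
section
/-! The faces close up and are strictly convex.

Plan. `ap0`, `ma0` list the apex and its placement for every corner. `out_eq` and `inn_eq` are case
analyses on the corner (`fin_cases i`), with `vside_*`, `hside_*`, `subz0_iter`, `subz4_iter`,
`ls_bd`, `ls_bd_rev`, `iter0_geo`, `iter4_geo`, `GE.gm_sub` (with `s = 1` or `1/2`), `GE.wz_sub`,
`GE.PC_sub`, `GE.gm_V`; `IsAdj.inv` gives `GE`. Convexity: `S.convex`, `S.vconvex` scaled by `1/2`,
and `par_convex` with `wz_eq` for the two kinds of rectangles (`vt_strip`, `vt_mid`).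
-/

namespace Pool.Agent.Work.MP_0909b4_al.NA

/-- the vertices of a parallelogram -/
def parV (P u v : ℂ) : Fin 4 → ℂ := ![P, P + u, P + u + v, P + v]

theorem par_convex (P u v : ℂ) (h : 0 < cross u v) (i j : Fin 4) (h₁ : j ≠ i) (h₂ : j ≠ i + 1) :
    0 < cross (parV P u v (i + 1) - parV P u v i) (parV P u v j - parV P u v i) := by
  unfold cross at h ⊢
  fin_cases i <;> fin_cases j <;> first
    | exact absurd rfl h₁
    | exact absurd rfl h₂
    | (simp [parV]; linarith only [h])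

theorem par_mem (P u v : ℂ) (h : 0 < cross u v) (z : ℂ) :
    (∀ i : Fin 4, 0 ≤ cross (parV P u v (i + 1) - parV P u v i) (z - parV P u v i)) ↔
      ∃ s t : ℝ, 0 ≤ s ∧ s ≤ 1 ∧ 0 ≤ t ∧ t ≤ 1 ∧ z = P + s * u + t * v := by
  have e0 : cross (parV P u v (0 + 1) - parV P u v 0) (z - parV P u v 0) = cross u (z - P) := by
    simp [parV]
  have e1 : cross (parV P u v (1 + 1) - parV P u v 1) (z - parV P u v 1) =
      cross u v - cross (z - P) v := by
    have : (1 + 1 : Fin 4) = 2 := rfl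
    rw [this]
    simp [parV, cross]
    ring
  have e2 : cross (parV P u v (2 + 1) - parV P u v 2) (z - parV P u v 2) =
      cross u v - cross u (z - P) := by
    have : (2 + 1 : Fin 4) = 3 := rfl
    rw [this]
    simp [parV, cross]
    ring
  have e3 : cross (parV P u v (3 + 1) - parV P u v 3) (z - parV P u v 3) = cross (z - P) v := by
    have : (3 + 1 : Fin 4) = 0 := rfl
    rw [this]
    simp [parV, cross]
    ring
  constructor
  · intro H
    have h0 := H 0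
    have h1 := H 1
    have h2 := H 2
    have h3 := H 3
    rw [e0] at h0
    rw [e1] at h1
    rw [e2] at h2
    rw [e3] at h3
    refine ⟨cross (z - P) v / cross u v, cross u (z - P) / cross u v, div_nonneg h3 h.le,
      (div_le_one h).2 (by linarith), div_nonneg h0 h.le, (div_le_one h).2 (by linarith), ?_⟩
    have hne := h.ne'
    apply Complex.ext
    · simp only [Complex.add_re, Complex.re_ofReal_mul]
      field_simp
      simp only [cross, Complex.sub_re, Complex.sub_im]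
      ring
    · simp only [Complex.add_im, Complex.im_ofReal_mul]
      field_simp
      simp only [cross, Complex.sub_re, Complex.sub_im]
      ring
  · rintro ⟨s, t, hs0, hs1, ht0, ht1, rfl⟩
    have c1 : cross u (P + s * u + t * v - P) = t * cross u v := by
      simp [cross]
      ring
    have c2 : cross (P + s * u + t * v - P) v = s * cross u v := by
      simp [cross]
      ring
    intro i
    fin_cases i
    · refine le_of_le_of_eq ?_ e0.symm
      rw [c1]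
      positivity
    · refine le_of_le_of_eq ?_ e1.symm
      rw [c2]
      linarith only [h, hs1, mul_nonneg_of_nonpos_of_nonpos (le_of_lt (Mathlib.Tactic.Linarith.sub_neg_of_lt h)) (Mathlib.Tactic.Linarith.sub_nonpos_of_le hs1)]
    · refine le_of_le_of_eq ?_ e2.symm
      rw [c1]
      linarith only [h, ht1, mul_nonneg_of_nonpos_of_nonpos (le_of_lt (Mathlib.Tactic.Linarith.sub_neg_of_lt h)) (Mathlib.Tactic.Linarith.sub_nonpos_of_le ht1)]
    · refine le_of_le_of_eq ?_ e3.symm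
      rw [c2]
      positivity

namespace Sub

variable (S : Sub)

/-- the apex of a corner -/
noncomputable def ap0 : S.Cn0 → S.DS
  | .core x => x
  | .strip z i => ![z.1, S.nxD z.2.1, z.2.1, S.nxD z.1] i
  | .vf G d a => S.apx G d a
  | .mid z p a i => ![S.apx (S.ts z.1) (S.dQ z p) a, S.apx (S.ts z.1) (S.ls (S.dQ z p)) a,
      S.apx (S.ts z.2.1) (S.dR z p) a, S.apx (S.ts z.2.1) (S.ls (S.dR z p)) a] i

/-- the placement of the apex of a corner -/
noncomputable def ma0 : S.Cn0 → Mot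
  | .core x => Mot.tr (S.cv (S.dco x.1))
  | .strip z i => ![Mot.tr (S.cv (S.kQ z)),
      S.gm (S.kQ z) (S.kR z) 1 * Mot.tr (S.cv (S.nx (S.kR z))),
      S.gm (S.kQ z) (S.kR z) 1 * Mot.tr (S.cv (S.kR z)), Mot.tr (S.cv (S.nx (S.kQ z)))] i
  | .vf _ d a => S.am d a
  | .mid z p a i => ![S.am (S.dQ z p) a, S.am (S.ls (S.dQ z p)) a,
      S.gm (S.kQ z) (S.kR z) (5 / 2) * S.am (S.dR z p) a,
      S.gm (S.kQ z) (S.kR z) (5 / 2) * S.am (S.ls (S.dR z p)) a] i

variable {S}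

theorem glue_NALab2 {k k' : S.Co} (h : S.GE k k') (q : Fin 5) (r r' : Mot) (m m' : S.Co)
    (h1 : r.a * S.az m m' = S.az (S.dco (S.bd k q)) (S.dco (S.bd k' q.rev)) * r'.a)
    (h2 : r.a * S.wz m m' = S.wz (S.dco (S.bd k q)) (S.dco (S.bd k' q.rev))) :
    (S.mo (S.dch (S.bd k q)) * r).at' (S.PC (S.dch (S.bd k q)) / 2) *
        (S.gm m m' 1).at' (S.wz m m' / 2) =
      S.gm k k' (5 / 2) *
        (S.mo (S.dch (S.bd k' q.rev)) * r').at' (S.PC (S.dch (S.bd k' q.rev)) / 2) := by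
  have g1 : (S.mo (S.dch (S.bd k q))).a * S.az (S.dco (S.bd k q)) (S.dco (S.bd k' q.rev)) =
      S.az k k' * (S.mo (S.dch (S.bd k' q.rev))).a := congrArg Mot.a (h.gm_sub q 1)
  have g2 := h.wz_sub q
  have g3 := h.PC_sub q
  apply Mot.ext
  · change (S.mo (S.dch (S.bd k q))).a * r.a * S.az m m' =
      S.az k k' * ((S.mo (S.dch (S.bd k' q.rev))).a * r'.a)
    rw [mul_assoc, h1, ← mul_assoc, g1, mul_assoc]
  · change (S.mo (S.dch (S.bd k q))).a * r.a * (S.wz m m' / 2) + S.PC (S.dch (S.bd k q)) / 2 =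
      S.gm k k' (5 / 2) • (S.PC (S.dch (S.bd k' q.rev)) / 2)
    rw [g3, ← g2, ← h2]
    ring

theorem b1_NALab2 {k k' : S.Co} (h : S.GE k k') :
    (S.gm k k' 1 * Mot.tr (S.cv (S.nx k'))).b = S.cv k + S.wz k k' / 2 := by
  have e := h.az_δ
  simp only [Sub0.δ] at e
  simp only [Mot.mul_b, Mot.tr_b, wz, Mot.smul_def, gm, cv, S.cty_nx, Complex.ofReal_one]
  linear_combination (1 / 2 : ℂ) * e

theorem b2_NALab2 (k k' : S.Co) :
    (S.gm k k' 1 * Mot.tr (S.cv k')).b = S.cv (S.nx k) + S.wz k k' / 2 := by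
  simp only [Mot.mul_b, Mot.tr_b, wz, Mot.smul_def, gm, cv, S.cty_nx, Complex.ofReal_one]
  ring

theorem b3_NALab2 (k : S.Co) : S.cv (S.nx k) = S.cv k + S.δ k / 2 := by
  simp only [cv, S.cty_nx, Sub0.δ]
  ring

theorem lsQ_NALab2 (z : S.ZS) (p : Fin 4) :
    S.ls (S.dQ z p) = S.nxd (S.bd (S.kQ z) p.castSucc) := S.ls_bd _ _

theorem lsR_NALab2 (z : S.ZS) (p : Fin 4) :
    S.ls (S.dR z p) = S.nxd (S.bd (S.kR z) p.succ.rev) := S.ls_bd_rev _ _

theorem out_eq {c : S.Cn0} (h : S.ok c) : S.en (S.sdm c).1 (S.sdm c).2.1 = S.ap0 c ∧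
    (S.sdm c).2.2 * S.m1 (S.sdm c).1 (S.sdm c).2.1 = S.ma0 c := by
  rcases c with x | ⟨z, i⟩ | ⟨G, d, a⟩ | ⟨z, p, a, i⟩
  · exact ⟨rfl, one_mul _⟩
  · fin_cases i
    · exact ⟨rfl, mul_one _⟩
    · exact ⟨rfl, rfl⟩
    · refine ⟨rfl, ?_⟩
      change Mot.tr (S.cv (S.nx (S.kQ z))) *
        (S.gm (S.kQ z) (S.kR z) 1).at' (S.wz (S.kQ z) (S.kR z) / 2) =
        S.gm (S.kQ z) (S.kR z) 1 * Mot.tr (S.cv (S.kR z))
      apply Mot.ext
      · simp
      · rw [b2_NALab2]
        simp [add_comm]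
    · exact ⟨rfl, one_mul _⟩
  · exact ⟨vside_out G h.2.2.1 a, vside_ma G h.2.2.1 a⟩
  · have hG : S.GE (S.kQ z) (S.kR z) := (IsAdj.inv h).2.2.2.2
    fin_cases i
    · exact hside_out (S.ts z.1) (dQ_facts z p).1 (dQ_facts z p).2.1 a
    · refine ⟨?_, mul_one _⟩
      change S.nxD ((S.subz 4)^[a.val] (S.subz p.castSucc z)).1 =
        S.apx (S.ts z.1) (S.ls (S.dQ z p)) a
      rw [(subz4_iter _ _).1, lsQ_NALab2, apx, ← nxD_cd]
      rfl
    · have H := hside_out (S.ts z.2.1) (dR_facts z p).1 (dR_facts z p).2.1 a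
      refine ⟨H.1, ?_⟩
      exact (mul_assoc _ _ _).trans (congrArg (S.gm (S.kQ z) (S.kR z) (5 / 2) * ·) H.2)
    · constructor
      · change S.nxD ((S.subz 0)^[a.val] (S.subz p.succ z)).2.1 =
          S.apx (S.ts z.2.1) (S.ls (S.dR z p)) a
        rw [(subz0_iter _ _).2.1, lsR_NALab2, apx, ← nxD_cd]
        rfl
      · have I := iter0_geo (z := S.subz p.succ z) (hG.sub p.succ p.succ.rev) a rfl
        have E := glue_NALab2 hG p.succ _ _ _ _ I.1 I.2
        refine E.trans ?_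
        change _ = S.gm (S.kQ z) (S.kR z) (5 / 2) * S.am (S.ls (S.dR z p)) a
        rw [lsR_NALab2, am, S.dch_nxd, S.dco_nxd]
        rfl

theorem inn_eq {c : S.Cn0} (h : S.ok c) : S.en (S.sdm c).1 (!(S.sdm c).2.1) = S.ap0 (S.nx0 c) ∧
    (S.sdm c).2.2 * S.m1 (S.sdm c).1 (!(S.sdm c).2.1) = S.ma0 (S.nx0 c) := by
  rcases c with x | ⟨z, i⟩ | ⟨G, d, a⟩ | ⟨z, p, a, i⟩
  · refine ⟨rfl, ?_⟩
    change 1 * Mot.tr (S.cv (S.nx (S.dco x.1))) = Mot.tr (S.cv (S.dco (S.nxd x.1)))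
    rw [one_mul, S.dco_nxd]
  · have hG : S.GE (S.kQ z) (S.kR z) := (IsAdj.inv h).2.2.2.2
    fin_cases i
    · refine ⟨rfl, ?_⟩
      change Mot.tr (S.cv (S.kQ z)) *
        (S.gm (S.kQ z) (S.kR z) 1).at' (S.wz (S.kQ z) (S.kR z) / 2) =
        S.gm (S.kQ z) (S.kR z) 1 * Mot.tr (S.cv (S.nx (S.kR z)))
      apply Mot.ext
      · simp
      · rw [b1_NALab2 hG]
        simp [add_comm]
    · exact ⟨rfl, rfl⟩
    · exact ⟨rfl, mul_one _⟩
    · exact ⟨rfl, one_mul _⟩
  · exact ⟨vside_inn G h.2.2.1 a, vside_ma' G h.2.2.1 a⟩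
  · have hG : S.GE (S.kQ z) (S.kR z) := (IsAdj.inv h).2.2.2.2
    fin_cases i
    · exact hside_inn (S.ts z.1) (dQ_facts z p).1 (dQ_facts z p).2.1 a
    · constructor
      · change ((S.subz 4)^[a.val] (S.subz p.castSucc z)).2.1 = S.apx (S.ts z.2.1) (S.dR z p) a
        rw [(subz4_iter _ _).2.1]
        rfl
      · have I := iter4_geo (z := S.subz p.castSucc z) (hG.sub p.castSucc p.castSucc.rev) a rfl
        have E := glue_NALab2 hG p.castSucc _ _ _ _ I.1 I.2
        refine Eq.trans ?_ E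
        change S.am (S.ls (S.dQ z p)) a * _ = _
        rw [lsQ_NALab2, am, S.dch_nxd, S.dco_nxd]
        rfl
    · have H := hside_inn (S.ts z.2.1) (dR_facts z p).1 (dR_facts z p).2.1 a
      refine ⟨H.1, ?_⟩
      exact (mul_assoc _ _ _).trans (congrArg (S.gm (S.kQ z) (S.kR z) (5 / 2) * ·) H.2)
    · refine ⟨?_, mul_one _⟩
      change ((S.subz 0)^[a.val] (S.subz p.succ z)).1 = S.apx (S.ts z.1) (S.dQ z p) a
      rw [(subz0_iter _ _).1]
      rfl

theorem vt_strip {z : S.ZS} (h : S.IsAdj z) (i : Fin 4) : (S.ma0 (.strip z i)).b =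
    parV (S.cv (S.kQ z)) (S.wz (S.kQ z) (S.kR z) / 2) (S.δ (S.kQ z) / 2) i := by
  have hG : S.GE (S.kQ z) (S.kR z) := (IsAdj.inv h).2.2.2.2
  fin_cases i
  · rfl
  · exact b1_NALab2 hG
  · refine (b2_NALab2 (S.kQ z) (S.kR z)).trans ?_
    change _ = S.cv (S.kQ z) + S.wz (S.kQ z) (S.kR z) / 2 + S.δ (S.kQ z) / 2
    rw [b3_NALab2]
    ring
  · exact b3_NALab2 _

theorem vt_mid {z : S.ZS} (h : S.IsAdj z) (p : Fin 4) (a : Fin 3) (i : Fin 4) :
    (S.ma0 (.mid z p a i)).b = parV (S.PC (S.dch (S.dQ z p)) / 2) (-S.δ (S.kQ z) / 2)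
      (S.wz (S.kQ z) (S.kR z) / 2) i := by
  have hG : S.GE (S.kQ z) (S.kR z) := (IsAdj.inv h).2.2.2.2
  have F := (S.first_facts (dQ_facts z p).1 (dQ_facts z p).2.1).2.2.2.2.2.2.2.2.1
  rw [(dQ_facts z p).2.2.2] at F
  fin_cases i
  · rfl
  · change S.PC (S.dch (S.ls (S.dQ z p))) / 2 = S.PC (S.dch (S.dQ z p)) / 2 + -S.δ (S.kQ z) / 2
    linear_combination (-1 / 2 : ℂ) * F
  · rw [lsQ_NALab2, S.dch_nxd] at F
    refine (hG.PC_sub p.castSucc).trans ?_
    change _ = S.PC (S.dch (S.dQ z p)) / 2 + -S.δ (S.kQ z) / 2 + S.wz (S.kQ z) (S.kR z) / 2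
    linear_combination (-1 / 2 : ℂ) * F
  · change S.gm (S.kQ z) (S.kR z) (5 / 2) • (S.PC (S.dch (S.ls (S.dR z p))) / 2) =
      S.PC (S.dch (S.bd (S.kQ z) p.succ)) / 2 + S.wz (S.kQ z) (S.kR z) / 2
    rw [lsR_NALab2, S.dch_nxd, hG.PC_sub]
    ring

theorem half_NALab2 (A B C D : ℂ) :
    cross ((B + D) / 2 - (A + D) / 2) ((C + D) / 2 - (A + D) / 2) = cross (B - A) (C - A) / 4 := by
  simp [cross]
  ring

theorem cross_NALab2 {k k' : S.Co} (h : S.GE k k') :
    0 < cross (S.wz k k' / 2) (S.δ k / 2) ∧ 0 < cross (-S.δ k / 2) (S.wz k k' / 2) := by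
  obtain ⟨l, hl, e⟩ := h.wz_eq
  have hp : 0 < (S.δ k).re * (S.δ k).re + (S.δ k).im * (S.δ k).im := by
    rw [← Complex.normSq_apply]
    exact Complex.normSq_pos.2 (S.δ_ne k)
  have := mul_pos hl hp
  rw [e]
  constructor <;> simp [cross] <;> linarith only [this]

theorem convex0 {c c' : S.Cn0} (h : S.ok c) (h' : S.ok c') (e : S.fc0 c = S.fc0 c') (h₁ : c' ≠ c)
    (h₂ : c' ≠ S.nx0 c) :
    0 < cross ((S.ma0 (S.nx0 c)).b - (S.ma0 c).b) ((S.ma0 c').b - (S.ma0 c).b) := by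
  rcases c with x | ⟨z, i⟩ | ⟨G, d, a⟩ | ⟨z, p, a, i⟩ <;>
    rcases c' with x' | ⟨z', i'⟩ | ⟨G', d', a'⟩ | ⟨z', p', a', i'⟩ <;>
    simp only [fc0, reduceCtorEq, Fa.core.injEq, Fa.strip.injEq, Fa.vf.injEq, Fa.mid.injEq] at e
  · have hch : S.dch x.1 = S.dch x'.1 := congrArg Prod.fst e
    have hty : S.cty (S.dco x.1) = S.cty (S.dco x'.1) := by rw [S.dco_ty, S.dco_ty, hch]
    have n1 : S.dco x'.1 ≠ S.dco x.1 := fun hh => h₁ (congrArg Cn0.core (ds_ext e.symm hh))
    have n2 : S.dco x'.1 ≠ S.nx (S.dco x.1) := fun hh => h₂ (congrArg Cn0.core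
      (ds_ext (e.symm.trans (ts_nxD x).symm) (hh.trans (S.dco_nxd x.1).symm)))
    have H := S.convex _ _ hty n1 n2
    change 0 < cross (S.cv (S.dco (S.nxd x.1)) - S.cv (S.dco x.1))
      (S.cv (S.dco x'.1) - S.cv (S.dco x.1))
    rw [S.dco_nxd, cv, cv, cv, S.cty_nx, ← hty, half_NALab2]
    positivity
  · subst e
    have hG : S.GE (S.kQ z) (S.kR z) := (IsAdj.inv h).2.2.2.2
    change 0 < cross ((S.ma0 (.strip z (i + 1))).b - _) _
    rw [vt_strip h, vt_strip h, vt_strip h]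
    exact par_convex _ _ _ (cross_NALab2 hG).1 i i' (fun hh => h₁ (congrArg _ hh))
      (fun hh => h₂ (congrArg _ hh))
  · obtain ⟨rfl, hst, rfl⟩ := e
    have H := S.vconvex d d' h.2.2.1 h.2.2.2 hst (fun hh => h₁ (by rw [hh]))
      (fun hh => h₂ (by rw [hh]; rfl))
    change 0 < cross (S.PC (S.dch (S.vnx d)) / 2 - S.PC (S.dch d) / 2)
      (S.PC (S.dch d') / 2 - S.PC (S.dch d) / 2)
    have E := half_NALab2 (S.PC (S.dch d)) (S.PC (S.dch (S.vnx d))) (S.PC (S.dch d')) 0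
    simp only [add_zero] at E
    rw [E]
    positivity
  · obtain ⟨rfl, rfl, rfl⟩ := e
    have hG : S.GE (S.kQ z) (S.kR z) := (IsAdj.inv h).2.2.2.2
    change 0 < cross ((S.ma0 (.mid z p a (i + 1))).b - _) _
    rw [vt_mid h, vt_mid h, vt_mid h]
    exact par_convex _ _ _ (cross_NALab2 hG).2 i i' (fun hh => h₁ (congrArg _ hh))
      (fun hh => h₂ (congrArg _ hh))

theorem ap_eq (c : S.poly0.Cn) : S.poly0.ap c = S.ap0 c.1 := (out_eq c.2).1

theorem ma_eq (c : S.poly0.Cn) : S.poly0.ma c = S.ma0 c.1 := (out_eq c.2).2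

end Sub

end Pool.Agent.Work.MP_0909b4_al.NA
end

-- merged part: Pool.Agent.Work.MP_0909b4_al.NALink1
section
/-! The links of the apexes: roles, directions and uniqueness.

A half side at an apex `x` with corner `k` has one of five roles: `0` (core side forwards), `1`
(perpendicular to the side `k`), `2` (closing side `hs`), `3` (perpendicular to the side `pv k`),
`4` (core side backwards). `uu c` is the half side at the end of the side of `c`, `vv c` the half
side at the start of the side of `nx0 c`; both are at the apex `ap0 (nx0 c)`.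

Plan.
* `dir_eq`: cases on the side; `GE.wz_eq`, `GE.az_δ` (from `IsAdj.inv`), `first_facts`, `rotm_δ`,
  `apx_info`.
* `kinds`: cases on the corner. For `vf G d a` the apex is `apx G (vnx d) a`, so its birth dart is
  `vnx d` (`apx_info`); `isB_vnx`, `BB`, `two_of_st`. For `mid` the birth dart is a first dart
  (`i = 1, 3`) or a last dart (`i = 0, 2`); `first_facts`, `two_first`.
* `simple`, `cap_match`: two corners at the same apex with the same half sides have the same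
  constructor (compare roles and constructors of the sides). For `vf`: the apex gives `vnx d` and
  `a` (`apx_info`, `vnx_inj`), and each of the two sides contains `G` (`vside_reg`). For `mid`: the
  apex gives the dart and `a`; the side `hside` gives `ts` of one tile of the pair, hence that
  tile (`ds_ext`), the side `se` gives the register, and `lock` applies.
-/

namespace Pool.Agent.Work.MP_0909b4_al.NA

namespace Sub

variable (S : Sub)

def rl : S.Si × Bool → Fin 5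
  | (.cs _, false) => 0
  | (.cs _, true) => 4
  | (.se _ b, b') => if b = b' then 1 else 3
  | (.hs _ _ _, _) => 2

/-- the direction of a half side up to a positive factor, at an apex with corner `k` -/
noncomputable def dirR (k : S.Co) : S.Si × Bool → ℂ
  | (.cs _, false) => S.δ k
  | (.cs _, true) => -S.δ (S.pv k)
  | (.se _ b, b') => if b = b' then -Complex.I * S.δ k else -Complex.I * S.δ (S.pv k)
  | (.hs _ _ _, false) => S.δ (S.pv k)
  | (.hs _ _ _, true) => -S.δ k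

noncomputable def uu (c : S.Cn0) : S.Si × Bool := ((S.sdm c).1, !(S.sdm c).2.1)

noncomputable def vv (c : S.Cn0) : S.Si × Bool := ((S.sdm (S.nx0 c)).1, (S.sdm (S.nx0 c)).2.1)

/-- the label of the supertile contained in a side -/
def reg : S.Si → S.TS
  | .cs x => S.ts x
  | .se z _ => z.2.2.1
  | .hs G _ _ => G

def isMid : S.Cn0 → Prop
  | .mid _ _ _ _ => True
  | _ => False

def isVf : S.Cn0 → Prop
  | .vf _ _ _ => True
  | _ => False

variable {S}

theorem NALink1_inv (m : Mot) (w u : ℂ) (h : w - m.b = m.a * u) : m⁻¹ • w = u := by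
  have h0 := m.a_ne
  rw [Mot.smul_def, Mot.inv_a, Mot.inv_b, ← sub_eq_add_neg, ← mul_sub, h, inv_mul_cancel_left₀ h0]

theorem NALink1_vs (G : S.TS) {d : S.D} (a : Fin 3) (h : S.isB (S.pvd d) = false) :
    S.rl ((S.vside G d a).1, (S.vside G d a).2.1) = 3 ∧
      S.rl ((S.vside G d a).1, !(S.vside G d a).2.1) = 1 := by
  unfold vside
  rw [if_neg (by simp [h])]
  split_ifs <;> exact ⟨rfl, rfl⟩

theorem NALink1_vsB (G : S.TS) {d : S.D} (a : Fin 3) (h : S.isB (S.pvd d) = true) :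
    S.vside G d a = (.hs G (S.st d) a, false, 1) := if_pos h

theorem NALink1_hs_two (G : S.TS) {d : S.D} (a : Fin 3) (h : S.two d) :
    S.hside G d a = S.vside G d a := by
  unfold hside
  exact if_pos h

theorem NALink1_hs_not (G : S.TS) {d : S.D} (a : Fin 3) (h : ¬S.two d) :
    S.hside G d a = (.hs G d a, true, 1) := by
  unfold hside
  exact if_neg h

theorem NALink1_two_ls {d : S.D} (h : S.isB d = true) (h0 : S.bp d ≠ 0) :
    S.two (S.ls d) ↔ S.two d := by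
  obtain ⟨h1, -, h3, -, h5, -⟩ := S.first_facts h h0
  have e : S.st d = S.st (S.ls d) := by rw [h3, S.st_B d h]
  exact ⟨fun h2 => (S.two_of_st h5 e.symm h2).1, fun h2 => (S.two_of_st h1 e h2).1⟩

/-- the roles of the closing side at the last dart -/
theorem NALink1_hs_inn (G : S.TS) {d : S.D} (a : Fin 3) (h : S.isB d = true) (h0 : S.bp d ≠ 0) :
    (¬S.two (S.ls d) ∧ S.isB (S.pvd (S.ls d)) = true ∧
      S.rl ((S.hside G d a).1, !(S.hside G d a).2.1) = 2 ∧ (!(S.hside G d a).2.1) = false) ∨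
    (S.two (S.ls d) ∧ S.rl ((S.hside G d a).1, !(S.hside G d a).2.1) = 1) := by
  obtain ⟨-, h2, -, h4, -⟩ := S.first_facts h h0
  rw [NALink1_two_ls h h0]
  by_cases ht : S.two d
  · rw [NALink1_hs_two G a ht]
    exact Or.inr ⟨ht, (NALink1_vs G a h2).2⟩
  · rw [NALink1_hs_not G a ht]
    exact Or.inl ⟨ht, h4, rfl, rfl⟩

/-- the roles of the closing side at the first dart -/
theorem NALink1_hs_out (G : S.TS) {d : S.D} (a : Fin 3) (h : S.isB d = true) (h0 : S.bp d ≠ 0) :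
    (¬S.two d ∧ S.rl ((S.hside G d a).1, (S.hside G d a).2.1) = 2 ∧ (S.hside G d a).2.1 = true) ∨
    (S.two d ∧ S.rl ((S.hside G d a).1, (S.hside G d a).2.1) = 3) := by
  obtain ⟨-, h2, -⟩ := S.first_facts h h0
  by_cases ht : S.two d
  · rw [NALink1_hs_two G a ht]
    exact Or.inr ⟨ht, (NALink1_vs G a h2).1⟩
  · rw [NALink1_hs_not G a ht]
    exact Or.inl ⟨ht, rfl, rfl⟩

theorem NALink1_apx {G G' : S.TS} {d d' : S.D} {a a' : Fin 3} (hc : ¬S.isC d) (hc' : ¬S.isC d')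
    (e : S.apx G d a = S.apx G' d' a') : d = d' ∧ a = a' := by
  obtain ⟨h1, h2, -⟩ := apx_info G hc a
  obtain ⟨h1', h2', -⟩ := apx_info G' hc' a'
  rw [e] at h1 h2
  exact ⟨h1.symm.trans h1', h2.symm.trans h2'⟩

theorem NALink1_apx_first {G G' : S.TS} {d d' : S.D} {a a' : Fin 3} (h : S.isB d = true)
    (h0 : S.bp d ≠ 0) (h' : S.isB d' = true) (h0' : S.bp d' ≠ 0)
    (e : S.apx G d a = S.apx G' d' a') : d = d' ∧ a = a' :=
  NALink1_apx (S.first_facts h h0).1 (S.first_facts h' h0').1 e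

theorem NALink1_apx_last {G G' : S.TS} {d d' : S.D} {a a' : Fin 3} (h : S.isB d = true)
    (h0 : S.bp d ≠ 0) (h' : S.isB d' = true) (h0' : S.bp d' ≠ 0)
    (e : S.apx G (S.ls d) a = S.apx G' (S.ls d') a') : d = d' ∧ a = a' := by
  obtain ⟨-, -, h3, -, h5, -⟩ := S.first_facts h h0
  obtain ⟨-, -, h3', -, h5', -⟩ := S.first_facts h' h0'
  obtain ⟨e1, e2⟩ := NALink1_apx h5 h5' e
  exact ⟨by rw [← h3, e1, h3'], e2⟩

theorem NALink1_apx_mix {G G' : S.TS} {d d' : S.D} {a a' : Fin 3} (h : S.isB d = true)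
    (h0 : S.bp d ≠ 0) (h' : S.isB d' = true) (h0' : S.bp d' ≠ 0)
    (e : S.apx G d a = S.apx G' (S.ls d') a') : False := by
  obtain ⟨-, -, -, -, h5', h6', -⟩ := S.first_facts h' h0'
  have e1 := (NALink1_apx (S.first_facts h h0).1 h5' e).1
  rw [← e1, h] at h6'
  cases h6'

theorem NALink1_Q {z z' : S.ZS} (h : S.IsAdj z) (h' : S.IsAdj z') {p p' : Fin 4}
    (e1 : z.2.2 = z'.2.2) (e2 : S.ts z.1 = S.ts z'.1) (e3 : S.dQ z p = S.dQ z' p') :
    z = z' ∧ p = p' := by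
  have e4 : S.kQ z = S.kQ z' := by rw [← (dQ_facts z p).2.2.2, e3, (dQ_facts z' p').2.2.2]
  have e5 := congrArg S.bp e3
  rw [dQ, dQ, S.bd_bp, S.bd_bp] at e5
  exact ⟨lock h h' e1 (Or.inl (ds_ext e2 e4)), Fin.succ_injective _ e5⟩

theorem NALink1_R {z z' : S.ZS} (h : S.IsAdj z) (h' : S.IsAdj z') {p p' : Fin 4}
    (e1 : z.2.2 = z'.2.2) (e2 : S.ts z.2.1 = S.ts z'.2.1) (e3 : S.dR z p = S.dR z' p') :
    z = z' ∧ p = p' := by
  have e4 : S.kR z = S.kR z' := by rw [← (dR_facts z p).2.2.2, e3, (dR_facts z' p').2.2.2]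
  have e5 := congrArg S.bp e3
  rw [dR, dR, S.bd_bp, S.bd_bp] at e5
  exact ⟨lock h h' e1 (Or.inr (ds_ext e2 e4)), Fin.castSucc_injective _ (Fin.rev_injective e5)⟩

theorem NALink1_reg4 {z z' : S.ZS} {p p' : Fin 5} {n n' : ℕ} {b b' : Bool}
    (e : Si.se ((S.subz 4)^[n] (S.subz p z)) b = Si.se ((S.subz 4)^[n'] (S.subz p' z')) b') :
    z.2.2 = z'.2.2 := by
  have e1 := congrArg (fun w : S.ZS => w.2.2) (Si.se.inj e).1
  simp only [(subz4_iter _ _).2.2] at e1
  exact e1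

theorem NALink1_reg0 {z z' : S.ZS} {p p' : Fin 5} {n n' : ℕ} {b b' : Bool}
    (e : Si.se ((S.subz 0)^[n] (S.subz p z)) b = Si.se ((S.subz 0)^[n'] (S.subz p' z')) b') :
    z.2.2 = z'.2.2 := by
  have e1 := congrArg (fun w : S.ZS => w.2.2) (Si.se.inj e).1
  simp only [(subz0_iter _ _).2.2] at e1
  exact e1

theorem NALink1_ne {P : Prop} (h : false = true ∨ true = false) : P := by
  rcases h with h | h <;> cases h

theorem NALink1_se {z z' : S.ZS} {b : Bool} (h : Si.se z b = Si.se z' b) : z = z' := (Si.se.inj h).1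

theorem NALink1_fin4 (i : Fin 4) : i = 0 ∨ i = 1 ∨ i = 2 ∨ i = 3 := by
  fin_cases i <;> simp

theorem dir_eq {s : S.Si} (h : S.okS s) (b : Bool) : ∃ r : ℝ, 0 < r ∧
    S.poly0.dirS (s, b) = r • S.dirR (S.dco (S.en s b).1) (s, b) := by
  cases s with
  | cs x =>
    refine ⟨1 / 2, by norm_num, ?_⟩
    cases b
    · refine NALink1_inv (Mot.tr _) (S.cv _) _ ?_
      change _ = 1 * (1 / 2 : ℝ) • S.δ (S.dco x.1)
      simp only [cv, Mot.tr_b, Sub0.δ, S.cty_nx, Complex.real_smul]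
      push_cast
      ring
    · refine NALink1_inv (Mot.tr _) (S.cv _) _ ?_
      change _ = 1 * (1 / 2 : ℝ) • -S.δ (S.pv (S.dco (S.nxd x.1)))
      simp only [S.dco_nxd, S.pv_nx, cv, Mot.tr_b, Sub0.δ, S.cty_nx, Complex.real_smul]
      push_cast
      ring
  | se z b' =>
    have hG : S.GE (S.kQ z) (S.kR z) := (IsAdj.inv h).2.2.2.2
    obtain ⟨l, hl, hw⟩ := hG.wz_eq
    have ha := hG.az_δ
    refine ⟨l / 2, by positivity, ?_⟩
    cases b
    · have e : S.dirR (S.dco (S.en (.se z b') false).1) (.se z b', false) =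
          -Complex.I * S.δ (S.kQ z) := by
        cases b'
        · rfl
        · change -Complex.I * S.δ (S.pv (S.dco (S.nxd z.1.1))) = _
          rw [S.dco_nxd, S.pv_nx, kQ]
      rw [e]
      refine NALink1_inv 1 (S.wz (S.kQ z) (S.kR z) / 2) _ ?_
      rw [hw, Complex.real_smul, Mot.one_a, Mot.one_b]
      push_cast
      ring
    · have e : S.dirR (S.dco (S.en (.se z b') true).1) (.se z b', true) =
          -Complex.I * S.δ (S.kR z) := by
        cases b'
        · change -Complex.I * S.δ (S.pv (S.dco (S.nxd z.2.1.1))) = _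
          rw [S.dco_nxd, S.pv_nx, kR]
        · rfl
      rw [e]
      refine NALink1_inv ((S.gm (S.kQ z) (S.kR z) 1).at' (S.wz (S.kQ z) (S.kR z) / 2)) 0 _ ?_
      change 0 - S.wz (S.kQ z) (S.kR z) / 2 = S.az (S.kQ z) (S.kR z) * _
      rw [hw, Complex.real_smul]
      push_cast
      linear_combination (l / 2 * Complex.I) * ha
  | hs G d a =>
    obtain ⟨h1, -, -, -, h5, -, -, -, h9, h10, h11⟩ := S.first_facts h.2.2.1 h.2.2.2
    refine ⟨1 / 2, by norm_num, ?_⟩
    cases b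
    · refine NALink1_inv (S.am (S.ls d) a) (S.PC (S.dch d) / 2) _ ?_
      change S.PC (S.dch d) / 2 - S.PC (S.dch (S.ls d)) / 2 = (S.mo (S.dch (S.ls d))).a *
        (S.rotm a (S.dco (S.ls d))).a * (1 / 2 : ℝ) • S.δ (S.pv (S.dco (S.apx G (S.ls d) a).1))
      have h12 := (rotm_δ a (S.dco (S.ls d))).2
      rw [(apx_info G h5 a).2.2, Complex.real_smul]
      push_cast
      linear_combination (1 / 2) * h9 - (1 / 2) * h10 - (1 / 2 * (S.mo (S.dch (S.ls d))).a) * h12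
    · refine NALink1_inv (S.am d a) (S.PC (S.dch (S.ls d)) / 2) _ ?_
      change S.PC (S.dch (S.ls d)) / 2 - S.PC (S.dch d) / 2 = (S.mo (S.dch d)).a *
        (S.rotm a (S.dco d)).a * (1 / 2 : ℝ) • -S.δ (S.dco (S.apx G d a).1)
      have h12 := (rotm_δ a (S.dco d)).1
      rw [(apx_info G h1 a).2.2, Complex.real_smul]
      push_cast
      linear_combination (-1 / 2) * h9 + (1 / 2) * h11 + (1 / 2 * (S.mo (S.dch d)).a) * h12

theorem vside_reg (G : S.TS) (d : S.D) (a : Fin 3) : S.reg (S.vside G d a).1 = G := by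
  unfold vside
  split_ifs
  · rfl
  · exact congrArg Prod.fst (subz4_iter (S.birth G (S.pvd d)) a.val).2.2
  · exact congrArg Prod.fst (subz0_iter (S.birth G (S.turn d)) a.val).2.2

theorem hside_reg (G : S.TS) (d : S.D) (a : Fin 3) : S.reg (S.hside G d a).1 = G := by
  unfold hside
  split_ifs
  · exact vside_reg G d a
  · rfl

theorem ap_val {c : S.Cn0} (h : S.ok c) : S.Val (S.ts (S.ap0 c)) := by
  cases c with
  | core x => exact h
  | strip z i =>
    obtain ⟨h1, h2, -⟩ := IsAdj.inv h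
    rcases NALink1_fin4 i with rfl | rfl | rfl | rfl
    · exact h1
    · exact (ts_nxD z.2.1).symm ▸ h2
    · exact h2
    · exact (ts_nxD z.1).symm ▸ h1
  | vf G d a => exact apx_val h.1 h.2.1 a
  | mid z p a i =>
    obtain ⟨h1, h2, -⟩ := IsAdj.inv h
    obtain ⟨q1, q2, q3, -⟩ := dQ_facts z p
    obtain ⟨r1, r2, r3, -⟩ := dR_facts z p
    rcases NALink1_fin4 i with rfl | rfl | rfl | rfl
    · exact apx_val h1 q3 a
    · exact apx_val h1 ((S.first_facts q1 q2).2.2.2.2.2.2.2.1.trans q3) a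
    · exact apx_val h2 r3 a
    · exact apx_val h2 ((S.first_facts r1 r2).2.2.2.2.2.2.2.1.trans r3) a

/-- the finer roles at the corners of vertex faces -/
theorem NALink1_vf {G : S.TS} {d : S.D} {a : Fin 3} (h : S.ok (.vf G d a)) :
    ¬S.two (S.vnx d) ∧
    ((S.isB (S.vnx d) = false ∧ S.isB (S.pvd (S.vnx d)) = false ∧
      S.rl (S.uu (.vf G d a)) = 1 ∧ S.rl (S.vv (.vf G d a)) = 3) ∨
    (S.isB (S.vnx d) = true ∧ S.rl (S.uu (.vf G d a)) = 2 ∧ (S.uu (.vf G d a)).2 = true ∧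
      S.rl (S.vv (.vf G d a)) = 3) ∨
    (S.isB (S.pvd (S.vnx d)) = true ∧ S.rl (S.uu (.vf G d a)) = 1 ∧ S.rl (S.vv (.vf G d a)) = 2 ∧
      (S.vv (.vf G d a)).2 = false)) := by
  obtain ⟨-, -, h3, h4⟩ : S.ok (.vf G (S.vnx d) a) := ok_nx h
  have h5 := S.isB_vnx h.2.2.1
  refine ⟨h4, ?_⟩
  have eu : S.uu (.vf G d a) = ((S.vside G d a).1, !(S.vside G d a).2.1) := rfl
  have ev : S.vv (.vf G d a) = ((S.vside G (S.vnx d) a).1, (S.vside G (S.vnx d) a).2.1) := rfl
  rw [eu, ev]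
  cases h6 : S.isB (S.vnx d) <;> cases h7 : S.isB (S.pvd (S.vnx d))
  · exact Or.inl ⟨rfl, rfl, (NALink1_vs G a (h5.symm.trans h6)).2, (NALink1_vs G a h7).1⟩
  · rw [NALink1_vsB G a h7]
    exact Or.inr (Or.inr ⟨rfl, (NALink1_vs G a (h5.symm.trans h6)).2, rfl, rfl⟩)
  · rw [NALink1_vsB G a (h5.symm.trans h6)]
    exact Or.inr (Or.inl ⟨rfl, rfl, rfl, (NALink1_vs G a h7).1⟩)
  · exact (h3 ⟨h6, S.BB _ h6 h7⟩).elim

/-- the finer roles at the corners of the rectangles between two caps -/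
theorem NALink1_mid {z : S.ZS} {p : Fin 4} {a : Fin 3} {i : Fin 4} {d : S.D}
    (e : d = (S.memD (S.ap0 (S.nx0 (.mid z p a i)))).1) :
    (¬S.two d ∧ S.isB d = true ∧ S.rl (S.uu (.mid z p a i)) = 1 ∧ S.rl (S.vv (.mid z p a i)) = 2 ∧
      (S.vv (.mid z p a i)).2 = true) ∨
    (¬S.two d ∧ S.isB (S.pvd d) = true ∧ S.rl (S.uu (.mid z p a i)) = 2 ∧
      (S.uu (.mid z p a i)).2 = false ∧ S.rl (S.vv (.mid z p a i)) = 3) ∨
    (S.two d ∧ S.rl (S.uu (.mid z p a i)) = 1 ∧ S.rl (S.vv (.mid z p a i)) = 3) := by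
  obtain ⟨q1, q2, -⟩ := dQ_facts z p
  obtain ⟨r1, r2, -⟩ := dR_facts z p
  rcases NALink1_fin4 i with rfl | rfl | rfl | rfl
  · obtain rfl : d = S.ls (S.dQ z p) :=
      e.trans (apx_info (S.ts z.1) (S.first_facts q1 q2).2.2.2.2.1 a).1
    rcases NALink1_hs_inn (S.ts z.1) a q1 q2 with ⟨h1, h2, h3, h4⟩ | ⟨h1, h2⟩
    · exact Or.inr (Or.inl ⟨h1, h2, h3, h4, rfl⟩)
    · exact Or.inr (Or.inr ⟨h1, h2, rfl⟩)
  · obtain rfl : d = S.dR z p := e.trans (apx_info (S.ts z.2.1) (S.first_facts r1 r2).1 a).1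
    rcases NALink1_hs_out (S.ts z.2.1) a r1 r2 with ⟨h1, h2, h3⟩ | ⟨h1, h2⟩
    · exact Or.inl ⟨h1, r1, rfl, h2, h3⟩
    · exact Or.inr (Or.inr ⟨h1, rfl, h2⟩)
  · obtain rfl : d = S.ls (S.dR z p) :=
      e.trans (apx_info (S.ts z.2.1) (S.first_facts r1 r2).2.2.2.2.1 a).1
    rcases NALink1_hs_inn (S.ts z.2.1) a r1 r2 with ⟨h1, h2, h3, h4⟩ | ⟨h1, h2⟩
    · exact Or.inr (Or.inl ⟨h1, h2, h3, h4, rfl⟩)
    · exact Or.inr (Or.inr ⟨h1, h2, rfl⟩)
  · obtain rfl : d = S.dQ z p := e.trans (apx_info (S.ts z.1) (S.first_facts q1 q2).1 a).1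
    rcases NALink1_hs_out (S.ts z.1) a q1 q2 with ⟨h1, h2, h3⟩ | ⟨h1, h2⟩
    · exact Or.inl ⟨h1, q1, rfl, h2, h3⟩
    · exact Or.inr (Or.inr ⟨h1, rfl, h2⟩)

theorem NALink1_strip (z : S.ZS) (i : Fin 4) :
    (S.rl (S.uu (.strip z i)) = 0 ∧ S.rl (S.vv (.strip z i)) = 1) ∨
      (S.rl (S.uu (.strip z i)) = 3 ∧ S.rl (S.vv (.strip z i)) = 4) := by
  rcases NALink1_fin4 i with rfl | rfl | rfl | rfl
  · exact Or.inr ⟨rfl, rfl⟩
  · exact Or.inl ⟨rfl, rfl⟩
  · exact Or.inr ⟨rfl, rfl⟩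
  · exact Or.inl ⟨rfl, rfl⟩

/-- the possible roles at a corner; `d` is the birth dart of the apex -/
theorem kinds {c : S.Cn0} (h : S.ok c) {d : S.D} (e : d = (S.memD (S.ap0 (S.nx0 c))).1) :
    (S.rl (S.uu c) = 4 ∧ S.rl (S.vv c) = 0) ∨ (S.rl (S.uu c) = 0 ∧ S.rl (S.vv c) = 1) ∨
    (S.rl (S.uu c) = 3 ∧ S.rl (S.vv c) = 4) ∨
    (S.isVf c ∧ ¬S.two d ∧ S.isB d = false ∧ S.isB (S.pvd d) = false ∧
      S.rl (S.uu c) = 1 ∧ S.rl (S.vv c) = 3) ∨
    (S.isVf c ∧ ¬S.two d ∧ S.isB d = true ∧ S.rl (S.uu c) = 2 ∧ (S.uu c).2 = true ∧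
      S.rl (S.vv c) = 3) ∨
    (S.isVf c ∧ ¬S.two d ∧ S.isB (S.pvd d) = true ∧ S.rl (S.uu c) = 1 ∧ S.rl (S.vv c) = 2 ∧
      (S.vv c).2 = false) ∨
    (S.isMid c ∧ ¬S.two d ∧ S.isB d = true ∧ S.rl (S.uu c) = 1 ∧ S.rl (S.vv c) = 2 ∧
      (S.vv c).2 = true) ∨
    (S.isMid c ∧ ¬S.two d ∧ S.isB (S.pvd d) = true ∧ S.rl (S.uu c) = 2 ∧ (S.uu c).2 = false ∧
      S.rl (S.vv c) = 3) ∨
    (S.isMid c ∧ S.two d ∧ S.rl (S.uu c) = 1 ∧ S.rl (S.vv c) = 3) := by
  cases c with
  | core x => exact Or.inl ⟨rfl, rfl⟩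
  | strip z i =>
    rcases NALink1_strip z i with h1 | h1
    · exact Or.inr (Or.inl h1)
    · exact Or.inr (Or.inr (Or.inl h1))
  | vf G d₀ a =>
    obtain rfl : d = S.vnx d₀ := e.trans (apx_info G (S.not_isC_vnx h.2.2.1) a).1
    obtain ⟨h1, h2 | h2 | h2⟩ := NALink1_vf h
    · exact Or.inr (Or.inr (Or.inr (Or.inl ⟨trivial, h1, h2⟩)))
    · exact Or.inr (Or.inr (Or.inr (Or.inr (Or.inl ⟨trivial, h1, h2⟩))))
    · exact Or.inr (Or.inr (Or.inr (Or.inr (Or.inr (Or.inl ⟨trivial, h1, h2⟩)))))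
  | mid z p a i =>
    refine Or.inr (Or.inr (Or.inr (Or.inr (Or.inr (Or.inr ?_)))))
    rcases NALink1_mid e with h2 | h2 | h2
    · exact Or.inl ⟨trivial, h2⟩
    · exact Or.inr (Or.inl ⟨trivial, h2⟩)
    · exact Or.inr (Or.inr ⟨trivial, h2⟩)

theorem en_uu {c : S.Cn0} (h : S.ok c) : S.en (S.uu c).1 (S.uu c).2 = S.ap0 (S.nx0 c) :=
  (inn_eq h).1

theorem en_vv {c : S.Cn0} (h : S.ok c) : S.en (S.vv c).1 (S.vv c).2 = S.ap0 (S.nx0 c) :=
  (out_eq (ok_nx h)).1

/-- the two poles are unique -/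
theorem pole {x y : S.Si × Bool} (e : S.en x.1 x.2 = S.en y.1 y.2) (h : S.rl x = S.rl y)
    (h' : S.rl x = 0 ∨ S.rl x = 4) : x = y := by
  have k0 : ∀ w : S.Si × Bool, S.rl w = 0 → ∃ t, w = (.cs t, false) := by
    rintro ⟨s | ⟨z, b'⟩ | _, b⟩ hw
    · cases b
      · exact ⟨s, rfl⟩
      · cases hw
    · cases b <;> cases b' <;> cases hw
    · cases hw
  have k4 : ∀ w : S.Si × Bool, S.rl w = 4 → ∃ t, w = (.cs t, true) := by
    rintro ⟨s | ⟨z, b'⟩ | _, b⟩ hw
    · cases b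
      · cases hw
      · exact ⟨s, rfl⟩
    · cases b <;> cases b' <;> cases hw
    · cases hw
  rcases h' with h' | h'
  · obtain ⟨t, rfl⟩ := k0 x h'
    obtain ⟨t', rfl⟩ := k0 y (h ▸ h')
    obtain rfl : t = t' := e
    rfl
  · obtain ⟨t, rfl⟩ := k4 x h'
    obtain ⟨t', rfl⟩ := k4 y (h ▸ h')
    obtain rfl : t = t' := nxD_inj e
    rfl

theorem NALink1_cap {G G' : S.TS} {d d' : S.D} {a a' : Fin 3} (h : S.ok (.vf G d a))
    (h' : S.ok (.vf G' d' a'))
    (e : S.uu (.vf G d a) = S.uu (.vf G' d' a') ∨ S.vv (.vf G d a) = S.vv (.vf G' d' a')) :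
    Cn0.vf G d a = Cn0.vf G' d' a' := by
  have e1 : S.ap0 (S.nx0 (.vf G d a)) = S.ap0 (S.nx0 (.vf G' d' a')) := by
    rcases e with e | e
    · rw [← en_uu h, e, en_uu h']
    · rw [← en_vv h, e, en_vv h']
  obtain ⟨e2, rfl⟩ := NALink1_apx (S.not_isC_vnx h.2.2.1) (S.not_isC_vnx h'.2.2.1) e1
  obtain rfl := S.vnx_inj h.2.2.1 h'.2.2.1 e2
  obtain rfl : G = G' := by
    rcases e with e | e
    · exact (vside_reg G d a).symm.trans ((congrArg S.reg (Prod.mk.inj e).1).trans (vside_reg G' d a))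
    · exact (vside_reg G _ a).symm.trans ((congrArg S.reg (Prod.mk.inj e).1).trans (vside_reg G' _ a))
  rfl

theorem NALink1_hreg {G G' : S.TS} {d d' : S.D} {a a' : Fin 3}
    (e : (S.hside G d a).1 = (S.hside G' d' a').1) : G = G' :=
  (hside_reg G d a).symm.trans ((congrArg S.reg e).trans (hside_reg G' d' a'))

theorem NALink1_mm {z z' : S.ZS} {p p' : Fin 4} {a a' : Fin 3} {i i' : Fin 4} (h : S.IsAdj z)
    (h' : S.IsAdj z') (e : S.ap0 (S.nx0 (.mid z p a i)) = S.ap0 (S.nx0 (.mid z' p' a' i')))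
    (hu : S.uu (.mid z p a i) = S.uu (.mid z' p' a' i'))
    (hv : S.vv (.mid z p a i) = S.vv (.mid z' p' a' i')) :
    Cn0.mid z p a i = Cn0.mid z' p' a' i' := by
  obtain ⟨q1, q2, -⟩ := dQ_facts z p
  obtain ⟨r1, r2, -⟩ := dR_facts z p
  obtain ⟨q1', q2', -⟩ := dQ_facts z' p'
  obtain ⟨r1', r2', -⟩ := dR_facts z' p'
  rcases NALink1_fin4 i with rfl | rfl | rfl | rfl <;>
    rcases NALink1_fin4 i' with rfl | rfl | rfl | rfl
  · obtain ⟨e1, rfl⟩ := NALink1_apx_last q1 q2 q1' q2' e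
    obtain ⟨rfl, rfl⟩ := NALink1_Q h h' (NALink1_reg4 (Prod.mk.inj hv).1)
      (NALink1_hreg (Prod.mk.inj hu).1) e1
    rfl
  · exact (NALink1_apx_mix r1' r2' q1 q2 e.symm).elim
  · exact NALink1_ne (Or.inl (Prod.mk.inj hv).2)
  · exact (NALink1_apx_mix q1' q2' q1 q2 e.symm).elim
  · exact (NALink1_apx_mix r1 r2 q1' q2' e).elim
  · obtain ⟨e1, rfl⟩ := NALink1_apx_first r1 r2 r1' r2' e
    obtain ⟨rfl, rfl⟩ := NALink1_R h h' (NALink1_reg4 (Prod.mk.inj hu).1)
      (NALink1_hreg (Prod.mk.inj hv).1) e1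
    rfl
  · exact (NALink1_apx_mix r1 r2 r1' r2' e).elim
  · exact NALink1_ne (Or.inr (Prod.mk.inj hu).2)
  · exact NALink1_ne (Or.inr (Prod.mk.inj hv).2)
  · exact (NALink1_apx_mix r1' r2' r1 r2 e.symm).elim
  · obtain ⟨e1, rfl⟩ := NALink1_apx_last r1 r2 r1' r2' e
    obtain ⟨rfl, rfl⟩ := NALink1_R h h' (NALink1_reg0 (Prod.mk.inj hv).1)
      (NALink1_hreg (Prod.mk.inj hu).1) e1
    rfl
  · exact (NALink1_apx_mix q1' q2' r1 r2 e.symm).elim
  · exact (NALink1_apx_mix q1 q2 q1' q2' e).elim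
  · exact NALink1_ne (Or.inl (Prod.mk.inj hu).2)
  · exact (NALink1_apx_mix q1 q2 r1' r2' e).elim
  · obtain ⟨e1, rfl⟩ := NALink1_apx_first q1 q2 q1' q2' e
    obtain ⟨rfl, rfl⟩ := NALink1_Q h h' (NALink1_reg0 (Prod.mk.inj hu).1)
      (NALink1_hreg (Prod.mk.inj hv).1) e1
    rfl

theorem simple {c c' : S.Cn0} (h : S.ok c) (h' : S.ok c') (hu : S.uu c = S.uu c')
    (hv : S.vv c = S.vv c') : c = c' := by
  have e : S.ap0 (S.nx0 c) = S.ap0 (S.nx0 c') := by rw [← en_uu h, hu, en_uu h']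
  have ru := congrArg S.rl hu
  have rv := congrArg S.rl hv
  have hvm : ∀ {G d a z p a' i}, S.ok (.vf G d a) →
      S.ap0 (S.nx0 (.vf G d a)) = S.ap0 (S.nx0 (.mid z p a' i)) →
      S.uu (.vf G d a) = S.uu (.mid z p a' i) → S.vv (.vf G d a) = S.vv (.mid z p a' i) → False := by
    intro G d a z p a' i h e hu hv
    have e1 : S.vnx d = (S.memD (S.ap0 (S.nx0 (.mid z p a' i)))).1 := by
      rw [← e]
      exact (apx_info G (S.not_isC_vnx h.2.2.1) a).1.symm
    have k := NALink1_mid e1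
    rw [← hu, ← hv] at k
    obtain ⟨h1, h2 | h2 | h2⟩ := NALink1_vf h <;> rcases k with k | k | k <;> simp_all
  have lv : ∀ {G d a}, S.ok (.vf G d a) →
      S.rl (S.uu (.vf G d a)) = 1 ∨ S.rl (S.uu (.vf G d a)) = 2 := by
    intro G d a h
    obtain ⟨-, h2 | h2 | h2⟩ := NALink1_vf h
    exacts [Or.inl h2.2.2.1, Or.inr h2.2.1, Or.inl h2.2.1]
  have lm : ∀ z p a i, S.rl (S.uu (.mid z p a i)) = 1 ∨ S.rl (S.uu (.mid z p a i)) = 2 := by
    intro z p a i
    rcases NALink1_mid (z := z) (p := p) (a := a) (i := i) rfl with h2 | h2 | h2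
    exacts [Or.inl h2.2.2.1, Or.inr h2.2.2.1, Or.inl h2.2.1]
  have ls : ∀ z i, S.rl (S.uu (.strip z i)) = 0 ∨ S.rl (S.uu (.strip z i)) = 3 := fun z i =>
    (NALink1_strip z i).imp And.left And.left
  have lc : ∀ x, S.rl (S.uu (.core x)) = 4 := fun x => rfl
  cases c with
  | core x =>
    cases c' with
    | core x' => exact congrArg _ (Si.cs.inj (Prod.mk.inj hu).1)
    | strip z i => rcases ls z i with k | k <;> rw [← ru, lc] at k <;> cases k
    | vf G d a => rcases lv h' with k | k <;> rw [← ru, lc] at k <;> cases k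
    | mid z p a i => rcases lm z p a i with k | k <;> rw [← ru, lc] at k <;> cases k
  | strip z i =>
    cases c' with
    | core x' => rcases ls z i with k | k <;> rw [ru, lc] at k <;> cases k
    | strip z' i' =>
      rcases NALink1_fin4 i with rfl | rfl | rfl | rfl <;>
        rcases NALink1_fin4 i' with rfl | rfl | rfl | rfl <;>
        first
        | exact NALink1_ne (Or.inl (Prod.mk.inj hu).2)
        | exact NALink1_ne (Or.inr (Prod.mk.inj hu).2)
        | exact NALink1_ne (Or.inl (Prod.mk.inj hv).2)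
        | exact NALink1_ne (Or.inr (Prod.mk.inj hv).2)
        | exact congrArg (Cn0.strip · _) (NALink1_se (Prod.mk.inj hu).1)
        | exact congrArg (Cn0.strip · _) (NALink1_se (Prod.mk.inj hv).1)
        | exact absurd (show (0 : Fin 5) = 3 from ru) (by decide)
        | exact absurd (show (3 : Fin 5) = 0 from ru) (by decide)
    | vf G d a => rcases ls z i with k | k <;> rcases lv h' with k' | k' <;> rw [← ru, k] at k' <;>
        cases k'
    | mid z' p a i' => rcases ls z i with k | k <;> rcases lm z' p a i' with k' | k' <;>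
        rw [← ru, k] at k' <;> cases k'
  | vf G d a =>
    cases c' with
    | core x' => rcases lv h with k | k <;> rw [ru, lc] at k <;> cases k
    | strip z i => rcases ls z i with k | k <;> rcases lv h with k' | k' <;> rw [ru, k] at k' <;>
        cases k'
    | vf G' d' a' => exact NALink1_cap h h' (Or.inl hu)
    | mid z p a' i => exact (hvm h e hu hv).elim
  | mid z p a i =>
    cases c' with
    | core x' => rcases lm z p a i with k | k <;> rw [ru, lc] at k <;> cases k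
    | strip z' i' => rcases ls z' i' with k | k <;> rcases lm z p a i with k' | k' <;>
        rw [ru, k] at k' <;> cases k'
    | vf G' d' a' => exact (hvm h' e.symm hu.symm hv.symm).elim
    | mid z' p' a' i' => exact NALink1_mm h h' e hu hv

theorem cap_match {c c' : S.Cn0} (h : S.ok c) (h' : S.ok c') (hf : S.isVf c) (hf' : S.isVf c')
    (e : S.uu c = S.uu c' ∨ S.vv c = S.vv c') : c = c' := by
  cases c with
  | vf G d a =>
    cases c' with
    | vf G' d' a' => exact NALink1_cap h h' e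
    | _ => exact hf'.elim
  | _ => exact hf.elim

/-- at a vertex with two children the angle of the tile is a right angle -/
theorem two_angle {x : S.DS} (h : S.Val (S.ts x)) (h2 : S.two (S.memD x).1) :
    dot (S.δ (S.dco x.1)) (S.δ (S.pv (S.dco x.1))) = 0 := by
  obtain ⟨h3, h4⟩ := Val.wf h
  have h5 := S.two_perp _ h3 h2
  rw [← h4]
  unfold cur
  split_ifs
  · generalize S.dco (S.memD x).1 = k at h5
    have h6 : Complex.normSq (S.ra k) = 1 := by
      rw [Complex.normSq_eq_norm_sq, Sub0.ra, Mot.norm_a, one_pow]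
    rw [← S.ra_δ k, ← S.ra_δ_pv k] at h5
    rw [Complex.normSq_apply] at h6
    simp only [dot, Complex.mul_re, Complex.mul_im] at h5 ⊢
    linear_combination h5 - ((S.δ (S.cor k)).re * (S.δ (S.pv (S.cor k))).re +
      (S.δ (S.cor k)).im * (S.δ (S.pv (S.cor k))).im) * h6
  · exact h5

end Sub

end Pool.Agent.Work.MP_0909b4_al.NA
end

-- merged part: Pool.Agent.Work.MP_0909b4_al.NAPot
section
/-! Potentials for three kinds of links. A link is a graph with edge set `E`, ends `u e, v e` in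
`W` and weights `w e`. `Pot` says that each edge can be removed with a potential that certifies
that every path between its ends has length at least `2π - w e`.

Plan. Explicit potentials that depend on the role of a vertex and on whether it is an end of the
removed edge `e₀` or the matched partner of such an end. Write `θ` for the parameter.
* `pot_bip`: `F (u e₀) = 0`, `F (v e₀) = 3π/2`, other vertices of the colour of `v e₀` get `π/2`, the
  rest `π`.
* `pot_four` (roles `0,1,2,3`; weights `π/2, π-θ, π/2, θ`). Kind `3` removed: role `3,2,1,0` get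
  `0, π/2, 3π/2-θ, 2π-θ`. Kind `2` removed (`b₀` of role `2`, partner `a₀`): role `3` gets `0`,
  `b₀ = 3π/2`, `a₀ = π/2+θ`, role `0` gets `θ`, all others `θ/2`. Kind `1` removed (`a₀, b₀`):
  the previous one plus `π/2`, but `b₀ = 0`. Kind `0`: mirror of kind `2`.
* `pot_five` (roles `0..4`; weights `π/2, π/2, π/2-θ, π/2, θ`). Kind `4`: roles `4,3,2,1,0` get
  `0, π/2, π-θ, 3π/2-θ, 2π-θ`. Kind `3` (`b₀` of role `3`, partner `h₀`): role `4,0,3,2,1` get
  `0, θ, π/2, π-θ, θ+π/2`, `h₀ = θ+π`, `b₀ = 3π/2`. Kind `2`: the previous one plus `π/2`, `b₀ = 0`.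
  Kind `1` (`a₀, h₀`, partner `b₀` of `h₀`): `h₀ = 0`, `b₀ = π/2-θ`, role `4` gets `π-θ`, roles `0,2,3`
  get `π`, role `1` gets `π/2`, `a₀ = 3π/2`. Kind `0` (`a₀`): roles `0,4,3,2,1` get
  `0, θ, θ+π/2, π, π/2`, `a₀ = 3π/2`.
-/

namespace Pool.Agent.Work.MP_0909b4_al.NA

open Real

/-- every edge can be removed with a potential -/
def Pot {E W : Type} (u v : E → W) (w : E → ℝ) : Prop :=
  ∀ e₀, ∃ F : W → ℝ, 2 * π - w e₀ ≤ |F (u e₀) - F (v e₀)| ∧
    ∀ e, e ≠ e₀ → |F (u e) - F (v e)| ≤ w e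

variable {E W : Type} (u v : E → W) (w : E → ℝ)

theorem Pot.swap {u' v' : E → W} {u v : E → W} {w : E → ℝ} (h : Pot u' v' w)
    (e : ∀ e, (u e = u' e ∧ v e = v' e) ∨ (u e = v' e ∧ v e = u' e)) : Pot u v w := by
  intro e₀
  obtain ⟨F, h1, h2⟩ := h e₀
  have key : ∀ x, |F (u x) - F (v x)| = |F (u' x) - F (v' x)| := fun x => by
    rcases e x with ⟨a, b⟩ | ⟨a, b⟩
    · rw [a, b]
    · rw [a, b, abs_sub_comm]
  exact ⟨F, by rwa [key], fun x hx => by rw [key]; exact h2 x hx⟩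

open Classical in
/-- potentials that depend on the role and on one further bit -/
theorem NAPot_mk {R : Type} (rl : W → R) (nx : R → R) (c : R → ℝ)
    (hv : ∀ e, rl (v e) = nx (rl (u e))) (hw : ∀ e, c (rl (u e)) ≤ w e) (e₀ : E) (S : W → Prop)
    (g1 g0 : R → ℝ)
    (h0 : 2 * π - c (rl (u e₀)) ≤ |(if S (u e₀) then g1 (rl (u e₀)) else g0 (rl (u e₀))) -
      (if S (v e₀) then g1 (nx (rl (u e₀))) else g0 (nx (rl (u e₀))))|)
    (h : ∀ e, e ≠ e₀ → |(if S (u e) then g1 (rl (u e)) else g0 (rl (u e))) -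
      (if S (v e) then g1 (nx (rl (u e))) else g0 (nx (rl (u e))))| ≤ c (rl (u e))) :
    ∃ F : W → ℝ, 2 * π - w e₀ ≤ |F (u e₀) - F (v e₀)| ∧
      ∀ e, e ≠ e₀ → |F (u e) - F (v e)| ≤ w e := by
  refine ⟨fun x => if S x then g1 (rl x) else g0 (rl x), ?_, fun e he => ?_⟩
  · have := hw e₀
    simp only [hv]
    linarith
  · simp only [hv]
    exact (h e he).trans (hw e)

theorem pot_bip (col : W → Bool) (hu : ∀ e, col (u e) = false) (hv : ∀ e, col (v e) = true)
    (hw : ∀ e, π / 2 ≤ w e) (simple : ∀ e e', u e = u e' → v e = v e' → e = e') : Pot u v w := by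
  intro e₀
  have hp := pi_pos
  refine NAPot_mk u v w col (fun _ => true) (fun _ => π / 2) hv hw e₀
    (fun x => x = u e₀ ∨ x = v e₀) (fun b => if b then 3 * π / 2 else 0)
    (fun b => if b then π / 2 else π) ?_ fun e he => ?_
  · simp only [hu, true_or, or_true, if_true, Bool.false_eq_true, if_false]
    rw [le_abs]
    right
    linarith only []
  · have h1 : ¬ ((u e = u e₀ ∨ u e = v e₀) ∧ (v e = u e₀ ∨ v e = v e₀)) := by
      rintro ⟨a | a, b | b⟩
      · have := hv e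
        rw [b, hu] at this
        exact Bool.false_ne_true this
      · exact he (simple e e₀ a b)
      · have := hv e
        rw [b, hu] at this
        exact Bool.false_ne_true this
      · have := hu e
        rw [a, hv] at this
        exact Bool.false_ne_true this.symm
    simp only [hu, if_true, Bool.false_eq_true, if_false]
    rw [abs_le]
    split_ifs with a b
    · exact absurd ⟨a, b⟩ h1
    all_goals constructor <;> linarith only [hp]

theorem pot_four (rl : W → Fin 4) (θ : ℝ) (h0 : 0 ≤ θ) (h1 : θ ≤ π)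
    (hv : ∀ e, rl (v e) = rl (u e) + 1)
    (hw : ∀ e, (![π / 2, π - θ, π / 2, θ] : Fin 4 → ℝ) (rl (u e)) ≤ w e)
    (simple : ∀ e e', u e = u e' → v e = v e' → e = e')
    (pole : ∀ e e', ∀ x ∈ ({u e, v e} : Set W), ∀ y ∈ ({u e', v e'} : Set W),
      rl x = rl y → (rl x = 0 ∨ rl x = 3) → x = y)
    (mtch : ∀ e e', rl (u e) = 1 → rl (u e') = 1 → (u e = u e' ↔ v e = v e')) : Pot u v w := by
  intro e₀
  have hp := pi_pos
  have hr : ∀ k : Fin 4, k = 0 ∨ k = 1 ∨ k = 2 ∨ k = 3 := by decide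
  have pu : ∀ e e', rl (u e) = rl (u e') → (rl (u e) = 0 ∨ rl (u e) = 3) → u e = u e' :=
    fun e e' => pole e e' _ (Or.inl rfl) _ (Or.inl rfl)
  have pv : ∀ e e', rl (u e) = rl (u e') → (rl (u e) = 3 ∨ rl (u e) = 2) → v e = v e' :=
    fun e e' a b => pole e e' _ (Or.inr rfl) _ (Or.inr rfl) (by rw [hv, hv, a]) (by
      rw [hv]
      rcases b with b | b <;> rw [b] <;> decide)
  have uv : ∀ e e', rl (u e) ≠ rl (u e') + 1 → u e ≠ v e' := fun e e' a b => a (by rw [b, hv])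
  have uu : ∀ e e', rl (u e) ≠ rl (u e') → u e ≠ u e' := fun e e' a b => a (by rw [b])
  have vv : ∀ e e', rl (u e) ≠ rl (u e') → v e ≠ v e' := fun e e' a b =>
    a (add_right_cancel (by rw [← hv, ← hv, b]))
  rcases hr (rl (u e₀)) with h₀ | h₀ | h₀ | h₀
  · refine NAPot_mk u v w rl (fun r => r + 1) _ hv hw e₀
      (fun x => x = v e₀ ∨ ∃ e', rl (u e') = 1 ∧ u e' = v e₀ ∧ v e' = x)
      ![0, 3 * π / 2, π / 2 + θ, θ]
      ![0, θ / 2, θ / 2, θ] ?_ fun e he => ?_
    · simp only [h₀, Fin.reduceAdd, Matrix.cons_val, le_abs, true_or, if_true, ite_self]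
      right
      linarith only []
    · rcases hr (rl (u e)) with hk | hk | hk | hk
      · have hS := show ¬ (v e = v e₀ ∨ ∃ e', rl (u e') = 1 ∧ u e' = v e₀ ∧ v e' = v e) from by
          rintro (a | ⟨e', a, -, b⟩)
          · exact he (simple _ _ (pu _ _ (hk.trans h₀.symm) (Or.inl hk)) a)
          · exact vv _ _ (by rw [a, hk]; decide) b
        simp only [hk, Fin.reduceAdd, Matrix.cons_val, abs_le, if_neg hS, ite_self]
        constructor <;> linarith only [h1, h0, hp]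
      · have hS := show (u e = v e₀ ∨ ∃ e', rl (u e') = 1 ∧ u e' = v e₀ ∧ v e' = u e) ↔
            (v e = v e₀ ∨ ∃ e', rl (u e') = 1 ∧ u e' = v e₀ ∧ v e' = v e) from by
          constructor
          · rintro (a | ⟨e', a, -, b⟩)
            · exact Or.inr ⟨e, hk, a, rfl⟩
            · exact absurd b.symm (uv _ _ (by rw [a, hk]; decide))
          · rintro (a | ⟨e', a, b, c⟩)
            · exact absurd a (vv _ _ (by rw [h₀, hk]; decide))
            · exact Or.inl (((mtch _ _ hk a).2 c.symm).trans b)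
        simp only [hk, Fin.reduceAdd, Matrix.cons_val, abs_le]
        split_ifs with a b b
        · constructor <;> linarith only [h1]
        · exact absurd (hS.1 a) b
        · exact absurd (hS.2 b) a
        · constructor <;> linarith only [h1]
      · simp only [hk, Fin.reduceAdd, Matrix.cons_val, abs_le]
        split_ifs <;> constructor <;> linarith only [hp, h1, h0]
      · simp only [hk, Fin.reduceAdd, Matrix.cons_val, abs_le]
        split_ifs <;> constructor <;> linarith only [h0]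
  · refine NAPot_mk u v w rl (fun r => r + 1) _ hv hw e₀
      (fun x => x = u e₀ ∨ x = v e₀)
      ![θ + π / 2, π + θ, 0, π / 2]
      ![θ + π / 2, θ / 2 + π / 2, θ / 2 + π / 2, π / 2] ?_ fun e he => ?_
    · simp only [h₀, Fin.reduceAdd, Matrix.cons_val, le_abs, true_or, or_true, if_true]
      left
      linarith
    · rcases hr (rl (u e)) with hk | hk | hk | hk
      · simp only [hk, Fin.reduceAdd, Matrix.cons_val, abs_le]
        split_ifs <;> constructor <;> linarith only [hp, h0, h1]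
      · have hS := show ¬ (u e = u e₀ ∨ u e = v e₀) from by
          rintro (a | a)
          · exact he (simple _ _ a ((mtch _ _ hk h₀).1 a))
          · exact uv _ _ (by rw [h₀, hk]; decide) a
        have hS' := show ¬ (v e = u e₀ ∨ v e = v e₀) from by
          rintro (a | a)
          · exact uv _ _ (by rw [h₀, hk]; decide) a.symm
          · exact he (simple _ _ ((mtch _ _ hk h₀).2 a) a)
        simp only [hk, Fin.reduceAdd, Matrix.cons_val, abs_le, if_neg hS, if_neg hS']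
        constructor <;> linarith only [h1]
      · simp only [hk, Fin.reduceAdd, Matrix.cons_val, abs_le]
        split_ifs <;> constructor <;> linarith only [hp, h0, h1]
      · simp only [hk, Fin.reduceAdd, Matrix.cons_val, abs_le]
        split_ifs <;> constructor <;> linarith only [h0]
  · refine NAPot_mk u v w rl (fun r => r + 1) _ hv hw e₀
      (fun x => x = u e₀ ∨ ∃ e', rl (u e') = 1 ∧ u e' = x ∧ v e' = u e₀)
      ![θ, π / 2 + θ, 3 * π / 2, 0]
      ![θ, θ / 2, θ / 2, 0] ?_ fun e he => ?_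
    · simp only [h₀, Fin.reduceAdd, Matrix.cons_val, le_abs, true_or, if_true, ite_self]
      left
      linarith
    · rcases hr (rl (u e)) with hk | hk | hk | hk
      · simp only [hk, Fin.reduceAdd, Matrix.cons_val, abs_le]
        split_ifs <;> constructor <;> linarith only [hp, h0, h1]
      · have hS := show (u e = u e₀ ∨ ∃ e', rl (u e') = 1 ∧ u e' = u e ∧ v e' = u e₀) ↔
            (v e = u e₀ ∨ ∃ e', rl (u e') = 1 ∧ u e' = v e ∧ v e' = u e₀) from by
          constructor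
          · rintro (a | ⟨e', a, b, c⟩)
            · exact absurd a (uu _ _ (by rw [h₀, hk]; decide))
            · exact Or.inl (((mtch _ _ hk a).1 b.symm).trans c)
          · rintro (a | ⟨e', a, b, -⟩)
            · exact Or.inr ⟨e, hk, rfl, a⟩
            · exact absurd b (uv _ _ (by rw [a, hk]; decide))
        simp only [hk, Fin.reduceAdd, Matrix.cons_val, abs_le]
        split_ifs with a b b
        · constructor <;> linarith only [h1]
        · exact absurd (hS.1 a) b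
        · exact absurd (hS.2 b) a
        · constructor <;> linarith only [h1]
      · have hS := show ¬ (u e = u e₀ ∨ ∃ e', rl (u e') = 1 ∧ u e' = u e ∧ v e' = u e₀) from by
          rintro (a | ⟨e', a, b, -⟩)
          · exact he (simple _ _ a (pv _ _ (hk.trans h₀.symm) (Or.inr hk)))
          · exact uu _ _ (by rw [a, hk]; decide) b
        simp only [hk, Fin.reduceAdd, Matrix.cons_val, abs_le, if_neg hS, ite_self]
        constructor <;> linarith only [h0, hp, h1]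
      · simp only [hk, Fin.reduceAdd, Matrix.cons_val, abs_le]
        split_ifs <;> constructor <;> linarith only [h0]
  · refine NAPot_mk u v w rl (fun r => r + 1) _ hv hw e₀
      (fun _ => True)
      ![2 * π - θ, 3 * π / 2 - θ, π / 2, 0]
      ![2 * π - θ, 3 * π / 2 - θ, π / 2, 0] ?_ fun e he => ?_
    · simp only [h₀, Fin.reduceAdd, Matrix.cons_val, le_abs, ite_self]
      right
      linarith
    · rcases hr (rl (u e)) with hk | hk | hk | hk
      · simp only [hk, Fin.reduceAdd, Matrix.cons_val, abs_le, if_true]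
        constructor <;> linarith only [hp]
      · simp only [hk, Fin.reduceAdd, Matrix.cons_val, abs_le, if_true]
        constructor <;> linarith only [h1]
      · simp only [hk, Fin.reduceAdd, Matrix.cons_val, abs_le, if_true]
        constructor <;> linarith only [hp]
      · exact absurd (simple _ _ (pu _ _ (hk.trans h₀.symm) (Or.inr hk))
          (pv _ _ (hk.trans h₀.symm) (Or.inl hk))) he

theorem pot_five (rl : W → Fin 5) (θ : ℝ) (h0 : 0 ≤ θ) (h1 : θ ≤ π / 2)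
    (hv : ∀ e, rl (v e) = rl (u e) + 1)
    (hw : ∀ e, (![π / 2, π / 2, π / 2 - θ, π / 2, θ] : Fin 5 → ℝ) (rl (u e)) ≤ w e)
    (simple : ∀ e e', u e = u e' → v e = v e' → e = e')
    (pole : ∀ e e', ∀ x ∈ ({u e, v e} : Set W), ∀ y ∈ ({u e', v e'} : Set W),
      rl x = rl y → (rl x = 0 ∨ rl x = 4) → x = y)
    (mtch : ∀ e e', rl (u e) = 2 → rl (u e') = 2 → (u e = u e' ↔ v e = v e')) : Pot u v w := by
  intro e₀
  have hp := pi_pos
  have hr : ∀ k : Fin 5, k = 0 ∨ k = 1 ∨ k = 2 ∨ k = 3 ∨ k = 4 := by decide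
  have pu : ∀ e e', rl (u e) = rl (u e') → (rl (u e) = 0 ∨ rl (u e) = 4) → u e = u e' :=
    fun e e' => pole e e' _ (Or.inl rfl) _ (Or.inl rfl)
  have pv : ∀ e e', rl (u e) = rl (u e') → (rl (u e) = 4 ∨ rl (u e) = 3) → v e = v e' :=
    fun e e' a b => pole e e' _ (Or.inr rfl) _ (Or.inr rfl) (by rw [hv, hv, a]) (by
      rw [hv]
      rcases b with b | b <;> rw [b] <;> decide)
  have uv : ∀ e e', rl (u e) ≠ rl (u e') + 1 → u e ≠ v e' := fun e e' a b => a (by rw [b, hv])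
  have uu : ∀ e e', rl (u e) ≠ rl (u e') → u e ≠ u e' := fun e e' a b => a (by rw [b])
  have vv : ∀ e e', rl (u e) ≠ rl (u e') → v e ≠ v e' := fun e e' a b =>
    a (add_right_cancel (by rw [← hv, ← hv, b]))
  rcases hr (rl (u e₀)) with h₀ | h₀ | h₀ | h₀ | h₀
  · refine NAPot_mk u v w rl (fun r => r + 1) _ hv hw e₀
      (fun x => x = v e₀)
      ![0, 3 * π / 2, π, θ + π / 2, θ]
      ![0, π / 2, π, θ + π / 2, θ] ?_ fun e he => ?_
    · simp only [h₀, Fin.reduceAdd, Matrix.cons_val, le_abs, if_true, ite_self]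
      right
      linarith only []
    · rcases hr (rl (u e)) with hk | hk | hk | hk | hk
      · have hS := show ¬ (v e = v e₀) from fun a =>
          he (simple _ _ (pu _ _ (hk.trans h₀.symm) (Or.inl hk)) a)
        simp only [hk, Fin.reduceAdd, Matrix.cons_val, abs_le, if_neg hS, ite_self]
        constructor <;> linarith only [hp]
      · simp only [hk, Fin.reduceAdd, Matrix.cons_val, abs_le]
        split_ifs <;> constructor <;> linarith only [hp]
      · simp only [hk, Fin.reduceAdd, Matrix.cons_val, abs_le]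
        split_ifs <;> constructor <;> linarith only [h1]
      · simp only [hk, Fin.reduceAdd, Matrix.cons_val, abs_le]
        split_ifs <;> constructor <;> linarith only [hp]
      · simp only [hk, Fin.reduceAdd, Matrix.cons_val, abs_le]
        split_ifs <;> constructor <;> linarith only [h0]
  · refine NAPot_mk u v w rl (fun r => r + 1) _ hv hw e₀
      (fun x => x = u e₀ ∨ x = v e₀ ∨ ∃ e', rl (u e') = 2 ∧ u e' = v e₀ ∧ v e' = x)
      ![π, 3 * π / 2, 0, π / 2 - θ, π - θ]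
      ![π, π / 2, π, π, π - θ] ?_ fun e he => ?_
    · simp only [h₀, Fin.reduceAdd, Matrix.cons_val, le_abs, true_or, or_true, if_true]
      left
      linarith only []
    · rcases hr (rl (u e)) with hk | hk | hk | hk | hk
      · simp only [hk, Fin.reduceAdd, Matrix.cons_val, abs_le]
        split_ifs <;> constructor <;> linarith only [hp]
      · have hS : ¬ ((u e = u e₀ ∨ u e = v e₀ ∨ ∃ e', rl (u e') = 2 ∧ u e' = v e₀ ∧ v e' = u e) ∧
            (v e = u e₀ ∨ v e = v e₀ ∨ ∃ e', rl (u e') = 2 ∧ u e' = v e₀ ∧ v e' = v e)) := by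
          rintro ⟨a | a | ⟨e', a, -, b⟩, c⟩
          · rcases c with c | c | ⟨e', c, -, d⟩
            · exact uv _ _ (by rw [h₀, hk]; decide) c.symm
            · exact he (simple _ _ a c)
            · exact vv _ _ (by rw [c, hk]; decide) d
          · exact uv _ _ (by rw [h₀, hk]; decide) a
          · exact uv _ _ (by rw [a, hk]; decide) b.symm
        simp only [hk, Fin.reduceAdd, Matrix.cons_val, abs_le]
        split_ifs with a b
        · exact absurd ⟨a, b⟩ hS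
        all_goals constructor <;> linarith only [hp]
      · have hS := show (u e = u e₀ ∨ u e = v e₀ ∨ ∃ e', rl (u e') = 2 ∧ u e' = v e₀ ∧ v e' = u e) ↔
            (v e = u e₀ ∨ v e = v e₀ ∨ ∃ e', rl (u e') = 2 ∧ u e' = v e₀ ∧ v e' = v e) from by
          constructor
          · rintro (a | a | ⟨e', a, -, b⟩)
            · exact absurd a (uu _ _ (by rw [h₀, hk]; decide))
            · exact Or.inr (Or.inr ⟨e, hk, a, rfl⟩)
            · exact absurd b.symm (uv _ _ (by rw [a, hk]; decide))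
          · rintro (a | a | ⟨e', a, b, c⟩)
            · exact absurd a.symm (uv _ _ (by rw [h₀, hk]; decide))
            · exact absurd a (vv _ _ (by rw [h₀, hk]; decide))
            · exact Or.inr (Or.inl (((mtch _ _ hk a).2 c.symm).trans b))
        simp only [hk, Fin.reduceAdd, Matrix.cons_val, abs_le]
        split_ifs with a b b
        · constructor <;> linarith only [h1]
        · exact absurd (hS.1 a) b
        · exact absurd (hS.2 b) a
        · constructor <;> linarith only [h1]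
      · simp only [hk, Fin.reduceAdd, Matrix.cons_val, abs_le]
        split_ifs <;> constructor <;> linarith only [hp, h0, h1]
      · simp only [hk, Fin.reduceAdd, Matrix.cons_val, abs_le]
        split_ifs <;> constructor <;> linarith only [h0]
  · refine NAPot_mk u v w rl (fun r => r + 1) _ hv hw e₀
      (fun x => x = u e₀ ∨ x = v e₀)
      ![θ + π / 2, θ + π, θ + 3 * π / 2, 0, π / 2]
      ![θ + π / 2, θ + π, 3 * π / 2 - θ, π, π / 2] ?_ fun e he => ?_
    · simp only [h₀, Fin.reduceAdd, Matrix.cons_val, le_abs, true_or, or_true, if_true]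
      left
      linarith only []
    · rcases hr (rl (u e)) with hk | hk | hk | hk | hk
      · simp only [hk, Fin.reduceAdd, Matrix.cons_val, abs_le]
        split_ifs <;> constructor <;> linarith only [hp]
      · simp only [hk, Fin.reduceAdd, Matrix.cons_val, abs_le]
        split_ifs <;> constructor <;> linarith only [hp, h0, h1]
      · have hS := show ¬ (u e = u e₀ ∨ u e = v e₀) from by
          rintro (a | a)
          · exact he (simple _ _ a ((mtch _ _ hk h₀).1 a))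
          · exact uv _ _ (by rw [h₀, hk]; decide) a
        have hS' := show ¬ (v e = u e₀ ∨ v e = v e₀) from by
          rintro (a | a)
          · exact uv _ _ (by rw [h₀, hk]; decide) a.symm
          · exact he (simple _ _ ((mtch _ _ hk h₀).2 a) a)
        simp only [hk, Fin.reduceAdd, Matrix.cons_val, abs_le, if_neg hS, if_neg hS']
        constructor <;> linarith only [h1]
      · simp only [hk, Fin.reduceAdd, Matrix.cons_val, abs_le]
        split_ifs <;> constructor <;> linarith only [hp]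
      · simp only [hk, Fin.reduceAdd, Matrix.cons_val, abs_le]
        split_ifs <;> constructor <;> linarith only [h0]
  · refine NAPot_mk u v w rl (fun r => r + 1) _ hv hw e₀
      (fun x => x = u e₀ ∨ ∃ e', rl (u e') = 2 ∧ u e' = x ∧ v e' = u e₀)
      ![θ, θ + π / 2, θ + π, 3 * π / 2, 0]
      ![θ, θ + π / 2, π - θ, π / 2, 0] ?_ fun e he => ?_
    · simp only [h₀, Fin.reduceAdd, Matrix.cons_val, le_abs, true_or, if_true, ite_self]
      left
      linarith only []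
    · rcases hr (rl (u e)) with hk | hk | hk | hk | hk
      · simp only [hk, Fin.reduceAdd, Matrix.cons_val, abs_le]
        split_ifs <;> constructor <;> linarith only [hp]
      · simp only [hk, Fin.reduceAdd, Matrix.cons_val, abs_le]
        split_ifs <;> constructor <;> linarith only [hp, h0, h1]
      · have hS := show (u e = u e₀ ∨ ∃ e', rl (u e') = 2 ∧ u e' = u e ∧ v e' = u e₀) ↔
            (v e = u e₀ ∨ ∃ e', rl (u e') = 2 ∧ u e' = v e ∧ v e' = u e₀) from by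
          constructor
          · rintro (a | ⟨e', a, b, c⟩)
            · exact absurd a (uu _ _ (by rw [h₀, hk]; decide))
            · exact Or.inl (((mtch _ _ hk a).1 b.symm).trans c)
          · rintro (a | ⟨e', a, b, -⟩)
            · exact Or.inr ⟨e, hk, rfl, a⟩
            · exact absurd b (uv _ _ (by rw [a, hk]; decide))
        simp only [hk, Fin.reduceAdd, Matrix.cons_val, abs_le]
        split_ifs with a b b
        · constructor <;> linarith only [h1]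
        · exact absurd (hS.1 a) b
        · exact absurd (hS.2 b) a
        · constructor <;> linarith only [h1]
      · have hS := show ¬ (u e = u e₀ ∨ ∃ e', rl (u e') = 2 ∧ u e' = u e ∧ v e' = u e₀) from by
          rintro (a | ⟨e', a, b, -⟩)
          · exact he (simple _ _ a (pv _ _ (hk.trans h₀.symm) (Or.inr hk)))
          · exact uu _ _ (by rw [a, hk]; decide) b
        simp only [hk, Fin.reduceAdd, Matrix.cons_val, abs_le, if_neg hS, ite_self]
        constructor <;> linarith only [hp]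
      · simp only [hk, Fin.reduceAdd, Matrix.cons_val, abs_le]
        split_ifs <;> constructor <;> linarith only [h0]
  · refine NAPot_mk u v w rl (fun r => r + 1) _ hv hw e₀
      (fun _ => True)
      ![2 * π - θ, 3 * π / 2 - θ, π - θ, π / 2, 0]
      ![2 * π - θ, 3 * π / 2 - θ, π - θ, π / 2, 0] ?_ fun e he => ?_
    · simp only [h₀, Fin.reduceAdd, Matrix.cons_val, le_abs, ite_self]
      right
      linarith
    · rcases hr (rl (u e)) with hk | hk | hk | hk | hk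
      · simp only [hk, Fin.reduceAdd, Matrix.cons_val, abs_le, if_true]
        constructor <;> linarith only [hp]
      · simp only [hk, Fin.reduceAdd, Matrix.cons_val, abs_le, if_true]
        constructor <;> linarith only [hp]
      · simp only [hk, Fin.reduceAdd, Matrix.cons_val, abs_le, if_true]
        constructor <;> linarith only [h1]
      · simp only [hk, Fin.reduceAdd, Matrix.cons_val, abs_le, if_true]
        constructor <;> linarith only [hp]
      · exact absurd (simple _ _ (pu _ _ (hk.trans h₀.symm) (Or.inr hk))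
          (pv _ _ (hk.trans h₀.symm) (Or.inl hk))) he

end Pool.Agent.Work.MP_0909b4_al.NA
end

-- merged part: Pool.Agent.Work.MP_0909b4_al.NALink2
section
/-! The link condition.

Plan. Fix the apex `x`, `k = dco x.1`, `d = (memD x).1` (not a corner dart, `Val.wf`), `δ = δ k`,
`δ' = δ (pv k)`, `θ = angle δ (-δ')`. The edges of the link are the corners `c` with
`ap0 (nx0 c) = x`, with ends `uu c`, `vv c` and weight the angle of the `dirR k` (`wt_eq`).
`angle z (-I z) = π / 2`, `angle (-I δ) (-I δ') = π - θ`.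
* `two d`: `pot_bip` after `Pot.swap`, colour `true` on the roles `1, 4`; all weights are `π / 2`
  by `two_angle`.
* neither `isB d` nor `isB (pvd d)`: `pot_four` with roles `0, 1, 3, 4 ↦ 0, 1, 2, 3`.
* `isB d`: `pot_five` with `rl` and `min θ (π/2)`; the weight of a cap is `angle (-δ) (-I δ')`, at
  least `π / 2 - θ` by the triangle inequality for angles.
* `isB (pvd d)`: `pot_five` for `vv, uu` with the roles `4 - rl`, then `Pot.swap`.
`BB` excludes `isB d` together with `isB (pvd d)`; `two_B` is not needed.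
-/

namespace Pool.Agent.Work.MP_0909b4_al.NA

open Real InnerProductGeometry

theorem L2_perp (z : ℂ) : angle z (-Complex.I * z) = π / 2 := by
  rw [← inner_eq_zero_iff_angle_eq_pi_div_two]
  simp [Complex.inner]
  ring

theorem L2_rot (z w : ℂ) : angle (-Complex.I * z) (-Complex.I * w) = angle z w := by
  exact Complex.angle_mul_left (by simp) z w

theorem L2_dot {z w : ℂ} (h : dot z w = 0) : angle z w = π / 2 := by
  rw [← inner_eq_zero_iff_angle_eq_pi_div_two]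
  simp only [dot] at h
  simp [Complex.inner]
  linarith only [h]

namespace Sub

variable {S : Sub}

theorem wt_eq (c : S.poly0.Cn) : S.poly0.wt c =
    angle (S.dirR (S.dco (S.ap0 (S.nx0 c.1)).1) (S.uu c.1))
      (S.dirR (S.dco (S.ap0 (S.nx0 c.1)).1) (S.vv c.1)) := by
  obtain ⟨r, hr, e⟩ := dir_eq (ok_sd c.2) (S.uu c.1).2
  obtain ⟨r', hr', e'⟩ := dir_eq (ok_sd (ok_nx c.2)) (S.vv c.1).2
  have a : S.en (S.sdm c.1).1 (S.uu c.1).2 = S.ap0 (S.nx0 c.1) := en_uu c.2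
  have b : S.en (S.sdm (S.nx0 c.1)).1 (S.vv c.1).2 = S.ap0 (S.nx0 c.1) := en_vv c.2
  rw [a] at e
  rw [b] at e'
  have : S.poly0.wt c = angle (S.poly0.dirS ((S.sdm c.1).1, (S.uu c.1).2))
      (S.poly0.dirS ((S.sdm (S.nx0 c.1)).1, (S.vv c.1).2)) := rfl
  rw [this, e, e', angle_smul_left_of_pos _ _ hr, angle_smul_right_of_pos _ _ hr']
  rfl

theorem L2_d0 (k : S.Co) {h : S.Si × Bool} (e : S.rl h = 0) : S.dirR k h = S.δ k := by
  obtain ⟨s, b⟩ := h
  cases s with
  | cs x =>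
    cases b
    · rfl
    · exact absurd e (by simp only [rl]; decide)
  | hs G d a => exact absurd e (by simp only [rl]; decide)
  | se z b' =>
    simp only [rl] at e
    split_ifs at e <;> exact absurd e (by decide)

theorem L2_d4 (k : S.Co) {h : S.Si × Bool} (e : S.rl h = 4) : S.dirR k h = -S.δ (S.pv k) := by
  obtain ⟨s, b⟩ := h
  cases s with
  | cs x =>
    cases b
    · exact absurd e (by simp only [rl]; decide)
    · rfl
  | hs G d a => exact absurd e (by simp only [rl]; decide)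
  | se z b' =>
    simp only [rl] at e
    split_ifs at e <;> exact absurd e (by decide)

theorem L2_d1 (k : S.Co) {h : S.Si × Bool} (e : S.rl h = 1) : S.dirR k h = -Complex.I * S.δ k := by
  obtain ⟨s, b⟩ := h
  cases s with
  | cs x => cases b <;> exact absurd e (by simp only [rl]; decide)
  | hs G d a => exact absurd e (by simp only [rl]; decide)
  | se z b' =>
    simp only [rl, dirR] at e ⊢
    split_ifs at e ⊢
    · rfl
    · exact absurd e (by decide)

theorem L2_d3 (k : S.Co) {h : S.Si × Bool} (e : S.rl h = 3) :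
    S.dirR k h = -Complex.I * S.δ (S.pv k) := by
  obtain ⟨s, b⟩ := h
  cases s with
  | cs x => cases b <;> exact absurd e (by simp only [rl]; decide)
  | hs G d a => exact absurd e (by simp only [rl]; decide)
  | se z b' =>
    simp only [rl, dirR] at e ⊢
    split_ifs at e ⊢
    · exact absurd e (by decide)
    · rfl

theorem L2_d2 (k : S.Co) {h : S.Si × Bool} (e : S.rl h = 2) :
    (h.2 = true → S.dirR k h = -S.δ k) ∧ (h.2 = false → S.dirR k h = S.δ (S.pv k)) := by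
  obtain ⟨s, b⟩ := h
  cases s with
  | cs x => cases b <;> exact absurd e (by simp only [rl]; decide)
  | hs G d a => cases b <;> simp [dirR]
  | se z b' =>
    simp only [rl] at e
    split_ifs at e <;> exact absurd e (by decide)

theorem L2_w {c : S.poly0.Cn} {k : S.Co} (hk : k = S.dco (S.ap0 (S.nx0 c.1)).1) {θ : ℝ}
    (hθ : θ = angle (S.δ k) (-S.δ (S.pv k))) :
    (S.rl (S.uu c.1) = 4 → S.rl (S.vv c.1) = 0 → S.poly0.wt c = θ) ∧
    (S.rl (S.uu c.1) = 0 → S.rl (S.vv c.1) = 1 → S.poly0.wt c = π / 2) ∧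
    (S.rl (S.uu c.1) = 3 → S.rl (S.vv c.1) = 4 → S.poly0.wt c = π / 2) ∧
    (S.rl (S.uu c.1) = 1 → S.rl (S.vv c.1) = 3 → S.poly0.wt c = π - θ) ∧
    (S.rl (S.uu c.1) = 2 → (S.uu c.1).2 = true → S.rl (S.vv c.1) = 3 → π / 2 - θ ≤ S.poly0.wt c) ∧
    (S.rl (S.uu c.1) = 1 → S.rl (S.vv c.1) = 2 → (S.vv c.1).2 = false →
      π / 2 - θ ≤ S.poly0.wt c) ∧
    (S.rl (S.uu c.1) = 1 → S.rl (S.vv c.1) = 2 → (S.vv c.1).2 = true → S.poly0.wt c = π / 2) ∧
    (S.rl (S.uu c.1) = 2 → (S.uu c.1).2 = false → S.rl (S.vv c.1) = 3 → S.poly0.wt c = π / 2) := by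
  rw [wt_eq, ← hk]
  refine ⟨fun a b => ?_, fun a b => ?_, fun a b => ?_, fun a b => ?_, fun a a' b => ?_,
    fun a b b' => ?_, fun a b b' => ?_, fun a a' b => ?_⟩
  · rw [L2_d4 k a, L2_d0 k b, angle_comm, hθ]
  · rw [L2_d0 k a, L2_d1 k b, L2_perp]
  · rw [L2_d3 k a, L2_d4 k b, angle_neg_right, angle_comm, L2_perp]
    ring
  · rw [L2_d1 k a, L2_d3 k b, L2_rot, hθ, angle_neg_right]
    ring
  · rw [(L2_d2 k a).1 a', L2_d3 k b]
    have h1 := angle_le_angle_add_angle (S.δ (S.pv k)) (-S.δ k) (-Complex.I * S.δ (S.pv k))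
    rw [L2_perp, angle_neg_right, angle_comm] at h1
    rw [hθ, angle_neg_right]
    linarith only [h1]
  · rw [(L2_d2 k b).2 b', L2_d1 k a]
    have h1 := angle_le_angle_add_angle (-S.δ k) (S.δ (S.pv k)) (-Complex.I * S.δ k)
    rw [angle_neg_left, L2_perp, angle_neg_left, angle_comm (S.δ (S.pv k))] at h1
    rw [hθ, angle_neg_right]
    linarith only [h1]
  · rw [(L2_d2 k b).1 b', L2_d1 k a, angle_neg_right, angle_comm, L2_perp]
    ring
  · rw [(L2_d2 k a).2 a', L2_d3 k b, L2_perp]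

theorem link_pot (x : S.DS) :
    Pot (fun c : {c : S.poly0.Cn // S.ap0 (S.nx0 c.1) = x} => S.uu c.1.1)
      (fun c => S.vv c.1.1) (fun c => S.poly0.wt c.1) := by
  classical
  intro e₀
  have hval : S.Val (S.ts x) := by
    rw [← e₀.2]
    exact ap_val (ok_nx e₀.1.2)
  revert e₀
  change Pot (fun c : {c : S.poly0.Cn // S.ap0 (S.nx0 c.1) = x} => S.uu c.1.1)
      (fun c => S.vv c.1.1) (fun c => S.poly0.wt c.1)
  obtain ⟨d, hd⟩ : ∃ d, d = (S.memD x).1 := ⟨_, rfl⟩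
  obtain ⟨k, hk⟩ : ∃ k, k = S.dco x.1 := ⟨_, rfl⟩
  obtain ⟨θ, hθ⟩ : ∃ θ, θ = angle (S.δ k) (-S.δ (S.pv k)) := ⟨_, rfl⟩
  have θ0 : 0 ≤ θ := hθ ▸ angle_nonneg _ _
  have θ1 : θ ≤ π := hθ ▸ angle_le_pi _ _
  have K := fun c : {c : S.poly0.Cn // S.ap0 (S.nx0 c.1) = x} =>
    kinds c.1.2 (d := d) (by rw [c.2]; exact hd)
  have W := fun c : {c : S.poly0.Cn // S.ap0 (S.nx0 c.1) = x} =>
    L2_w (c := c.1) (k := k) (by rw [c.2]; exact hk) hθ
  have Si : ∀ c c' : {c : S.poly0.Cn // S.ap0 (S.nx0 c.1) = x}, S.uu c.1.1 = S.uu c'.1.1 →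
      S.vv c.1.1 = S.vv c'.1.1 → c = c' := fun c c' a b =>
    Subtype.ext (Subtype.ext (simple c.1.2 c'.1.2 a b))
  have En : ∀ c : {c : S.poly0.Cn // S.ap0 (S.nx0 c.1) = x}, ∀ y, y = S.uu c.1.1 ∨ y = S.vv c.1.1 →
      S.en y.1 y.2 = x := by
    rintro c y (rfl | rfl)
    · rw [en_uu c.1.2, c.2]
    · rw [en_vv c.1.2, c.2]
  have Ma : ∀ c c' : {c : S.poly0.Cn // S.ap0 (S.nx0 c.1) = x}, S.isVf c.1.1 → S.isVf c'.1.1 →
      (S.uu c.1.1 = S.uu c'.1.1 ↔ S.vv c.1.1 = S.vv c'.1.1) := fun c c' a b =>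
    ⟨fun q => by rw [cap_match c.1.2 c'.1.2 a b (Or.inl q)],
      fun q => by rw [cap_match c.1.2 c'.1.2 a b (Or.inr q)]⟩
  have nB : S.isB d = true → S.isB (S.pvd d) = true → False := fun a b =>
    (Val.wf hval).1 (hd ▸ ⟨a, S.BB d a b⟩)
  have pi0 := pi_pos
  by_cases h2 : S.two d
  · have hθ2 : θ = π / 2 := by
      rw [hθ, angle_neg_right, L2_dot (hk ▸ two_angle hval (hd ▸ h2))]
      ring
    have K' : ∀ c : {c : S.poly0.Cn // S.ap0 (S.nx0 c.1) = x},
        (S.rl (S.uu c.1.1) = 4 ∧ S.rl (S.vv c.1.1) = 0) ∨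
        (S.rl (S.uu c.1.1) = 0 ∧ S.rl (S.vv c.1.1) = 1) ∨
        (S.rl (S.uu c.1.1) = 3 ∧ S.rl (S.vv c.1.1) = 4) ∨
        (S.rl (S.uu c.1.1) = 1 ∧ S.rl (S.vv c.1.1) = 3) := by
      intro c
      have := K c
      (clear * - h2 nB this; grind)
    let col : S.Si × Bool → Bool := fun y => decide (S.rl y = 1 ∨ S.rl y = 4)
    refine Pot.swap (pot_bip (fun c => if col (S.uu c.1.1) then S.vv c.1.1 else S.uu c.1.1)
      (fun c => if col (S.uu c.1.1) then S.uu c.1.1 else S.vv c.1.1) _ col ?_ ?_ ?_ ?_) ?_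
    · intro c
      rcases K' c with ⟨a, b⟩ | ⟨a, b⟩ | ⟨a, b⟩ | ⟨a, b⟩ <;> simp [col, a, b]
    · intro c
      rcases K' c with ⟨a, b⟩ | ⟨a, b⟩ | ⟨a, b⟩ | ⟨a, b⟩ <;> simp [col, a, b]
    · intro c
      obtain ⟨w1, w2, w3, w4, -⟩ := W c
      rcases K' c with ⟨a, b⟩ | ⟨a, b⟩ | ⟨a, b⟩ | ⟨a, b⟩
      · rw [w1 a b, hθ2]
      · rw [w2 a b]
      · rw [w3 a b]
      · rw [w4 a b, hθ2]
        linarith only []
    · intro c c' p q
      by_cases a : col (S.uu c.1.1) = true <;> by_cases b : col (S.uu c'.1.1) = true <;>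
        simp only [a, b, if_true, if_false, Bool.false_eq_true] at p q
      · exact Si c c' q p
      · exfalso
        have p' := congrArg S.rl p
        have q' := congrArg S.rl q
        rcases K' c with ⟨a, b⟩ | ⟨a, b⟩ | ⟨a, b⟩ | ⟨a, b⟩ <;>
          rcases K' c' with ⟨a', b'⟩ | ⟨a', b'⟩ | ⟨a', b'⟩ | ⟨a', b'⟩ <;>
          rw [b, a'] at p' <;> rw [a, b'] at q' <;>
          first | exact absurd p' (by decide) | exact absurd q' (by decide)
      · exfalso
        have p' := congrArg S.rl p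
        have q' := congrArg S.rl q
        rcases K' c with ⟨a, b⟩ | ⟨a, b⟩ | ⟨a, b⟩ | ⟨a, b⟩ <;>
          rcases K' c' with ⟨a', b'⟩ | ⟨a', b'⟩ | ⟨a', b'⟩ | ⟨a', b'⟩ <;>
          rw [a, b'] at p' <;> rw [b, a'] at q' <;>
          first | exact absurd p' (by decide) | exact absurd q' (by decide)
      · exact Si c c' p q
    · intro c
      by_cases a : col (S.uu c.1.1) = true <;> simp [a]
  by_cases hB : S.isB d = true
  · have hP : ¬S.isB (S.pvd d) = true := nB hB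
    have K' : ∀ c : {c : S.poly0.Cn // S.ap0 (S.nx0 c.1) = x},
        (S.rl (S.uu c.1.1) = 4 ∧ S.rl (S.vv c.1.1) = 0) ∨
        (S.rl (S.uu c.1.1) = 0 ∧ S.rl (S.vv c.1.1) = 1) ∨
        (S.rl (S.uu c.1.1) = 3 ∧ S.rl (S.vv c.1.1) = 4) ∨
        (S.isVf c.1.1 ∧ S.rl (S.uu c.1.1) = 2 ∧ (S.uu c.1.1).2 = true ∧ S.rl (S.vv c.1.1) = 3) ∨
        (S.rl (S.uu c.1.1) = 1 ∧ S.rl (S.vv c.1.1) = 2 ∧ (S.vv c.1.1).2 = true) := by
      intro c
      have := K c
      have hB' : ¬S.isB d = false := by simp [hB]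
      (clear * - h2 hB hB' hP nB this; grind)
    refine pot_five _ _ _ S.rl (min θ (π / 2)) (le_min θ0 (by linarith only [pi0])) (min_le_right _ _)
      ?_ ?_ Si ?_ ?_
    · intro c
      rcases K' c with ⟨a, b⟩ | ⟨a, b⟩ | ⟨a, b⟩ | ⟨-, a, -, b⟩ | ⟨a, b, -⟩ <;> rw [a, b] <;> rfl
    · intro c
      obtain ⟨w1, w2, w3, -, w5, -, w7, -⟩ := W c
      rcases K' c with ⟨a, b⟩ | ⟨a, b⟩ | ⟨a, b⟩ | ⟨-, a, a', b⟩ | ⟨a, b, b'⟩ <;> rw [a]
      · rw [w1 a b]
        exact min_le_left _ _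
      · exact (w2 a b).ge
      · exact (w3 a b).ge
      · have := w5 a a' b
        have h0 : 0 ≤ S.poly0.wt c.1 := angle_nonneg _ _
        change π / 2 - min θ (π / 2) ≤ _
        rcases min_cases θ (π / 2) with ⟨q, -⟩ | ⟨q, -⟩ <;> rw [q] <;> linarith only [this, h0]
      · exact (w7 a b b').ge
    · intro c c' y hy y' hy' p q
      exact pole ((En c y hy).trans (En c' y' hy').symm) p q
    · intro c c' p q
      apply Ma
      · rcases K' c with ⟨a, b⟩ | ⟨a, b⟩ | ⟨a, b⟩ | ⟨a, -⟩ | ⟨a, b, -⟩ <;>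
          first | exact a | exact absurd (a.symm.trans p) (by decide)
      · rcases K' c' with ⟨a, b⟩ | ⟨a, b⟩ | ⟨a, b⟩ | ⟨a, -⟩ | ⟨a, b, -⟩ <;>
          first | exact a | exact absurd (a.symm.trans q) (by decide)
  by_cases hP : S.isB (S.pvd d) = true
  · have K' : ∀ c : {c : S.poly0.Cn // S.ap0 (S.nx0 c.1) = x},
        (S.rl (S.uu c.1.1) = 4 ∧ S.rl (S.vv c.1.1) = 0) ∨
        (S.rl (S.uu c.1.1) = 0 ∧ S.rl (S.vv c.1.1) = 1) ∨
        (S.rl (S.uu c.1.1) = 3 ∧ S.rl (S.vv c.1.1) = 4) ∨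
        (S.isVf c.1.1 ∧ S.rl (S.uu c.1.1) = 1 ∧ S.rl (S.vv c.1.1) = 2 ∧ (S.vv c.1.1).2 = false) ∨
        (S.rl (S.uu c.1.1) = 2 ∧ (S.uu c.1.1).2 = false ∧ S.rl (S.vv c.1.1) = 3) := by
      intro c
      have := K c
      have hP' : ¬S.isB (S.pvd d) = false := by simp [hP]
      (clear * - h2 hB hP hP' nB this; grind)
    refine Pot.swap (pot_five (fun c => S.vv c.1.1) (fun c => S.uu c.1.1) _
      (fun y => (S.rl y).rev) (min θ (π / 2)) (le_min θ0 (by linarith only [pi0])) (min_le_right _ _)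
      ?_ ?_ (fun c c' a b => Si c c' b a) ?_ ?_) (fun c => Or.inr ⟨rfl, rfl⟩)
    · intro c
      rcases K' c with ⟨a, b⟩ | ⟨a, b⟩ | ⟨a, b⟩ | ⟨-, a, b, -⟩ | ⟨a, -, b⟩ <;> rw [a, b] <;> rfl
    · intro c
      obtain ⟨w1, w2, w3, -, -, w6, -, w8⟩ := W c
      rcases K' c with ⟨a, b⟩ | ⟨a, b⟩ | ⟨a, b⟩ | ⟨-, a, b, b'⟩ | ⟨a, a', b⟩ <;> rw [b]
      · rw [w1 a b]
        exact min_le_left _ _
      · exact (w2 a b).ge
      · exact (w3 a b).ge
      · have := w6 a b b'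
        have h0 : 0 ≤ S.poly0.wt c.1 := angle_nonneg _ _
        change π / 2 - min θ (π / 2) ≤ _
        rcases min_cases θ (π / 2) with ⟨q, -⟩ | ⟨q, -⟩ <;> rw [q] <;> linarith only [this, h0]
      · exact (w8 a a' b).ge
    · intro c c' y hy y' hy' p q
      refine pole ((En c y (Or.symm hy)).trans (En c' y' (Or.symm hy')).symm)
        (Fin.rev_injective p) ?_
      revert q
      generalize S.rl y = r
      revert r
      decide
    · intro c c' p q
      refine (Ma c c' ?_ ?_).symm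
      · rcases K' c with ⟨a, b⟩ | ⟨a, b⟩ | ⟨a, b⟩ | ⟨a, -⟩ | ⟨a, -, b⟩ <;>
          first | exact a | (rw [b] at p; exact absurd p (by decide))
      · rcases K' c' with ⟨a, b⟩ | ⟨a, b⟩ | ⟨a, b⟩ | ⟨a, -⟩ | ⟨a, -, b⟩ <;>
          first | exact a | (rw [b] at q; exact absurd q (by decide))
  · have K' : ∀ c : {c : S.poly0.Cn // S.ap0 (S.nx0 c.1) = x},
        (S.rl (S.uu c.1.1) = 4 ∧ S.rl (S.vv c.1.1) = 0) ∨
        (S.rl (S.uu c.1.1) = 0 ∧ S.rl (S.vv c.1.1) = 1) ∨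
        (S.rl (S.uu c.1.1) = 3 ∧ S.rl (S.vv c.1.1) = 4) ∨
        (S.isVf c.1.1 ∧ S.rl (S.uu c.1.1) = 1 ∧ S.rl (S.vv c.1.1) = 3) := by
      intro c
      have := K c
      (clear * - h2 hB hP nB this; grind)
    have En' : ∀ c : {c : S.poly0.Cn // S.ap0 (S.nx0 c.1) = x}, ∀ y,
        y = S.uu c.1.1 ∨ y = S.vv c.1.1 → S.rl y ≠ 2 := by
      rintro c y (rfl | rfl) <;>
        rcases K' c with ⟨a, b⟩ | ⟨a, b⟩ | ⟨a, b⟩ | ⟨-, a, b⟩ <;>
        first | (rw [a]; decide) | (rw [b]; decide)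
    refine pot_four _ _ _ (fun y => (![0, 1, 0, 2, 3] : Fin 5 → Fin 4) (S.rl y)) θ θ0 θ1
      ?_ ?_ Si ?_ ?_
    · intro c
      rcases K' c with ⟨a, b⟩ | ⟨a, b⟩ | ⟨a, b⟩ | ⟨-, a, b⟩ <;> rw [a, b] <;> rfl
    · intro c
      obtain ⟨w1, w2, w3, w4, -⟩ := W c
      rcases K' c with ⟨a, b⟩ | ⟨a, b⟩ | ⟨a, b⟩ | ⟨-, a, b⟩ <;> rw [a]
      · exact (w1 a b).ge
      · exact (w2 a b).ge
      · exact (w3 a b).ge
      · exact (w4 a b).ge
    · intro c c' y hy y' hy' p q
      have n1 := En' c y hy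
      have n2 := En' c' y' hy'
      have : S.rl y = S.rl y' ∧ (S.rl y = 0 ∨ S.rl y = 4) := by
        revert n1 n2 p q
        generalize S.rl y = r
        generalize S.rl y' = r'
        revert r r'
        decide
      exact pole ((En c y hy).trans (En c' y' hy').symm) this.1 this.2
    · intro c c' p q
      apply Ma
      · rcases K' c with ⟨a, b⟩ | ⟨a, b⟩ | ⟨a, b⟩ | ⟨a, -⟩ <;>
          first | exact a | (rw [a] at p; exact absurd p (by decide))
      · rcases K' c' with ⟨a, b⟩ | ⟨a, b⟩ | ⟨a, b⟩ | ⟨a, -⟩ <;>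
          first | exact a | (rw [a] at q; exact absurd q (by decide))

variable (S)

/-- the nonpositively curved complex of labelled cells -/
noncomputable def poly : Poly where
  toPoly0 := S.poly0
  fc_nx c := fc_nx0 c.1
  cyc := by
    intro c c' e
    obtain ⟨n, hn⟩ := cyc0 c.2 e
    refine ⟨n, Subtype.ext ?_⟩
    rw [← hn]
    exact (Function.Semiconj.iterate_right (f := fun c : S.poly0.Cn => c.1) (ga := S.poly0.nx)
      (gb := S.nx0) (fun _ => rfl) n c)
  three := fun c e => three0 c.2 (congrArg Subtype.val e)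
  close_ap := fun c => (ap_eq (S.poly0.nx c)).trans (inn_eq c.2).1.symm
  close_mo := fun c => (ma_eq (S.poly0.nx c)).trans (inn_eq c.2).2.symm
  convex := by
    intro c c' e h₁ h₂
    simp only [Poly0.vt, ma_eq]
    exact convex0 c.2 c'.2 e (fun q => h₁ (Subtype.ext q)) (fun q => h₂ (Subtype.ext q))
  link := by
    intro c
    obtain ⟨F, h₁, h₂⟩ := link_pot (S.ap0 (S.nx0 c.1)) ⟨c, rfl⟩
    refine ⟨F, h₁, fun c' e hne => ?_⟩
    rw [ap_eq, ap_eq] at e
    exact h₂ ⟨c', e⟩ (fun q => hne (congrArg Subtype.val q))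

end Sub

end Pool.Agent.Work.MP_0909b4_al.NA
end

-- merged part: Pool.Agent.Work.MP_0909b4_al.NAInst
section
/-! The substitution given by the tables. -/

namespace Pool.Agent.Work.MP_0909b4_al.NA.Dat

/-- the point with coordinates `x / 20`, `y / 20` -/
noncomputable def zc (x y : ℤ) : ℂ := ⟨x / 20, y / 20⟩

/-- the point with coordinates `x / 5`, `y / 5` -/
noncomputable def za (x y : ℤ) : ℂ := ⟨x / 5, y / 5⟩

theorem zc_sub (a b c d : ℤ) : zc a b - zc c d = zc (a - c) (b - d) := by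
  apply Complex.ext <;> simp [zc] <;> ring

theorem zc_add (a b c d : ℤ) : zc a b + zc c d = zc (a + c) (b + d) := by
  apply Complex.ext <;> simp [zc] <;> ring

theorem zc_mul (n a b : ℤ) : (n : ℂ) * zc a b = zc (n * a) (n * b) := by
  apply Complex.ext <;> simp [zc] <;> ring

theorem zc_five (a b : ℤ) : 5 * zc a b = zc (5 * a) (5 * b) := by
  simpa using zc_mul 5 a b

theorem zc_four (a b : ℤ) : 4 * zc a b = zc (4 * a) (4 * b) := by
  simpa using zc_mul 4 a b

theorem zc_nat (n : ℕ) (a b : ℤ) : (n : ℂ) * zc a b = zc (n * a) (n * b) := by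
  simpa using zc_mul n a b

theorem zc_nat' (n : ℕ) (a b : ℤ) : (n + 1 : ℂ) * zc a b = zc ((n + 1) * a) ((n + 1) * b) := by
  simpa using zc_mul (n + 1) a b

theorem zc_inj {a b c d : ℤ} : zc a b = zc c d ↔ a = c ∧ b = d := by
  constructor
  · intro h
    have h1 := congrArg Complex.re h
    have h2 := congrArg Complex.im h
    simp only [zc] at h1 h2
    have h3 : (a : ℝ) = c := by linarith only [h1]
    have h4 : (b : ℝ) = d := by linarith only [h2]
    exact ⟨by exact_mod_cast h3, by exact_mod_cast h4⟩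
  · rintro ⟨rfl, rfl⟩
    rfl

theorem cross_zc (a b c d : ℤ) : cross (zc a b) (zc c d) = (cr a b c d : ℝ) / 400 := by
  simp only [cross, zc, cr]
  push_cast
  ring

theorem dot_zc (a b c d : ℤ) : dot (zc a b) (zc c d) = ((a * c + b * d : ℤ) : ℝ) / 400 := by
  simp only [dot, zc]
  push_cast
  ring

theorem normSq_zc (a b : ℤ) : Complex.normSq (zc a b) = ((a ^ 2 + b ^ 2 : ℤ) : ℝ) / 400 := by
  simp only [Complex.normSq_apply, zc]
  push_cast
  ring

theorem norm_za {a b : ℤ} (h : a ^ 2 + b ^ 2 = 25) : ‖za a b‖ = 1 := by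
  have h' : (a : ℝ) ^ 2 + (b : ℝ) ^ 2 = 25 := by exact_mod_cast h
  have : Complex.normSq (za a b) = 1 := by
    simp only [Complex.normSq_apply, za]
    linarith only [h']
  rw [Complex.norm_def, this, Real.sqrt_one]

theorem za_act {a b x y u v p q : ℤ} (h₁ : 5 * p = a * x - b * y + 5 * u)
    (h₂ : 5 * q = a * y + b * x + 5 * v) : za a b * zc x y + zc u v = zc p q := by
  have e₁ : (5 : ℝ) * p = a * x - b * y + 5 * u := by exact_mod_cast h₁
  have e₂ : (5 : ℝ) * q = a * y + b * x + 5 * v := by exact_mod_cast h₂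
  apply Complex.ext <;> simp [zc, za] <;> linarith only [e₁, e₂]

theorem za_one : za 5 0 = 1 := by
  apply Complex.ext <;> simp [za]

theorem za_pow (n : ℕ) : ∃ x y : ℤ, za 4 3 ^ (n + 1) * 5 ^ (n + 1) = ⟨x, y⟩ ∧
    ((x + 3 * y : ℤ) : ZMod 5) = 3 ^ (n + 1) := by
  induction n with
  | zero =>
    refine ⟨4, 3, ?_, by decide⟩
    apply Complex.ext <;> simp [za]
  | succ n ih =>
    obtain ⟨x, y, h, h'⟩ := ih
    refine ⟨4 * x - 3 * y, 3 * x + 4 * y, ?_, ?_⟩
    · have : za 4 3 ^ (n + 1 + 1) * 5 ^ (n + 1 + 1) =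
          (za 4 3 ^ (n + 1) * 5 ^ (n + 1)) * (za 4 3 * 5) := by ring
      rw [this, h]
      apply Complex.ext <;> simp [za] <;> ring
    · rw [pow_succ _ (n + 1), ← h']
      push_cast
      have h5 : (5 : ZMod 5) = 0 := by decide
      linear_combination (2 * (x : ZMod 5)) * h5

theorem za_ne_one (n : ℕ) (hn : 0 < n) : za 4 3 ^ n ≠ 1 := by
  obtain ⟨m, rfl⟩ : ∃ m, n = m + 1 := ⟨n - 1, by omega⟩
  intro h
  obtain ⟨x, y, e, e'⟩ := za_pow m
  rw [h, one_mul] at e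
  have e0 : ((5 ^ (m + 1) : ℤ) : ℂ) = ⟨x, y⟩ := by rw [← e]; push_cast; rfl
  have h1 := congrArg Complex.re e0
  have h2 := congrArg Complex.im e0
  rw [Complex.intCast_re] at h1
  rw [Complex.intCast_im] at h2
  have h1' : ((5 ^ (m + 1) : ℤ) : ℝ) = (x : ℝ) := h1
  have h2' : (0 : ℝ) = (y : ℝ) := h2
  have hx : x = 5 ^ (m + 1) := (Int.cast_injective h1').symm
  have hy : y = 0 := by exact_mod_cast h2'.symm
  rw [hx, hy] at e'
  push_cast at e'
  have h5 : (5 : ZMod 5) = 0 := by decide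
  rw [h5, zero_pow (Nat.succ_ne_zero m)] at e'
  have h3 : (3 : ZMod 5) ^ (m + 1) * 2 ^ (m + 1) = 1 := by
    rw [← mul_pow]
    have : (3 : ZMod 5) * 2 = 1 := by decide
    rw [this, one_pow]
  rw [← e'] at h3
  simp only [add_zero, zero_mul] at h3
  exact absurd h3 (by decide)

/-- the data -/
noncomputable def s0 : Sub0 where
  Ty := Fin 6
  Co := Fin 21
  Ch := Fin 145
  D := Fin 521
  finTy := inferInstance
  finCo := inferInstance
  finCh := inferInstance
  finD := inferInstance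
  cty := cty
  nx := nx
  pv := pv
  V k := zc (Vx k) (Vy k)
  C t := zc (Cx t) (Cy t)
  rr t := (rr t : ℝ) / 400
  par := par
  ty := ty
  mo j := ⟨za (Ax j) (Ay j), zc (Bx j) (By j), norm_za (f_ch j).1⟩
  da := da
  db := db
  dch := dch
  dco := dco
  dart := dart
  isB := isB
  opp := opp
  left := left
  bs := bs
  bp := bp
  bd := bd
  st := st
  tS := (5 : Fin 6)
  j0 := (108 : Fin 145)
  j1 := (144 : Fin 145)

theorem δ_eq (k : Fin 21) : s0.δ k = zc (Dx k) (Dy k) := zc_sub _ _ _ _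

theorem hx_eq (k : Fin 21) : s0.hx k = (Hx k : ℝ) / 400 := by
  have : s0.hx k = cross (s0.δ k) (zc (Cx (cty k)) (Cy (cty k)) - zc (Vx k) (Vy k)) := rfl
  rw [this, δ_eq, zc_sub, cross_zc]
  rfl

theorem nxd_eq (d : Fin 521) : s0.nxd d = nxd d := (f_d d).2.2.1.symm

theorem pvd_eq (d : Fin 521) : s0.pvd d = pvd d := (f_d d).2.2.2.1.symm

theorem dpar_eq (d : Fin 521) : s0.dpar d = dpar d := (f_d d).2.2.2.2.1.symm

theorem vnx_eq (d : Fin 521) : s0.vnx d = vnx d := by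
  have : s0.vnx d = if isB (s0.pvd d) = true then st d else opp (s0.pvd d) := rfl
  rw [this, pvd_eq]
  exact (f_d d).2.2.2.2.2.1.symm

theorem vnx_eq' : s0.vnx = vnx := funext vnx_eq

theorem PV_eq (d : Fin 521) : s0.PV d = zc (PVx d) (PVy d) :=
  za_act (f_d d).2.2.2.2.2.2.1 (f_d d).2.2.2.2.2.2.2.1

theorem PC_eq (j : Fin 145) : s0.PC j = zc (PCx j) (PCy j) :=
  za_act (f_ch j).2.2.2.1 (f_ch j).2.2.2.2.1

theorem V_eq (k : Fin 21) : s0.V k = zc (Vx k) (Vy k) := rfl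

theorem C_eq (t : Fin 6) : s0.C t = zc (Cx t) (Cy t) := rfl

theorem pos400 {a : ℤ} (h : 0 < a) : (0 : ℝ) < (a : ℝ) / 400 := by
  have : (0 : ℝ) < a := by exact_mod_cast h
  positivity

theorem nonneg400 {a : ℤ} (h : 0 ≤ a) : (0 : ℝ) ≤ (a : ℝ) / 400 := by
  have : (0 : ℝ) ≤ a := by exact_mod_cast h
  positivity

theorem key_inj : Function.Injective (fun i : Fin 174 => key (ord i)) :=
  (Fin.strictMono_iff_lt_succ.2 f_ord).injective

theorem st_iff' (d d' : Fin 521) :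
    st d = st d' ↔ dpar d = dpar d' ∧ PVx d = PVx d' ∧ PVy d = PVy d' := by
  obtain ⟨-, a₁, a₂, a₃, a₄, -⟩ := f_st d
  obtain ⟨-, b₁, b₂, b₃, b₄, -⟩ := f_st d'
  constructor
  · intro h
    rw [← a₁, ← a₂, ← a₃, h]
    exact ⟨b₁, b₂, b₃⟩
  · rintro ⟨h₁, h₂, h₃⟩
    have : vid d = vid d' := by
      apply key_inj
      simp only [a₄, b₄, key, a₁, a₂, a₃, b₁, b₂, b₃, h₁, h₂, h₃]
    rw [← a₄, ← b₄, this]

theorem vcyc' {d d' : Fin 521} (h : st d = st d') : ∃ n < 8, vnx^[n] d = d' := by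
  obtain ⟨n, -, hn⟩ := (f_vcyc d).1
  obtain ⟨m, -, hm⟩ := (f_vcyc d').2
  obtain ⟨p, hp, e⟩ := f_per d
  refine ⟨(m + n) % (p + 1), lt_of_lt_of_le (Nat.mod_lt _ (Nat.succ_pos p)) hp, ?_⟩
  have hper : Function.IsPeriodicPt vnx (p + 1) d := e
  rw [hper.iterate_mod_apply, Function.iterate_add_apply, hn, h, hm]

theorem cj_surj (j : Fin 145) : ∃ i < 37, cj (par j) i = j := by
  obtain ⟨-, -, -, -, -, h₁, h₂⟩ := f_ch j
  refine ⟨j.val - clo (par j), by omega, Fin.ext ?_⟩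
  have : clo (par j) + (j.val - clo (par j)) = j.val := by omega
  simp only [cj, this, Fin.ofNat]
  exact Nat.mod_eq_of_lt j.isLt

theorem dj_surj (d : Fin 521) : ∃ i < 4, dj (dch d) i = d := by
  obtain ⟨-, -, -, -, -, -, -, -, h₁, h₂⟩ := f_d d
  refine ⟨d.val - first (dch d), by omega, Fin.ext ?_⟩
  have : first (dch d) + (d.val - first (dch d)) = d.val := by omega
  simp only [dj, this, Fin.ofNat]
  exact Nat.mod_eq_of_lt d.isLt

theorem del' (j : Fin 145) (d : Fin 521) (h : par j = dpar d) :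
    (rr (ty j) : ℤ) ≤ (PVx d - PCx j) ^ 2 + (PVy d - PCy j) ^ 2 ∧
      ((PVx d - PCx j) ^ 2 + (PVy d - PCy j) ^ 2 = rr (ty j) → ∃ d', dch d' = j ∧ st d' = st d) := by
  obtain ⟨-, a₁, a₂, a₃, a₄, -⟩ := f_st d
  obtain ⟨i, hi, e⟩ := cj_surj j
  have := f_del (vid d) i hi
  rw [a₄, a₁, a₂, a₃, ← h, e] at this
  obtain ⟨h₁, h₂⟩ := this rfl
  refine ⟨h₁, fun q => ?_⟩
  obtain ⟨n, -, hn⟩ := h₂ q
  exact ⟨_, hn⟩

/-- the substitution -/
noncomputable def theSub : Sub where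
  toSub0 := s0
  cty_nx k := (f_co k).1
  nx_pv k := (f_co k).2.1
  pv_nx k := (f_co k).2.2.1
  cyc k k' h := by
    obtain ⟨n, -, hn⟩ := (f_cyc k k' h).1
    exact ⟨n, hn⟩
  three k := (f_co k).2.2.2.1
  convex k k' h h₁ h₂ := by
    rw [V_eq, V_eq, V_eq, zc_sub, zc_sub, cross_zc]
    exact pos400 ((f_cyc k k' h).2 h₁ h₂)
  co_surj t := (f_ty t).1
  circ k := by
    rw [V_eq, C_eq, zc_sub, normSq_zc]
    have := (f_co k).2.2.2.2.1
    change ((_ : ℤ) : ℝ) / 400 = (rr (cty k) : ℝ) / 400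
    rw [← Int.cast_natCast (R := ℝ) (rr (cty k)), ← this]
    rfl
  rr_le t := by
    have : (rr t : ℝ) ≤ 800 := by exact_mod_cast (f_ty t).2.1
    change (rr t : ℝ) / 400 ≤ 2
    linarith
  one_le k := by
    rw [δ_eq, normSq_zc]
    have : (400 : ℝ) ≤ ((Dx k ^ 2 + Dy k ^ 2 : ℤ) : ℝ) := by exact_mod_cast (f_co k).2.2.2.2.2.1
    linarith
  dco_ty d := (f_d d).1
  dart_eta d := (f_d d).2.1
  dch_dart j k h := (f_dart j k h).1
  dco_dart j k h := (f_dart j k h).2
  opp_B d h := (f_opp d h).1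
  opp_opp d h := (f_opp d h).2.1
  opp_par d h := by
    rw [dpar_eq, dpar_eq]
    exact (f_opp d h).2.2.1
  opp_PV d h := by
    rw [PV_eq, PV_eq, nxd_eq]
    exact zc_inj.2 ⟨(f_opp d h).2.2.2.1, (f_opp d h).2.2.2.2.1⟩
  opp_left d h := (f_opp d h).2.2.2.2.2.1
  opp_hx d h := by
    rw [hx_eq, hx_eq, ← add_div, ← Int.cast_add]
    exact pos400 (f_opp d h).2.2.2.2.2.2
  bd_B k p := (f_bd k p).1
  bd_bs k p := (f_bd k p).2.1
  bd_bp k p := (f_bd k p).2.2.1
  bd_par k p := by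
    rw [dpar_eq]
    exact (f_bd k p).2.2.2.1
  bd_PV k p := by
    rw [PV_eq, V_eq, δ_eq, zc_five, zc_nat, zc_add]
    exact zc_inj.2 ⟨(f_bd k p).2.2.2.2.1, (f_bd k p).2.2.2.2.2.1⟩
  bd_PV' k p := by
    rw [PV_eq, V_eq, δ_eq, zc_five, zc_nat', zc_add, nxd_eq]
    exact zc_inj.2 ⟨(f_bd k p).2.2.2.2.2.2.1, (f_bd k p).2.2.2.2.2.2.2.1⟩
  bd_PC k p := by
    rw [PC_eq, V_eq, C_eq, δ_eq, zc_four, zc_nat, zc_add, zc_add]
    exact zc_inj.2 ⟨(f_bd k p).2.2.2.2.2.2.2.2.1, (f_bd k p).2.2.2.2.2.2.2.2.2.1⟩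
  bd_eta d h := (f_B d h).1
  corner k := by
    rw [pvd_eq]
    exact (f_cor k).1
  cor_cor k := (f_cor k).2.1
  ra_cor k := by
    change za (Ax (dch (bd (dco (bd k 0)) 0))) (Ay (dch (bd (dco (bd k 0)) 0))) = 1
    rw [(f_cor k).2.2.1, (f_cor k).2.2.2.1, za_one]
  BB d h h' := by
    rw [pvd_eq] at h'
    exact (f_B d h).2.2 h'
  da_ty j := (f_ch j).2.1
  db_ty j := (f_ch j).2.2.1
  dab_C k := (f_cor k).2.2.2.2
  dab_S k p := (f_bd k p).2.2.2.2.2.2.2.2.2.2
  dab_T d h := (f_st d).2.2.2.2.2.2.1 h.1 h.2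
  st_iff d d' := by
    rw [dpar_eq, dpar_eq, PV_eq, PV_eq, zc_inj]
    exact st_iff' d d'
  st_st d := (f_st d).1
  st_B d h := (f_B d h).2.1
  st_C d h := (f_st d).2.2.2.2.2.1 h.1 h.2
  vcyc d d' _ h := by
    obtain ⟨n, -, hn⟩ := vcyc' h
    exact ⟨n, by rw [vnx_eq']; exact hn⟩
  vconvex d d' hc h2 h h₁ h₂ := by
    obtain ⟨n, hn, rfl⟩ := vcyc' h
    have h2' : vnx (vnx d) ≠ d := by
      intro q
      apply h2
      change s0.vnx (s0.vnx d) = d
      rw [vnx_eq']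
      exact q
    rw [vnx_eq] at h₂ ⊢
    rw [PC_eq, PC_eq, PC_eq, zc_sub, zc_sub, cross_zc]
    exact pos400 (f_vconv d hc h2' n hn h₁ h₂)
  two_B d hc h2 := by
    have h2' : s0.vnx (s0.vnx d) = d := h2
    rw [vnx_eq'] at h2'
    rw [pvd_eq]
    exact (f_two d hc h2').1
  two_perp d hc h2 := by
    have h2' : s0.vnx (s0.vnx d) = d := h2
    rw [vnx_eq'] at h2'
    rw [δ_eq, δ_eq, dot_zc]
    have := (f_two d hc h2').2
    change ((Dx (dco d) * Dx (pv (dco d)) + Dy (dco d) * Dy (pv (dco d)) : ℤ) : ℝ) / 400 = 0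
    rw [this]
    simp
  del_le j d h := by
    rw [dpar_eq] at h
    rw [PV_eq, PC_eq, zc_sub, normSq_zc]
    have : ((rr (ty j) : ℤ) : ℝ) ≤ (((PVx d - PCx j) ^ 2 + (PVy d - PCy j) ^ 2 : ℤ) : ℝ) := by
      exact_mod_cast (del' j d h).1
    change (rr (ty j) : ℝ) / 400 ≤ _
    rw [Int.cast_natCast] at this
    linarith
  del_eq j d h q := by
    rw [dpar_eq] at h
    rw [PV_eq, PC_eq, zc_sub, normSq_zc] at q
    apply (del' j d h).2
    change _ = (rr (ty j) : ℝ) / 400 at q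
    have : (((PVx d - PCx j) ^ 2 + (PVy d - PCy j) ^ 2 : ℤ) : ℝ) = ((rr (ty j) : ℤ) : ℝ) := by
      rw [Int.cast_natCast]
      linarith
    exact_mod_cast this
  PV_in d k h := by
    rw [dpar_eq] at h
    obtain ⟨-, a₁, a₂, a₃, a₄, -⟩ := f_st d
    have := f_PVin (vid d) k
    rw [a₄, a₁, a₂, a₃] at this
    rw [δ_eq, PV_eq, V_eq, zc_five, zc_sub, cross_zc]
    exact nonneg400 (this h)
  PC_in j k h := by
    rw [δ_eq, PC_eq, V_eq, C_eq, zc_four, zc_sub, zc_sub, cross_zc]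
    exact nonneg400 (f_PCin j k h)
  PC_inj j j' h q := by
    rw [PC_eq, PC_eq, zc_inj] at q
    obtain ⟨i, hi, e⟩ := cj_surj j'
    have h' : par j = par j' := h
    have := f_PCinj j i hi
    rw [h', e] at this
    exact this rfl q.1 q.2
  share d₁ d₂ e₁ e₂ h₁ h₂ h₃ h₄ h₅ h₆ := by
    obtain ⟨n, hn, rfl⟩ := vcyc' h₅
    obtain ⟨i, hi, a⟩ := dj_surj d₂
    obtain ⟨i', hi', b⟩ := dj_surj e₂
    have h₁' : dch d₁ = dch d₂ := h₁
    have h₂' : dch (vnx^[n] d₁) = dch e₂ := h₂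
    have := f_share d₁ n hn h₃ i hi i' hi'
    rw [h₁', a, h₂', b] at this
    rw [nxd_eq, nxd_eq]
    exact this h₁'.symm h₂'.symm h₄ h₆
  reach t := ⟨r1 t, r2 t, r3 t, (f_ty t).2.2⟩
  j0_par := f_j.1
  j0_ty := f_j.2.1
  j0_a := by
    change za (Ax 108) (Ay 108) = 1
    rw [f_j.2.2.1, f_j.2.2.2.1, za_one]
  j1_par := f_j.2.2.2.2.1
  j1_ty := f_j.2.2.2.2.2.1
  j1_a n hn := by
    change za (Ax 144) (Ay 144) ^ n ≠ 1
    rw [f_j.2.2.2.2.2.2.1, f_j.2.2.2.2.2.2.2]
    exact za_ne_one n hn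
  j1_int d h := (f_st d).2.2.2.2.2.2.2 h
  tS_ball k h := by
    obtain ⟨h₁, h₂⟩ := (f_co k).2.2.2.2.2.2 h
    rw [hx_eq, h₂, δ_eq, Complex.norm_def, normSq_zc, h₁]
    rw [Real.sqrt_le_iff]
    norm_num

end Pool.Agent.Work.MP_0909b4_al.NA.Dat
end
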