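import Mathlib

/-! Statement-level definitions: biautomatic groups and tubular groups. -/

namespace Pool.Agent.Work.MP_0909b4_al

/-- the group element represented by a word over a finite subset `S` of a group -/
def evalWord {G : Type} [Group G] {S : Finset G} (w : List S) : G :=
  (w.map Subtype.val).prod

/-- Biautomatic: a finite symmetric set `S`, a regular language `L` over `S` mapping onto `G`, and
`K` such that `u = a v b` in `G` (with `u v ∈ L`, `a b ∈ S ∪ {1}`) forces
`d_S (u (t), a v (t)) ≤ K` for all `t`. -/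
def IsBiautomatic (G : Type) [Group G] : Prop :=
  ∃ (S : Finset G) (L : Language S) (K : ℕ),
    (∀ s ∈ S, s⁻¹ ∈ S) ∧ L.IsRegular ∧ (∀ g : G, ∃ w ∈ L, evalWord w = g) ∧
    ∀ u ∈ L, ∀ v ∈ L, ∀ a b : G, (a ∈ S ∨ a = 1) → (b ∈ S ∨ b = 1) →
      evalWord u = a * evalWord v * b →
      ∀ t : ℕ, ∃ w : List S, w.length ≤ K ∧
        evalWord (u.take t) * evalWord w = a * evalWord (v.take t)

/-- A graph of groups with vertex groups `ℤ²` and cyclic edge groups: edge `i` goes from `o i` to
`d i` and its edge group is sent to the multiples of `u i` and of `w i`. -/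
structure Tub (V ι : Type) where
  o : ι → V
  d : ι → V
  u : ι → ℤ × ℤ
  w : ι → ℤ × ℤ

variable {V ι : Type}

/-- generators: `a x = inl (x, false)`, `b x = inl (x, true)`, `t i = inr i` -/
abbrev Gen (V ι : Type) := (V × Bool) ⊕ ι

/-- the word `a x ^ m * b x ^ n` -/
def vecF (x : V) (v : ℤ × ℤ) : FreeGroup (Gen V ι) :=
  FreeGroup.of (Sum.inl (x, false)) ^ v.1 * FreeGroup.of (Sum.inl (x, true)) ^ v.2

def Tub.rels (T : Tub V ι) : Set (FreeGroup (Gen V ι)) :=
  {r | (∃ x, r = vecF x (1, 0) * vecF x (0, 1) * (vecF x (1, 0))⁻¹ * (vecF x (0, 1))⁻¹) ∨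
    ∃ i, r = (FreeGroup.of (Sum.inr i))⁻¹ * vecF (T.o i) (T.u i) * FreeGroup.of (Sum.inr i) *
      (vecF (T.d i) (T.w i))⁻¹}

/-- Serre's group `F(G, Y)` of the graph of groups -/
abbrev Tub.F (T : Tub V ι) : Type := PresentedGroup T.rels

/-- `IsPath x g y`: `g` is represented by a path of the graph of groups from `x` to `y` -/
inductive Tub.IsPath (T : Tub V ι) (x : V) : T.F → V → Prop
  | nil : T.IsPath x 1 x
  | vert {g y} (b : Bool) : T.IsPath x g y → T.IsPath x (g * PresentedGroup.of (Sum.inl (y, b))) y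
  | vertInv {g y} (b : Bool) :
      T.IsPath x g y → T.IsPath x (g * (PresentedGroup.of (Sum.inl (y, b)))⁻¹) y
  | edge {g} (i : ι) :
      T.IsPath x g (T.o i) → T.IsPath x (g * PresentedGroup.of (Sum.inr i)) (T.d i)
  | edgeInv {g} (i : ι) :
      T.IsPath x g (T.d i) → T.IsPath x (g * (PresentedGroup.of (Sum.inr i))⁻¹) (T.o i)

/-- Serre's fundamental group of the graph of groups at the base vertex `x` -/
def Tub.pi1 (T : Tub V ι) (x : V) : Subgroup T.F := Subgroup.closure {g | T.IsPath x g x}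

end Pool.Agent.Work.MP_0909b4_al
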