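import Mathlib
import Pool.Agent.Work.MP_0909b4_al.Defs

-- merged part: Pool.Agent.Work.MP_0909b4_al.Fan
section
/-! Finite symmetric fans in the integer plane. -/

namespace Pool.Agent.Work.MP_0909b4_al

abbrev Z2 := ℤ × ℤ

def det (a b : Z2) : ℤ := a.1 * b.2 - a.2 * b.1
def nrm (a : Z2) : ℤ := |a.1| + |a.2|

lemma nrm_nonneg (a : Z2) : 0 ≤ nrm a := add_nonneg (abs_nonneg _) (abs_nonneg _)
lemma nrm_add (a b : Z2) : nrm (a + b) ≤ nrm a + nrm b := by
  simp only [nrm, Prod.fst_add, Prod.snd_add]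
  linarith only [abs_add_le a.1 b.1, abs_add_le a.2 b.2]
lemma nrm_neg (a : Z2) : nrm (-a) = nrm a := by simp [nrm]
lemma nrm_zero : nrm 0 = 0 := by simp [nrm]
lemma nrm_smul (n : ℤ) (a : Z2) : nrm (n • a) = |n| * nrm a := by
  simp [nrm, abs_mul, mul_add]
lemma nrm_sub (a b : Z2) : nrm (a - b) ≤ nrm a + nrm b := by
  rw [sub_eq_add_neg]; exact (nrm_add _ _).trans (by rw [nrm_neg])
lemma nrm_sub_comm (a b : Z2) : nrm (a - b) = nrm (b - a) := by rw [← nrm_neg, neg_sub]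
lemma nrm_tri (a b c : Z2) : nrm (a - c) ≤ nrm (a - b) + nrm (b - c) := by
  have := nrm_add (a - b) (b - c)
  rwa [sub_add_sub_cancel] at this
lemma abs_det_le (a b : Z2) : |det a b| ≤ nrm a * nrm b := by
  have h : |det a b| ≤ |a.1| * |b.2| + |a.2| * |b.1| := by
    rw [← abs_mul, ← abs_mul]; exact abs_sub _ _
  have := mul_nonneg (abs_nonneg a.1) (abs_nonneg b.1)
  have := mul_nonneg (abs_nonneg a.2) (abs_nonneg b.2)
  simp only [nrm]; nlinarith
lemma det_swap (a b : Z2) : det a b = -det b a := by simp only [det]; ring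
lemma det_self (a : Z2) : det a a = 0 := by simp only [det]; ring
lemma cramer (a b v : Z2) : det a b • v = det v b • a + det a v • b := by
  ext <;> simp [det] <;> ring

def PP (a b : Z2) : Prop := ∃ m n : ℤ, 0 < m ∧ 0 < n ∧ m • a = n • b

structure FanH (R : Finset Z2) : Prop where
  ne : ∀ a ∈ R, a ≠ 0
  uniq : ∀ a ∈ R, ∀ b ∈ R, PP a b → a = b
  sym : ∀ a ∈ R, ∃ b ∈ R, PP b (-a)
  span : ∃ a ∈ R, ∃ b ∈ R, det a b ≠ 0

def Sector (R : Finset Z2) (a b : Z2) : Prop :=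
  a ∈ R ∧ b ∈ R ∧ det a b ≠ 0 ∧ ∀ s ∈ R, 0 ≤ det s a * det s b

lemma Sector.symm {R : Finset Z2} {a b : Z2} (h : Sector R a b) : Sector R b a :=
  ⟨h.2.1, h.1, by rw [det_swap]; simpa using h.2.2.1, fun s hs => mul_comm (det s a) _ ▸ h.2.2.2 s hs⟩

lemma Sector.ne {R : Finset Z2} {a b : Z2} (h : Sector R a b) : a ≠ b := by
  rintro rfl; exact h.2.2.1 (det_self _)

/-- first barycentric coordinate -/
def co (a b v : Z2) : ℚ := (det v b : ℚ) / det a b

lemma co_det (a b v s : Z2) (h : det a b ≠ 0) :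
    (det s v : ℚ) = co a b v * det s a + co b a v * det s b := by
  have h' : (det a b : ℚ) ≠ 0 := by exact_mod_cast h
  simp only [co]
  rw [det_swap b a]
  push_cast
  field_simp
  simp only [det]; push_cast; ring

noncomputable def cf (R : Finset Z2) (a v : Z2) : ℤ :=
  if h : (R.filter fun s => det s a ≠ 0).Nonempty then
    max 0 ((R.filter fun s => det s a ≠ 0).inf' h fun s => ⌊(det s v : ℚ) / det s a⌋) else 0

lemma cf_nonneg (R : Finset Z2) (a v : Z2) : 0 ≤ cf R a v := by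
  unfold cf; split_ifs <;> simp

lemma cf_le {R : Finset Z2} {a s : Z2} (hs : s ∈ R) (h : det s a ≠ 0) (v : Z2) :
    cf R a v ≤ max 0 ⌊(det s v : ℚ) / det s a⌋ := by
  have hm : s ∈ R.filter fun s => det s a ≠ 0 := Finset.mem_filter.2 ⟨hs, h⟩
  unfold cf
  rw [dif_pos ⟨s, hm⟩]
  exact max_le_max_left _ (Finset.inf'_le _ hm)

lemma cf_eq (R : Finset Z2) (a v : Z2) : (∀ w, cf R a w = 0) ∨
    ∃ s ∈ R, det s a ≠ 0 ∧ cf R a v = max 0 ⌊(det s v : ℚ) / det s a⌋ := by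
  by_cases h : (R.filter fun s => det s a ≠ 0).Nonempty
  · obtain ⟨s, hs, e⟩ := Finset.exists_mem_eq_inf' h fun s => ⌊(det s v : ℚ) / det s a⌋
    exact Or.inr ⟨s, (Finset.mem_filter.1 hs).1, (Finset.mem_filter.1 hs).2, by
      unfold cf; rw [dif_pos h, e]⟩
  · exact Or.inl fun w => by unfold cf; rw [dif_neg h]

lemma cf_lip {R : Finset Z2} {K : ℤ} (hK0 : 0 ≤ K) (hK : ∀ s ∈ R, nrm s ≤ K) (a v w : Z2) :
    |cf R a v - cf R a w| ≤ K * nrm (v - w) + 1 := by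
  have key : ∀ v w, cf R a v - cf R a w ≤ K * nrm (v - w) + 1 := by
    intro v w
    have p := mul_nonneg hK0 (nrm_nonneg (v - w))
    rcases cf_eq R a w with h | ⟨s, hs, h1, h2⟩
    · rw [h, h]; omega
    · have h3 := cf_le hs h1 v
      have h4 : (det s v : ℚ) / det s a ≤ (det s w : ℚ) / det s a + (K * nrm (v - w) : ℤ) := by
        have e : (det s v : ℚ) / det s a = (det s w : ℚ) / det s a + det s (v - w) / det s a := by
          rw [← add_div]; congr 1; simp only [det, Prod.fst_sub, Prod.snd_sub]; push_cast; ring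
        have b1 : |det s (v - w)| ≤ K * nrm (v - w) := (abs_det_le _ _).trans
          (mul_le_mul_of_nonneg_right (hK s hs) (nrm_nonneg _))
        have b2 : (1 : ℚ) ≤ |(det s a : ℚ)| := by exact_mod_cast Int.one_le_abs h1
        have b3 : (det s (v - w) : ℚ) / det s a ≤ |(det s (v - w) : ℚ)| := by
          refine (le_abs_self _).trans ?_
          rw [abs_div]; exact div_le_self (abs_nonneg _) b2
        have b4 : |(det s (v - w) : ℚ)| ≤ (K * nrm (v - w) : ℤ) := by exact_mod_cast b1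
        linarith only [e, b3, b4]
      have h5 := Int.floor_mono h4
      rw [Int.floor_add_intCast] at h5
      omega
  rw [abs_le]
  have := key v w
  have := key w v
  rw [nrm_sub_comm] at this
  omega

lemma cf_first {R : Finset Z2} {a b v : Z2} (h : Sector R a b) (h1 : 0 ≤ co a b v)
    (h2 : 0 ≤ co b a v) : cf R a v = ⌊co a b v⌋ := by
  have h0 : 0 ≤ ⌊co a b v⌋ := Int.floor_nonneg.2 h1
  have hb : det b a ≠ 0 := h.symm.2.2.1
  have e : (det b v : ℚ) / det b a = co a b v := by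
    rw [co, det_swap b v, det_swap b a]; push_cast; rw [neg_div_neg_eq]
  apply le_antisymm
  · have := cf_le h.2.1 hb v
    rw [e] at this; omega
  · rcases cf_eq R a v with q | ⟨s, hs, q1, q2⟩
    · have := cf_le h.2.1 hb a
      exfalso
      have hm : (R.filter fun s => det s a ≠ 0).Nonempty := ⟨b, Finset.mem_filter.2 ⟨h.2.1, hb⟩⟩
      obtain ⟨s, hs, e⟩ := Finset.exists_mem_eq_inf' hm fun s => ⌊(det s a : ℚ) / det s a⌋
      have q' := q a
      unfold cf at q'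
      rw [dif_pos hm, e, div_self (by exact_mod_cast (Finset.mem_filter.1 hs).2)] at q'
      simp at q'
    · rw [q2]
      refine le_trans (Int.floor_mono ?_) (le_max_right _ _)
      have q3 : (det s a : ℚ) ≠ 0 := by exact_mod_cast q1
      have q4 : (0 : ℚ) ≤ det s a * det s b := by exact_mod_cast h.2.2.2 s hs
      have q5 : (0 : ℚ) ≤ det s b / det s a := by
        rw [show (det s b : ℚ) / det s a = det s a * det s b / (det s a) ^ 2 by field_simp]
        positivity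
      rw [co_det a b v s h.2.2.1, add_div, mul_div_assoc, div_self q3, mul_div_assoc]
      linarith only [h2, q5, mul_nonneg h2 q5]

lemma pp_of {a b r : Z2} (h : det a b ≠ 0) (h1 : 0 < co a b r) (h2 : co b a r = 0) : PP r a := by
  have h' : (det a b : ℚ) ≠ 0 := by exact_mod_cast h
  have e := cramer a b r
  have z : det a r = 0 := by
    rw [co, div_eq_zero_iff] at h2
    rcases h2 with q | q
    · rw [det_swap]; simpa using q
    · rw [det_swap] at q; exact absurd (by simpa using q) h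
  rw [z, zero_smul, add_zero] at e
  rcases lt_or_gt_of_ne h with q | q
  · have q' : (det a b : ℚ) < 0 := by exact_mod_cast q
    rw [co, div_pos_iff] at h1
    have : det r b < 0 := by
      rcases h1 with h1 | h1
      · linarith [h1.2]
      · exact_mod_cast h1.1
    exact ⟨-det a b, -det r b, by omega, by omega, by rw [neg_smul, neg_smul, e]⟩
  · have q' : (0 : ℚ) < det a b := by exact_mod_cast q
    have : 0 < det r b := by exact_mod_cast (div_pos_iff_of_pos_right q').1 h1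
    exact ⟨_, _, q, this, e⟩

lemma mem_cone {R : Finset Z2} (F : FanH R) {a b r : Z2} (h : Sector R a b) (hr : r ∈ R)
    (h1 : 0 ≤ co a b r) (h2 : 0 ≤ co b a r) : r = a ∨ r = b := by
  have hd : (det a b : ℚ) ≠ 0 := by exact_mod_cast h.2.2.1
  have q : (0 : ℚ) ≤ det r a * det r b := by exact_mod_cast h.2.2.2 r hr
  have z : co a b r * co b a r = 0 := by
    refine le_antisymm ?_ (mul_nonneg h1 h2)
    rw [co, co, det_swap b a]; push_cast
    rw [div_mul_div_comm, mul_neg, div_neg, neg_nonpos]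
    exact div_nonneg (by linarith) (mul_self_nonneg _)
  have nz : ¬ (co a b r = 0 ∧ co b a r = 0) := by
    rintro ⟨z1, z2⟩
    have e := cramer a b r
    have y1 : det r b = 0 := by simpa [co, hd] using z1
    have y2 : det r a = 0 := by
      have : (det b a : ℚ) ≠ 0 := by exact_mod_cast h.symm.2.2.1
      simpa [co, this] using z2
    rw [y1, det_swap a r, y2] at e
    simp only [zero_smul, neg_zero, add_zero, smul_eq_zero] at e
    exact e.elim h.2.2.1 (F.ne r hr)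
  rcases mul_eq_zero.1 z with z1 | z1
  · exact Or.inr (F.uniq r hr b h.2.1 (pp_of h.symm.2.2.1
      (lt_of_le_of_ne h2 fun q => nz ⟨z1, q.symm⟩) z1))
  · exact Or.inl (F.uniq r hr a h.1 (pp_of h.2.2.1
      (lt_of_le_of_ne h1 fun q => nz ⟨q.symm, z1⟩) z1))

lemma cf_other {R : Finset Z2} (F : FanH R) {a b v r : Z2} (h : Sector R a b) (h1 : 0 ≤ co a b v)
    (h2 : 0 ≤ co b a v) (hr : r ∈ R) (ha : r ≠ a) (hb : r ≠ b) : cf R r v = 0 := by
  have key : ∀ {a b : Z2}, Sector R a b → 0 ≤ co a b v → co a b r < 0 → cf R r v = 0 := by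
    intro a b h h1 q
    have hd : (det a b : ℚ) ≠ 0 := by exact_mod_cast h.2.2.1
    have n : det b r ≠ 0 := by
      intro z
      rw [co, det_swap r b, z] at q; simp at q
    have := cf_le h.2.1 n v
    have e : (det b v : ℚ) / det b r = co a b v / co a b r := by
      have : (det r b : ℚ) ≠ 0 := by rw [det_swap]; simpa using n
      rw [co, co, det_swap b v, det_swap b r]; push_cast; field_simp
    have f : ⌊(det b v : ℚ) / det b r⌋ ≤ 0 := by
      rw [e]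
      exact_mod_cast (Int.floor_le _).trans (div_nonpos_of_nonneg_of_nonpos h1 q.le)
    have := cf_nonneg R r v
    omega
  by_cases c1 : co a b r < 0
  · exact key h h1 c1
  by_cases c2 : co b a r < 0
  · exact key h.symm h2 c2
  exact ((mem_cone F h hr (not_lt.1 c1) (not_lt.1 c2)).elim ha hb).elim

lemma PP.det_neg {a b : Z2} (h : PP b (-a)) (w : Z2) :
    (0 < det a w → det b w < 0) ∧ (det a w < 0 → 0 < det b w) ∧ (0 ≤ det a w → det b w ≤ 0) ∧
      (det a w ≤ 0 → 0 ≤ det b w) := by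
  obtain ⟨m, n, hm, hn, e⟩ := h
  have e1 := congrArg Prod.fst e
  have e2 := congrArg Prod.snd e
  simp only [Prod.smul_fst, Prod.smul_snd, smul_eq_mul, Prod.fst_neg, Prod.snd_neg] at e1 e2
  have k : m * det b w = -(n * det a w) := by
    simp only [det]; linear_combination w.2 * e1 - w.1 * e2
  refine ⟨fun q => ?_, fun q => ?_, fun q => ?_, fun q => ?_⟩ <;> by_contra c <;> nlinarith only [hn, k, q, c, hm]

lemma exists_sector {R : Finset Z2} (F : FanH R) (v : Z2) :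
    ∃ a b, Sector R a b ∧ 0 ≤ co a b v ∧ 0 ≤ co b a v := by
  classical
  have main : ∀ k : ℕ, ∀ a ∈ R, ∀ b ∈ R, 0 < det a b → 0 ≤ det a v → 0 ≤ det v b →
      (R.filter fun s => 0 < det a s ∧ 0 < det s b).card < k →
      ∃ a b, Sector R a b ∧ 0 ≤ co a b v ∧ 0 ≤ co b a v := by
    intro k
    induction k with
    | zero => intro a _ b _ _ _ _ h; omega
    | succ k ih =>
      intro a ha b hb hd h1 h2 hc
      by_cases hs : ∀ s ∈ R, 0 ≤ det s a * det s b
      · refine ⟨a, b, ⟨ha, hb, hd.ne', hs⟩, ?_, ?_⟩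
        · exact div_nonneg (by exact_mod_cast h2) (by exact_mod_cast hd.le)
        · rw [co, det_swap v a, det_swap b a]; push_cast; rw [neg_div_neg_eq]
          exact div_nonneg (by exact_mod_cast h1) (by exact_mod_cast hd.le)
      push Not at hs
      obtain ⟨s, hsR, hs⟩ := hs
      obtain ⟨s, hsR, i1, i2⟩ : ∃ s ∈ R, 0 < det a s ∧ 0 < det s b := by
        rcases mul_neg_iff.1 hs with ⟨q1, q2⟩ | ⟨q1, q2⟩
        · obtain ⟨s', hs', pp⟩ := F.sym s hsR
          exact ⟨s', hs', by rw [det_swap]; have := (pp.det_neg a).1 q1; omega,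
            (pp.det_neg b).2.1 q2⟩
        · exact ⟨s, hsR, by rw [det_swap]; omega, q2⟩
      have hmem : s ∈ R.filter fun s => 0 < det a s ∧ 0 < det s b :=
        Finset.mem_filter.2 ⟨hsR, i1, i2⟩
      by_cases c : 0 ≤ det v s
      · refine ih a ha s hsR i1 h1 c (lt_of_lt_of_le (Finset.card_lt_card ⟨fun t ht => ?_,
          fun q => ?_⟩) (Nat.lt_succ_iff.1 hc))
        · obtain ⟨t1, t2, t3⟩ := Finset.mem_filter.1 ht
          refine Finset.mem_filter.2 ⟨t1, t2, ?_⟩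
          have : det t b * det a s = det t s * det a b + det a t * det s b := by
            simp only [det]; ring
          by_contra q
          linarith only [this, q, t3, hd, t2, i2, i1, mul_pos t3 hd, mul_pos t2 i2, mul_nonneg_of_nonpos_of_nonpos (Mathlib.Tactic.Linarith.sub_nonpos_of_le (Int.add_one_le_iff.mpr i1)) (Mathlib.Tactic.Linarith.sub_nonpos_of_le (le_of_not_gt q))]
        · have := (Finset.mem_filter.1 (q hmem)).2.2
          rw [det_self] at this; omega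
      · refine ih s hsR b hb i2 (by rw [det_swap]; omega) h2 (lt_of_lt_of_le
          (Finset.card_lt_card ⟨fun t ht => ?_, fun q => ?_⟩) (Nat.lt_succ_iff.1 hc))
        · obtain ⟨t1, t2, t3⟩ := Finset.mem_filter.1 ht
          refine Finset.mem_filter.2 ⟨t1, ?_, t3⟩
          have : det a t * det s b = det a s * det t b + det s t * det a b := by
            simp only [det]; ring
          by_contra q
          linarith only [this, q, t2, hd, i1, t3, i2, mul_pos t2 hd, mul_pos i1 t3, mul_nonneg_of_nonpos_of_nonpos (Mathlib.Tactic.Linarith.sub_nonpos_of_le (Int.add_one_le_iff.mpr i2)) (Mathlib.Tactic.Linarith.sub_nonpos_of_le (le_of_not_gt q))]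
        · have := (Finset.mem_filter.1 (q hmem)).2.1
          rw [det_self] at this; omega
  obtain ⟨a, ha, b, hb, hd⟩ : ∃ a ∈ R, ∃ b ∈ R, 0 < det a b := by
    obtain ⟨a, ha, b, hb, hd⟩ := F.span
    rcases lt_or_gt_of_ne hd with q | q
    · exact ⟨b, hb, a, ha, by rw [det_swap]; omega⟩
    · exact ⟨a, ha, b, hb, q⟩
  obtain ⟨a', ha', pa⟩ := F.sym a ha
  obtain ⟨b', hb', pb⟩ := F.sym b hb
  have s1 := det_swap v b
  have s2 := det_swap b a
  by_cases c1 : 0 ≤ det a v <;> by_cases c2 : 0 ≤ det v b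
  · exact main _ a ha b hb hd c1 c2 (Nat.lt_succ_self _)
  · refine main _ b hb a' ha' ?_ (by omega) ?_ (Nat.lt_succ_self _)
    · rw [det_swap]; have := (pa.det_neg b).1 hd; omega
    · rw [det_swap]; have := (pa.det_neg v).2.2.1 c1; omega
  · refine main _ b' hb' a ha ((pb.det_neg a).2.1 (by omega)) ((pb.det_neg v).2.2.2 (by omega))
      (by rw [det_swap]; omega) (Nat.lt_succ_self _)
  · refine main _ a' ha' b' hb' ?_ ((pa.det_neg v).2.2.2 (by omega)) ?_ (Nat.lt_succ_self _)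
    · refine (pa.det_neg b').2.1 ?_
      rw [det_swap]; have := (pb.det_neg a).2.1 (by omega); omega
    · rw [det_swap]; have := (pb.det_neg v).2.2.1 (by omega); omega

def Par (a b d : Z2) : Prop := ⌊co a b d⌋ = 0 ∧ ⌊co b a d⌋ = 0

def Rep (R : Finset Z2) (bef : Z2 → Z2 → Prop) (v a b : Z2) (m n : ℕ) (d : Z2) : Prop :=
  Sector R a b ∧ bef a b ∧ v = (m : ℤ) • a + (n : ℤ) • b + d ∧ Par a b d

lemma co_add (a b d : Z2) (m n : ℤ) (h : det a b ≠ 0) :
    co a b (m • a + n • b + d) = co a b d + m := by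
  have h' : (det a b : ℚ) ≠ 0 := by exact_mod_cast h
  simp only [co]
  field_simp
  simp [det]; ring

lemma par_zero (a b : Z2) : Par a b 0 := by simp [Par, co, det]

lemma Par.nrm_le {a b d : Z2} (h : Par a b d) (hd : det a b ≠ 0) : nrm d ≤ nrm a + nrm b := by
  have key : ∀ {a b : Z2}, det a b ≠ 0 → ⌊co a b d⌋ = 0 → |det d b| ≤ |det a b| := by
    intro a b hd h
    have h' : (0 : ℚ) < |(det a b : ℚ)| := abs_pos.2 (by exact_mod_cast hd)
    rw [Int.floor_eq_iff] at h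
    push_cast at h
    have : |co a b d| ≤ 1 := abs_le.2 ⟨by linarith [h.1], by simpa using h.2.le⟩
    rw [co, abs_div, div_le_one h'] at this
    exact_mod_cast this
  have k1 := key hd h.1
  have k2 := key (a := b) (b := a) (by rw [det_swap]; simpa using hd) h.2
  rw [det_swap d a, det_swap b a, abs_neg, abs_neg] at k2
  have e := congrArg nrm (cramer a b d)
  have t := nrm_add (det d b • a) (det a d • b)
  rw [← e, nrm_smul, nrm_smul, nrm_smul] at t
  have p := abs_pos.2 hd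
  have := nrm_nonneg a
  have := nrm_nonneg b
  by_contra c
  nlinarith

lemma exists_rep {R : Finset Z2} (F : FanH R) {bef : Z2 → Z2 → Prop}
    (tot : ∀ a b, a ≠ b → bef a b ∨ bef b a) (v : Z2) :
    ∃ a b m n d, Rep R bef v a b m n d := by
  obtain ⟨a, b, h, hb, h1, h2⟩ : ∃ a b, Sector R a b ∧ bef a b ∧ 0 ≤ co a b v ∧ 0 ≤ co b a v := by
    obtain ⟨a, b, h, h1, h2⟩ := exists_sector F v
    rcases tot a b h.ne with q | q
    · exact ⟨a, b, h, q, h1, h2⟩
    · exact ⟨b, a, h.symm, q, h2, h1⟩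
  refine ⟨a, b, ⌊co a b v⌋.toNat, ⌊co b a v⌋.toNat,
    (-⌊co a b v⌋) • a + (-⌊co b a v⌋) • b + v, h, hb, ?_, ?_, ?_⟩
  · rw [Int.toNat_of_nonneg (Int.floor_nonneg.2 h1), Int.toNat_of_nonneg (Int.floor_nonneg.2 h2)]
    module
  · rw [co_add _ _ _ _ _ h.2.2.1, Int.floor_add_intCast]; ring
  · rw [add_comm (_ • a), co_add _ _ _ _ _ h.symm.2.2.1, Int.floor_add_intCast]; ring

lemma Rep.cf_eq {R : Finset Z2} (F : FanH R) {bef : Z2 → Z2 → Prop} {v a b d : Z2} {m n : ℕ}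
    (h : Rep R bef v a b m n d) {r : Z2} (hr : r ∈ R) :
    cf R r v = if r = a then (m : ℤ) else if r = b then (n : ℤ) else 0 := by
  obtain ⟨h1, -, h2, h3, h4⟩ := h
  have e1 : co a b v = co a b d + m := by rw [h2, co_add _ _ _ _ _ h1.2.2.1]; simp
  have e2 : co b a v = co b a d + n := by
    rw [h2, add_comm (_ • a), co_add _ _ _ _ _ h1.symm.2.2.1]; simp
  have p1 : 0 ≤ co a b v := by
    rw [e1]; have := (Int.floor_eq_iff.1 h3).1; positivity
  have p2 : 0 ≤ co b a v := by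
    rw [e2]; have := (Int.floor_eq_iff.1 h4).1; positivity
  split_ifs with c1 c2
  · rw [c1, cf_first h1 p1 p2, e1, Int.floor_add_natCast, h3, zero_add]
  · rw [c2, cf_first h1.symm p2 p1, e2, Int.floor_add_natCast, h4, zero_add]
  · exact cf_other F h1 p1 p2 hr c1 c2

noncomputable def nat (R : Finset Z2) (v : Z2) : ℤ := ∑ r ∈ R, cf R r v + 1

lemma sum_two {M : Type} [AddCommMonoid M] {R : Finset Z2} {a b : Z2} (ha : a ∈ R) (hb : b ∈ R)
    (hne : a ≠ b) (f : Z2 → M) (h : ∀ r ∈ R, r ≠ a → r ≠ b → f r = 0) :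
    ∑ r ∈ R, f r = f a + f b :=
  Finset.sum_eq_add_of_mem a b ha hb hne fun c hc h' => h c hc h'.1 h'.2

lemma Rep.nat_eq {R : Finset Z2} (F : FanH R) {bef : Z2 → Z2 → Prop} {v a b d : Z2} {m n : ℕ}
    (h : Rep R bef v a b m n d) : nat R v = m + n + 1 := by
  unfold nat
  rw [sum_two h.1.1 h.1.2.1 h.1.ne _ fun r hr c1 c2 => by rw [h.cf_eq F hr, if_neg c1, if_neg c2],
    h.cf_eq F h.1.1, h.cf_eq F h.1.2.1, if_pos rfl, if_neg h.1.ne.symm, if_pos rfl]

lemma nat_lip {R : Finset Z2} {K : ℤ} (hK0 : 0 ≤ K) (hK : ∀ s ∈ R, nrm s ≤ K) (v w : Z2) :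
    |nat R v - nat R w| ≤ R.card * (K * nrm (v - w) + 1) := by
  unfold nat
  rw [add_sub_add_right_eq_sub, ← Finset.sum_sub_distrib]
  refine (Finset.abs_sum_le_sum_abs _ _).trans ?_
  refine (Finset.sum_le_card_nsmul _ _ _ fun r _ => cf_lip hK0 hK r v w).trans (by simp)

lemma ray_rep {R : Finset Z2} (F : FanH R) {bef : Z2 → Z2 → Prop}
    (tot : ∀ a b, a ≠ b → bef a b ∨ bef b a) {r : Z2} (hr : r ∈ R) (m : ℕ) :
    ∃ s, Rep R bef ((m : ℤ) • r) r s m 0 0 ∨ Rep R bef ((m : ℤ) • r) s r 0 m 0 := by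
  obtain ⟨s, hs⟩ : ∃ s, Sector R r s := by
    obtain ⟨a, b, h, h1, h2⟩ := exists_sector F r
    rcases mem_cone F h hr h1 h2 with rfl | rfl
    · exact ⟨b, h⟩
    · exact ⟨a, h.symm⟩
  rcases tot r s hs.ne with q | q
  · exact ⟨s, Or.inl ⟨hs, q, by simp, par_zero _ _⟩⟩
  · exact ⟨s, Or.inr ⟨hs.symm, q, by simp, par_zero _ _⟩⟩

def ppos (a b : Z2) (m n t : ℕ) : Z2 := ((min t m : ℕ) : ℤ) • a + ((min (t - m) n : ℕ) : ℤ) • b

lemma pc_bound {a b a' b' : Z2} {m n m' n' t : ℕ} {c : ℤ} (h1 : a ≠ b) (h2 : a' ≠ b')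
    (h3 : ¬ (a = b' ∧ b = a'))
    (H : ∀ r, r = a ∨ r = b ∨ r = a' ∨ r = b' →
      |(if r = a then (m : ℤ) else if r = b then (n : ℤ) else 0) -
        (if r = a' then (m' : ℤ) else if r = b' then (n' : ℤ) else 0)| ≤ c) (r : Z2) :
    |(if r = a then ((min t m : ℕ) : ℤ) else if r = b then ((min (t - m) n : ℕ) : ℤ) else 0) -
      (if r = a' then ((min t m' : ℕ) : ℤ) else if r = b' then ((min (t - m') n' : ℕ) : ℤ) else 0)|
      ≤ 2 * c := by
  have q1 := H a (by simp)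
  have q2 := H b (by simp)
  have q3 := H a' (by simp)
  have q4 := H b' (by simp)
  rw [abs_le] at *
  by_cases e1 : a = a' <;> by_cases e2 : b = b' <;> by_cases e3 : a = b' <;>
    by_cases e4 : b = a' <;> grind

lemma Rep.ft {R : Finset Z2} (F : FanH R) {bef : Z2 → Z2 → Prop}
    (asym : ∀ a b, bef a b → ¬ bef b a) {K : ℤ} (hK0 : 0 ≤ K) (hK : ∀ s ∈ R, nrm s ≤ K)
    {v a b d v' a' b' d' : Z2} {m n m' n' : ℕ}
    (h : Rep R bef v a b m n d) (h' : Rep R bef v' a' b' m' n' d') (t : ℕ) :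
    nrm (ppos a b m n t - ppos a' b' m' n' t) ≤ R.card * (2 * (K * nrm (v - v') + 1) * K) := by
  have e : ∀ {a b : Z2} {m n : ℕ}, Sector R a b → ppos a b m n t = ∑ r ∈ R,
      (if r = a then ((min t m : ℕ) : ℤ) else if r = b then ((min (t - m) n : ℕ) : ℤ) else 0) • r := by
    intro a b m n hs
    rw [sum_two hs.1 hs.2.1 hs.ne _ fun r _ c1 c2 => by rw [if_neg c1, if_neg c2, zero_smul],
      if_pos rfl, if_neg hs.ne.symm, if_pos rfl, ppos]
  have b1 := pc_bound (t := t) (c := K * nrm (v - v') + 1) (m := m) (n := n) (m' := m') (n' := n')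
    h.1.ne h'.1.ne (fun q => asym _ _ h.2.1 (q.1 ▸ q.2 ▸ h'.2.1)) (by
      intro r hr
      have hrR : r ∈ R := by
        rcases hr with rfl | rfl | rfl | rfl
        exacts [h.1.1, h.1.2.1, h'.1.1, h'.1.2.1]
      rw [← h.cf_eq F hrR, ← h'.cf_eq F hrR]
      exact cf_lip hK0 hK r v v')
  rw [e h.1, e h'.1, ← Finset.sum_sub_distrib]
  have s : ∀ (T : Finset Z2) (f : Z2 → Z2), nrm (∑ r ∈ T, f r) ≤ ∑ r ∈ T, nrm (f r) := by
    intro T f
    induction T using Finset.induction_on with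
    | empty => simp [nrm]
    | insert x T hx ih =>
      rw [Finset.sum_insert hx, Finset.sum_insert hx]
      exact (nrm_add _ _).trans (by linarith)
  refine (s _ _).trans ((Finset.sum_le_card_nsmul _ _ (2 * (K * nrm (v - v') + 1) * K)
    fun r hr => ?_).trans (by simp))
  rw [← sub_smul, nrm_smul]
  exact mul_le_mul (b1 r) (hK r hr) (nrm_nonneg _) ((abs_nonneg _).trans (b1 r))

end Pool.Agent.Work.MP_0909b4_al
end

-- merged part: Pool.Agent.Work.MP_0909b4_al.Britton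
section
/-! Half-edges, slides and uniqueness of reduced sequences. -/

namespace Pool.Agent.Work.MP_0909b4_al

variable {V ι : Type} (T : Tub V ι)

abbrev HE (ι : Type) := ι × Bool

def bar (h : HE ι) : HE ι := (h.1, !h.2)
@[simp] lemma bar_bar (h : HE ι) : bar (bar h) = h := by simp [bar]
def Tub.src (h : HE ι) : V := if h.2 then T.o h.1 else T.d h.1
def Tub.wv (h : HE ι) : Z2 := if h.2 then T.u h.1 else T.w h.1

def Tub.vtx (x : V) (v : Z2) : T.F := PresentedGroup.mk T.rels (vecF x v)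
def Tub.edg (h : HE ι) : T.F :=
  if h.2 then PresentedGroup.of (Sum.inr h.1) else (PresentedGroup.of (Sum.inr h.1))⁻¹

lemma Tub.edg_bar (h : HE ι) : T.edg (bar h) = (T.edg h)⁻¹ := by
  obtain ⟨i, b⟩ := h
  cases b <;> simp [Tub.edg, bar]

lemma Tub.vtx_eq (x : V) (v : Z2) : T.vtx x v =
    PresentedGroup.of (Sum.inl (x, false)) ^ v.1 * PresentedGroup.of (Sum.inl (x, true)) ^ v.2 := by
  simp [Tub.vtx, vecF, PresentedGroup.of]

lemma Tub.comm (x : V) : Commute (PresentedGroup.of (Sum.inl (x, false)) : T.F)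
    (PresentedGroup.of (Sum.inl (x, true))) := by
  have := PresentedGroup.one_of_mem (rels := T.rels) (Or.inl ⟨x, rfl⟩)
  simp only [map_mul, map_inv, vecF, zpow_one, zpow_zero, mul_one, one_mul] at this
  rw [mul_inv_eq_one, mul_inv_eq_iff_eq_mul] at this
  exact this

lemma Tub.vtx_add (x : V) (v w : Z2) : T.vtx x (v + w) = T.vtx x v * T.vtx x w := by
  simp only [Tub.vtx_eq, Prod.fst_add, Prod.snd_add, zpow_add]
  have := ((T.comm x).zpow_zpow w.1 v.2).eq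
  rw [mul_assoc, mul_assoc, ← mul_assoc (_ ^ w.1), this, mul_assoc]

@[simp] lemma Tub.vtx_zero (x : V) : T.vtx x 0 = 1 := by simp [Tub.vtx_eq]

lemma Tub.vtx_neg (x : V) (v : Z2) : T.vtx x (-v) = (T.vtx x v)⁻¹ := by
  rw [eq_inv_iff_mul_eq_one, ← T.vtx_add]; simp

lemma Tub.vtx_smul (x : V) (n : ℤ) (v : Z2) : T.vtx x (n • v) = T.vtx x v ^ n :=
  map_zpow (MonoidHom.mk' (fun v : Multiplicative Z2 => T.vtx x v.toAdd)
    fun _ _ => T.vtx_add x _ _) (Multiplicative.ofAdd v) n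

lemma Tub.slide (h : HE ι) (n : ℤ) : T.vtx (T.src h) (n • T.wv h) * T.edg h =
    T.edg h * T.vtx (T.src (bar h)) (n • T.wv (bar h)) := by
  obtain ⟨i, b⟩ := h
  have := PresentedGroup.one_of_mem (rels := T.rels) (Or.inr ⟨i, rfl⟩)
  simp only [map_mul, map_inv] at this
  rw [mul_inv_eq_one] at this
  have e : T.vtx (T.d i) (T.w i) = (PresentedGroup.of (Sum.inr i))⁻¹ * T.vtx (T.o i) (T.u i) *
      PresentedGroup.of (Sum.inr i) := this.symm
  have e' : T.vtx (T.d i) (n • T.w i) = (PresentedGroup.of (Sum.inr i))⁻¹ *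
      T.vtx (T.o i) (n • T.u i) * PresentedGroup.of (Sum.inr i) := by
    rw [T.vtx_smul, T.vtx_smul, e]
    simpa using conj_zpow (i := n) (a := (PresentedGroup.of (Sum.inr i) : T.F)⁻¹)
      (b := T.vtx (T.o i) (T.u i))
  cases b <;> simp [Tub.src, Tub.wv, Tub.edg, bar, e', mul_assoc, -zsmul_eq_mul]

/-! ### transversals -/

def Mul' (u g : Z2) : Prop := ∃ n : ℤ, g = n • u

open Classical in
noncomputable def rp (u g : Z2) : Z2 :=
  if Mul' u g then 0 else (QuotientAddGroup.mk g : Z2 ⧸ AddSubgroup.zmultiples u).out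

lemma rp_spec (u g : Z2) : ∃ n : ℤ, g = n • u + rp u g := by
  unfold rp
  split_ifs with h
  · simpa [Mul'] using h
  · obtain ⟨⟨_, n, rfl⟩, e⟩ := QuotientAddGroup.mk_out_eq_add (AddSubgroup.zmultiples u) g
    exact ⟨-n, by rw [e]; simp⟩

lemma mul'_add (u g : Z2) (n : ℤ) : Mul' u (n • u + g) ↔ Mul' u g :=
  ⟨fun ⟨m, e⟩ => ⟨m - n, by rw [sub_smul, ← e]; abel⟩, fun ⟨m, e⟩ => ⟨n + m, by rw [add_smul, e]⟩⟩

lemma rp_add (u g : Z2) (n : ℤ) : rp u (n • u + g) = rp u g := by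
  unfold rp
  rw [mul'_add]
  congr 2
  rw [QuotientAddGroup.eq]
  exact ⟨-n, by simp⟩

noncomputable def nq (u g : Z2) : ℤ := (rp_spec u g).choose
lemma nq_spec (u g : Z2) : g = nq u g • u + rp u g := (rp_spec u g).choose_spec

lemma nq_eq {u g : Z2} (hu : u ≠ 0) {n : ℤ} (h : g = n • u + rp u g) : nq u g = n := by
  have := (nq_spec u g).symm.trans h
  rw [add_left_inj, ← sub_eq_zero, ← sub_smul, smul_eq_zero] at this
  exact sub_eq_zero.1 (this.resolve_right hu)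

lemma rp_rp (u g : Z2) : rp u (rp u g) = rp u g := by
  conv_rhs => rw [nq_spec u g, rp_add]

lemma rp_of_mul {u g : Z2} (h : Mul' u g) : rp u g = 0 := by unfold rp; rw [if_pos h]

def Tub.NF : List (HE ι × Z2) → Prop
  | [] => True
  | (h, g) :: l => rp (T.wv (bar h)) g = g ∧ (∀ g' l', l = (bar h, g') :: l' → g ≠ 0) ∧ NF l

def Tub.Om : Type := {p : Z2 × List (HE ι × Z2) // T.NF p.2}

def Tub.tr (a : Z2) : Equiv.Perm T.Om where
  toFun p := ⟨(a + p.1.1, p.1.2), p.2⟩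
  invFun p := ⟨(-a + p.1.1, p.1.2), p.2⟩
  left_inv p := by simp
  right_inv p := by simp

lemma Tub.tr_add (a b : Z2) : T.tr (a + b) = T.tr a * T.tr b := by
  ext p; simp [Tub.tr, add_assoc]

lemma Tub.tr_zero : T.tr 0 = 1 := by ext p; simp [Tub.tr]

lemma Tub.tr_smul (n : ℤ) (a : Z2) : T.tr (n • a) = T.tr a ^ n :=
  map_zpow (MonoidHom.mk' (fun v : Multiplicative Z2 => T.tr v.toAdd)
    fun _ _ => T.tr_add _ _) (Multiplicative.ofAdd a) n

open Classical in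
noncomputable def Tub.eAct (h : HE ι) (p : Z2 × List (HE ι × Z2)) : Z2 × List (HE ι × Z2) :=
  match p.2 with
  | (h', g) :: l =>
    if h' = bar h ∧ Mul' (T.wv (bar h)) p.1 then (nq (T.wv (bar h)) p.1 • T.wv h + g, l)
    else (nq (T.wv (bar h)) p.1 • T.wv h, (h, rp (T.wv (bar h)) p.1) :: p.2)
  | [] => (nq (T.wv (bar h)) p.1 • T.wv h, [(h, rp (T.wv (bar h)) p.1)])

lemma Tub.eAct_cancel (h : HE ι) {g0 g : Z2} {l : List (HE ι × Z2)} (hm : Mul' (T.wv (bar h)) g0) :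
    T.eAct h (g0, (bar h, g) :: l) = (nq (T.wv (bar h)) g0 • T.wv h + g, l) := by
  simp [Tub.eAct, hm]

lemma Tub.eAct_cons (h : HE ι) {g0 : Z2} {l : List (HE ι × Z2)}
    (hm : ∀ g l', l = (bar h, g) :: l' → ¬ Mul' (T.wv (bar h)) g0) :
    T.eAct h (g0, l) = (nq (T.wv (bar h)) g0 • T.wv h, (h, rp (T.wv (bar h)) g0) :: l) := by
  cases l with
  | nil => rfl
  | cons a l =>
    obtain ⟨h', g⟩ := a
    simp only [Tub.eAct]
    rw [if_neg]
    rintro ⟨rfl, q⟩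
    exact hm g l rfl q

lemma Tub.eAct_cases (h : HE ι) (g0 : Z2) (l : List (HE ι × Z2)) :
    (∃ g l', l = (bar h, g) :: l' ∧ Mul' (T.wv (bar h)) g0) ∨
      ∀ g l', l = (bar h, g) :: l' → ¬ Mul' (T.wv (bar h)) g0 := by
  by_contra c
  push Not at c
  obtain ⟨c1, g, l', e, q⟩ := c
  exact c1 g l' e q

lemma Tub.eAct_nf (h : HE ι) (p : T.Om) : T.NF (T.eAct h p.1).2 := by
  obtain ⟨⟨g0, l⟩, hp⟩ := p
  rcases T.eAct_cases h g0 l with ⟨g, l', rfl, q⟩ | q
  · rw [T.eAct_cancel h q]; exact hp.2.2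
  · rw [T.eAct_cons h q]
    refine ⟨rp_rp _ _, fun g l' e z => q g l' e ⟨nq (T.wv (bar h)) g0, ?_⟩, hp⟩
    have := nq_spec (T.wv (bar h)) g0
    rwa [z, add_zero] at this

lemma Tub.eAct_inv (hw : ∀ h, T.wv h ≠ 0) (h : HE ι) (p : T.Om) :
    T.eAct (bar h) (T.eAct h p.1) = p.1 := by
  obtain ⟨⟨g0, l⟩, hp⟩ := p
  dsimp only at hp ⊢
  rcases T.eAct_cases h g0 l with ⟨g, l', rfl, q⟩ | q
  · obtain ⟨h1, h2, h3⟩ := hp
    rw [bar_bar] at h1 h2
    rw [T.eAct_cancel h q, T.eAct_cons]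
    · rw [bar_bar, rp_add, h1, nq_eq (hw h) (n := nq (T.wv (bar h)) g0) (by rw [rp_add, h1])]
      have := nq_spec (T.wv (bar h)) g0
      rw [rp_of_mul q, add_zero] at this
      rw [← this]
    · intro g' l'' e
      rw [bar_bar] at e ⊢
      rw [mul'_add]
      intro z
      exact h2 g' l'' e (h1 ▸ rp_of_mul z)
  · rw [T.eAct_cons h q]
    have m : Mul' (T.wv (bar (bar h))) (nq (T.wv (bar h)) g0 • T.wv h) := ⟨_, by rw [bar_bar]⟩
    have := T.eAct_cancel (bar h) (g := rp (T.wv (bar h)) g0) (l := l) m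
    rw [bar_bar] at this m
    rw [this, nq_eq (hw h) (n := nq (T.wv (bar h)) g0) (by rw [rp_of_mul m, add_zero]),
      ← nq_spec]

noncomputable def Tub.eP (hw : ∀ h, T.wv h ≠ 0) (h : HE ι) : Equiv.Perm T.Om where
  toFun p := ⟨T.eAct h p.1, T.eAct_nf h p⟩
  invFun p := ⟨T.eAct (bar h) p.1, T.eAct_nf _ p⟩
  left_inv p := Subtype.ext (T.eAct_inv hw h p)
  right_inv p := Subtype.ext (by simpa using T.eAct_inv hw (bar h) p)

lemma Tub.eP_slide (hw : ∀ h, T.wv h ≠ 0) (h : HE ι) :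
    T.tr (T.wv h) * T.eP hw h = T.eP hw h * T.tr (T.wv (bar h)) := by
  refine Equiv.ext fun ⟨⟨g0, l⟩, hp⟩ => Subtype.ext ?_
  change (T.wv h + (T.eAct h (g0, l)).1, (T.eAct h (g0, l)).2) = T.eAct h (T.wv (bar h) + g0, l)
  have e1 : rp (T.wv (bar h)) (T.wv (bar h) + g0) = rp (T.wv (bar h)) g0 := by
    simpa using rp_add (T.wv (bar h)) g0 1
  have e2 : nq (T.wv (bar h)) (T.wv (bar h) + g0) = 1 + nq (T.wv (bar h)) g0 :=
    nq_eq (hw _) (by rw [e1, add_smul, one_smul, add_assoc, ← nq_spec])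
  have e3 : Mul' (T.wv (bar h)) (T.wv (bar h) + g0) ↔ Mul' (T.wv (bar h)) g0 := by
    simpa using mul'_add (T.wv (bar h)) g0 1
  rcases T.eAct_cases h g0 l with ⟨g, l', rfl, q⟩ | q
  · rw [T.eAct_cancel h q, T.eAct_cancel h (e3.2 q), e2, add_smul, one_smul, add_assoc]
  · rw [T.eAct_cons h q, T.eAct_cons h (fun g l' e => e3.not.2 (q g l' e)), e1, e2, add_smul,
      one_smul]

noncomputable def Tub.genAct (hw : ∀ h, T.wv h ≠ 0) : Gen V ι → Equiv.Perm T.Om
  | Sum.inl (_, false) => T.tr (1, 0)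
  | Sum.inl (_, true) => T.tr (0, 1)
  | Sum.inr i => T.eP hw (i, true)

lemma Tub.lift_vec (hw : ∀ h, T.wv h ≠ 0) (x : V) (v : Z2) :
    FreeGroup.lift (T.genAct hw) (vecF x v) = T.tr v := by
  simp only [vecF, map_mul, map_zpow, FreeGroup.lift_apply_of, Tub.genAct]
  rw [← T.tr_smul, ← T.tr_smul, ← T.tr_add]
  congr 1
  ext <;> simp

noncomputable def Tub.act (hw : ∀ h, T.wv h ≠ 0) : T.F →* Equiv.Perm T.Om :=
  PresentedGroup.toGroup (f := T.genAct hw) (by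
    rintro r (⟨x, rfl⟩ | ⟨i, rfl⟩)
    · simp only [map_mul, map_inv, T.lift_vec]
      rw [mul_inv_eq_one, mul_inv_eq_iff_eq_mul, ← T.tr_add, ← T.tr_add, add_comm]
    · simp only [map_mul, map_inv, T.lift_vec, FreeGroup.lift_apply_of, Tub.genAct]
      rw [mul_inv_eq_one, mul_assoc, inv_mul_eq_iff_eq_mul]
      exact T.eP_slide hw (i, true))

lemma Tub.act_vtx (hw : ∀ h, T.wv h ≠ 0) (x : V) (v : Z2) : T.act hw (T.vtx x v) = T.tr v :=
  T.lift_vec hw x v

lemma Tub.act_edg (hw : ∀ h, T.wv h ≠ 0) (h : HE ι) : T.act hw (T.edg h) = T.eP hw h := by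
  obtain ⟨i, b⟩ := h
  have e : T.act hw (PresentedGroup.of (Sum.inr i)) = T.eP hw (i, true) :=
    PresentedGroup.toGroup.of _
  cases b
  · simp only [Tub.edg, Bool.false_eq_true, if_false, map_inv, e]; rfl
  · simp only [Tub.edg, if_true, e]

/-- value of the sequence starting in plane `i` with `k` further crossings -/
def Tub.sq (h : ℕ → HE ι) (v : ℕ → Z2) : ℕ → ℕ → V → T.F
  | 0, i, x => T.vtx x (v i)
  | k + 1, i, x => T.vtx x (v i) * T.edg (h i) * sq h v k (i + 1) (T.src (bar (h i)))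

def Tub.Red (h : ℕ → HE ι) (v : ℕ → Z2) (k i : ℕ) : Prop :=
  ∀ j, i ≤ j → j + 1 < i + k → h (j + 1) = bar (h j) → ¬ Mul' (T.wv (bar (h j))) (v (j + 1))

def Tub.SlL (h : ℕ → HE ι) (v : ℕ → Z2) : ℕ → ℕ → Z2 → List (HE ι × Z2) → Prop
  | 0, i, g, l => l = [] ∧ g = v i
  | k + 1, i, g, l => ∃ g1 l1, ∃ n : ℤ, l = (h i, g1) :: l1 ∧ g = v i + n • T.wv (h i) ∧
      SlL h v k (i + 1) (n • T.wv (bar (h i)) + g1) l1

lemma Tub.nf_sl (hw : ∀ h, T.wv h ≠ 0) (h : ℕ → HE ι) (v : ℕ → Z2) (k : ℕ) :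
    ∀ i x, T.Red h v k i → T.SlL h v k i (T.act hw (T.sq h v k i x) ⟨(0, []), trivial⟩).1.1
      (T.act hw (T.sq h v k i x) ⟨(0, []), trivial⟩).1.2 := by
  induction k with
  | zero =>
    intro i x _
    simp only [Tub.sq, T.act_vtx]
    exact ⟨rfl, add_zero _⟩
  | succ k ih =>
    intro i x hr
    have := ih (i + 1) (T.src (bar (h i))) fun j a b => hr j (by omega) (by omega)
    simp only [Tub.sq, map_mul, T.act_vtx, T.act_edg, Equiv.Perm.mul_apply]
    generalize T.act hw (T.sq h v k (i + 1) (T.src (bar (h i)))) ⟨(0, []), trivial⟩ = p at this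
    obtain ⟨⟨g0, l⟩, hp⟩ := p
    dsimp only at this
    have q : ∀ g l', l = (bar (h i), g) :: l' → ¬ Mul' (T.wv (bar (h i))) g0 := by
      rintro g l' rfl q
      cases k with
      | zero => exact absurd this.1 (by simp)
      | succ k =>
        obtain ⟨g1, l1, n, e1, e2, -⟩ := this
        simp only [List.cons.injEq, Prod.mk.injEq] at e1
        refine hr i le_rfl (by omega) e1.1.1.symm ?_
        rw [e2, ← e1.1.1, add_comm, mul'_add] at q
        exact q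
    change T.SlL h v (k + 1) i (v i + (T.eAct (h i) (g0, l)).1) (T.eAct (h i) (g0, l)).2
    rw [T.eAct_cons _ q]
    exact ⟨_, _, _, rfl, rfl, by rw [← nq_spec]; exact this⟩

lemma Tub.sl_uniq {h h' : ℕ → HE ι} {v v' : ℕ → Z2} (k : ℕ) : ∀ k' i g g' l,
    T.SlL h v k i g l → T.SlL h' v' k' i g' l → k' = k ∧ (∀ j, i ≤ j → j < i + k → h' j = h j) ∧
      ∃ s : ℕ → ℤ, ∀ j, i ≤ j → j ≤ i + k →
        v' j + (if j = i then g - g' else s (j - 1) • T.wv (bar (h (j - 1)))) =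
          v j + (if j < i + k then s j • T.wv (h j) else 0) := by
  induction k with
  | zero =>
    rintro k' i g g' l ⟨rfl, rfl⟩ h2
    cases k' with
    | zero =>
      refine ⟨rfl, fun j a b => by omega, fun _ => 0, fun j a b => ?_⟩
      obtain rfl : j = i := by omega
      rw [h2.2]; simp
    | succ k' => obtain ⟨_, _, _, e, -⟩ := h2; simp at e
  | succ k ih =>
    rintro k' i g g' l ⟨g1, l1, n, rfl, rfl, h1⟩ h2
    cases k' with
    | zero => exact absurd h2.1 (by simp)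
    | succ k' =>
      obtain ⟨g2, l2, n', e, rfl, h2⟩ := h2
      simp only [List.cons.injEq, Prod.mk.injEq] at e
      obtain ⟨⟨e1, rfl⟩, rfl⟩ := e
      obtain ⟨a1, a2, s, a3⟩ := ih k' (i + 1) _ _ _ h1 h2
      refine ⟨by omega, fun j b1 b2 => ?_, fun j => if j = i then n - n' else s j,
        fun j b1 b2 => ?_⟩
      · rcases b1.eq_or_lt with rfl | c
        · exact e1.symm
        · exact a2 j c (by omega)
      · rcases b1.eq_or_lt with rfl | c
        · rw [if_pos rfl, if_pos (by omega), ← e1]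
          simp only [if_true]
          module
        · have := a3 j c (by omega)
          rw [if_neg (by omega), show i + (k + 1) = i + 1 + k by omega]
          simp only [show j ≠ i by omega, if_false]
          rw [← this]
          by_cases c' : j = i + 1
          · subst c'
            simp only [Nat.add_sub_cancel, if_true, ← e1]
            module
          · rw [if_neg c', if_neg (by omega)]

theorem Tub.uniq (hw : ∀ h, T.wv h ≠ 0) {h h' : ℕ → HE ι} {v v' : ℕ → Z2} {n n' : ℕ} {x x' : V}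
    (r : T.Red h v n 0) (r' : T.Red h' v' n' 0) (e : T.sq h v n 0 x = T.sq h' v' n' 0 x') :
    n' = n ∧ (∀ j < n, h' j = h j) ∧ ∃ s : ℕ → ℤ, ∀ j ≤ n,
      v' j + (if j = 0 then 0 else s (j - 1) • T.wv (bar (h (j - 1)))) =
        v j + (if j < n then s j • T.wv (h j) else 0) := by
  have a := T.nf_sl hw h v n 0 x r
  have b := T.nf_sl hw h' v' n' 0 x' r'
  rw [← e] at b
  obtain ⟨a1, a2, s, a3⟩ := T.sl_uniq n n' 0 _ _ _ a b
  exact ⟨a1, fun j q => a2 j (by omega) (by omega), s, fun j q => by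
    simpa using a3 j (by omega) (by omega)⟩

end Pool.Agent.Work.MP_0909b4_al
end

-- merged part: Pool.Agent.Work.MP_0909b4_al.Reg
section
/-! Regularity tools. -/

namespace Pool.Agent.Work.MP_0909b4_al

theorem reg_of_family {α : Type} (F : Set (Language α)) (hF : F.Finite)
    (hq : ∀ X ∈ F, ∀ a w, a :: w ∈ X → ∃ Y ∈ F, w ∈ Y ∧ ∀ w' ∈ Y, a :: w' ∈ X)
    (L : Language α) (hL : ∀ w ∈ L, ∃ X ∈ F, w ∈ X ∧ ∀ w' ∈ X, w' ∈ L) : L.IsRegular := by
  have key : ∀ x : List α, ∀ L : Language α, (∀ w ∈ L, ∃ X ∈ F, w ∈ X ∧ ∀ w' ∈ X, w' ∈ L) →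
      ∀ w ∈ L.leftQuotient x, ∃ X ∈ F, w ∈ X ∧ ∀ w' ∈ X, w' ∈ L.leftQuotient x := by
    intro x
    induction x with
    | nil => exact fun L h => h
    | cons a x ih =>
      intro L h
      refine ih (L.leftQuotient [a]) fun w hw => ?_
      obtain ⟨X, hX, h1, h2⟩ := h (a :: w) hw
      obtain ⟨Y, hY, h3, h4⟩ := hq X hX a w h1
      exact ⟨Y, hY, h3, fun w' hw' => h2 _ (h4 w' hw')⟩
  refine Language.IsRegular.of_finite_range_leftQuotient
    ((hF.finite_subsets.image fun G : Set (Language α) =>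
      (show Language α from {w | ∃ X ∈ G, w ∈ X})).subset ?_)
  rintro _ ⟨x, rfl⟩
  refine ⟨{X | X ∈ F ∧ ∀ w' ∈ X, w' ∈ L.leftQuotient x}, fun X hX => hX.1, ?_⟩
  ext w
  constructor
  · rintro ⟨X, hX, h⟩; exact hX.2 w h
  · intro hw
    obtain ⟨X, hX, h1, h2⟩ := key x L hL w hw
    exact ⟨X, ⟨hX, h2⟩, h1⟩

theorem reg_exists {α ι : Type} (s : Set ι) (hs : s.Finite) (L : ι → Language α)
    (h : ∀ i ∈ s, (L i).IsRegular) : Language.IsRegular {w | ∃ i ∈ s, w ∈ L i} := by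
  refine reg_of_family (⋃ i ∈ s, Set.range (L i).leftQuotient)
    (hs.biUnion fun i hi => (h i hi).finite_range_leftQuotient) ?_ _ ?_
  · intro X hX a w hw
    obtain ⟨i, hi, x, rfl⟩ := Set.mem_iUnion₂.1 hX
    refine ⟨_, Set.mem_iUnion₂.2 ⟨i, hi, x ++ [a], rfl⟩, by simpa using hw, fun w' hw' => ?_⟩
    simpa using hw'
  · rintro w ⟨i, hi, hw⟩
    exact ⟨_, Set.mem_iUnion₂.2 ⟨i, hi, [], rfl⟩, hw, fun w' hw' => ⟨i, hi, hw'⟩⟩

theorem reg_image {α β γ : Type} (f : α → γ) (g : β → γ) {L : Language α} (h : L.IsRegular) :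
    Language.IsRegular {w : List β | ∃ u ∈ L, w.map g = u.map f} := by
  refine reg_of_family ((fun X : Language α =>
    (show Language β from {w : List β | ∃ u ∈ X, w.map g = u.map f})) ''
      Set.range L.leftQuotient) (h.finite_range_leftQuotient.image _) ?_ _ ?_
  · rintro _ ⟨_, ⟨x, rfl⟩, rfl⟩ a w ⟨u, hu, e⟩
    cases u with
    | nil => simp at e
    | cons b u =>
      simp only [List.map_cons, List.cons.injEq] at e
      refine ⟨_, ⟨_, ⟨x ++ [b], rfl⟩, rfl⟩, ⟨u, by simpa using hu, e.2⟩, ?_⟩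
      rintro w' ⟨u', hu', e'⟩
      exact ⟨b :: u', by simpa using hu', by simp [e.1, e']⟩
  · intro w hw
    exact ⟨_, ⟨_, ⟨[], rfl⟩, rfl⟩, hw, fun w' hw' => hw'⟩

inductive Ch {α σ : Type} (E : σ → Language α) (B : σ → σ → Language α) : σ → List α → Prop
  | fin {s w} : w ∈ E s → Ch E B s w
  | step {s s' u w} : u ∈ B s s' → Ch E B s' w → Ch E B s (u ++ w)

theorem reg_ch {α σ : Type} [Finite σ] (E : σ → Language α) (B : σ → σ → Language α)
    (hE : ∀ s, (E s).IsRegular) (hB : ∀ s s', (B s s').IsRegular) (s : σ) :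
    Language.IsRegular {w | Ch E B s w} := by
  let T : σ → Language α → Language α := fun s' X => {w | ∃ u ∈ X, ∃ v, Ch E B s' v ∧ w = u ++ v}
  let F : Set (Language α) := (⋃ s, Set.range (E s).leftQuotient) ∪
    ⋃ s, ⋃ s', T s' '' Set.range (B s s').leftQuotient
  have hF : F.Finite := (Set.finite_iUnion fun s => (hE s).finite_range_leftQuotient).union
    (Set.finite_iUnion fun s => Set.finite_iUnion fun s' =>
      (hB s s').finite_range_leftQuotient.image _)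
  have m1 : ∀ s x, (E s).leftQuotient x ∈ F := fun s x => Or.inl (Set.mem_iUnion.2 ⟨s, x, rfl⟩)
  have m2 : ∀ s s' x, T s' ((B s s').leftQuotient x) ∈ F := fun s s' x =>
    Or.inr (Set.mem_iUnion.2 ⟨s, Set.mem_iUnion.2 ⟨s', _, ⟨x, rfl⟩, rfl⟩⟩)
  have key : ∀ s v, Ch E B s v → ∀ a w, v = a :: w →
      ∃ Y ∈ F, w ∈ Y ∧ ∀ w' ∈ Y, Ch E B s (a :: w') := by
    intro s v hv
    induction hv with
    | @fin s v h =>
      rintro a w rfl
      exact ⟨_, m1 s [a], h, fun w' hw' => Ch.fin hw'⟩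
    | @step s s' u v h1 h2 ih =>
      intro a w e
      cases u with
      | nil =>
        obtain ⟨Y, hY, q1, q2⟩ := ih a w e
        exact ⟨Y, hY, q1, fun w' hw' => Ch.step (u := []) h1 (q2 w' hw')⟩
      | cons b u =>
        simp only [List.cons_append, List.cons.injEq] at e
        obtain ⟨rfl, rfl⟩ := e
        refine ⟨_, m2 s s' [b], ⟨u, h1, v, h2, rfl⟩, ?_⟩
        rintro _ ⟨u', q1, v', q2, rfl⟩
        exact Ch.step (u := b :: u') q1 q2
  refine reg_of_family F hF ?_ _ ?_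
  · rintro X (hX | hX) a w hw
    · obtain ⟨s, x, rfl⟩ := Set.mem_iUnion.1 hX
      exact ⟨_, m1 s (x ++ [a]), by simpa using hw, fun w' hw' => by simpa using hw'⟩
    · obtain ⟨s, hX⟩ := Set.mem_iUnion.1 hX
      obtain ⟨s', _, ⟨x, rfl⟩, rfl⟩ := Set.mem_iUnion.1 hX
      obtain ⟨u, h1, v, h2, e⟩ := hw
      cases u with
      | nil =>
        obtain ⟨Y, hY, q1, q2⟩ := key s' v h2 a w e.symm
        exact ⟨Y, hY, q1, fun w' hw' => ⟨[], h1, _, q2 w' hw', rfl⟩⟩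
      | cons b u =>
        simp only [List.cons_append, List.cons.injEq] at e
        obtain ⟨rfl, rfl⟩ := e
        refine ⟨_, m2 s s' (x ++ [a]), ⟨u, by simpa using h1, v, h2, rfl⟩, ?_⟩
        rintro _ ⟨u', q1, v', q2, rfl⟩
        exact ⟨a :: u', by simpa using q1, v', q2, rfl⟩
  · intro w hw
    cases hw with
    | fin h => exact ⟨_, m1 s [], h, fun w' hw' => Ch.fin hw'⟩
    | @step _ s' u v h1 h2 =>
      refine ⟨_, m2 s s' [], ⟨u, h1, v, h2, rfl⟩, ?_⟩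
      rintro _ ⟨u', q1, v', q2, rfl⟩
      exact Ch.step q1 q2

/-- eventually periodic subsets of pairs of naturals -/
def EP (A : ℕ → ℕ → Prop) : Prop :=
  ∃ P N : ℕ, 0 < P ∧ (∀ m n, N ≤ m → (A (m + P) n ↔ A m n)) ∧ ∀ m n, N ≤ n → (A m (n + P) ↔ A m n)

lemma per_mul {β : Sort*} {f : ℕ → β} {P N : ℕ} (h : ∀ m, N ≤ m → f (m + P) = f m) (k m : ℕ)
    (hm : N ≤ m) : f (m + P * k) = f m := by
  induction k with
  | zero => rfl
  | succ k ih => rw [Nat.mul_succ, ← add_assoc, h _ (by omega), ih]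

lemma per_red {β : Sort*} {P N : ℕ} (hP : 0 < P) (a : ℕ) :
    ∃ a' < N + P, ∀ f : ℕ → β, (∀ m, N ≤ m → f (m + P) = f m) → f a = f a' := by
  by_cases h : a < N
  · exact ⟨a, by omega, fun _ _ => rfl⟩
  · refine ⟨N + (a - N) % P, by have := Nat.mod_lt (a - N) hP; omega, fun f hf => ?_⟩
    rw [← per_mul hf ((a - N) / P) (N + (a - N) % P) (by omega)]
    congr 1
    have := Nat.mod_add_div (a - N) P
    omega

lemma EP.not {A : ℕ → ℕ → Prop} (h : EP A) : EP fun m n => ¬ A m n := by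
  obtain ⟨P, N, h0, h1, h2⟩ := h
  exact ⟨P, N, h0, fun m n q => not_congr (h1 m n q), fun m n q => not_congr (h2 m n q)⟩

lemma EP.and {A B : ℕ → ℕ → Prop} (h : EP A) (h' : EP B) : EP fun m n => A m n ∧ B m n := by
  obtain ⟨P, N, h0, h1, h2⟩ := h
  obtain ⟨P', N', h0', h1', h2'⟩ := h'
  refine ⟨P * P', max N N', by positivity, fun m n q => and_congr ?_ ?_,
    fun m n q => and_congr ?_ ?_⟩
  · exact iff_of_eq (per_mul (f := fun m => A m n) (fun m q => propext (h1 m n q)) _ _ (by omega))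
  · rw [mul_comm]
    exact iff_of_eq (per_mul (f := fun m => B m n) (fun m q => propext (h1' m n q)) _ _ (by omega))
  · exact iff_of_eq (per_mul (f := fun n => A m n) (fun n q => propext (h2 m n q)) _ _ (by omega))
  · rw [mul_comm]
    exact iff_of_eq (per_mul (f := fun n => B m n) (fun n q => propext (h2' m n q)) _ _ (by omega))

lemma EP.congr {A B : ℕ → ℕ → Prop} (h : EP A) (e : ∀ m n, A m n ↔ B m n) : EP B := by
  have : A = B := by ext m n; exact e m n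
  exact this ▸ h

lemma EP.or {A B : ℕ → ℕ → Prop} (h : EP A) (h' : EP B) : EP fun m n => A m n ∨ B m n :=
  (h.not.and h'.not).not.congr fun _ _ => by tauto

lemma EP.const (p : Prop) : EP fun _ _ => p := ⟨1, 0, one_pos, fun _ _ _ => Iff.rfl, fun _ _ _ => Iff.rfl⟩

lemma EP.bdd {A : ℕ → ℕ → Prop} (C : ℕ) (h : ∀ m n, A m n → m ≤ C ∧ n ≤ C) : EP A :=
  ⟨1, C + 1, one_pos, fun m n q => iff_of_false (fun r => by have := h _ _ r; omega)
    (fun r => by have := h _ _ r; omega), fun m n q => iff_of_false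
    (fun r => by have := h _ _ r; omega) (fun r => by have := h _ _ r; omega)⟩

lemma EP.all {ι : Type} {s : Set ι} (hs : s.Finite) {A : ι → ℕ → ℕ → Prop}
    (h : ∀ i ∈ s, EP (A i)) : EP fun m n => ∀ i ∈ s, A i m n := by
  induction s, hs using Set.Finite.induction_on with
  | empty => exact (EP.const True).congr (by simp)
  | insert _ _ ih =>
    exact ((h _ (Set.mem_insert _ _)).and (ih fun i hi => h i (Set.mem_insert_of_mem _ hi))).congr
      (by simp)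

lemma EP.ex {ι : Type} {s : Set ι} (hs : s.Finite) {A : ι → ℕ → ℕ → Prop}
    (h : ∀ i ∈ s, EP (A i)) : EP fun m n => ∃ i ∈ s, A i m n :=
  (EP.all hs fun i hi => (h i hi).not).not.congr (by simp)

theorem reg_two {α : Type} (a b : α) (z : List α) {A : ℕ → ℕ → Prop} (h : EP A) :
    Language.IsRegular {w | ∃ m n, A m n ∧ w = List.replicate m a ++ (List.replicate n b ++ z)} := by
  obtain ⟨P, N, h0, h1, h2⟩ := h
  let X : ℕ → Language α := fun i =>
    {w | ∃ m n, A (m + i) n ∧ w = List.replicate m a ++ (List.replicate n b ++ z)}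
  let Y : ℕ → ℕ → Language α := fun i j => {w | ∃ n, A i (n + j) ∧ w = List.replicate n b ++ z}
  let Z : ℕ → Language α := fun k => {w | w = z.drop k}
  have hX : (Set.range X).Finite := by
    refine ((Set.finite_lt_nat (N + P)).image X).subset ?_
    rintro _ ⟨i, rfl⟩
    obtain ⟨i', q1, q2⟩ := per_red (β := Language α) (N := N) h0 i
    refine ⟨i', q1, (q2 X fun m hm => ?_).symm⟩
    ext w
    refine exists_congr fun m' => exists_congr fun n => and_congr_left' ?_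
    rw [← add_assoc]; exact h1 _ _ (by omega)
  have hY : (Set.range fun q : ℕ × ℕ => Y q.1 q.2).Finite := by
    refine (((Set.finite_lt_nat (N + P)).prod (Set.finite_lt_nat (N + P))).image
      fun q : ℕ × ℕ => Y q.1 q.2).subset ?_
    rintro _ ⟨⟨i, j⟩, rfl⟩
    obtain ⟨i', q1, q2⟩ := per_red (β := Language α) (N := N) h0 i
    obtain ⟨j', q3, q4⟩ := per_red (β := Language α) (N := N) h0 j
    refine ⟨(i', j'), ⟨q1, q3⟩, ?_⟩
    have e1 := q2 (fun i => Y i j) fun m hm => by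
      ext w
      exact exists_congr fun n => and_congr_left' (h1 _ _ hm)
    have e2 := q4 (Y i') fun m hm => by
      ext w
      refine exists_congr fun n => and_congr_left' ?_
      rw [← add_assoc]; exact h2 _ _ (by omega)
    exact (e1.trans e2).symm
  have hZ : (Set.range Z).Finite := by
    refine ((Set.finite_lt_nat (z.length + 1)).image Z).subset ?_
    rintro _ ⟨i, rfl⟩
    obtain ⟨i', q1, q2⟩ := per_red (β := Language α) (N := z.length) one_pos i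
    refine ⟨i', q1, (q2 Z fun m hm => ?_).symm⟩
    simp only [Z, List.drop_eq_nil_of_le hm, List.drop_eq_nil_of_le (show z.length ≤ m + 1 by omega)]
  have kz : ∀ k c w, c :: w = z.drop k → w ∈ Z (k + 1) ∧ ∀ w' ∈ Z (k + 1), c :: w' = z.drop k := by
    intro k c w e
    have : w = z.drop (k + 1) := by rw [← List.tail_drop, ← e]; rfl
    exact ⟨this, fun w' hw' => by rw [← e, this]; exact congrArg _ hw'⟩
  have ky : ∀ i j c w, c :: w ∈ Y i j → ∃ T ∈ Set.range X ∪ (Set.range fun q : ℕ × ℕ => Y q.1 q.2)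
      ∪ Set.range Z, w ∈ T ∧ ∀ w' ∈ T, c :: w' ∈ Y i j := by
    rintro i j c w ⟨n, q, e⟩
    cases n with
    | zero =>
      obtain ⟨r1, r2⟩ := kz 0 c w e
      exact ⟨_, Or.inr ⟨1, rfl⟩, r1, fun w' hw' => ⟨0, q, r2 w' hw'⟩⟩
    | succ n =>
      simp only [List.replicate_succ, List.cons_append, List.cons.injEq] at e
      refine ⟨_, Or.inl (Or.inr ⟨(i, j + 1), rfl⟩), ⟨n, by rwa [add_comm j, ← add_assoc], e.2⟩, ?_⟩
      rintro _ ⟨n', q', rfl⟩
      exact ⟨n' + 1, by rwa [add_assoc, add_comm 1], by rw [e.1]; rfl⟩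
  refine reg_of_family _ ((hX.union hY).union hZ) ?_ _ fun w hw =>
    ⟨X 0, Or.inl (Or.inl ⟨0, rfl⟩), hw, fun _ h => h⟩
  rintro _ ((⟨i, rfl⟩ | ⟨⟨i, j⟩, rfl⟩) | ⟨k, rfl⟩) c w hw
  · obtain ⟨m, n, q, e⟩ := hw
    cases m with
    | zero =>
      obtain ⟨T, r1, r2, r3⟩ := ky i 0 c w ⟨n, by simpa using q, e⟩
      refine ⟨T, r1, r2, fun w' hw' => ?_⟩
      obtain ⟨n', q', e'⟩ := r3 w' hw'
      exact ⟨0, n', by simpa using q', e'⟩
    | succ m =>
      simp only [List.replicate_succ, List.cons_append, List.cons.injEq] at e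
      refine ⟨_, Or.inl (Or.inl ⟨i + 1, rfl⟩), ⟨m, n, by rwa [add_comm i, ← add_assoc], e.2⟩, ?_⟩
      rintro _ ⟨m', n', q', rfl⟩
      exact ⟨m' + 1, n', by rwa [add_assoc, add_comm 1], by rw [e.1]; rfl⟩
  · exact ky i j c w hw
  · obtain ⟨r1, r2⟩ := kz k c w hw
    exact ⟨_, Or.inr ⟨k + 1, rfl⟩, r1, r2⟩

/-- quasi-linear functions -/
def QL (f : Z2 → ℚ) (ψ : Z2 →+ ℚ) : Prop :=
  ∃ P : ℕ, 0 < P ∧ ∀ v w, f (v + (P : ℤ) • w) = f v + P * ψ w

lemma QL.mul {f : Z2 → ℚ} {ψ : Z2 →+ ℚ} {P : ℕ}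
    (h : ∀ v w, f (v + (P : ℤ) • w) = f v + P * ψ w) (k : ℕ) (v w : Z2) :
    f (v + ((P * k : ℕ) : ℤ) • w) = f v + (P * k : ℕ) * ψ w := by
  have := h v ((k : ℤ) • w)
  rw [smul_smul, map_zsmul] at this
  push_cast
  rw [this]; simp [mul_assoc]

lemma QL.lin (ψ : Z2 →+ ℚ) : QL ψ ψ := ⟨1, one_pos, fun v w => by simp⟩
lemma QL.const (c : ℚ) : QL (fun _ => c) 0 := ⟨1, one_pos, fun v w => by simp⟩
lemma QL.add {f g : Z2 → ℚ} {ψ χ : Z2 →+ ℚ} (h : QL f ψ) (h' : QL g χ) :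
    QL (fun v => f v + g v) (ψ + χ) := by
  obtain ⟨P, h0, h1⟩ := h
  obtain ⟨P', h0', h1'⟩ := h'
  refine ⟨P * P', by positivity, fun v w => ?_⟩
  have a := QL.mul h1 P' v w
  have b := QL.mul h1' P v w
  rw [mul_comm P' P] at b
  simp only [AddMonoidHom.add_apply]
  rw [a, b]; ring
lemma QL.smul {f : Z2 → ℚ} {ψ : Z2 →+ ℚ} (h : QL f ψ) (r : ℚ) : QL (fun v => r * f v) (r • ψ) := by
  obtain ⟨P, h0, h1⟩ := h
  exact ⟨P, h0, fun v w => by simp only [h1, AddMonoidHom.smul_apply, smul_eq_mul]; ring⟩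
lemma QL.congr {f g : Z2 → ℚ} {ψ χ : Z2 →+ ℚ} (h : QL f ψ) (e : ∀ v, f v = g v)
    (e' : ∀ v, ψ v = χ v) : QL g χ := by
  obtain rfl : f = g := funext e
  obtain rfl : ψ = χ := AddMonoidHom.ext e'
  exact h

lemma lin_eq (ψ : Z2 →+ ℚ) (w : Z2) : ψ w = w.1 * ψ (1, 0) + w.2 * ψ (0, 1) := by
  conv_lhs => rw [show w = w.1 • ((1, 0) : Z2) + w.2 • ((0, 1) : Z2) by ext <;> simp]
  rw [map_add, map_zsmul, map_zsmul]; simp

lemma QL.floor {f : Z2 → ℚ} {ψ : Z2 →+ ℚ} (h : QL f ψ) : QL (fun v => (⌊f v⌋ : ℚ)) ψ := by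
  obtain ⟨P, h0, h1⟩ := h
  refine ⟨P * ((ψ (1, 0)).den * (ψ (0, 1)).den), by positivity, fun v w => ?_⟩
  have a := QL.mul h1 ((ψ (1, 0)).den * (ψ (0, 1)).den) v w
  have b : ((P * ((ψ (1, 0)).den * (ψ (0, 1)).den) : ℕ) : ℚ) * ψ w =
      ((P * (w.1 * (ψ (1, 0)).num * (ψ (0, 1)).den + w.2 * (ψ (0, 1)).num * (ψ (1, 0)).den) : ℤ)
        : ℚ) := by
    rw [lin_eq ψ w]
    push_cast
    rw [← Rat.mul_den_eq_num, ← Rat.mul_den_eq_num]; ring
  simp only
  rw [a, b, Int.floor_add_intCast]; push_cast; rfl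

lemma QL.ep {f : Z2 → ℚ} {ψ : Z2 →+ ℚ} (h : QL f ψ) {a b : Z2} (d : Z2) (ha : 0 ≤ ψ a)
    (hb : 0 ≤ ψ b) (T : ℚ → Prop) (hT : ∀ x, 1 ≤ x → T x) :
    EP fun m n => T (f ((m : ℤ) • a + (n : ℤ) • b + d)) := by
  obtain ⟨P, h0, h1⟩ := h
  have hP : (1 : ℚ) ≤ P := by exact_mod_cast h0
  obtain ⟨c, hc⟩ : ∃ c : ℚ, ∀ m < P, ∀ n < P, c ≤ f ((m : ℤ) • a + (n : ℤ) • b + d) := by
    obtain ⟨c, hc⟩ := (((Set.finite_lt_nat P).prod (Set.finite_lt_nat P)).image
      fun q : ℕ × ℕ => f ((q.1 : ℤ) • a + (q.2 : ℤ) • b + d)).bddBelow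
    exact ⟨c, fun m hm n hn => hc ⟨(m, n), ⟨hm, hn⟩, rfl⟩⟩
  have low : ∀ m n : ℕ, c + (m / P : ℕ) * ψ a + (n / P : ℕ) * ψ b ≤
      f ((m : ℤ) • a + (n : ℤ) • b + d) := by
    intro m n
    have e := h1 (((m % P : ℕ) : ℤ) • a + ((n % P : ℕ) : ℤ) • b + d)
      (((m / P : ℕ) : ℤ) • a + ((n / P : ℕ) : ℤ) • b)
    have e1 : (m : ℤ) = (m % P : ℕ) + P * (m / P : ℕ) := by exact_mod_cast (Nat.mod_add_div m P).symm
    have e2 : (n : ℤ) = (n % P : ℕ) + P * (n / P : ℕ) := by exact_mod_cast (Nat.mod_add_div n P).symm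
    have e3 : (m : ℤ) • a + (n : ℤ) • b + d = (((m % P : ℕ) : ℤ) • a + ((n % P : ℕ) : ℤ) • b + d) +
        (P : ℤ) • (((m / P : ℕ) : ℤ) • a + ((n / P : ℕ) : ℤ) • b) := by
      conv_lhs => rw [e1, e2]
      module
    rw [e3, e, map_add, map_zsmul, map_zsmul, zsmul_eq_mul ((ψ a)), zsmul_eq_mul ((ψ b))]
    have := hc _ (Nat.mod_lt m h0) _ (Nat.mod_lt n h0)
    have p1 : 0 ≤ ((m / P : ℕ) : ℚ) * ψ a := by positivity
    have p2 : 0 ≤ ((n / P : ℕ) : ℚ) * ψ b := by positivity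
    simp only [Int.cast_natCast]
    linarith only [this, hP, p1, p2, mul_nonneg_of_nonpos_of_nonpos (Mathlib.Tactic.Linarith.sub_nonpos_of_le hP) (Mathlib.Tactic.Linarith.sub_nonpos_of_le p1), mul_nonneg_of_nonpos_of_nonpos (Mathlib.Tactic.Linarith.sub_nonpos_of_le hP) (Mathlib.Tactic.Linarith.sub_nonpos_of_le p2)]
  have big : ∀ x : ℚ, 0 ≤ x → ∃ N : ℕ, x ≠ 0 → ∀ m, N ≤ m → 1 ≤ c + (m / P : ℕ) * x := by
    intro x hx
    obtain ⟨q, hq⟩ := exists_nat_ge ((1 - c) / x)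
    refine ⟨q * P, fun h m hm => ?_⟩
    have x0 : 0 < x := lt_of_le_of_ne hx h.symm
    have : q ≤ m / P := (Nat.le_div_iff_mul_le h0).2 hm
    have : (q : ℚ) ≤ (m / P : ℕ) := by exact_mod_cast this
    rw [div_le_iff₀ x0] at hq
    linarith only [hq, hx, this, mul_nonneg_of_nonpos_of_nonpos (Mathlib.Tactic.Linarith.sub_nonpos_of_le hx) (Mathlib.Tactic.Linarith.sub_nonpos_of_le this)]
  obtain ⟨N1, k1⟩ := big _ ha
  obtain ⟨N2, k2⟩ := big _ hb
  refine ⟨P, max N1 N2, h0, fun m n q => ?_, fun m n q => ?_⟩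
  · by_cases z : ψ a = 0
    · have e := h1 ((m : ℤ) • a + (n : ℤ) • b + d) a
      rw [z, mul_zero, add_zero] at e
      simp only
      rw [← e]
      congr! 2; push_cast; module
    · have p : ∀ m, N1 ≤ m → T (f ((m : ℤ) • a + (n : ℤ) • b + d)) := fun m hm => hT _ (by
        have := k1 z m hm
        have := low m n
        have : 0 ≤ ((n / P : ℕ) : ℚ) * ψ b := by positivity
        linarith)
      exact iff_of_true (p _ (by omega)) (p _ (by omega))
  · by_cases z : ψ b = 0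
    · have e := h1 ((m : ℤ) • a + (n : ℤ) • b + d) b
      rw [z, mul_zero, add_zero] at e
      simp only
      rw [← e]
      congr! 2; push_cast; module
    · have p : ∀ n, N2 ≤ n → T (f ((m : ℤ) • a + (n : ℤ) • b + d)) := fun n hn => hT _ (by
        have := k2 z n hn
        have := low m n
        have : 0 ≤ ((m / P : ℕ) : ℚ) * ψ a := by positivity
        linarith)
      exact iff_of_true (p _ (by omega)) (p _ (by omega))

lemma QL.ep_ge {f : Z2 → ℚ} {ψ : Z2 →+ ℚ} (h : QL f ψ) {a b : Z2} (d : Z2) (hab : 0 ≤ ψ a * ψ b) :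
    EP fun m n => 0 ≤ f ((m : ℤ) • a + (n : ℤ) • b + d) := by
  rcases mul_nonneg_iff.1 hab with ⟨ha, hb⟩ | ⟨ha, hb⟩
  · exact h.ep d ha hb (fun x => 0 ≤ x) fun x hx => by linarith
  · refine ((h.smul (-1)).ep (a := a) (b := b) d (by simpa using ha) (by simpa using hb)
      (fun x => 0 < x) fun x hx => by linarith).not.congr fun m n => by simp

def SecRec (R : Finset Z2) (A : Z2 → Prop) : Prop :=
  ∀ a b d, Sector R a b → EP fun m n => A ((m : ℤ) • a + (n : ℤ) • b + d)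

/-- the functional does not change sign on any sector -/
def Tame (R : Finset Z2) (ψ : Z2 →+ ℚ) : Prop := ∀ a b, Sector R a b → 0 ≤ ψ a * ψ b

lemma tame_of_ker {R : Finset Z2} {ψ : Z2 →+ ℚ} {s : Z2} (hs : s ∈ R) (h0 : s ≠ 0) (h : ψ s = 0) :
    Tame R ψ := by
  intro a b hab
  have q : (0 : ℚ) ≤ det s a * det s b := by exact_mod_cast hab.2.2.2 s hs
  have p : (0 : ℚ) < s.1 ^ 2 + s.2 ^ 2 := by
    by_contra c
    have c1 : (s.1 : ℚ) = 0 := by nlinarith [sq_nonneg (s.1 : ℚ), sq_nonneg (s.2 : ℚ)]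
    have c2 : (s.2 : ℚ) = 0 := by nlinarith [sq_nonneg (s.1 : ℚ), sq_nonneg (s.2 : ℚ)]
    exact h0 (Prod.ext (by exact_mod_cast c1) (by exact_mod_cast c2))
  rw [lin_eq] at h
  have e : (s.1 ^ 2 + s.2 ^ 2) * (ψ a * ψ b) =
      (ψ (1, 0) ^ 2 + ψ (0, 1) ^ 2) * (det s a * det s b) := by
    rw [lin_eq ψ a, lin_eq ψ b]
    simp only [det]; push_cast
    linear_combination ((s.1 * ψ (1, 0) - s.2 * ψ (0, 1)) * (a.1 * b.1 - a.2 * b.2) +
      (s.1 * ψ (0, 1) + s.2 * ψ (1, 0)) * (a.1 * b.2 + a.2 * b.1)) * h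
  by_contra c
  have : 0 ≤ (ψ (1, 0) ^ 2 + ψ (0, 1) ^ 2) * (det s a * det s b) := by positivity
  linarith only [e, this, p, c, mul_pos_of_neg_of_neg (Mathlib.Tactic.Linarith.sub_neg_of_lt p) (Mathlib.Tactic.Linarith.sub_neg_of_lt (lt_of_not_ge c))]

lemma tame_zero (R : Finset Z2) : Tame R 0 := fun _ _ _ => by simp

lemma Tame.smul {R : Finset Z2} {ψ : Z2 →+ ℚ} (h : Tame R ψ) (r : ℚ) : Tame R (r • ψ) := by
  intro a b hab
  have := mul_nonneg (mul_self_nonneg r) (h a b hab)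
  simp only [AddMonoidHom.smul_apply, smul_eq_mul]
  linarith

section sec
variable {R : Finset Z2} {A B : Z2 → Prop}

lemma SecRec.not (h : SecRec R A) : SecRec R fun v => ¬ A v := fun a b d s => (h a b d s).not
lemma SecRec.and (h : SecRec R A) (h' : SecRec R B) : SecRec R fun v => A v ∧ B v :=
  fun a b d s => (h a b d s).and (h' a b d s)
lemma SecRec.or (h : SecRec R A) (h' : SecRec R B) : SecRec R fun v => A v ∨ B v :=
  fun a b d s => (h a b d s).or (h' a b d s)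
lemma SecRec.congr (h : SecRec R A) (e : ∀ v, A v ↔ B v) : SecRec R B :=
  fun a b d s => (h a b d s).congr fun _ _ => e _
lemma SecRec.imp (h : SecRec R A) (h' : SecRec R B) : SecRec R fun v => A v → B v :=
  (h.not.or h').congr fun _ => by tauto
lemma SecRec.const (p : Prop) : SecRec R fun _ => p := fun _ _ _ _ => EP.const p
lemma SecRec.all {ι : Type} {s : Set ι} (hs : s.Finite) {A : ι → Z2 → Prop}
    (h : ∀ i ∈ s, SecRec R (A i)) : SecRec R fun v => ∀ i ∈ s, A i v :=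
  fun a b d q => EP.all hs fun i hi => h i hi a b d q
lemma SecRec.ex {ι : Type} {s : Set ι} (hs : s.Finite) {A : ι → Z2 → Prop}
    (h : ∀ i ∈ s, SecRec R (A i)) : SecRec R fun v => ∃ i ∈ s, A i v :=
  fun a b d q => EP.ex hs fun i hi => h i hi a b d q
lemma QL.ge {f : Z2 → ℚ} {ψ : Z2 →+ ℚ} (h : QL f ψ) (t : Tame R ψ) : SecRec R fun v => 0 ≤ f v :=
  fun a b d s => h.ep_ge d (t a b s)
lemma QL.le {f : Z2 → ℚ} {ψ : Z2 →+ ℚ} (h : QL f ψ) (t : Tame R ψ) : SecRec R fun v => f v ≤ 0 :=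
  ((h.smul (-1)).ge (t.smul _)).congr fun _ => by simp
lemma QL.eq {f : Z2 → ℚ} {ψ : Z2 →+ ℚ} (h : QL f ψ) (t : Tame R ψ) : SecRec R fun v => f v = 0 :=
  ((h.ge t).and (h.le t)).congr fun _ => ⟨fun q => le_antisymm q.2 q.1, fun q => ⟨q.ge, q.le⟩⟩

end sec

end Pool.Agent.Work.MP_0909b4_al
end

-- merged part: Pool.Agent.Work.MP_0909b4_al.Local
section
-- merged part: Pool.Agent.Work.MP_0909b4_al.Corridor
section
/-! Abstract corridors: crossing positions and codes along a chain of planes. -/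

namespace Pool.Agent.Work.MP_0909b4_al

structure Plane where
  Φ : ℤ → ℤ → ℤ
  Ξ : ℤ → ℤ → ℤ
  len : ℤ → ℤ → ℤ

def Kc (L p c : ℤ) : Prop := -L ≤ c ∧ c ≤ L ∧ c % 2 = p

def Dec (L p : ℤ) (t : ℤ → ℤ) (x c : ℤ) : Prop :=
  ∀ k, Kc L p k → (k ≤ c → x ≤ t k) ∧ (c ≤ k → t k ≤ x)

def Inc (L p : ℤ) (b : ℤ → ℤ) (y c : ℤ) : Prop :=
  ∀ j, Kc L p j → (j ≤ c → b j ≤ y) ∧ (c ≤ j → y ≤ b j)

def Plane.rev (P : Plane) : Plane := ⟨fun k => P.Ξ (-k), fun j => P.Φ (-j), fun y x => P.len x y⟩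

def Below (L p : ℤ) (P : Plane) (k x y : ℤ) : Prop := ∀ j, Kc L (1 - p) j → k < j → y < P.Ξ j x
def Above (L p : ℤ) (P : Plane) (k x y : ℤ) : Prop := ∀ j, Kc L (1 - p) j → j < k → P.Ξ j x < y

def Fw (L p : ℤ) (P : Plane) (M M' : ℤ → ℤ) : Prop :=
  ∀ k, Kc L p k → ∀ x y x' y', P.Φ k y ≤ x → x ≤ x' → x' ≤ P.Φ k y' → P.Φ k y < P.Φ k y' →
    ∃ k', Kc L p k' ∧
      ((y < y' ∧ Below L p P k' x y ∧ Above L p P k' x' y') ∨
        (y' < y ∧ Below L p P k' x' y' ∧ Above L p P k' x y)) ∧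
      (|y' - y| ≤ M' k' → x' - x ≤ M k ∧ Below L p P k' x y ∧ Above L p P k' x y ∧
        Below L p P k' x' y' ∧ Above L p P k' x' y' ∧
        (x = P.Φ k y → x' = P.Φ k y' →
          (|y' - y| = M' k' → x' - x = M k ∧ P.len x y = P.len x' y') ∧
          (P.len x y = P.len x' y' ∨ x' - x = M k)))

def Out (L p : ℤ) (P : Plane) (x y c : ℤ) : Prop := Dec L p (fun k => P.Φ k y) x c
def In (L p : ℤ) (P : Plane) (x y d : ℤ) : Prop := Inc L (1 - p) (fun j => P.Ξ j x) y d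

lemma Kc.neg {L p c : ℤ} (h : Kc L p c) : Kc L p (-c) := by
  unfold Kc at *; omega

lemma dec_iff_inc {L p : ℤ} {t : ℤ → ℤ} {x c : ℤ} :
    Inc L p (fun j => t (-j)) x (-c) ↔ Dec L p t x c := by
  constructor
  · intro h k hk
    have := h (-k) hk.neg
    simp only [neg_neg] at this
    exact ⟨fun h1 => this.2 (by omega), fun h1 => this.1 (by omega)⟩
  · intro h k hk
    have := h (-k) hk.neg
    exact ⟨fun h1 => this.2 (by omega), fun h1 => this.1 (by omega)⟩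

lemma inc_iff_dec {L p : ℤ} {t : ℤ → ℤ} {x c : ℤ} :
    Dec L p (fun j => t (-j)) x (-c) ↔ Inc L p t x c := by
  constructor
  · intro h k hk
    have := h (-k) hk.neg
    simp only [neg_neg] at this
    exact ⟨fun h1 => this.2 (by omega), fun h1 => this.1 (by omega)⟩
  · intro h k hk
    have := h (-k) hk.neg
    exact ⟨fun h1 => this.2 (by omega), fun h1 => this.1 (by omega)⟩

lemma out_rev {L p : ℤ} {P : Plane} {x y d : ℤ} :
    Out L (1 - p) P.rev y x (-d) ↔ In L p P x y d := inc_iff_dec (t := fun j => P.Ξ j x)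

lemma in_rev {L p : ℤ} {P : Plane} {x y c : ℤ} :
    In L (1 - p) P.rev y x (-c) ↔ Out L p P x y c := by
  unfold In Out
  rw [show 1 - (1 - p) = p by ring]
  exact dec_iff_inc (t := fun k => P.Φ k y)

lemma le_of_below {L p : ℤ} (_hp : p = 0 ∨ p = 1) {P : Plane} {x y d k : ℤ} (hk : Kc L p k)
    (hd : d ≤ L) (hin : In L p P x y d) (hb : Below L p P k x y) : d ≤ k := by
  by_contra hc
  have hj : Kc L (1 - p) (k + 1) := by unfold Kc at *; omega
  have h1 := (hin (k + 1) hj).1 (by omega)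
  have h2 := hb (k + 1) hj (by omega)
  simp only at h1
  omega

lemma le_of_above {L p : ℤ} (_hp : p = 0 ∨ p = 1) {P : Plane} {x y d k : ℤ} (hk : Kc L p k)
    (hd : -L ≤ d) (hin : In L p P x y d) (hb : Above L p P k x y) : k ≤ d := by
  by_contra hc
  have hj : Kc L (1 - p) (k - 1) := by unfold Kc at *; omega
  have h1 := (hin (k - 1) hj).2 (by omega)
  have h2 := hb (k - 1) hj (by omega)
  simp only at h1
  omega

/-- a violation of the decreasing order propagates forward -/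
lemma viol {L p : ℤ} (hp : p = 0 ∨ p = 1) {P : Plane} {M M' : ℤ → ℤ} (hF : Fw L p P M M')
    {x y d x' y' d' k : ℤ} (hk : Kc L p k)
    (hd : -L ≤ d ∧ d ≤ L) (hd' : -L ≤ d' ∧ d' ≤ L)
    (hi : In L p P x y d) (hi' : In L p P x' y' d')
    (h1 : P.Φ k y ≤ x) (h2 : x ≤ x') (h3 : x' ≤ P.Φ k y') (h4 : P.Φ k y < P.Φ k y') :
    ∃ k', Kc L p k' ∧ ((y < y' ∧ d ≤ k' ∧ k' ≤ d') ∨ (y' < y ∧ d' ≤ k' ∧ k' ≤ d)) ∧
      (|y' - y| ≤ M' k' → x' - x ≤ M k ∧ d = k' ∧ d' = k' ∧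
        (x = P.Φ k y → x' = P.Φ k y' →
          (|y' - y| = M' k' → x' - x = M k ∧ P.len x y = P.len x' y') ∧
          (P.len x y = P.len x' y' ∨ x' - x = M k))) := by
  obtain ⟨k', hk', hA, hB⟩ := hF k hk x y x' y' h1 h2 h3 h4
  refine ⟨k', hk', ?_, ?_⟩
  · rcases hA with ⟨a, b, c⟩ | ⟨a, b, c⟩
    · exact Or.inl ⟨a, le_of_below hp hk' hd.2 hi b, le_of_above hp hk' hd'.1 hi' c⟩
    · exact Or.inr ⟨a, le_of_below hp hk' hd'.2 hi' b, le_of_above hp hk' hd.1 hi c⟩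
  · intro hs
    obtain ⟨a, b, c, e, f, g⟩ := hB hs
    exact ⟨a, le_antisymm (le_of_below hp hk' hd.2 hi b) (le_of_above hp hk' hd.1 hi c),
      le_antisymm (le_of_below hp hk' hd'.2 hi' e) (le_of_above hp hk' hd'.1 hi' f), g⟩

def Small (L p : ℤ) (M : ℤ → ℤ) (x c x' c' : ℤ) : Prop :=
  ∀ k, Kc L p k → (c ≤ k → k ≤ c' → x' - x ≤ M k) ∧ (c' ≤ k → k ≤ c → x - x' ≤ M k)

lemma Small.symm {L p : ℤ} {M : ℤ → ℤ} {x c x' c' : ℤ} (h : Small L p M x c x' c') :
    Small L p M x' c' x c := fun k hk => ⟨(h k hk).2, (h k hk).1⟩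

lemma viol_small {L p : ℤ} (hp : p = 0 ∨ p = 1) {P : Plane} {M M' : ℤ → ℤ} (hF : Fw L p P M M')
    {x y c d x' y' c' d' k : ℤ} (hk : Kc L p k)
    (hd : -L ≤ d ∧ d ≤ L) (hd' : -L ≤ d' ∧ d' ≤ L)
    (ho : Out L p P x y c) (ho' : Out L p P x' y' c')
    (hi : In L p P x y d) (hi' : In L p P x' y' d') (hs : Small L p M' y d y' d')
    (h1 : c ≤ k) (h2 : k ≤ c') (h3 : x < x') :
    x' - x ≤ M k ∧ y ≠ y' ∧ d = d' ∧ Kc L p d ∧
      (c = c' → (|y' - y| = M' d → x' - x = M k ∧ P.len x y = P.len x' y') ∧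
          (P.len x y = P.len x' y' ∨ x' - x = M k)) := by
  have a1 := (ho k hk).2 h1
  have a2 := (ho' k hk).1 h2
  simp only at a1 a2
  obtain ⟨k', hk', hA, hB⟩ := viol hp hF hk hd hd' hi hi' a1 h3.le a2 (by omega)
  have hsm : |y' - y| ≤ M' k' := by
    rcases hA with ⟨a, b, e⟩ | ⟨a, b, e⟩
    · have := (hs k' hk').1 b e
      rw [abs_of_pos (by omega)]; exact this
    · have := (hs k' hk').2 b e
      rw [abs_of_neg (by omega)]; omega
  obtain ⟨b1, b2, b3, b4⟩ := hB hsm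
  refine ⟨b1, by omega, by omega, b2 ▸ hk', fun hcc => ?_⟩
  have a3 := (ho k hk).1 (by omega)
  have a4 := (ho' k hk).2 (by omega)
  simp only at a3 a4
  rw [b2]
  exact b4 (by omega) (by omega)

lemma small_step {L p : ℤ} (hp : p = 0 ∨ p = 1) {P : Plane} {M M' : ℤ → ℤ} (hF : Fw L p P M M')
    (hM : ∀ k, Kc L p k → 0 ≤ M k)
    {x y c d x' y' c' d' : ℤ}
    (hd : -L ≤ d ∧ d ≤ L) (hd' : -L ≤ d' ∧ d' ≤ L)
    (ho : Out L p P x y c) (ho' : Out L p P x' y' c')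
    (hi : In L p P x y d) (hi' : In L p P x' y' d') (hs : Small L p M' y d y' d') :
    Small L p M x c x' c' := by
  intro k hk
  constructor
  · intro h1 h2
    by_cases h3 : x < x'
    · exact (viol_small hp hF hk hd hd' ho ho' hi hi' hs h1 h2 h3).1
    · have := hM k hk; omega
  · intro h1 h2
    by_cases h3 : x' < x
    · exact (viol_small hp hF hk hd' hd ho' ho hi' hi hs.symm h1 h2 h3).1
    · have := hM k hk; omega

lemma zero_step {L p : ℤ} (hp : p = 0 ∨ p = 1) {P : Plane} {M M' : ℤ → ℤ} (hF : Fw L p P M M')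
    {x y c d x' y' c' d' : ℤ}
    (hd : -L ≤ d ∧ d ≤ L) (hd' : -L ≤ d' ∧ d' ≤ L)
    (ho : Out L p P x y c) (ho' : Out L p P x' y' c')
    (hi : In L p P x y d) (hi' : In L p P x' y' d') (hs : Small L p (fun _ => 0) y d y' d') :
    Small L p (fun _ => 0) x c x' c' := by
  have key : ∀ {x y c d x' y' c' d' : ℤ}, (-L ≤ d ∧ d ≤ L) → (-L ≤ d' ∧ d' ≤ L) →
      Out L p P x y c → Out L p P x' y' c' → In L p P x y d → In L p P x' y' d' →
      Small L p (fun _ => 0) y d y' d' → ∀ k, Kc L p k → c ≤ k → k ≤ c' → x' - x ≤ 0 := by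
    intro x y c d x' y' c' d' hd hd' ho ho' hi hi' hs k hk h1 h2
    by_contra h3
    have a1 := (ho k hk).2 h1
    have a2 := (ho' k hk).1 h2
    simp only at a1 a2
    obtain ⟨k', hk', hA, -⟩ := viol hp hF hk hd hd' hi hi' a1 (by omega) a2 (by omega)
    have := hs k' hk'
    simp only at this
    omega
  intro k hk
  exact ⟨key hd hd' ho ho' hi hi' hs k hk, key hd' hd ho' ho hi' hi hs.symm k hk⟩

def Inner (L p : ℤ) (n : ℕ) (P : ℕ → Plane) (x c : ℕ → ℤ) : Prop :=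
  (∀ i ≤ n, -L ≤ c i ∧ c i ≤ L) ∧
    ∀ i < n, Out L p (P i) (x i) (x (i + 1)) (c i) ∧ In L p (P i) (x i) (x (i + 1)) (c (i + 1))

def drift (n : ℕ) (P : ℕ → Plane) (x x' : ℕ → ℤ) : ℤ :=
  ∑ i ∈ Finset.range n, |(P i).len (x i) (x (i + 1)) - (P i).len (x' i) (x' (i + 1))|

structure Chain (L p : ℤ) (n : ℕ) (P : ℕ → Plane) (Mo : ℕ → ℤ → ℤ) (Mx D : ℤ) : Prop where
  fw : ∀ i < n, Fw L p (P i) (Mo i) (Mo (i + 1))
  bw : ∀ i < n, Fw L (1 - p) (P i).rev (fun k => Mo (i + 1) (-k)) (fun k => Mo i (-k))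
  mo : ∀ i ≤ n, ∀ k, -L ≤ k → k ≤ L → 1 ≤ Mo i k ∧ Mo i k ≤ Mx
  lip : ∀ i < n, ∀ x y x' y', |x' - x| ≤ Mx → |y' - y| ≤ Mx →
    |(P i).len x y - (P i).len x' y'| ≤ D

lemma exists_viol {L p : ℤ} (hp : p = 0 ∨ p = 1) {x c x' c' : ℤ} (hc : -L ≤ c ∧ c ≤ L)
    (hc' : -L ≤ c' ∧ c' ≤ L) (hnb : Small L (1 - p) (fun _ => 0) x (-c) x' (-c')) (h : x < x') :
    ∃ k, Kc L p k ∧ c ≤ k ∧ k ≤ c' := by
  by_cases h1 : c % 2 = p ∧ c ≤ c'
  · exact ⟨c, ⟨hc.1, hc.2, h1.1⟩, le_rfl, h1.2⟩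
  by_cases h2 : c < c'
  · exact ⟨c + 1, ⟨by omega, by omega, by omega⟩, by omega, by omega⟩
  exfalso
  by_cases h3 : c % 2 = p
  · have := (hnb (-(c - 1)) ⟨by omega, by omega, by omega⟩).1 (by omega) (by omega)
    simp only at this; omega
  · have := (hnb (-c) ⟨by omega, by omega, by omega⟩).1 (by omega) (by omega)
    simp only at this; omega

theorem unit_fw {L p : ℤ} (hp : p = 0 ∨ p = 1) {n : ℕ} {P : ℕ → Plane} {Mo : ℕ → ℤ → ℤ}
    {Mx D : ℤ} (hMx : 0 ≤ Mx) (hD : 0 ≤ D) (C : Chain L p n P Mo Mx D) {x c x' c' : ℕ → ℤ}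
    (h : Inner L p n P x c) (h' : Inner L p n P x' c')
    (h0 : Small L (1 - p) (fun _ => 0) (x 0) (-c 0) (x' 0) (-c' 0))
    (hn : Small L p (fun _ => 1) (x n) (c n) (x' n) (c' n)) :
    (∀ i ≤ n, |x' i - x i| ≤ Mx) ∧ drift n P x x' ≤ 3 * D := by
  have hp' : 1 - p = 0 ∨ 1 - p = 1 := by omega
  have hnb : ∀ i ≤ n, Small L (1 - p) (fun _ => 0) (x i) (-c i) (x' i) (-c' i) := by
    intro i
    induction i with
    | zero => exact fun _ => h0
    | succ i ih =>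
      intro hi
      have a := h.1 i (by omega)
      have a' := h'.1 i (by omega)
      exact zero_step hp' (C.bw i (by omega)) (d := -c i) (d' := -c' i) (by omega) (by omega)
        (out_rev.2 (h.2 i (by omega)).2) (out_rev.2 (h'.2 i (by omega)).2)
        (in_rev.2 (h.2 i (by omega)).1) (in_rev.2 (h'.2 i (by omega)).1) (ih (by omega))
  have hsm : ∀ r, ∀ i, i + r = n → Small L p (Mo i) (x i) (c i) (x' i) (c' i) := by
    intro r
    induction r with
    | zero =>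
      intro i hi
      obtain rfl : i = n := by omega
      intro k hk
      have := C.mo i le_rfl k hk.1 hk.2.1
      have := hn k hk
      simp only at this
      omega
    | succ r ih =>
      intro i hi
      exact small_step hp (C.fw i (by omega))
        (fun k hk => by have := C.mo i (by omega) k hk.1 hk.2.1; omega)
        (h.1 (i + 1) (by omega)) (h'.1 (i + 1) (by omega)) (h.2 i (by omega)).1
        (h'.2 i (by omega)).1 (h.2 i (by omega)).2 (h'.2 i (by omega)).2 (ih (i + 1) (by omega))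
  have hsm' : ∀ i ≤ n, Small L p (Mo i) (x i) (c i) (x' i) (c' i) :=
    fun i hi => hsm (n - i) i (by omega)
  have hb : ∀ i ≤ n, |x' i - x i| ≤ Mx := by
    intro i hi
    rcases lt_trichotomy (x i) (x' i) with hl | hl | hl
    · obtain ⟨k, hk, a, b⟩ := exists_viol hp (h.1 i hi) (h'.1 i hi) (hnb i hi) hl
      have := (hsm' i hi k hk).1 a b
      have := C.mo i hi k hk.1 hk.2.1
      rw [abs_le]; omega
    · rw [hl]; simpa using hMx
    · obtain ⟨k, hk, a, b⟩ := exists_viol hp (h'.1 i hi) (h.1 i hi) (hnb i hi).symm hl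
      have := (hsm' i hi k hk).2 a b
      have := C.mo i hi k hk.1 hk.2.1
      rw [abs_le]; omega
  refine ⟨hb, ?_⟩
  have step : ∀ i < n, x i ≠ x' i → x (i + 1) ≠ x' (i + 1) ∧ c (i + 1) = c' (i + 1) ∧
      (c i = c' i → (|x' (i + 1) - x (i + 1)| = Mo (i + 1) (c (i + 1)) →
        |x' i - x i| = Mo i (c i) ∧
          (P i).len (x i) (x (i + 1)) = (P i).len (x' i) (x' (i + 1))) ∧
        ((P i).len (x i) (x (i + 1)) = (P i).len (x' i) (x' (i + 1)) ∨
          |x' i - x i| = Mo i (c i))) := by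
    intro i hi hne
    rcases lt_or_gt_of_ne hne with hl | hl
    · obtain ⟨k, hk, a, b⟩ := exists_viol hp (h.1 i hi.le) (h'.1 i hi.le) (hnb i hi.le) hl
      obtain ⟨-, e1, e2, -, e4⟩ := viol_small hp (C.fw i hi) hk (h.1 (i + 1) hi) (h'.1 (i + 1) hi)
        (h.2 i hi).1 (h'.2 i hi).1 (h.2 i hi).2 (h'.2 i hi).2 (hsm' (i + 1) hi) a b hl
      refine ⟨e1, e2, fun hcc => ?_⟩
      obtain rfl : k = c i := by omega
      rw [abs_of_pos (show 0 < x' i - x i by omega)]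
      exact e4 hcc
    · obtain ⟨k, hk, a, b⟩ := exists_viol hp (h'.1 i hi.le) (h.1 i hi.le) (hnb i hi.le).symm hl
      obtain ⟨-, e1, e2, -, e4⟩ := viol_small hp (C.fw i hi) hk (h'.1 (i + 1) hi) (h.1 (i + 1) hi)
        (h'.2 i hi).1 (h.2 i hi).1 (h'.2 i hi).2 (h.2 i hi).2 (hsm' (i + 1) hi).symm a b hl
      refine ⟨e1.symm, e2.symm, fun hcc => ?_⟩
      obtain rfl : k = c i := by omega
      rw [abs_sub_comm (x' i), abs_of_pos (show 0 < x i - x' i by omega), abs_sub_comm, ← e2]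
      obtain ⟨f1, f2⟩ := e4 hcc.symm
      exact ⟨fun q => ⟨(f1 q).1, (f1 q).2.symm⟩, f2.imp Eq.symm id⟩
  have inv : ∀ i ≤ n, drift i P x x' ≤ 3 * D ∧ (x i = x' i → drift i P x x' ≤ 0) ∧
      (c i ≠ c' i → drift i P x x' ≤ D) ∧ (|x' i - x i| = Mo i (c i) → drift i P x x' ≤ 2 * D) := by
    intro i
    induction i with
    | zero => intro _; simp only [drift, Finset.range_zero, Finset.sum_empty]; omega
    | succ i ih =>
      intro hi
      obtain ⟨i1, i2, i3, i4⟩ := ih (by omega)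
      have hd : drift (i + 1) P x x' = drift i P x x' +
          |(P i).len (x i) (x (i + 1)) - (P i).len (x' i) (x' (i + 1))| := by
        simp only [drift, Finset.sum_range_succ]
      have hl := C.lip i (by omega) (x i) (x (i + 1)) (x' i) (x' (i + 1)) (hb i (by omega))
        (hb (i + 1) hi)
      rw [hd]
      by_cases he : x i = x' i
      · have := i2 he
        refine ⟨by omega, fun q => ?_, fun _ => by omega, fun _ => by omega⟩
        rw [he, q]; simpa using this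
      · obtain ⟨s1, s2, s3⟩ := step i (by omega) he
        by_cases hc : c i = c' i
        · obtain ⟨s4, s5⟩ := s3 hc
          refine ⟨?_, fun q => absurd q s1, fun q => absurd s2 q, fun q => ?_⟩
          · rcases s5 with s5 | s5
            · rw [s5]; simpa using i1
            · have := i4 s5; omega
          · obtain ⟨s6, s7⟩ := s4 q
            rw [s7]; simpa using i4 s6
        · have := i3 hc
          exact ⟨by omega, fun q => absurd q s1, fun q => absurd s2 q, fun _ => by omega⟩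
  exact (inv n le_rfl).1

lemma Chain.rev {L p : ℤ} {n : ℕ} {P : ℕ → Plane} {Mo : ℕ → ℤ → ℤ} {Mx D : ℤ}
    (C : Chain L p n P Mo Mx D) :
    Chain L (1 - p) n (fun i => (P (n - 1 - i)).rev) (fun i k => Mo (n - i) (-k)) Mx D where
  fw i hi := by
    have := C.bw (n - 1 - i) (by omega)
    rwa [show n - 1 - i + 1 = n - i by omega, show n - 1 - i = n - (i + 1) by omega,
      show n - (i + 1) = n - 1 - i by omega, show Mo (n - 1 - i) = Mo (n - (i + 1)) by
        rw [show n - 1 - i = n - (i + 1) by omega]] at this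
  bw i hi := by
    have := C.fw (n - 1 - i) (by omega)
    simp only [neg_neg, sub_sub_cancel]
    rw [show n - (i + 1) = n - 1 - i by omega, show n - i = n - 1 - i + 1 by omega]
    have e : (P (n - 1 - i)).rev.rev = P (n - 1 - i) := by simp [Plane.rev]
    rw [e]; exact this
  mo i hi k h1 h2 := C.mo (n - i) (by omega) (-k) (by omega) (by omega)
  lip i hi x y x' y' h1 h2 := C.lip (n - 1 - i) (by omega) y x y' x' h2 h1

lemma Inner.rev {L p : ℤ} {n : ℕ} {P : ℕ → Plane} {x c : ℕ → ℤ} (h : Inner L p n P x c) :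
    Inner L (1 - p) n (fun i => (P (n - 1 - i)).rev) (fun i => x (n - i)) (fun i => -c (n - i)) := by
  refine ⟨fun i _ => by have := h.1 (n - i) (by omega); simp only; omega, fun i hi => ?_⟩
  have := h.2 (n - 1 - i) (by omega)
  simp only
  rw [show n - (i + 1) = n - 1 - i by omega, show n - i = n - 1 - i + 1 by omega]
  exact ⟨out_rev.2 this.2, in_rev.2 this.1⟩

lemma drift_rev (n : ℕ) (P : ℕ → Plane) (x x' : ℕ → ℤ) :
    drift n (fun i => (P (n - 1 - i)).rev) (fun i => x (n - i)) (fun i => x' (n - i)) =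
      drift n P x x' := by
  unfold drift
  rw [← Finset.sum_range_reflect]
  refine Finset.sum_congr rfl fun i hi => ?_
  have hi := Finset.mem_range.1 hi
  simp only [Plane.rev]
  rw [show n - 1 - (n - 1 - i) = i by omega, show n - (n - 1 - i + 1) = i by omega,
    show n - (n - 1 - i) = i + 1 by omega]

theorem unit_bw {L p : ℤ} (hp : p = 0 ∨ p = 1) {n : ℕ} {P : ℕ → Plane} {Mo : ℕ → ℤ → ℤ}
    {Mx D : ℤ} (hMx : 0 ≤ Mx) (hD : 0 ≤ D) (C : Chain L p n P Mo Mx D) {x c x' c' : ℕ → ℤ}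
    (h : Inner L p n P x c) (h' : Inner L p n P x' c')
    (h0 : Small L (1 - p) (fun _ => 1) (x 0) (-c 0) (x' 0) (-c' 0))
    (hn : Small L p (fun _ => 0) (x n) (c n) (x' n) (c' n)) :
    (∀ i ≤ n, |x' i - x i| ≤ Mx) ∧ drift n P x x' ≤ 3 * D := by
  obtain ⟨a, b⟩ := unit_fw (by omega) hMx hD C.rev h.rev h'.rev (by simpa using hn)
    (by simpa using h0)
  rw [drift_rev] at b
  refine ⟨fun i hi => ?_, b⟩
  have := a (n - i) (by omega)
  rwa [show n - (n - i) = i by omega] at this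

/-! ### existence -/

def Anti (L : ℤ) (t : ℤ → ℤ) : Prop := ∀ k k', Kc L 0 k → Kc L 0 k' → k ≤ k' → t k' ≤ t k
def Mono (L : ℤ) (b : ℤ → ℤ) : Prop := ∀ j j', Kc L 1 j → Kc L 1 j' → j ≤ j' → b j ≤ b j'

lemma exists_bound (L : ℤ) (t : ℤ → ℤ) : ∃ Y : ℤ, ∀ k, -L ≤ k → k ≤ L → |t k| ≤ Y := by
  refine ⟨∑ k ∈ Finset.Icc (-L) L, |t k|, fun k h1 h2 => ?_⟩
  exact Finset.single_le_sum (f := fun k => |t k|) (fun _ _ => abs_nonneg _)
    (Finset.mem_Icc.2 ⟨h1, h2⟩)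

/-- walking along a decreasing staircase -/
lemma walk {L : ℤ} (hL : L % 2 = 1) (hL0 : 0 < L) {t : ℤ → ℤ} (ht : Anti L t)
    (b : ℤ → ℤ → ℤ) (hb : ∀ y, Mono L (fun j => b j y))
    (hj : ∀ j y, Kc L 1 j → ¬ (b j (y + 1) < y + 1 ∧ y < b j y))
    (hlo : ∃ Y, ∀ y, Y ≤ y → b (-L) y ≤ y) (hhi : ∃ Y, ∀ y, y ≤ Y → y ≤ b L y) :
    ∃ y d, (-L ≤ d ∧ d ≤ L) ∧ Dec L 0 t y d ∧ Inc L 1 (fun j => b j y) y d := by
  by_contra hno
  obtain ⟨Y1, h1⟩ := hlo
  obtain ⟨Y2, h2⟩ := hhi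
  obtain ⟨Y, hY⟩ := exists_bound L t
  have low : ∀ y d, (-L ≤ d ∧ d ≤ L) → Dec L 0 t y d →
      (∀ j, Kc L 1 j → j ≤ d → b j y ≤ y) → ∃ j, Kc L 1 j ∧ d ≤ j ∧ b j y < y := by
    intro y d hd hdec hh
    by_contra hc
    push Not at hc
    exact hno ⟨y, d, hd, hdec, fun j hj => ⟨hh j hj, hc j hj⟩⟩
  have main : ∀ m : ℕ, ∃ y d, (-L ≤ d ∧ d ≤ L) ∧ Dec L 0 t y d ∧
      d - y = -L - max Y Y1 + m ∧ ∃ j, Kc L 1 j ∧ d ≤ j ∧ b j y < y := by
    intro m
    induction m with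
    | zero =>
      have hdec : Dec L 0 t (max Y Y1) (-L) := by
        intro k hk
        have := hY k hk.1 hk.2.1
        have := le_max_left Y Y1
        have := le_abs_self (t k)
        unfold Kc at hk
        exact ⟨fun _ => by omega, fun _ => by omega⟩
      refine ⟨max Y Y1, -L, by omega, hdec, by simp, low _ _ (by omega) hdec ?_⟩
      intro j hj hj'
      obtain rfl : j = -L := by unfold Kc at hj; omega
      exact h1 _ (le_max_right _ _)
    | succ m ih =>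
      obtain ⟨y, d, hd, hdec, hs, j, hj1, hj2, hj3⟩ := ih
      by_cases hcase : d < L ∧ Dec L 0 t y (d + 1)
      · refine ⟨y, d + 1, by omega, hcase.2, by push_cast; omega, low _ _ (by omega) hcase.2 ?_⟩
        intro j' hj' hle
        have := hb y j' j hj' hj1 (by unfold Kc at *; omega)
        simp only at this; omega
      · have hodd : d % 2 = 1 := by
          by_contra hev
          apply hcase
          refine ⟨by omega, fun k hk => ⟨fun q => (hdec k hk).1 (by unfold Kc at hk; omega),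
            fun q => (hdec k hk).2 (by omega)⟩⟩
        have hdec' : Dec L 0 t (y - 1) d := by
          intro k hk
          refine ⟨fun q => by have := (hdec k hk).1 q; omega, fun q => ?_⟩
          have hk1 : Kc L 0 (d + 1) := by unfold Kc at *; omega
          have a1 := ht (d + 1) k hk1 hk (by unfold Kc at hk; omega)
          have a2 := (hdec (d + 1) hk1).2 (by omega)
          by_contra hc
          apply hcase
          refine ⟨by unfold Kc at hk1; omega, fun k' hk' => ⟨fun q' => ?_, fun q' =>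
            (hdec k' hk').2 (by omega)⟩⟩
          have := ht k' (d + 1) hk' hk1 q'
          omega
        refine ⟨y - 1, d, hd, hdec', by push_cast; omega, low _ _ hd hdec' ?_⟩
        intro j' hj' hle
        have hdk : Kc L 1 d := ⟨hd.1, hd.2, hodd⟩
        have a1 := hb y d j hdk hj1 hj2
        have a2 := hb (y - 1) j' d hj' hdk hle
        have a3 := hj d (y - 1) hdk
        simp only [sub_add_cancel] at a1 a2 a3
        omega
  obtain ⟨y, d, hd, hdec, hs, j, hj1, hj2, hj3⟩ :=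
    main (2 * L + max Y Y1 + Y + |Y2| + 1).toNat
  have hm := Int.self_le_toNat (2 * L + max Y Y1 + Y + |Y2| + 1)
  have := neg_abs_le Y2
  have := abs_nonneg Y2
  have hY0 : 0 ≤ Y := (abs_nonneg _).trans (hY 0 (by omega) (by omega))
  have hdL : d = L := by
    by_contra hne
    have hk : Kc L 0 (L - 1) := by unfold Kc; omega
    have a1 := (hdec _ hk).2 (by omega)
    have a2 := hY (L - 1) (by omega) (by omega)
    have := neg_abs_le (t (L - 1))
    omega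
  obtain rfl : j = L := by unfold Kc at hj1; omega
  have := h2 y (by omega)
  omega

structure Ex (L : ℤ) (P : Plane) : Prop where
  anti : ∀ y, Anti L (fun k => P.Φ k y)
  mono : ∀ x, Mono L (fun j => P.Ξ j x)
  jump : ∀ k j y, Kc L 0 k → Kc L 1 j →
    ¬ (P.Ξ j (P.Φ k (y + 1)) < y + 1 ∧ y < P.Ξ j (P.Φ k y))
  ext : ∀ k y, Kc L 0 k → P.Ξ (-L) (P.Φ k y) ≤ y ∧ y ≤ P.Ξ L (P.Φ k y)

lemma walk_const {L : ℤ} (hL : L % 2 = 1) (hL0 : 0 < L) {t : ℤ → ℤ} (ht : Anti L t)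
    {b : ℤ → ℤ} (hb : Mono L b) :
    ∃ y d, (-L ≤ d ∧ d ≤ L) ∧ Dec L 0 t y d ∧ Inc L 1 b y d :=
  walk hL hL0 ht (fun j _ => b j) (fun _ => hb) (fun _ _ _ => by omega)
    ⟨b (-L), fun _ h => h⟩ ⟨b L, fun _ h => h⟩

lemma pull {L : ℤ} (hL : L % 2 = 1) (hL0 : 0 < L) {P : Plane} {M M' : ℤ → ℤ}
    (hF : Fw L 0 P M M') (hE : Ex L P) {t' : ℤ → ℤ} (ht' : Anti L t') :
    ∃ t, Anti L t ∧ ∀ x c, Dec L 0 t x c →
      ∃ y d, (-L ≤ d ∧ d ≤ L) ∧ Dec L 0 t' y d ∧ Out L 0 P x y c ∧ In L 0 P x y d := by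
  have h1 : ∀ k, ∃ y d, Kc L 0 k → (-L ≤ d ∧ d ≤ L) ∧ Dec L 0 t' y d ∧ In L 0 P (P.Φ k y) y d := by
    intro k
    by_cases hk : Kc L 0 k
    · obtain ⟨y, d, a⟩ := walk hL hL0 ht' (fun j y => P.Ξ j (P.Φ k y)) (fun y => hE.mono _)
        (fun j y hj => hE.jump k j y hk hj) ⟨0, fun y _ => (hE.ext k y hk).1⟩
        ⟨0, fun y _ => (hE.ext k y hk).2⟩
      exact ⟨y, d, fun _ => a⟩
    · exact ⟨0, 0, fun h => absurd h hk⟩
  choose ys ds hs using h1
  have nov : ∀ {x y d x' y' d' k : ℤ}, Kc L 0 k → (-L ≤ d ∧ d ≤ L) → (-L ≤ d' ∧ d' ≤ L) →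
      Dec L 0 t' y d → Dec L 0 t' y' d' → In L 0 P x y d → In L 0 P x' y' d' →
      P.Φ k y ≤ x → x ≤ x' → x' ≤ P.Φ k y' → P.Φ k y' ≤ P.Φ k y := by
    intro x y d x' y' d' k hk hd hd' q q' hi hi' a1 a2 a3
    by_contra a4
    obtain ⟨k', hk', hA, -⟩ := viol (Or.inl rfl) hF hk hd hd' hi hi' a1 a2 a3 (by omega)
    have := q k' hk'
    have := q' k' hk'
    omega
  refine ⟨fun k => P.Φ k (ys k), ?_, ?_⟩
  · intro k k' hk hk' hle
    by_contra hc
    simp only at hc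
    obtain ⟨a1, a2, a3⟩ := hs k hk
    obtain ⟨b1, b2, b3⟩ := hs k' hk'
    have e := hE.anti (ys k') k k' hk hk' hle
    simp only at e
    have := nov hk a1 b1 a2 b2 a3 b3 le_rfl (by omega) e
    omega
  · intro x c hx
    obtain ⟨y, d, a1, a2, a3⟩ := walk_const hL hL0 ht' (hE.mono x)
    refine ⟨y, d, a1, a2, fun k hk => ?_, a3⟩
    obtain ⟨b1, b2, b3⟩ := hs k hk
    constructor
    · intro q
      have q1 := (hx k hk).1 q
      by_contra hc
      simp only at hc q1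
      have := nov hk a1 b1 a2 b2 a3 b3 (by omega) q1 le_rfl
      omega
    · intro q
      have q1 := (hx k hk).2 q
      by_contra hc
      simp only at hc q1
      have := nov hk b1 a1 b2 a2 b3 a3 le_rfl q1 (by omega)
      omega

theorem exists_sol {L : ℤ} (hL : L % 2 = 1) (hL0 : 0 < L) (n : ℕ) :
    ∀ (P : ℕ → Plane) (Mo : ℕ → ℤ → ℤ), (∀ i < n, Fw L 0 (P i) (Mo i) (Mo (i + 1))) →
      (∀ i < n, Ex L (P i)) → ∀ t, Anti L t → ∀ b, Mono L b →
      ∃ x c : ℕ → ℤ, Inner L 0 n P x c ∧ Inc L 1 b (x 0) (c 0) ∧ Dec L 0 t (x n) (c n) := by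
  induction n with
  | zero =>
    intro P Mo _ _ t ht b hb
    obtain ⟨y, d, a1, a2, a3⟩ := walk_const hL hL0 ht hb
    exact ⟨fun _ => y, fun _ => d, ⟨fun _ _ => a1, fun _ h => absurd h (by omega)⟩, a3, a2⟩
  | succ n ih =>
    intro P Mo hF hE t ht b hb
    obtain ⟨t1, ht1, h1⟩ := pull hL hL0 (hF n (by omega)) (hE n (by omega)) ht
    obtain ⟨x, c, hi, h0, hn⟩ := ih P Mo (fun i hi => hF i (by omega)) (fun i hi => hE i (by omega))
      t1 ht1 b hb
    obtain ⟨y, d, a1, a2, a3, a4⟩ := h1 _ _ hn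
    refine ⟨fun i => if i ≤ n then x i else y, fun i => if i ≤ n then c i else d, ⟨?_, ?_⟩,
      by simpa using h0, by simpa using a2⟩
    · intro i hi'
      by_cases q : i ≤ n
      · simpa [q] using hi.1 i q
      · simpa [q] using a1
    · intro i hi'
      by_cases q : i < n
      · simpa [q.le, Nat.succ_le_of_lt q] using hi.2 i q
      · obtain rfl : i = n := by omega
        simpa using ⟨a3, a4⟩

/-! ### stability -/

def Near (n : ℕ) (P : ℕ → Plane) (A B : ℤ) (x x' : ℕ → ℤ) : Prop :=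
  (∀ i ≤ n, |x' i - x i| ≤ A) ∧ drift n P x x' ≤ B

lemma Near.trans {n : ℕ} {P : ℕ → Plane} {A B A' B' : ℤ} {x x' x'' : ℕ → ℤ}
    (h : Near n P A B x x') (h' : Near n P A' B' x' x'') : Near n P (A + A') (B + B') x x'' := by
  refine ⟨fun i hi => ?_, ?_⟩
  · have := h.1 i hi
    have := h'.1 i hi
    rw [abs_le] at *; omega
  · refine le_trans ?_ (add_le_add h.2 h'.2)
    unfold drift
    rw [← Finset.sum_add_distrib]
    exact Finset.sum_le_sum fun i _ => abs_sub_le _ _ _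

lemma small_of_dec {L p B : ℤ} {t t' : ℤ → ℤ} {x c x' c' : ℤ} (h : Dec L p t x c)
    (h' : Dec L p t' x' c') (hb : ∀ k, Kc L p k → |t' k - t k| ≤ B) :
    Small L p (fun _ => B) x c x' c' := by
  intro k hk
  have := h k hk
  have := h' k hk
  have := hb k hk
  rw [abs_le] at this
  simp only
  omega

lemma stab_end {L : ℤ} (hL : L % 2 = 1) (hL0 : 0 < L) {n : ℕ} {P : ℕ → Plane} {Mo : ℕ → ℤ → ℤ}
    {Mx D : ℤ} (hMx : 0 ≤ Mx) (hD : 0 ≤ D) (C : Chain L 0 n P Mo Mx D) (hE : ∀ i < n, Ex L (P i))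
    {b : ℤ → ℤ} (hb : Mono L b) {t' : ℤ → ℤ} (ht' : Anti L t') {x' c' : ℕ → ℤ}
    (h' : Inner L 0 n P x' c') (h0' : Inc L 1 b (x' 0) (c' 0)) (hn' : Dec L 0 t' (x' n) (c' n))
    (B : ℕ) : ∀ t, Anti L t → (∀ k, Kc L 0 k → |t' k - t k| ≤ B) → ∀ x c : ℕ → ℤ,
      Inner L 0 n P x c → Inc L 1 b (x 0) (c 0) → Dec L 0 t (x n) (c n) →
      Near n P ((B + 1) * Mx) ((B + 1) * (3 * D)) x x' := by
  have z : ∀ {x c x' c' : ℤ}, Inc L 1 b x c → Inc L 1 b x' c' →
      Small L (1 - 0) (fun _ => 0) x (-c) x' (-c') := fun q q' =>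
    small_of_dec (inc_iff_dec.2 q) (inc_iff_dec.2 q') (fun _ _ => by simp)
  induction B with
  | zero =>
    intro t ht hb x c h h0 hn
    simpa [Near] using unit_fw (Or.inl rfl) hMx hD C h h' (z h0 h0')
      (small_of_dec hn hn' fun k hk => (hb k hk).trans (by simp))
  | succ B ih =>
    intro t ht hbd x c h h0 hn
    have ht1 : Anti L (fun k => max (t k - 1) (min (t' k) (t k + 1))) := by
      intro k k' hk hk' hle
      have := ht k k' hk hk' hle
      have := ht' k k' hk hk' hle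
      simp only; omega
    obtain ⟨x1, c1, g, g0, gn⟩ := exists_sol hL hL0 n P Mo C.fw hE _ ht1 b hb
    have n1 : Near n P Mx (3 * D) x x1 := unit_fw (Or.inl rfl) hMx hD C h g (z h0 g0)
      (small_of_dec hn gn fun k _ => by rw [abs_le]; omega)
    have n2 := ih _ ht1 (fun k hk => by
      have := hbd k hk
      push_cast at this
      rw [abs_le] at *; omega) x1 c1 g g0 gn
    have := n1.trans n2
    push_cast
    convert this using 1 <;> ring

lemma stab_start {L : ℤ} (hL : L % 2 = 1) (hL0 : 0 < L) {n : ℕ} {P : ℕ → Plane} {Mo : ℕ → ℤ → ℤ}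
    {Mx D : ℤ} (hMx : 0 ≤ Mx) (hD : 0 ≤ D) (C : Chain L 0 n P Mo Mx D) (hE : ∀ i < n, Ex L (P i))
    {t : ℤ → ℤ} (ht : Anti L t) {b' : ℤ → ℤ} (hb' : Mono L b') {x' c' : ℕ → ℤ}
    (h' : Inner L 0 n P x' c') (h0' : Inc L 1 b' (x' 0) (c' 0)) (hn' : Dec L 0 t (x' n) (c' n))
    (B : ℕ) : ∀ b, Mono L b → (∀ k, Kc L 1 k → |b' k - b k| ≤ B) → ∀ x c : ℕ → ℤ,
      Inner L 0 n P x c → Inc L 1 b (x 0) (c 0) → Dec L 0 t (x n) (c n) →
      Near n P ((B + 1) * Mx) ((B + 1) * (3 * D)) x x' := by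
  have z : ∀ {x c x' c' : ℤ}, Dec L 0 t x c → Dec L 0 t x' c' →
      Small L 0 (fun _ => 0) x c x' c' := fun q q' => small_of_dec q q' (fun _ _ => by simp)
  induction B with
  | zero =>
    intro b hb hbd x c h h0 hn
    simpa [Near] using unit_bw (Or.inl rfl) hMx hD C h h'
      (small_of_dec (inc_iff_dec.2 h0) (inc_iff_dec.2 h0')
        fun k hk => (hbd (-k) hk.neg).trans (by simp)) (z hn hn')
  | succ B ih =>
    intro b hb hbd x c h h0 hn
    have hb1 : Mono L (fun k => max (b k - 1) (min (b' k) (b k + 1))) := by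
      intro k k' hk hk' hle
      have := hb k k' hk hk' hle
      have := hb' k k' hk hk' hle
      simp only; omega
    obtain ⟨x1, c1, g, g0, gn⟩ := exists_sol hL hL0 n P Mo C.fw hE t ht _ hb1
    have n1 : Near n P Mx (3 * D) x x1 := unit_bw (Or.inl rfl) hMx hD C h g
      (small_of_dec (inc_iff_dec.2 h0) (inc_iff_dec.2 g0) fun k _ => by rw [abs_le]; omega)
      (z hn gn)
    have n2 := ih _ hb1 (fun k hk => by
      have := hbd k hk
      push_cast at this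
      rw [abs_le] at *; omega) x1 c1 g g0 gn
    have := n1.trans n2
    push_cast
    convert this using 1 <;> ring

/-- a staircase through `(x, c)` adapted to a second point -/
def stair (x c x' c' k : ℤ) : ℤ :=
  if k < c then (if k ≤ c' then max x x' else x) else if k = c then x
  else (if c' ≤ k then min x x' else x)

def stair' (x c x' c' k : ℤ) : ℤ :=
  if c' < c then (if x ≤ x' then (if k ≤ c' then x' else x) else stair x' c' x c k)
  else if c < c' then (if x' ≤ x then (if k ≤ c then x else x') else stair x' c' x c k)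
  else stair x' c' x c k

lemma two_stairs {L p B x c x' c' : ℤ} (hB : 0 ≤ B) (h : Small L p (fun _ => B) x c x' c') :
    ∃ t t' : ℤ → ℤ, (∀ k k', k ≤ k' → t k' ≤ t k) ∧ (∀ k k', k ≤ k' → t' k' ≤ t' k) ∧
      Dec L p t x c ∧ Dec L p t' x' c' ∧ ∀ k, Kc L p k → |t' k - t k| ≤ B := by
  refine ⟨stair' x' c' x c, stair' x c x' c', ?_, ?_, ?_, ?_, ?_⟩
  · intro k k' hle; unfold stair' stair; split_ifs <;> omega
  · intro k k' hle; unfold stair' stair; split_ifs <;> omega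
  · intro k _; unfold stair' stair; constructor <;> intro _ <;> split_ifs <;> omega
  · intro k _; unfold stair' stair; constructor <;> intro _ <;> split_ifs <;> omega
  · intro k hk
    have := h k hk
    simp only at this
    rw [abs_le]
    unfold stair' stair; split_ifs <;> omega

theorem stab {L : ℤ} (hL : L % 2 = 1) (hL0 : 0 < L) {n : ℕ} {P : ℕ → Plane} {Mo : ℕ → ℤ → ℤ}
    {Mx D : ℤ} (hMx : 0 ≤ Mx) (hD : 0 ≤ D) (C : Chain L 0 n P Mo Mx D) (hE : ∀ i < n, Ex L (P i))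
    {x c x' c' : ℕ → ℤ} (h : Inner L 0 n P x c) (h' : Inner L 0 n P x' c') (B : ℕ)
    (h0 : Small L 1 (fun _ => B) (x 0) (-c 0) (x' 0) (-c' 0))
    (hn : Small L 0 (fun _ => B) (x n) (c n) (x' n) (c' n)) :
    Near n P (2 * (B + 1) * Mx) (2 * (B + 1) * (3 * D)) x x' := by
  obtain ⟨t, t', a1, a2, a3, a4, a5⟩ := two_stairs (by positivity) hn
  obtain ⟨s, s', b1, b2, b3, b4, b5⟩ := two_stairs (by positivity) h0
  have ht : Anti L t := fun k k' _ _ q => a1 k k' q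
  have ht' : Anti L t' := fun k k' _ _ q => a2 k k' q
  have hs : Mono L (fun j => s (-j)) := fun k k' _ _ q => b1 _ _ (by omega)
  have hs' : Mono L (fun j => s' (-j)) := fun k k' _ _ q => b2 _ _ (by omega)
  have c3 := dec_iff_inc.2 b3
  have c4 := dec_iff_inc.2 b4
  simp only [neg_neg] at c3 c4
  obtain ⟨x1, c1, g, g0, gn⟩ := exists_sol hL hL0 n P Mo C.fw hE t' ht' _ hs
  have n1 := stab_end hL hL0 hMx hD C hE hs ht' g g0 gn B t ht a5 x c h c3 a3
  have n2 := stab_start hL hL0 hMx hD C hE ht' hs' h' c4 a4 B _ hs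
    (fun k hk => b5 (-k) hk.neg) x1 c1 g g0 gn
  have := n1.trans n2
  convert this using 1 <;> ring

end Pool.Agent.Work.MP_0909b4_al
end

-- merged part: Pool.Agent.Work.MP_0909b4_al.Cross
section
/-! Two broken lines in the plane and their relative position. -/

namespace Pool.Agent.Work.MP_0909b4_al

structure Br where
  c : ℚ
  sp : ℚ
  sm : ℚ
  ep : ℚ
  em : ℚ

def Br.f (Q : Br) (y : ℚ) : ℚ := Q.c + Q.sp * max (y - Q.ep) 0 + Q.sm * min (y - Q.em) 0

def Br.nv (Q : Br) : Br := ⟨-Q.c, -Q.sp, -Q.sm, Q.ep, Q.em⟩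
def Br.na (Q : Br) : Br := ⟨Q.c, -Q.sm, -Q.sp, -Q.em, -Q.ep⟩

lemma Br.nv_f (Q : Br) (y : ℚ) : Q.nv.f y = -Q.f y := by
  simp only [Br.f, Br.nv]; ring

lemma Br.na_f (Q : Br) (y : ℚ) : Q.na.f (-y) = Q.f y := by
  simp only [Br.f, Br.na]
  rw [show -y - -Q.em = -(y - Q.em) by ring, show -y - -Q.ep = -(y - Q.ep) by ring]
  have a : max (-(y - Q.em)) 0 = -min (y - Q.em) 0 := by rw [← max_neg_neg, neg_zero]
  have b : min (-(y - Q.ep)) 0 = -max (y - Q.ep) 0 := by rw [← min_neg_neg, neg_zero]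
  rw [a, b]; ring

lemma Br.f_up (Q : Br) {y : ℚ} (h : Q.ep ≤ y) (h' : Q.em ≤ Q.ep) :
    Q.f y = Q.c + Q.sp * (y - Q.ep) := by
  simp only [Br.f]
  rw [max_eq_left (by linarith), min_eq_right (by linarith)]; ring

lemma Br.f_dn (Q : Br) {y : ℚ} (h : y ≤ Q.em) (h' : Q.em ≤ Q.ep) :
    Q.f y = Q.c + Q.sm * (y - Q.em) := by
  simp only [Br.f]
  rw [max_eq_right (by linarith), min_eq_left (by linarith)]; ring

lemma Br.f_mid (Q : Br) {y : ℚ} (h : Q.em ≤ y) (h' : y ≤ Q.ep) : Q.f y = Q.c := by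
  simp only [Br.f]
  rw [max_eq_right (by linarith), min_eq_right (by linarith)]; ring

def Half (S : ℚ) (Q P : Br) : Prop :=
  Q.sp ≠ 0 ∧ Q.sm ≠ 0 ∧ Q.em + 2 * S ≤ Q.ep ∧
  ((Q.ep + S ≤ P.c ∧ ((0 < Q.sp ∧ 1 < Q.sp * P.sp) ∨ (Q.sp < 0 ∧ 1 < Q.sp * P.sm))) ∨
    (P.c ≤ Q.ep - 3 * S ∧ (0 < Q.sp → Q.sp * P.sp < 1) ∧ (Q.sp < 0 → Q.sp * P.sm < 1))) ∧
  ((P.c ≤ Q.em - S ∧ ((Q.sm < 0 ∧ 1 < Q.sm * P.sp) ∨ (0 < Q.sm ∧ 1 < Q.sm * P.sm))) ∨
    (Q.em + 3 * S ≤ P.c ∧ (Q.sm < 0 → Q.sm * P.sp < 1) ∧ (0 < Q.sm → Q.sm * P.sm < 1)))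

def Cross (S : ℚ) (Q P : Br) : Prop := Half S Q P ∧ Half S P Q

lemma Half.fx {S : ℚ} {Q P : Br} (h : Half S Q P) : Half S Q.nv P.na := by
  obtain ⟨a, b, c, d, e⟩ := h
  simp only [Half, Br.nv, Br.na, neg_mul_neg, ne_eq, neg_eq_zero, Left.neg_pos_iff,
    Left.neg_neg_iff]
  exact ⟨a, b, c, d.imp (And.imp_right Or.symm) (And.imp_right And.symm),
    e.imp (And.imp_right Or.symm) (And.imp_right And.symm)⟩

lemma Half.fy {S : ℚ} {Q P : Br} (h : Half S Q P) : Half S Q.na P.nv := by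
  obtain ⟨a, b, c, d, e⟩ := h
  simp only [Half, Br.nv, Br.na, neg_mul_neg, ne_eq, neg_eq_zero, Left.neg_pos_iff,
    Left.neg_neg_iff]
  refine ⟨b, a, by linarith, ?_, ?_⟩
  · rcases e with ⟨e1, e2⟩ | ⟨e1, e2⟩
    · exact Or.inl ⟨by linarith, e2⟩
    · exact Or.inr ⟨by linarith, e2⟩
  · rcases d with ⟨e1, e2⟩ | ⟨e1, e2⟩
    · exact Or.inl ⟨by linarith, e2⟩
    · exact Or.inr ⟨by linarith, e2⟩

lemma Cross.fx {S : ℚ} {Q P : Br} (h : Cross S Q P) : Cross S Q.nv P.na := ⟨h.1.fx, h.2.fy⟩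
lemma Cross.fy {S : ℚ} {Q P : Br} (h : Cross S Q P) : Cross S Q.na P.nv := ⟨h.1.fy, h.2.fx⟩

lemma G1a {S τ : ℚ} {Q P : Br} (h : Cross S Q P) (hτ : 0 ≤ τ) (hS : τ < S) (h1 : 0 < Q.sp)
    (h2 : Q.ep < P.c) {x y : ℚ} (hx : Q.f y - τ ≤ x) : y + τ < P.f x := by
  obtain ⟨⟨a1, a2, a3, a4, a5⟩, ⟨b1, b2, b3, b4, b5⟩⟩ := h
  have u1 : Q.ep + S ≤ P.c ∧ 1 < Q.sp * P.sp := by
    rcases a4 with ⟨e1, e2 | e2⟩ | ⟨e1, -⟩
    · exact ⟨e1, e2.2⟩
    · linarith [e2.1]
    · linarith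
  obtain ⟨u1, u2⟩ := u1
  have u3 : 0 < P.sp := by
    by_contra hc
    push Not at hc
    linarith only [u2, h1, hc, mul_nonneg_of_nonpos_of_nonpos (le_of_lt (Mathlib.Tactic.Linarith.sub_neg_of_lt h1)) (Mathlib.Tactic.Linarith.sub_nonpos_of_le hc)]
  have u4 : P.ep + S ≤ Q.c := by
    rcases b4 with ⟨e1, -⟩ | ⟨-, e2, -⟩
    · exact e1
    · have := e2 u3; linarith
  have u5 : 0 < Q.sm → Q.sm * P.sm < 1 := by
    rcases a5 with ⟨e1, -⟩ | ⟨-, -, e2⟩
    · linarith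
    · exact e2
  by_cases c1 : Q.ep ≤ y
  · rw [Q.f_up c1 (by linarith)] at hx
    have q : 0 ≤ Q.sp * (y - Q.ep) := mul_nonneg h1.le (by linarith)
    rw [P.f_up (by linarith) (by linarith)]
    have : P.sp * (Q.sp * (y - Q.ep)) ≤ P.sp * (x - P.ep) :=
      mul_le_mul_of_nonneg_left (by linarith) u3.le
    linarith only [hS, u1, this, u2, c1, mul_nonneg_of_nonpos_of_nonpos (le_of_lt (Mathlib.Tactic.Linarith.sub_neg_of_lt u2)) (Mathlib.Tactic.Linarith.sub_nonpos_of_le c1)]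
  push Not at c1
  by_cases c2 : P.ep ≤ x
  · rw [P.f_up c2 (by linarith only [hτ, hS, b3])]
    have : 0 ≤ P.sp * (x - P.ep) := mul_nonneg u3.le (by linarith)
    linarith
  by_cases c3 : P.em ≤ x
  · rw [P.f_mid c3 (by linarith)]; linarith
  push Not at c2 c3
  rw [P.f_dn c3.le (by linarith)]
  by_cases c4 : P.sm ≤ 0
  · have : 0 ≤ P.sm * (x - P.em) := mul_nonneg_of_nonpos_of_nonpos c4 (by linarith)
    linarith
  push Not at c4
  by_cases c5 : Q.em ≤ y
  · rw [Q.f_mid c5 c1.le] at hx; linarith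
  push Not at c5
  rw [Q.f_dn c5.le (by linarith)] at hx
  have u6 : 0 < Q.sm := by
    by_contra hc
    push Not at hc
    have : 0 ≤ Q.sm * (y - Q.em) := mul_nonneg_of_nonpos_of_nonpos hc (by linarith)
    linarith
  have u7 := u5 u6
  have : P.sm * (Q.sm * (y - Q.em)) ≤ P.sm * (x - P.em) :=
    mul_le_mul_of_nonneg_left (by linarith) c4.le
  linarith only [hτ, hS, h2, a3, c4, hx, b3, u4, c5, u7, mul_nonneg_of_nonpos_of_nonpos (Mathlib.Tactic.Linarith.sub_nonpos_of_le hτ) (le_of_lt (Mathlib.Tactic.Linarith.sub_neg_of_lt c4)), mul_pos_of_neg_of_neg (Mathlib.Tactic.Linarith.sub_neg_of_lt hS) (Mathlib.Tactic.Linarith.sub_neg_of_lt c4), mul_nonneg_of_nonpos_of_nonpos (Mathlib.Tactic.Linarith.sub_nonpos_of_le hx) (le_of_lt (Mathlib.Tactic.Linarith.sub_neg_of_lt c4)), mul_nonneg_of_nonpos_of_nonpos (Mathlib.Tactic.Linarith.sub_nonpos_of_le b3) (le_of_lt (Mathlib.Tactic.Linarith.sub_neg_of_lt c4)), mul_nonneg_of_nonpos_of_nonpos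 (Mathlib.Tactic.Linarith.sub_nonpos_of_le u4) (le_of_lt (Mathlib.Tactic.Linarith.sub_neg_of_lt c4)), mul_pos_of_neg_of_neg (Mathlib.Tactic.Linarith.sub_neg_of_lt c5) (Mathlib.Tactic.Linarith.sub_neg_of_lt u7)]

lemma G2a {S τ : ℚ} {Q P : Br} (h : Cross S Q P) (hτ : 0 ≤ τ) (hS : τ < S) (h1 : 0 < Q.sp)
    (h2 : P.c < Q.ep) {x y : ℚ} (hc : Q.c - τ ≤ x) (hy : Q.ep - τ ≤ y) (hx : x ≤ Q.f y + τ) :
    P.f x + τ < y := by
  obtain ⟨⟨a1, a2, a3, a4, a5⟩, ⟨b1, b2, b3, b4, b5⟩⟩ := h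
  have u1 : P.c ≤ Q.ep - 3 * S ∧ Q.sp * P.sp < 1 := by
    rcases a4 with ⟨e1, -⟩ | ⟨e1, e2, -⟩
    · linarith
    · exact ⟨e1, e2 h1⟩
  obtain ⟨u1, u2⟩ := u1
  by_cases c1 : P.ep ≤ x
  · rw [P.f_up c1 (by linarith only [hτ, hS, b3])]
    by_cases c2 : P.sp ≤ 0
    · have : P.sp * (x - P.ep) ≤ 0 := mul_nonpos_of_nonpos_of_nonneg c2 (by linarith)
      linarith only [hτ, hS, hy, u1, this]
    push Not at c2
    have u3 : Q.c ≤ P.ep - 3 * S := by
      rcases b4 with ⟨-, e2 | e2⟩ | ⟨e1, -⟩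
      · linarith [e2.2]
      · linarith [e2.1]
      · exact e1
    by_cases c3 : Q.ep ≤ y
    · rw [Q.f_up c3 (by linarith only [hτ, hS, a3])] at hx
      have : P.sp * (x - P.ep) ≤ P.sp * (Q.sp * (y - Q.ep)) :=
        mul_le_mul_of_nonneg_left (by linarith only [hτ, hS, hx, u3]) c2.le
      (refine lt_of_not_ge fun h_nl => ?_; linarith only [h_nl, hτ, hS, hx, u3, h1, u1, u2, c1, mul_nonneg_of_nonpos_of_nonpos (Mathlib.Tactic.Linarith.sub_nonpos_of_le hτ) (le_of_lt (Mathlib.Tactic.Linarith.sub_neg_of_lt h1)), mul_pos_of_neg_of_neg (Mathlib.Tactic.Linarith.sub_neg_of_lt hS) (Mathlib.Tactic.Linarith.sub_neg_of_lt h1), mul_nonneg_of_nonpos_of_nonpos (le_of_lt (Mathlib.Tactic.Linarith.sub_neg_of_lt h1)) (Mathlib.Tactic.Linarith.sub_nonpos_of_le u1), mul_nonneg_of_nonpos_of_nonpos (le_of_lt (Mathlib.Tactic.Linarith.sub_neg_of_lt h1)) (Mathlib.Tactic.Linarith.sub_nonpos_of_le h_nl), mul_nonneg_of_nonpos_of_nonpos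 (le_of_lt (Mathlib.Tactic.Linarith.sub_neg_of_lt u2)) (Mathlib.Tactic.Linarith.sub_nonpos_of_le c1)])
    · push Not at c3
      rw [Q.f_mid (by linarith) c3.le] at hx
      linarith
  push Not at c1
  by_cases c2 : P.em ≤ x
  · rw [P.f_mid c2 c1.le]; linarith only [hτ, hS, hy, u1]
  push Not at c2
  rw [P.f_dn c2.le (by linarith)]
  by_cases c3 : 0 ≤ P.sm
  · have : P.sm * (x - P.em) ≤ 0 := mul_nonpos_of_nonneg_of_nonpos c3 (by linarith)
    linarith only [hτ, hS, hy, u1, this]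
  push Not at c3
  exfalso
  rcases b5 with ⟨-, e2 | e2⟩ | ⟨e1, -⟩
  · linarith only [e2, h1, c3, e2.2, mul_pos_of_neg_of_neg (Mathlib.Tactic.Linarith.sub_neg_of_lt h1) (Mathlib.Tactic.Linarith.sub_neg_of_lt c3)]
  · linarith [e2.1]
  · linarith

lemma G1b {S τ : ℚ} {Q P : Br} (h : Cross S Q P) (hτ : 0 ≤ τ) (hS : τ < S) (h1 : Q.sp < 0)
    (h2 : Q.ep < P.c) {x y : ℚ} (hx : x ≤ Q.f y + τ) : y + τ < P.f x := by
  have := G1a h.fx hτ hS (by simpa [Br.nv] using h1) h2 (x := -x) (y := y)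
    (by rw [Br.nv_f]; linarith)
  rwa [Br.na_f] at this

lemma G1c {S τ : ℚ} {Q P : Br} (h : Cross S Q P) (hτ : 0 ≤ τ) (hS : τ < S) (h1 : Q.sm < 0)
    (h2 : P.c < Q.em) {x y : ℚ} (hx : Q.f y - τ ≤ x) : P.f x + τ < y := by
  have := G1a h.fy hτ hS (by simpa [Br.na] using h1) (by simpa [Br.na, Br.nv] using h2)
    (x := x) (y := -y) (by rw [Br.na_f]; linarith)
  rw [Br.nv_f] at this; linarith

lemma G1d {S τ : ℚ} {Q P : Br} (h : Cross S Q P) (hτ : 0 ≤ τ) (hS : τ < S) (h1 : 0 < Q.sm)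
    (h2 : P.c < Q.em) {x y : ℚ} (hx : x ≤ Q.f y + τ) : P.f x + τ < y := by
  have := G1b h.fy hτ hS (by simpa [Br.na] using h1) (by simpa [Br.na, Br.nv] using h2)
    (x := x) (y := -y) (by rw [Br.na_f]; linarith)
  rw [Br.nv_f] at this; linarith

lemma G2b {S τ : ℚ} {Q P : Br} (h : Cross S Q P) (hτ : 0 ≤ τ) (hS : τ < S) (h1 : Q.sp < 0)
    (h2 : P.c < Q.ep) {x y : ℚ} (hc : x ≤ Q.c + τ) (hy : Q.ep - τ ≤ y) (hx : Q.f y - τ ≤ x) :
    P.f x + τ < y := by
  have := G2a h.fx hτ hS (by simpa [Br.nv] using h1) h2 (x := -x) (y := y)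
    (by simp only [Br.nv]; linarith) hy (by rw [Br.nv_f]; linarith)
  rwa [Br.na_f] at this

lemma G2c {S τ : ℚ} {Q P : Br} (h : Cross S Q P) (hτ : 0 ≤ τ) (hS : τ < S) (h1 : Q.sm < 0)
    (h2 : Q.em < P.c) {x y : ℚ} (hc : Q.c - τ ≤ x) (hy : y ≤ Q.em + τ) (hx : x ≤ Q.f y + τ) :
    y + τ < P.f x := by
  have := G2a h.fy hτ hS (by simpa [Br.na] using h1) (by simpa [Br.na, Br.nv] using h2)
    (x := x) (y := -y) hc (by simp only [Br.na]; linarith) (by rw [Br.na_f]; linarith)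
  rw [Br.nv_f] at this; linarith

lemma G2d {S τ : ℚ} {Q P : Br} (h : Cross S Q P) (hτ : 0 ≤ τ) (hS : τ < S) (h1 : 0 < Q.sm)
    (h2 : Q.em < P.c) {x y : ℚ} (hc : x ≤ Q.c + τ) (hy : y ≤ Q.em + τ) (hx : Q.f y - τ ≤ x) :
    y + τ < P.f x := by
  have := G2b h.fy hτ hS (by simpa [Br.na] using h1) (by simpa [Br.na, Br.nv] using h2)
    (x := x) (y := -y) hc (by simp only [Br.na]; linarith) (by rw [Br.na_f]; linarith)
  rw [Br.nv_f] at this; linarith

lemma G3 {S : ℚ} {Q P : Br} (h : Cross S Q P) (hS : 0 < S) (h1 : Q.em < P.c) (h2 : P.c < Q.ep) :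
    P.em ≤ Q.c ∧ Q.c ≤ P.ep := by
  obtain ⟨⟨a1, a2, a3, a4, a5⟩, ⟨b1, b2, b3, b4, b5⟩⟩ := h
  have u1 : (0 < Q.sp → Q.sp * P.sp < 1) ∧ (Q.sp < 0 → Q.sp * P.sm < 1) := by
    rcases a4 with ⟨e1, -⟩ | ⟨-, e2⟩
    · linarith
    · exact e2
  have u2 : (Q.sm < 0 → Q.sm * P.sp < 1) ∧ (0 < Q.sm → Q.sm * P.sm < 1) := by
    rcases a5 with ⟨e1, -⟩ | ⟨-, e2⟩
    · linarith
    · exact e2
  constructor
  · rcases b5 with ⟨-, e2 | e2⟩ | ⟨e1, -⟩
    · have : Q.sp < 0 := by by_contra hc; push Not at hc; linarith only [e2, hc, e2.1, e2.2, mul_nonneg_of_nonpos_of_nonpos (le_of_lt (Mathlib.Tactic.Linarith.sub_neg_of_lt e2.left)) (Mathlib.Tactic.Linarith.sub_nonpos_of_le hc)]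
      linarith [u1.2 this, e2.2]
    · have : 0 < Q.sm := by by_contra hc; push Not at hc; linarith only [e2, hc, e2.1, e2.2, mul_nonneg_of_nonpos_of_nonpos (le_of_lt (Mathlib.Tactic.Linarith.sub_neg_of_lt e2.left)) (Mathlib.Tactic.Linarith.sub_nonpos_of_le hc)]
      linarith [u2.2 this, e2.2]
    · linarith
  · rcases b4 with ⟨-, e2 | e2⟩ | ⟨e1, -⟩
    · have : 0 < Q.sp := by by_contra hc; push Not at hc; linarith only [e2, hc, e2.1, e2.2, mul_nonneg_of_nonpos_of_nonpos (le_of_lt (Mathlib.Tactic.Linarith.sub_neg_of_lt e2.left)) (Mathlib.Tactic.Linarith.sub_nonpos_of_le hc)]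
      linarith [u1.1 this, e2.2]
    · have : Q.sm < 0 := by by_contra hc; push Not at hc; linarith only [e2, hc, e2.1, e2.2, mul_nonneg_of_nonpos_of_nonpos (le_of_lt (Mathlib.Tactic.Linarith.sub_neg_of_lt e2.left)) (Mathlib.Tactic.Linarith.sub_nonpos_of_le hc)]
      linarith [u2.1 this, e2.2]
    · linarith

/-- order of the upper break points -/
lemma G4 {S : ℚ} {Q Q' P : Br} (h : Half S Q P) (h' : Half S Q' P) (hS : 0 < S)
    (hs : Q'.sp ≤ Q.sp) :
    (0 < Q'.sp → Q'.ep < P.c → Q.ep < P.c) ∧ (Q.sp < 0 → Q.ep < P.c → Q'.ep < P.c) := by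
  obtain ⟨a1, a2, a3, a4, a5⟩ := h
  obtain ⟨b1, b2, b3, b4, b5⟩ := h'
  constructor
  · intro q1 q2
    rcases a4 with ⟨e1, -⟩ | ⟨-, e2, -⟩
    · linarith
    · have e3 := e2 (by linarith)
      rcases b4 with ⟨-, f2 | f2⟩ | ⟨f1, -⟩
      · have : 0 < P.sp := by by_contra hc; push Not at hc; linarith only [hs, f2, q1, e3, f2.1, f2.2, mul_nonneg_of_nonpos_of_nonpos (Mathlib.Tactic.Linarith.sub_nonpos_of_le hs) (le_of_lt (Mathlib.Tactic.Linarith.sub_neg_of_lt f2.right)), mul_pos_of_neg_of_neg (Mathlib.Tactic.Linarith.sub_neg_of_lt q1) (Mathlib.Tactic.Linarith.sub_neg_of_lt e3), mul_pos_of_neg_of_neg (Mathlib.Tactic.Linarith.sub_neg_of_lt q1) (Mathlib.Tactic.Linarith.sub_neg_of_lt f2.right)]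
        linarith only [e3, f2, hs, this, f2.2, mul_nonneg_of_nonpos_of_nonpos (Mathlib.Tactic.Linarith.sub_nonpos_of_le hs) (le_of_lt (Mathlib.Tactic.Linarith.sub_neg_of_lt this))]
      · linarith [f2.1]
      · linarith
  · intro q1 q2
    rcases b4 with ⟨e1, -⟩ | ⟨-, -, e2⟩
    · linarith
    · have e3 := e2 (by linarith)
      rcases a4 with ⟨-, f2 | f2⟩ | ⟨f1, -⟩
      · linarith [f2.1]
      · have : P.sm < 0 := by by_contra hc; push Not at hc; linarith only [hs, f2, q1, e3, f2.1, f2.2, mul_nonneg_of_nonpos_of_nonpos (Mathlib.Tactic.Linarith.sub_nonpos_of_le hs) (le_of_lt (Mathlib.Tactic.Linarith.sub_neg_of_lt f2.right)), mul_pos_of_neg_of_neg (Mathlib.Tactic.Linarith.sub_neg_of_lt q1) (Mathlib.Tactic.Linarith.sub_neg_of_lt e3), mul_pos_of_neg_of_neg (Mathlib.Tactic.Linarith.sub_neg_of_lt q1) (Mathlib.Tactic.Linarith.sub_neg_of_lt f2.right)]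
        linarith only [e3, f2, hs, this, f2.2, mul_nonneg_of_nonpos_of_nonpos (Mathlib.Tactic.Linarith.sub_nonpos_of_le hs) (le_of_lt (Mathlib.Tactic.Linarith.sub_neg_of_lt this))]
      · linarith

lemma Br.lip_up (Q : Br) {y y' : ℚ} (h : Q.em ≤ y) (h' : Q.em ≤ y') :
    |Q.f y' - Q.f y| ≤ |Q.sp| * |y' - y| := by
  simp only [Br.f]
  rw [min_eq_right (by linarith), min_eq_right (by linarith)]
  rw [show Q.c + Q.sp * max (y' - Q.ep) 0 + Q.sm * 0 - (Q.c + Q.sp * max (y - Q.ep) 0 + Q.sm * 0)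
    = Q.sp * (max (y' - Q.ep) 0 - max (y - Q.ep) 0) by ring, abs_mul]
  refine mul_le_mul_of_nonneg_left ?_ (abs_nonneg _)
  simpa using abs_max_sub_max_le_abs (y' - Q.ep) (y - Q.ep) 0

lemma Br.lip_dn (Q : Br) {y y' : ℚ} (h : y ≤ Q.ep) (h' : y' ≤ Q.ep) :
    |Q.f y' - Q.f y| ≤ |Q.sm| * |y' - y| := by
  have := Q.na.lip_up (y := -y) (y' := -y') (by simp only [Br.na]; linarith)
    (by simp only [Br.na]; linarith)
  rw [Br.na_f, Br.na_f] at this
  simpa [Br.na, abs_sub_comm, ← sub_eq_neg_add] using this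

lemma Br.cases_gt (Q : Br) {y : ℚ} (he : Q.em ≤ Q.ep) (h : Q.c < Q.f y) :
    (Q.ep < y ∧ 0 < Q.sp) ∨ (y < Q.em ∧ Q.sm < 0) := by
  by_cases c1 : Q.ep < y
  · rw [Q.f_up c1.le he] at h
    exact Or.inl ⟨c1, by by_contra hc; push Not at hc; linarith only [h, c1, hc, mul_nonneg_of_nonpos_of_nonpos (le_of_lt (Mathlib.Tactic.Linarith.sub_neg_of_lt c1)) (Mathlib.Tactic.Linarith.sub_nonpos_of_le hc)]⟩
  by_cases c2 : y < Q.em
  · rw [Q.f_dn c2.le he] at h
    exact Or.inr ⟨c2, by by_contra hc; push Not at hc; linarith only [h, c2, hc, mul_nonneg_of_nonpos_of_nonpos (le_of_lt (Mathlib.Tactic.Linarith.sub_neg_of_lt c2)) (Mathlib.Tactic.Linarith.sub_nonpos_of_le hc)]⟩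
  push Not at c1 c2
  rw [Q.f_mid c2 c1] at h; linarith

lemma Br.cases_lt (Q : Br) {y : ℚ} (he : Q.em ≤ Q.ep) (h : Q.f y < Q.c) :
    (Q.ep < y ∧ Q.sp < 0) ∨ (y < Q.em ∧ 0 < Q.sm) := by
  have := Q.nv.cases_gt (y := y) he (by rw [Br.nv_f]; simp only [Br.nv]; linarith)
  simpa [Br.nv] using this

end Pool.Agent.Work.MP_0909b4_al
end

-- merged part: Pool.Agent.Work.MP_0909b4_al.Local
section
/-! The two kinds of model planes. -/

namespace Pool.Agent.Work.MP_0909b4_al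

def Plane.shift (P : Plane) (x0 y0 : ℤ) : Plane :=
  ⟨fun k y => P.Φ k (y + y0) - x0, fun j x => P.Ξ j (x + x0) - y0,
    fun x y => P.len (x + x0) (y + y0)⟩

lemma Fw.shift {L p : ℤ} {P : Plane} {M M' : ℤ → ℤ} (h : Fw L p P M M') (x0 y0 : ℤ) :
    Fw L p (P.shift x0 y0) M M' := by
  intro k hk x y x' y' h1 h2 h3 h4
  simp only [Plane.shift] at h1 h3 h4
  obtain ⟨k', hk', hA, hB⟩ := h k hk (x + x0) (y + y0) (x' + x0) (y' + y0) (by omega) (by omega)
    (by omega) (by omega)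
  have b : ∀ {x y}, Below L p P k' (x + x0) (y + y0) → Below L p (P.shift x0 y0) k' x y :=
    fun q j hj hl => by have := q j hj hl; simp only [Plane.shift]; omega
  have a : ∀ {x y}, Above L p P k' (x + x0) (y + y0) → Above L p (P.shift x0 y0) k' x y :=
    fun q j hj hl => by have := q j hj hl; simp only [Plane.shift]; omega
  refine ⟨k', hk', ?_, fun hs => ?_⟩
  · rcases hA with ⟨e1, e2, e3⟩ | ⟨e1, e2, e3⟩
    · exact Or.inl ⟨by omega, b e2, a e3⟩
    · exact Or.inr ⟨by omega, b e2, a e3⟩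
  · rw [show y' + y0 - (y + y0) = y' - y by ring, show x' + x0 - (x + x0) = x' - x by ring] at hB
    obtain ⟨e1, e2, e3, e4, e5, e6⟩ := hB hs
    refine ⟨e1, b e2, a e3, b e4, a e5, fun q q' => ?_⟩
    simp only [Plane.shift] at q q' ⊢
    exact e6 (by omega) (by omega)

lemma Ex.shift {L : ℤ} {P : Plane} (h : Ex L P) (x0 y0 : ℤ) : Ex L (P.shift x0 y0) where
  anti y k k' hk hk' hle := by
    have := h.anti (y + y0) k k' hk hk' hle
    simp only [Plane.shift] at *; omega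
  mono x k k' hk hk' hle := by
    have := h.mono (x + x0) k k' hk hk' hle
    simp only [Plane.shift] at *; omega
  jump k j y hk hj := by
    have := h.jump k j (y + y0) hk hj
    simp only [Plane.shift, sub_add_cancel] at *
    rw [show y + 1 + y0 = y + y0 + 1 by ring]; omega
  ext k y hk := by
    have := h.ext k (y + y0) hk
    simp only [Plane.shift, sub_add_cancel] at *; omega

lemma rnd_le {M : ℤ} (hM : 0 < M) (a : ℚ) : ((M * ⌊a / M⌋ : ℤ) : ℚ) ≤ a := by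
  have h : (0 : ℚ) < M := by exact_mod_cast hM
  have := Int.floor_le (a / M)
  rw [le_div_iff₀ h] at this
  push_cast; linarith only [this]

lemma lt_rnd {M : ℤ} (hM : 0 < M) (a : ℚ) : a - M < ((M * ⌊a / M⌋ : ℤ) : ℚ) := by
  have h : (0 : ℚ) < M := by exact_mod_cast hM
  have := Int.lt_floor_add_one (a / M)
  rw [div_lt_iff₀ h] at this
  push_cast; linarith only [this]

lemma rnd_mono {M : ℤ} (hM : 0 < M) {a b : ℚ} (hab : a ≤ b) : M * ⌊a / M⌋ ≤ M * ⌊b / M⌋ := by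
  have h : (0 : ℚ) < M := by exact_mod_cast hM
  exact mul_le_mul_of_nonneg_left (Int.floor_mono (by gcongr)) hM.le

lemma rnd_step {M : ℤ} (hM : 0 < M) {a b : ℚ} (hab : b ≤ a + M) :
    M * ⌊b / M⌋ ≤ M * ⌊a / M⌋ + M := by
  have h : (0 : ℚ) < M := by exact_mod_cast hM
  have := rnd_mono hM hab
  rw [add_div, div_self h.ne', Int.floor_add_one] at this
  linarith only [this]

structure NPH (L p S Mx : ℤ) (Q P : ℤ → Br) (ap am M M' : ℤ → ℤ) (Φ Ξ : ℤ → ℤ → ℤ) : Prop where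
  cross : ∀ k j, Kc L p k → Kc L (1 - p) j → Cross S (Q k) (P j)
  lab : ∀ k, Kc L p k → Kc L p (ap k) ∧ Kc L p (am k) ∧ am k ≤ ap k ∧ (Q k).sp ≠ 0 ∧ (Q k).sm ≠ 0
  qe : ∀ k, (Q k).ep = 2 * S * ap k + S ∧ (Q k).em = 2 * S * am k - S ∧ (Q k).c = -2 * S * k
  pc : ∀ j, (P j).c = 2 * S * j
  gain : ∀ k, Kc L p k → |(Q k).sp| * M' (ap k) < M k ∧ |(Q k).sm| * M' (am k) < M k
  slope : ∀ k k', Kc L p k → Kc L p k' → k ≤ k' → (Q k').sp ≤ (Q k).sp ∧ (Q k).sm ≤ (Q k').sm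
  hM : ∀ c, -L ≤ c → c ≤ L → 0 < M c ∧ M c ≤ Mx ∧ 0 < M' c ∧ M' c ≤ Mx
  hS : 2 * Mx < S
  hΦ : ∀ k y, Φ k y = -2 * S * k + M k * ⌊((Q k).f y - (Q k).c) / M k⌋
  hΞ : ∀ j x, Ξ j x = 2 * S * j + M' j * ⌊((P j).f x - (P j).c) / M' j⌋

section np
variable {L p S Mx : ℤ} {Q P : ℤ → Br} {ap am M M' : ℤ → ℤ} {Φ Ξ : ℤ → ℤ → ℤ}

lemma NPH.Φ_bd (H : NPH L p S Mx Q P ap am M M' Φ Ξ) {k : ℤ} (hk : -L ≤ k ∧ k ≤ L) (y : ℤ) :
    (Q k).f y - Mx < Φ k y ∧ (Φ k y : ℚ) ≤ (Q k).f y := by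
  obtain ⟨m1, m2, -⟩ := H.hM k hk.1 hk.2
  have a := rnd_le m1 ((Q k).f y - (Q k).c)
  have b := lt_rnd m1 ((Q k).f y - (Q k).c)
  have c : (M k : ℚ) ≤ Mx := by exact_mod_cast m2
  have d := (H.qe k).2.2
  rw [H.hΦ]
  push_cast at *
  constructor <;> linarith only [c, d, b, a]

lemma NPH.Ξ_bd (H : NPH L p S Mx Q P ap am M M' Φ Ξ) {k : ℤ} (hk : -L ≤ k ∧ k ≤ L) (y : ℤ) :
    (P k).f y - Mx < Ξ k y ∧ (Ξ k y : ℚ) ≤ (P k).f y := by
  obtain ⟨-, -, m1, m2⟩ := H.hM k hk.1 hk.2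
  have a := rnd_le m1 ((P k).f y - (P k).c)
  have b := lt_rnd m1 ((P k).f y - (P k).c)
  have c : (M' k : ℚ) ≤ Mx := by exact_mod_cast m2
  have d := H.pc k
  rw [H.hΞ]
  push_cast at *
  constructor <;> linarith only [c, d, b, a]

lemma NPH.Mx_pos (H : NPH L p S Mx Q P ap am M M' Φ Ξ) {k : ℤ} (hk : Kc L p k) :
    (0 : ℚ) < Mx ∧ (2 * Mx : ℚ) < S := by
  obtain ⟨m1, m2, -⟩ := H.hM k hk.1 hk.2.1
  exact ⟨by exact_mod_cast lt_of_lt_of_le m1 m2, by exact_mod_cast H.hS⟩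

lemma NPH.pos (H : NPH L p S Mx Q P ap am M M' Φ Ξ) {k : ℤ} (hk : Kc L p k) (j : ℤ) :
    (ap k < j → (Q k).ep < (P j).c) ∧ (j < ap k → (P j).c < (Q k).ep) ∧
      (am k < j → (Q k).em < (P j).c) ∧ (j < am k → (P j).c < (Q k).em) ∧
      (Q k).em + 2 * S ≤ (Q k).ep := by
  obtain ⟨m1, m2⟩ := H.Mx_pos hk
  obtain ⟨e1, e2, -⟩ := H.qe k
  have hS : (0 : ℚ) < S := by linarith
  have hl : (am k : ℚ) ≤ ap k := by exact_mod_cast (H.lab k hk).2.2.1
  rw [e1, e2, H.pc]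
  refine ⟨fun h => ?_, fun h => ?_, fun h => ?_, fun h => ?_, by linarith only [m1, hl, m2, mul_nonneg_of_nonpos_of_nonpos (le_of_lt (Mathlib.Tactic.Linarith.sub_neg_of_lt m1)) (Mathlib.Tactic.Linarith.sub_nonpos_of_le hl), mul_nonneg_of_nonpos_of_nonpos (le_of_lt (Mathlib.Tactic.Linarith.sub_neg_of_lt m2)) (Mathlib.Tactic.Linarith.sub_nonpos_of_le hl)]⟩
  · have : (ap k : ℚ) + 1 ≤ j := by exact_mod_cast h
    linarith only [m1, m2, this, mul_nonneg_of_nonpos_of_nonpos (le_of_lt (Mathlib.Tactic.Linarith.sub_neg_of_lt m1)) (Mathlib.Tactic.Linarith.sub_nonpos_of_le this), mul_nonneg_of_nonpos_of_nonpos (le_of_lt (Mathlib.Tactic.Linarith.sub_neg_of_lt m2)) (Mathlib.Tactic.Linarith.sub_nonpos_of_le this)]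
  · have : (j : ℚ) ≤ ap k := by exact_mod_cast h.le
    linarith only [m1, m2, this, mul_nonneg_of_nonpos_of_nonpos (le_of_lt (Mathlib.Tactic.Linarith.sub_neg_of_lt m1)) (Mathlib.Tactic.Linarith.sub_nonpos_of_le this), mul_nonneg_of_nonpos_of_nonpos (le_of_lt (Mathlib.Tactic.Linarith.sub_neg_of_lt m2)) (Mathlib.Tactic.Linarith.sub_nonpos_of_le this)]
  · have : (am k : ℚ) ≤ j := by exact_mod_cast h.le
    linarith only [m1, m2, this, mul_nonneg_of_nonpos_of_nonpos (le_of_lt (Mathlib.Tactic.Linarith.sub_neg_of_lt m1)) (Mathlib.Tactic.Linarith.sub_nonpos_of_le this), mul_nonneg_of_nonpos_of_nonpos (le_of_lt (Mathlib.Tactic.Linarith.sub_neg_of_lt m2)) (Mathlib.Tactic.Linarith.sub_nonpos_of_le this)]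
  · have : (j : ℚ) + 1 ≤ am k := by exact_mod_cast h
    linarith only [m1, m2, this, mul_nonneg_of_nonpos_of_nonpos (le_of_lt (Mathlib.Tactic.Linarith.sub_neg_of_lt m1)) (Mathlib.Tactic.Linarith.sub_nonpos_of_le this), mul_nonneg_of_nonpos_of_nonpos (le_of_lt (Mathlib.Tactic.Linarith.sub_neg_of_lt m2)) (Mathlib.Tactic.Linarith.sub_nonpos_of_le this)]

lemma NPH.lt_Ξ (H : NPH L p S Mx Q P ap am M M' Φ Ξ) {j x y : ℤ} (hj : Kc L (1 - p) j)
    (hM : (0 : ℚ) < Mx) (h : y + 2 * Mx < (P j).f x) : y < Ξ j x := by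
  have := (H.Ξ_bd ⟨hj.1, hj.2.1⟩ x).1
  exact_mod_cast (show (y : ℚ) < Ξ j x by linarith)

lemma NPH.Ξ_lt (H : NPH L p S Mx Q P ap am M M' Φ Ξ) {j x y : ℤ} (hj : Kc L (1 - p) j)
    (hM : (0 : ℚ) < Mx) (h : (P j).f x + 2 * Mx < y) : Ξ j x < y := by
  have := (H.Ξ_bd ⟨hj.1, hj.2.1⟩ x).2
  exact_mod_cast (show (Ξ j x : ℚ) < y by linarith)

lemma NPH.top (H : NPH L p S Mx Q P ap am M M' Φ Ξ) {k j x y : ℤ} (hk : Kc L p k)
    (hj : Kc L (1 - p) j) (hl : ap k < j)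
    (h : (0 < (Q k).sp ∧ Φ k y - Mx ≤ x) ∨ ((Q k).sp < 0 ∧ x ≤ Φ k y + Mx)) : y < Ξ j x := by
  obtain ⟨m1, m2⟩ := H.Mx_pos hk
  have b := H.Φ_bd ⟨hk.1, hk.2.1⟩ y
  refine H.lt_Ξ hj m1 ?_
  rcases h with ⟨h1, h2⟩ | ⟨h1, h2⟩
  · have : (Φ k y : ℚ) - Mx ≤ x := by exact_mod_cast h2
    exact G1a (H.cross k j hk hj) (by linarith) m2 h1 ((H.pos hk j).1 hl) (by linarith)
  · have : (x : ℚ) ≤ Φ k y + Mx := by exact_mod_cast h2
    exact G1b (H.cross k j hk hj) (by linarith) m2 h1 ((H.pos hk j).1 hl) (by linarith)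

lemma NPH.bot (H : NPH L p S Mx Q P ap am M M' Φ Ξ) {k j x y : ℤ} (hk : Kc L p k)
    (hj : Kc L (1 - p) j) (hl : j < am k)
    (h : ((Q k).sm < 0 ∧ Φ k y - Mx ≤ x) ∨ (0 < (Q k).sm ∧ x ≤ Φ k y + Mx)) : Ξ j x < y := by
  obtain ⟨m1, m2⟩ := H.Mx_pos hk
  have b := H.Φ_bd ⟨hk.1, hk.2.1⟩ y
  refine H.Ξ_lt hj m1 ?_
  rcases h with ⟨h1, h2⟩ | ⟨h1, h2⟩
  · have : (Φ k y : ℚ) - Mx ≤ x := by exact_mod_cast h2
    exact G1c (H.cross k j hk hj) (by linarith only [m1]) m2 h1 ((H.pos hk j).2.2.2.1 hl) (by linarith)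
  · have : (x : ℚ) ≤ Φ k y + Mx := by exact_mod_cast h2
    exact G1d (H.cross k j hk hj) (by linarith) m2 h1 ((H.pos hk j).2.2.2.1 hl) (by linarith)

lemma NPH.up (H : NPH L p S Mx Q P ap am M M' Φ Ξ) {k j x y : ℤ} (hk : Kc L p k)
    (hj : Kc L (1 - p) j) (hl : j < ap k) (hy : (Q k).ep - Mx ≤ y)
    (h : (0 < (Q k).sp ∧ -2 * S * k - Mx ≤ x ∧ x ≤ Φ k y + Mx) ∨
      ((Q k).sp < 0 ∧ x ≤ -2 * S * k + Mx ∧ Φ k y - Mx ≤ x)) : Ξ j x < y := by
  obtain ⟨m1, m2⟩ := H.Mx_pos hk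
  have b := H.Φ_bd ⟨hk.1, hk.2.1⟩ y
  have e := (H.qe k).2.2
  refine H.Ξ_lt hj m1 ?_
  rcases h with ⟨h1, h2, h3⟩ | ⟨h1, h2, h3⟩
  · have : (x : ℚ) ≤ Φ k y + Mx := by exact_mod_cast h3
    have : -2 * S * k - Mx ≤ (x : ℚ) := by exact_mod_cast h2
    exact G2a (H.cross k j hk hj) (by linarith only [m1]) m2 h1 ((H.pos hk j).2.1 hl) (by linarith)
      (by linarith) (by linarith)
  · have : (Φ k y : ℚ) - Mx ≤ x := by exact_mod_cast h3
    have : (x : ℚ) ≤ -2 * S * k + Mx := by exact_mod_cast h2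
    exact G2b (H.cross k j hk hj) (by linarith) m2 h1 ((H.pos hk j).2.1 hl) (by linarith)
      (by linarith) (by linarith)

lemma NPH.dn (H : NPH L p S Mx Q P ap am M M' Φ Ξ) {k j x y : ℤ} (hk : Kc L p k)
    (hj : Kc L (1 - p) j) (hl : am k < j) (hy : y ≤ (Q k).em + Mx)
    (h : ((Q k).sm < 0 ∧ -2 * S * k - Mx ≤ x ∧ x ≤ Φ k y + Mx) ∨
      (0 < (Q k).sm ∧ x ≤ -2 * S * k + Mx ∧ Φ k y - Mx ≤ x)) : y < Ξ j x := by
  obtain ⟨m1, m2⟩ := H.Mx_pos hk
  have b := H.Φ_bd ⟨hk.1, hk.2.1⟩ y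
  have e := (H.qe k).2.2
  refine H.lt_Ξ hj m1 ?_
  rcases h with ⟨h1, h2, h3⟩ | ⟨h1, h2, h3⟩
  · have : (x : ℚ) ≤ Φ k y + Mx := by exact_mod_cast h3
    have : -2 * S * k - Mx ≤ (x : ℚ) := by exact_mod_cast h2
    exact G2c (H.cross k j hk hj) (by linarith only [m1]) m2 h1 ((H.pos hk j).2.2.1 hl) (by linarith)
      (by linarith) (by linarith)
  · have : (Φ k y : ℚ) - Mx ≤ x := by exact_mod_cast h3
    have : (x : ℚ) ≤ -2 * S * k + Mx := by exact_mod_cast h2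
    exact G2d (H.cross k j hk hj) (by linarith) m2 h1 ((H.pos hk j).2.2.1 hl) (by linarith)
      (by linarith) (by linarith)

lemma NPH.step (H : NPH L p S Mx Q P ap am M M' Φ Ξ) {k y y' : ℤ} (hk : Kc L p k)
    (h : |(Q k).f y' - (Q k).f y| ≤ M k) (hlt : Φ k y < Φ k y') : Φ k y' = Φ k y + M k := by
  obtain ⟨m1, -⟩ := H.hM k hk.1 hk.2.1
  have a := rnd_step m1 (a := (Q k).f y - (Q k).c) (b := (Q k).f y' - (Q k).c)
    (by linarith only [h, (abs_le.1 h).2])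
  rw [H.hΦ, H.hΦ] at *
  have : ⌊((Q k).f y - (Q k).c) / M k⌋ + 1 ≤ ⌊((Q k).f y' - (Q k).c) / M k⌋ :=
    lt_of_mul_lt_mul_left (by linarith only [hlt]) m1.le
  nlinarith

def sg (s : ℚ) (m : ℤ) : ℤ := if 0 < s then m else -m

theorem NPH.fw (H : NPH L p S Mx Q P ap am M M' Φ Ξ) (len : ℤ → ℤ → ℤ)
    (hlen : ∀ k, Kc L p k → ∀ x y y', x = Φ k y → x + M k = Φ k y' →
      (∀ j, Kc L (1 - p) j → y ≠ Ξ j x) → (∀ j, Kc L (1 - p) j → y' ≠ Ξ j (x + M k)) →
      ((2 * S * ap k < y ∧ 2 * S * ap k < y' ∧ y' - y = sg (Q k).sp (M' (ap k))) ∨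
        (y ≤ 2 * S * ap k ∧ y' ≤ 2 * S * ap k ∧ y' - y = sg (Q k).sm (M' (am k)))) →
      len x y = len (x + M k) y') :
    Fw L p ⟨Φ, Ξ, len⟩ M M' := by
  intro k hk x y x' y' h1 h2 h3 h4
  simp only at h1 h3 h4
  obtain ⟨m1, m2⟩ := H.Mx_pos hk
  obtain ⟨l1, l2, l3, -⟩ := H.lab k hk
  obtain ⟨e1, e2, e3⟩ := H.qe k
  obtain ⟨g1, g2⟩ := H.gain k hk
  obtain ⟨n1, n2, -⟩ := H.hM k hk.1 hk.2.1
  have he := (H.pos hk 0).2.2.2.2
  have he' : (Q k).em ≤ (Q k).ep := by linarith only [m1, m2, he]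
  have hMx : 0 < Mx := by omega
  have b := H.Φ_bd ⟨hk.1, hk.2.1⟩ y
  have b' := H.Φ_bd ⟨hk.1, hk.2.1⟩ y'
  have hf : (Q k).f y < (Q k).f y' := by
    by_contra hc
    have := rnd_mono n1 (a := (Q k).f y' - (Q k).c) (b := (Q k).f y - (Q k).c) (by linarith only [hc])
    rw [H.hΦ, H.hΦ] at h4; omega
  -- common ending
  have fin : ∀ k', Kc L p k' → Φ k y' = Φ k y + M k → Below L p ⟨Φ, Ξ, len⟩ k' x y →
      Above L p ⟨Φ, Ξ, len⟩ k' x y → Below L p ⟨Φ, Ξ, len⟩ k' x' y' →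
      Above L p ⟨Φ, Ξ, len⟩ k' x' y' →
      (|y' - y| = M' k' →
        ((2 * S * ap k < y ∧ 2 * S * ap k < y' ∧ y' - y = sg (Q k).sp (M' (ap k))) ∨
        (y ≤ 2 * S * ap k ∧ y' ≤ 2 * S * ap k ∧ y' - y = sg (Q k).sm (M' (am k))))) →
      x' - x ≤ M k ∧ Below L p ⟨Φ, Ξ, len⟩ k' x y ∧ Above L p ⟨Φ, Ξ, len⟩ k' x y ∧
        Below L p ⟨Φ, Ξ, len⟩ k' x' y' ∧ Above L p ⟨Φ, Ξ, len⟩ k' x' y' ∧
        (x = Φ k y → x' = Φ k y' → (|y' - y| = M' k' → x' - x = M k ∧ len x y = len x' y') ∧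
          (len x y = len x' y' ∨ x' - x = M k)) := by
    intro k' hk' s a1 a2 a3 a4 a5
    refine ⟨by omega, a1, a2, a3, a4, fun q q' => ⟨fun r => ⟨by omega, ?_⟩, Or.inr (by omega)⟩⟩
    obtain rfl : x' = x + M k := by omega
    have ne : ∀ {x y}, Below L p ⟨Φ, Ξ, len⟩ k' x y → Above L p ⟨Φ, Ξ, len⟩ k' x y →
        ∀ j, Kc L (1 - p) j → y ≠ Ξ j x := by
      intro x y u v j hj
      rcases lt_trichotomy j k' with c | c | c
      · exact (v j hj c).ne'
      · exfalso; unfold Kc at hj hk'; omega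
      · exact (u j hj c).ne
    exact hlen k hk x y y' q q' (ne a1 a2) (ne a3 a4) (a5 r)
  have supU : ∀ {y y' : ℤ}, (Q k).ep < y → |y' - y| ≤ M' (ap k) →
      (Q k).ep - Mx ≤ y' ∧ |(Q k).f y' - (Q k).f y| ≤ M k ∧ 2 * S * ap k < y ∧
        2 * S * ap k < y' := by
    intro y y' c1 c2
    have c3 := (H.hM _ l1.1 l1.2.1).2.2.2
    have c4 : |(y' : ℚ) - y| ≤ M' (ap k) := by exact_mod_cast c2
    have c5 : (M' (ap k) : ℚ) ≤ Mx := by exact_mod_cast c3
    have c6 := (abs_le.1 c4).1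
    refine ⟨by linarith only [c1, c5, c6], ?_, ?_, ?_⟩
    · have := (Q k).lip_up (y := y) (y' := y') (by linarith only [m1, m2, he, c1]) (by linarith only [m1, m2, he, c1, c5, c6])
      have := mul_le_mul_of_nonneg_left c4 (abs_nonneg (Q k).sp)
      linarith
    · exact_mod_cast (show (2 * S * ap k : ℚ) < y by linarith only [m1, m2, e1, c1])
    · exact_mod_cast (show (2 * S * ap k : ℚ) < y' by linarith only [m1, m2, e1, c1, c5, c6])
  have supD : ∀ {y y' : ℤ}, y < (Q k).em → |y' - y| ≤ M' (am k) →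
      y' ≤ (Q k).em + Mx ∧ |(Q k).f y' - (Q k).f y| ≤ M k ∧ y ≤ 2 * S * ap k ∧
        y' ≤ 2 * S * ap k := by
    intro y y' c1 c2
    have c3 := (H.hM _ l2.1 l2.2.1).2.2.2
    have c4 : |(y' : ℚ) - y| ≤ M' (am k) := by exact_mod_cast c2
    have c5 : (M' (am k) : ℚ) ≤ Mx := by exact_mod_cast c3
    have c6 := (abs_le.1 c4).2
    refine ⟨by linarith, ?_, ?_, ?_⟩
    · have := (Q k).lip_dn (y := y) (y' := y') (by linarith only [m1, m2, he, c1]) (by linarith only [m1, m2, he, c1, c5, c6])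
      have := mul_le_mul_of_nonneg_left c4 (abs_nonneg (Q k).sm)
      linarith
    · exact_mod_cast (show (y : ℚ) ≤ 2 * S * ap k by linarith only [m1, m2, e1, he, c1])
    · exact_mod_cast (show (y' : ℚ) ≤ 2 * S * ap k by linarith only [m1, m2, e1, he, c1, c5, c6])
  by_cases hU : -2 * S * k < Φ k y' ∧ -2 * S * k ≤ x'
  · have hc : (Q k).c < (Q k).f y' := by
      have : -2 * S * k < (Φ k y' : ℚ) := by exact_mod_cast hU.1
      linarith only [e3, b', this]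
    rcases (Q k).cases_gt he' hc with ⟨c1, c2⟩ | ⟨c1, c2⟩
    · have hy : y < y' := by
        by_contra q
        have q' : (y' : ℚ) ≤ y := by exact_mod_cast not_lt.1 q
        rw [(Q k).f_up c1.le he', (Q k).f_up (by linarith) he'] at hf
        linarith only [hf, c2, q', mul_nonneg_of_nonpos_of_nonpos (le_of_lt (Mathlib.Tactic.Linarith.sub_neg_of_lt c2)) (Mathlib.Tactic.Linarith.sub_nonpos_of_le q')]
      have B1 : Below L p ⟨Φ, Ξ, len⟩ (ap k) x y :=
        fun j hj hl => H.top hk hj hl (Or.inl ⟨c2, by omega⟩)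
      have A2 : Above L p ⟨Φ, Ξ, len⟩ (ap k) x' y' :=
        fun j hj hl => H.up hk hj hl (by linarith only [m1, c1]) (Or.inl ⟨c2, by omega, by omega⟩)
      refine ⟨ap k, l1, Or.inl ⟨hy, B1, A2⟩, fun hs => ?_⟩
      obtain ⟨s1, s2, s3, s4⟩ := supU c1 (y' := y) (by rwa [abs_sub_comm])
      have s := H.step hk (by rwa [abs_sub_comm]) h4
      refine fin _ l1 s B1 (fun j hj hl => H.up hk hj hl s1 (Or.inl ⟨c2, by omega, by omega⟩))
        (fun j hj hl => H.top hk hj hl (Or.inl ⟨c2, by omega⟩)) A2 fun r => Or.inl ⟨s4, s3, ?_⟩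
      rw [sg, if_pos c2, ← r, abs_of_pos (by omega)]
    · have hy : y' < y := by
        by_contra q
        have q' : (y : ℚ) ≤ y' := by exact_mod_cast not_lt.1 q
        rw [(Q k).f_dn c1.le he', (Q k).f_dn (by linarith only [c1, q']) he'] at hf
        linarith only [hf, c2, q', mul_nonneg_of_nonpos_of_nonpos (le_of_lt (Mathlib.Tactic.Linarith.sub_neg_of_lt c2)) (Mathlib.Tactic.Linarith.sub_nonpos_of_le q')]
      have B1 : Below L p ⟨Φ, Ξ, len⟩ (am k) x' y' :=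
        fun j hj hl => H.dn hk hj hl (by linarith) (Or.inl ⟨c2, by omega, by omega⟩)
      have A2 : Above L p ⟨Φ, Ξ, len⟩ (am k) x y :=
        fun j hj hl => H.bot hk hj hl (Or.inl ⟨c2, by omega⟩)
      refine ⟨am k, l2, Or.inr ⟨hy, B1, A2⟩, fun hs => ?_⟩
      obtain ⟨s1, s2, s3, s4⟩ := supD c1 (y' := y) (by rwa [abs_sub_comm])
      have s := H.step hk (by rwa [abs_sub_comm]) h4
      refine fin _ l2 s (fun j hj hl => H.dn hk hj hl s1 (Or.inl ⟨c2, by omega, by omega⟩)) A2 B1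
        (fun j hj hl => H.bot hk hj hl (Or.inl ⟨c2, by omega⟩)) fun r => Or.inr ⟨s4, s3, ?_⟩
      rw [sg, if_neg (by linarith), ← r, abs_of_neg (by omega), neg_neg]
  · have hU1 : Φ k y < -2 * S * k := by omega
    have hU2 : x' ≤ -2 * S * k := by omega
    have hc : (Q k).f y < (Q k).c := by
      by_contra q
      have := rnd_mono n1 (a := 0) (b := (Q k).f y - (Q k).c) (by linarith only [q])
      rw [H.hΦ] at hU1
      simp only [zero_div, Int.floor_zero, mul_zero] at this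
      omega
    rcases (Q k).cases_lt he' hc with ⟨c1, c2⟩ | ⟨c1, c2⟩
    · have hy : y' < y := by
        by_contra q
        have q' : (y : ℚ) ≤ y' := by exact_mod_cast not_lt.1 q
        rw [(Q k).f_up c1.le he', (Q k).f_up (by linarith only [c1, q']) he'] at hf
        linarith only [hf, c2, q', mul_nonneg_of_nonpos_of_nonpos (le_of_lt (Mathlib.Tactic.Linarith.sub_neg_of_lt c2)) (Mathlib.Tactic.Linarith.sub_nonpos_of_le q')]
      have B1 : Below L p ⟨Φ, Ξ, len⟩ (ap k) x' y' :=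
        fun j hj hl => H.top hk hj hl (Or.inr ⟨c2, by omega⟩)
      have A2 : Above L p ⟨Φ, Ξ, len⟩ (ap k) x y :=
        fun j hj hl => H.up hk hj hl (by linarith) (Or.inr ⟨c2, by omega, by omega⟩)
      refine ⟨ap k, l1, Or.inr ⟨hy, B1, A2⟩, fun hs => ?_⟩
      obtain ⟨s1, s2, s3, s4⟩ := supU c1 hs
      have s := H.step hk s2 h4
      refine fin _ l1 s (fun j hj hl => H.top hk hj hl (Or.inr ⟨c2, by omega⟩)) A2 B1
        (fun j hj hl => H.up hk hj hl s1 (Or.inr ⟨c2, by omega, by omega⟩))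
        fun r => Or.inl ⟨s3, s4, ?_⟩
      rw [sg, if_neg (by linarith only [c2]), ← r, abs_of_neg (by omega), neg_neg]
    · have hy : y < y' := by
        by_contra q
        have q' : (y' : ℚ) ≤ y := by exact_mod_cast not_lt.1 q
        rw [(Q k).f_dn c1.le he', (Q k).f_dn (by linarith) he'] at hf
        linarith only [hf, c2, q', mul_nonneg_of_nonpos_of_nonpos (le_of_lt (Mathlib.Tactic.Linarith.sub_neg_of_lt c2)) (Mathlib.Tactic.Linarith.sub_nonpos_of_le q')]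
      have B1 : Below L p ⟨Φ, Ξ, len⟩ (am k) x y :=
        fun j hj hl => H.dn hk hj hl (by linarith) (Or.inr ⟨c2, by omega, by omega⟩)
      have A2 : Above L p ⟨Φ, Ξ, len⟩ (am k) x' y' :=
        fun j hj hl => H.bot hk hj hl (Or.inr ⟨c2, by omega⟩)
      refine ⟨am k, l2, Or.inl ⟨hy, B1, A2⟩, fun hs => ?_⟩
      obtain ⟨s1, s2, s3, s4⟩ := supD c1 hs
      have s := H.step hk s2 h4
      refine fin _ l2 s B1 (fun j hj hl => H.bot hk hj hl (Or.inr ⟨c2, by omega⟩))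
        (fun j hj hl => H.dn hk hj hl s1 (Or.inr ⟨c2, by omega, by omega⟩)) A2
        fun r => Or.inr ⟨s3, s4, ?_⟩
      rw [sg, if_pos c2, ← r, abs_of_pos (by omega)]

lemma NPH.ord (H : NPH L p S Mx Q P ap am M M' Φ Ξ) {k k' : ℤ} (hk : Kc L p k) (hk' : Kc L p k')
    (hlt : k < k') (y : ℤ) : Φ k' y < Φ k y := by
  obtain ⟨m1, m2⟩ := H.Mx_pos hk
  have hS : (0 : ℚ) < S := by linarith
  obtain ⟨s1, s2⟩ := H.slope k k' hk hk' hlt.le
  obtain ⟨l1, l2, -, l4, l5⟩ := H.lab k hk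
  obtain ⟨l1', l2', -, l4', l5'⟩ := H.lab k' hk'
  obtain ⟨e1, e2, e3⟩ := H.qe k
  obtain ⟨e1', e2', e3'⟩ := H.qe k'
  have mono : ∀ a b : ℤ, a ≤ b → (2 * S * a : ℚ) ≤ 2 * S * b := fun a b h => by
    have : (a : ℚ) ≤ b := by exact_mod_cast h
    linarith only [m1, this, m2, mul_nonneg_of_nonpos_of_nonpos (le_of_lt (Mathlib.Tactic.Linarith.sub_neg_of_lt m1)) (Mathlib.Tactic.Linarith.sub_nonpos_of_le this), mul_nonneg_of_nonpos_of_nonpos (le_of_lt (Mathlib.Tactic.Linarith.sub_neg_of_lt m2)) (Mathlib.Tactic.Linarith.sub_nonpos_of_le this)]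
  have u : (Q k').sp * max (y - (Q k').ep) 0 ≤ (Q k).sp * max (y - (Q k).ep) 0 := by
    by_cases c1 : 0 < (Q k').sp
    · have : ap k ≤ ap k' := by
        by_contra q
        have hj : Kc L (1 - p) (ap k' + 1) := by unfold Kc at *; omega
        have := (G4 (H.cross k _ hk hj).1 (H.cross k' _ hk' hj).1 hS s1).1 c1
          ((H.pos hk' _).1 (by omega))
        have := (H.pos hk (ap k' + 1)).2.1 (by unfold Kc at *; omega)
        linarith
      have := mono _ _ this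
      exact mul_le_mul s1 (max_le_max_right _ (by linarith only [e1, e1', this])) (le_max_right _ _) (by linarith)
    by_cases c2 : (Q k).sp < 0
    · have : ap k' ≤ ap k := by
        by_contra q
        have hj : Kc L (1 - p) (ap k + 1) := by unfold Kc at *; omega
        have := (G4 (H.cross k _ hk hj).1 (H.cross k' _ hk' hj).1 hS s1).2 c2
          ((H.pos hk _).1 (by omega))
        have := (H.pos hk' (ap k + 1)).2.1 (by unfold Kc at *; omega)
        linarith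
      have := mono _ _ this
      have q : max (y - (Q k).ep) 0 ≤ max (y - (Q k').ep) 0 := max_le_max_right _ (by linarith only [e1, e1', this])
      have q0 := le_max_right (y - (Q k).ep) 0
      linarith only [s1, q0, c1, q, mul_nonneg_of_nonpos_of_nonpos (Mathlib.Tactic.Linarith.sub_nonpos_of_le s1) (Mathlib.Tactic.Linarith.sub_nonpos_of_le q0), mul_nonneg_of_nonpos_of_nonpos (Mathlib.Tactic.Linarith.sub_nonpos_of_le (le_of_not_gt c1)) (Mathlib.Tactic.Linarith.sub_nonpos_of_le q)]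
    · have := le_max_right (y - (Q k).ep) 0
      have := le_max_right (y - (Q k').ep) 0
      nlinarith
  have d : (Q k').sm * min (y - (Q k').em) 0 ≤ (Q k).sm * min (y - (Q k).em) 0 := by
    have s2' : (Q k').na.sp ≤ (Q k).na.sp := by simp only [Br.na]; linarith
    by_cases c1 : (Q k').sm < 0
    · have : am k' ≤ am k := by
        by_contra q
        have hj : Kc L (1 - p) (am k' - 1) := by unfold Kc at *; omega
        have := (G4 (H.cross k _ hk hj).1.fy (H.cross k' _ hk' hj).1.fy hS s2').1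
          (by simpa [Br.na] using c1)
          (by simpa [Br.na, Br.nv] using (H.pos hk' _).2.2.2.1 (by omega))
        have := (H.pos hk (am k' - 1)).2.2.1 (by unfold Kc at *; omega)
        simp only [Br.na, Br.nv] at *
        linarith
      have := mono _ _ this
      have q : min (y - (Q k).em) 0 ≤ min (y - (Q k').em) 0 := min_le_min_right _ (by linarith only [e2, e2', this])
      have q0 := min_le_right (y - (Q k').em) 0
      linarith only [s2, q, q0, c1, mul_nonneg_of_nonpos_of_nonpos (Mathlib.Tactic.Linarith.sub_nonpos_of_le s2) (Mathlib.Tactic.Linarith.sub_nonpos_of_le q), mul_nonneg_of_nonpos_of_nonpos (Mathlib.Tactic.Linarith.sub_nonpos_of_le s2) (Mathlib.Tactic.Linarith.sub_nonpos_of_le q0), mul_nonneg_of_nonpos_of_nonpos (le_of_lt (Mathlib.Tactic.Linarith.sub_neg_of_lt c1)) (Mathlib.Tactic.Linarith.sub_nonpos_of_le q)]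
    by_cases c2 : 0 < (Q k).sm
    · have : am k ≤ am k' := by
        by_contra q
        have hj : Kc L (1 - p) (am k - 1) := by unfold Kc at *; omega
        have := (G4 (H.cross k _ hk hj).1.fy (H.cross k' _ hk' hj).1.fy hS s2').2
          (by simpa [Br.na] using c2)
          (by simpa [Br.na, Br.nv] using (H.pos hk _).2.2.2.1 (by omega))
        have := (H.pos hk' (am k - 1)).2.2.1 (by unfold Kc at *; omega)
        simp only [Br.na, Br.nv] at *
        linarith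
      have := mono _ _ this
      have q : min (y - (Q k').em) 0 ≤ min (y - (Q k).em) 0 := min_le_min_right _ (by linarith only [e2, e2', this])
      have q0 := min_le_right (y - (Q k).em) 0
      linarith only [s2, q0, c1, q, mul_nonneg_of_nonpos_of_nonpos (Mathlib.Tactic.Linarith.sub_nonpos_of_le s2) (Mathlib.Tactic.Linarith.sub_nonpos_of_le q0), mul_nonneg_of_nonpos_of_nonpos (Mathlib.Tactic.Linarith.sub_nonpos_of_le (le_of_not_gt c1)) (Mathlib.Tactic.Linarith.sub_nonpos_of_le q)]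
    · have := min_le_right (y - (Q k).em) 0
      have := min_le_right (y - (Q k').em) 0
      nlinarith
  have b := (H.Φ_bd ⟨hk.1, hk.2.1⟩ y).1
  have b' := (H.Φ_bd ⟨hk'.1, hk'.2.1⟩ y).2
  have := mono (k + 1) k' hlt
  simp only [Br.f] at b b'
  push_cast at this
  exact_mod_cast (show (Φ k' y : ℚ) < Φ k y by linarith only [m1, m2, e3, e3', u, d, b, b', this])

lemma NPH.along (H : NPH L p S Mx Q P ap am M M' Φ Ξ) {k j : ℤ} (hk : Kc L p k)
    (hj : Kc L (1 - p) j) (y : ℤ) :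
    (ap k < j → y < Ξ j (Φ k y)) ∧ (j < am k → Ξ j (Φ k y) < y) ∧
      (am k < j → j < ap k → (2 * S * j ≤ y → Ξ j (Φ k y) ≤ y) ∧
        (y ≤ 2 * S * j → y ≤ Ξ j (Φ k y))) := by
  obtain ⟨m1, m2⟩ := H.Mx_pos hk
  obtain ⟨-, -, -, l4, l5⟩ := H.lab k hk
  obtain ⟨n1, n2, -⟩ := H.hM k hk.1 hk.2.1
  have hMx : 0 < Mx := by omega
  refine ⟨fun h => H.top hk hj h ?_, fun h => H.bot hk hj h ?_, fun h h' => ?_⟩
  · rcases lt_or_gt_of_ne l4 with c | c
    · exact Or.inr ⟨c, by omega⟩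
    · exact Or.inl ⟨c, by omega⟩
  · rcases lt_or_gt_of_ne l5 with c | c
    · exact Or.inl ⟨c, by omega⟩
    · exact Or.inr ⟨c, by omega⟩
  obtain ⟨p1, p2, p3, p4, p5⟩ := H.pos hk j
  have p2 := p2 h'
  have p3 := p3 h
  have e3 := (H.qe k).2.2
  have pc := H.pc j
  have b := (H.Φ_bd ⟨hk.1, hk.2.1⟩ y)
  have mid : (Q k).em ≤ y → y ≤ (Q k).ep → Ξ j (Φ k y) = 2 * S * j := by
    intro c1 c2
    obtain ⟨g1, g2⟩ := G3 (H.cross k j hk hj) (by linarith only [m1, m2]) p3 p2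
    have : (Φ k y : ℚ) = (Q k).c := by rw [H.hΦ, (Q k).f_mid c1 c2, e3]; simp
    rw [H.hΞ, this, (P j).f_mid g1 g2]; simp
  have ge : (Q k).c ≤ (Q k).f y → -2 * S * k ≤ Φ k y := fun q => by
    have := rnd_mono n1 (a := 0) (b := (Q k).f y - (Q k).c) (by linarith)
    simp only [zero_div, Int.floor_zero, mul_zero] at this
    rw [H.hΦ]; omega
  have le : (Q k).f y ≤ (Q k).c → Φ k y ≤ -2 * S * k := fun q => by
    exact_mod_cast (show (Φ k y : ℚ) ≤ -2 * S * k by linarith only [e3, b, q])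
  constructor
  · intro c
    have c' : 2 * S * j ≤ (y : ℚ) := by exact_mod_cast c
    by_cases c1 : y ≤ (Q k).ep
    · rw [mid (by linarith only [p3, pc, c']) c1]; exact c
    push Not at c1
    have f := (Q k).f_up c1.le (by linarith)
    refine (H.up hk hj h' (by linarith) ?_).le
    rcases lt_or_gt_of_ne l4 with c | c
    · exact Or.inr ⟨c, by have := le (by linarith only [f, c1, c, mul_pos_of_neg_of_neg (Mathlib.Tactic.Linarith.sub_neg_of_lt c1) (Mathlib.Tactic.Linarith.sub_neg_of_lt c)]); omega, by omega⟩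
    · exact Or.inl ⟨c, by have := ge (by linarith only [f, c1, c, mul_pos_of_neg_of_neg (Mathlib.Tactic.Linarith.sub_neg_of_lt c1) (Mathlib.Tactic.Linarith.sub_neg_of_lt c)]); omega, by omega⟩
  · intro c
    have c' : (y : ℚ) ≤ 2 * S * j := by exact_mod_cast c
    by_cases c1 : (Q k).em ≤ y
    · rw [mid c1 (by linarith only [p2, pc, c'])]; exact c
    push Not at c1
    have f := (Q k).f_dn c1.le (by linarith only [m1, m2, p5])
    refine (H.dn hk hj h (by linarith) ?_).le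
    rcases lt_or_gt_of_ne l5 with c | c
    · exact Or.inl ⟨c, by have := ge (by linarith only [f, c1, c, mul_pos_of_neg_of_neg (Mathlib.Tactic.Linarith.sub_neg_of_lt c1) (Mathlib.Tactic.Linarith.sub_neg_of_lt c)]); omega, by omega⟩
    · exact Or.inr ⟨c, by have := le (by linarith only [f, c1, c, mul_pos_of_neg_of_neg (Mathlib.Tactic.Linarith.sub_neg_of_lt c1) (Mathlib.Tactic.Linarith.sub_neg_of_lt c)]); omega, by omega⟩

end np

theorem NPH.ex {L S Mx : ℤ} (hL : L % 2 = 1) {Q P : ℤ → Br} {ap am M M' : ℤ → ℤ}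
    {Φ Ξ : ℤ → ℤ → ℤ} (H : NPH L 0 S Mx Q P ap am M M' Φ Ξ) (len : ℤ → ℤ → ℤ)
    (hm : ∀ x, Mono L (fun j => Ξ j x)) : Ex L ⟨Φ, Ξ, len⟩ where
  anti y k k' hk hk' hle := by
    rcases hle.lt_or_eq with c | c
    · exact (H.ord hk hk' c y).le
    · rw [c]
  mono := hm
  jump k j y hk hj := by
    obtain ⟨l1, l2, l3, -⟩ := H.lab k hk
    have a := H.along hk hj y
    have b := H.along hk hj (y + 1)
    simp only
    unfold Kc at *
    omega
  ext k y hk := by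
    obtain ⟨l1, l2, l3, -⟩ := H.lab k hk
    have a := (H.along hk (j := L) (by unfold Kc at *; omega) y).1 (by unfold Kc at *; omega)
    have b := (H.along hk (j := -L) (by unfold Kc at *; omega) y).2.1 (by unfold Kc at *; omega)
    exact ⟨b.le, a.le⟩

structure PH (L p : ℤ) (ρ W : ℚ) (A B : ℤ → ℚ) (M M' : ℤ → ℤ) (Φ Ξ : ℤ → ℤ → ℤ) : Prop where
  hρ : ρ ≠ 0
  gap : ∀ k j, Kc L p k → Kc L (1 - p) j →
    (0 < ρ → (k < j → W ≤ A k + ρ * B j) ∧ (j < k → A k + ρ * B j ≤ -W)) ∧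
    (ρ < 0 → (k + j < 0 → W ≤ A k + ρ * B j) ∧ (0 < k + j → A k + ρ * B j ≤ -W))
  ord : ∀ k k', Kc L p k → Kc L p k' → k < k' → A k' + 1 ≤ A k
  hM : ∀ c, -L ≤ c → c ≤ L → 0 < M c ∧ M c + |ρ| + 1 ≤ W ∧ M' c * |ρ| = M c ∧ M' (-c) = M' c
  hΦ : ∀ k y, Φ k y = ⌊ρ * y + A k⌋
  hΞ : ∀ j x, Ξ j x = ⌊x / ρ + B j⌋

section par
variable {L p : ℤ} {ρ W : ℚ} {A B : ℤ → ℚ} {M M' : ℤ → ℤ} {Φ Ξ : ℤ → ℤ → ℤ}

lemma PH.ge (H : PH L p ρ W A B M M' Φ Ξ) {k j x y : ℤ} (hk : Kc L p k) (hj : Kc L (1 - p) j)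
    (h : Φ k y - M k ≤ x) :
    (0 < ρ → k < j → y < Ξ j x) ∧ (ρ < 0 → j < -k → Ξ j x < y) := by
  obtain ⟨g1, g2⟩ := H.gap k j hk hj
  obtain ⟨-, m2, -⟩ := H.hM k hk.1 hk.2.1
  have a := Int.lt_floor_add_one (ρ * y + A k)
  rw [← H.hΦ] at a
  have b : (Φ k y : ℚ) - M k ≤ x := by exact_mod_cast h
  rw [H.hΞ]
  constructor
  · intro r c
    have := (g1 r).1 c
    rw [abs_of_pos r] at m2
    refine Int.lt_iff_add_one_le.2 (Int.le_floor.2 ?_)
    have : (y + 1 - B j) ≤ x / ρ := by rw [le_div_iff₀ r]; linarith only [m2, a, b, this]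
    push_cast; linarith only [this]
  · intro r c
    have := (g2 r).1 (by omega)
    rw [abs_of_neg r] at m2
    refine Int.floor_lt.2 ?_
    have : x / ρ < y - B j := by rw [div_lt_iff_of_neg r]; linarith only [m2, a, b, r, this]
    linarith only [this]

lemma PH.le (H : PH L p ρ W A B M M' Φ Ξ) {k j x y : ℤ} (hk : Kc L p k) (hj : Kc L (1 - p) j)
    (h : x ≤ Φ k y + M k) :
    (0 < ρ → j < k → Ξ j x < y) ∧ (ρ < 0 → -k < j → y < Ξ j x) := by
  obtain ⟨g1, g2⟩ := H.gap k j hk hj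
  obtain ⟨-, m2, -⟩ := H.hM k hk.1 hk.2.1
  have a := Int.floor_le (ρ * y + A k)
  rw [← H.hΦ] at a
  have b : (x : ℚ) ≤ Φ k y + M k := by exact_mod_cast h
  rw [H.hΞ]
  constructor
  · intro r c
    have := (g1 r).2 c
    rw [abs_of_pos r] at m2
    refine Int.floor_lt.2 ?_
    have : x / ρ < y - B j := by rw [div_lt_iff₀ r]; linarith only [m2, a, b, r, this]
    linarith only [this]
  · intro r c
    have := (g2 r).2 (by omega)
    rw [abs_of_neg r] at m2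
    refine Int.lt_iff_add_one_le.2 (Int.le_floor.2 ?_)
    have : (y + 1 - B j) ≤ x / ρ := by rw [le_div_iff_of_neg r]; linarith only [m2, a, b, this]
    push_cast; linarith only [this]

theorem PH.fw (H : PH L p ρ W A B M M' Φ Ξ) (len : ℤ → ℤ → ℤ)
    (hlen : ∀ k, Kc L p k → ∀ x y x' y', x = Φ k y → x' = Φ k y' →
      (∀ j, Kc L (1 - p) j → y ≠ Ξ j x) → (∀ j, Kc L (1 - p) j → y' ≠ Ξ j x') →
      len x y = len x' y') :
    Fw L p ⟨Φ, Ξ, len⟩ M M' := by
  intro k hk x y x' y' h1 h2 h3 h4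
  simp only at h1 h3 h4
  obtain ⟨m1, m2, m3, m4⟩ := H.hM k hk.1 hk.2.1
  have hf : ρ * y < ρ * y' := by
    by_contra q
    have := Int.floor_mono (show ρ * y' + A k ≤ ρ * y + A k by linarith)
    rw [← H.hΦ, ← H.hΦ] at this; omega
  have st : |y' - y| ≤ M' k → Φ k y' ≤ Φ k y + M k ∧ (|y' - y| = M' k → Φ k y' = Φ k y + M k) := by
    intro q
    have e : ρ * y' = ρ * y + |ρ| * |(y' : ℚ) - y| := by
      rw [← abs_mul, abs_of_pos (by linarith)]; ring
    have q' : |(y' : ℚ) - y| ≤ M' k := by exact_mod_cast q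
    rw [H.hΦ, H.hΦ, ← Int.floor_add_intCast]
    refine ⟨Int.floor_mono (by linarith only [m3, e, q', abs_nonneg ρ, mul_nonneg_of_nonpos_of_nonpos (Mathlib.Tactic.Linarith.sub_nonpos_of_le q') (Mathlib.Tactic.Linarith.sub_nonpos_of_le (abs_nonneg ρ))]), fun r => ?_⟩
    have r' : |(y' : ℚ) - y| = M' k := by exact_mod_cast r
    congr 1
    rw [e, r']; linarith only [m3]
  have fin : ∀ k', Kc L p k' → M' k' = M' k → |y' - y| ≤ M' k' → Below L p ⟨Φ, Ξ, len⟩ k' x y →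
      Above L p ⟨Φ, Ξ, len⟩ k' x y → Below L p ⟨Φ, Ξ, len⟩ k' x' y' →
      Above L p ⟨Φ, Ξ, len⟩ k' x' y' →
      x' - x ≤ M k ∧ Below L p ⟨Φ, Ξ, len⟩ k' x y ∧ Above L p ⟨Φ, Ξ, len⟩ k' x y ∧
        Below L p ⟨Φ, Ξ, len⟩ k' x' y' ∧ Above L p ⟨Φ, Ξ, len⟩ k' x' y' ∧
        (x = Φ k y → x' = Φ k y' → (|y' - y| = M' k' → x' - x = M k ∧ len x y = len x' y') ∧
          (len x y = len x' y' ∨ x' - x = M k)) := by
    intro k' hk' e s a1 a2 a3 a4
    rw [e] at s ⊢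
    obtain ⟨s1, s2⟩ := st s
    have ne : ∀ {x y}, Below L p ⟨Φ, Ξ, len⟩ k' x y → Above L p ⟨Φ, Ξ, len⟩ k' x y →
        ∀ j, Kc L (1 - p) j → y ≠ Ξ j x := by
      intro x y u v j hj
      rcases lt_trichotomy j k' with c | c | c
      · exact (v j hj c).ne'
      · exfalso; unfold Kc at hj hk'; omega
      · exact (u j hj c).ne
    refine ⟨by omega, a1, a2, a3, a4, fun q q' => ?_⟩
    have := hlen k hk x y x' y' q q' (ne a1 a2) (ne a3 a4)
    exact ⟨fun r => ⟨by have := s2 r; omega, this⟩, Or.inl this⟩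
  rcases lt_or_gt_of_ne H.hρ with r | r
  · have hy : y' < y := by exact_mod_cast (show (y' : ℚ) < y by (refine lt_of_not_ge fun h_nl => ?_; linarith only [h_nl, hf, r, mul_nonneg_of_nonpos_of_nonpos (le_of_lt (Mathlib.Tactic.Linarith.sub_neg_of_lt r)) (Mathlib.Tactic.Linarith.sub_nonpos_of_le h_nl)]))
    have B1 : Below L p ⟨Φ, Ξ, len⟩ (-k) x' y' := fun j hj hl => (H.le hk hj (by omega)).2 r hl
    have A2 : Above L p ⟨Φ, Ξ, len⟩ (-k) x y := fun j hj hl => (H.ge hk hj (by omega)).2 r hl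
    refine ⟨-k, hk.neg, Or.inr ⟨hy, B1, A2⟩, fun hs => ?_⟩
    have s := (st (m4 ▸ hs)).1
    exact fin _ hk.neg m4 hs (fun j hj hl => (H.le hk hj (by omega)).2 r hl) A2 B1
      (fun j hj hl => (H.ge hk hj (by omega)).2 r hl)
  · have hy : y < y' := by exact_mod_cast (show (y : ℚ) < y' by (refine lt_of_not_ge fun h_nl => ?_; linarith only [h_nl, hf, r, mul_nonneg_of_nonpos_of_nonpos (le_of_lt (Mathlib.Tactic.Linarith.sub_neg_of_lt r)) (Mathlib.Tactic.Linarith.sub_nonpos_of_le h_nl)]))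
    have B1 : Below L p ⟨Φ, Ξ, len⟩ k x y := fun j hj hl => (H.ge hk hj (by omega)).1 r hl
    have A2 : Above L p ⟨Φ, Ξ, len⟩ k x' y' := fun j hj hl => (H.le hk hj (by omega)).1 r hl
    refine ⟨k, hk, Or.inl ⟨hy, B1, A2⟩, fun hs => ?_⟩
    have s := (st hs).1
    exact fin _ hk rfl hs B1 (fun j hj hl => (H.le hk hj (by omega)).1 r hl)
      (fun j hj hl => (H.ge hk hj (by omega)).1 r hl) A2

lemma PH.ord' (H : PH L p ρ W A B M M' Φ Ξ) {k k' : ℤ} (hk : Kc L p k) (hk' : Kc L p k')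
    (hlt : k < k') (y : ℤ) : Φ k' y < Φ k y := by
  have := H.ord k k' hk hk' hlt
  rw [H.hΦ, H.hΦ, Int.lt_iff_add_one_le, ← Int.floor_add_one]
  exact Int.floor_mono (by linarith)

end par

theorem PH.ex {L : ℤ} (hL : L % 2 = 1) {ρ W : ℚ} {A B : ℤ → ℚ} {M M' : ℤ → ℤ} {Φ Ξ : ℤ → ℤ → ℤ}
    (H : PH L 0 ρ W A B M M' Φ Ξ) (len : ℤ → ℤ → ℤ)
    (hm : ∀ x, Mono L (fun j => Ξ j x)) : Ex L ⟨Φ, Ξ, len⟩ where
  anti y k k' hk hk' hle := by
    rcases hle.lt_or_eq with c | c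
    · exact (H.ord' hk hk' c y).le
    · rw [c]
  mono := hm
  jump k j y hk hj := by
    have m := (H.hM k hk.1 hk.2.1).1
    have a := H.ge (x := Φ k (y + 1)) (y := y + 1) hk hj (by omega)
    have b := H.le (x := Φ k (y + 1)) (y := y + 1) hk hj (by omega)
    have a' := H.ge (x := Φ k y) (y := y) hk hj (by omega)
    have b' := H.le (x := Φ k y) (y := y) hk hj (by omega)
    simp only
    unfold Kc at *
    rcases lt_or_gt_of_ne H.hρ with r | r
    · have := a.2 r; have := b.2 r; have := a'.2 r; have := b'.2 r; omega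
    · have := a.1 r; have := b.1 r; have := a'.1 r; have := b'.1 r; omega
  ext k y hk := by
    have m := (H.hM k hk.1 hk.2.1).1
    have hj : Kc L (1 - 0) L := by unfold Kc at *; omega
    have a := H.ge (x := Φ k y) (y := y) hk hj (by omega)
    have b := H.le (x := Φ k y) (y := y) hk hj (by omega)
    have a' := H.ge (x := Φ k y) (y := y) hk hj.neg (by omega)
    have b' := H.le (x := Φ k y) (y := y) hk hj.neg (by omega)
    simp only
    unfold Kc at *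
    rcases lt_or_gt_of_ne H.hρ with r | r
    · have := a.2 r; have := b.2 r; have := a'.2 r; have := b'.2 r; omega
    · have := a.1 r; have := b.1 r; have := a'.1 r; have := b'.1 r; omega

end Pool.Agent.Work.MP_0909b4_al
end
end

-- merged part: Pool.Agent.Work.MP_0909b4_al.Seq
section
/-! Reduced sequences: existence, extension and cancellation. -/

namespace Pool.Agent.Work.MP_0909b4_al

variable {V ι : Type} (T : Tub V ι)

def Tub.vx (x : V) (h : ℕ → HE ι) : ℕ → V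
  | 0 => x
  | j + 1 => T.src (bar (h j))

def Tub.Comp (x : V) (h : ℕ → HE ι) (n : ℕ) : Prop := ∀ j < n, T.src (h j) = T.vx x h j

lemma Tub.sq_shift (h : ℕ → HE ι) (v : ℕ → Z2) (k : ℕ) : ∀ i x,
    T.sq h v k (i + 1) x = T.sq (fun j => h (j + 1)) (fun j => v (j + 1)) k i x := by
  induction k with
  | zero => intro i x; rfl
  | succ k ih => intro i x; simp only [Tub.sq, ih]

lemma Tub.sq_snoc' (h : ℕ → HE ι) (v : ℕ → Z2) (k : ℕ) : ∀ i x, T.sq h v (k + 1) i x =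
    T.sq h v k i x * T.edg (h (i + k)) * T.vtx (T.src (bar (h (i + k)))) (v (i + k + 1)) := by
  induction k with
  | zero => intro i x; rfl
  | succ k ih =>
    intro i x
    rw [Tub.sq, ih, Tub.sq, show i + 1 + k = i + (k + 1) by omega]
    simp only [mul_assoc]

lemma Tub.sq_snoc (h : ℕ → HE ι) (v : ℕ → Z2) (k : ℕ) (x : V) : T.sq h v (k + 1) 0 x =
    T.sq h v k 0 x * T.edg (h k) * T.vtx (T.src (bar (h k))) (v (k + 1)) := by
  simpa using T.sq_snoc' h v k 0 x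

variable {T}

lemma Tub.vx_congr {h h' : ℕ → HE ι} {n : ℕ} (x : V) (e : ∀ j < n, h' j = h j) :
    ∀ j ≤ n, T.vx x h' j = T.vx x h j
  | 0, _ => rfl
  | j + 1, q => by simp only [Tub.vx, e j q]

lemma Tub.sq_rel {x : V} {h h' : ℕ → HE ι} {v v' δ : ℕ → Z2} {s : ℕ → ℤ} (n : ℕ) : ∀ ω,
    T.Comp x h n → (∀ j < n, h' j = h j) → (∀ j < n, δ (j + 1) = s j • T.wv (bar (h j))) →
    (∀ j < n, δ j + v' j = v j + s j • T.wv (h j)) → δ n + v' n = v n + ω →
    T.vtx x (δ 0) * T.sq h' v' n 0 x = T.sq h v n 0 x * T.vtx (T.vx x h n) ω := by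
  induction n with
  | zero =>
    intro ω _ _ _ _ e
    simp only [Tub.sq, Tub.vx]
    rw [← T.vtx_add, e, T.vtx_add]
  | succ n ih =>
    intro ω c e1 e2 e3 e4
    have := ih _ (fun j q => c j (by omega)) (fun j q => e1 j (by omega))
      (fun j q => e2 j (by omega)) (fun j q => e3 j (by omega)) (e3 n (by omega))
    rw [T.sq_snoc, T.sq_snoc, ← mul_assoc, ← mul_assoc, this, e1 n (by omega),
      ← c n (by omega), mul_assoc (T.sq h v n 0 x), T.slide, ← e2 n (by omega)]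
    simp only [mul_assoc, Tub.vx]
    rw [← T.vtx_add, ← T.vtx_add, e4]

lemma Tub.sq_mod {x : V} {h h' : ℕ → HE ι} {v v' : ℕ → Z2} {n : ℕ} (c : T.Comp x h n)
    (e1 : ∀ j < n, h' j = h j) (e2 : ∀ j < n, v' j = v j) {ω : Z2} (e3 : v' n = v n + ω) :
    T.sq h' v' n 0 x = T.sq h v n 0 x * T.vtx (T.vx x h n) ω := by
  simpa using Tub.sq_rel (δ := fun _ => 0) (s := fun _ => 0) n ω c e1 (by simp)
    (by simpa using e2) (by simpa using e3)

lemma Tub.sq_first (x : V) (h : ℕ → HE ι) (v : ℕ → Z2) (n : ℕ) (δ : Z2) :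
    T.vtx x δ * T.sq h v n 0 x = T.sq h (fun j => if j = 0 then δ + v 0 else v j) n 0 x := by
  cases n with
  | zero => simp [Tub.sq, T.vtx_add]
  | succ n =>
    simp only [Tub.sq, T.sq_shift, if_true, T.vtx_add, mul_assoc]
    simp

lemma Tub.Red.congr {h h' : ℕ → HE ι} {v v' : ℕ → Z2} {n : ℕ} (r : T.Red h v n 0)
    (e1 : ∀ j < n, h' j = h j) (e2 : ∀ j, j + 1 < n → v' (j + 1) = v (j + 1)) : T.Red h' v' n 0 := by
  intro j _ q
  rw [e1 j (by omega), e1 (j + 1) (by omega), e2 j (by omega)]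
  exact r j (by omega) q

theorem Tub.rel_of_eq (hw : ∀ h, T.wv h ≠ 0) {x : V} {h h' : ℕ → HE ι} {v v' : ℕ → Z2} {n n' : ℕ}
    {δ0 ω : Z2} (c : T.Comp x h n) (r : T.Red h v n 0) (r' : T.Red h' v' n' 0)
    (e : T.vtx x δ0 * T.sq h' v' n' 0 x = T.sq h v n 0 x * T.vtx (T.vx x h n) ω) :
    n' = n ∧ (∀ j < n, h' j = h j) ∧ ∃ (s : ℕ → ℤ) (δ : ℕ → Z2), δ 0 = δ0 ∧
      (∀ j, δ (j + 1) = s j • T.wv (bar (h j))) ∧
      (∀ j < n, δ j + v' j = v j + s j • T.wv (h j)) ∧ δ n + v' n = v n + ω := by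
  rw [Tub.sq_first, ← Tub.sq_mod (h' := h) (v' := fun j => if j = n then v n + ω else v j) c
    (fun _ _ => rfl) (fun j q => if_neg q.ne) (if_pos rfl)] at e
  obtain ⟨a1, a2, s, a3⟩ := T.uniq hw (r.congr (fun _ _ => rfl) fun j q => if_neg q.ne)
    (r'.congr (fun _ _ => rfl) fun j q => if_neg (by omega)) e.symm
  have k : ∀ j, (Nat.casesOn j δ0 fun j => s j • T.wv (bar (h j)) : Z2) + v' j =
      (if j = 0 then δ0 + v' 0 else v' j) +
        if j = 0 then 0 else s (j - 1) • T.wv (bar (h (j - 1))) := by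
    intro j
    cases j with
    | zero => simp
    | succ j => simp [add_comm, -zsmul_eq_mul]
  refine ⟨a1, a2, s, fun j => Nat.casesOn j δ0 fun j => s j • T.wv (bar (h j)), rfl, fun _ => rfl,
    fun j q => ?_, ?_⟩
  · rw [k, a3 j q.le, if_neg q.ne, if_pos q]
  · rw [k, a3 n le_rfl, if_pos rfl, if_neg (lt_irrefl _), add_zero]

variable (T)

def Tub.RSq (x y : V) (n : ℕ) (g : T.F) : Prop :=
  ∃ h v, T.Comp x h n ∧ T.vx x h n = y ∧ T.Red h v n 0 ∧ g = T.sq h v n 0 x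

variable {T}

lemma Tub.RSq.uniq (hw : ∀ h, T.wv h ≠ 0) {x y x' y' : V} {n n' : ℕ} {g : T.F}
    (a : T.RSq x y n g) (b : T.RSq x' y' n' g) : n' = n := by
  obtain ⟨h, v, -, -, r, e⟩ := a
  obtain ⟨h', v', -, -, r', e'⟩ := b
  exact (T.uniq hw r r' (e.symm.trans e')).1

lemma Tub.RSq.vtx {x y : V} {n : ℕ} {g : T.F} (a : T.RSq x y n g) (z : Z2) :
    T.RSq x y n (g * T.vtx y z) := by
  obtain ⟨h, v, c, rfl, r, rfl⟩ := a
  exact ⟨h, fun j => if j = n then v n + z else v j, c, rfl,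
    r.congr (fun _ _ => rfl) fun j q => if_neg q.ne,
    (Tub.sq_mod c (fun _ _ => rfl) (fun j q => if_neg q.ne) (if_pos rfl)).symm⟩

/-- extension or cancellation on the right -/
lemma Tub.rext {x : V} {h : ℕ → HE ι} {v : ℕ → Z2} {n : ℕ} (c : T.Comp x h n) (r : T.Red h v n 0)
    {f : HE ι} (hf : T.src f = T.vx x h n) :
    (∃ h' v', (∀ j < n, h' j = h j) ∧ h' n = f ∧ (∀ j ≤ n, v' j = v j) ∧ v' (n + 1) = 0 ∧
      T.Comp x h' (n + 1) ∧ T.Red h' v' (n + 1) 0 ∧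
      T.sq h v n 0 x * T.edg f = T.sq h' v' (n + 1) 0 x) ∨
    ∃ m, n = m + 1 ∧ T.RSq x (T.src (bar f)) m (T.sq h v n 0 x * T.edg f) := by
  by_cases q : ∃ m, n = m + 1 ∧ f = bar (h m) ∧ Mul' (T.wv f) (v n)
  · obtain ⟨m, rfl, rfl, r1, e⟩ := q
    have c' : T.Comp x h m := fun j q => c j (by omega)
    refine Or.inr ⟨m, rfl, h, fun j => if j = m then v m + r1 • T.wv (h m) else v j, c',
      by rw [bar_bar, c m (by omega)], Tub.Red.congr (fun j a b => r j a (by omega))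
        (fun _ _ => rfl) fun j q => if_neg q.ne, ?_⟩
    rw [Tub.sq_mod c' (fun _ _ => rfl) (fun j q => if_neg q.ne) (if_pos rfl), T.sq_snoc, e,
      mul_assoc (T.sq h v m 0 x), ← T.slide, T.edg_bar, c m (by omega)]
    simp [mul_assoc, -zsmul_eq_mul]
  · have e1 : ∀ j < n, (if j < n then h j else f) = h j := fun j q => if_pos q
    refine Or.inl ⟨fun j => if j < n then h j else f, fun j => if j ≤ n then v j else 0, e1,
      if_neg (lt_irrefl _), fun j q => if_pos q, if_neg (by omega), fun j p => ?_,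
      fun j _ p => ?_, ?_⟩
    · rw [Tub.vx_congr x e1 j (by omega)]
      dsimp only
      split_ifs with p'
      · exact c j p'
      · rwa [show j = n by omega]
    · simp only [show j < n by omega, show j + 1 ≤ n by omega, if_true]
      split_ifs with p'
      · exact r j (by omega) (by omega)
      · obtain rfl : n = j + 1 := by omega
        exact fun a b => q ⟨j, rfl, a, a ▸ b⟩
    · rw [T.sq_snoc, Tub.sq_mod (ω := 0) c e1 (fun j q => if_pos q.le) (by simp)]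
      simp

/-- extension or cancellation on the left -/
lemma Tub.lext {h : ℕ → HE ι} {v : ℕ → Z2} {n : ℕ} {f : HE ι} (c : T.Comp (T.src (bar f)) h n)
    (r : T.Red h v n 0) :
    (∃ h' v', h' 0 = f ∧ (∀ j, h' (j + 1) = h j) ∧ v' 0 = 0 ∧ (∀ j, v' (j + 1) = v j) ∧
      T.Comp (T.src f) h' (n + 1) ∧ T.Red h' v' (n + 1) 0 ∧
      T.edg f * T.sq h v n 0 (T.src (bar f)) = T.sq h' v' (n + 1) 0 (T.src f)) ∨
    ∃ m y, n = m + 1 ∧ T.RSq (T.src f) y m (T.edg f * T.sq h v n 0 (T.src (bar f))) := by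
  by_cases q : ∃ m, n = m + 1 ∧ h 0 = bar f ∧ Mul' (T.wv (bar f)) (v 0)
  · obtain ⟨m, rfl, e0, r1, e⟩ := q
    refine Or.inr ⟨m, _, rfl, fun j => h (j + 1),
      fun j => if j = 0 then r1 • T.wv f + v (0 + 1) else v (j + 1), fun j q => ?_, rfl,
      fun j _ q => ?_, ?_⟩
    · rw [c (j + 1) (by omega)]
      cases j with
      | zero => simp [Tub.vx, e0]
      | succ j => rfl
    · exact r (j + 1) (by omega) (by omega)
    · rw [← Tub.sq_first (T.src f) (fun j => h (j + 1)) (fun j => v (j + 1)), Tub.sq, T.sq_shift, e, e0, bar_bar, ← mul_assoc, ← mul_assoc, ← T.slide,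
        T.edg_bar]
      simp [-zsmul_eq_mul]
  · refine Or.inl ⟨fun j => Nat.casesOn j f h, fun j => Nat.casesOn j 0 v, rfl, fun _ => rfl, rfl,
      fun _ => rfl, fun j p => ?_, fun j _ p => ?_, ?_⟩
    · cases j with
      | zero => rfl
      | succ j =>
        refine (c j (by omega)).trans ?_
        cases j <;> rfl
    · cases j with
      | zero =>
        obtain ⟨m, rfl⟩ : ∃ m, n = m + 1 := ⟨n - 1, by omega⟩
        exact fun a b => q ⟨m, rfl, a, b⟩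
      | succ j => exact r j (by omega) (by omega)
    · rw [Tub.sq, T.sq_shift]; simp

theorem Tub.IsPath.ind {x : V} {P : T.F → V → Prop} (h0 : P 1 x)
    (hv : ∀ g y z, T.IsPath x g y → P g y → nrm z ≤ 1 → P (g * T.vtx y z) y)
    (he : ∀ g h, T.IsPath x g (T.src h) → P g (T.src h) → P (g * T.edg h) (T.src (bar h)))
    {g : T.F} {y : V} (p : T.IsPath x g y) : P g y := by
  have k : ∀ (y : V) (b : Bool), ∃ z, nrm z ≤ 1 ∧ PresentedGroup.of (Sum.inl (y, b)) = T.vtx y z := by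
    intro y b
    cases b
    · exact ⟨(1, 0), by simp [nrm], by simp [T.vtx_eq]⟩
    · exact ⟨(0, 1), by simp [nrm], by simp [T.vtx_eq]⟩
  induction p with
  | nil => exact h0
  | @vert g y b p ih =>
    obtain ⟨z, a, e⟩ := k y b
    rw [e]; exact hv g y z p ih a
  | @vertInv g y b p ih =>
    obtain ⟨z, a, e⟩ := k y b
    rw [e, ← T.vtx_neg]; exact hv g y _ p ih (by rwa [nrm_neg])
  | @edge g i p ih => exact he g (i, true) p ih
  | @edgeInv g i p ih => exact he g (i, false) p ih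

theorem Tub.IsPath.rsq [Nonempty ι] {x y : V} {g : T.F} (p : T.IsPath x g y) :
    ∃ n, T.RSq x y n g := by
  refine Tub.IsPath.ind (P := fun g y => ∃ n, T.RSq x y n g) ?_ ?_ ?_ p
  · exact ⟨0, fun _ => Classical.arbitrary _, fun _ => 0, fun _ q => by omega, rfl,
      fun _ _ q => by omega, by simp [Tub.sq]⟩
  · rintro g y z - ⟨n, a⟩ -
    exact ⟨n, a.vtx z⟩
  · rintro g f - ⟨n, h, v, c, e, r, rfl⟩
    rcases Tub.rext c r e.symm with ⟨h', v', -, a2, -, -, a3, a4, a5⟩ | ⟨m, -, a⟩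
    · exact ⟨n + 1, h', v', a3, by rw [← a2]; rfl, a4, a5⟩
    · exact ⟨m, a⟩

lemma Tub.IsPath.trans {x y z : V} {g g' : T.F} (p : T.IsPath x g y) (q : T.IsPath y g' z) :
    T.IsPath x (g * g') z := by
  induction q with
  | nil => simpa using p
  | vert b _ ih => rw [← mul_assoc]; exact ih.vert b
  | vertInv b _ ih => rw [← mul_assoc]; exact ih.vertInv b
  | edge i _ ih => rw [← mul_assoc]; exact ih.edge i
  | edgeInv i _ ih => rw [← mul_assoc]; exact ih.edgeInv i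

lemma Tub.IsPath.inv {x y : V} {g : T.F} (p : T.IsPath x g y) : T.IsPath y g⁻¹ x := by
  induction p with
  | nil => simpa using Tub.IsPath.nil
  | vert b _ ih => simpa using (Tub.IsPath.nil.vertInv b).trans ih
  | vertInv b _ ih => simpa using (Tub.IsPath.nil.vert b).trans ih
  | edge i _ ih => simpa using (Tub.IsPath.nil.edgeInv i).trans ih
  | edgeInv i _ ih => simpa using (Tub.IsPath.nil.edge i).trans ih

lemma Tub.path_vtx (x : V) (z : Z2) : T.IsPath x (T.vtx x z) x := by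
  have k : ∀ (b : Bool) (n : ℤ), T.IsPath x (PresentedGroup.of (Sum.inl (x, b)) ^ n) x := by
    intro b n
    induction n using Int.induction_on with
    | zero => simpa using Tub.IsPath.nil
    | succ n ih => rw [zpow_add_one]; exact ih.vert b
    | pred n ih => rw [zpow_sub_one]; exact ih.vertInv b
  rw [T.vtx_eq]; exact (k _ _).trans (k _ _)

lemma Tub.path_edg (h : HE ι) : T.IsPath (T.src h) (T.edg h) (T.src (bar h)) := by
  obtain ⟨i, b⟩ := h
  cases b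
  · simpa [Tub.src, Tub.edg, bar] using Tub.IsPath.nil.edgeInv (T := T) i
  · simpa [Tub.src, Tub.edg, bar] using Tub.IsPath.nil.edge (T := T) i

lemma Tub.path_of_mem {x : V} {g : T.F} (h : g ∈ T.pi1 x) : T.IsPath x g x := by
  induction h using Subgroup.closure_induction with
  | mem _ q => exact q
  | one => exact .nil
  | mul _ _ _ _ a b => exact a.trans b
  | inv _ _ a => exact a.inv

end Pool.Agent.Work.MP_0909b4_al
end
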