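import Mathlib
import Pool.Agent.Work.MP_0909b4_al.Seq

-- merged part: Pool.Agent.Work.MP_0909b4_al.Design2
section
-- merged part: Pool.Agent.Work.MP_0909b4_al.Design1
section
/-! Real-variable part of the design: approximation lemmas and the grid of directions. -/

namespace Pool.Agent.Work.MP_0909b4_al

open Filter Topology Real

theorem exists_qlin : ∃ p : ℕ → ℝ →ₗ[ℚ] ℚ, ∀ y, Tendsto (fun k => (p k y : ℝ)) atTop (𝓝 y) := by
  let b := Module.Basis.ofVectorSpace ℚ ℝ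
  have h : ∀ (k : ℕ) (y : ℝ), ∃ q : ℚ, y < q ∧ q < y + 1 / ((k : ℝ) + 1) := fun k y =>
    exists_rat_btwn (by simpa using Nat.one_div_pos_of_nat (n := k) (α := ℝ))
  choose a ha using h
  refine ⟨fun k => b.constr ℚ fun i => a k (b i), fun y => ?_⟩
  have hy : y ∈ Submodule.span ℚ (Set.range b) := by rw [b.span_eq]; trivial
  induction hy using Submodule.span_induction with
  | mem y hy =>
    obtain ⟨i, rfl⟩ := hy
    simp only [Module.Basis.constr_basis]
    refine tendsto_of_tendsto_of_tendsto_of_le_of_le tendsto_const_nhds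
      (by simpa using tendsto_const_nhds.add (tendsto_one_div_add_atTop_nhds_zero_nat (𝕜 := ℝ)))
      (fun k => (ha k _).1.le) (fun k => by simpa using (ha k _).2.le)
  | zero => simp
  | add x y _ _ h1 h2 => simpa using h1.add h2
  | smul q x _ h1 =>
    simp only [map_smul, smul_eq_mul, Rat.cast_mul]
    rw [Rat.smul_def]; exact h1.const_mul (q : ℝ)

theorem exists_avoid (B : Set ℚ) (hB : B.Finite) : ∃ a : ℕ → ℝ → ℚ, (∀ k y, a k y ∉ B) ∧
    ∀ y, Tendsto (fun k => (a k y : ℝ)) atTop (𝓝 y) := by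
  have h : ∀ (k : ℕ) (y : ℝ), ∃ q : ℚ, q ∉ B ∧ y < q ∧ q < y + 1 / ((k : ℝ) + 1) := by
    intro k y
    obtain ⟨q1, a1, a2⟩ := exists_rat_btwn (show y < y + 1 / ((k : ℝ) + 1) by
      simpa using Nat.one_div_pos_of_nat (n := k) (α := ℝ))
    obtain ⟨q2, a3, a4⟩ := exists_rat_btwn a2
    obtain ⟨q, b1, b2⟩ := (Set.Ioo_infinite (show q1 < q2 by exact_mod_cast a3)).exists_notMem_finite hB
    exact ⟨q, b2, a1.trans (by exact_mod_cast b1.1), lt_trans (by exact_mod_cast b1.2) a4⟩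
  choose a ha using h
  exact ⟨a, fun k y => (ha k y).1, fun y =>
    tendsto_of_tendsto_of_tendsto_of_le_of_le tendsto_const_nhds
      (by simpa using tendsto_const_nhds.add (tendsto_one_div_add_atTop_nhds_zero_nat (𝕜 := ℝ)))
      (fun k => (ha k _).2.1.le) (fun k => by simpa using (ha k _).2.2.le)⟩

theorem dirichlet {I : Type} [Finite I] (y : I → ℝ) {δ : ℝ} (hδ : 0 < δ) :
    ∃ k : ℕ, 0 < k ∧ ∀ i, ∃ m : ℤ, |k * y i - m| ≤ δ := by
  let f : ℕ → I → Set.Icc (0 : ℤ) ⌊1 / δ⌋ := fun k i => ⟨⌊Int.fract (k * y i) / δ⌋,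
    Int.floor_nonneg.2 (div_nonneg (Int.fract_nonneg _) hδ.le),
    Int.floor_mono (by gcongr; exact (Int.fract_lt_one _).le)⟩
  have key : ∀ k1 k2 : ℕ, k1 < k2 → f k1 = f k2 →
      ∃ k : ℕ, 0 < k ∧ ∀ i, ∃ m : ℤ, |k * y i - m| ≤ δ := by
    intro k1 k2 hlt e
    refine ⟨k2 - k1, by omega, fun i => ⟨⌊k2 * y i⌋ - ⌊k1 * y i⌋, ?_⟩⟩
    have e1 : ⌊Int.fract (k1 * y i) / δ⌋ = ⌊Int.fract (k2 * y i) / δ⌋ :=
      congrArg Subtype.val (congrFun e i)
    have := Int.abs_sub_lt_one_of_floor_eq_floor e1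
    rw [← sub_div, abs_div, abs_of_pos hδ, div_lt_one hδ, abs_sub_comm] at this
    rw [Nat.cast_sub hlt.le]
    push_cast
    refine le_of_eq_of_le (congrArg _ ?_) this.le
    unfold Int.fract; ring
  obtain ⟨k1, k2, hne, e⟩ := Finite.exists_ne_map_eq_of_infinite f
  rcases lt_or_gt_of_ne hne with q | q
  · exact key _ _ q e
  · exact key _ _ q e.symm

lemma sin_low {e x : ℝ} (he : 0 ≤ e) (h1 : e ≤ x) (h2 : x ≤ π - e) : e / 2 ≤ sin x := by
  have hp : 1 / 2 ≤ 2 / π := by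
    rw [div_le_div_iff₀ (by norm_num) pi_pos]; linarith [pi_le_four]
  by_cases c : x ≤ π / 2
  · have := Real.mul_le_sin (he.trans h1) c
    linarith only [h1, this, he, hp, mul_nonneg_of_nonpos_of_nonpos (Mathlib.Tactic.Linarith.sub_nonpos_of_le he) (Mathlib.Tactic.Linarith.sub_nonpos_of_le hp), mul_nonneg_of_nonpos_of_nonpos (Mathlib.Tactic.Linarith.sub_nonpos_of_le h1) (Mathlib.Tactic.Linarith.sub_nonpos_of_le hp)]
  · have := Real.mul_le_sin (x := π - x) (by linarith only [he, h2]) (by linarith only [c])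
    rw [sin_pi_sub] at this
    linarith only [h2, this, he, hp, mul_nonneg_of_nonpos_of_nonpos (Mathlib.Tactic.Linarith.sub_nonpos_of_le he) (Mathlib.Tactic.Linarith.sub_nonpos_of_le hp), mul_nonneg_of_nonpos_of_nonpos (Mathlib.Tactic.Linarith.sub_nonpos_of_le h2) (Mathlib.Tactic.Linarith.sub_nonpos_of_le hp)]

lemma fold (n : ℕ) (hn : 0 < n) (I : ℤ) : ∃ i : ℤ, 0 ≤ i ∧ i ≤ 2 * n ∧ i % 2 = I % 2 ∧
    cos (I * (π / (2 * n))) = cos (i * (π / (2 * n))) ∧
    |sin (I * (π / (2 * n)))| = sin (i * (π / (2 * n))) := by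
  have hn' : (0 : ℝ) < n := by exact_mod_cast hn
  have e : (I : ℝ) * (π / (2 * n)) =
      (I % (4 * n) : ℤ) * (π / (2 * n)) + (I / (4 * n) : ℤ) * (2 * π) := by
    have : (I : ℝ) = (I % (4 * n) : ℤ) + 4 * n * (I / (4 * n) : ℤ) := by
      exact_mod_cast (Int.emod_add_mul_ediv I (4 * n)).symm
    conv_lhs => rw [this]
    field_simp; ring
  have j0 := Int.emod_nonneg I (show (4 * n : ℤ) ≠ 0 by omega)
  have j1 := Int.emod_lt_of_pos I (show (0 : ℤ) < 4 * n by omega)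
  have j2 : I % (4 * n) % 2 = I % 2 := Int.emod_emod_of_dvd I ⟨2 * n, by ring⟩
  rw [e, cos_add_int_mul_two_pi, sin_add_int_mul_two_pi]
  generalize I % (4 * n) = j at *
  have nn : ∀ i : ℤ, 0 ≤ i → i ≤ 2 * n → 0 ≤ sin (i * (π / (2 * n))) := by
    intro i a b
    have a' : (0 : ℝ) ≤ i := by exact_mod_cast a
    have b' : (i : ℝ) ≤ 2 * n := by exact_mod_cast b
    refine sin_nonneg_of_nonneg_of_le_pi (by positivity) ?_
    rw [mul_div_assoc', div_le_iff₀ (by positivity)]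
    linarith only [b', pi_pos, mul_nonneg_of_nonpos_of_nonpos (Mathlib.Tactic.Linarith.sub_nonpos_of_le b') (le_of_lt (Mathlib.Tactic.Linarith.sub_neg_of_lt pi_pos))]
  by_cases c : j ≤ 2 * n
  · exact ⟨j, j0, c, j2, rfl, abs_of_nonneg (nn j j0 c)⟩
  · have e2 : (j : ℝ) * (π / (2 * n)) = 2 * π - (4 * n - j : ℤ) * (π / (2 * n)) := by
      push_cast; field_simp; ring
    refine ⟨4 * n - j, by omega, by omega, by omega, ?_, ?_⟩
    · rw [e2, cos_two_pi_sub]
    · rw [e2, sin_two_pi_sub, abs_neg, abs_of_nonneg (nn _ (by omega) (by omega))]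

noncomputable def ang (n : ℕ) (c : ℤ) : ℝ := ((n - c : ℤ) : ℝ) * (π / (2 * n))
noncomputable def hh (n : ℕ) (c : ℤ) : ℝ := sin (ang n c) + π / (40 * n)
noncomputable def ct (n : ℕ) (c : ℤ) : ℝ := cos (ang n c) / hh n c

lemma ang_mem {n : ℕ} (hn : 0 < n) {c : ℤ} (h1 : -n ≤ c) (h2 : c ≤ n) :
    0 ≤ ang n c ∧ ang n c ≤ π := by
  have hn' : (0 : ℝ) < n := by exact_mod_cast hn
  have a : (0 : ℝ) ≤ (n - c : ℤ) := by exact_mod_cast (show 0 ≤ (n : ℤ) - c by omega)
  have b : ((n - c : ℤ) : ℝ) ≤ 2 * n := by exact_mod_cast (show (n : ℤ) - c ≤ 2 * n by omega)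
  refine ⟨by unfold ang; positivity, ?_⟩
  rw [ang, mul_div_assoc', div_le_iff₀ (by positivity)]
  linarith only [b, pi_pos, mul_nonneg_of_nonpos_of_nonpos (Mathlib.Tactic.Linarith.sub_nonpos_of_le b) (le_of_lt (Mathlib.Tactic.Linarith.sub_neg_of_lt pi_pos))]

lemma hh_pos {n : ℕ} (hn : 0 < n) {c : ℤ} (h1 : -n ≤ c) (h2 : c ≤ n) : 0 < hh n c := by
  have := sin_nonneg_of_nonneg_of_le_pi (ang_mem hn h1 h2).1 (ang_mem hn h1 h2).2
  have : 0 < π / (40 * n) := by positivity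
  unfold hh; linarith

lemma ang_neg {n : ℕ} (hn : 0 < n) (c : ℤ) : ang n (-c) = π - ang n c := by
  have hn' : (0 : ℝ) < n := by exact_mod_cast hn
  unfold ang; push_cast; field_simp; ring

lemma hh_neg {n : ℕ} (hn : 0 < n) (c : ℤ) : hh n (-c) = hh n c := by
  rw [hh, hh, ang_neg hn, sin_pi_sub]

lemma ct_neg {n : ℕ} (hn : 0 < n) (c : ℤ) : ct n (-c) = -ct n c := by
  rw [ct, ct, hh_neg hn, ang_neg hn, cos_pi_sub, neg_div]

lemma ct_top {n : ℕ} : ct n n = 1 / (π / (40 * n)) := by simp [ct, hh, ang]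

lemma ct_mono {n : ℕ} (hn : 0 < n) {c c' : ℤ} (h1 : -n ≤ c) (h2 : c < c') (h3 : c' ≤ n) :
    ct n c < ct n c' := by
  have hn' : (0 : ℝ) < n := by exact_mod_cast hn
  have a := ang_mem hn h1 (by omega)
  have a' := ang_mem hn (c := c') (by omega) h3
  have lt : ang n c' < ang n c :=
    mul_lt_mul_of_pos_right (by exact_mod_cast (show (n : ℤ) - c' < n - c by omega)) (by positivity)
  have s := sin_nonneg_of_nonneg_of_le_pi (x := ang n c - ang n c') (by linarith only [lt]) (by linarith)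
  have k := cos_lt_cos_of_nonneg_of_le_pi a'.1 a.2 lt
  have p : 0 < π / (40 * n) := by positivity
  rw [ct, ct, div_lt_div_iff₀ (hh_pos hn h1 (by omega)) (hh_pos hn (by omega) h3), hh, hh]
  rw [sin_sub] at s
  linarith only [s, k, p, mul_pos_of_neg_of_neg (Mathlib.Tactic.Linarith.sub_neg_of_lt k) (Mathlib.Tactic.Linarith.sub_neg_of_lt p)]

lemma sin_mul_low {n : ℕ} (hn : 0 < n) (d : ℤ) (d1 : 1 ≤ d) (d2 : d ≤ 2 * n - 1) :
    10 * (π / (40 * n)) ≤ sin (d * (π / (2 * n))) := by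
  have hn' : (0 : ℝ) < n := by exact_mod_cast hn
  have d1' : (1 : ℝ) ≤ d := by exact_mod_cast d1
  have d2' : (d : ℝ) ≤ 2 * n - 1 := by exact_mod_cast d2
  have p : 0 < π / (2 * n) := by positivity
  have := sin_low (e := π / (2 * n)) (x := d * (π / (2 * n))) p.le (by linarith only [d1', p, mul_nonneg_of_nonpos_of_nonpos (Mathlib.Tactic.Linarith.sub_nonpos_of_le d1') (le_of_lt (Mathlib.Tactic.Linarith.sub_neg_of_lt p))]) (by
    have : 2 * n * (π / (2 * n)) = π := by field_simp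
    linarith only [this, d2', p, mul_nonneg_of_nonpos_of_nonpos (Mathlib.Tactic.Linarith.sub_nonpos_of_le d2') (le_of_lt (Mathlib.Tactic.Linarith.sub_neg_of_lt p))])
  have e : π / (2 * n) / 2 = 10 * (π / (40 * n)) := by field_simp; ring
  linarith only [this, e]

theorem real_label {n : ℕ} (hn : 0 < n) {δ θ ε : ℝ} (hδ : 0 < δ) (hδ1 : δ ≤ 1)
    (hc : |cos θ| ≤ 1 - δ) {m : ℤ} (hm : |θ - m * (π / n)| ≤ δ / 2 * (π / (40 * n)))
    (hε : ε = 1 ∨ ε = -1) {c : ℤ} (h1 : -n ≤ c) (h2 : c ≤ n) :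
    ∃ c' : ℤ, -n ≤ c' ∧ c' ≤ n ∧ c' % 2 = c % 2 ∧
      (∀ c'' : ℤ, -n ≤ c'' → c'' ≤ n → c'' % 2 ≠ c % 2 →
        (c'' < c' → 0 < ct n c * cos θ + ε * sin θ - ct n c'' * |cos θ - ε * ct n c * sin θ|) ∧
        (c' < c'' → ct n c * cos θ + ε * sin θ - ct n c'' * |cos θ - ε * ct n c * sin θ| < 0)) ∧
      hh n c * |cos θ - ε * ct n c * sin θ| < hh n c' := by
  have hn' : (0 : ℝ) < n := by exact_mod_cast hn
  have hn1 : (1 : ℝ) ≤ n := by exact_mod_cast hn
  obtain ⟨s, hs, hs1⟩ : ∃ s : ℤ, ε = s ∧ (s = 1 ∨ s = -1) := by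
    rcases hε with rfl | rfl
    exacts [⟨1, by simp, Or.inl rfl⟩, ⟨-1, by simp, Or.inr rfl⟩]
  obtain ⟨i, i0, i1, i2, i3, i4⟩ := fold n hn (n - c - 2 * s * m)
  have i2' : i % 2 = (n - c) % 2 := by rcases hs1 with rfl | rfl <;> omega
  set z := π / (40 * n) with hz
  have z0 : 0 < z := by positivity
  have z1 : z ≤ 1 := by rw [hz, div_le_one (by positivity)]; linarith only [hn', hn1, pi_le_four]
  have ha := hh_pos hn h1 h2
  have eX : hh n c * (ct n c * cos θ + ε * sin θ) = cos (ang n c - ε * θ) + ε * z * sin θ := by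
    have : hh n c * ct n c = cos (ang n c) := by rw [ct]; field_simp
    rw [mul_add, ← mul_assoc, this, hh]
    rcases hε with rfl | rfl <;> simp [cos_sub, cos_add] <;> ring
  have eY : hh n c * (cos θ - ε * ct n c * sin θ) = sin (ang n c - ε * θ) + z * cos θ := by
    have : hh n c * ct n c = cos (ang n c) := by rw [ct]; field_simp
    rw [show hh n c * (cos θ - ε * ct n c * sin θ) =
      hh n c * cos θ - ε * (hh n c * ct n c) * sin θ by ring, this, hh]
    rcases hε with rfl | rfl <;> simp [sin_sub, sin_add] <;> ring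
  have eA : |ang n c - ε * θ - (n - c - 2 * s * m : ℤ) * (π / (2 * n))| ≤ δ / 2 * z := by
    have : ang n c - ε * θ - (n - c - 2 * s * m : ℤ) * (π / (2 * n)) = -ε * (θ - m * (π / n)) := by
      rw [ang, hs]; push_cast; field_simp; ring
    rw [this, abs_mul]
    rcases hε with rfl | rfl <;> simpa using hm
  have eI : (i : ℝ) * (π / (2 * n)) = ang n (n - i) := by simp [ang]
  rw [eI] at i3 i4
  have b1 : |cos (ang n c - ε * θ) - cos (ang n (n - i))| ≤ δ / 2 * z := by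
    rw [← i3]; exact (abs_cos_sub_cos_le _ _).trans eA
  have b2 : |(|sin (ang n c - ε * θ)| - sin (ang n (n - i)))| ≤ δ / 2 * z := by
    rw [← i4]; exact (abs_abs_sub_abs_le_abs_sub _ _).trans ((abs_sin_sub_sin_le _ _).trans eA)
  have b3 : |ε * z * sin θ| ≤ z := by
    rw [abs_mul, abs_mul, abs_of_pos z0]
    have := abs_sin_le_one θ
    rcases hε with rfl | rfl <;> simp <;> linarith only [z0, this, mul_nonneg_of_nonpos_of_nonpos (le_of_lt (Mathlib.Tactic.Linarith.sub_neg_of_lt z0)) (Mathlib.Tactic.Linarith.sub_nonpos_of_le this)]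
  have b4 : |z * cos θ| ≤ z * (1 - δ) := by
    rw [abs_mul, abs_of_pos z0]; exact mul_le_mul_of_nonneg_left hc z0.le
  have eY' : hh n c * |cos θ - ε * ct n c * sin θ| = |sin (ang n c - ε * θ) + z * cos θ| := by
    rw [← eY, abs_mul, abs_of_pos ha]
  have b5 := abs_abs_sub_abs_le_abs_sub (sin (ang n c - ε * θ) + z * cos θ) (sin (ang n c - ε * θ))
  rw [add_sub_cancel_left] at b5
  replace b5 := b5.trans b4
  have dz : 0 < δ * z := mul_pos hδ z0
  have dz1 : δ * z ≤ z := by linarith only [hδ1, z0, mul_nonneg_of_nonpos_of_nonpos (Mathlib.Tactic.Linarith.sub_nonpos_of_le hδ1) (le_of_lt (Mathlib.Tactic.Linarith.sub_neg_of_lt z0))]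
  refine ⟨n - i, by omega, by omega, by omega, fun c'' q1 q2 q3 => ?_, ?_⟩
  · have ha'' := hh_pos hn q1 q2
    set X := cos (ang n c - ε * θ) + ε * z * sin θ
    set Y := |sin (ang n c - ε * θ) + z * cos θ|
    have eH : hh n c * hh n c'' *
        (ct n c * cos θ + ε * sin θ - ct n c'' * |cos θ - ε * ct n c * sin θ|) =
        hh n c'' * X - cos (ang n c'') * Y := by
      have : hh n c'' * ct n c'' = cos (ang n c'') := by rw [ct]; field_simp
      rw [← eX, ← eY', ← this]; ring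
    have bX : |X - cos (ang n (n - i))| ≤ 2 * z := by
      rw [abs_le] at b1 b3 ⊢; constructor <;> simp only [X] <;> linarith only [z0, b1, b3, dz1]
    have bY : |Y - sin (ang n (n - i))| ≤ 2 * z := by
      rw [abs_le] at b2 b5 ⊢; constructor <;> linarith only [z0, b2, dz, b5]
    have hle : |hh n c''| ≤ 2 := by
      rw [abs_of_pos ha'', hh]; linarith only [z1, sin_le_one (ang n c'')]
    have e1 : |hh n c'' * (X - cos (ang n (n - i)))| ≤ 2 * (2 * z) := by
      rw [abs_mul]; exact mul_le_mul hle bX (abs_nonneg _) (by norm_num)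
    have e2 : |cos (ang n c'') * (Y - sin (ang n (n - i)))| ≤ 1 * (2 * z) := by
      rw [abs_mul]; exact mul_le_mul (abs_cos_le_one _) bY (abs_nonneg _) (by norm_num)
    have e3 : |z * cos (ang n (n - i))| ≤ z * 1 := by
      rw [abs_mul, abs_of_pos z0]; exact mul_le_mul_of_nonneg_left (abs_cos_le_one _) z0.le
    have e4 : hh n c'' * X - cos (ang n c'') * Y = sin (ang n c'' - ang n (n - i)) +
        z * cos (ang n (n - i)) + hh n c'' * (X - cos (ang n (n - i))) -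
        cos (ang n c'') * (Y - sin (ang n (n - i))) := by
      rw [sin_sub, hh]; ring
    have low := sin_mul_low hn
    rw [← hz] at low
    have pp := mul_pos ha ha''
    rw [abs_le] at e1 e2 e3
    constructor
    · intro q
      have := low (n - i - c'') (by omega) (by omega)
      rw [show ((n - i - c'' : ℤ) : ℝ) * (π / (2 * n)) = ang n c'' - ang n (n - i) by
        simp only [ang]; push_cast; ring] at this
      refine pos_of_mul_pos_left (b := hh n c * hh n c'') ?_ pp.le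
      rw [mul_comm, eH, e4]; linarith only [z0, e1, e2, e3, this]
    · intro q
      have := low (c'' - (n - i)) (by omega) (by omega)
      rw [show ((c'' - (n - i) : ℤ) : ℝ) * (π / (2 * n)) = -(ang n c'' - ang n (n - i)) by
        simp only [ang]; push_cast; ring, sin_neg] at this
      refine neg_of_mul_neg_left (b := hh n c * hh n c'') ?_ pp.le
      rw [mul_comm, eH, e4]; linarith only [z0, e1, e2, e3, this]
  · rw [eY', hh, ← hz]
    rw [abs_le] at b2 b5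
    linarith only [b2, b5, dz]

end Pool.Agent.Work.MP_0909b4_al
end

-- merged part: Pool.Agent.Work.MP_0909b4_al.Design2
section
/-! Rational design data. -/

namespace Pool.Agent.Work.MP_0909b4_al

open Filter Topology Real

def HH {K : Type} [Field K] [LinearOrder K] (D α b x y ε : K) : K :=
  α * x + ε * b * D - y * |α - ε * x * b|

def Lab (L : ℤ) (D α b : ℚ) (t M M' : ℤ → ℚ) (c : ℤ) (ε : ℚ) (c' : ℤ) : Prop :=
  (-L ≤ c' ∧ c' ≤ L ∧ c' % 2 = c % 2) ∧
  (∀ c'', -L ≤ c'' → c'' ≤ L → c'' % 2 ≠ c % 2 →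
    (c'' < c' → 0 < HH D α b (t c) (t c'') ε) ∧ (c' < c'' → HH D α b (t c) (t c'') ε < 0)) ∧
  |α - ε * t c * b| * M' c' < M c

lemma evZ {F : Filter ℕ} {lo hi : ℤ} {Q : ℤ → ℕ → Prop}
    (h : ∀ c, lo ≤ c → c ≤ hi → ∀ᶠ k in F, Q c k) : ∀ᶠ k in F, ∀ c, lo ≤ c → c ≤ hi → Q c k :=
  ((Filter.eventually_all_finset (Finset.Icc lo hi)).2 fun c hc =>
    h c (Finset.mem_Icc.1 hc).1 (Finset.mem_Icc.1 hc).2).mono
    fun _ q c a b => q c (Finset.mem_Icc.2 ⟨a, b⟩)

lemma evI {F : Filter ℕ} {p : Prop} {Q : ℕ → Prop} (h : p → ∀ᶠ k in F, Q k) :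
    ∀ᶠ k in F, p → Q k := by
  by_cases c : p
  · exact (h c).mono fun _ q _ => q
  · exact Eventually.of_forall fun _ q => absurd q c

lemma evE {F : Filter ℕ} {Q : ℚ → ℕ → Prop} (h : ∀ ε, ε = 1 ∨ ε = -1 → ∀ᶠ k in F, Q ε k) :
    ∀ᶠ k in F, ∀ ε, ε = 1 ∨ ε = -1 → Q ε k :=
  ((h 1 (Or.inl rfl)).and (h (-1) (Or.inr rfl))).mono fun _ q ε hε => by
    rcases hε with rfl | rfl
    exacts [q.1, q.2]

lemma exists_pos_le {I : Type} [Finite I] (g : I → ℝ) (h : ∀ i, 0 < g i) :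
    ∃ δ, 0 < δ ∧ δ ≤ 1 ∧ ∀ i, δ ≤ g i := by
  cases isEmpty_or_nonempty I with
  | inl _ => exact ⟨1, one_pos, le_rfl, fun i => isEmptyElim i⟩
  | inr _ =>
    obtain ⟨i, hi⟩ := Finite.exists_min g
    exact ⟨min 1 (g i), lt_min one_pos (h i), min_le_left _ _,
      fun j => (min_le_right _ _).trans (hi j)⟩

lemma ev_lt {x y : ℕ → ℚ} {a b : ℝ} (hx : Tendsto (fun k => (x k : ℝ)) atTop (𝓝 a))
    (hy : Tendsto (fun k => (y k : ℝ)) atTop (𝓝 b)) (h : a < b) : ∀ᶠ k in atTop, x k < y k :=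
  (hx.eventually_lt hy h).mono fun _ q => by exact_mod_cast q

theorem stage1 {X H : Type} [Finite X] [Finite H] (src : H → X) (D : X → ℚ) (hD : ∀ x, 0 < D x)
    (l : H → ℝ) (hl : ∀ h, 0 < l h) (α b : H → H → ℚ) (P : H → H → Prop)
    (hP : ∀ e f, P e f → 0 < b e f ∧
      ((α e f ^ 2 + b e f ^ 2 * D (src e) : ℚ) : ℝ) = (l f / l e) ^ 2) :
    ∃ (n : ℕ) (t : X → ℤ → ℚ) (m : ℤ → ℚ) (r : H → ℚ), 0 < n ∧ n % 2 = 0 ∧
      (∀ e f, ∀ q : ℚ, l f = q * l e → r f = q * r e) ∧ (∀ c, m (-c) = m c) ∧ (∀ h, 0 < r h) ∧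
      (∀ c : ℤ, -n ≤ c → c ≤ n → 0 < m c) ∧
      (∀ x, ∀ c : ℤ, -n ≤ c → c ≤ n → ∀ c' : ℤ, -n ≤ c' → c' ≤ n → (c < c' → t x c < t x c') ∧
        (c + c' < 0 → t x c + t x c' < 0) ∧ (0 < c + c' → 0 < t x c + t x c')) ∧
      ∀ e f, P e f → (|α e f| < t (src e) n * b e f ∧ |α e f| < -t (src e) (-n) * b e f) ∧
        ∀ c : ℤ, -n ≤ c → c ≤ n → ∀ ε, ε = 1 ∨ ε = -1 → α e f - ε * t (src e) c * b e f ≠ 0 ∧
          ∃ c', Lab n (D (src e)) (α e f) (b e f) (t (src e)) (fun c => m c / r e)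
            (fun c => m c / r f) c ε c' := by
  classical
  let θ : H → H → ℝ := fun e f => arccos (α e f / (l f / l e))
  have hθ : ∀ e f, P e f → (α e f : ℝ) = l f / l e * cos (θ e f) ∧
      b e f * √(D (src e)) = l f / l e * sin (θ e f) ∧ |cos (θ e f)| < 1 ∧ 0 < sin (θ e f) := by
    intro e f h
    obtain ⟨h1, h2⟩ := hP e f h
    have r0 : 0 < l f / l e := div_pos (hl f) (hl e)
    have d0 : (0 : ℝ) < D (src e) := by exact_mod_cast hD _
    have b0 : (0 : ℝ) < b e f := by exact_mod_cast h1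
    generalize hr : l f / l e = r at *
    push_cast at h2
    have q : |(α e f : ℝ) / r| < 1 := by
      rw [abs_div, abs_of_pos r0, div_lt_one r0]
      exact abs_lt_of_sq_lt_sq (by linarith only [h2, b0, d0, mul_pos (pow_pos b0 2) d0]) r0.le
    have c : cos (θ e f) = α e f / r := by
      simp only [θ, hr]; exact cos_arccos (abs_lt.1 q).1.le (abs_lt.1 q).2.le
    have s : sin (θ e f) = b e f * √(D (src e)) / r := by
      simp only [θ, hr]
      rw [sin_arccos, sqrt_eq_iff_mul_self_eq (by linarith only [q, abs_lt.1 q, mul_pos_of_neg_of_neg (Mathlib.Tactic.Linarith.sub_neg_of_lt (abs_lt.mp q).left) (Mathlib.Tactic.Linarith.sub_neg_of_lt (abs_lt.mp q).right)]) (by positivity)]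
      field_simp
      rw [sq_sqrt d0.le]; linarith only [h2]
    refine ⟨by rw [c]; field_simp, by rw [s]; field_simp, c ▸ q, by rw [s]; positivity⟩
  obtain ⟨δ, δ0, δ1, hδ⟩ := exists_pos_le (fun q : H × H =>
    if P q.1 q.2 then min (1 - |cos (θ q.1 q.2)|) (sin (θ q.1 q.2)) else 1) (by
      rintro ⟨e, f⟩
      simp only
      split_ifs with h
      · exact lt_min (by linarith [(hθ e f h).2.2.1]) (hθ e f h).2.2.2
      · exact one_pos)
  have hδ' : ∀ e f, P e f → |cos (θ e f)| ≤ 1 - δ ∧ δ ≤ sin (θ e f) := fun e f h => by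
    have := hδ (e, f)
    simp only [if_pos h, le_min_iff] at this
    exact ⟨by linarith [this.1], this.2⟩
  obtain ⟨n0, hn0⟩ := exists_nat_gt (π / δ)
  have n0p : (0 : ℝ) < n0 := lt_trans (by positivity) hn0
  obtain ⟨k0, k0p, hk0⟩ := dirichlet (fun q : H × H => 2 * n0 * θ q.1 q.2 / π)
    (show 0 < δ / 80 by positivity)
  obtain ⟨n, hn⟩ : ∃ n : ℕ, n = 2 * n0 * k0 := ⟨_, rfl⟩
  have n0p' : 0 < n0 := by exact_mod_cast n0p
  have np : 0 < n := by rw [hn]; positivity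
  have np' : (0 : ℝ) < n := by exact_mod_cast np
  have zδ : π / (40 * n) < δ := by
    have : (n0 : ℝ) ≤ n := by exact_mod_cast (show n0 ≤ n by rw [hn]; nlinarith only [hn, np, k0p])
    rw [div_lt_iff₀ δ0] at hn0
    rw [div_lt_iff₀ (by positivity)]
    linarith only [hn0, δ0, np', this, mul_pos_of_neg_of_neg (Mathlib.Tactic.Linarith.sub_neg_of_lt δ0) (Mathlib.Tactic.Linarith.sub_neg_of_lt np'), mul_nonneg_of_nonpos_of_nonpos (le_of_lt (Mathlib.Tactic.Linarith.sub_neg_of_lt δ0)) (Mathlib.Tactic.Linarith.sub_nonpos_of_le this)]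
  have hm : ∀ e f, ∃ m : ℤ, |θ e f - m * (π / n)| ≤ δ / 2 * (π / (40 * n)) := by
    intro e f
    obtain ⟨m, h⟩ := hk0 (e, f)
    refine ⟨m, ?_⟩
    have e1 : θ e f - m * (π / n) = (k0 * (2 * n0 * θ e f / π) - m) * (π / n) := by
      have : (n : ℝ) = 2 * n0 * k0 := by exact_mod_cast hn
      have k0p' : (0 : ℝ) < k0 := by exact_mod_cast k0p
      rw [this]; field_simp
    rw [e1, abs_mul, abs_of_pos (show 0 < π / n by positivity),
      show δ / 2 * (π / (40 * n)) = δ / 80 * (π / n) by field_simp; ring]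
    exact mul_le_mul_of_nonneg_right h (by positivity)
  obtain ⟨p, hp⟩ := exists_qlin
  obtain ⟨a, ha1, ha2⟩ := exists_avoid ((Set.range fun q : H × H => α q.1 q.2 / b q.1 q.2) ∪
    Set.range fun q : H × H => -(α q.1 q.2 / b q.1 q.2)) ((Set.finite_range _).union
      (Set.finite_range _))
  have sD : ∀ x, (0 : ℝ) < √(D x) := fun x => sqrt_pos.2 (by exact_mod_cast hD x)
  have z0 : Tendsto (fun _ : ℕ => ((0 : ℚ) : ℝ)) atTop (𝓝 0) := by simp
  have E1 : ∀ᶠ k in atTop, ∀ h, 0 < p k (l h) :=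
    eventually_all.2 fun h => ev_lt z0 (hp _) (hl h)
  have E2 : ∀ᶠ k in atTop, ∀ c : ℤ, -n ≤ c → c ≤ n → 0 < p k (1 / hh n c) :=
    evZ fun c c1 c2 => ev_lt z0 (hp _) (one_div_pos.2 (hh_pos np c1 c2))
  have E3 : ∀ᶠ k in atTop, ∀ x, ∀ c : ℤ, -n ≤ c → c ≤ n → ∀ c' : ℤ, -n ≤ c' → c' ≤ n →
      (c < c' → a k (√(D x) * ct n c) < a k (√(D x) * ct n c')) ∧
      (c + c' < 0 → a k (√(D x) * ct n c) + a k (√(D x) * ct n c') < 0) ∧
      (0 < c + c' → 0 < a k (√(D x) * ct n c) + a k (√(D x) * ct n c')) := by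
    refine eventually_all.2 fun x => evZ fun c c1 c2 => evZ fun c' c3 c4 =>
      (evI fun q => ?_).and ((evI fun q => ?_).and (evI fun q => ?_))
    · exact ev_lt (ha2 _) (ha2 _) (mul_lt_mul_of_pos_left (ct_mono np c1 q c4) (sD x))
    · refine ev_lt (by simpa using (ha2 _).add (ha2 _)) z0 ?_
      have := ct_mono np c1 (c' := -c') (by omega) (by omega)
      rw [ct_neg np] at this
      linarith only [this, sD, sD x, mul_pos_of_neg_of_neg (Mathlib.Tactic.Linarith.sub_neg_of_lt this) (Mathlib.Tactic.Linarith.sub_neg_of_lt (sD x))]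
    · refine ev_lt z0 (by simpa using (ha2 _).add (ha2 _)) ?_
      have := ct_mono np (c := -c') (c' := c) (by omega) (by omega) c2
      rw [ct_neg np] at this
      linarith only [this, sD, sD x, mul_pos_of_neg_of_neg (Mathlib.Tactic.Linarith.sub_neg_of_lt this) (Mathlib.Tactic.Linarith.sub_neg_of_lt (sD x))]
  have E4 : ∀ᶠ k in atTop, ∀ e f, P e f →
      (|α e f| < a k (√(D (src e)) * ct n n) * b e f ∧
        |α e f| < -a k (√(D (src e)) * ct n (-n)) * b e f) ∧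
      ∀ c : ℤ, -n ≤ c → c ≤ n → ∀ ε, ε = 1 ∨ ε = -1 →
        ∃ c', Lab n (D (src e)) (α e f) (b e f) (fun c => a k (√(D (src e)) * ct n c))
          (fun c => p k (1 / hh n c) / p k (l e)) (fun c => p k (1 / hh n c) / p k (l f)) c ε c' := by
    refine eventually_all.2 fun e => eventually_all.2 fun f => evI fun h => ?_
    obtain ⟨a1, a2, a3, a4⟩ := hθ e f h
    obtain ⟨a5, a6⟩ := hδ' e f h
    have r0 : 0 < l f / l e := div_pos (hl f) (hl e)
    have big : |(α e f : ℝ)| < √(D (src e)) * ct n n * b e f := by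
      have z : 0 < π / (40 * n) := by positivity
      rw [ct_top, a1, abs_mul, abs_of_pos r0, mul_right_comm, mul_comm _ (b e f : ℝ), a2, mul_assoc]
      refine mul_lt_mul_of_pos_left ?_ r0
      rw [mul_one_div, lt_div_iff₀ z]
      linarith only [a6, δ0, a5, z, zδ, abs_nonneg (cos (θ e f)), mul_nonneg_of_nonpos_of_nonpos (le_of_lt (Mathlib.Tactic.Linarith.sub_neg_of_lt δ0)) (Mathlib.Tactic.Linarith.sub_nonpos_of_le a5), mul_pos_of_neg_of_neg (Mathlib.Tactic.Linarith.sub_neg_of_lt δ0) (Mathlib.Tactic.Linarith.sub_neg_of_lt z), mul_pos_of_neg_of_neg (Mathlib.Tactic.Linarith.sub_neg_of_lt zδ) (Mathlib.Tactic.Linarith.sub_neg_of_lt zδ), mul_pos_of_neg_of_neg (Mathlib.Tactic.Linarith.sub_neg_of_lt zδ) (Mathlib.Tactic.Linarith.sub_neg_of_lt z), mul_nonneg_of_nonpos_of_nonpos (le_of_lt (Mathlib.Tactic.Linarith.sub_neg_of_lt zδ)) (Mathlib.Tactic.Linarith.sub_nonpos_of_le (abs_nonneg (cos (θ e f))))]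
    refine Eventually.and (Eventually.and ?_ ?_) (evZ fun c c1 c2 => evE fun ε hε => ?_)
    · exact ev_lt tendsto_const_nhds (by simpa using (ha2 _).mul_const (b e f : ℝ))
        (by simpa using big)
    · refine ev_lt tendsto_const_nhds (by
        push_cast; exact (ha2 _).neg.mul_const (b e f : ℝ)) ?_
      rw [ct_neg np]; simpa using big
    obtain ⟨m, hm⟩ := hm e f
    obtain ⟨c', b1, b2, b3, b4, b5⟩ := real_label np δ0 δ1 a5 hm (ε := (ε : ℝ))
      (by rcases hε with rfl | rfl <;> simp) c1 c2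
    have eA : |(α e f : ℝ) - ε * (√(D (src e)) * ct n c) * b e f| =
        l f / l e * |cos (θ e f) - ε * ct n c * sin (θ e f)| := by
      rw [show (α e f : ℝ) - ε * (√(D (src e)) * ct n c) * b e f =
        l f / l e * (cos (θ e f) - ε * ct n c * sin (θ e f)) by
          linear_combination a1 - ε * ct n c * a2, abs_mul, abs_of_pos r0]
    have eH : ∀ c'', HH (D (src e) : ℝ) (α e f) (b e f) (√(D (src e)) * ct n c)
        (√(D (src e)) * ct n c'') ε = l f / l e * √(D (src e)) * (ct n c * cos (θ e f) +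
          ε * sin (θ e f) - ct n c'' * |cos (θ e f) - ε * ct n c * sin (θ e f)|) := by
      intro c''
      have := mul_self_sqrt (show (0 : ℝ) ≤ D (src e) by exact_mod_cast (hD _).le)
      rw [HH, eA]
      linear_combination √(D (src e)) * ct n c * a1 + ε * √(D (src e)) * a2 - ε * b e f * this
    have tH : ∀ c'', Tendsto (fun k => ((HH (D (src e)) (α e f) (b e f)
        (a k (√(D (src e)) * ct n c)) (a k (√(D (src e)) * ct n c'')) ε : ℚ) : ℝ)) atTop
        (𝓝 (HH (D (src e) : ℝ) (α e f) (b e f) (√(D (src e)) * ct n c)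
          (√(D (src e)) * ct n c'') ε)) := by
      intro c''
      simp only [HH]
      push_cast
      exact (((ha2 _).const_mul _).add_const _).sub ((ha2 _).mul
        ((((ha2 _).const_mul _).mul_const _).const_sub _).abs)
    have pp := mul_pos r0 (sD (src e))
    refine Eventually.mono (Eventually.and (evZ fun c'' q1 q2 => evI fun q3 =>
      (evI fun q => ?_).and (evI fun q => ?_)) ?_) fun k q => ⟨c', ⟨b1, b2, b3⟩, q⟩
    · exact ev_lt z0 (tH c'') (by rw [eH]; exact mul_pos pp ((b4 c'' q1 q2 q3).1 q))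
    · exact ev_lt (tH c'') z0 (by rw [eH]; exact mul_neg_of_pos_of_neg pp ((b4 c'' q1 q2 q3).2 q))
    · refine ev_lt (a := |(α e f : ℝ) - ε * (√(D (src e)) * ct n c) * b e f| * (1 / hh n c' / l f))
        (b := 1 / hh n c / l e) ?_ ?_ ?_
      · push_cast
        exact ((((ha2 _).const_mul _).mul_const _).const_sub _).abs.mul
          ((hp _).div (hp _) (hl f).ne')
      · push_cast
        exact (hp _).div (hp _) (hl e).ne'
      · have g1 := hh_pos np c1 c2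
        have g2 := hh_pos np b1 b2
        have g3 := hl e
        have g4 := hl f
        rw [eA, show l f / l e * |cos (θ e f) - ε * ct n c * sin (θ e f)| * (1 / hh n c' / l f) =
          hh n c * |cos (θ e f) - ε * ct n c * sin (θ e f)| / (hh n c * hh n c' * l e) by
            field_simp, show 1 / hh n c / l e = hh n c' / (hh n c * hh n c' * l e) by field_simp]
        exact div_lt_div_of_pos_right b5 (by positivity)
  obtain ⟨k, F1, F2, F3, F4⟩ := (E1.and (E2.and (E3.and E4))).exists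
  refine ⟨n, fun x c => a k (√(D x) * ct n c), fun c => p k (1 / hh n c), fun h => p k (l h), np,
    by rw [hn, mul_assoc]; omega, fun e f q h => ?_, fun c => by simp only [hh_neg np], F1, F2, F3,
    fun e f h => ⟨(F4 e f h).1, fun c c1 c2 ε hε => ⟨fun z => ?_, (F4 e f h).2 c c1 c2 ε hε⟩⟩⟩
  · simp only
    rw [h, ← Rat.smul_def, map_smul, smul_eq_mul]
  · have b0 := (hP e f h).1
    refine ha1 k (√(D (src e)) * ct n c) ?_
    rcases hε with rfl | rfl
    · exact Or.inl ⟨(e, f), by simp only; field_simp; linarith only [z]⟩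
    · exact Or.inr ⟨(e, f), by simp only; field_simp; linarith only [z]⟩

lemma ev_aff {p : ℚ} (hp : 0 < p) (q : ℚ) : ∀ᶠ T : ℕ in atTop, q < T * p := by
  obtain ⟨N, hN⟩ := exists_nat_gt (q / p)
  refine eventually_atTop.2 ⟨N, fun T hT => ?_⟩
  have : (N : ℚ) ≤ T := by exact_mod_cast hT
  rw [div_lt_iff₀ hp] at hN
  linarith only [hN, hp, this, mul_nonneg_of_nonpos_of_nonpos (le_of_lt (Mathlib.Tactic.Linarith.sub_neg_of_lt hp)) (Mathlib.Tactic.Linarith.sub_nonpos_of_le this)]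

lemma exists_den {I : Type} [Finite I] (g : I → ℚ) :
    ∃ W : ℕ, 0 < W ∧ ∀ i, ∃ z : ℤ, (z : ℚ) = W * g i := by
  have := Fintype.ofFinite I
  refine ⟨∏ i, (g i).den, Finset.prod_pos fun i _ => (g i).den_pos, fun i => ?_⟩
  obtain ⟨k, hk⟩ := Finset.dvd_prod_of_mem (fun i => (g i).den) (Finset.mem_univ i)
  refine ⟨k * (g i).num, ?_⟩
  rw [hk]; push_cast
  rw [← Rat.mul_den_eq_num]; ring

lemma exists_odd_lab {n : ℤ} (hn : n % 2 = 0) (h0 : 0 ≤ n) (g : ℤ → ℚ) (h1 : 0 < g (-n))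
    (h2 : g n < 0) (h3 : ∀ k, -n ≤ k → k ≤ n → g k ≠ 0)
    (h4 : ∀ k k', -n ≤ k → k < k' → k' ≤ n → g k' < g k) :
    ∃ c, -n ≤ c ∧ c ≤ n ∧ c % 2 = 1 ∧ ∀ k, -n ≤ k → k ≤ n → k % 2 = 0 →
      (k < c → 0 < g k) ∧ (c < k → g k < 0) := by
  obtain ⟨k0, ⟨a1, a2, a3, a4⟩, a5⟩ := Int.exists_greatest_of_bdd
    (P := fun k => k % 2 = 0 ∧ -n ≤ k ∧ k ≤ n ∧ 0 < g k) ⟨n, fun z hz => hz.2.2.1⟩
    ⟨-n, by omega, le_rfl, by omega, h1⟩
  have : k0 ≠ n := by rintro rfl; linarith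
  refine ⟨k0 + 1, by omega, by omega, by omega, fun k b1 b2 b3 => ⟨fun q => ?_, fun q => ?_⟩⟩
  · rcases (show k ≤ k0 by omega).eq_or_lt with rfl | c
    · exact a4
    · exact a4.trans (h4 k k0 b1 c a3)
  · refine lt_of_le_of_ne (not_lt.1 fun c => ?_) (h3 k b1 b2)
    have := a5 k ⟨b3, b1, b2, c⟩
    omega

theorem stage2 {X H : Type} [Finite X] [Finite H] (src : H → X) (D : X → ℚ) (hD : ∀ x, 0 < D x)
    (l : H → ℝ) (hl : ∀ h, 0 < l h) (α b : H → H → ℚ) (P : H → H → Prop)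
    (hP : ∀ e f, P e f → 0 < b e f ∧
      ((α e f ^ 2 + b e f ^ 2 * D (src e) : ℚ) : ℝ) = (l f / l e) ^ 2) :
    ∃ (L : ℤ) (t : X → ℤ → ℚ) (M : H → ℤ → ℤ), L % 2 = 1 ∧ 0 < L ∧
      (∀ e f, l f = l e → M f = M e) ∧
      (∀ e f, ∀ q : ℚ, l f = q * l e → ∀ c, -L ≤ c → c ≤ L → M f c * q = M e c) ∧
      (∀ h c, M h (-c) = M h c) ∧ (∀ h c, -L ≤ c → c ≤ L → 0 < M h c) ∧
      (∀ x, t x (-L) = -t x L) ∧
      (∀ x c c', -L ≤ c → c < c' → c' ≤ L → t x c < t x c') ∧
      (∀ x c c', -L ≤ c → c ≤ L → -L ≤ c' → c' ≤ L → c % 2 ≠ c' % 2 →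
        (c + c' < 0 → t x c + t x c' < 0) ∧ (0 < c + c' → 0 < t x c + t x c')) ∧
      ∀ e f, P e f → |α e f| < t (src e) L * b e f ∧
        ∀ c, -L ≤ c → c ≤ L → ∀ ε, ε = 1 ∨ ε = -1 → α e f - ε * t (src e) c * b e f ≠ 0 ∧
          |α e f * t (src e) c + ε * b e f * D (src e)| <
            t (src e) L * |α e f - ε * t (src e) c * b e f| ∧
          ∃ c', Lab L (D (src e)) (α e f) (b e f) (t (src e)) (fun c => M e c)
            (fun c => M f c) c ε c' := by
  obtain ⟨n, t, m, r, np, n2, r1, m1, r2, m2, t1, hL⟩ := stage1 src D hD l hl α b P hP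
  have E1 : ∀ᶠ T : ℕ in atTop, ∀ x, ∀ c : ℤ, -n ≤ c → c ≤ n → |t x c| < T :=
    eventually_all.2 fun x => evZ fun c _ _ => by simpa using ev_aff one_pos |t x c|
  have E2 : ∀ᶠ T : ℕ in atTop, ∀ e f, P e f → (2 * |α e f| + 1 < T * b e f ∧
      b e f * D (src e) < T) ∧ ∀ c : ℤ, -n ≤ c → c ≤ n → ∀ ε, ε = 1 ∨ ε = -1 →
        |α e f * t (src e) c + ε * b e f * D (src e)| < T * |α e f - ε * t (src e) c * b e f| ∧
        ∀ s, s = 1 ∨ s = -1 → (0 < s * α e f - t (src e) c * b e f →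
          -(ε * b e f * D (src e) + t (src e) c * ε * s * α e f) <
            T * (s * α e f - t (src e) c * b e f)) ∧
          (s * α e f - t (src e) c * b e f < 0 →
            ε * b e f * D (src e) + t (src e) c * ε * s * α e f <
            T * -(s * α e f - t (src e) c * b e f)) :=
    eventually_all.2 fun e => eventually_all.2 fun f => evI fun h =>
      ((ev_aff (hP e f h).1 _).and (by simpa using ev_aff one_pos (b e f * D (src e)))).and
      (evZ fun c c1 c2 => evE fun ε hε =>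
        (ev_aff (abs_pos.2 ((hL e f h).2 c c1 c2 ε hε).1) _).and (evE fun s _ =>
          (evI fun q => ev_aff q _).and (evI fun q => ev_aff (neg_pos.2 q) _)))
  obtain ⟨T, T1, T2⟩ := (E1.and E2).exists
  have E3 : ∀ᶠ K : ℕ in atTop, 0 < K ∧ ∀ e f, ∀ c : ℤ, -n ≤ c → c ≤ n →
      (T * b e f + |α e f|) * (m c / r f) < K * (1 / r e) :=
    (eventually_gt_atTop 0).and (eventually_all.2 fun e => eventually_all.2 fun f =>
      evZ fun c _ _ => ev_aff (one_div_pos.2 (r2 e)) _)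
  obtain ⟨K, K0, K1⟩ := E3.exists
  obtain ⟨t', ht1, ht2, ht3⟩ : ∃ t' : X → ℤ → ℚ, (∀ x, t' x (n + 1) = T) ∧
      (∀ x, t' x (-(n + 1)) = -T) ∧ ∀ x, ∀ c : ℤ, -n ≤ c → c ≤ n → t' x c = t x c :=
    ⟨fun x c => if c = n + 1 then T else if c = -(n + 1) then -T else t x c, fun x => by simp,
      fun x => by simp only; rw [if_neg (by omega), if_pos trivial],
      fun x c a b => by simp only; rw [if_neg (by omega), if_neg (by omega)]⟩
  obtain ⟨m', hm1, hm2, hm3⟩ : ∃ m' : ℤ → ℚ, (m' (n + 1) = K) ∧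
      (∀ c, m' (-c) = m' c) ∧ ∀ c : ℤ, -n ≤ c → c ≤ n → m' c = m c :=
    ⟨fun c => if |c| = n + 1 then K else m c, by simp only; rw [if_pos (abs_of_nonneg (by omega))],
      fun c => by simp only [abs_neg, m1],
      fun c a b => by simp only; rw [if_neg (by have := abs_le.2 ⟨a, b⟩; omega)]⟩
  obtain ⟨W, W0, hW⟩ := exists_den fun q : H × Set.Icc (-((n : ℤ) + 1)) (n + 1) => m' q.2 / r q.1
  have W0' : (0 : ℚ) < W := by exact_mod_cast W0
  have hM : ∀ h c, -((n : ℤ) + 1) ≤ c → c ≤ n + 1 → (⌊W * (m' c / r h)⌋ : ℚ) = W * (m' c / r h) := by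
    intro h c a b
    obtain ⟨z, hz⟩ := hW (h, ⟨c, a, b⟩)
    simp only at hz
    rw [← hz, Int.floor_intCast]
  have tri : ∀ c : ℤ, -((n : ℤ) + 1) ≤ c → c ≤ n + 1 →
      c = n + 1 ∨ c = -(n + 1) ∨ (-n ≤ c ∧ c ≤ n) := fun c a b => by omega
  have mp : ∀ c : ℤ, -((n : ℤ) + 1) ≤ c → c ≤ n + 1 → 0 < m' c := by
    intro c a b
    rcases tri c a b with rfl | rfl | q
    · rw [hm1]; exact_mod_cast K0
    · rw [hm2, hm1]; exact_mod_cast K0
    · rw [hm3 c q.1 q.2]; exact m2 c q.1 q.2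
  refine ⟨n + 1, t', fun h c => ⌊W * (m' c / r h)⌋, by omega, by omega, fun e f h => ?_,
    fun e f q h c a b => ?_, fun h c => by simp only [hm2], fun h c a b => ?_,
    fun x => by rw [ht1, ht2], fun x c c' a b d => ?_, fun x c c' a b a' b' d => ?_,
    fun e f h => ?_⟩
  · have := r1 e f 1 (by simpa using h)
    simp only [this, one_mul]
  · have q0 : q ≠ 0 := by
      rintro rfl
      exact (hl f).ne' (by simpa using h)
    rw [hM _ _ a b, hM _ _ a b, r1 e f q h]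
    field_simp
  · have := hM h c a b
    have : (0 : ℚ) < ⌊W * (m' c / r h)⌋ := by
      rw [this]; exact mul_pos W0' (div_pos (mp c a b) (r2 h))
    exact_mod_cast this
  · have T0 := (abs_nonneg _).trans_lt (T1 x 0 (by omega) (by omega))
    rcases tri c a (by omega) with rfl | rfl | q <;> rcases tri c' (by omega) d with rfl | rfl | q'
    · omega
    · omega
    · omega
    · rw [ht1, ht2]; linarith only [T0]
    · omega
    · rw [ht2, ht3 x c' q'.1 q'.2]; exact (abs_lt.1 (T1 x c' q'.1 q'.2)).1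
    · rw [ht1, ht3 x c q.1 q.2]; exact (abs_lt.1 (T1 x c q.1 q.2)).2
    · omega
    · rw [ht3 x c q.1 q.2, ht3 x c' q'.1 q'.2]; exact (t1 x c q.1 q.2 c' q'.1 q'.2).1 b
  · rcases tri c a b with rfl | rfl | q <;> rcases tri c' a' b' with rfl | rfl | q'
    · omega
    · omega
    · rw [ht1, ht3 x c' q'.1 q'.2]
      exact ⟨fun _ => by omega, fun _ => by linarith only [T1, q', (abs_lt.1 (T1 x c' q'.1 q'.2)).1]⟩
    · omega
    · omega
    · rw [ht2, ht3 x c' q'.1 q'.2]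
      exact ⟨fun _ => by linarith only [T1, q', (abs_lt.1 (T1 x c' q'.1 q'.2)).2], fun _ => by omega⟩
    · rw [ht1, ht3 x c q.1 q.2]
      exact ⟨fun _ => by omega, fun _ => by linarith only [T1, q, (abs_lt.1 (T1 x c q.1 q.2)).1]⟩
    · rw [ht2, ht3 x c q.1 q.2]
      exact ⟨fun _ => by linarith only [T1, q, (abs_lt.1 (T1 x c q.1 q.2)).2], fun _ => by omega⟩
    · rw [ht3 x c q.1 q.2, ht3 x c' q'.1 q'.2]; exact (t1 x c q.1 q.2 c' q'.1 q'.2).2
  obtain ⟨⟨u1, u2⟩, u3⟩ := T2 e f h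
  obtain ⟨⟨v1, v2⟩, v3⟩ := hL e f h
  have b0 := (hP e f h).1
  have bD := mul_pos b0 (hD (src e))
  have a0 := abs_nonneg (α e f)
  have T0 : (0 : ℚ) < T := by linarith only [u2, bD]
  rw [ht1]
  refine ⟨by linarith only [u1, a0], fun c c1 c2 ε hε => ?_⟩
  have scale : ∀ c' : ℤ, -n ≤ c' → c' ≤ n →
      |α e f - ε * t' (src e) c * b e f| * (m c' / r f) < m' c / r e →
      |α e f - ε * t' (src e) c * b e f| * (⌊W * (m' c' / r f)⌋ : ℚ) < ⌊W * (m' c / r e)⌋ := by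
    intro c' a b q
    rw [hM _ _ c1 c2, hM _ _ (by omega) (by omega), hm3 c' a b, mul_left_comm]
    exact mul_lt_mul_of_pos_left q W0'
  have ext : ∀ s : ℚ, s = 1 ∨ s = -1 → t' (src e) c = s * T → m' c = K → c % 2 = 1 →
      α e f - ε * t' (src e) c * b e f ≠ 0 ∧ |α e f * t' (src e) c + ε * b e f * D (src e)| <
        T * |α e f - ε * t' (src e) c * b e f| ∧
      ∃ c', Lab (n + 1) (D (src e)) (α e f) (b e f) (t' (src e))
        (fun c => (⌊W * (m' c / r e)⌋ : ℤ)) (fun c => (⌊W * (m' c / r f)⌋ : ℤ)) c ε c' := by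
    intro s hs e1 e2 e3
    have l1 := le_abs_self (α e f)
    have l2 := neg_abs_le (α e f)
    have eμ : |α e f - ε * t' (src e) c * b e f| = T * b e f - ε * s * α e f := by
      rw [e1]
      rcases hε with rfl | rfl <;> rcases hs with rfl | rfl
      · rw [abs_of_neg (by linarith only [u1, a0, l1])]; ring
      · rw [abs_of_pos (by linarith only [u1, a0, l2])]; ring
      · rw [abs_of_pos (by linarith only [u1, a0, l2])]; ring
      · rw [abs_of_neg (by linarith only [u1, a0, l1])]; ring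
    have bμ : T * b e f - |α e f| ≤ T * b e f - ε * s * α e f ∧
        T * b e f - ε * s * α e f ≤ T * b e f + |α e f| := by
      rcases hε with rfl | rfl <;> rcases hs with rfl | rfl <;> constructor <;> linarith only [l1, l2]
    refine ⟨fun z => ?_, ?_, ?_⟩
    · rw [z, abs_zero] at eμ; linarith only [u1, a0, eμ, bμ, bμ.1]
    · have : |α e f * t' (src e) c + ε * b e f * D (src e)| ≤ |α e f| * T + b e f * D (src e) := by
        refine (abs_add_le _ _).trans (add_le_add ?_ ?_)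
        · rw [e1, abs_mul]
          rcases hs with rfl | rfl <;> simp
        · rw [mul_assoc, abs_mul, abs_of_pos bD]
          rcases hε with rfl | rfl <;> simp
      rw [eμ]
      linarith only [u2, this, u1, bμ, bμ.1, mul_nonneg_of_nonpos_of_nonpos (Mathlib.Tactic.Linarith.sub_nonpos_of_le (Mathlib.Tactic.Linarith.natCast_nonneg ℚ T)) (le_of_lt (Mathlib.Tactic.Linarith.sub_neg_of_lt u1)), mul_nonneg_of_nonpos_of_nonpos (Mathlib.Tactic.Linarith.sub_nonpos_of_le (Mathlib.Tactic.Linarith.natCast_nonneg ℚ T)) (Mathlib.Tactic.Linarith.sub_nonpos_of_le bμ.left)]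
    obtain ⟨c', w1, w2, w3, w4⟩ := exists_odd_lab (n := n) (by omega) (by omega)
      (fun k => s * α e f - t (src e) k * b e f)
      (by rcases hs with rfl | rfl <;> linarith only [v2, l2, l1])
      (by rcases hs with rfl | rfl <;> linarith only [v1, l1, l2])
      (fun k k1 k2 z => (v3 k k1 k2 s hs).1 (by
        rcases hs with rfl | rfl <;> linarith only [z]))
      (fun k k' k1 k2 k3 => by
        have := (t1 (src e) k k1 (by omega) k' (by omega) k3).1 k2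
        linarith only [b0, this, mul_pos_of_neg_of_neg (Mathlib.Tactic.Linarith.sub_neg_of_lt b0) (Mathlib.Tactic.Linarith.sub_neg_of_lt this)])
    refine ⟨c', ⟨by omega, by omega, by omega⟩, fun k k1 k2 k3 => ?_, scale c' w1 w2 ?_⟩
    · have k4 : -n ≤ k ∧ k ≤ n := by omega
      obtain ⟨y1, y2⟩ := (u3 k k4.1 k4.2 ε hε).2 s hs
      obtain ⟨y3, y4⟩ := w4 k k4.1 k4.2 (by omega)
      rw [HH, eμ, e1, ht3 _ k k4.1 k4.2]
      exact ⟨fun q => by linarith only [y1, y3, q, y1 (y3 q)], fun q => by linarith only [y2, y4, q, y2 (y4 q)]⟩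
    · have := K1 e f c' w1 w2
      have := mul_le_mul_of_nonneg_right bμ.2 (div_pos (m2 c' w1 w2) (r2 f)).le
      rw [eμ, e2, div_eq_mul_one_div (K : ℚ)]
      linarith
  rcases tri c c1 c2 with rfl | rfl | q
  · exact ext 1 (Or.inl rfl) (by rw [ht1, one_mul]) hm1 (by omega)
  · exact ext (-1) (Or.inr rfl) (by rw [ht2, neg_one_mul]) (by rw [hm2, hm1]) (by omega)
  obtain ⟨w1, c', ⟨w2, w3, w4⟩, w5, w6⟩ := v3 c q.1 q.2 ε hε
  have w7 := (u3 c q.1 q.2 ε hε).1
  have e := ht3 (src e) c q.1 q.2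
  rw [e]
  refine ⟨w1, w7, c', ⟨by omega, by omega, w4⟩, fun k k1 k2 k3 => ?_, scale c' w2 w3 ?_⟩
  · rw [e]
    rcases tri k k1 k2 with rfl | rfl | q'
    · rw [ht1, HH]
      exact ⟨fun _ => by omega, fun _ => by linarith only [w7, (abs_lt.1 w7).2]⟩
    · rw [ht2, HH]
      exact ⟨fun _ => by linarith only [w7, (abs_lt.1 w7).1], fun _ => by omega⟩
    · rw [ht3 _ k q'.1 q'.2]; exact w5 k q'.1 q'.2 k3
  · rw [e, hm3 c q.1 q.2]; exact w6

end Pool.Agent.Work.MP_0909b4_al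
end
end

-- merged part: Pool.Agent.Work.MP_0909b4_al.Blk
section
-- merged part: Pool.Agent.Work.MP_0909b4_al.Geo
section
/-! Coordinates adapted to the edge directions and the existence of a design. -/

namespace Pool.Agent.Work.MP_0909b4_al

open Filter

variable {V ι : Type}

def dl (w : Z2) : Z2 →+ ℚ :=
  AddMonoidHom.mk' (fun v => (det w v : ℚ)) fun a b => by simp [det]; ring

@[simp] lemma dl_apply (w v : Z2) : dl w v = det w v := rfl

def ql (A B C : ℚ) (u : Z2) : Z2 →+ ℚ :=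
  AddMonoidHom.mk' (fun v => A * u.1 * v.1 + B * (u.1 * v.2 + u.2 * v.1) + C * u.2 * v.2)
    fun a b => by simp; ring

structure Des (T : Tub V ι) where
  D : V → ℚ
  re : HE ι → Z2 →+ ℚ
  im : HE ι → Z2 →+ ℚ
  q : HE ι → ℚ
  L : ℤ
  t : V → ℤ → ℚ
  M : HE ι → ℤ → ℤ
  hD : ∀ x, 0 < D x
  hq : ∀ h, 0 < q h
  re_self : ∀ h, re h (T.wv h) = 1
  im_self : ∀ h, im h (T.wv h) = 0
  hdet : ∀ h v w, (det v w : ℚ) = q h * (re h v * im h w - im h v * re h w)
  chg : ∀ e f, T.src e = T.src f → ∀ v,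
    re f v * (re e (T.wv f) ^ 2 + im e (T.wv f) ^ 2 * D (T.src e)) =
      re e (T.wv f) * re e v + im e (T.wv f) * D (T.src e) * im e v ∧
    im f v * (re e (T.wv f) ^ 2 + im e (T.wv f) ^ 2 * D (T.src e)) =
      re e (T.wv f) * im e v - im e (T.wv f) * re e v
  hL : L % 2 = 1
  hL0 : 0 < L
  Mbar : ∀ h, M (bar h) = M h
  Mpar : ∀ e f, T.src e = T.src f → im e (T.wv f) = 0 → ∀ c, -L ≤ c → c ≤ L →
    M f c * |re e (T.wv f)| = M e c
  Mneg : ∀ h c, M h (-c) = M h c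
  Mpos : ∀ h c, -L ≤ c → c ≤ L → 0 < M h c
  text : ∀ x, t x (-L) = -t x L
  tmono : ∀ x c c', -L ≤ c → c < c' → c' ≤ L → t x c < t x c'
  topp : ∀ x c c', -L ≤ c → c ≤ L → -L ≤ c' → c' ≤ L → c % 2 ≠ c' % 2 →
    (c + c' < 0 → t x c + t x c' < 0) ∧ (0 < c + c' → 0 < t x c + t x c')
  np : ∀ e f, T.src e = T.src f → im e (T.wv f) ≠ 0 →
    |re e (T.wv f)| < t (T.src e) L * |im e (T.wv f)| ∧
    ∀ c, -L ≤ c → c ≤ L → ∀ ε, ε = 1 ∨ ε = -1 →
      re e (T.wv f) - ε * t (T.src e) c * |im e (T.wv f)| ≠ 0 ∧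
      |(re e (T.wv f) * t (T.src e) c + ε * |im e (T.wv f)| * D (T.src e))| <
        t (T.src e) L * |(re e (T.wv f) - ε * t (T.src e) c * |im e (T.wv f)|)| ∧
      ∃ c', Lab L (D (T.src e)) (re e (T.wv f)) |im e (T.wv f)| (t (T.src e)) (fun c => M e c)
        (fun c => M f c) c ε c'

lemma form_pos {A B C : ℚ} (hA : 0 < A) (hD : B ^ 2 < A * C) {u : Z2} (hu : u ≠ 0) :
    0 < ql A B C u u := by
  change 0 < A * u.1 * u.1 + B * (u.1 * u.2 + u.2 * u.1) + C * u.2 * u.2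
  refine pos_of_mul_pos_left (b := A) ?_ hA.le
  have e : (A * u.1 * u.1 + B * (u.1 * u.2 + u.2 * u.1) + C * u.2 * u.2) * A =
      (A * u.1 + B * u.2) ^ 2 + (A * C - B ^ 2) * u.2 ^ 2 := by ring
  rw [e]
  by_cases c : u.2 = 0
  · have : u.1 ≠ 0 := fun q => hu (Prod.ext q c)
    have : (u.1 : ℚ) ≠ 0 := by exact_mod_cast this
    rw [c]; simp only [Int.cast_zero, mul_zero, add_zero]; positivity
  · have : (u.2 : ℚ) ≠ 0 := by exact_mod_cast c
    have : 0 < (A * C - B ^ 2) * (u.2 : ℚ) ^ 2 := mul_pos (by linarith) (by positivity)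
    positivity

theorem des_of_rat [Finite V] [Finite ι] (T : Tub V ι) (hw : ∀ h, T.wv h ≠ 0) (A B C : V → ℚ)
    (hA : ∀ x, 0 < A x) (hD : ∀ x, B x ^ 2 < A x * C x)
    (hQ : ∀ i, ql (A (T.o i)) (B (T.o i)) (C (T.o i)) (T.u i) (T.u i) =
      ql (A (T.d i)) (B (T.d i)) (C (T.d i)) (T.w i) (T.w i)) : Nonempty (Des T) := by
  let q : HE ι → ℚ := fun h => ql (A (T.src h)) (B (T.src h)) (C (T.src h)) (T.wv h) (T.wv h)
  have hq : ∀ h, 0 < q h := fun h => form_pos (hA _) (hD _) (hw h)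
  let re : HE ι → Z2 →+ ℚ := fun h => (q h)⁻¹ • ql (A (T.src h)) (B (T.src h)) (C (T.src h)) (T.wv h)
  let im : HE ι → Z2 →+ ℚ := fun h => (q h)⁻¹ • dl (T.wv h)
  have qe : ∀ h, q h = A (T.src h) * (T.wv h).1 * (T.wv h).1 + B (T.src h) * ((T.wv h).1 *
    (T.wv h).2 + (T.wv h).2 * (T.wv h).1) + C (T.src h) * (T.wv h).2 * (T.wv h).2 := fun _ => rfl
  have ree : ∀ h v, re h v = (q h)⁻¹ * (A (T.src h) * (T.wv h).1 * v.1 + B (T.src h) * ((T.wv h).1 *
    v.2 + (T.wv h).2 * v.1) + C (T.src h) * (T.wv h).2 * v.2) := fun _ _ => rfl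
  have ime : ∀ h v, im h v = (q h)⁻¹ * ((T.wv h).1 * v.2 - (T.wv h).2 * v.1) := fun _ _ => by
    simp [im, det]
  have hN : ∀ e f, T.src e = T.src f → re e (T.wv f) ^ 2 + im e (T.wv f) ^ 2 *
      (A (T.src e) * C (T.src e) - B (T.src e) ^ 2) = q f / q e := by
    intro e f h
    have := (hq e).ne'
    rw [ree, ime]
    field_simp
    rw [qe e, qe f, ← h]; ring
  have sq : ∀ h, (0 : ℝ) < √(q h) := fun h => Real.sqrt_pos.2 (by exact_mod_cast hq h)
  obtain ⟨L, t, M, a1, a2, a3, a4, a5, a6, a7, a8, a9, a10⟩ := stage2 T.src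
    (fun x => A x * C x - B x ^ 2) (fun x => sub_pos.2 (hD x)) (fun h => √(q h)) sq
    (fun e f => re e (T.wv f)) (fun e f => |im e (T.wv f)|)
    (fun e f => T.src e = T.src f ∧ im e (T.wv f) ≠ 0) (by
      rintro e f ⟨h1, h2⟩
      refine ⟨abs_pos.2 h2, ?_⟩
      rw [sq_abs, hN e f h1, div_pow, Real.sq_sqrt (by exact_mod_cast (hq f).le),
        Real.sq_sqrt (by exact_mod_cast (hq e).le)]
      push_cast; rfl)
  refine ⟨⟨fun x => A x * C x - B x ^ 2, re, im, q, L, t, M, fun x => sub_pos.2 (hD x), hq,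
    fun h => ?_, fun h => ?_, fun h v w => ?_, fun e f h v => ?_, a1, a2, fun h => a3 _ _ ?_,
    fun e f h z => a4 _ _ _ ?_, a5, a6, a7, a8, a9, fun e f h z => a10 e f ⟨h, z⟩⟩⟩
  · rw [ree, ← qe]; exact inv_mul_cancel₀ (hq h).ne'
  · rw [ime]; ring
  · have := (hq h).ne'
    rw [ree, ree, ime, ime]
    field_simp
    rw [qe h]; simp only [det]; push_cast; ring
  · have := (hq e).ne'
    have := (hq f).ne'
    rw [hN e f h, ree, ree, ree, ime, ime, ime, ← h]
    constructor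
    · field_simp
      rw [qe e]; ring
    · field_simp
      rw [qe e]; ring
  · congr 2
    obtain ⟨i, b⟩ := h
    cases b
    · exact hQ i
    · exact (hQ i).symm
  · have e1 := hN e f h
    rw [z, eq_div_iff (hq e).ne'] at e1
    have : (q f : ℝ) = (|re e (T.wv f)| : ℚ) ^ 2 * q e := by
      exact_mod_cast (by rw [← e1, sq_abs]; ring)
    rw [this, Real.sqrt_mul (by positivity), Real.sqrt_sq (by positivity)]

theorem exists_des [Finite V] [Finite ι] (T : Tub V ι) (hu : ∀ i, T.u i ≠ 0) (A B C : V → ℝ)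
    (hA : ∀ x, 0 < A x) (hD : ∀ x, B x ^ 2 < A x * C x)
    (hQ : ∀ i, A (T.o i) * (T.u i).1 ^ 2 + 2 * B (T.o i) * (T.u i).1 * (T.u i).2 +
      C (T.o i) * (T.u i).2 ^ 2 = A (T.d i) * (T.w i).1 ^ 2 +
        2 * B (T.d i) * (T.w i).1 * (T.w i).2 + C (T.d i) * (T.w i).2 ^ 2) :
    (∀ h, T.wv h ≠ 0) ∧ Nonempty (Des T) := by
  obtain ⟨p, hp⟩ := exists_qlin
  have z0 : Tendsto (fun _ : ℕ => ((0 : ℚ) : ℝ)) atTop (nhds 0) := by simp
  have E : ∀ᶠ k in atTop, ∀ x, 0 < p k (A x) ∧ p k (B x) ^ 2 < p k (A x) * p k (C x) :=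
    eventually_all.2 fun x => (ev_lt z0 (hp _) (hA x)).and (ev_lt
      (by push_cast; exact (hp _).pow 2) (by push_cast; exact (hp _).mul (hp _)) (hD x))
  obtain ⟨k, hk⟩ := E.exists
  have hQ' : ∀ i, ql (p k (A (T.o i))) (p k (B (T.o i))) (p k (C (T.o i))) (T.u i) (T.u i) =
      ql (p k (A (T.d i))) (p k (B (T.d i))) (p k (C (T.d i))) (T.w i) (T.w i) := by
    intro i
    have e : ∀ (x : V) (u : Z2), ql (p k (A x)) (p k (B x)) (p k (C x)) u u =
        p k (A x * u.1 ^ 2 + 2 * B x * u.1 * u.2 + C x * u.2 ^ 2) := by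
      intro x u
      rw [show A x * u.1 ^ 2 + 2 * B x * u.1 * u.2 + C x * u.2 ^ 2 = (u.1 ^ 2 : ℚ) • A x +
        (2 * u.1 * u.2 : ℚ) • B x + (u.2 ^ 2 : ℚ) • C x by simp [Rat.smul_def]; ring]
      simp only [map_add, map_smul, smul_eq_mul]
      simp only [ql, AddMonoidHom.mk'_apply]
      ring
    rw [e, e, hQ]
  have hw : ∀ h, T.wv h ≠ 0 := by
    rintro ⟨i, b⟩
    cases b
    · intro z
      have z' : T.w i = 0 := z
      have := form_pos (hk (T.o i)).1 (hk (T.o i)).2 (hu i)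
      rw [hQ', z', map_zero] at this
      exact lt_irrefl _ this
    · exact hu i
  exact ⟨hw, des_of_rat T hw (fun x => p k (A x)) (fun x => p k (B x)) (fun x => p k (C x))
    (fun x => (hk x).1) (fun x => (hk x).2) hQ'⟩

end Pool.Agent.Work.MP_0909b4_al
end

-- merged part: Pool.Agent.Work.MP_0909b4_al.Rays
section
/-! The fan attached to a vertex. -/

namespace Pool.Agent.Work.MP_0909b4_al

variable {V ι : Type} {T : Tub V ι} (E : Des T)

lemma lin_smul (φ : Z2 →+ ℚ) (n : ℤ) (v : Z2) : φ (n • v) = n * φ v := by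
  rw [map_zsmul, zsmul_eq_mul]

lemma PP.refl (a : Z2) : PP a a := ⟨1, 1, one_pos, one_pos, rfl⟩
lemma PP.symm {a b : Z2} (h : PP a b) : PP b a := by
  obtain ⟨m, n, a1, a2, e⟩ := h; exact ⟨n, m, a2, a1, e.symm⟩
lemma PP.trans {a b c : Z2} (h : PP a b) (h' : PP b c) : PP a c := by
  obtain ⟨m, n, a1, a2, e⟩ := h
  obtain ⟨m', n', b1, b2, e'⟩ := h'
  exact ⟨m' * m, n * n', by positivity, by positivity, by
    rw [mul_smul, e, smul_comm, e', mul_smul]⟩
lemma PP.neg {a b : Z2} (h : PP a b) : PP (-a) (-b) := by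
  obtain ⟨m, n, a1, a2, e⟩ := h; exact ⟨m, n, a1, a2, by rw [smul_neg, smul_neg, e]⟩
lemma PP.ne {a b : Z2} (h : PP a b) (hb : b ≠ 0) : a ≠ 0 := by
  obtain ⟨m, n, a1, a2, e⟩ := h
  rintro rfl
  rw [smul_zero, eq_comm, smul_eq_zero] at e
  exact e.elim a2.ne' hb
lemma PP.lin {a b : Z2} (h : PP a b) : ∃ s : ℚ, 0 < s ∧ ∀ φ : Z2 →+ ℚ, φ a = s * φ b := by
  obtain ⟨m, n, a1, a2, e⟩ := h
  have m0 : (0 : ℚ) < m := by exact_mod_cast a1
  refine ⟨n / m, div_pos (by exact_mod_cast a2) m0, fun φ => ?_⟩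
  have := congrArg φ e
  rw [map_zsmul, map_zsmul, zsmul_eq_mul, zsmul_eq_mul] at this
  field_simp; linarith only [this]

lemma Des.nrm_le (h : HE ι) : ∃ κ : ℚ, 0 ≤ κ ∧ ∀ v, (nrm v : ℚ) ≤ κ * (|E.re h v| + |E.im h v|) := by
  refine ⟨E.q h * (|E.re h (1, 0)| + |E.im h (1, 0)| + |E.re h (0, 1)| + |E.im h (0, 1)|),
    by have := E.hq h; positivity, fun v => ?_⟩
  have key : ∀ w, |(det v w : ℚ)| ≤ E.q h * ((|E.re h w| + |E.im h w|) *
      (|E.re h v| + |E.im h v|)) := by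
    intro w
    rw [E.hdet h, abs_mul, abs_of_pos (E.hq h)]
    refine mul_le_mul_of_nonneg_left ((abs_sub _ _).trans ?_) (E.hq h).le
    rw [abs_mul, abs_mul]
    linarith only [mul_nonneg (abs_nonneg (E.re h w)) (abs_nonneg (E.re h v)),
      mul_nonneg (abs_nonneg (E.im h w)) (abs_nonneg (E.im h v))]
  have a := key (1, 0)
  have b := key (0, 1)
  simp only [det, mul_zero, mul_one, zero_sub, sub_zero, Int.cast_neg, abs_neg] at a b
  simp only [nrm]; push_cast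
  linarith only [a, b]

lemma Des.inj (h : HE ι) {v w : Z2} (h1 : E.re h v = E.re h w) (h2 : E.im h v = E.im h w) :
    v = w := by
  obtain ⟨κ, -, hk⟩ := E.nrm_le h
  have := hk (v - w)
  rw [map_sub, map_sub, h1, h2] at this
  simp only [sub_self, abs_zero, add_zero, mul_zero] at this
  have : nrm (v - w) ≤ 0 := by exact_mod_cast this
  simp only [nrm, Prod.fst_sub, Prod.snd_sub] at this
  have := abs_nonneg (v.1 - w.1)
  have := abs_nonneg (v.2 - w.2)
  exact Prod.ext (sub_eq_zero.1 (abs_eq_zero.1 (by omega))) (sub_eq_zero.1 (abs_eq_zero.1 (by omega)))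

def Des.IsRay (h : HE ι) (t σ : ℚ) (y : Z2) : Prop :=
  ∃ s : ℚ, 0 < s ∧ E.re h y = s * t ∧ E.im h y = s * σ

lemma Des.exists_ray (h : HE ι) (t σ : ℚ) : ∃ y, E.IsRay h t σ y := by
  set a := E.q h * (t * E.im h (0, 1) - σ * E.re h (0, 1)) with ha
  set b := E.q h * (σ * E.re h (1, 0) - t * E.im h (1, 0)) with hb
  have d := E.hdet h (1, 0) (0, 1)
  simp only [det, mul_one, mul_zero, sub_zero, Int.cast_one] at d
  refine ⟨(a.num * b.den, b.num * a.den), a.den * b.den, by positivity, ?_, ?_⟩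
  · rw [lin_eq]; push_cast
    rw [← Rat.mul_den_eq_num, ← Rat.mul_den_eq_num]
    generalize (a.den : ℚ) = x; generalize (b.den : ℚ) = y
    rw [ha, hb]; linear_combination -x * y * t * d
  · rw [lin_eq]; push_cast
    rw [← Rat.mul_den_eq_num, ← Rat.mul_den_eq_num]
    generalize (a.den : ℚ) = x; generalize (b.den : ℚ) = y
    rw [ha, hb]; linear_combination -x * y * σ * d

lemma Des.IsRay.pp {h : HE ι} {t σ : ℚ} {y z : Z2} (r : E.IsRay h t σ y) (p : PP z y) :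
    E.IsRay h t σ z := by
  obtain ⟨s, s0, a, b⟩ := r
  obtain ⟨s', s1, c⟩ := p.lin
  exact ⟨s' * s, by positivity, by rw [c, a, mul_assoc], by rw [c, b, mul_assoc]⟩

noncomputable def Des.zi (h : HE ι) (c : ℤ) (σ : ℚ) : Z2 :=
  (E.exists_ray h (E.t (T.src h) c) σ).choose

def Des.Base (x : V) (z : Z2) : Prop :=
  (∃ h, T.src h = x ∧ z = T.wv h) ∨
  (∃ h c σ, T.src h = x ∧ -E.L ≤ c ∧ c ≤ E.L ∧ (σ = 1 ∨ σ = -1) ∧ z = E.zi h c σ) ∨
  ((∀ h, T.src h ≠ x) ∧ (z = (1, 0) ∨ z = (0, 1)))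

def Des.Good (x : V) (y : Z2) : Prop :=
  ∀ h, T.src h = x → ∀ ε : ℤ, ε = 1 ∨ ε = -1 → PP y (ε • T.wv h) → y = (ε * E.M h 0) • T.wv h

noncomputable def Des.nv (x : V) (z : Z2) : Z2 := Classical.epsilon fun y => PP y z ∧ E.Good x y

lemma Des.M0 (h : HE ι) : 0 < E.M h 0 := E.Mpos h 0 (by have := E.hL0; omega) E.hL0.le

lemma Des.pp_edge (h : HE ι) (ε : ℤ) : PP ((ε * E.M h 0) • T.wv h) (ε • T.wv h) :=
  ⟨1, E.M h 0, one_pos, E.M0 h, by rw [one_smul, mul_comm, mul_smul]⟩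

lemma Des.nv_spec (x : V) (z : Z2) : PP (E.nv x z) z ∧ E.Good x (E.nv x z) := by
  refine Classical.epsilon_spec (p := fun y => PP y z ∧ E.Good x y) ?_
  by_cases c : ∃ h, T.src h = x ∧ ∃ ε : ℤ, (ε = 1 ∨ ε = -1) ∧ PP z (ε • T.wv h)
  · obtain ⟨h, hx, ε, hε, p⟩ := c
    refine ⟨_, (E.pp_edge h ε).trans p.symm, fun f hf ε' hε' p' => ?_⟩
    obtain ⟨s, s0, e⟩ := p'.lin
    have e1 := e (E.re h)
    have e2 := e (E.im h)
    simp only [lin_smul, E.re_self, E.im_self, mul_one, mul_zero] at e1 e2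
    have m0 : (0 : ℚ) < E.M h 0 := by exact_mod_cast E.M0 h
    have z : E.im h (T.wv f) = 0 := by
      rcases hε' with rfl | rfl <;> simpa [s0.ne'] using e2
    have m := E.Mpar h f (hx.trans hf.symm) z 0 (by have := E.hL0; omega) E.hL0.le
    refine E.inj h ?_ ?_
    · simp only [lin_smul, E.re_self, mul_one]
      push_cast at e1 ⊢
      rw [← m]
      rcases hε with rfl | rfl <;> rcases hε' with rfl | rfl <;> push_cast at e1 ⊢
      · rw [abs_of_pos (by (refine lt_of_not_ge fun h_nl => ?_; linarith only [h_nl, m0, e1, s0, mul_nonneg_of_nonpos_of_nonpos (le_of_lt (Mathlib.Tactic.Linarith.sub_neg_of_lt s0)) (Mathlib.Tactic.Linarith.sub_nonpos_of_le h_nl)]))]; ring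
      · rw [abs_of_neg (by (refine lt_of_not_ge fun h_nl => ?_; linarith only [h_nl, m0, e1, s0, mul_nonneg_of_nonpos_of_nonpos (le_of_lt (Mathlib.Tactic.Linarith.sub_neg_of_lt s0)) (Mathlib.Tactic.Linarith.sub_nonpos_of_le h_nl)]))]; ring
      · rw [abs_of_neg (by (refine lt_of_not_ge fun h_nl => ?_; linarith only [h_nl, m0, e1, s0, mul_nonneg_of_nonpos_of_nonpos (le_of_lt (Mathlib.Tactic.Linarith.sub_neg_of_lt s0)) (Mathlib.Tactic.Linarith.sub_nonpos_of_le h_nl)]))]; ring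
      · rw [abs_of_pos (by (refine lt_of_not_ge fun h_nl => ?_; linarith only [h_nl, m0, e1, s0, mul_nonneg_of_nonpos_of_nonpos (le_of_lt (Mathlib.Tactic.Linarith.sub_neg_of_lt s0)) (Mathlib.Tactic.Linarith.sub_nonpos_of_le h_nl)]))]; ring
    · simp only [map_zsmul, E.im_self, z, smul_zero]
  · exact ⟨z, PP.refl z, fun h hx ε hε p => absurd ⟨h, hx, ε, hε, p⟩ c⟩

lemma Des.nv_congr (x : V) {z z' : Z2} (p : PP z z') : E.nv x z = E.nv x z' := by
  unfold Des.nv
  congr 1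
  ext y
  exact and_congr_left' ⟨fun q => q.trans p, fun q => q.trans p.symm⟩

lemma Des.base_finite [Finite ι] (x : V) : {z | E.Base x z}.Finite := by
  refine (((Set.finite_range T.wv).union (((Set.finite_univ (α := HE ι)).prod
    ((Set.finite_Icc (-E.L) E.L).prod (Set.toFinite ({1, -1} : Set ℚ)))).image
    fun q => E.zi q.1 q.2.1 q.2.2)).union (Set.toFinite ({(1, 0), (0, 1)} : Set Z2))).subset ?_
  rintro z (⟨h, -, rfl⟩ | ⟨h, c, σ, -, a, b, d, rfl⟩ | ⟨-, q⟩)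
  · exact Or.inl (Or.inl ⟨h, rfl⟩)
  · exact Or.inl (Or.inr ⟨(h, c, σ), ⟨trivial, ⟨a, b⟩, d⟩, rfl⟩)
  · exact Or.inr q

noncomputable def Des.R [Finite ι] (x : V) : Finset Z2 :=
  (((E.base_finite x).image (E.nv x)).union
    ((E.base_finite x).image fun z => E.nv x (-z))).toFinset

lemma Des.mem_R [Finite ι] {x : V} {y : Z2} :
    y ∈ E.R x ↔ ∃ z, E.Base x z ∧ (y = E.nv x z ∨ y = E.nv x (-z)) := by
  simp only [Des.R, Set.Finite.mem_toFinset, Set.mem_union, Set.mem_image, Set.mem_ofPred_eq]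
  constructor
  · rintro (⟨z, a, rfl⟩ | ⟨z, a, rfl⟩)
    exacts [⟨z, a, Or.inl rfl⟩, ⟨z, a, Or.inr rfl⟩]
  · rintro ⟨z, a, rfl | rfl⟩
    exacts [Or.inl ⟨z, a, rfl⟩, Or.inr ⟨z, a, rfl⟩]

lemma Des.zi_ray (h : HE ι) (c : ℤ) (σ : ℚ) : E.IsRay h (E.t (T.src h) c) σ (E.zi h c σ) :=
  (E.exists_ray h (E.t (T.src h) c) σ).choose_spec

noncomputable def Des.ry (h : HE ι) (c : ℤ) (σ : ℚ) : Z2 := E.nv (T.src h) (E.zi h c σ)

lemma Des.ry_ray (h : HE ι) (c : ℤ) (σ : ℚ) : E.IsRay h (E.t (T.src h) c) σ (E.ry h c σ) :=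
  (E.zi_ray h c σ).pp E (E.nv_spec _ _).1

lemma Des.ry_mem [Finite ι] (h : HE ι) {c : ℤ} {σ : ℚ} (h1 : -E.L ≤ c) (h2 : c ≤ E.L)
    (h3 : σ = 1 ∨ σ = -1) : E.ry h c σ ∈ E.R (T.src h) :=
  E.mem_R.2 ⟨_, Or.inr (Or.inl ⟨h, c, σ, rfl, h1, h2, h3, rfl⟩), Or.inl rfl⟩

lemma Des.edge_mem [Finite ι] (h : HE ι) {ε : ℤ} (hε : ε = 1 ∨ ε = -1) :
    (ε * E.M h 0) • T.wv h ∈ E.R (T.src h) := by
  refine E.mem_R.2 ⟨_, Or.inl ⟨h, rfl, rfl⟩, ?_⟩
  have := (E.nv_spec (T.src h) (ε • T.wv h))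
  rw [← this.2 h rfl ε hε this.1]
  rcases hε with rfl | rfl
  · left; rw [one_smul]
  · right; rw [neg_one_smul]

include E in
lemma Des.wv_ne (h : HE ι) : T.wv h ≠ 0 := fun z => by
  have := E.re_self h
  rw [z, map_zero] at this; exact zero_ne_one this

lemma Des.base_ne {x : V} {z : Z2} (b : E.Base x z) : z ≠ 0 := by
  rcases b with ⟨h, -, rfl⟩ | ⟨h, c, σ, -, -, -, d, rfl⟩ | ⟨-, rfl | rfl⟩
  · exact E.wv_ne h
  · intro z
    obtain ⟨s, s0, -, e⟩ := E.zi_ray h c σ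
    rw [z, map_zero] at e
    rcases d with rfl | rfl <;> linarith
  · simp
  · simp

lemma Des.fan [Finite ι] (x : V) : FanH (E.R x) where
  ne a ha := by
    obtain ⟨z, b, rfl | rfl⟩ := E.mem_R.1 ha
    · exact (E.nv_spec x z).1.ne (E.base_ne b)
    · exact (E.nv_spec x _).1.ne (neg_ne_zero.2 (E.base_ne b))
  uniq a ha b hb p := by
    obtain ⟨z, -, h1⟩ := E.mem_R.1 ha
    obtain ⟨z', -, h2⟩ := E.mem_R.1 hb
    obtain ⟨w, rfl⟩ : ∃ w, a = E.nv x w := h1.elim (fun q => ⟨_, q⟩) fun q => ⟨_, q⟩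
    obtain ⟨w', rfl⟩ : ∃ w, b = E.nv x w := h2.elim (fun q => ⟨_, q⟩) fun q => ⟨_, q⟩
    exact E.nv_congr x ((E.nv_spec x w).1.symm.trans (p.trans (E.nv_spec x w').1))
  sym a ha := by
    obtain ⟨z, b, rfl | rfl⟩ := E.mem_R.1 ha
    · exact ⟨_, E.mem_R.2 ⟨z, b, Or.inr rfl⟩, (E.nv_spec x _).1.trans (E.nv_spec x z).1.neg.symm⟩
    · exact ⟨_, E.mem_R.2 ⟨z, b, Or.inl rfl⟩, (E.nv_spec x _).1.trans
        (by simpa using (E.nv_spec x (-z)).1.neg.symm)⟩
  span := by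
    by_cases c : ∃ h, T.src h = x
    · obtain ⟨h, rfl⟩ := c
      refine ⟨_, E.edge_mem h (Or.inl rfl), _, E.ry_mem h (c := 0) (by have := E.hL0; omega)
        E.hL0.le (Or.inl rfl), fun z => ?_⟩
      obtain ⟨s, s0, -, e⟩ := E.ry_ray h 0 1
      have := E.hdet h ((1 * E.M h 0) • T.wv h) (E.ry h 0 1)
      have m0 : (0 : ℚ) < E.M h 0 := by exact_mod_cast E.M0 h
      rw [z, e] at this
      simp only [lin_smul, E.re_self, E.im_self] at this
      have := mul_pos (E.hq h) (mul_pos m0 s0)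
      push_cast at *
      linarith
    · push Not at c
      refine ⟨_, E.mem_R.2 ⟨(1, 0), Or.inr (Or.inr ⟨c, Or.inl rfl⟩), Or.inl rfl⟩, _,
        E.mem_R.2 ⟨(0, 1), Or.inr (Or.inr ⟨c, Or.inr rfl⟩), Or.inl rfl⟩, fun z => ?_⟩
      obtain ⟨s, s0, e⟩ := (E.nv_spec x (1, 0)).1.lin
      obtain ⟨s', s1, e'⟩ := (E.nv_spec x (0, 1)).1.lin
      have a := e' (dl (E.nv x (1, 0)))
      have b := e (dl (0, 1))
      rw [dl_apply, dl_apply, z, det_swap] at a
      rw [dl_apply, dl_apply] at b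
      push_cast at a
      rw [b] at a
      simp only [det] at a
      norm_num at a
      rcases a with a | a <;> linarith

lemma Des.N_pos {e f : HE ι} (h : T.src e = T.src f) :
    0 < E.re e (T.wv f) ^ 2 + E.im e (T.wv f) ^ 2 * E.D (T.src e) := by
  have := (E.chg e f h (T.wv f)).1
  have d := E.hD (T.src e)
  by_contra c
  have a : E.re e (T.wv f) = 0 := by nlinarith [sq_nonneg (E.re e (T.wv f)), mul_nonneg (sq_nonneg (E.im e (T.wv f))) d.le]
  have b : E.im e (T.wv f) = 0 := by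
    by_contra q
    have := mul_pos (sq_pos_of_ne_zero q) d
    linarith only [c, this, sq_nonneg (E.re e (T.wv f)), mul_self_nonneg ((E.re e) (T.wv f))]
  exact E.wv_ne f (E.inj e (by rw [a, map_zero]) (by rw [b, map_zero]))

lemma Des.t_le (x : V) {c : ℤ} (h1 : -E.L ≤ c) (h2 : c ≤ E.L) : |E.t x c| ≤ E.t x E.L := by
  rw [abs_le, ← E.text]
  constructor
  · rcases h1.eq_or_lt with q | q
    · rw [q]
    · exact (E.tmono x _ _ le_rfl q h2).le
  · rcases h2.eq_or_lt with q | q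
    · rw [q]
    · exact (E.tmono x _ _ h1 q le_rfl).le

/-- a ray seen from another edge at the same vertex -/
lemma Des.ray_seen {e f : HE ι} (h : T.src e = T.src f) {c : ℤ} {σ : ℚ} (h1 : -E.L ≤ c)
    (h2 : c ≤ E.L) (h3 : σ = 1 ∨ σ = -1) {y : Z2} (r : E.IsRay e (E.t (T.src e) c) σ y) :
    E.im f y ≠ 0 ∧ |E.re f y| ≤ E.t (T.src e) E.L * |E.im f y| := by
  obtain ⟨s, s0, a, b⟩ := r
  obtain ⟨c1, c2⟩ := E.chg e f h y
  have N := E.N_pos h
  rw [a, b] at c1 c2
  generalize E.re e (T.wv f) ^ 2 + E.im e (T.wv f) ^ 2 * E.D (T.src e) = n at *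
  have key : E.re e (T.wv f) * σ - E.im e (T.wv f) * E.t (T.src e) c ≠ 0 ∧
      |E.re e (T.wv f) * E.t (T.src e) c + E.im e (T.wv f) * E.D (T.src e) * σ| ≤
      E.t (T.src e) E.L * |E.re e (T.wv f) * σ - E.im e (T.wv f) * E.t (T.src e) c| := by
    by_cases z : E.im e (T.wv f) = 0
    · have N' := E.N_pos h
      rw [z] at N' ⊢
      have : E.re e (T.wv f) ≠ 0 := by rintro q; rw [q] at N'; simp at N'
      have tl := E.t_le (T.src e) h1 h2
      have := mul_le_mul_of_nonneg_right tl (abs_nonneg (E.re e (T.wv f)))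
      rcases h3 with rfl | rfl <;> simpa [*, abs_mul, mul_comm] using this
    · obtain ⟨-, k⟩ := E.np e f h z
      rcases lt_or_gt_of_ne z with q | q
      · obtain ⟨k1, k2, -⟩ := k c h1 h2 (-σ) (by rcases h3 with rfl | rfl <;> simp)
        rw [abs_of_neg q] at k1 k2
        have e1 : E.re e (T.wv f) * σ - E.im e (T.wv f) * E.t (T.src e) c =
            σ * (E.re e (T.wv f) - -σ * E.t (T.src e) c * -E.im e (T.wv f)) := by
          rcases h3 with rfl | rfl <;> ring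
        rw [e1, abs_mul]
        refine ⟨mul_ne_zero (by rcases h3 with rfl | rfl <;> norm_num) k1, ?_⟩
        rw [show |σ| = 1 by rcases h3 with rfl | rfl <;> simp, one_mul]
        refine le_of_eq_of_le (congrArg _ (by ring)) k2.le
      · obtain ⟨k1, k2, -⟩ := k c h1 h2 σ h3
        rw [abs_of_pos q] at k1 k2
        have e1 : E.re e (T.wv f) * σ - E.im e (T.wv f) * E.t (T.src e) c =
            σ * (E.re e (T.wv f) - σ * E.t (T.src e) c * E.im e (T.wv f)) := by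
          rcases h3 with rfl | rfl <;> ring
        rw [e1, abs_mul]
        refine ⟨mul_ne_zero (by rcases h3 with rfl | rfl <;> norm_num) k1, ?_⟩
        rw [show |σ| = 1 by rcases h3 with rfl | rfl <;> simp, one_mul]
        refine le_of_eq_of_le (congrArg _ (by ring)) k2.le
  have d1 : E.re f y = s / n * (E.re e (T.wv f) * E.t (T.src e) c +
      E.im e (T.wv f) * E.D (T.src e) * σ) := by field_simp; linarith only [c1]
  have d2 : E.im f y = s / n * (E.re e (T.wv f) * σ - E.im e (T.wv f) * E.t (T.src e) c) := by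
    field_simp; linarith only [c2]
  have p := div_pos s0 N
  rw [d1, d2, abs_mul, abs_mul, mul_left_comm]
  exact ⟨mul_ne_zero p.ne' key.1, mul_le_mul_of_nonneg_left key.2 (abs_nonneg _)⟩

lemma Des.classify [Finite ι] (h : HE ι) {s : Z2} (hs : s ∈ E.R (T.src h)) :
    E.im h s = 0 ∨ |E.re h s| ≤ E.t (T.src h) E.L * |E.im h s| := by
  obtain ⟨z, b, hz⟩ := E.mem_R.1 hs
  have hb : E.im h z = 0 ∨ |E.re h z| ≤ E.t (T.src h) E.L * |E.im h z| := by
    rcases b with ⟨f, hf, rfl⟩ | ⟨f, c, σ, hf, c1, c2, c3, rfl⟩ | ⟨q, -⟩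
    · by_cases z : E.im h (T.wv f) = 0
      · exact Or.inl z
      · exact Or.inr (E.np h f hf.symm z).1.le
    · exact Or.inr (hf ▸ (E.ray_seen hf c1 c2 c3 (E.zi_ray f c σ)).2)
    · exact absurd rfl (q h)
  obtain ⟨r, r0, e1, e2⟩ : ∃ r : ℚ, 0 < r ∧ |E.re h s| = r * |E.re h z| ∧
      |E.im h s| = r * |E.im h z| := by
    rcases hz with rfl | rfl
    · obtain ⟨r, r0, e⟩ := (E.nv_spec (T.src h) z).1.lin
      exact ⟨r, r0, by rw [e, abs_mul, abs_of_pos r0], by rw [e, abs_mul, abs_of_pos r0]⟩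
    · obtain ⟨r, r0, e⟩ := (E.nv_spec (T.src h) (-z)).1.lin
      exact ⟨r, r0, by rw [e, abs_mul, abs_of_pos r0, map_neg, abs_neg],
        by rw [e, abs_mul, abs_of_pos r0, map_neg, abs_neg]⟩
  rcases hb with q | q
  · left; rw [q] at e2; simpa using e2
  · right; rw [e1, e2, mul_left_comm]; exact mul_le_mul_of_nonneg_left q r0.le

lemma Des.ext_sector [Finite ι] (h : HE ι) {ε : ℤ} (hε : ε = 1 ∨ ε = -1) {σ : ℚ}
    (hσ : σ = 1 ∨ σ = -1) :
    Sector (E.R (T.src h)) (E.ry h (ε * E.L) σ) ((ε * E.M h 0) • T.wv h) := by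
  have L0 := E.hL0
  obtain ⟨s, s0, a, b⟩ := E.ry_ray h (ε * E.L) σ
  have m0 : (0 : ℚ) < E.M h 0 := by exact_mod_cast E.M0 h
  have q0 := E.hq h
  have et : E.t (T.src h) (ε * E.L) = ε * E.t (T.src h) E.L := by
    rcases hε with rfl | rfl <;> simp [E.text]
  refine ⟨E.ry_mem h (by rcases hε with rfl | rfl <;> omega) (by rcases hε with rfl | rfl <;> omega)
    hσ, E.edge_mem h hε, fun z => ?_, fun r hr => ?_⟩
  · have := E.hdet h (E.ry h (ε * E.L) σ) ((ε * E.M h 0) • T.wv h)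
    rw [z, b] at this
    simp only [lin_smul, E.re_self, E.im_self] at this
    have p := mul_pos q0 (mul_pos m0 s0)
    rcases hε with rfl | rfl <;> rcases hσ with rfl | rfl <;> push_cast at this <;> linarith only [p, this]
  · have e : ((det r (E.ry h (ε * E.L) σ) * det r ((ε * E.M h 0) • T.wv h) : ℤ) : ℚ) =
        E.q h * E.q h * s * E.M h 0 * (E.t (T.src h) E.L * E.im h r ^ 2 -
          ε * σ * (E.re h r * E.im h r)) := by
      push_cast
      rw [E.hdet h, E.hdet h, a, b, et]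
      simp only [lin_smul, E.re_self, E.im_self]
      rcases hε with rfl | rfl <;> push_cast <;> ring
    have k : ε * σ * (E.re h r * E.im h r) ≤ E.t (T.src h) E.L * E.im h r ^ 2 := by
      rcases E.classify h hr with q | q
      · rw [q]; simp
      · have := mul_le_mul_of_nonneg_right q (abs_nonneg (E.im h r))
        rw [← abs_mul, mul_assoc, abs_mul_abs_self, ← sq, abs_le] at this
        rcases hε with rfl | rfl <;> rcases hσ with rfl | rfl <;> push_cast <;> linarith only [this]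
    have : (0 : ℚ) ≤ ((det r (E.ry h (ε * E.L) σ) * det r ((ε * E.M h 0) • T.wv h) : ℤ) : ℚ) := by
      rw [e]; exact mul_nonneg (by positivity) (by linarith)
    exact_mod_cast this

def Des.Ed (x : V) (a : Z2) : Prop := ∃ h, T.src h = x ∧ E.im h a = 0

def Des.bef (x : V) (a b : Z2) : Prop :=
  (¬ E.Ed x a ∧ E.Ed x b) ∨ ((E.Ed x a ↔ E.Ed x b) ∧ toLex a < toLex b)

lemma Des.bef_tot (x : V) (a b : Z2) (h : a ≠ b) : E.bef x a b ∨ E.bef x b a := by
  have := lt_or_gt_of_ne (show toLex a ≠ toLex b from h)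
  unfold Des.bef; tauto

lemma Des.bef_asym (x : V) (a b : Z2) (h : E.bef x a b) : ¬ E.bef x b a := by
  have := @lt_asymm _ _ (toLex a) (toLex b)
  unfold Des.bef at *; tauto

lemma Des.bef_ext (h : HE ι) {c : ℤ} {σ : ℚ} (h1 : -E.L ≤ c) (h2 : c ≤ E.L) (h3 : σ = 1 ∨ σ = -1)
    (n : ℤ) : E.bef (T.src h) (E.ry h c σ) (n • T.wv h) :=
  Or.inl ⟨fun ⟨_, a, b⟩ => (E.ray_seen a.symm h1 h2 h3 (E.ry_ray h c σ)).1 b,
    h, rfl, by rw [map_zsmul, E.im_self, smul_zero]⟩

lemma Des.tame_im [Finite ι] (h : HE ι) : Tame (E.R (T.src h)) (E.im h) :=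
  tame_of_ker (E.edge_mem h (Or.inl rfl)) ((E.fan _).ne _ (E.edge_mem h (Or.inl rfl)))
    (by rw [map_zsmul, E.im_self, smul_zero])

lemma Des.tame_ray [Finite ι] (h : HE ι) {c : ℤ} {σ : ℚ} (h1 : -E.L ≤ c) (h2 : c ≤ E.L)
    (h3 : σ = 1 ∨ σ = -1) : Tame (E.R (T.src h)) (E.re h - (E.t (T.src h) c * σ) • E.im h) := by
  refine tame_of_ker (E.ry_mem h h1 h2 h3) ((E.fan _).ne _ (E.ry_mem h h1 h2 h3)) ?_
  obtain ⟨s, -, a, b⟩ := E.ry_ray h c σ
  simp only [AddMonoidHom.sub_apply, AddMonoidHom.smul_apply, a, b, smul_eq_mul]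
  rcases h3 with rfl | rfl <;> ring

lemma Des.near_ray {h : HE ι} {t σ : ℚ} (hσ : σ = 1 ∨ σ = -1) {y : Z2} (r : E.IsRay h t σ y)
    (B : ℚ) : ∃ C : ℤ, ∀ v, |(E.re h v - t * |E.im h v|)| ≤ B → -B ≤ σ * E.im h v →
      ∃ m : ℕ, nrm (v - (m : ℤ) • y) ≤ C := by
  obtain ⟨s, s0, a, b⟩ := r
  obtain ⟨κ, κ0, hκ⟩ := E.nrm_le h
  refine ⟨⌈κ * (B + |t| * (B + s) + (B + s))⌉, fun v h1 h2 => ?_⟩
  have B0 : 0 ≤ B := (abs_nonneg _).trans h1
  obtain ⟨m, m1, m2⟩ : ∃ m : ℕ, |(|E.im h v| - m * s)| ≤ B + s ∧ |σ * E.im h v - m * s| ≤ B + s := by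
    have e : |E.im h v| = |σ * E.im h v| := by rcases hσ with rfl | rfl <;> simp
    rw [e]
    generalize σ * E.im h v = z at *
    by_cases c : 0 ≤ z
    · have k1 := Nat.floor_le (div_nonneg c s0.le)
      have k2 := Nat.lt_floor_add_one (z / s)
      rw [le_div_iff₀ s0] at k1
      rw [div_lt_iff₀ s0] at k2
      refine ⟨⌊z / s⌋₊, ?_⟩
      rw [abs_of_nonneg c, abs_le]
      exact ⟨⟨by linarith only [s0, B0, k1], by linarith only [B0, k2]⟩, by linarith only [s0, B0, k1], by linarith only [B0, k2]⟩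
    · refine ⟨0, ?_⟩
      simp only [Nat.cast_zero, zero_mul, sub_zero, abs_abs]
      rw [abs_of_neg (not_le.1 c)]
      exact ⟨by linarith, by linarith⟩
  refine ⟨m, ?_⟩
  have e1 : |E.re h (v - (m : ℤ) • y)| ≤ B + |t| * (B + s) := by
    rw [map_sub, map_zsmul, a, zsmul_eq_mul, show E.re h v - ((m : ℤ) : ℚ) * (s * t) =
      (E.re h v - t * |E.im h v|) + t * (|E.im h v| - m * s) by push_cast; ring]
    refine (abs_add_le _ _).trans (add_le_add h1 ?_)
    rw [abs_mul]; exact mul_le_mul_of_nonneg_left m1 (abs_nonneg _)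
  have e2 : |E.im h (v - (m : ℤ) • y)| ≤ B + s := by
    rw [map_sub, map_zsmul, b, zsmul_eq_mul]
    rcases hσ with rfl | rfl
    · simpa using m2
    · rw [← abs_neg]; refine le_of_eq_of_le (congrArg _ ?_) m2; push_cast; ring
  have := (hκ (v - (m : ℤ) • y)).trans (mul_le_mul_of_nonneg_left (add_le_add e1 e2) κ0)
  exact_mod_cast this.trans (Int.le_ceil _)

end Pool.Agent.Work.MP_0909b4_al
end

-- merged part: Pool.Agent.Work.MP_0909b4_al.Len
section
/-! Padded lengths and the passage from a design to model planes. -/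

namespace Pool.Agent.Work.MP_0909b4_al

lemma exists_unif {J : Type} {s : Set J} (hs : s.Finite) {P : J → ℤ → Prop}
    (mono : ∀ i C C', C ≤ C' → P i C → P i C') (h : ∀ i ∈ s, ∃ C, P i C) :
    ∃ C, 0 ≤ C ∧ ∀ i ∈ s, P i C := by
  induction s, hs using Set.Finite.induction_on with
  | empty => exact ⟨0, le_rfl, by simp⟩
  | insert _ _ ih =>
    obtain ⟨C, c0, hC⟩ := ih fun i hi => h i (Set.mem_insert_of_mem _ hi)
    obtain ⟨C', hC'⟩ := h _ (Set.mem_insert _ _)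
    refine ⟨max C C', le_max_of_le_left c0, fun i hi => ?_⟩
    rcases hi with rfl | hi
    · exact mono _ _ _ (le_max_right _ _) hC'
    · exact mono _ _ _ (le_max_left _ _) (hC i hi)

lemma exists_unif' {J : Type} [Finite J] {P : J → ℤ → Prop}
    (mono : ∀ i C C', C ≤ C' → P i C → P i C') (h : ∀ i, ∃ C, P i C) : ∃ C, 0 ≤ C ∧ ∀ i, P i C := by
  obtain ⟨C, a, b⟩ := exists_unif Set.finite_univ mono fun i _ => h i
  exact ⟨C, a, fun i => b i trivial⟩

lemma exists_nrm_bound (R : Finset Z2) : ∃ K, 0 ≤ K ∧ ∀ s ∈ R, nrm s ≤ K :=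
  exists_unif R.finite_toSet (P := fun s K => nrm s ≤ K) (fun _ _ _ a b => b.trans a)
    fun _ _ => ⟨_, le_rfl⟩

lemma lin_bound (φ : Z2 →+ ℚ) : ∃ κ : ℤ, 0 ≤ κ ∧ ∀ v, |φ v| ≤ κ * nrm v := by
  refine ⟨⌈|φ (1, 0)| + |φ (0, 1)|⌉, Int.ceil_nonneg (by positivity), fun v => ?_⟩
  have := Int.le_ceil (|φ (1, 0)| + |φ (0, 1)|)
  rw [lin_eq]
  refine (abs_add_le _ _).trans ?_
  rw [abs_mul, abs_mul]
  simp only [nrm]; push_cast
  linarith only [this, abs_nonneg (v.1 : ℚ), abs_nonneg (v.2 : ℚ), abs_nonneg (φ (1, 0)),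
    abs_nonneg (φ (0, 1)), mul_nonneg_of_nonpos_of_nonpos (Mathlib.Tactic.Linarith.sub_nonpos_of_le this) (Mathlib.Tactic.Linarith.sub_nonpos_of_le (abs_nonneg ↑v.1)), mul_nonneg_of_nonpos_of_nonpos (Mathlib.Tactic.Linarith.sub_nonpos_of_le this) (Mathlib.Tactic.Linarith.sub_nonpos_of_le (abs_nonneg ↑v.2)), mul_nonneg_of_nonpos_of_nonpos (Mathlib.Tactic.Linarith.sub_nonpos_of_le (abs_nonneg ↑v.1)) (Mathlib.Tactic.Linarith.sub_nonpos_of_le (abs_nonneg (φ ((0 : ℤ), (1 : ℤ))))), mul_nonneg_of_nonpos_of_nonpos (Mathlib.Tactic.Linarith.sub_nonpos_of_le (abs_nonneg ↑v.2)) (Mathlib.Tactic.Linarith.sub_nonpos_of_le (abs_nonneg (φ ((1 : ℤ), (0 : ℤ)))))]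

lemma nat_ray {R : Finset Z2} (F : FanH R) {r : Z2} (hr : r ∈ R) (m : ℕ) :
    nat R ((m : ℤ) • r) = m + 1 ∧ ∀ a ∈ R, a ≠ r → cf R a ((m : ℤ) • r) = 0 := by
  obtain ⟨s, h | h⟩ := ray_rep F (bef := fun _ _ => True) (fun _ _ _ => Or.inl trivial) hr m
  · refine ⟨by simpa using h.nat_eq F, fun a ha hne => ?_⟩
    rw [h.cf_eq F ha, if_neg hne]; simp
  · refine ⟨by simpa using h.nat_eq F, fun a ha hne => ?_⟩
    rw [h.cf_eq F ha, if_neg hne]; simp

theorem mk_len {R : Finset Z2} (F : FanH R) {J : Type} {s : Set J} (hs : s.Finite)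
    (Sp : J → Z2 → Prop) (φ : J → Z2 →+ ℚ) (y : J → Z2) (hm : ∀ i v, Sp i v → i ∈ s)
    (hd : ∀ i j v, Sp i v → Sp j v → i = j) (hr : ∀ i ∈ s, SecRec R (Sp i))
    (hy : ∀ i ∈ s, y i ∈ R ∧ φ i (y i) = 1)
    (hn : ∀ i ∈ s, ∃ C : ℤ, ∀ v, Sp i v → ∃ m : ℕ, nrm (v - (m : ℤ) • y i) ≤ C) :
    ∃ (len : Z2 → ℤ) (C : ℤ), (∀ i v, Sp i v → len v = ⌊φ i v⌋ + C) ∧
      (∀ v, nat R v ≤ len v ∧ len v ≤ nat R v + 2 * C) ∧
      ∀ (p : ℕ) a b d, Sector R a b → Par a b d →
        EP fun m n => len ((m : ℤ) • a + (n : ℤ) • b + d) = m + n + 1 + p := by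
  classical
  obtain ⟨K, K0, hK⟩ := exists_nrm_bound R
  obtain ⟨C, C0, hC⟩ := exists_unif hs (P := fun i C => ∀ v, Sp i v → |⌊φ i v⌋ - nat R v| ≤ C)
    (fun _ _ _ a b v q => (b v q).trans a) (by
      intro i hi
      obtain ⟨C, hC⟩ := hn i hi
      obtain ⟨κ, κ0, hκ⟩ := lin_bound (φ i)
      refine ⟨κ * C + 2 + R.card * (K * C + 1), fun v q => ?_⟩
      obtain ⟨m, h1⟩ := hC v q
      have h2 := nat_lip K0 hK v ((m : ℤ) • y i)
      rw [(nat_ray F (hy i hi).1 m).1] at h2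
      have h3 := hκ (v - (m : ℤ) • y i)
      rw [map_sub, lin_smul, (hy i hi).2, mul_one] at h3
      have h4 : ((κ * nrm (v - (m : ℤ) • y i) : ℤ) : ℚ) ≤ (κ * C : ℤ) := by
        exact_mod_cast mul_le_mul_of_nonneg_left h1 κ0
      have h5 : (R.card : ℤ) * (K * nrm (v - (m : ℤ) • y i) + 1) ≤ R.card * (K * C + 1) := by gcongr
      push_cast at h4
      rw [abs_le] at h2 h3 ⊢
      have a1 : (m : ℤ) - κ * C ≤ ⌊φ i v⌋ := Int.le_floor.2 (by push_cast at *; linarith only [h4, h3])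
      have a2 : ⌊φ i v⌋ ≤ m + κ * C := by
        exact_mod_cast (show (⌊φ i v⌋ : ℚ) ≤ m + κ * C by
          have := Int.floor_le (φ i v); push_cast at *; linarith)
      constructor <;> linarith only [h2, h5, a1, a2])
  have e1 : ∀ i v, Sp i v → (if h : ∃ i, Sp i v then ⌊φ h.choose v⌋ + C else nat R v) =
      ⌊φ i v⌋ + C := by
    intro i v q
    have h : ∃ i, Sp i v := ⟨i, q⟩
    rw [dif_pos h, hd _ _ v h.choose_spec q]
  refine ⟨fun v => if h : ∃ i, Sp i v then ⌊φ h.choose v⌋ + C else nat R v, C, e1, fun v => ?_,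
    fun p a b d hab hpar => ?_⟩
  · by_cases h : ∃ i, Sp i v
    · obtain ⟨i, q⟩ := h
      have := hC i (hm i v q) v q
      simp only [e1 i v q]
      rw [abs_le] at this; omega
    · simp only [dif_neg h]; omega
  have rep : ∀ m n : ℕ, Rep R (fun _ _ => True) ((m : ℤ) • a + (n : ℤ) • b + d) a b m n d :=
    fun m n => ⟨hab, trivial, rfl, hpar⟩
  have key : ∀ i ∈ s, EP fun m n => Sp i ((m : ℤ) • a + (n : ℤ) • b + d) ∧
      ⌊φ i ((m : ℤ) • a + (n : ℤ) • b + d)⌋ + C = m + n + 1 + p := by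
    intro i hi
    by_cases c : y i = a ∨ y i = b
    · refine (hr i hi a b d hab).and ?_
      have d0 : (det a b : ℚ) ≠ 0 := by exact_mod_cast hab.2.2.1
      let ca : Z2 →+ ℚ := (-(det a b : ℚ)⁻¹) • dl b
      let cb : Z2 →+ ℚ := (det a b : ℚ)⁻¹ • dl a
      have ea : ∀ v, ca v = co a b v := fun v => by
        simp only [ca, AddMonoidHom.smul_apply, dl_apply, smul_eq_mul, co]
        rw [det_swap v b]; push_cast; field_simp
      have eb : ∀ v, cb v = co b a v := fun v => by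
        simp only [cb, AddMonoidHom.smul_apply, dl_apply, smul_eq_mul, co]
        rw [det_swap v a, det_swap b a]; push_cast; field_simp
      have ql := (((QL.lin (φ i)).floor.add ((QL.lin ca).floor.smul (-1))).add
        ((QL.lin cb).floor.smul (-1))).add (QL.const (C - 1 - p))
      have z : (φ i + (-1 : ℚ) • ca + (-1 : ℚ) • cb + 0) a * (φ i + (-1 : ℚ) • ca + (-1 : ℚ) • cb + 0) b
          = 0 := by
        have db : (det b a : ℚ) ≠ 0 := by exact_mod_cast hab.symm.2.2.1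
        simp only [AddMonoidHom.add_apply, AddMonoidHom.smul_apply, ea, eb, co, det_self,
          AddMonoidHom.zero_apply, smul_eq_mul, div_self d0, div_self db]
        have := (hy i hi).2
        rcases c with c | c <;> rw [c] at this <;> simp [this]
      refine ((ql.ep_ge d z.ge).and ((ql.smul (-1)).ep_ge (a := a) (b := b) d (by
        simp only [AddMonoidHom.smul_apply, smul_eq_mul] at z ⊢; linarith))).congr fun m n => ?_
      have f1 : ⌊ca ((m : ℤ) • a + (n : ℤ) • b + d)⌋ = m := by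
        rw [ea, co_add _ _ _ _ _ hab.2.2.1, Int.floor_add_intCast, hpar.1, zero_add]
      have f2 : ⌊cb ((m : ℤ) • a + (n : ℤ) • b + d)⌋ = n := by
        rw [eb, add_comm (_ • a), co_add _ _ _ _ _ hab.symm.2.2.1, Int.floor_add_intCast, hpar.2,
          zero_add]
      rw [f1, f2]
      generalize ⌊φ i ((m : ℤ) • a + (n : ℤ) • b + d)⌋ = z
      constructor
      · rintro ⟨q1, q2⟩
        exact_mod_cast (show (z : ℚ) + C = m + n + 1 + p by push_cast at *; linarith only [q1, q2])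
      · intro q
        have : (z : ℚ) + C = m + n + 1 + p := by exact_mod_cast q
        push_cast; constructor <;> linarith only [this]
    · push Not at c
      obtain ⟨C', hC'⟩ := hn i hi
      refine EP.bdd (K * C' + 1).toNat fun m n q => ?_
      obtain ⟨m', h1⟩ := hC' _ q.1
      have h2 := cf_lip K0 hK a ((m : ℤ) • a + (n : ℤ) • b + d) ((m' : ℤ) • y i)
      have h3 := cf_lip K0 hK b ((m : ℤ) • a + (n : ℤ) • b + d) ((m' : ℤ) • y i)
      rw [(nat_ray F (hy i hi).1 m').2 a hab.1 c.1.symm, (rep m n).cf_eq F hab.1, if_pos rfl] at h2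
      rw [(nat_ray F (hy i hi).1 m').2 b hab.2.1 c.2.symm, (rep m n).cf_eq F hab.2.1,
        if_neg hab.ne.symm, if_pos rfl] at h3
      have := mul_le_mul_of_nonneg_left h1 K0
      rw [abs_le] at h2 h3
      omega
  refine ((EP.ex hs key).or ((EP.all hs fun i hi => (hr i hi a b d hab).not).and
    (EP.const (p = 0)))).congr fun m n => ?_
  by_cases h : ∃ i, Sp i ((m : ℤ) • a + (n : ℤ) • b + d)
  · obtain ⟨i, q⟩ := h
    simp only [e1 i _ q]
    constructor
    · rintro (⟨j, -, q1, q2⟩ | ⟨q1, -⟩)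
      · rwa [hd _ _ _ q q1]
      · exact absurd q (q1 i (hm i _ q))
    · exact fun r => Or.inl ⟨i, hm i _ q, q, r⟩
  · simp only [dif_neg h, (rep m n).nat_eq F]
    constructor
    · rintro (⟨j, -, q1, -⟩ | ⟨-, q2⟩)
      · exact absurd ⟨j, q1⟩ h
      · omega
    · exact fun r => Or.inr ⟨fun i _ q => h ⟨i, q⟩, by omega⟩

lemma np_rec {R : Finset Z2} {X Y : Z2 →+ ℚ} {Q : Br} (he : Q.em ≤ Q.ep) (c M : ℤ)
    (tX : Tame R X) (tY : Tame R Y) (t1 : Tame R (Q.sp • Y - X)) (t2 : Tame R (Q.sm • Y - X)) :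
    SecRec R (fun v => 0 ≤ c + M * ⌊(Q.f ⌊Y v⌋ - Q.c) / M⌋ - ⌊X v⌋) ∧
      SecRec R (fun v => c + M * ⌊(Q.f ⌊Y v⌋ - Q.c) / M⌋ - ⌊X v⌋ ≤ 0) := by
  have ql : ∀ s e : ℚ, M ≠ 0 → QL (fun v => ((c + M * ⌊s * (⌊Y v⌋ - e) / M⌋ - ⌊X v⌋ : ℤ) : ℚ))
      (s • Y - X) := fun s e h =>
    (((QL.const c).add ((((QL.lin Y).floor.add (QL.const (-e))).smul (s / M)).floor.smul M)).add
      ((QL.lin X).floor.smul (-1))).congr (fun v => by
        push_cast; rw [show s / M * (⌊Y v⌋ + -e) = s * (⌊Y v⌋ - e) / M by ring]; ring)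
      fun v => by
        have : (M : ℚ) ≠ 0 := by exact_mod_cast h
        simp; field_simp; ring
  have t0 : Tame R ((0 : ℚ) • Y - X) := by simpa using tX.smul (-1)
  by_cases hM : M = 0
  · have q := (QL.const c).add ((QL.lin X).floor.smul (-1))
    have t : Tame R (0 + (-1 : ℚ) • X) := by simpa using t0
    refine ⟨(q.ge t).congr fun v => ?_, (q.le t).congr fun v => ?_⟩
    · rw [hM]; norm_cast; omega
    · rw [hM]; norm_cast; omega
  have u : SecRec R fun v => Q.ep ≤ ⌊Y v⌋ :=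
    (((QL.lin Y).floor.add (QL.const (-Q.ep))).ge (by simpa using tY)).congr fun v => by simp
  have d : SecRec R fun v => ⌊Y v⌋ ≤ Q.em :=
    (((QL.lin Y).floor.add (QL.const (-Q.em))).le (by simpa using tY)).congr fun v => by simp
  have key : ∀ T : ℤ → Prop, (∀ s e : ℚ, Tame R (s • Y - X) →
      SecRec R fun v => T (c + M * ⌊s * (⌊Y v⌋ - e) / M⌋ - ⌊X v⌋)) →
      SecRec R fun v => T (c + M * ⌊(Q.f ⌊Y v⌋ - Q.c) / M⌋ - ⌊X v⌋) := by
    intro T h
    refine ((u.and (h _ Q.ep t1)).or ((d.and (h _ Q.em t2)).or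
      ((u.not.and d.not).and (h 0 0 t0)))).congr fun v => ?_
    by_cases c1 : Q.ep ≤ ⌊Y v⌋
    · rw [Q.f_up c1 he, add_sub_cancel_left]
      by_cases c2 : ⌊Y v⌋ ≤ Q.em
      · rw [show (⌊Y v⌋ : ℚ) - Q.ep = 0 by linarith, show (⌊Y v⌋ : ℚ) - Q.em = 0 by linarith]
        simp [c1, c2]
      · simp [c1, c2]
    · by_cases c2 : ⌊Y v⌋ ≤ Q.em
      · rw [Q.f_dn c2 he, add_sub_cancel_left]; simp [c1, c2]
      · rw [Q.f_mid (not_le.1 c2).le (not_le.1 c1).le]; simp [c1, c2]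
  exact ⟨key (fun z => 0 ≤ z) fun s e t => ((ql s e hM).ge t).congr fun v => by norm_cast,
    key (fun z => z ≤ 0) fun s e t => ((ql s e hM).le t).congr fun v => by norm_cast⟩

lemma np_approx (Q : Br) (c : ℤ) {M : ℤ} (hM : 0 < M) : ∃ B : ℤ, ∀ x y : ℚ,
    |((c + M * ⌊(Q.f ⌊y⌋ - Q.c) / M⌋ - ⌊x⌋ : ℤ) : ℚ) - (Q.sp * max y 0 + Q.sm * min y 0 - x)| ≤ B := by
  refine ⟨⌈|(c : ℚ)| + M + 1 + |Q.sp| * (|Q.ep| + 1) + |Q.sm| * (|Q.em| + 1)⌉, fun x y =>
    le_trans ?_ (Int.le_ceil _)⟩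
  have a := rnd_le hM (Q.f ⌊y⌋ - Q.c)
  have b := lt_rnd hM (Q.f ⌊y⌋ - Q.c)
  have x1 := Int.floor_le x
  have x2 := Int.lt_floor_add_one x
  have y1 := Int.floor_le y
  have y2 := Int.lt_floor_add_one y
  have k : ∀ e : ℚ, |(⌊y⌋ - e) - y| ≤ |e| + 1 := fun e => by
    rw [abs_le]; constructor <;> linarith only [y2, y1, le_abs_self e, neg_abs_le e]
  have u : |Q.sp * max (⌊y⌋ - Q.ep) 0 - Q.sp * max y 0| ≤ |Q.sp| * (|Q.ep| + 1) := by
    rw [← mul_sub, abs_mul]
    exact mul_le_mul_of_nonneg_left ((abs_max_sub_max_le_abs _ _ _).trans (k _)) (abs_nonneg _)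
  have d : |Q.sm * min (⌊y⌋ - Q.em) 0 - Q.sm * min y 0| ≤ |Q.sm| * (|Q.em| + 1) := by
    rw [← mul_sub, abs_mul]
    refine mul_le_mul_of_nonneg_left (le_trans ?_ (k _)) (abs_nonneg _)
    simpa using abs_min_sub_min_le_max (⌊y⌋ - Q.em) 0 y 0
  simp only [Br.f] at a b
  have m0 : (0 : ℚ) < M := by exact_mod_cast hM
  rw [abs_le] at u d ⊢
  simp only [Br.f]
  push_cast at *
  constructor <;> linarith only [x1, u, d, b, x2, m0, a, le_abs_self (c : ℚ), neg_abs_le (c : ℚ)]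

lemma d5 {D α b x y : ℚ} (hD : 0 < D) (hb : 0 < b) (h : 0 < HH D α b x y (-1)) :
    0 < HH D α b x y 1 := by
  simp only [HH, one_mul, neg_mul, sub_neg_eq_add] at *
  by_contra c
  push Not at c
  have p := mul_pos hb hD
  have i1 := abs_nonneg (α - x * b)
  have i2 := abs_nonneg (α + x * b)
  have k : (α * x + b * D) * |α + x * b| ≤ (α * x - b * D) * |α - x * b| := by linarith only [h, i1, c, i2, mul_nonneg_of_nonpos_of_nonpos (le_of_lt (Mathlib.Tactic.Linarith.sub_neg_of_lt h)) (Mathlib.Tactic.Linarith.sub_nonpos_of_le i1), mul_nonneg_of_nonpos_of_nonpos (Mathlib.Tactic.Linarith.sub_nonpos_of_le c) (Mathlib.Tactic.Linarith.sub_nonpos_of_le i2)]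
  have n1 : 0 < x ^ 2 + D := by positivity
  have n2 : 0 < α ^ 2 + b ^ 2 * D := by positivity
  rcases abs_cases (α - x * b) with ⟨e1, s1⟩ | ⟨e1, s1⟩ <;>
    rcases abs_cases (α + x * b) with ⟨e2, s2⟩ | ⟨e2, s2⟩ <;> rw [e1, e2] at k
  · have : α * b * (x ^ 2 + D) ≤ 0 := by linarith
    have a0 : α = 0 := by
      refine le_antisymm (not_lt.1 fun q => ?_) (by linarith)
      linarith [mul_pos (mul_pos q hb) n1]
    have : x * b = 0 := by linarith only [i2, e2, a0, i1, e1]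
    have x0 : x = 0 := (mul_eq_zero.1 this).resolve_right hb.ne'
    rw [a0, x0] at h; simp at h; linarith
  · have : 0 ≤ x * (α ^ 2 + b ^ 2 * D) := by linarith
    have : x < 0 := by by_contra q; linarith only [i1, e1, s2, q, hb, mul_nonneg (not_lt.1 q) hb.le]
    linarith only [k, this, p, i1, e1, s2, mul_nonneg_of_nonpos_of_nonpos (Mathlib.Tactic.Linarith.sub_nonpos_of_le (sq_nonneg α)) (le_of_lt (Mathlib.Tactic.Linarith.sub_neg_of_lt this)), mul_nonneg_of_nonpos_of_nonpos (le_of_lt (Mathlib.Tactic.Linarith.sub_neg_of_lt p)) (Mathlib.Tactic.Linarith.sub_nonpos_of_le i1), Mathlib.Tactic.Linarith.mul_zero_eq (Mathlib.Tactic.Linarith.sub_neg_of_lt p) (sub_eq_zero_of_eq e1), mul_pos_of_neg_of_neg (Mathlib.Tactic.Linarith.sub_neg_of_lt p) (Mathlib.Tactic.Linarith.sub_neg_of_lt s2)]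
  · have : x * (α ^ 2 + b ^ 2 * D) ≤ 0 := by linarith
    have : 0 < x := by by_contra q; linarith only [i2, s1, e2, q, hb, mul_nonneg (neg_nonneg.2 (not_lt.1 q)) hb.le]
    linarith only [k, this, p, i2, s1, e2, mul_nonneg_of_nonpos_of_nonpos (Mathlib.Tactic.Linarith.sub_nonpos_of_le (sq_nonneg α)) (le_of_lt (Mathlib.Tactic.Linarith.sub_neg_of_lt this)), mul_nonneg_of_nonpos_of_nonpos (le_of_lt (Mathlib.Tactic.Linarith.sub_neg_of_lt p)) (Mathlib.Tactic.Linarith.sub_nonpos_of_le i2), mul_pos_of_neg_of_neg (Mathlib.Tactic.Linarith.sub_neg_of_lt p) (Mathlib.Tactic.Linarith.sub_neg_of_lt s1), Mathlib.Tactic.Linarith.mul_zero_eq (Mathlib.Tactic.Linarith.sub_neg_of_lt p) (sub_eq_zero_of_eq e2)]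
  · have : 0 ≤ α * b * (x ^ 2 + D) := by linarith only [k]
    have : α < 0 := by linarith
    linarith only [k, this, hb, n1, mul_pos (mul_pos (neg_pos.2 this) hb) n1]

lemma half_of {S D α b α' b' x y : ℚ} {Q P : Br} {ap am j : ℤ} (hS : 0 ≤ S) (hD : 0 < D)
    (hb : 0 < b) (h1 : α' * (α ^ 2 + b ^ 2 * D) = α) (h2 : b' * (α ^ 2 + b ^ 2 * D) = b)
    (q1 : Q.sp = α - x * b) (q2 : Q.sm = α + x * b) (q3 : Q.ep = 2 * S * ap + S)
    (q4 : Q.em = 2 * S * am - S) (p1 : P.c = 2 * S * j) (p2 : P.sp = α' + y * b')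
    (p3 : P.sm = α' - y * b') (n1 : α - x * b ≠ 0) (n2 : α + x * b ≠ 0) (l : am ≤ ap)
    (u : (j + 1 ≤ ap ∧ 0 < HH D α b x y 1) ∨ (ap + 1 ≤ j ∧ HH D α b x y 1 < 0))
    (d : (j + 1 ≤ am ∧ 0 < HH D α b x y (-1)) ∨ (am + 1 ≤ j ∧ HH D α b x y (-1) < 0)) :
    Half S Q P := by
  have N : 0 < α ^ 2 + b ^ 2 * D := by positivity
  have mono : ∀ a b : ℤ, a ≤ b → (2 * S * a : ℚ) ≤ 2 * S * b := fun a b h => by
    have : (a : ℚ) ≤ b := by exact_mod_cast h
    linarith only [hS, this, mul_nonneg_of_nonpos_of_nonpos (Mathlib.Tactic.Linarith.sub_nonpos_of_le hS) (Mathlib.Tactic.Linarith.sub_nonpos_of_le this)]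
  have lt1 : ∀ z w : ℚ, (1 - z) * (α ^ 2 + b ^ 2 * D) = b * w → (0 < w → z < 1) ∧ (w < 0 → 1 < z) :=
    fun z w e => ⟨fun q => by by_contra c; linarith only [e, hb, q, N, c, mul_pos hb q, mul_nonneg_of_nonpos_of_nonpos (le_of_lt (Mathlib.Tactic.Linarith.sub_neg_of_lt N)) (Mathlib.Tactic.Linarith.sub_nonpos_of_le (le_of_not_gt c))],
      fun q => by by_contra c; linarith only [e, hb, q, N, c, mul_pos hb (neg_pos.2 q), mul_nonneg_of_nonpos_of_nonpos (le_of_lt (Mathlib.Tactic.Linarith.sub_neg_of_lt N)) (Mathlib.Tactic.Linarith.sub_nonpos_of_le (le_of_not_gt c))]⟩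
  have a1 : 0 < α - x * b → (1 - Q.sp * P.sp) * (α ^ 2 + b ^ 2 * D) = b * HH D α b x y 1 := by
    intro q
    rw [q1, p2, HH, one_mul, one_mul, abs_of_pos q]
    linear_combination (-(α - x * b)) * h1 - (α - x * b) * y * h2
  have a2 : α - x * b < 0 → (1 - Q.sp * P.sm) * (α ^ 2 + b ^ 2 * D) = b * HH D α b x y 1 := by
    intro q
    rw [q1, p3, HH, one_mul, one_mul, abs_of_neg q]
    linear_combination (-(α - x * b)) * h1 + (α - x * b) * y * h2
  have a3 : α + x * b < 0 → (1 - Q.sm * P.sp) * (α ^ 2 + b ^ 2 * D) = b * -HH D α b x y (-1) := by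
    intro q
    rw [q2, p2, HH, show α - -1 * x * b = α + x * b by ring, abs_of_neg q]
    linear_combination (-(α + x * b)) * h1 - (α + x * b) * y * h2
  have a4 : 0 < α + x * b → (1 - Q.sm * P.sm) * (α ^ 2 + b ^ 2 * D) = b * -HH D α b x y (-1) := by
    intro q
    rw [q2, p3, HH, show α - -1 * x * b = α + x * b by ring, abs_of_pos q]
    linear_combination (-(α + x * b)) * h1 + (α + x * b) * y * h2
  rw [← q1] at n1 a1 a2
  rw [← q2] at n2 a3 a4
  refine ⟨n1, n2, by have := mono _ _ l; linarith, ?_, ?_⟩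
  · rcases u with ⟨u1, u2⟩ | ⟨u1, u2⟩
    · have := mono _ _ u1
      push_cast at this
      exact Or.inr ⟨by linarith only [q3, p1, this], fun q => (lt1 _ _ (a1 q)).1 u2, fun q => (lt1 _ _ (a2 q)).1 u2⟩
    · have := mono _ _ u1
      push_cast at this
      refine Or.inl ⟨by linarith only [q3, p1, this], ?_⟩
      rcases lt_or_gt_of_ne n1 with q | q
      · exact Or.inr ⟨q, (lt1 _ _ (a2 q)).2 u2⟩
      · exact Or.inl ⟨q, (lt1 _ _ (a1 q)).2 u2⟩
  · rcases d with ⟨u1, u2⟩ | ⟨u1, u2⟩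
    · have := mono _ _ u1
      push_cast at this
      refine Or.inl ⟨by linarith, ?_⟩
      rcases lt_or_gt_of_ne n2 with q | q
      · exact Or.inl ⟨q, (lt1 _ _ (a3 q)).2 (by linarith)⟩
      · exact Or.inr ⟨q, (lt1 _ _ (a4 q)).2 (by linarith)⟩
    · have := mono _ _ u1
      push_cast at this
      exact Or.inr ⟨by linarith, fun q => (lt1 _ _ (a3 q)).1 (by linarith),
        fun q => (lt1 _ _ (a4 q)).1 (by linarith)⟩

lemma HH_neg (D α b x y ε : ℚ) : HH D α b (-x) (-y) (-ε) = -HH D α b x y ε := by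
  simp only [HH]; rw [show α - -ε * -x * b = α - ε * x * b by ring]; ring

lemma Lab.neg {L : ℤ} {D α b ε : ℚ} {t M M' : ℤ → ℚ} {c c' : ℤ}
    (h : Lab L D α b t M M' (-c) (-ε) c') :
    Lab L D α b (fun c => -t (-c)) (fun c => M (-c)) (fun c => M' (-c)) c ε (-c') := by
  obtain ⟨h1, h2, h3⟩ := h
  refine ⟨by omega, fun k k1 k2 k3 => ?_, ?_⟩
  · have := h2 (-k) (by omega) (by omega) (by omega)
    have e := HH_neg D α b (t (-c)) (t (-k)) (-ε)
    rw [neg_neg] at e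
    simp only [e]
    exact ⟨fun q => neg_pos.2 (this.2 (by omega)), fun q => neg_neg_of_pos (this.1 (by omega))⟩
  · simpa using h3

lemma Lab.le {L : ℤ} {D α b : ℚ} (hD : 0 < D) (hb : 0 < b) {t M M' : ℤ → ℚ} {c ap am : ℤ}
    (h : Lab L D α b t M M' c 1 ap) (h' : Lab L D α b t M M' c (-1) am) : am ≤ ap := by
  by_contra q
  have := h.1
  have := h'.1
  have a := (h.2.1 (ap + 1) (by omega) (by omega) (by omega)).2 (by omega)
  have b := (h'.2.1 (ap + 1) (by omega) (by omega) (by omega)).1 (by omega)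
  linarith [d5 hD hb b]

lemma Lab.side {L : ℤ} {D α b ε : ℚ} {t M M' : ℤ → ℚ} {c a j p : ℤ}
    (h : Lab L D α b t M M' c ε a) (hc : Kc L p c) (hj : Kc L (1 - p) j) :
    (j + 1 ≤ a ∧ 0 < HH D α b (t c) (t j) ε) ∨ (a + 1 ≤ j ∧ HH D α b (t c) (t j) ε < 0) := by
  have := h.1
  unfold Kc at hc hj
  have k := h.2.1 j hj.1 hj.2.1 (by omega)
  rcases lt_trichotomy j a with q | q | q
  · exact Or.inl ⟨q, k.1 q⟩
  · omega
  · exact Or.inr ⟨q, k.2 q⟩

theorem nph_of {L p S Mx : ℤ} {D α b α' b' : ℚ} {t : ℤ → ℚ} {M M' ap am bp bm : ℤ → ℤ}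
    {Q P : ℤ → Br} {Φ Ξ : ℤ → ℤ → ℤ} (hD : 0 < D) (hb : 0 < b) (hb' : 0 < b')
    (h1 : α' * (α ^ 2 + b ^ 2 * D) = α) (h2 : b' * (α ^ 2 + b ^ 2 * D) = b)
    (h1' : α * (α' ^ 2 + b' ^ 2 * D) = α') (h2' : b * (α' ^ 2 + b' ^ 2 * D) = b')
    (tm : ∀ c c', -L ≤ c → c < c' → c' ≤ L → t c < t c')
    (la : ∀ c, -L ≤ c → c ≤ L → α - t c * b ≠ 0 ∧ α + t c * b ≠ 0 ∧
      Lab L D α b t (fun c => M c) (fun c => M' c) c 1 (ap c) ∧
      Lab L D α b t (fun c => M c) (fun c => M' c) c (-1) (am c))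
    (lb : ∀ c, -L ≤ c → c ≤ L → α' - t c * b' ≠ 0 ∧ α' + t c * b' ≠ 0 ∧
      Lab L D α' b' t (fun c => M' c) (fun c => M c) c 1 (bm c) ∧
      Lab L D α' b' t (fun c => M' c) (fun c => M c) c (-1) (bp c))
    (hM : ∀ c, -L ≤ c → c ≤ L → 0 < M c ∧ M c ≤ Mx ∧ 0 < M' c ∧ M' c ≤ Mx) (hS : 2 * Mx < S)
    (hQ : ∀ k, Q k = ⟨-2 * S * k, α - t k * b, α + t k * b, 2 * S * ap k + S, 2 * S * am k - S⟩)
    (hP : ∀ j, P j =
      ⟨2 * S * j, α' + t j * b', α' - t j * b', -2 * S * bp j + S, -2 * S * bm j - S⟩)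
    (hΦ : ∀ k y, Φ k y = -2 * S * k + M k * ⌊((Q k).f y - (Q k).c) / M k⌋)
    (hΞ : ∀ j x, Ξ j x = 2 * S * j + M' j * ⌊((P j).f x - (P j).c) / M' j⌋) :
    NPH L p S Mx Q P ap am M M' Φ Ξ where
  cross k j hk hj := by
    obtain ⟨a1, a2, a3, a4⟩ := la k hk.1 hk.2.1
    obtain ⟨b1, b2, b3, b4⟩ := lb j hj.1 hj.2.1
    have S0 : (0 : ℚ) ≤ S := by
      have := hM k hk.1 hk.2.1
      exact_mod_cast (show 0 ≤ S by omega)
    have hk' : Kc L (1 - (1 - p)) k := by simpa using hk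
    constructor
    · exact half_of S0 hD hb h1 h2 (by rw [hQ]) (by rw [hQ]) (by rw [hQ]) (by rw [hQ]) (by rw [hP])
        (by rw [hP]) (by rw [hP]) a1 a2 (a3.le hD hb a4) (a3.side hk hj) (a4.side hk hj)
    · refine half_of (x := -t j) (y := -t k) (ap := -bp j) (am := -bm j) (j := -k) S0 hD hb' h1' h2'
        (by rw [hP]; ring) (by rw [hP]; ring) (by rw [hP]; push_cast; ring)
        (by rw [hP]; push_cast; ring) (by rw [hQ]; push_cast; ring) (by rw [hQ]; ring)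
        (by rw [hQ]; ring) (by simpa using b2) (by simpa [sub_eq_add_neg] using b1)
        (by have := b3.le hD hb' b4; omega) ?_ ?_
      · have e := HH_neg D α' b' (t j) (t k) (-1)
        rw [neg_neg] at e
        rw [e]
        rcases b4.side hj hk' with q | q
        · exact Or.inr ⟨by omega, by linarith [q.2]⟩
        · exact Or.inl ⟨by omega, by linarith [q.2]⟩
      · rw [HH_neg]
        rcases b3.side hj hk' with q | q
        · exact Or.inr ⟨by omega, by linarith [q.2]⟩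
        · exact Or.inl ⟨by omega, by linarith [q.2]⟩
  lab k hk := by
    obtain ⟨a1, a2, a3, a4⟩ := la k hk.1 hk.2.1
    rw [hQ]
    exact ⟨⟨a3.1.1, a3.1.2.1, a3.1.2.2.trans hk.2.2⟩, ⟨a4.1.1, a4.1.2.1, a4.1.2.2.trans hk.2.2⟩,
      a3.le hD hb a4, a1, a2⟩
  qe k := by rw [hQ]; exact ⟨rfl, rfl, rfl⟩
  pc j := by rw [hP]
  gain k hk := by
    obtain ⟨-, -, a3, a4⟩ := la k hk.1 hk.2.1
    rw [hQ]
    exact ⟨by simpa using a3.2.2, by simpa using a4.2.2⟩
  slope k k' hk hk' hle := by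
    have : t k ≤ t k' := by
      rcases hle.eq_or_lt with rfl | q
      · exact le_rfl
      · exact (tm _ _ hk.1 q hk'.2.1).le
    rw [hQ, hQ]
    constructor <;> simp only <;> linarith only [hb, this, mul_nonneg_of_nonpos_of_nonpos (le_of_lt (Mathlib.Tactic.Linarith.sub_neg_of_lt hb)) (Mathlib.Tactic.Linarith.sub_nonpos_of_le this)]
  hM := hM
  hS := hS
  hΦ := hΦ
  hΞ := hΞ

lemma PH.rev {L p : ℤ} {ρ W : ℚ} {A B : ℤ → ℚ} {M M' : ℤ → ℤ} {Φ Ξ : ℤ → ℤ → ℤ}
    (H : PH L p ρ W A B M M' Φ Ξ)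
    (ob : ∀ j j', Kc L (1 - p) j → Kc L (1 - p) j' → j < j' → B j + 1 ≤ B j') :
    PH L (1 - p) ρ⁻¹ (W / |ρ|) (fun k => B (-k)) (fun k => A (-k)) (fun k => M' (-k))
      (fun k => M (-k)) (fun k => Ξ (-k)) (fun k => Φ (-k)) where
  hρ := inv_ne_zero H.hρ
  gap k j hk hj := by
    obtain ⟨g1, g2⟩ := H.gap (-j) (-k) (by simpa using hj.neg) hk.neg
    have r0 := H.hρ
    have e : B (-k) + ρ⁻¹ * A (-j) = (A (-j) + ρ * B (-k)) / ρ := by field_simp; ring
    rw [e]
    constructor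
    · intro r
      have r := inv_pos.1 r
      rw [abs_of_pos r, ← neg_div]
      exact ⟨fun q => div_le_div_of_nonneg_right ((g1 r).1 (by omega)) r.le,
        fun q => div_le_div_of_nonneg_right ((g1 r).2 (by omega)) r.le⟩
    · intro r
      have r := inv_neg''.1 r
      rw [abs_of_neg r, div_neg, neg_neg, ← neg_div]
      exact ⟨fun q => (div_le_div_right_of_neg r).2 ((g2 r).2 (by omega)),
        fun q => (div_le_div_right_of_neg r).2 ((g2 r).1 (by omega))⟩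
  ord k k' hk hk' hl := ob _ _ hk'.neg hk.neg (by omega)
  hM c c1 c2 := by
    obtain ⟨a1, a2, a3, a4⟩ := H.hM (-c) (by omega) (by omega)
    obtain ⟨b1, b2, b3, b4⟩ := H.hM c c1 c2
    have r0 := abs_pos.2 H.hρ
    have m0 : (0 : ℚ) < M (-c) := by exact_mod_cast a1
    refine ⟨?_, ?_, ?_, ?_⟩
    · have : (0 : ℚ) < M' (-c) := by by_contra q; linarith only [a3, m0, r0, q, mul_nonneg_of_nonpos_of_nonpos (le_of_lt (Mathlib.Tactic.Linarith.sub_neg_of_lt r0)) (Mathlib.Tactic.Linarith.sub_nonpos_of_le (le_of_not_gt q))]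
      exact_mod_cast this
    · rw [abs_inv, le_div_iff₀ r0, add_mul, add_mul, inv_mul_cancel₀ r0.ne', a3]; linarith
    · rw [abs_inv, ← a3]; field_simp
    · rw [neg_neg]
      rw [b4] at a3
      exact_mod_cast b3.symm.trans a3
  hΦ k y := by rw [H.hΞ, div_eq_inv_mul]
  hΞ j x := by rw [H.hΦ, div_inv_eq_mul, mul_comm]

end Pool.Agent.Work.MP_0909b4_al
end

-- merged part: Pool.Agent.Work.MP_0909b4_al.Side
section
/-! One family of threshold functions in a plane, and the padded length of a plane. -/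

namespace Pool.Agent.Work.MP_0909b4_al

variable {V ι : Type} {T : Tub V ι} (E : Des T)

def Des.H (h : HE ι) (c : ℤ) (v : Z2) : ℚ := E.re h v - E.t (T.src h) c * |E.im h v|

lemma Des.H_add (h : HE ι) (c : ℤ) (v : Z2) (n : ℤ) : E.H h c (v + n • T.wv h) = E.H h c v + n := by
  simp only [Des.H, map_add, lin_smul, E.re_self, E.im_self]; ring_nf

lemma Des.H_anti (h : HE ι) {c c' : ℤ} (h1 : -E.L ≤ c) (h2 : c ≤ c') (h3 : c' ≤ E.L) (v : Z2) :
    E.H h c' v ≤ E.H h c v := by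
  rcases h2.eq_or_lt with rfl | q
  · exact le_rfl
  · have := mul_le_mul_of_nonneg_right (E.tmono (T.src h) _ _ h1 q h3).le (abs_nonneg (E.im h v))
    simp only [Des.H]; linarith

lemma Des.recH [Finite ι] (h : HE ι) {c : ℤ} (h1 : -E.L ≤ c) (h2 : c ≤ E.L) (r a : ℚ) :
    SecRec (E.R (T.src h)) fun v => 0 ≤ r * E.H h c v + a := by
  have k : ∀ σ : ℚ, σ = 1 ∨ σ = -1 → SecRec (E.R (T.src h)) fun v =>
      0 ≤ r * (E.re h - (E.t (T.src h) c * σ) • E.im h) v + a := fun σ hσ =>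
    (((QL.lin _).smul r).add (QL.const a)).ge (by simpa using (E.tame_ray h h1 h2 hσ).smul r)
  have i := (QL.lin _).ge (E.tame_im h)
  refine ((i.and (k 1 (Or.inl rfl))).or (i.not.and (k (-1) (Or.inr rfl)))).congr fun v => ?_
  simp only [AddMonoidHom.sub_apply, AddMonoidHom.smul_apply, smul_eq_mul, Des.H]
  by_cases c : 0 ≤ E.im h v
  · simp [c, abs_of_nonneg c]
  · simp [c, abs_of_neg (not_le.1 c)]

lemma Des.recF [Finite ι] (h : HE ι) {c : ℤ} (h1 : -E.L ≤ c) (h2 : c ≤ E.L) (r a : ℚ) :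
    SecRec (E.R (T.src h)) (fun v => 0 ≤ ⌊r * E.H h c v + a⌋) ∧
      SecRec (E.R (T.src h)) fun v => ⌊r * E.H h c v + a⌋ ≤ 0 :=
  ⟨(E.recH h h1 h2 r a).congr fun v => Int.floor_nonneg.symm,
    (E.recH h h1 h2 r (a - 1)).not.congr fun v => by
      rw [not_le, Int.floor_le_iff]; push_cast; constructor <;> intro <;> linarith⟩

lemma kc_finite (L p : ℤ) : {c | Kc L p c}.Finite :=
  (Set.finite_Icc (-L) L).subset fun _ h => ⟨h.1, h.2.1⟩

structure Side [Finite ι] (h : HE ι) (p : ℤ) (F : ℤ → Z2 → ℤ) where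
  s : ℤ → Z2 → Prop
  w : ℤ → Prop → Z2
  σ : Prop → ℚ
  hσ : ∀ q, σ q = 1 ∨ σ q = -1
  a1 : ∃ B : ℤ, ∀ k v, Kc E.L p k → |F k v - E.H h k v| ≤ B ∧ -B ≤ σ (s k v) * E.im h v
  rc : ∀ k, Kc E.L p k → SecRec (E.R (T.src h)) (fun v => 0 ≤ F k v) ∧
    SecRec (E.R (T.src h)) (fun v => F k v ≤ 0) ∧ SecRec (E.R (T.src h)) (s k)
  un : ∀ k k' v, Kc E.L p k → Kc E.L p k' → F k v = 0 → F k' v = 0 → k = k'
  dt : ∀ k q, Kc E.L p k → det (w k q) (E.ry h k (σ q)) ≠ 0

variable {E} [Finite ι]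

def Side.Sp {h : HE ι} {p : ℤ} {F : ℤ → Z2 → ℤ} (S : Side E h p F) (G : ℤ → Z2 → ℤ)
    (i : ℤ × Prop) (v : Z2) : Prop :=
  Kc E.L p i.1 ∧ F i.1 v = 0 ∧ (∀ j, Kc E.L (1 - p) j → G j v ≠ 0) ∧ (S.s i.1 v ↔ i.2)

def Side.Inv {h : HE ι} {p : ℤ} {F : ℤ → Z2 → ℤ} (S : Side E h p F) (G : ℤ → Z2 → ℤ)
    (len : Z2 → ℤ) : Prop :=
  ∀ i v v', S.Sp G i v → S.Sp G i v' → det (S.w i.1 i.2) v = det (S.w i.1 i.2) v' → len v = len v'

lemma Side.sp_rec {h f : HE ι} {p : ℤ} {F G : ℤ → Z2 → ℤ} (S : Side E h p F)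
    (S' : Side E f (1 - p) G) (e : T.src h = T.src f) (i : ℤ × Prop) (hi : Kc E.L p i.1) :
    SecRec (E.R (T.src h)) (S.Sp G i) := by
  obtain ⟨a, b, c⟩ := S.rc i.1 hi
  have g : SecRec (E.R (T.src h)) fun v => ∀ j ∈ {j | Kc E.L (1 - p) j}, ¬ (0 ≤ G j v ∧ G j v ≤ 0) :=
    SecRec.all (kc_finite _ _) fun j hj => e ▸ ((S'.rc j hj).1.and (S'.rc j hj).2.1).not
  refine ((a.and b).and (g.and ((c.imp (SecRec.const i.2)).and
    ((SecRec.const i.2).imp c)))).congr fun v => ?_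
  simp only [Side.Sp, hi, true_and, Set.mem_ofPred_eq, ← le_antisymm_iff, eq_comm (a := (0 : ℤ)),
    iff_def, ne_eq]

lemma Side.sp_near {h : HE ι} {p : ℤ} {F : ℤ → Z2 → ℤ} (S : Side E h p F) (G : ℤ → Z2 → ℤ)
    (i : ℤ × Prop) : ∃ C : ℤ, ∀ v, S.Sp G i v →
      ∃ m : ℕ, nrm (v - (m : ℤ) • E.ry h i.1 (S.σ i.2)) ≤ C := by
  obtain ⟨B, hB⟩ := S.a1
  obtain ⟨C, hC⟩ := E.near_ray (S.hσ i.2) (E.ry_ray h i.1 (S.σ i.2)) B
  refine ⟨C, fun v q => ?_⟩
  obtain ⟨a, b⟩ := hB i.1 v q.1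
  rw [q.2.1, Int.cast_zero, zero_sub, abs_neg] at a
  rw [propext q.2.2.2] at b
  exact hC v a b

theorem mk_len2 {e f : HE ι} (h : T.src e = T.src f) {F G : ℤ → Z2 → ℤ} (S : Side E e 0 F)
    (S' : Side E f 1 G) : ∃ (len : Z2 → ℤ) (B : ℤ), S.Inv G len ∧ S'.Inv F len ∧
      (∀ v, nat (E.R (T.src e)) v ≤ len v ∧ len v ≤ nat (E.R (T.src e)) v + B) ∧
      ∀ (p : ℕ) a b d, Sector (E.R (T.src e)) a b → Par a b d →
        EP fun m n => len ((m : ℤ) • a + (n : ℤ) • b + d) = m + n + 1 + p := by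
  have fin : ∀ p, {i : ℤ × Prop | Kc E.L p i.1}.Finite := fun p =>
    ((kc_finite E.L p).prod Set.finite_univ).subset fun _ q => ⟨q, trivial⟩
  have one : ∀ w y : Z2, det w y ≠ 0 → ((det w y : ℚ)⁻¹ • dl w) y = 1 := fun w y q => by
    have : (det w y : ℚ) ≠ 0 := by exact_mod_cast q
    simp [this]
  obtain ⟨len, C, a1, a2, a3⟩ := mk_len (E.fan (T.src e)) (J := (ℤ × Prop) ⊕ (ℤ × Prop))
    (((fin 0).image Sum.inl).union ((fin 1).image Sum.inr)) (Sum.elim (S.Sp G) (S'.Sp F))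
    (Sum.elim (fun i => (det (S.w i.1 i.2) (E.ry e i.1 (S.σ i.2)) : ℚ)⁻¹ • dl (S.w i.1 i.2))
      fun i => (det (S'.w i.1 i.2) (E.ry f i.1 (S'.σ i.2)) : ℚ)⁻¹ • dl (S'.w i.1 i.2))
    (Sum.elim (fun i => E.ry e i.1 (S.σ i.2)) fun i => E.ry f i.1 (S'.σ i.2))
    (by
      rintro (i | i) v q
      exacts [Or.inl ⟨i, q.1, rfl⟩, Or.inr ⟨i, q.1, rfl⟩])
    (by
      rintro (⟨k, q⟩ | ⟨k, q⟩) (⟨k', q'⟩ | ⟨k', q'⟩) v a b
      · obtain rfl := S.un k k' v a.1 b.1 a.2.1 b.2.1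
        rw [show q = q' from propext (a.2.2.2.symm.trans b.2.2.2)]
      · exact absurd b.2.1 (a.2.2.1 k' b.1)
      · exact absurd b.2.1 (a.2.2.1 k' b.1)
      · obtain rfl := S'.un k k' v a.1 b.1 a.2.1 b.2.1
        rw [show q = q' from propext (a.2.2.2.symm.trans b.2.2.2)])
    (by
      rintro _ (⟨i, hi, rfl⟩ | ⟨i, hi, rfl⟩)
      · exact S.sp_rec S' h i hi
      · exact h ▸ S'.sp_rec S h.symm i hi)
    (by
      rintro _ (⟨i, hi, rfl⟩ | ⟨i, hi, rfl⟩)
      · exact ⟨E.ry_mem e hi.1 hi.2.1 (S.hσ _), one _ _ (S.dt _ _ hi)⟩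
      · exact ⟨h ▸ E.ry_mem f hi.1 hi.2.1 (S'.hσ _), one _ _ (S'.dt _ _ hi)⟩)
    (by
      rintro _ (⟨i, -, rfl⟩ | ⟨i, -, rfl⟩)
      exacts [S.sp_near G i, S'.sp_near F i])
  refine ⟨len, 2 * C, fun i v v' q q' d => ?_, fun i v v' q q' d => ?_, a2, a3⟩
  · rw [a1 (Sum.inl i) v q, a1 (Sum.inl i) v' q']; simp [d]
  · rw [a1 (Sum.inr i) v q, a1 (Sum.inr i) v' q']; simp [d]

variable (E)

/-- the side of a plane whose entry and exit lines are parallel -/
theorem Des.parSide (h : HE ι) (p : ℤ) {η : ℤ} (hη : η = 1 ∨ η = -1) (W : ℚ)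
    (hW : 1 ≤ W) (F : ℤ → Z2 → ℤ) (hF : ∀ k v, F k v = η * ⌊η * E.H h k v + -η * W * k⌋) :
    ∃ S : Side E h p F, (∀ k v, S.s k v = (0 < E.im h v)) ∧ ∀ k q, S.w k q = T.wv h := by
  classical
  obtain rfl : F = fun k v => η * ⌊η * E.H h k v + -η * W * k⌋ := funext₂ hF
  exact
 ⟨{ s := fun _ v => 0 < E.im h v
    w := fun _ _ => T.wv h
    σ := fun q => if q then 1 else -1
    hσ := fun q => by split_ifs <;> simp
    a1 := by
      refine ⟨⌈W * E.L + 1⌉, fun k v hk => ?_⟩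
      have a := Int.le_ceil (W * E.L + 1)
      have k1 : -(E.L : ℚ) ≤ k := by exact_mod_cast hk.1
      have k2 : (k : ℚ) ≤ E.L := by exact_mod_cast hk.2.1
      have k3 : -(W * E.L) ≤ W * k := by linarith only [k1, hW, mul_nonneg_of_nonpos_of_nonpos (Mathlib.Tactic.Linarith.sub_nonpos_of_le hW) (Mathlib.Tactic.Linarith.sub_nonpos_of_le k1)]
      have k4 : W * k ≤ W * E.L := by nlinarith
      have b := Int.floor_le (η * E.H h k v + -η * W * k)
      have c := Int.lt_floor_add_one (η * E.H h k v + -η * W * k)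
      constructor
      · rw [abs_le]
        rcases hη with rfl | rfl <;> push_cast at * <;> constructor <;> linarith only [a, k4, c, k3, b]
      · split_ifs with q <;> linarith only [a, k3, k4, q]
    rc := fun k hk => by
      obtain ⟨a, b⟩ := E.recF h hk.1 hk.2.1 η (-η * W * k)
      refine ⟨?_, ?_, ((QL.lin _).le (E.tame_im h)).not.congr fun v => not_le⟩
      · rcases hη with rfl | rfl
        · exact a.congr fun v => by omega
        · exact b.congr fun v => by omega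
      · rcases hη with rfl | rfl
        · exact b.congr fun v => by omega
        · exact a.congr fun v => by omega
    un := by
      have key : ∀ k k' v, Kc E.L p k → Kc E.L p k' → k < k' →
          η * ⌊η * E.H h k v + -η * W * k⌋ = 0 → η * ⌊η * E.H h k' v + -η * W * k'⌋ = 0 → False := by
        intro k k' v hk hk' hl a b
        have := E.H_anti h hk.1 hl.le hk'.2.1 v
        have k1 : (k : ℚ) + 1 ≤ k' := by exact_mod_cast hl
        have k2 : W * k + 1 ≤ W * k' := by linarith only [hW, k1, mul_nonneg_of_nonpos_of_nonpos (Mathlib.Tactic.Linarith.sub_nonpos_of_le hW) (Mathlib.Tactic.Linarith.sub_nonpos_of_le k1)]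
        rw [mul_eq_zero, or_iff_right (by omega), Int.floor_eq_iff] at a b
        rcases hη with rfl | rfl <;> push_cast at a b <;> linarith only [this, k2, a, b, a.1, a.2, b.1, b.2]
      intro k k' v hk hk' a b
      rcases lt_trichotomy k k' with q | q | q
      exacts [(key k k' v hk hk' q a b).elim, q, (key k' k v hk' hk q b a).elim]
    dt := fun k q hk z => by
      obtain ⟨s, s0, -, b⟩ := E.ry_ray h k (if q then 1 else -1)
      have := E.hdet h (T.wv h) (E.ry h k (if q then 1 else -1))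
      rw [z, b, E.re_self, E.im_self] at this
      have p := mul_pos (E.hq h) s0
      split_ifs at this <;> push_cast at this <;> linarith only [p, this] }, fun _ _ => rfl, fun _ _ => rfl⟩

def Des.Y (e f : HE ι) : Z2 →+ ℚ := (E.im e (T.wv f))⁻¹ • E.im e

omit [Finite ι] in
lemma Des.pair {e f : HE ι} (h : T.src e = T.src f) :
    E.re f (T.wv e) * (E.re e (T.wv f) ^ 2 + |E.im e (T.wv f)| ^ 2 * E.D (T.src e)) =
      E.re e (T.wv f) ∧
    E.im f (T.wv e) * (E.re e (T.wv f) ^ 2 + E.im e (T.wv f) ^ 2 * E.D (T.src e)) =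
      -E.im e (T.wv f) ∧
    |E.im f (T.wv e)| * (E.re e (T.wv f) ^ 2 + |E.im e (T.wv f)| ^ 2 * E.D (T.src e)) =
      |E.im e (T.wv f)| := by
  obtain ⟨a, b⟩ := E.chg e f h (T.wv e)
  rw [E.re_self, E.im_self] at a b
  rw [sq_abs]
  refine ⟨by linarith only [a], by linarith only [b], ?_⟩
  rw [← abs_of_pos (E.N_pos h), ← abs_mul, b]; simp

omit [Finite ι] in
lemma Des.im_ne {e f : HE ι} (h : T.src e = T.src f) (z : E.im e (T.wv f) ≠ 0) :
    E.im f (T.wv e) ≠ 0 := fun q => by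
  have := (E.pair h).2.1
  rw [q, zero_mul] at this
  exact z (by linarith only [this])

omit [Finite ι] in
lemma Des.coord {e f : HE ι} (h : T.src e = T.src f) (z : E.im e (T.wv f) ≠ 0) (v : Z2) :
    E.re e v = E.re e (T.wv f) * E.Y e f v + E.Y f e v ∧ E.im e v = E.im e (T.wv f) * E.Y e f v := by
  have a := (E.pair h).2.1
  have b := (E.chg e f h v).2
  have z' := E.im_ne h z
  have N := (E.N_pos h).ne'
  simp only [Des.Y, AddMonoidHom.smul_apply, smul_eq_mul]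
  generalize E.re e (T.wv f) ^ 2 + E.im e (T.wv f) ^ 2 * E.D (T.src e) = n at *
  refine ⟨?_, by field_simp⟩
  rw [eq_div_of_mul_eq N a, eq_div_of_mul_eq N b]
  field_simp; ring

omit [Finite ι] in
lemma Des.Y_self (e f : HE ι) : E.Y e f (T.wv e) = 0 := by simp [Des.Y, E.im_self]

omit [Finite ι] in
lemma Des.Y_other {e f : HE ι} (z : E.im e (T.wv f) ≠ 0) : E.Y e f (T.wv f) = 1 := by
  simp [Des.Y, z]

omit [Finite ι] in
lemma Des.H_eq {e f : HE ι} (h : T.src e = T.src f) (z : E.im e (T.wv f) ≠ 0) (k : ℤ) (v : Z2) :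
    E.H e k v = E.re e (T.wv f) * E.Y e f v + E.Y f e v -
      E.t (T.src e) k * |E.im e (T.wv f)| * |E.Y e f v| := by
  rw [Des.H, (E.coord h z v).1, (E.coord h z v).2, abs_mul]; ring

lemma mm_eq (a c y : ℚ) : (a - c) * max y 0 + (a + c) * min y 0 = a * y - c * |y| := by
  rcases le_total 0 y with q | q
  · rw [max_eq_left q, min_eq_right q, abs_of_nonneg q]; ring
  · rw [max_eq_right q, min_eq_left q, abs_of_nonpos q]; ring

/-- the side of a plane whose entry and exit lines cross -/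
theorem Des.npSide {e f : HE ι} (h : T.src e = T.src f) (z : E.im e (T.wv f) ≠ 0)
    (p : ℤ) {η : ℤ} (hη : η = 1 ∨ η = -1) (S : ℤ) (hS : 0 ≤ S) (Q : ℤ → Br)
    (c M mp mm a : ℤ → ℤ) (Φ : ℤ → ℤ → ℤ)
    (hΦ : ∀ k y, Φ k y = c k + M k * ⌊((Q k).f y - (Q k).c) / M k⌋)
    (hQ : ∀ k, Kc E.L p k →
      (Q k).sp = E.re e (T.wv f) - η * E.t (T.src e) k * |E.im e (T.wv f)| ∧
      (Q k).sm = E.re e (T.wv f) + η * E.t (T.src e) k * |E.im e (T.wv f)| ∧
      (Q k).em ≤ (Q k).ep ∧ 0 < M k ∧ -E.L ≤ a k ∧ a k ≤ E.L ∧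
      mp k * (Q k).sp ≠ M k ∧ mm k * (Q k).sm ≠ M k)
    (hu : ∀ k k' y, Kc E.L p k → Kc E.L p k' → k < k' → Φ k y ≠ Φ k' y)
    (F : ℤ → Z2 → ℤ) (hF : ∀ k v, F k v = η * (Φ k ⌊η * E.Y e f v⌋ - ⌊-η * E.Y f e v⌋)) :
    ∃ Sd : Side E e p F,
      (∀ k v, Sd.s k v = (2 * S * a k < ⌊η * E.Y e f v⌋)) ∧
      ∀ k, Sd.w k True = (-(η * M k)) • T.wv e + (η * mp k) • T.wv f ∧
        Sd.w k False = (-(η * M k)) • T.wv e + (η * mm k) • T.wv f := by
  classical
  obtain rfl : F = fun k v => η * (Φ k ⌊η * E.Y e f v⌋ - ⌊-η * E.Y f e v⌋) := funext₂ hF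
  have b0 := abs_pos.2 z
  obtain ⟨s, hs⟩ : ∃ s : ℚ, (s = 1 ∨ s = -1) ∧ s * E.im e (T.wv f) = |E.im e (T.wv f)| := by
    rcases lt_or_gt_of_ne z with q | q
    · exact ⟨-1, Or.inr rfl, by rw [abs_of_neg q]; ring⟩
    · exact ⟨1, Or.inl rfl, by rw [abs_of_pos q]; ring⟩
  have hσ : ∀ q : Prop, (if q then η * s else -(η * s)) = 1 ∨ (if q then η * s else -(η * s)) = -1 :=
    fun q => by rcases hη with rfl | rfl <;> rcases hs.1 with rfl | rfl <;> split_ifs <;> simp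
  exact
 ⟨{ s := fun k v => 2 * S * a k < ⌊η * E.Y e f v⌋
    w := fun k q => (-(η * M k)) • T.wv e + (η * if q then mp k else mm k) • T.wv f
    σ := fun q => if q then η * s else -(η * s)
    hσ := hσ
    a1 := by
      obtain ⟨B, B0, hB⟩ := exists_unif (kc_finite E.L p) (P := fun k B => ∀ x y : ℚ,
        |((c k + M k * ⌊((Q k).f ⌊y⌋ - (Q k).c) / M k⌋ - ⌊x⌋ : ℤ) : ℚ) -
          ((Q k).sp * max y 0 + (Q k).sm * min y 0 - x)| ≤ B)
        (fun _ _ _ a b x y => (b x y).trans (by exact_mod_cast a))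
        fun k hk => np_approx (Q k) (c k) (hQ k hk).2.2.2.1
      refine ⟨max B ⌈|E.im e (T.wv f)| * (2 * S * E.L + 1)⌉, fun k v hk => ⟨?_, ?_⟩⟩
      · obtain ⟨q1, q2, -⟩ := hQ k hk
        have := hB k hk (-η * E.Y f e v) (η * E.Y e f v)
        rw [← hΦ, q1, q2, mm_eq] at this
        refine le_trans (le_of_eq ?_) (this.trans (by exact_mod_cast le_max_left _ _))
        rw [E.H_eq h z]
        rcases hη with rfl | rfl
        · congr 1; push_cast; rw [one_mul (E.Y e f v)]; ring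
        · rw [← abs_neg]; congr 1; push_cast
          rw [neg_one_mul (E.Y e f v), abs_neg]; ring
      · obtain ⟨-, -, -, -, q1, q2, -⟩ := hQ k hk
        have m1 : ((⌈|E.im e (T.wv f)| * (2 * S * E.L + 1)⌉ : ℤ) : ℚ) ≤
          (max B ⌈|E.im e (T.wv f)| * (2 * S * E.L + 1)⌉ : ℤ) := by exact_mod_cast le_max_right _ _
        have m2 := Int.le_ceil (|E.im e (T.wv f)| * (2 * S * E.L + 1))
        have e1 : η * s * E.im e v = |E.im e (T.wv f)| * (η * E.Y e f v) := by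
          rw [(E.coord h z v).2, ← hs.2]; ring
        have f1 := Int.floor_le (η * E.Y e f v)
        have f2 := Int.lt_floor_add_one (η * E.Y e f v)
        have g1 : ((-(2 * S * E.L) : ℤ) : ℚ) ≤ (2 * S * a k : ℤ) := by
          exact_mod_cast (show -(2 * S * E.L) ≤ 2 * S * a k by linarith only [hS, q1, mul_nonneg_of_nonpos_of_nonpos (Mathlib.Tactic.Linarith.sub_nonpos_of_le hS) (Mathlib.Tactic.Linarith.sub_nonpos_of_le q1)])
        have g2 : ((2 * S * a k : ℤ) : ℚ) ≤ (2 * S * E.L : ℤ) := by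
          exact_mod_cast (show 2 * S * a k ≤ 2 * S * E.L by linarith only [hS, q2, mul_nonneg_of_nonpos_of_nonpos (Mathlib.Tactic.Linarith.sub_nonpos_of_le hS) (Mathlib.Tactic.Linarith.sub_nonpos_of_le q2)])
        split_ifs with q
        · have : ((2 * S * a k : ℤ) : ℚ) < ⌊η * E.Y e f v⌋ := by exact_mod_cast q
          have := mul_le_mul_of_nonneg_left (show -(2 * S * E.L + 1) ≤ η * E.Y e f v by
            push_cast at *; linarith only [f1, g1, this]) b0.le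
          rw [e1]; linarith only [m1, m2, this]
        · have : (⌊η * E.Y e f v⌋ : ℚ) ≤ (2 * S * a k : ℤ) := by exact_mod_cast not_lt.1 q
          have := mul_le_mul_of_nonneg_left (show η * E.Y e f v ≤ 2 * S * E.L + 1 by
            push_cast at *; linarith only [f2, g2, this]) b0.le
          rw [neg_mul, e1]; linarith only [m1, m2, this]
    rc := fun k hk => by
      obtain ⟨q1, q2, q3, -⟩ := hQ k hk
      have tY : Tame (E.R (T.src e)) ((η : ℚ) • E.Y e f) := ((E.tame_im e).smul _).smul _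
      have tX : Tame (E.R (T.src e)) ((-η : ℚ) • E.Y f e) := h ▸ ((E.tame_im f).smul _).smul _
      have tr : ∀ (x : ℚ) (q : Prop), x = E.re e (T.wv f) - (if q then η * s else -(η * s)) * s *
          E.t (T.src e) k * |E.im e (T.wv f)| →
          Tame (E.R (T.src e)) (x • (η : ℚ) • E.Y e f - (-η : ℚ) • E.Y f e) := by
        intro x q hx
        convert (E.tame_ray e hk.1 hk.2.1 (hσ q)).smul η using 1
        refine AddMonoidHom.ext fun v => ?_
        simp only [AddMonoidHom.sub_apply, AddMonoidHom.smul_apply, smul_eq_mul]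
        rw [(E.coord h z v).1, (E.coord h z v).2, hx, ← hs.2]
        rcases hs.1 with rfl | rfl <;> ring
      obtain ⟨r1, r2⟩ := np_rec q3 (c k) (M k) tX tY
        (tr _ True (by rw [q1]; rcases hs.1 with rfl | rfl <;> simp))
        (tr _ False (by rw [q2]; rcases hs.1 with rfl | rfl <;> simp))
      simp only [AddMonoidHom.smul_apply, smul_eq_mul, ← hΦ] at r1 r2
      refine ⟨?_, ?_, (((QL.lin _).floor.add (QL.const (-(2 * S * a k : ℤ)))).le
        (by simpa using tY)).not.congr fun v => ?_⟩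
      · rcases hη with rfl | rfl
        · exact r1.congr fun v => by omega
        · exact r2.congr fun v => by omega
      · rcases hη with rfl | rfl
        · exact r2.congr fun v => by omega
        · exact r1.congr fun v => by omega
      · simp only [AddMonoidHom.smul_apply, smul_eq_mul]
        norm_cast; omega
    un := by
      intro k k' v hk hk' a b
      rw [mul_eq_zero, or_iff_right (by omega)] at a b
      rcases lt_trichotomy k k' with q | q | q
      exacts [(hu k k' ⌊η * E.Y e f v⌋ hk hk' q (by omega)).elim, q,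
        (hu k' k ⌊η * E.Y e f v⌋ hk' hk q (by omega)).elim]
    dt := fun k q hk d => by
      obtain ⟨q1, q2, -, -, -, -, q3, q4⟩ := hQ k hk
      obtain ⟨r, r0, a, b⟩ := E.ry_ray e k (if q then η * s else -(η * s))
      have := E.hdet e ((-(η * M k)) • T.wv e + (η * if q then mp k else mm k) • T.wv f)
        (E.ry e k (if q then η * s else -(η * s)))
      rw [d, a, b] at this
      simp only [map_add, lin_smul, E.re_self, E.im_self] at this
      have p := (mul_pos (E.hq e) r0).ne'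
      rw [q1, ← hs.2] at q3
      rw [q2, ← hs.2] at q4
      split_ifs at this
      · refine q3 (mul_left_cancel₀ p ?_)
        rcases hη with rfl | rfl <;> rcases hs.1 with rfl | rfl <;> push_cast at * <;> linarith only [this]
      · refine q4 (mul_left_cancel₀ p ?_)
        rcases hη with rfl | rfl <;> rcases hs.1 with rfl | rfl <;> push_cast at * <;> linarith only [this] },
    fun _ _ => rfl, fun k => ⟨by simp only [if_true], by simp only [if_false]⟩⟩

end Pool.Agent.Work.MP_0909b4_al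
end

-- merged part: Pool.Agent.Work.MP_0909b4_al.Ctx
section
/-! The data attached to a plane with given entry and exit lines. -/

namespace Pool.Agent.Work.MP_0909b4_al

variable {V ι : Type} {T : Tub V ι} (E : Des T) [Finite ι]

def pt (u u' g : Z2) (x y : ℤ) : Z2 := g - x • u + y • u'

def pl (F G : ℤ → Z2 → ℤ) (len : Z2 → ℤ) (u u' g : Z2) : Plane :=
  ⟨fun k y => F k (pt u u' g 0 y), fun j x => -G j (pt u u' g x 0), fun x y => len (pt u u' g x y)⟩

structure IsCtx (e f : HE ι) (F G : ℤ → Z2 → ℤ) (len : Z2 → ℤ) (B : ℤ) : Prop where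
  Fu : ∀ k v n, F k (v + n • T.wv e) = F k v + n
  Gu : ∀ k v n, G k (v + n • T.wv f) = G k v + n
  fw : ∀ g, Fw E.L 0 (pl F G len (T.wv e) (T.wv f) g) (E.M e) (E.M f)
  bw : ∀ g, Fw E.L 1 (pl F G len (T.wv e) (T.wv f) g).rev (fun k => E.M f (-k))
    (fun k => E.M e (-k))
  ex : ∀ g, Ex E.L (pl F G len (T.wv e) (T.wv f) g)
  aF : ∀ k v, Kc E.L 0 k → |F k v - E.H e k v| ≤ B
  aG : ∀ k v, Kc E.L 1 k → |G k v - E.H f k v| ≤ B
  x2 : ∀ ε : ℤ, ε = 1 ∨ ε = -1 → ∀ k v, ∀ n : ℕ, Kc E.L 0 k → G (ε * E.L) v = 0 →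
    (0 ≤ F k v → -B ≤ E.H e k (v + (ε * n) • T.wv f)) ∧
    (F k v ≤ 0 → E.H e k (v + (ε * n) • T.wv f) ≤ B)
  rF : ∀ k, Kc E.L 0 k → SecRec (E.R (T.src e)) (fun v => 0 ≤ F k v) ∧
    SecRec (E.R (T.src e)) (fun v => F k v ≤ 0)
  rG : ∀ k, Kc E.L 1 k → SecRec (E.R (T.src e)) (fun v => 0 ≤ G k v) ∧
    SecRec (E.R (T.src e)) (fun v => G k v ≤ 0)
  lenb : ∀ v, nat (E.R (T.src e)) v ≤ len v ∧ len v ≤ nat (E.R (T.src e)) v + B
  rl : ∀ (p : ℕ) a b d, Sector (E.R (T.src e)) a b → Par a b d →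
    EP fun m n => len ((m : ℤ) • a + (n : ℤ) • b + d) = m + n + 1 + p

variable {E}

theorem ctx_of {e f : HE ι} (h : T.src e = T.src f) {F G : ℤ → Z2 → ℤ} (S : Side E e 0 F)
    (S' : Side E f 1 G) (Fu : ∀ k v n, F k (v + n • T.wv e) = F k v + n)
    (Gu : ∀ k v n, G k (v + n • T.wv f) = G k v + n)
    (fw : ∀ len, S.Inv G len → ∀ g, Fw E.L 0 (pl F G len (T.wv e) (T.wv f) g) (E.M e) (E.M f))
    (bw : ∀ len, S'.Inv F len → ∀ g, Fw E.L 1 (pl F G len (T.wv e) (T.wv f) g).rev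
      (fun k => E.M f (-k)) (fun k => E.M e (-k)))
    (ex : ∀ len g, Ex E.L (pl F G len (T.wv e) (T.wv f) g))
    (x2 : ∀ ε : ℤ, ε = 1 ∨ ε = -1 → ∀ k v, ∀ n : ℕ, Kc E.L 0 k → G (ε * E.L) v = 0 →
      (0 ≤ F k v → E.H e k v ≤ E.H e k (v + (ε * n) • T.wv f)) ∧
      (F k v ≤ 0 → E.H e k (v + (ε * n) • T.wv f) ≤ E.H e k v)) : ∃ F G len B, IsCtx E e f F G len B := by
  obtain ⟨len, B, a1, a2, a3, a4⟩ := mk_len2 h S S'
  obtain ⟨B1, h1⟩ := S.a1
  obtain ⟨B2, h2⟩ := S'.a1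
  have m1 : (B1 : ℚ) ≤ (max B (max B1 B2) : ℤ) := by exact_mod_cast le_max_of_le_right (le_max_left _ _)
  have m2 : (B2 : ℚ) ≤ (max B (max B1 B2) : ℤ) := by
    exact_mod_cast le_max_of_le_right (le_max_right _ _)
  refine ⟨F, G, len, max B (max B1 B2), ⟨Fu, Gu, fw len a1, bw len a2, ex len,
    fun k v hk => (h1 k v hk).1.trans m1, fun k v hk => (h2 k v hk).1.trans m2,
    fun ε hε k v n hk z => ?_, fun k hk => ⟨(S.rc k hk).1, (S.rc k hk).2.1⟩,
    fun k hk => h ▸ ⟨(S'.rc k hk).1, (S'.rc k hk).2.1⟩,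
    fun v => ⟨(a3 v).1, (a3 v).2.trans (by have := le_max_left B (max B1 B2); omega)⟩, a4⟩⟩
  obtain ⟨b1, b2⟩ := x2 ε hε k v n hk z
  have := abs_le.1 (h1 k v hk).1
  refine ⟨fun q => ?_, fun q => ?_⟩
  · have q' : (0 : ℚ) ≤ F k v := by exact_mod_cast q
    linarith only [m1, this, q', b1, q, b1 q]
  · have q' : (F k v : ℚ) ≤ 0 := by exact_mod_cast q
    linarith [b2 q]

lemma sg_mul (s : ℚ) (m : ℤ) : sg s m * s = |s| * m := by
  unfold sg
  split_ifs with c
  · rw [abs_of_pos c, mul_comm]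
  · rw [abs_of_nonpos (not_lt.1 c)]; push_cast; ring

omit [Finite ι] in
lemma Des.exists_Mx (E : Des T) (e f : HE ι) : ∃ Mx : ℤ, ∀ c, -E.L ≤ c → c ≤ E.L →
    0 < E.M e c ∧ E.M e c ≤ Mx ∧ 0 < E.M f c ∧ E.M f c ≤ Mx := by
  obtain ⟨a, ha⟩ := exists_bound E.L (E.M e)
  obtain ⟨b, hb⟩ := exists_bound E.L (E.M f)
  exact ⟨max a b, fun c c1 c2 => ⟨E.Mpos _ _ c1 c2,
    le_max_of_le_left ((le_abs_self _).trans (ha c c1 c2)), E.Mpos _ _ c1 c2,
    le_max_of_le_right ((le_abs_self _).trans (hb c c1 c2))⟩⟩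

omit [Finite ι] in
lemma Des.exists_lab (E : Des T) {e f : HE ι} (h : T.src e = T.src f) (z : E.im e (T.wv f) ≠ 0) :
    ∃ ap am : ℤ → ℤ, ∀ c, -E.L ≤ c → c ≤ E.L →
      E.re e (T.wv f) - E.t (T.src e) c * |E.im e (T.wv f)| ≠ 0 ∧
      E.re e (T.wv f) + E.t (T.src e) c * |E.im e (T.wv f)| ≠ 0 ∧
      Lab E.L (E.D (T.src e)) (E.re e (T.wv f)) |E.im e (T.wv f)| (E.t (T.src e))
        (fun c => E.M e c) (fun c => E.M f c) c 1 (ap c) ∧
      Lab E.L (E.D (T.src e)) (E.re e (T.wv f)) |E.im e (T.wv f)| (E.t (T.src e))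
        (fun c => E.M e c) (fun c => E.M f c) c (-1) (am c) := by
  have k : ∀ ε : ℚ, ε = 1 ∨ ε = -1 → ∀ c, ∃ a, -E.L ≤ c → c ≤ E.L →
      Lab E.L (E.D (T.src e)) (E.re e (T.wv f)) |E.im e (T.wv f)| (E.t (T.src e))
        (fun c => E.M e c) (fun c => E.M f c) c ε a := by
    intro ε hε c
    by_cases q : -E.L ≤ c ∧ c ≤ E.L
    · obtain ⟨a, ha⟩ := ((E.np e f h z).2 c q.1 q.2 ε hε).2.2
      exact ⟨a, fun _ _ => ha⟩
    · exact ⟨0, fun a b => absurd ⟨a, b⟩ q⟩
  choose ap hp using k 1 (Or.inl rfl)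
  choose am hm using k (-1) (Or.inr rfl)
  exact ⟨ap, am, fun c a b => ⟨by simpa using ((E.np e f h z).2 c a b 1 (Or.inl rfl)).1,
    by simpa using ((E.np e f h z).2 c a b (-1) (Or.inr rfl)).1, hp c a b, hm c a b⟩⟩

lemma det_pt (w v : Z2) : det w (v + w) = det w v := by simp [det]; ring

theorem ctx_np {e f : HE ι} (h : T.src e = T.src f) (z : E.im e (T.wv f) ≠ 0) :
    ∃ F G len B, IsCtx E e f F G len B := by
  have z' := E.im_ne h z
  obtain ⟨Mx, hM⟩ := E.exists_Mx e f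
  obtain ⟨ap, am, la⟩ := E.exists_lab h z
  obtain ⟨bm, bp, lb⟩ := E.exists_lab h.symm z'
  obtain ⟨p1, -, p2⟩ := E.pair h
  obtain ⟨p3, -, p4⟩ := E.pair h.symm
  rw [← h] at lb p3 p4
  obtain ⟨S, hS⟩ : ∃ S : ℤ, 2 * Mx < S := ⟨_, lt_add_one _⟩
  have L0 := E.hL0
  have Mx0 : 0 < Mx := by have := hM 0 (by omega) (by omega); omega
  obtain ⟨Q, hQ⟩ : ∃ Q : ℤ → Br, ∀ k, Q k = ⟨-2 * S * k,
    E.re e (T.wv f) - E.t (T.src e) k * |E.im e (T.wv f)|,
    E.re e (T.wv f) + E.t (T.src e) k * |E.im e (T.wv f)|, 2 * S * ap k + S, 2 * S * am k - S⟩ :=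
    ⟨_, fun _ => rfl⟩
  obtain ⟨P, hP⟩ : ∃ P : ℤ → Br, ∀ j, P j = ⟨2 * S * j,
    E.re f (T.wv e) + E.t (T.src e) j * |E.im f (T.wv e)|,
    E.re f (T.wv e) - E.t (T.src e) j * |E.im f (T.wv e)|, -2 * S * bp j + S, -2 * S * bm j - S⟩ :=
    ⟨_, fun _ => rfl⟩
  obtain ⟨Φ, hΦ⟩ : ∃ Φ : ℤ → ℤ → ℤ, ∀ k y, Φ k y =
    -2 * S * k + E.M e k * ⌊((Q k).f y - (Q k).c) / E.M e k⌋ := ⟨_, fun _ _ => rfl⟩
  obtain ⟨Ξ, hΞ⟩ : ∃ Ξ : ℤ → ℤ → ℤ, ∀ j x, Ξ j x =
    2 * S * j + E.M f j * ⌊((P j).f x - (P j).c) / E.M f j⌋ := ⟨_, fun _ _ => rfl⟩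
  have H0 : NPH E.L 0 S Mx Q P ap am (E.M e) (E.M f) Φ Ξ := nph_of (E.hD _) (abs_pos.2 z)
    (abs_pos.2 z') p1 p2 p3 p4 (E.tmono _) la lb hM hS hQ hP hΦ hΞ
  have H1 : NPH E.L 1 S Mx (fun k => P (-k)) (fun k => Q (-k)) (fun k => -bp (-k))
      (fun k => -bm (-k)) (fun k => E.M f (-k)) (fun k => E.M e (-k)) (fun k => Ξ (-k))
      (fun k => Φ (-k)) :=
    nph_of (t := fun c => -E.t (T.src e) (-c)) (bp := fun k => -ap (-k)) (bm := fun k => -am (-k))
      (E.hD _) (abs_pos.2 z') (abs_pos.2 z) p3 p4 p1 p2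
      (fun c c' a b d => neg_lt_neg (E.tmono _ _ _ (by omega) (by omega) (by omega)))
      (fun c a b => by
        obtain ⟨l1, l2, l3, l4⟩ := lb (-c) (by omega) (by omega)
        have k1 := Lab.neg (ε := 1) l4
        have k2 := Lab.neg (ε := -1) (by simpa using l3)
        exact ⟨by simpa using l2, by simpa [sub_eq_add_neg] using l1, k1, k2⟩)
      (fun c a b => by
        obtain ⟨l1, l2, l3, l4⟩ := la (-c) (by omega) (by omega)
        have k1 := Lab.neg (ε := 1) l4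
        have k2 := Lab.neg (ε := -1) (by simpa using l3)
        exact ⟨by simpa using l2, by simpa [sub_eq_add_neg] using l1, k1, k2⟩)
      (fun c a b => by have := hM (-c) (by omega) (by omega); tauto) hS
      (fun k => by rw [hP]; congr 1 <;> push_cast <;> ring)
      (fun k => by rw [hQ]; congr 1 <;> push_cast <;> ring)
      (fun k y => by rw [hΞ]; ring) (fun k y => by rw [hΦ]; ring)
  obtain ⟨xx, hx⟩ : ∃ xx : Z2 → ℤ, ∀ v, xx v = ⌊-E.Y f e v⌋ := ⟨_, fun _ => rfl⟩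
  obtain ⟨yy, hy⟩ : ∃ yy : Z2 → ℤ, ∀ v, yy v = ⌊E.Y e f v⌋ := ⟨_, fun _ => rfl⟩
  have xp : ∀ g x y, xx (pt (T.wv e) (T.wv f) g x y) = x + xx g := fun g x y => by
    simp only [hx, pt, map_add, map_sub, lin_smul, E.Y_self, E.Y_other z']
    rw [← Int.floor_intCast_add]; congr 1; ring
  have yp : ∀ g x y, yy (pt (T.wv e) (T.wv f) g x y) = y + yy g := fun g x y => by
    simp only [hy, pt, map_add, map_sub, lin_smul, E.Y_self, E.Y_other z]
    rw [← Int.floor_intCast_add]; congr 1; ring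
  obtain ⟨SF, s1, w1⟩ := E.npSide h z 0 (Or.inl rfl) S (by omega) Q (fun k => -2 * S * k) (E.M e)
    (fun k => sg (Q k).sp (E.M f (ap k))) (fun k => sg (Q k).sm (E.M f (am k))) ap Φ hΦ
    (fun k hk => by
      obtain ⟨g1, g2⟩ := H0.gain k hk
      have := (H0.pos hk 0).2.2.2.2
      have := (H0.Mx_pos hk)
      obtain ⟨l1, -⟩ := H0.lab k hk
      exact ⟨by simp [hQ], by simp [hQ], by linarith, (hM k hk.1 hk.2.1).1, l1.1, l1.2.1,
        by rw [sg_mul]; exact g1.ne, by rw [sg_mul]; exact g2.ne⟩)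
    (fun k k' y hk hk' q => (H0.ord hk hk' q y).ne') (fun k v => Φ k (yy v) - xx v)
    (fun k v => by simp [hx, hy])
  obtain ⟨SG, s2, w2⟩ := E.npSide h.symm z' 1 (Or.inr rfl) S (by omega) P (fun k => 2 * S * k)
    (E.M f) (fun k => sg (P k).sp (E.M e (bp k))) (fun k => sg (P k).sm (E.M e (bm k)))
    (fun k => -bp k) Ξ hΞ
    (fun k hk => by
      obtain ⟨g1, g2⟩ := H1.gain (-k) hk.neg
      have := (H1.pos hk.neg 0).2.2.2.2
      have := (H1.Mx_pos hk)
      obtain ⟨l1, -⟩ := H1.lab (-k) hk.neg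
      simp only [neg_neg] at *
      exact ⟨by simp [hP, h], by simp [hP, h, sub_eq_add_neg], by linarith,
        (hM k hk.1 hk.2.1).2.2.1, l1.1, l1.2.1,
        by rw [sg_mul]; exact g1.ne, by rw [sg_mul]; exact g2.ne⟩)
    (fun k k' y hk hk' q => by simpa using (H1.ord hk'.neg hk.neg (by omega) y).ne)
    (fun j v => yy v - Ξ j (xx v)) (fun k v => by simp [hx, hy])
  have epl : ∀ len g, pl (fun k v => Φ k (yy v) - xx v) (fun j v => yy v - Ξ j (xx v)) len (T.wv e)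
      (T.wv f) g = (⟨Φ, Ξ, fun x y => len (pt (T.wv e) (T.wv f) g (x - xx g) (y - yy g))⟩ :
        Plane).shift (xx g) (yy g) := fun len g => by
    simp [pl, Plane.shift, xp, yp]
  refine ctx_of h SF SG (fun k v n => ?_) (fun k v n => ?_) (fun len hl g => ?_)
    (fun len hl g => ?_) (fun len g => ?_) (fun ε hε k v n hk hz => ?_)
  · have a := xp v (-n) 0
    have b := yp v (-n) 0
    simp only [pt, neg_smul, sub_neg_eq_add, zero_smul, add_zero] at a b
    simp only [a, b, zero_add]; ring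
  · have a := xp v 0 n
    have b := yp v 0 n
    simp only [pt, zero_smul, sub_zero] at a b
    simp only [a, b, zero_add]; ring
  · rw [epl]
    refine (H0.fw _ fun k hk x y y' a1 a2 a3 a4 a5 => ?_).shift _ _
    have sp : ∀ x y (q : Prop), x = Φ k y → (∀ j, Kc E.L (1 - 0) j → y ≠ Ξ j x) →
        (2 * S * ap k < y ↔ q) → SF.Sp (fun j v => yy v - Ξ j (xx v)) (k, q)
          (pt (T.wv e) (T.wv f) g (x - xx g) (y - yy g)) := fun x y q b1 b2 b3 =>
      ⟨hk, by simp [xp, yp, b1], fun j hj => by simpa [xp, yp, sub_eq_zero] using b2 j hj,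
        by rw [s1]; simpa [← hy, yp] using b3⟩
    rcases a5 with ⟨b1, b2, b3⟩ | ⟨b1, b2, b3⟩
    · refine hl (k, True) _ _ (sp x y _ a1 a3 (by simpa)) (sp _ y' _ a2 a4 (by simpa)) ?_
      rw [← det_pt, (w1 k).1, ← b3]; congr 1; simp only [pt]; module
    · refine hl (k, False) _ _ (sp x y _ a1 a3 (by simpa)) (sp _ y' _ a2 a4 (by simpa)) ?_
      rw [← det_pt, (w1 k).2, ← b3]; congr 1; simp only [pt]; module
  · rw [epl]
    refine (H1.fw (fun y x => len (pt (T.wv e) (T.wv f) g (x - xx g) (y - yy g)))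
      fun k hk y x x' a1 a2 a3 a4 a5 => ?_).shift (yy g) (xx g)
    have sp : ∀ x y (q : Prop), y = Ξ (-k) x → (∀ j, Kc E.L (1 - 1) j → x ≠ Φ (-j) y) →
        (2 * S * -bp (-k) < x ↔ q) → SG.Sp (fun k v => Φ k (yy v) - xx v) (-k, q)
          (pt (T.wv e) (T.wv f) g (x - xx g) (y - yy g)) := fun x y q b1 b2 b3 =>
      ⟨hk.neg, by simp [xp, yp, b1], fun j hj => by
        simpa [xp, yp, sub_eq_zero, eq_comm] using b2 (-j) hj.neg,
        by rw [s2]; simpa [← hx, xp] using b3⟩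
    simp only [neg_neg] at a5
    rcases a5 with ⟨b1, b2, b3⟩ | ⟨b1, b2, b3⟩
    · refine hl (-k, True) _ _ (sp x y _ a1 a3 (by simpa using b1))
        (sp x' _ _ a2 a4 (by simpa using b2)) ?_
      rw [← det_pt, (w2 (-k)).1, ← b3]; congr 1; simp only [pt]; module
    · refine hl (-k, False) _ _ (sp x y _ a1 a3 (by simpa using b1))
        (sp x' _ _ a2 a4 (by simpa using b2)) ?_
      rw [← det_pt, (w2 (-k)).2, ← b3]; congr 1; simp only [pt]; module
  · rw [epl]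
    refine (H0.ex E.hL _ fun x j j' hj hj' q => ?_).shift _ _
    rcases q.eq_or_lt with rfl | q
    · exact le_rfl
    · simpa using (H1.ord hj'.neg hj.neg (by omega) x).le
  · have kL : Kc E.L (1 - 0) E.L := ⟨by omega, le_rfl, E.hL⟩
    obtain ⟨l1, l2, -, l4, l5⟩ := H0.lab k hk
    have n1 := (E.np f e h.symm z').1
    rw [← h, abs_lt] at n1
    have hL := E.hL
    have m1 : (0 : ℚ) < Mx := by exact_mod_cast Mx0
    have m2 : (2 * Mx : ℚ) < S := by exact_mod_cast hS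
    have m3 : (1 : ℚ) ≤ E.L := by exact_mod_cast L0
    have m4 : (1 : ℚ) ≤ Mx := by exact_mod_cast Mx0
    have n0 : (0 : ℚ) ≤ n := n.cast_nonneg
    have m5 : (S : ℚ) ≤ S * E.L := le_mul_of_one_le_right (by linarith only [m1, m2]) m3
    clear la lb p1 p2 p3 p4 hM s1 w1 s2 w2 epl xp yp hΦ hΞ H1
    have eH : E.H e k (v + (ε * n) • T.wv f) = E.re e (T.wv f) * (E.Y e f v + ε * n) + E.Y f e v -
        E.t (T.src e) k * |E.im e (T.wv f)| * |E.Y e f v + ε * n| := by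
      rw [E.H_eq h z]
      simp only [map_add, lin_smul, E.Y_self, E.Y_other z]
      push_cast; ring_nf
    rw [eH, E.H_eq h z]
    simp only [sub_eq_zero] at hz
    have f1 := Int.floor_le (E.Y e f v)
    have f2 := Int.lt_floor_add_one (E.Y e f v)
    rw [← hy, hz] at f1 f2
    rcases hε with rfl | rfl
    · rw [one_mul] at hz f1 f2
      have b := (H0.Ξ_bd ⟨kL.1, kL.2.1⟩ (xx v)).1
      have c : (P E.L).c ≤ (P E.L).f (xx v) := by
        have a1 : 0 ≤ (P E.L).sp * max (xx v - (P E.L).ep) 0 :=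
          mul_nonneg (by rw [hP]; simp only; linarith) (le_max_right _ _)
        have a2 : 0 ≤ (P E.L).sm * min (xx v - (P E.L).em) 0 :=
          mul_nonneg_of_nonpos_of_nonpos (by rw [hP]; simp only; linarith) (min_le_right _ _)
        simp only [Br.f]; linarith
      rw [H0.pc] at c
      have y0 : 0 ≤ E.Y e f v := by linarith only [m1, m2, m5, f1, b, c]
      push_cast
      rw [abs_of_nonneg y0, abs_of_nonneg (show 0 ≤ E.Y e f v + 1 * n by linarith only [m1, m2, m5, f1, b, c])]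
      have t := fun q => (H0.top (x := xx v) (y := yy v) hk kL (by unfold Kc at *; omega) q).ne hz
      rw [hQ] at t l4
      refine ⟨fun q => ?_, fun q => ?_⟩
      · have := mul_nonneg n0 (not_lt.1 fun c => t (Or.inr ⟨c, by omega⟩))
        linarith only [this]
      · have := mul_nonneg n0 (neg_nonneg.2 (not_lt.1 fun c => t (Or.inl ⟨c, by omega⟩)))
        linarith only [this]
    · rw [neg_one_mul] at hz f1 f2
      have b := (H0.Ξ_bd ⟨kL.neg.1, kL.neg.2.1⟩ (xx v)).2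
      have c : (P (-E.L)).f (xx v) ≤ (P (-E.L)).c := by
        have a1 : (P (-E.L)).sp * max (xx v - (P (-E.L)).ep) 0 ≤ 0 :=
          mul_nonpos_of_nonpos_of_nonneg (by rw [hP, E.text]; simp only; linarith) (le_max_right _ _)
        have a2 : (P (-E.L)).sm * min (xx v - (P (-E.L)).em) 0 ≤ 0 :=
          mul_nonpos_of_nonneg_of_nonpos (by rw [hP, E.text]; simp only; linarith) (min_le_right _ _)
        simp only [Br.f]; linarith
      rw [H0.pc] at c
      push_cast at c ⊢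
      have y0 : E.Y e f v ≤ 0 := by linarith only [m1, m2, m4, m5, f2, b, c]
      rw [abs_of_nonpos y0, abs_of_nonpos (show E.Y e f v + -1 * n ≤ 0 by linarith only [m1, m2, m4, m5, f2, b, c])]
      have t := fun q => (H0.bot (x := xx v) (y := yy v) hk kL.neg (by unfold Kc at *; omega) q).ne
        hz.symm
      rw [hQ] at t l5
      refine ⟨fun q => ?_, fun q => ?_⟩
      · have := mul_nonneg n0 (neg_nonneg.2 (not_lt.1 fun c => t (Or.inr ⟨c, by omega⟩)))
        linarith only [this]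
      · have := mul_nonneg n0 (not_lt.1 fun c => t (Or.inl ⟨c, by omega⟩))
        linarith only [this]

theorem ctx_par {e f : HE ι} (h : T.src e = T.src f) (z : E.im e (T.wv f) = 0) :
    ∃ F G len B, IsCtx E e f F G len B := by
  obtain ⟨Mx, hM⟩ := E.exists_Mx e f
  have L0 := E.hL0
  have N := E.N_pos h
  have cg := E.chg e f h
  rw [z] at N cg
  obtain ⟨ρ, hρ⟩ : ∃ ρ, ρ = E.re e (T.wv f) := ⟨_, rfl⟩
  have mp := E.Mpar e f h z
  rw [← hρ] at N cg mp
  have r0 : ρ ≠ 0 := by rintro rfl; simp at N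
  have r1 := abs_pos.2 r0
  have c1 : ∀ v, E.re f v = E.re e v / ρ := fun v => by
    have := (cg v).1
    field_simp
    exact mul_left_cancel₀ r0 (by linarith only [this])
  have c2 : ∀ v, E.im f v = E.im e v / ρ := fun v => by
    have := (cg v).2
    field_simp
    exact mul_left_cancel₀ r0 (by linarith only [this])
  have Mx0 : (0 : ℚ) < Mx := by
    have := hM 0 (by omega) (by omega)
    exact_mod_cast (show 0 < Mx by omega)
  obtain ⟨W, hW⟩ : ∃ W : ℚ, W = Mx + |ρ| + 1 := ⟨_, rfl⟩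
  have W1 : 1 ≤ W := by linarith only [r1, Mx0, hW]
  have W2 : 1 ≤ W / |ρ| := by rw [le_div_iff₀ r1]; linarith
  obtain ⟨F, hF⟩ : ∃ F : ℤ → Z2 → ℤ, ∀ k v, F k v = ⌊E.H e k v - W * k⌋ := ⟨_, fun _ _ => rfl⟩
  obtain ⟨G, hG⟩ : ∃ G : ℤ → Z2 → ℤ, ∀ k v, G k v = -⌊W / |ρ| * k - E.H f k v⌋ :=
    ⟨_, fun _ _ => rfl⟩
  obtain ⟨SF, s1, w1⟩ := E.parSide e 0 (Or.inl rfl) W W1 F fun k v => by
    rw [hF, one_mul]; congr 1; push_cast; ring
  obtain ⟨SG, s2, w2⟩ := E.parSide f 1 (Or.inr rfl) _ W2 G fun k v => by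
    rw [hG, neg_one_mul]; congr 2; push_cast; ring
  have ie : ∀ g x y, E.im e (pt (T.wv e) (T.wv f) g x y) = E.im e g := fun g x y => by
    simp [pt, lin_smul, E.im_self, z, -zsmul_eq_mul]
  have He : ∀ k g x y, E.H e k (pt (T.wv e) (T.wv f) g x y) = E.H e k g - x + ρ * y :=
    fun k g x y => by
      rw [Des.H, ie, Des.H]
      simp only [pt, map_add, map_sub, lin_smul, E.re_self, ← hρ]; ring
  have Hf : ∀ k g x y, E.H f k (pt (T.wv e) (T.wv f) g x y) = E.H f k g - x / ρ + y :=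
    fun k g x y => by
      rw [Des.H, c2, ie, ← c2, Des.H]
      simp only [pt, map_add, map_sub, lin_smul, E.re_self, c1 (T.wv e)]; ring
  have Fp : ∀ k g x y, F k (pt (T.wv e) (T.wv f) g x y) =
      F k (pt (T.wv e) (T.wv f) g 0 y) - x := fun k g x y => by
    rw [hF, hF, He, He, ← Int.floor_sub_intCast]; congr 1; push_cast; ring
  have Gp : ∀ k g x y, G k (pt (T.wv e) (T.wv f) g x y) =
      y + G k (pt (T.wv e) (T.wv f) g x 0) := fun k g x y => by
    rw [hG, hG, Hf, Hf, show W / |ρ| * k - (E.H f k g - x / ρ + y) =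
      W / |ρ| * k - (E.H f k g - x / ρ + (0 : ℤ)) - y by push_cast; ring, Int.floor_sub_intCast]
    ring
  have H0 : ∀ g, PH E.L 0 ρ W (fun k => E.H e k g - W * k) (fun k => W / |ρ| * k - E.H f k g)
      (E.M e) (E.M f) (fun k y => F k (pt (T.wv e) (T.wv f) g 0 y))
      (fun j x => -G j (pt (T.wv e) (T.wv f) g x 0)) := fun g =>
    { hρ := r0
      gap := fun k j hk hj => by
        have i0 := abs_nonneg (E.im e g)
        have W0 : 0 ≤ W := by linarith only [r1, Mx0, hW]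
        constructor
        · intro r
          have e1 : E.H e k g - W * k + ρ * (W / |ρ| * j - E.H f j g) = W * (j - k) +
              (E.t (T.src e) j - E.t (T.src e) k) * |E.im e g| := by
            simp only [Des.H, c1, c2, abs_div, abs_of_pos r, ← h]; field_simp; ring
          simp only [e1]
          refine ⟨fun q => ?_, fun q => ?_⟩
          · have := mul_nonneg (sub_nonneg.2 (E.tmono (T.src e) _ _ hk.1 q hj.2.1).le) i0
            have q' : (1 : ℚ) ≤ j - k := by exact_mod_cast (show 1 ≤ j - k by omega)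
            linarith only [this, q', W0, mul_le_mul_of_nonneg_left q' W0]
          · have := mul_nonneg (sub_nonneg.2 (E.tmono (T.src e) _ _ hj.1 q hk.2.1).le) i0
            have q' : (j - k : ℚ) ≤ -1 := by exact_mod_cast (show j - k ≤ -1 by omega)
            linarith only [this, q', W0, mul_le_mul_of_nonneg_left q' W0]
        · intro r
          have e1 : E.H e k g - W * k + ρ * (W / |ρ| * j - E.H f j g) = -(W * (k + j)) -
              (E.t (T.src e) k + E.t (T.src e) j) * |E.im e g| := by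
            simp only [Des.H, c1, c2, abs_div, abs_of_neg r, ← h]; field_simp; ring
          obtain ⟨o1, o2⟩ := E.topp (T.src e) k j hk.1 hk.2.1 hj.1 hj.2.1
            (by unfold Kc at *; omega)
          simp only [e1]
          refine ⟨fun q => ?_, fun q => ?_⟩
          · have := mul_nonneg (neg_nonneg.2 (o1 q).le) i0
            have q' : (k + j : ℚ) ≤ -1 := by exact_mod_cast (show k + j ≤ -1 by omega)
            linarith only [this, q', W0, mul_le_mul_of_nonneg_left q' W0]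
          · have := mul_nonneg (o2 q).le i0
            have q' : (1 : ℚ) ≤ k + j := by exact_mod_cast (show 1 ≤ k + j by omega)
            linarith only [this, q', W0, mul_le_mul_of_nonneg_left q' W0]
      ord := fun k k' hk hk' q => by
        have := E.H_anti e hk.1 q.le hk'.2.1 g
        have q' : (1 : ℚ) ≤ k' - k := by exact_mod_cast (show 1 ≤ k' - k by omega)
        have := mul_le_mul_of_nonneg_left q' (show 0 ≤ W by linarith)
        linarith
      hM := fun c a b => ⟨(hM c a b).1, by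
        have : (E.M e c : ℚ) ≤ Mx := by exact_mod_cast (hM c a b).2.1
        linarith, mp c a b, E.Mneg f c⟩
      hΦ := fun k y => by rw [hF, He]; congr 1; push_cast; ring
      hΞ := fun k y => by rw [hG, Hf, neg_neg]; congr 1; push_cast; ring }
  have H1 := fun g => (H0 g).rev fun j j' hj hj' q => by
    have := E.H_anti f hj.1 q.le hj'.2.1 g
    have q' : (1 : ℚ) ≤ j' - j := by exact_mod_cast (show 1 ≤ j' - j by omega)
    have := mul_le_mul_of_nonneg_left q' (show 0 ≤ W / |ρ| by linarith only [W2])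
    linarith
  have dd : ∀ (h : HE ι) v v', E.im h v = E.im h v' → det (T.wv h) v = det (T.wv h) v' :=
    fun h v v' q => by
      have a := E.hdet h (T.wv h) v
      have b := E.hdet h (T.wv h) v'
      rw [E.im_self] at a b
      exact_mod_cast (show (det (T.wv h) v : ℚ) = det (T.wv h) v' by rw [a, b, q]; ring)
  refine ctx_of h SF SG (fun k v n => ?_) (fun k v n => ?_) (fun len hl g => ?_)
    (fun len hl g => ?_) (fun len g => ?_) (fun ε hε k v n hk hz => ?_)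
  · rw [hF, hF, E.H_add, ← Int.floor_add_intCast]; congr 1; ring
  · rw [hG, hG, E.H_add, show W / |ρ| * k - (E.H f k v + n) = W / |ρ| * k - E.H f k v - n by ring,
      Int.floor_sub_intCast]; ring
  · refine (H0 g).fw _ fun k hk x y x' y' a1 a2 a3 a4 => ?_
    have sp : ∀ x y, x = F k (pt (T.wv e) (T.wv f) g 0 y) → (∀ j, Kc E.L (1 - 0) j →
        y ≠ -G j (pt (T.wv e) (T.wv f) g x 0)) →
        SF.Sp G (k, 0 < E.im e g) (pt (T.wv e) (T.wv f) g x y) := fun x y b1 b2 =>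
      ⟨hk, by rw [Fp]; simp only; omega, fun j hj => by have := b2 j hj; rw [Gp]; omega,
        by rw [s1, ie]⟩
    exact hl _ _ _ (sp x y a1 a3) (sp x' y' a2 a4) (by rw [w1]; exact dd e _ _ (by rw [ie, ie]))
  · refine (H1 g).fw (fun y x => len (pt (T.wv e) (T.wv f) g x y))
      fun k hk y x y' x' a1 a2 a3 a4 => ?_
    have sp : ∀ x y, y = -G (-k) (pt (T.wv e) (T.wv f) g x 0) → (∀ j, Kc E.L (1 - (1 - 0)) j →
        x ≠ F (-j) (pt (T.wv e) (T.wv f) g 0 y)) →
        SG.Sp F (-k, 0 < E.im f g) (pt (T.wv e) (T.wv f) g x y) := fun x y b1 b2 =>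
      ⟨hk.neg, by rw [Gp]; simp only; omega, fun j hj => by
        have := b2 (-j) hj.neg
        rw [neg_neg] at this
        rw [Fp]; omega, by rw [s2, c2, ie, ← c2]⟩
    exact hl _ _ _ (sp x y a1 a3) (sp x' y' a2 a4)
      (by rw [w2]; exact dd f _ _ (by rw [c2, c2, ie, ie]))
  · refine (H0 g).ex E.hL _ fun x j j' hj hj' q => ?_
    rcases q.eq_or_lt with rfl | q
    · exact le_rfl
    · simpa using ((H1 g).ord' hj'.neg hj.neg (by omega) x).le
  · have kL : Kc E.L (1 - 0) (ε * E.L) := by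
      have := E.hL
      unfold Kc; rcases hε with rfl | rfl <;> omega
    have eH : E.H e k (v + (ε * n) • T.wv f) = E.H e k v + n * (ε * ρ) := by
      have := He k v 0 (ε * n)
      simp only [pt, zero_smul, sub_zero] at this
      rw [this]; push_cast; ring
    have p0 : pt (T.wv e) (T.wv f) v 0 0 = v := by simp [pt]
    have m := (hM k hk.1 hk.2.1).1
    have a := fun q => (H0 v).ge (x := 0) (y := 0) hk kL q
    have b := fun q => (H0 v).le (x := 0) (y := 0) hk kL q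
    simp only [p0, hz, neg_zero, lt_irrefl, imp_false] at a b
    have n0 : (0 : ℚ) ≤ n := n.cast_nonneg
    have hL := E.hL
    rw [eH]
    unfold Kc at hk
    refine ⟨fun q => le_add_of_nonneg_right (mul_nonneg n0 ?_),
      fun q => add_le_of_nonpos_right (mul_nonpos_of_nonneg_of_nonpos n0 ?_)⟩
    · obtain ⟨b1, b2⟩ := b (by omega)
      rcases hε with rfl | rfl <;> push_cast
      · linarith only [b2, hk, hL, not_lt.1 fun r => b2 r (by omega)]
      · linarith only [b1, hk, hL, not_lt.1 fun r => b1 r (by omega)]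
    · obtain ⟨b1, b2⟩ := a (by omega)
      rcases hε with rfl | rfl <;> push_cast
      · linarith only [b1, hk, hL, not_lt.1 fun r => b1 r (by omega)]
      · linarith only [b2, hk, hL, not_lt.1 fun r => b2 r (by omega)]

theorem exists_ctx {e f : HE ι} (h : T.src e = T.src f) : ∃ F G len B, IsCtx E e f F G len B := by
  by_cases z : E.im e (T.wv f) = 0
  exacts [ctx_par h z, ctx_np h z]

lemma IsCtx.mono {e f : HE ι} {F G : ℤ → Z2 → ℤ} {len : Z2 → ℤ} {B B' : ℤ}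
    (h : IsCtx E e f F G len B) (hB : B ≤ B') : IsCtx E e f F G len B' := by
  have q : (B : ℚ) ≤ B' := by exact_mod_cast hB
  exact ⟨h.Fu, h.Gu, h.fw, h.bw, h.ex, fun k v hk => (h.aF k v hk).trans q,
    fun k v hk => (h.aG k v hk).trans q, fun ε hε k v n hk z =>
      ⟨fun r => le_trans (neg_le_neg q) ((h.x2 ε hε k v n hk z).1 r),
        fun r => ((h.x2 ε hε k v n hk z).2 r).trans q⟩, h.rF, h.rG,
    fun v => ⟨(h.lenb v).1, (h.lenb v).2.trans (by omega)⟩, h.rl⟩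

variable (E)

/-- all the data, with uniform constants -/
structure Sys where
  F : HE ι → HE ι → ℤ → Z2 → ℤ
  G : HE ι → HE ι → ℤ → Z2 → ℤ
  len : HE ι → HE ι → Z2 → ℤ
  K : ℤ
  K1 : 1 ≤ K
  cx : ∀ e f, T.src e = T.src f → IsCtx E e f (F e f) (G e f) (len e f) K
  hR : ∀ x, ∀ s ∈ E.R x, nrm s ≤ K
  hc : ∀ x, (E.R x).card ≤ K
  hw : ∀ h, nrm (T.wv h) ≤ K
  hM : ∀ h c, -E.L ≤ c → c ≤ E.L → E.M h c ≤ K
  hH : ∀ h c v w, -E.L ≤ c → c ≤ E.L → |E.H h c v - E.H h c w| ≤ K * nrm (v - w)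

theorem exists_sys [Finite V] : Nonempty (Sys E) := by
  have k : ∀ e f, ∃ F G len B, T.src e = T.src f → IsCtx E e f F G len B := by
    intro e f
    by_cases h : T.src e = T.src f
    · obtain ⟨F, G, len, B, q⟩ := exists_ctx (E := E) h
      exact ⟨F, G, len, B, fun _ => q⟩
    · exact ⟨0, 0, 0, 0, fun q => absurd q h⟩
  choose F G len B hB using k
  obtain ⟨K1, -, h1⟩ := exists_unif' (P := fun q : HE ι × HE ι => fun K => B q.1 q.2 ≤ K)
    (fun _ _ _ a b => b.trans a) fun _ => ⟨_, le_rfl⟩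
  obtain ⟨K2, -, h2⟩ := exists_unif' (P := fun x K => (∀ s ∈ E.R x, nrm s ≤ K) ∧ (E.R x).card ≤ K)
    (fun _ _ _ a b => ⟨fun s hs => (b.1 s hs).trans a, b.2.trans a⟩) fun x => by
      obtain ⟨K, -, hK⟩ := exists_nrm_bound (E.R x)
      exact ⟨max K (E.R x).card, fun s hs => le_max_of_le_left (hK s hs), le_max_right _ _⟩
  obtain ⟨K3, -, h3⟩ := exists_unif' (P := fun h K => nrm (T.wv h) ≤ K ∧
    (∀ c, -E.L ≤ c → c ≤ E.L → E.M h c ≤ K) ∧
    ∀ c v w, -E.L ≤ c → c ≤ E.L → |E.H h c v - E.H h c w| ≤ K * nrm (v - w))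
    (fun _ _ _ a b => ⟨b.1.trans a, fun c c1 c2 => (b.2.1 c c1 c2).trans a, fun c v w c1 c2 =>
      (b.2.2 c v w c1 c2).trans (mul_le_mul_of_nonneg_right (by exact_mod_cast a)
        (by exact_mod_cast nrm_nonneg _))⟩) fun h => by
      obtain ⟨a, ha⟩ := exists_bound E.L (E.M h)
      obtain ⟨k1, -, hk1⟩ := lin_bound (E.re h)
      obtain ⟨k2, k0, hk2⟩ := lin_bound (E.im h)
      refine ⟨max (nrm (T.wv h)) (max a (k1 + ⌈E.t (T.src h) E.L⌉ * k2)), le_max_left _ _,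
        fun c c1 c2 => le_max_of_le_right (le_max_of_le_left ((le_abs_self _).trans (ha c c1 c2))),
        fun c v w c1 c2 => ?_⟩
      have n0 : (0 : ℚ) ≤ nrm (v - w) := by exact_mod_cast nrm_nonneg _
      have m : ((k1 + ⌈E.t (T.src h) E.L⌉ * k2 : ℤ) : ℚ) ≤
          (max (nrm (T.wv h)) (max a (k1 + ⌈E.t (T.src h) E.L⌉ * k2)) : ℤ) := by
        exact_mod_cast le_max_of_le_right (le_max_right _ _)
      refine le_trans ?_ (mul_le_mul_of_nonneg_right m n0)
      have a1 := hk1 (v - w)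
      have a2 := (abs_abs_sub_abs_le_abs_sub (E.im h v) (E.im h w))
      rw [← map_sub] at a2
      have a3 := mul_le_mul ((E.t_le (T.src h) c1 c2).trans (Int.le_ceil _)) (a2.trans (hk2 _))
        (abs_nonneg _) ((abs_nonneg _).trans ((E.t_le (T.src h) c1 c2).trans (Int.le_ceil _)))
      rw [← abs_mul] at a3
      rw [map_sub] at a1
      rw [show E.H h c v - E.H h c w = (E.re h v - E.re h w) - E.t (T.src h) c *
        (|E.im h v| - |E.im h w|) by simp only [Des.H]; ring]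
      refine (abs_sub _ _).trans ?_
      push_cast; linarith only [a1, a3]
  obtain ⟨K, a0, a1, a2, a3⟩ : ∃ K : ℤ, 1 ≤ K ∧ K1 ≤ K ∧ K2 ≤ K ∧ K3 ≤ K :=
    ⟨max (max 1 K1) (max K2 K3), by omega, by omega, by omega, by omega⟩
  exact ⟨⟨F, G, len, K, a0, fun e f h => (hB e f h).mono ((h1 (e, f)).trans a1),
    fun x s hs => ((h2 x).1 s hs).trans a2, fun x => (h2 x).2.trans a2,
    fun h => (h3 h).1.trans a3, fun h c c1 c2 => ((h3 h).2.1 c c1 c2).trans a3,
    fun h c v w c1 c2 => ((h3 h).2.2 c v w c1 c2).trans (mul_le_mul_of_nonneg_right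
      (by exact_mod_cast a3) (by exact_mod_cast nrm_nonneg _))⟩⟩

end Pool.Agent.Work.MP_0909b4_al
end

-- merged part: Pool.Agent.Work.MP_0909b4_al.Words
section
/-! Fellow travelling of words in a group. -/

namespace Pool.Agent.Work.MP_0909b4_al

structure Alph (α Γ : Type) [Group Γ] where
  val : α → Γ
  ok : α → Prop
  inv : ∀ a, ok a → ∃ b, ok b ∧ val b = (val a)⁻¹

variable {α Γ : Type} [Group Γ] (A : Alph α Γ)

def Alph.ev (w : List α) : Γ := (w.map A.val).prod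
def Alph.Ok (w : List α) : Prop := ∀ a ∈ w, A.ok a
def Alph.Short (K : ℕ) (g : Γ) : Prop := ∃ w, A.Ok w ∧ w.length ≤ K ∧ A.ev w = g
def Alph.Close (K : ℕ) (W W' : List α) (a : Γ) : Prop :=
  ∀ t, A.Short K ((A.ev (W.take t))⁻¹ * (a * A.ev (W'.take t)))

@[simp] lemma Alph.ev_nil : A.ev [] = 1 := rfl
@[simp] lemma Alph.ev_cons (a : α) (w : List α) : A.ev (a :: w) = A.val a * A.ev w := by
  simp [Alph.ev]
@[simp] lemma Alph.ev_append (u w : List α) : A.ev (u ++ w) = A.ev u * A.ev w := by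
  simp [Alph.ev]
lemma Alph.ev_replicate (n : ℕ) (a : α) : A.ev (List.replicate n a) = A.val a ^ n := by
  simp [Alph.ev]

variable {A}

lemma Alph.Ok.append {u w : List α} (h : A.Ok u) (h' : A.Ok w) : A.Ok (u ++ w) :=
  fun a ha => (List.mem_append.1 ha).elim (h a) (h' a)
lemma Alph.Ok.take {u : List α} (h : A.Ok u) (t : ℕ) : A.Ok (u.take t) :=
  fun a ha => h a (List.mem_of_mem_take ha)
lemma Alph.Ok.drop {u : List α} (h : A.Ok u) (t : ℕ) : A.Ok (u.drop t) :=
  fun a ha => h a (List.mem_of_mem_drop ha)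
lemma Alph.ok_nil : A.Ok [] := fun _ h => by simp at h
lemma Alph.ok_single {a : α} (h : A.ok a) : A.Ok [a] := fun b hb => by
  rw [List.mem_singleton.1 hb]; exact h
lemma Alph.ok_replicate {a : α} (h : A.ok a) (n : ℕ) : A.Ok (List.replicate n a) := fun b hb => by
  rw [List.eq_of_mem_replicate hb]; exact h

lemma Alph.Short.mono {K K' : ℕ} {g : Γ} (h : A.Short K g) (hK : K ≤ K') : A.Short K' g := by
  obtain ⟨w, a, b, c⟩ := h; exact ⟨w, a, b.trans hK, c⟩
lemma Alph.Short.mul {K K' : ℕ} {g g' : Γ} (h : A.Short K g) (h' : A.Short K' g') :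
    A.Short (K + K') (g * g') := by
  obtain ⟨w, a, b, rfl⟩ := h
  obtain ⟨w', a', b', rfl⟩ := h'
  exact ⟨w ++ w', a.append a', by simp; omega, by simp⟩
lemma Alph.Ok.short {w : List α} (h : A.Ok w) : A.Short w.length (A.ev w) := ⟨w, h, le_rfl, rfl⟩
lemma Alph.short_one : A.Short 0 1 := Alph.ok_nil.short
lemma Alph.short_val {a : α} (h : A.ok a) : A.Short 1 (A.val a) := by
  simpa using (Alph.ok_single h).short
lemma Alph.Short.inv {K : ℕ} {g : Γ} (h : A.Short K g) : A.Short K g⁻¹ := by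
  obtain ⟨w, a, b, rfl⟩ := h
  refine Alph.Short.mono ?_ b
  clear b
  induction w with
  | nil => simpa using Alph.short_one
  | cons x w ih =>
    obtain ⟨y, y1, y2⟩ := A.inv x (a x (by simp))
    simpa [y2] using (ih fun z hz => a z (by simp [hz])).mul (Alph.short_val y1)
lemma Alph.Short.pow {K : ℕ} {g : Γ} (h : A.Short K g) (n : ℕ) : A.Short (n * K) (g ^ n) := by
  induction n with
  | zero => simpa using Alph.short_one
  | succ n ih => rw [pow_succ, Nat.succ_mul]; exact ih.mul h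
lemma Alph.Short.zpow {g : Γ} (h : A.Short 1 g) (n : ℤ) : A.Short n.natAbs (g ^ n) := by
  rcases Int.natAbs_eq n with e | e
  · conv_rhs => rw [e, zpow_natCast]
    simpa using h.pow n.natAbs
  · conv_rhs => rw [e, zpow_neg, zpow_natCast]
    simpa using (h.pow n.natAbs).inv

lemma Alph.Ok.step {W : List α} (h : A.Ok W) (s d : ℕ) :
    A.Short d ((A.ev (W.take s))⁻¹ * A.ev (W.take (s + d))) := by
  rw [List.take_add, A.ev_append, inv_mul_cancel_left]
  exact ((h.drop s).take d).short.mono (by simp)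

lemma Alph.Close.mono {K K' : ℕ} {W W' : List α} {a : Γ} (h : A.Close K W W' a) (hK : K ≤ K') :
    A.Close K' W W' a := fun t => (h t).mono hK
lemma Alph.Close.symm {K : ℕ} {W W' : List α} {a : Γ} (h : A.Close K W W' a) :
    A.Close K W' W a⁻¹ := fun t => by simpa [mul_assoc] using (h t).inv
lemma Alph.Close.trans {K K' : ℕ} {W W' W'' : List α} {a b : Γ} (h : A.Close K W W' a)
    (h' : A.Close K' W' W'' b) : A.Close (K + K') W W'' (a * b) :=
  fun t => by simpa [mul_assoc] using (h t).mul (h' t)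

lemma Alph.Close.tail {K : ℕ} {B B' R R' : List α} {a : Γ} (h : A.Close K B B' a) (r : A.Ok R)
    (r' : A.Ok R') : A.Close (R.length + K + R'.length) (B ++ R) (B' ++ R') a := by
  intro t
  have a1 := ((r.take (t - B.length)).short.mono (List.length_take_le' _ _)).inv
  have a2 := (r'.take (t - B'.length)).short.mono (List.length_take_le' _ _)
  simpa [List.take_append, mul_assoc] using (a1.mul (h t)).mul a2

lemma Alph.Close.app_le {K : ℕ} {B B' R R' : List α} {a a' : Γ} (h : A.Close K B B' a)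
    (e : a * A.ev B' = A.ev B * a') (h' : A.Close K R R' a') (o : A.Ok (B' ++ R'))
    (hl : B.length ≤ B'.length) :
    A.Close (K + (B'.length - B.length)) (B ++ R) (B' ++ R') a := by
  intro t
  by_cases c : t ≤ B.length
  · rw [List.take_append_of_le_length c, List.take_append_of_le_length (c.trans hl)]
    exact (h t).mono (by omega)
  · have s := (o.step t (B'.length - B.length)).inv
    have e1 : (B ++ R).take t = B ++ R.take (t - B.length) := by
      rw [List.take_append, List.take_of_length_le (by omega)]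
    have e2 : (B' ++ R').take (t + (B'.length - B.length)) = B' ++ R'.take (t - B.length) := by
      rw [List.take_append, List.take_of_length_le (by omega)]
      congr 2; omega
    have := (h' (t - B.length)).mul s
    rw [e2] at this
    rw [e1]
    convert this using 1
    rw [eq_mul_inv_of_mul_eq e]; simp [mul_assoc]

lemma Alph.Close.app {K : ℕ} {B B' R R' : List α} {a a' : Γ} (h : A.Close K B B' a)
    (e : a * A.ev B' = A.ev B * a') (h' : A.Close K R R' a') (o : A.Ok (B ++ R))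
    (o' : A.Ok (B' ++ R')) :
    A.Close (K + ((B.length : ℤ) - B'.length).natAbs) (B ++ R) (B' ++ R') a := by
  rcases le_total B.length B'.length with c | c
  · exact (h.app_le e h' o' c).mono (by omega)
  · have := (h.symm.app_le (a' := a'⁻¹) (by rw [inv_mul_eq_iff_eq_mul, ← mul_assoc, e]; simp) h'.symm o c).symm
    rw [inv_inv] at this
    exact this.mono (by omega)

/-- concatenation of `k` blocks starting from block `i`, followed by a tail -/
def wd (B : ℕ → List α) (Tl : List α) : ℕ → ℕ → List α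
  | 0, _ => Tl
  | k + 1, i => B i ++ wd B Tl k (i + 1)

lemma wd_shift (B : ℕ → List α) (Tl : List α) (k : ℕ) :
    ∀ i, wd B Tl k (i + 1) = wd (fun j => B (j + 1)) Tl k i := by
  induction k with
  | zero => intro i; rfl
  | succ k ih => intro i; simp only [wd, ih]

lemma wd_snoc (B : ℕ → List α) (Tl : List α) (k : ℕ) :
    ∀ i, wd B Tl (k + 1) i = wd B (B (i + k) ++ Tl) k i := by
  induction k with
  | zero => intro i; rfl
  | succ k ih =>
    intro i
    rw [wd, ih (i + 1), wd, show i + 1 + k = i + (k + 1) by omega]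

lemma wd_congr {B B' : ℕ → List α} (Tl : List α) (k : ℕ) :
    ∀ i, (∀ j, i ≤ j → j < i + k → B j = B' j) → wd B Tl k i = wd B' Tl k i := by
  induction k with
  | zero => intro i _; rfl
  | succ k ih =>
    intro i h
    rw [wd, wd, h i le_rfl (by omega), ih (i + 1) fun j a b => h j (by omega) (by omega)]

lemma wd_ok {B : ℕ → List α} {Tl : List α} (o : A.Ok Tl) (k : ℕ) :
    ∀ i, (∀ j, i ≤ j → j < i + k → A.Ok (B j)) → A.Ok (wd B Tl k i) := by
  induction k with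
  | zero => intro i _; exact o
  | succ k ih =>
    intro i h
    exact (h i le_rfl (by omega)).append (ih (i + 1) fun j a b => h j (by omega) (by omega))

theorem wd_close {B B' : ℕ → List α} {Tl Tl' : List α} {K : ℕ} (o : ℕ → Γ) (ot : A.Ok Tl)
    (ot' : A.Ok Tl') (k : ℕ) : ∀ i, (∀ j, i ≤ j → j < i + k → A.Ok (B j) ∧ A.Ok (B' j) ∧
      A.Close K (B j) (B' j) (o j) ∧ o j * A.ev (B' j) = A.ev (B j) * o (j + 1)) →
      A.Close K Tl Tl' (o (i + k)) →
      A.Close (K + ∑ j ∈ Finset.Ico i (i + k), (((B j).length : ℤ) - (B' j).length).natAbs)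
        (wd B Tl k i) (wd B' Tl' k i) (o i) := by
  induction k with
  | zero => intro i _ h; simpa [wd] using h
  | succ k ih =>
    intro i h ht
    obtain ⟨a1, a2, a3, a4⟩ := h i le_rfl (by omega)
    have := ih (i + 1) (fun j a b => h j (by omega) (by omega))
      (by rwa [show i + 1 + k = i + (k + 1) by omega])
    refine ((a3.mono (by omega)).app a4 this
      (a1.append (wd_ok ot k _ fun j a b => (h j (by omega) (by omega)).1))
      (a2.append (wd_ok ot' k _ fun j a b => (h j (by omega) (by omega)).2.1))).mono ?_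
    rw [Finset.sum_eq_sum_Ico_succ_bot (show i < i + (k + 1) by omega),
      show i + 1 + k = i + (k + 1) by omega]
    omega

end Pool.Agent.Work.MP_0909b4_al
end

-- merged part: Pool.Agent.Work.MP_0909b4_al.Blk
section
/-! Blocks: the words used inside one plane. -/

namespace Pool.Agent.Work.MP_0909b4_al

variable {V ι : Type} {T : Tub V ι} {E : Des T} [Finite ι] (S : Sys E)

abbrev Al (V ι : Type) := (V × Z2) ⊕ HE ι

def Sys.A : Alph (Al V ι) T.F where
  val := Sum.elim (fun q => T.vtx q.1 q.2) T.edg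
  ok := Sum.elim (fun q => nrm q.2 ≤ 2 * S.K) fun _ => True
  inv := by
    rintro (⟨x, d⟩ | h) q
    · exact ⟨Sum.inl (x, -d), by simpa [nrm_neg] using q, T.vtx_neg _ _⟩
    · exact ⟨Sum.inr (bar h), trivial, T.edg_bar h⟩

@[simp] lemma Sys.val_inl (x : V) (d : Z2) : S.A.val (Sum.inl (x, d)) = T.vtx x d := rfl
@[simp] lemma Sys.val_inr (h : HE ι) : S.A.val (Sum.inr h) = T.edg h := rfl
lemma Sys.ok_inr (h : HE ι) : S.A.Ok [Sum.inr h] := Alph.ok_single trivial
lemma Sys.ok_zero (x : V) : S.A.ok (Sum.inl (x, 0)) := by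
  have := S.K1
  change nrm 0 ≤ _
  rw [nrm_zero]; omega

lemma Sys.short_vtx (x : V) {z : Z2} {C : ℤ} (h : nrm z ≤ C) : S.A.Short C.toNat (T.vtx x z) := by
  have := S.K1
  have a : S.A.Short 1 (T.vtx x (1, 0)) :=
    Alph.short_val (a := Sum.inl (x, (1, 0))) (by change nrm _ ≤ _; simp [nrm]; omega)
  have b : S.A.Short 1 (T.vtx x (0, 1)) :=
    Alph.short_val (a := Sum.inl (x, (0, 1))) (by change nrm _ ≤ _; simp [nrm]; omega)
  have := (a.zpow z.1).mul (b.zpow z.2)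
  rw [← T.vtx_smul, ← T.vtx_smul, ← T.vtx_add, show z.1 • ((1, 0) : Z2) + z.2 • ((0, 1) : Z2) = z by
    ext <;> simp] at this
  refine this.mono ?_
  simp only [nrm, Int.abs_eq_natAbs] at h
  omega

variable (E)

def bw (x : V) (a b : Z2) (m n : ℕ) (d : Z2) (p : ℕ) : List (Al V ι) :=
  List.replicate m (Sum.inl (x, a)) ++ (List.replicate n (Sum.inl (x, b)) ++
    Sum.inl (x, d) :: List.replicate p (Sum.inl (x, 0)))

def Blk (x : V) (v : Z2) (l : ℤ) (w : List (Al V ι)) : Prop :=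
  ∃ a b m n d, ∃ p : ℕ, Rep (E.R x) (E.bef x) v a b m n d ∧ l = m + n + 1 + p ∧
    w = bw x a b m n d p

variable {E}

lemma exists_blk (x : V) (v : Z2) {l : ℤ} (h : nat (E.R x) v ≤ l) : ∃ w, Blk E x v l w := by
  obtain ⟨a, b, m, n, d, r⟩ := exists_rep (E.fan x) (E.bef_tot x) v
  rw [r.nat_eq (E.fan x)] at h
  exact ⟨_, a, b, m, n, d, (l - (m + n + 1)).toNat, r, by omega, rfl⟩

lemma Blk.length {x : V} {v : Z2} {l : ℤ} {w : List (Al V ι)} (h : Blk E x v l w) :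
    (w.length : ℤ) = l := by
  obtain ⟨a, b, m, n, d, p, -, rfl, rfl⟩ := h
  simp [bw]; ring

lemma Sys.rep_d {x : V} {v a b d : Z2} {m n : ℕ} (r : Rep (E.R x) (E.bef x) v a b m n d) :
    nrm d ≤ 2 * S.K := by
  have := r.2.2.2.nrm_le r.1.2.2.1
  have := S.hR x a r.1.1
  have := S.hR x b r.1.2.1
  omega

lemma Blk.ok {x : V} {v : Z2} {l : ℤ} {w : List (Al V ι)} (h : Blk E x v l w) : S.A.Ok w := by
  obtain ⟨a, b, m, n, d, p, r, -, rfl⟩ := h
  have := S.K1
  have a1 := S.hR x a r.1.1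
  have a2 := S.hR x b r.1.2.1
  exact (Alph.ok_replicate (show nrm a ≤ _ by omega) _).append
    ((Alph.ok_replicate (show nrm b ≤ _ by omega) _).append
      ((Alph.ok_single (a := Sum.inl (x, d)) (S.rep_d r)).append
        (Alph.ok_replicate (S.ok_zero x) p)))

lemma Sys.ev_rep (x : V) (a : Z2) (m : ℕ) :
    S.A.ev (List.replicate m (Sum.inl (x, a))) = T.vtx x ((m : ℤ) • a) := by
  rw [Alph.ev_replicate, T.vtx_smul, zpow_natCast]; rfl

lemma Blk.ev {x : V} {v : Z2} {l : ℤ} {w : List (Al V ι)} (h : Blk E x v l w) :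
    S.A.ev w = T.vtx x v := by
  obtain ⟨a, b, m, n, d, p, r, -, rfl⟩ := h
  rw [r.2.2.1]
  simp only [bw, Alph.ev_append, Alph.ev_cons, S.ev_rep, S.val_inl, T.vtx_add, smul_zero,
    T.vtx_zero, mul_one, mul_assoc]

lemma Sys.ev_take (x : V) (a b : Z2) (m n : ℕ) (d : Z2) (p t : ℕ) : ∃ z, (z = 0 ∨ z = d) ∧
    S.A.ev ((bw x a b m n d p).take t) = T.vtx x (ppos a b m n t + z) := by
  simp only [bw, List.take_append, List.take_replicate, List.length_replicate, Alph.ev_append,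
    S.ev_rep, ppos, T.vtx_add, mul_assoc]
  cases t - m - n with
  | zero => exact ⟨0, Or.inl rfl, by simp⟩
  | succ k =>
    refine ⟨d, Or.inr rfl, ?_⟩
    simp [List.take_succ_cons, S.ev_rep, -zsmul_eq_mul]

theorem Sys.blk_close (B : ℤ) : ∃ C : ℕ, ∀ x v v' δ l l' w w', Blk E x v l w → Blk E x v' l' w' →
    nrm δ ≤ B → nrm (δ + v' - v) ≤ B → S.A.Close C w w' (T.vtx x δ) := by
  refine ⟨(B + S.K * (2 * (S.K * (2 * B) + 1) * S.K) + 4 * S.K).toNat, ?_⟩
  rintro x v v' δ _ _ _ _ ⟨a, b, m, n, d, p, r, -, rfl⟩ ⟨a', b', m', n', d', p', r', -, rfl⟩ h1 h2 t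
  obtain ⟨z, z1, e⟩ := S.ev_take x a b m n d p t
  obtain ⟨z', z1', e'⟩ := S.ev_take x a' b' m' n' d' p' t
  rw [e, e', ← T.vtx_neg, ← T.vtx_add, ← T.vtx_add]
  refine S.short_vtx x ?_
  have K1 := S.K1
  have f := r'.ft (E.fan x) (E.bef_asym x) (by omega) (S.hR x) r t
  have q : nrm (v' - v) ≤ 2 * B := by
    have := nrm_sub (δ + v' - v) δ
    rw [show δ + v' - v - δ = v' - v by abel] at this
    omega
  have g : ((E.R x).card : ℤ) * (2 * (S.K * nrm (v' - v) + 1) * S.K) ≤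
      S.K * (2 * (S.K * (2 * B) + 1) * S.K) := by
    have := nrm_nonneg (v' - v)
    have := S.hc x
    gcongr
  have n1 : nrm z ≤ 2 * S.K := by
    rcases z1 with rfl | rfl
    exacts [S.ok_zero x, S.rep_d r]
  have n2 : nrm z' ≤ 2 * S.K := by
    rcases z1' with rfl | rfl
    exacts [S.ok_zero x, S.rep_d r']
  rw [show -(ppos a b m n t + z) + (δ + (ppos a' b' m' n' t + z')) =
    δ + (ppos a' b' m' n' t - ppos a b m n t) + (z' - z) by abel]
  have := nrm_add (δ + (ppos a' b' m' n' t - ppos a b m n t)) (z' - z)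
  have := nrm_add δ (ppos a' b' m' n' t - ppos a b m n t)
  have := nrm_sub z' z
  omega

lemma Sys.nat_lip (x : V) {v w : Z2} {B : ℤ} (h : nrm (v - w) ≤ B) :
    |nat (E.R x) v - nat (E.R x) w| ≤ S.K * (S.K * B + 1) := by
  have K1 := S.K1
  refine (MP_0909b4_al.nat_lip (by omega) (S.hR x) v w).trans ?_
  have := nrm_nonneg (v - w)
  have := S.hc x
  gcongr

lemma ball_finite (C : ℤ) : {d : Z2 | nrm d ≤ C}.Finite := by
  refine ((Set.finite_Icc (-C) C).prod (Set.finite_Icc (-C) C)).subset fun d h => ?_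
  simp only [nrm, Set.mem_ofPred_eq] at h
  have := abs_nonneg d.1
  have := abs_nonneg d.2
  exact ⟨abs_le.1 (by omega), abs_le.1 (by omega)⟩

theorem Sys.reg_blk (x : V) {A : Z2 → Prop} (hA : SecRec (E.R x) A) {l : Z2 → ℤ}
    (hb : ∀ v, l v ≤ nat (E.R x) v + S.K) (hl : ∀ (p : ℕ) a b d, Sector (E.R x) a b → Par a b d →
      EP fun m n => l ((m : ℤ) • a + (n : ℤ) • b + d) = m + n + 1 + p) (z : List (Al V ι)) :
    Language.IsRegular {w | ∃ v u, A v ∧ Blk E x v (l v) u ∧ w = u ++ z} := by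
  have := reg_exists {q : Z2 × Z2 × Z2 × ℕ | Sector (E.R x) q.1 q.2.1 ∧ E.bef x q.1 q.2.1 ∧
      Par q.1 q.2.1 q.2.2.1 ∧ q.2.2.2 ≤ S.K}
    (((E.R x).finite_toSet.prod ((E.R x).finite_toSet.prod ((ball_finite (2 * S.K)).prod
      (Set.finite_le_nat S.K.toNat)))).subset fun q h => ⟨h.1.1, h.1.2.1,
        S.rep_d (m := 0) (n := 0) ⟨h.1, h.2.1, rfl, h.2.2.1⟩, by
          have := h.2.2.2
          simp only [Set.mem_ofPred_eq]; omega⟩) _
    fun q h => reg_two (Sum.inl (x, q.1) : Al V ι) (Sum.inl (x, q.2.1))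
      (Sum.inl (x, q.2.2.1) :: List.replicate q.2.2.2 (Sum.inl (x, 0)) ++ z)
      ((hA _ _ q.2.2.1 h.1).and (hl q.2.2.2 _ _ _ h.1 h.2.2.1))
  convert this using 1
  ext w
  constructor
  · rintro ⟨v, _, a1, ⟨a, b, m, n, d, p, r, e, rfl⟩, rfl⟩
    have := hb v
    rw [r.nat_eq (E.fan x)] at this
    obtain ⟨r1, r2, rfl, r4⟩ := r
    exact ⟨(a, b, d, p), ⟨r1, r2, r4, by simp only; omega⟩, m, n, ⟨a1, e⟩, by simp [bw]⟩
  · rintro ⟨⟨a, b, d, p⟩, ⟨r1, r2, r3, -⟩, m, n, ⟨a1, e⟩, rfl⟩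
    exact ⟨_, _, a1, ⟨a, b, m, n, d, p, ⟨r1, r2, rfl, r3⟩, e, rfl⟩, by simp [bw]⟩

lemma nat_ep (x : V) (p : ℕ) (a b d : Z2) (h : Sector (E.R x) a b) (hp : Par a b d) :
    EP fun m n => nat (E.R x) ((m : ℤ) • a + (n : ℤ) • b + d) = m + n + 1 + p :=
  (EP.const (p = 0)).congr fun m n => by
    rw [Rep.nat_eq (E.fan x) (bef := fun _ _ => True) ⟨h, trivial, rfl, hp⟩]; omega

lemma mul_rec (e : HE ι) : SecRec (E.R (T.src e)) (Mul' (T.wv e)) := by
  refine (((QL.lin _).eq (E.tame_im e)).and ((((QL.lin (E.re e)).floor.smul (-1)).add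
    (QL.lin (E.re e))).eq (by simpa using tame_zero _))).congr fun v => ⟨fun q => ?_, ?_⟩
  · refine ⟨⌊E.re e v⌋, E.inj e ?_ ?_⟩
    · rw [lin_smul, E.re_self]; linarith [q.2]
    · rw [lin_smul, E.im_self, q.1, mul_zero]
  · rintro ⟨n, rfl⟩
    simp [lin_smul, E.re_self, E.im_self, -zsmul_eq_mul]

end Pool.Agent.Work.MP_0909b4_al
end
end
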