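import Pool.Agent.Work.MP_0909b4_al.Blk
import Pool.Agent.Work.MP_0909b4_al.Seq

-- merged part: Pool.Agent.Work.MP_0909b4_al.Route
section
/-! Routes: the language, its regularity and surjectivity. -/

namespace Pool.Agent.Work.MP_0909b4_al

variable {V ι : Type} {T : Tub V ι} {E : Des T} [Finite ι] (S : Sys E)

abbrev Cd (E : Des T) := Set.Icc (-E.L) E.L
abbrev St (E : Des T) := V ⊕ (HE ι × Cd E)

def svx : St E → V := Sum.elim id fun q => T.src q.1

def st (s : St E) (h : ℕ → HE ι) (c : ℕ → Cd E) : ℕ → St E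
  | 0 => s
  | j + 1 => Sum.inr (bar (h j), c j)

def Sys.FO (e : HE ι) : Option (HE ι) → ℤ → Z2 → ℤ
  | some f => S.F e f
  | none => fun k v => ⌊E.H e k v⌋

def Sys.GO (f : HE ι) : St E → ℤ → Z2 → ℤ
  | .inr q => S.G q.1 f
  | .inl _ => fun k v => ⌊E.H f k v⌋

noncomputable def Sys.LO (f : HE ι) : St E → Z2 → ℤ
  | .inr q => S.len q.1 f
  | .inl x => nat (E.R x)

def Sys.Ent (s : St E) (o : Option (HE ι)) (v : Z2) : Prop :=
  ∀ e c, s = .inr (e, c) → Dec E.L 0 (fun k => S.FO e o k v) 0 c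

def Sys.Gd (s : St E) (f : HE ι) (d : Cd E) (v : Z2) : Prop :=
  S.Ent s (some f) v ∧ Inc E.L 1 (fun j => -S.GO f s j v) 0 d ∧
    ∀ c, s = .inr (f, c) → ¬ Mul' (T.wv f) v

def Sys.Step (s : St E) (f : HE ι) (d : Cd E) (v : Z2) (w : List (Al V ι)) : Prop :=
  T.src f = svx s ∧ S.Gd s f d v ∧ Blk E (svx s) v (S.LO f s v) w

def Sys.Fin (s : St E) (v : Z2) (w : List (Al V ι)) : Prop :=
  S.Ent s none v ∧ Blk E (svx s) v (nat (E.R (svx s)) v) w

def Sys.PR (s : St E) (n : ℕ) (h : ℕ → HE ι) (c : ℕ → Cd E) (v : ℕ → Z2)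
    (b : ℕ → List (Al V ι)) : Prop := ∀ j < n, S.Step (st s h c j) (h j) (c j) (v j) (b j)

def wb (h : ℕ → HE ι) (b : ℕ → List (Al V ι)) (j : ℕ) : List (Al V ι) := b j ++ [Sum.inr (h j)]

def Sys.Route (s : St E) (y : V) (W : List (Al V ι)) : Prop :=
  ∃ n h c v b, S.PR s n h c v b ∧ S.Fin (st s h c n) (v n) (b n) ∧ svx (st s h c n) = y ∧
    W = wd (wb h b) (b n) n 0

omit [Finite ι] in
lemma svx_st (s : St E) (h : ℕ → HE ι) (c : ℕ → Cd E) (j : ℕ) :
    svx (st s h c j) = T.vx (svx s) h j := by cases j <;> rfl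

omit [Finite ι] in
lemma st_congr (s : St E) {h h' : ℕ → HE ι} (c : ℕ → Cd E) {n : ℕ} (e : ∀ j < n, h' j = h j) :
    ∀ j ≤ n, st s h' c j = st s h c j
  | 0, _ => rfl
  | j + 1, q => by simp only [st, e j q]

omit [Finite ι] in
lemma st_shift (s : St E) (h : ℕ → HE ι) (c : ℕ → Cd E) (j : ℕ) : st s h c (j + 1) =
    st (.inr (bar (h 0), c 0)) (fun j => h (j + 1)) (fun j => c (j + 1)) j := by cases j <;> rfl

variable {S}

lemma Sys.PR.congr {s : St E} {n : ℕ} {h h' : ℕ → HE ι} {c v b} (p : S.PR s n h c v b)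
    (e : ∀ j < n, h' j = h j) : S.PR s n h' c v b := fun j q => by
  rw [st_congr s c e j q.le, e j q]; exact p j q

lemma Sys.PR.comp {s : St E} {n : ℕ} {h : ℕ → HE ι} {c v b} (p : S.PR s n h c v b) :
    T.Comp (svx s) h n := fun j q => (p j q).1.trans (svx_st s h c j)

lemma Sys.PR.red {s : St E} {n : ℕ} {h : ℕ → HE ι} {c v b} (p : S.PR s n h c v b) :
    T.Red h v n 0 := fun j _ q e => by
  have := (p (j + 1) (by omega)).2.1.2.2 (c j) (by rw [e]; rfl)
  rwa [e] at this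

lemma Sys.PR.shift {s : St E} {n : ℕ} {h : ℕ → HE ι} {c v b} (p : S.PR s (n + 1) h c v b) :
    S.PR (.inr (bar (h 0), c 0)) n (fun j => h (j + 1)) (fun j => c (j + 1)) (fun j => v (j + 1))
      (fun j => b (j + 1)) := fun j q => by
  rw [← st_shift s]; exact p (j + 1) (by omega)

lemma Sys.PR.ok {s : St E} {n : ℕ} {h : ℕ → HE ι} {c v b} (p : S.PR s n h c v b) {j : ℕ}
    (q : j < n) : S.A.Ok (wb h b j) := ((p j q).2.2.ok S).append (S.ok_inr _)

lemma Sys.PR.ev {s : St E} {n : ℕ} {h : ℕ → HE ι} {c v b} (p : S.PR s n h c v b)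
    {Tl : List (Al V ι)} (e : S.A.ev Tl = T.vtx (svx (st s h c n)) (v n)) :
    S.A.ev (wd (wb h b) Tl n 0) = T.sq h v n 0 (svx s) := by
  have k : ∀ k i, i + k = n → S.A.ev (wd (wb h b) Tl k i) = T.sq h v k i (svx (st s h c i)) := by
    intro k
    induction k with
    | zero => rintro i rfl; exact e
    | succ k ih =>
      intro i q
      rw [wd, Alph.ev_append, ih (i + 1) (by omega), wb, Alph.ev_append,
        (p i (by omega)).2.2.ev S, Tub.sq]
      simp [st, svx]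
  exact k n 0 (by omega)

lemma Sys.Route.ok {s : St E} {y : V} {W : List (Al V ι)} (r : S.Route s y W) : S.A.Ok W := by
  obtain ⟨n, h, c, v, b, p, f, -, rfl⟩ := r
  exact wd_ok (f.2.ok S) n 0 fun j _ q => p.ok (by omega)

lemma Sys.Route.rsq {s : St E} {y : V} {n h c v b} (p : S.PR s n h c v b)
    (f : S.Fin (st s h c n) (v n) (b n)) (e : svx (st s h c n) = y) :
    T.RSq (svx s) y n (S.A.ev (wd (wb h b) (b n) n 0)) :=
  ⟨h, v, p.comp, by rw [← svx_st s h c, e], p.red, p.ev (f.2.ev S)⟩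

omit [Finite ι] in
lemma rsq_path {x y : V} {n : ℕ} {g : T.F} (r : T.RSq x y n g) : T.IsPath x g y := by
  obtain ⟨h, v, c, rfl, -, rfl⟩ := r
  induction n with
  | zero => exact T.path_vtx x _
  | succ n ih =>
    rw [T.sq_snoc]
    exact ((ih fun j q => c j (by omega)).trans (c n (by omega) ▸ T.path_edg (h n))).trans
      (T.path_vtx _ _)

lemma Sys.Route.path {s : St E} {y : V} {W : List (Al V ι)} (r : S.Route s y W) :
    T.IsPath (svx s) (S.A.ev W) y := by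
  obtain ⟨n, h, c, v, b, p, f, e, rfl⟩ := r
  exact rsq_path (Sys.Route.rsq p f e)

variable (S)

def Sys.BL (s s' : St E) : Language (Al V ι) :=
  {w | ∃ q ∈ {q : HE ι × Cd E | s' = .inr (bar q.1, q.2) ∧ T.src q.1 = svx s}, w ∈
    {w | ∃ v u, S.Gd s q.1 q.2 v ∧ Blk E (svx s) v (S.LO q.1 s v) u ∧ w = u ++ [Sum.inr q.1]}}

def Sys.EL (y : V) (s : St E) : Language (Al V ι) :=
  {w | ∃ v u, (svx s = y ∧ S.Ent s none v) ∧ Blk E (svx s) v (nat (E.R (svx s)) v) u ∧ w = u ++ []}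

lemma Sys.route_iff [Nonempty ι] (s : St E) (y : V) (W : List (Al V ι)) :
    S.Route s y W ↔ Ch (S.EL y) S.BL s W := by
  constructor
  · rintro ⟨n, h, c, v, b, p, f, e, rfl⟩
    have k : ∀ k i, i + k = n → Ch (S.EL y) S.BL (st s h c i) (wd (wb h b) (b n) k i) := by
      intro k
      induction k with
      | zero => rintro i rfl; exact Ch.fin ⟨_, _, ⟨e, f.1⟩, f.2, by simp [wd]⟩
      | succ k ih =>
        intro i q
        obtain ⟨a1, a2, a3⟩ := p i (by omega)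
        exact Ch.step ⟨(h i, c i), ⟨rfl, a1⟩, _, _, a2, a3, rfl⟩ (ih (i + 1) (by omega))
    exact k n 0 (by omega)
  · intro q
    induction q with
    | fin q =>
      obtain ⟨v, u, ⟨a1, a2⟩, a3, rfl⟩ := q
      exact ⟨0, fun _ => Classical.arbitrary _, fun _ => ⟨0, by have := E.hL0; simp; omega⟩,
        fun _ => v, fun _ => u, fun _ q => by omega, ⟨a2, a3⟩, a1, by simp [wd]⟩
    | @step s _ _ _ q _ ih =>
      obtain ⟨⟨f, d⟩, ⟨rfl, a1⟩, v0, u, a2, a3, rfl⟩ := q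
      obtain ⟨n, h, c, v, b, p, g, e, rfl⟩ := ih
      refine ⟨n + 1, fun j => Nat.casesOn j f h, fun j => Nat.casesOn j d c,
        fun j => Nat.casesOn j v0 v, fun j => Nat.casesOn j u b, fun j q => ?_, ?_, ?_, ?_⟩
      · cases j with
        | zero => exact ⟨a1, a2, a3⟩
        | succ j => rw [st_shift]; exact p j (by omega)
      · rw [st_shift]; exact g
      · rw [st_shift]; exact e
      · rw [wd, wd_shift]; rfl

lemma dec_rec {R : Finset Z2} {L p : ℤ} {t : ℤ → Z2 → ℤ} (c : ℤ) (h : ∀ k, Kc L p k →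
    SecRec R (fun v => 0 ≤ t k v) ∧ SecRec R fun v => t k v ≤ 0) :
    SecRec R fun v => Dec L p (fun k => t k v) 0 c :=
  SecRec.all (kc_finite L p) fun k hk =>
    ((SecRec.const _).imp (h k hk).1).and ((SecRec.const _).imp (h k hk).2)

lemma floor_rec (h : HE ι) {p : ℤ} (k : ℤ) (hk : Kc E.L p k) :
    SecRec (E.R (T.src h)) (fun v => 0 ≤ ⌊E.H h k v⌋) ∧
      SecRec (E.R (T.src h)) fun v => ⌊E.H h k v⌋ ≤ 0 := by
  simpa using E.recF h hk.1 hk.2.1 1 0

lemma Sys.ent_rec (s : St E) (o : Option (HE ι)) (ho : ∀ f, o = some f → T.src f = svx s) :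
    SecRec (E.R (svx s)) (S.Ent s o) := by
  rcases s with x | ⟨e, c⟩
  · exact (SecRec.const True).congr fun v => by simp [Sys.Ent]
  · refine (dec_rec (L := E.L) (p := 0) (t := S.FO e o) c ?_).congr fun v => by simp [Sys.Ent]
    cases o with
    | none => exact floor_rec e
    | some f => exact (S.cx e f (ho f rfl).symm).rF

theorem Sys.reg_route [Finite V] [Nonempty ι] (s : St E) (y : V) :
    Language.IsRegular {W | S.Route s y W} := by
  simp only [S.route_iff]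
  have K1 := S.K1
  refine reg_ch _ _ (fun s => S.reg_blk _ ((SecRec.const _).and (S.ent_rec s none (by simp)))
    (fun v => by omega) (nat_ep _) _) (fun s s' => reg_exists _ (Set.toFinite _) _ ?_) s
  rintro ⟨f, d⟩ ⟨-, a⟩
  refine S.reg_blk _ ((S.ent_rec s _ (by simpa using a)).and (SecRec.and
    ((dec_rec (L := E.L) (p := 1) (t := S.GO f s) d ?_).congr fun v => ?_) ?_)) ?_ ?_ _
  · rcases s with x | ⟨e, c⟩
    · exact a ▸ floor_rec f
    · exact (S.cx e f a.symm).rG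
  · simp [Dec, Inc]
  · by_cases q : ∃ c, s = .inr (f, c)
    · exact (a ▸ mul_rec f).not.congr fun v => ⟨fun r _ _ => r, fun r => r _ q.choose_spec⟩
    · exact (SecRec.const True).congr fun v => ⟨fun _ c r => absurd ⟨c, r⟩ q, fun _ => trivial⟩
  · rcases s with x | ⟨e, c⟩
    · exact fun v => le_add_of_nonneg_right (by omega)
    · exact fun v => ((S.cx e f a.symm).lenb v).2
  · rcases s with x | ⟨e, c⟩
    · exact nat_ep _
    · exact (S.cx e f a.symm).rl

variable {S}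

lemma IsCtx.out_iff {e f : HE ι} {F G : ℤ → Z2 → ℤ} {len : Z2 → ℤ} {B : ℤ}
    (h : IsCtx E e f F G len B) (g : Z2) (x y c : ℤ) :
    Out E.L 0 (pl F G len (T.wv e) (T.wv f) g) x y c ↔
      Dec E.L 0 (fun k => F k (pt (T.wv e) (T.wv f) g x y)) 0 c := by
  have k : ∀ k, F k (pt (T.wv e) (T.wv f) g x y) = F k (pt (T.wv e) (T.wv f) g 0 y) - x := by
    intro k
    rw [sub_eq_add_neg, ← h.Fu]; congr 1; simp only [pt]; module
  simp only [Out, Dec, pl, k, sub_nonneg, sub_nonpos]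

lemma IsCtx.in_iff {e f : HE ι} {F G : ℤ → Z2 → ℤ} {len : Z2 → ℤ} {B : ℤ}
    (h : IsCtx E e f F G len B) (g : Z2) (x y c : ℤ) :
    In E.L 0 (pl F G len (T.wv e) (T.wv f) g) x y c ↔
      Inc E.L 1 (fun k => -G k (pt (T.wv e) (T.wv f) g x y)) 0 c := by
  have k : ∀ k, G k (pt (T.wv e) (T.wv f) g x y) = G k (pt (T.wv e) (T.wv f) g x 0) + y := by
    intro k
    rw [← h.Gu]; congr 1; simp only [pt]; module
  simp only [In, Inc, pl, k, sub_zero]
  exact forall₂_congr fun _ _ => and_congr (imp_congr_right fun _ => by omega)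
    (imp_congr_right fun _ => by omega)

variable (S)

def Sys.P (h : ℕ → HE ι) (v : ℕ → Z2) (i : ℕ) : Plane :=
  pl (S.F (bar (h i)) (h (i + 1))) (S.G (bar (h i)) (h (i + 1))) (S.len (bar (h i)) (h (i + 1)))
    (T.wv (bar (h i))) (T.wv (h (i + 1))) (v (i + 1))

omit [Finite ι] in
lemma floor_H_add (h : HE ι) (c : ℤ) (v : Z2) (n : ℤ) :
    ⌊E.H h c (v + n • T.wv h)⌋ = ⌊E.H h c v⌋ + n := by rw [E.H_add, Int.floor_add_intCast]

theorem Sys.exists_route [Nonempty ι] {x y : V} {g : T.F} (p : T.IsPath x g y) :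
    ∃ W, S.Route (.inl x) y W ∧ S.A.ev W = g := by
  obtain ⟨n, h, v, cp, rfl, r, rfl⟩ := p.rsq
  have L0 := E.hL0
  suffices k : ∃ (c : ℕ → Cd E) (v' : ℕ → Z2), (∀ j < n, S.Gd (st (.inl x) h c j) (h j) (c j) (v' j)) ∧
      S.Ent (st (.inl x) h c n) none (v' n) ∧ T.sq h v' n 0 x = T.sq h v n 0 x by
    obtain ⟨c, v', a1, a2, a3⟩ := k
    have : ∀ j, ∃ w, (j < n → Blk E (svx (st (.inl x) h c j)) (v' j)
        (S.LO (h j) (st (.inl x) h c j) (v' j)) w) ∧ (j = n → Blk E (svx (st (.inl x) h c j)) (v' j)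
        (nat (E.R (svx (st (.inl x) h c j))) (v' j)) w) := by
      intro j
      by_cases q : j < n
      · refine (exists_blk _ _ ?_).imp fun w hw => ⟨fun _ => hw, fun _ => by omega⟩
        cases j with
        | zero => exact le_rfl
        | succ j => exact ((S.cx _ _ (cp _ q).symm).lenb _).1
      · exact (exists_blk _ _ le_rfl).imp fun w hw => ⟨fun r => absurd r q, fun _ => hw⟩
    choose b b1 using this
    have p : S.PR (.inl x) n h c v' b := fun j q =>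
      ⟨(cp j q).trans (svx_st (.inl x) h c j).symm, a1 j q, (b1 j).1 q⟩
    exact ⟨_, ⟨n, h, c, v', b, p, ⟨a2, (b1 n).2 rfl⟩, svx_st _ h c n, rfl⟩,
      (p.ev (((b1 n).2 rfl).ev S)).trans a3⟩
  cases n with
  | zero => exact ⟨fun _ => ⟨0, by simp; omega⟩, v, fun _ q => by omega, by simp [Sys.Ent, st], rfl⟩
  | succ N =>
    have cx := fun i (q : i < N) => S.cx (bar (h i)) (h (i + 1)) (cp (i + 1) (by omega)).symm
    obtain ⟨s, c, i1, i2, i3⟩ := exists_sol E.hL L0 N (S.P h v) (fun i => E.M (h i))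
      (fun i q => E.Mbar (h i) ▸ (cx i q).fw _) (fun i q => (cx i q).ex _)
      (fun k => ⌊E.H (bar (h N)) k (v (N + 1))⌋)
      (fun k k' a b q => Int.floor_mono (E.H_anti _ a.1 q b.2.1 _))
      (fun k => -⌊E.H (h 0) k (v 0)⌋)
      (fun k k' a b q => neg_le_neg (Int.floor_mono (E.H_anti _ a.1 q b.2.1 _)))
    obtain ⟨δ, d0, d1⟩ : ∃ δ : ℕ → Z2, δ 0 = 0 ∧ ∀ j, δ (j + 1) = s j • T.wv (bar (h j)) :=
      ⟨fun j => Nat.casesOn j 0 fun j => s j • T.wv (bar (h j)), rfl, fun _ => rfl⟩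
    obtain ⟨v', e1, e2⟩ : ∃ v' : ℕ → Z2, (∀ j < N + 1, v' j = v j - δ j + s j • T.wv (h j)) ∧
        v' (N + 1) = v (N + 1) - δ (N + 1) :=
      ⟨fun j => if j < N + 1 then v j - δ j + s j • T.wv (h j) else v j - δ j,
        fun j q => if_pos q, if_neg (lt_irrefl _)⟩
    obtain ⟨c', e3⟩ : ∃ c' : ℕ → Cd E, ∀ j ≤ N, (c' j : ℤ) = c j :=
      ⟨fun j => if q : j ≤ N then ⟨c j, i1.1 j q⟩ else ⟨0, by simp; omega⟩,
        fun j q => by simp only [dif_pos q]⟩
    refine ⟨c', v', fun j q => ?_, ?_, ?_⟩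
    · rw [e1 j q]
      cases j with
      | zero =>
        refine ⟨by simp [Sys.Ent, st], ?_, by simp [st]⟩
        rw [e3 0 (by omega), d0, sub_zero]
        intro k hk
        have := i2 k hk
        simp only [Sys.GO, st, floor_H_add] at this ⊢
        omega
      | succ j =>
        obtain ⟨a1, a2⟩ := i1.2 j (by omega)
        rw [d1]
        refine ⟨fun e c q => ?_, ?_, fun c q m => ?_⟩
        · obtain ⟨rfl, rfl⟩ : bar (h j) = e ∧ c' j = c := by simpa [st] using q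
          rw [e3 j (by omega)]
          exact ((cx j (by omega)).out_iff _ _ _ _).1 a1
        · rw [e3 _ (by omega)]
          exact ((cx j (by omega)).in_iff _ _ _ _).1 a2
        · have q' : bar (h j) = h (j + 1) := by simpa [st] using congrArg (Sum.map id Prod.fst) q
          refine r j (by omega) (by omega) q'.symm ?_
          rw [q'] at m ⊢
          rw [← mul'_add _ _ (s (j + 1) - s j)]
          convert m using 1
          module
    · intro e c q
      obtain ⟨rfl, rfl⟩ : bar (h N) = e ∧ c' N = c := by simpa [st] using q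
      rw [e3 N le_rfl, e2, d1, sub_eq_add_neg, ← neg_smul]
      intro k hk
      have := i3 k hk
      simp only [Sys.FO, floor_H_add] at this ⊢
      omega
    · simpa [d0] using Tub.sq_rel (h' := h) (v' := v') (δ := δ) (s := s) (N + 1) 0 cp
        (fun _ _ => rfl) (fun j _ => d1 j) (fun j q => by rw [e1 j q]; abel) (by rw [e2]; abel)

end Pool.Agent.Work.MP_0909b4_al
end

-- merged part: Pool.Agent.Work.MP_0909b4_al.Core
section
/-! Two routes through the same planes stay close. -/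

namespace Pool.Agent.Work.MP_0909b4_al

variable {V ι : Type} {T : Tub V ι} {E : Des T} [Finite ι] (S : Sys E)

def Sys.AD (h : HE ι) (p c : ℤ) (v : Z2) : Prop :=
  ∀ k, Kc E.L p k → (k ≤ c → -S.K ≤ E.H h k v) ∧ (c ≤ k → E.H h k v ≤ S.K)

def Sys.AE (s : St E) (v : Z2) : Prop := ∀ e c, s = .inr (e, c) → S.AD e 0 c v

variable {S}

lemma Sys.ad_of {h : HE ι} {p c : ℤ} {v : Z2} {t : ℤ → ℤ} (d : Dec E.L p t 0 c)
    (a : ∀ k, Kc E.L p k → |t k - E.H h k v| ≤ S.K) : S.AD h p c v := by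
  intro k hk
  have := abs_le.1 (a k hk)
  refine ⟨fun q => ?_, fun q => ?_⟩
  · have : (0 : ℚ) ≤ t k := by exact_mod_cast (d k hk).1 q
    linarith
  · have : (t k : ℚ) ≤ 0 := by exact_mod_cast (d k hk).2 q
    linarith

lemma Sys.floor_close (S : Sys E) (x : ℚ) : |⌊x⌋ - x| ≤ S.K := by
  have : (1 : ℚ) ≤ S.K := by exact_mod_cast S.K1
  rw [abs_le]
  constructor <;> linarith [Int.floor_le x, Int.lt_floor_add_one x]

lemma Sys.Ent.ae {s : St E} {o : Option (HE ι)} {v : Z2} (h : S.Ent s o v)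
    (ho : ∀ f, o = some f → T.src f = svx s) : S.AE s v := by
  rintro e c rfl
  refine Sys.ad_of (h e c rfl) fun k hk => ?_
  cases o with
  | none => exact S.floor_close _
  | some f => exact (S.cx e f (ho f rfl).symm).aF k v hk

lemma Sys.go_close {s : St E} {f : HE ι} (h : T.src f = svx s) (k : ℤ) (v : Z2) (hk : Kc E.L 1 k) :
    |S.GO f s k v - E.H f k v| ≤ S.K := by
  rcases s with x | ⟨e, c⟩
  · exact S.floor_close _
  · exact (S.cx e f h.symm).aG k v hk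

lemma Sys.Step.ad {s : St E} {f : HE ι} {d : Cd E} {v : Z2} {w} (h : S.Step s f d v w) :
    S.AD f 1 d v :=
  Sys.ad_of (t := fun k => S.GO f s k v) (fun k hk => by
    have := h.2.1.2.1 k hk
    simp only at this ⊢
    omega) fun k hk => Sys.go_close h.1 k v hk

lemma Sys.Step.len {s : St E} {f : HE ι} {d : Cd E} {v : Z2} {w} (h : S.Step s f d v w) :
    nat (E.R (svx s)) v ≤ w.length ∧ w.length ≤ nat (E.R (svx s)) v + S.K := by
  rw [h.2.2.length]
  have := S.K1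
  rcases s with x | ⟨e, c⟩
  · exact ⟨le_rfl, le_add_of_nonneg_right (by omega)⟩
  · exact (S.cx e f h.1.symm).lenb v

lemma Sys.AD.small {h : HE ι} {p c c' x B : ℤ} {v v' ω : Z2} (a : S.AD h p c v) (a' : S.AD h p c' v')
    (e : x • T.wv h + v' = v + ω) (b : nrm ω ≤ B) :
    Small E.L p (fun _ => (2 * S.K + S.K * B).toNat) 0 c x c' := by
  intro k hk
  have h1 := S.hH h k (v + ω) v hk.1 hk.2.1
  rw [add_sub_cancel_left, ← e, add_comm, E.H_add, abs_le] at h1
  have K1 : (1 : ℚ) ≤ S.K := by exact_mod_cast S.K1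
  have h2 : (S.K : ℚ) * nrm ω ≤ S.K * B := by
    have : (nrm ω : ℚ) ≤ B := by exact_mod_cast b
    gcongr
  have := Int.self_le_toNat (2 * S.K + S.K * B)
  refine ⟨fun q q' => ?_, fun q q' => ?_⟩
  · have : (x : ℚ) ≤ (2 * S.K + S.K * B : ℤ) := by
      push_cast; linarith [(a k hk).2 q, (a' k hk).1 q']
    have : x ≤ 2 * S.K + S.K * B := by exact_mod_cast this
    simp only; omega
  · have : ((-x : ℤ) : ℚ) ≤ (2 * S.K + S.K * B : ℤ) := by
      push_cast; linarith [(a k hk).1 q', (a' k hk).2 q]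
    have : -x ≤ 2 * S.K + S.K * B := by exact_mod_cast this
    simp only; omega

lemma Sys.nrm_wv (S : Sys E) (h : HE ι) {x A : ℤ} (a : |x| ≤ A) : nrm (x • T.wv h) ≤ A * S.K := by
  rw [nrm_smul]
  exact mul_le_mul a (S.hw h) (nrm_nonneg _) ((abs_nonneg _).trans a)

lemma Sys.chain (S : Sys E) {x : V} {h : ℕ → HE ι} {N : ℕ} (cp : T.Comp x h (N + 1)) (v : ℕ → Z2) :
    Chain E.L 0 N (S.P h v) (fun i => E.M (h i)) S.K (S.K * (S.K * (2 * (S.K * S.K)) + 1) + S.K) := by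
  have cx := fun i (q : i < N) => S.cx (bar (h i)) (h (i + 1)) (cp (i + 1) (by omega)).symm
  refine ⟨fun i q => E.Mbar (h i) ▸ (cx i q).fw _, fun i q => E.Mbar (h i) ▸ (cx i q).bw _,
    fun i _ k a b => ⟨E.Mpos _ _ a b, S.hM _ _ a b⟩, fun i q x y x' y' a b => ?_⟩
  have a1 := (cx i q).lenb (pt (T.wv (bar (h i))) (T.wv (h (i + 1))) (v (i + 1)) x y)
  have a2 := (cx i q).lenb (pt (T.wv (bar (h i))) (T.wv (h (i + 1))) (v (i + 1)) x' y')
  have a3 := S.nat_lip (T.src (bar (h i))) (B := 2 * (S.K * S.K))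
    (v := pt (T.wv (bar (h i))) (T.wv (h (i + 1))) (v (i + 1)) x y)
    (w := pt (T.wv (bar (h i))) (T.wv (h (i + 1))) (v (i + 1)) x' y') (by
      have := nrm_sub ((x' - x) • T.wv (bar (h i))) ((y' - y) • T.wv (h (i + 1)))
      have := S.nrm_wv (bar (h i)) a
      have := S.nrm_wv (h (i + 1)) b
      rw [show pt (T.wv (bar (h i))) (T.wv (h (i + 1))) (v (i + 1)) x y -
        pt (T.wv (bar (h i))) (T.wv (h (i + 1))) (v (i + 1)) x' y' =
        (x' - x) • T.wv (bar (h i)) - (y' - y) • T.wv (h (i + 1)) by simp only [pt]; module]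
      omega)
  simp only [Sys.P, pl]
  rw [abs_le] at *
  omega

lemma Sys.PR.inner {s : St E} {N : ℕ} {h : ℕ → HE ι} {c v' b} (p : S.PR s (N + 1) h c v' b)
    {v : ℕ → Z2} {x : ℕ → ℤ} (e : ∀ i < N, v' (i + 1) =
      pt (T.wv (bar (h i))) (T.wv (h (i + 1))) (v (i + 1)) (x i) (x (i + 1))) :
    Inner E.L 0 N (S.P h v) x fun i => c i := by
  refine ⟨fun i _ => (c i).2, fun i q => ?_⟩
  have cx := S.cx (bar (h i)) (h (i + 1)) (p.comp (i + 1) (by omega)).symm
  obtain ⟨-, ⟨a1, a2, -⟩, -⟩ := p (i + 1) (by omega)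
  rw [e i q] at a1 a2
  exact ⟨(cx.out_iff _ _ _ _).2 (a1 _ _ rfl), (cx.in_iff _ _ _ _).2 a2⟩

variable (S)

theorem Sys.core0 (B : ℤ) : ∃ C : ℤ, ∀ s s' n h c c' v v' b b' (sl : ℕ → ℤ) (δ : ℕ → Z2) ve ve' ω,
    S.PR s n h c v b → S.PR s' n h c' v' b' → (∀ j, δ (j + 1) = sl j • T.wv (bar (h j))) →
    (∀ j < n, δ j + v' j = v j + sl j • T.wv (h j)) → nrm (δ 0) ≤ B → δ n + ve' = ve + ω →
    nrm ω ≤ B → S.AE (st s h c n) ve → S.AE (st s' h c' n) ve' →
    (∀ j ≤ n, nrm (δ j) ≤ C) ∧ (∀ j < n, nrm (δ j + v' j - v j) ≤ C) ∧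
      ∑ j ∈ Finset.range n, |((b j).length : ℤ) - (b' j).length| ≤ C := by
  have K1 := S.K1
  obtain ⟨B', hB'⟩ : ∃ B' : ℕ, B' = (2 * S.K + S.K * B).toNat := ⟨_, rfl⟩
  obtain ⟨A, hA⟩ : ∃ A : ℤ, A = 2 * (B' + 1) * S.K := ⟨_, rfl⟩
  obtain ⟨D, hD⟩ : ∃ D : ℤ, D = S.K * (S.K * (2 * (S.K * S.K)) + 1) + S.K := ⟨_, rfl⟩
  have D0 : 0 ≤ D := by rw [hD]; positivity
  have A0 : 0 ≤ A * S.K := by rw [hA]; positivity
  have X0 : 0 ≤ 2 * (B' + 1) * (3 * D) := by positivity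
  refine ⟨|B| + A * S.K + 2 * (B' + 1) * (3 * D) + S.K * (S.K * (|B| + A * S.K) + 1) + S.K, ?_⟩
  intro s s' n h c c' v v' b b' sl δ ve ve' ω p p' e1 e2 b1 e3 b2 a a'
  have B0 := le_abs_self B
  have B1 := abs_nonneg B
  have Y0 : 0 ≤ S.K * (S.K * (|B| + A * S.K) + 1) := by positivity
  cases n with
  | zero =>
    refine ⟨fun j q => ?_, fun j q => by omega, by simp; omega⟩
    obtain rfl : j = 0 := by omega
    omega
  | succ N =>
    have s0 := (p 0 (by omega)).ad.small (p' 0 (by omega)).ad (x := -sl 0) (ω := -δ 0) (B := B)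
      (by rw [← add_right_inj (δ 0), add_left_comm, e2 0 (by omega)]; module) (by rwa [nrm_neg])
    have sn := (a _ _ rfl).small (a' _ _ rfl) (x := sl N) (by rw [← e1, e3]) b2
    rw [← hB'] at s0 sn
    have ee : ∀ i < N, v' (i + 1) =
        pt (T.wv (bar (h i))) (T.wv (h (i + 1))) (v (i + 1)) (sl i) (sl (i + 1)) := fun i q => by
      rw [← add_right_inj (δ (i + 1)), e2 _ (by omega), e1, pt]; abel
    obtain ⟨n1, n2⟩ := stab (P := S.P h v) E.hL E.hL0 (by omega) D0 (hD ▸ S.chain p.comp v)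
      (fun i q => (S.cx (bar (h i)) (h (i + 1)) (p.comp (i + 1) (by omega)).symm).ex _)
      (p.inner (x := fun _ => 0) fun i _ => by simp [pt]) (p'.inner ee) B'
      (fun k hk => by have := s0 (-k) hk.neg; simp only at this ⊢; omega) sn
    simp only [sub_zero, ← hA] at n1
    have w1 := fun j q f => S.nrm_wv f (n1 j q)
    refine ⟨fun j q => ?_, fun j q => ?_, ?_⟩
    · cases j with
      | zero => omega
      | succ j => have := w1 j (by omega) (bar (h j)); rw [e1]; omega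
    · have := w1 j (by omega) (h j)
      rw [e2 j q, add_sub_cancel_left]; omega
    · rw [Finset.sum_range_succ']
      have e4 : ∑ i ∈ Finset.range N, |((b (i + 1)).length : ℤ) - (b' (i + 1)).length| =
          drift N (S.P h v) (fun _ => 0) sl := Finset.sum_congr rfl fun i q => by
        have q := Finset.mem_range.1 q
        rw [(p (i + 1) (by omega)).2.2.length, (p' (i + 1) (by omega)).2.2.length, ee i q]
        simp [Sys.P, pl, pt, Sys.LO, st, -zsmul_eq_mul]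
      have l1 := (p 0 (by omega)).len
      have l2 := (p' 0 (by omega)).len
      rw [← (p 0 (by omega)).1] at l1
      rw [← (p' 0 (by omega)).1] at l2
      have l3 := S.nat_lip (T.src (h 0)) (v := v 0) (w := v' 0) (B := |B| + A * S.K) (by
        have := nrm_sub (δ 0) (sl 0 • T.wv (h 0))
        have := w1 0 (by omega) (h 0)
        rw [show v 0 - v' 0 = δ 0 - sl 0 • T.wv (h 0) by
          rw [sub_eq_sub_iff_add_eq_add, e2 0 (by omega)]]
        omega)
      have : |((b 0).length : ℤ) - (b' 0).length| ≤ S.K * (S.K * (|B| + A * S.K) + 1) + S.K := by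
        rw [abs_le] at l3 ⊢; omega
      rw [e4]
      linarith

theorem Sys.core (B : ℤ) : ∃ C : ℕ, ∀ s s' n h c c' v v' b b' (sl : ℕ → ℤ) (δ : ℕ → Z2) ve ve' ω,
    S.PR s n h c v b → S.PR s' n h c' v' b' → (∀ j, δ (j + 1) = sl j • T.wv (bar (h j))) →
    (∀ j < n, δ j + v' j = v j + sl j • T.wv (h j)) → nrm (δ 0) ≤ B → δ n + ve' = ve + ω →
    nrm ω ≤ B → S.AE (st s h c n) ve → S.AE (st s' h c' n) ve' →
    nrm (δ n) ≤ C ∧ ∀ K Tl Tl', S.A.Ok Tl → S.A.Ok Tl' →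
      S.A.Close K Tl Tl' (T.vtx (svx (st s h c n)) (δ n)) →
      S.A.Close (K + C) (wd (wb h b) Tl n 0) (wd (wb h b') Tl' n 0) (T.vtx (svx s) (δ 0)) := by
  obtain ⟨C, hC⟩ := S.core0 B
  obtain ⟨C', hC'⟩ := S.blk_close C
  refine ⟨C' + 2 + C.toNat, ?_⟩
  intro s s' n h c c' v v' b b' sl δ ve ve' ω p p' e1 e2 b1 e3 b2 a a'
  obtain ⟨c1, c2, c3⟩ := hC s s' n h c c' v v' b b' sl δ ve ve' ω p p' e1 e2 b1 e3 b2 a a'
  refine ⟨(c1 n le_rfl).trans (by omega), fun K Tl Tl' o o' cl => ?_⟩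
  refine (wd_close (K := K + C' + 2) (fun j => T.vtx (svx (st s h c j)) (δ j)) o o' n 0
    (fun j _ q => ?_) (by rw [zero_add]; exact cl.mono (by omega))).mono ?_
  · have q : j < n := by omega
    have r := (p j q).2.2
    have r' := (p' j q).2.2
    rw [← (p' j q).1, (p j q).1] at r'
    refine ⟨p.ok q, p'.ok q, ((hC' _ _ _ _ _ _ _ _ r r' (c1 j q.le) (c2 j q)).tail (S.ok_inr _)
      (S.ok_inr _)).mono (by simp; omega), ?_⟩
    simp only [wb, Alph.ev_append, r.ev S, r'.ev S, Alph.ev_cons, Alph.ev_nil, mul_one, S.val_inr]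
    rw [← mul_assoc, ← T.vtx_add, e2 j q, T.vtx_add, e1, mul_assoc, mul_assoc, ← (p j q).1, T.slide]
    rfl
  · have : ((∑ j ∈ Finset.Ico 0 (0 + n), (((wb h b j).length : ℤ) - (wb h b' j).length).natAbs : ℕ)
        : ℤ) ≤ C := by
      rw [zero_add, ← Finset.range_eq_Ico]
      push_cast
      refine le_of_eq_of_le (Finset.sum_congr rfl fun j _ => ?_) c3
      simp [wb]
    omega

end Pool.Agent.Work.MP_0909b4_al
end

-- merged part: Pool.Agent.Work.MP_0909b4_al.FT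
section
/-! The fellow traveller property. -/

namespace Pool.Agent.Work.MP_0909b4_al

variable {V ι : Type} {T : Tub V ι} {E : Des T} [Finite ι] (S : Sys E)

lemma Alph.close_refl {α Γ : Type} [Group Γ] (A : Alph α Γ) (W : List α) : A.Close 0 W W 1 :=
  fun t => by simpa using Alph.short_one

omit [Finite ι] in
lemma wd_wb {h h' : ℕ → HE ι} {n : ℕ} (e : ∀ j < n, h' j = h j) (b : ℕ → List (Al V ι))
    (Tl : List (Al V ι)) : wd (wb h' b) Tl n 0 = wd (wb h b) Tl n 0 :=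
  wd_congr _ _ _ fun j _ q => by rw [wb, wb, e j (by omega)]

theorem Sys.ft_vtx (B : ℤ) : ∃ C : ℕ, ∀ s s' y y' W W' δ ω, svx s' = svx s → S.Route s y W →
    S.Route s' y' W' → nrm δ ≤ B → nrm ω ≤ B →
    T.vtx (svx s) δ * S.A.ev W' = S.A.ev W * T.vtx y ω → S.A.Close C W W' (T.vtx (svx s) δ) := by
  obtain ⟨C, hC⟩ := S.core B
  obtain ⟨C', hC'⟩ := S.blk_close (C + |B|)
  refine ⟨C' + C, ?_⟩
  rintro s s' _ _ _ _ δ0 ω es ⟨n, h, c, v, b, p, f, rfl, rfl⟩ ⟨n', h', c', v', b', p', f', -, rfl⟩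
    b1 b2 e
  rw [p.ev (f.2.ev S), p'.ev (f'.2.ev S), es, svx_st] at e
  obtain ⟨rfl, a2, sl, δ, rfl, a3, a4, a5⟩ := Tub.rel_of_eq E.wv_ne p.comp p.red p'.red e
  rw [st_congr s' c' a2 n' le_rfl] at f'
  rw [wd_wb a2]
  obtain ⟨c1, c2⟩ := hC s s' n' h c c' v v' b b' sl δ _ _ ω p (p'.congr fun j q => (a2 j q).symm)
    a3 a4 b1 a5 b2 (f.1.ae (by simp)) (f'.1.ae (by simp))
  have r' := f'.2
  rw [svx_st, es, ← svx_st s h c] at r'
  have := le_abs_self B
  have := abs_nonneg B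
  exact c2 _ _ _ (f.2.ok S) (r'.ok S) (hC' _ _ _ _ _ _ _ _ f.2 r' (by omega)
    (by rw [a5, add_sub_cancel_left]; omega))

lemma nat_zero (h : HE ι) : nat (E.R (T.src h)) 0 = 1 := by
  simpa using (nat_ray (E.fan _) (E.edge_mem h (Or.inl rfl)) 0).1

omit [Finite ι] in
lemma H_line (h : HE ι) (k r : ℤ) : ⌊E.H h k (r • T.wv h)⌋ = r := by
  have := floor_H_add (E := E) h k 0 r
  simpa [Des.H, -zsmul_eq_mul] using this

lemma Sys.near_all : ∃ C : ℤ, 0 ≤ C ∧ ∀ f, ∀ ε : ℤ, ε = 1 ∨ ε = -1 → ∀ v,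
    |E.H f (ε * E.L) v| ≤ S.K → ∃ σ, (σ = 1 ∨ σ = -1) ∧
      ∃ m : ℕ, nrm (v - (m : ℤ) • E.ry f (ε * E.L) σ) ≤ C := by
  obtain ⟨C, c0, hC⟩ := exists_unif (Set.finite_univ.prod ((Set.toFinite ({1, -1} : Set ℤ)).prod
    (Set.toFinite ({1, -1} : Set ℚ)))) (P := fun (q : HE ι × ℤ × ℚ) C => ∀ v,
      |(E.re q.1 v - E.t (T.src q.1) (q.2.1 * E.L) * |E.im q.1 v|)| ≤ S.K →
      -(S.K : ℚ) ≤ q.2.2 * E.im q.1 v →
      ∃ m : ℕ, nrm (v - (m : ℤ) • E.ry q.1 (q.2.1 * E.L) q.2.2) ≤ C)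
    (fun _ _ _ a b v c d => (b v c d).imp fun _ e => e.trans a)
    fun q h => E.near_ray h.2.2 (E.ry_ray _ _ _) _
  have : (1 : ℚ) ≤ S.K := by exact_mod_cast S.K1
  refine ⟨C, c0, fun f ε hε v a => ?_⟩
  rcases le_total 0 (E.im f v) with q | q
  · exact ⟨1, Or.inl rfl, hC (f, ε, 1) ⟨trivial, hε, Or.inl rfl⟩ v a (by simp only; linarith)⟩
  · exact ⟨-1, Or.inr rfl, hC (f, ε, -1) ⟨trivial, hε, Or.inr rfl⟩ v a (by simp only; linarith)⟩

lemma ext_blk (f : HE ι) {ε : ℤ} (hε : ε = 1 ∨ ε = -1) {σ : ℚ} (hσ : σ = 1 ∨ σ = -1) (m n : ℕ) :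
    Blk E (T.src f) ((m : ℤ) • E.ry f (ε * E.L) σ + (n : ℤ) • (ε * E.M f 0) • T.wv f + 0)
      (m + n + 1 + (0 : ℕ)) (bw (T.src f) (E.ry f (ε * E.L) σ) ((ε * E.M f 0) • T.wv f) m n 0 0) := by
  have := E.hL0
  exact ⟨_, _, m, n, 0, 0, ⟨E.ext_sector f hε hσ, E.bef_ext f (by rcases hε with rfl | rfl <;> omega)
    (by rcases hε with rfl | rfl <;> omega) hσ _, rfl, par_zero _ _⟩, rfl, rfl⟩

lemma Sys.close_slide (f : HE ι) (a a' : Z2) (r : ℤ) (n : ℕ) :
    S.A.Close 3 (bw (T.src f) a (r • T.wv f) 0 n 0 0)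
      (bw (T.src (bar f)) a' (r • T.wv (bar f)) 0 n 0 0) (T.edg f) := by
  have : S.A.Close 1 (List.replicate n (Sum.inl (T.src f, r • T.wv f)))
      (List.replicate n (Sum.inl (T.src (bar f), r • T.wv (bar f)))) (T.edg f) := fun t => by
    rw [List.take_replicate, List.take_replicate, S.ev_rep, S.ev_rep, smul_smul, smul_smul,
      ← T.slide, inv_mul_cancel_left]
    exact Alph.short_val (a := Sum.inr f) trivial
  exact this.tail (Alph.ok_single (S.ok_zero _)) (Alph.ok_single (S.ok_zero _))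

theorem Sys.tail2 (B : ℤ) : ∃ C : ℕ, ∀ s f d u w1 w2, ∀ r : ℤ, S.Step s f d u w1 →
    S.Fin (.inr (bar f, d)) (r • T.wv (bar f)) w2 → S.AE s (u + r • T.wv f) ∧
      ∀ v l W δ, Blk E (svx s) v l W → nrm δ ≤ B → nrm (δ + (u + r • T.wv f) - v) ≤ B →
        S.A.Close C W (w1 ++ [Sum.inr f] ++ w2) (T.vtx (svx s) δ) := by
  obtain ⟨C, c0, hC⟩ := S.near_all
  have K1 := S.K1
  have K2 : 0 ≤ S.K * S.K := by positivity
  obtain ⟨C', hC'⟩ := S.blk_close (|B| + C + S.K * S.K)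
  refine ⟨4 * C' + 7 + (S.K * (S.K * C + 1) + S.K).toNat, fun s f d u w1 w2 r p g => ?_⟩
  have B0 := le_abs_self B
  have B1 := abs_nonneg B
  have L0 := E.hL0
  have hL := E.hL
  by_cases r0 : r = 0
  · subst r0
    simp only [zero_smul, add_zero] at g ⊢
    refine ⟨p.2.1.1.ae (by simpa using p.1), fun v l W δ q b1 b2 => ?_⟩
    have l2 := g.2.length
    rw [show nat (E.R (svx (.inr (bar f, d)))) 0 = 1 from nat_zero (bar f)] at l2
    have := (hC' _ _ _ δ _ _ _ _ q p.2.2 (by omega) (by omega)).tail Alph.ok_nil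
      ((S.ok_inr f).append (g.2.ok S))
    rw [List.append_nil, ← List.append_assoc] at this
    exact this.mono (by simp only [List.length_append, List.length_singleton, List.length_nil]; omega)
  obtain ⟨ε, hε, m, rfl, hd⟩ : ∃ ε : ℤ, (ε = 1 ∨ ε = -1) ∧ ∃ m : ℕ, r = ε * m ∧ d = ε * E.L := by
    have a := g.1 _ _ rfl
    have a1 := (a (E.L - 1) ⟨by omega, by omega, by omega⟩).2
    have a2 := (a (1 - E.L) ⟨by omega, by omega, by omega⟩).1
    simp only [Sys.FO, H_line] at a1 a2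
    have := d.2.1
    have := d.2.2
    rcases lt_or_gt_of_ne r0 with q | q
    · exact ⟨-1, Or.inr rfl, r.natAbs, by omega, by omega⟩
    · exact ⟨1, Or.inl rfl, r.natAbs, by omega, by omega⟩
  have kL : Kc E.L 1 (ε * E.L) := by unfold Kc; rcases hε with rfl | rfl <;> omega
  have z : S.GO f s (ε * E.L) u = 0 := by
    have := p.2.1.2.1 _ kL
    simp only at this; omega
  refine ⟨?_, fun v l W δ q b1 b2 => ?_⟩
  · rintro e c rfl k hk
    obtain ⟨a1, a2⟩ := (S.cx e f p.1.symm).x2 ε hε k u m hk z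
    have := p.2.1.1 e c rfl k hk
    exact ⟨fun q => a1 (this.1 q), fun q => a2 (this.2 q)⟩
  have := Sys.go_close (S := S) p.1 _ u kL
  rw [z, Int.cast_zero, zero_sub, abs_neg] at this
  obtain ⟨σ, hσ, m0, n0⟩ := hC f ε hε u this
  obtain ⟨m1, n1⟩ : ∃ m1 : ℕ, |ε * m - m1 * (ε * E.M f 0)| ≤ S.K := by
    have M0 := E.M0 f
    have M1 := S.hM f 0 (by omega) (by omega)
    refine ⟨((m : ℤ) / E.M f 0).toNat, ?_⟩
    rw [Int.toNat_of_nonneg (by positivity)]
    have := Int.emod_add_ediv_mul m (E.M f 0)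
    have := Int.emod_nonneg m M0.ne'
    have := Int.emod_lt_of_pos m M0
    rw [abs_le]
    rcases hε with rfl | rfl <;> constructor <;> linarith
  have n2 := fun g => S.nrm_wv g n1
  have e := p.1
  have p2 := p.2.2
  have l1 := p.len
  rw [← e] at q p2 l1 ⊢
  have k0 := ext_blk (E := E) f hε hσ m0 m1
  have k1 := ext_blk (E := E) f hε hσ m0 0
  have k2 := ext_blk (E := E) f hε hσ 0 m1
  have k3 := ext_blk (E := E) (bar f) hε hσ 0 m1
  rw [E.Mbar] at k3
  have l2 := S.nat_lip (T.src f) n0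
  rw [(nat_ray (E.fan _) (E.ry_mem f kL.1 kL.2.1 hσ) m0).1] at l2
  generalize E.ry f (ε * E.L) σ = a at *
  have o : S.A.Ok (List.replicate m0 (Sum.inl (T.src f, a))) :=
    fun x hx => k0.ok S x (List.mem_append_left _ hx)
  have c1 := hC' _ _ _ δ _ _ _ _ q k0 (by omega) (by
    have := nrm_sub (δ + (u + (ε * m) • T.wv f) - v)
      (u - (m0 : ℤ) • a + (ε * m - m1 * (ε * E.M f 0)) • T.wv f)
    have := nrm_add (u - (m0 : ℤ) • a) ((ε * m - m1 * (ε * E.M f 0)) • T.wv f)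
    have := n2 f
    rw [show δ + ((m0 : ℤ) • a + (m1 : ℤ) • (ε * E.M f 0) • T.wv f + 0) - v =
      δ + (u + (ε * m) • T.wv f) - v - (u - (m0 : ℤ) • a + (ε * m - m1 * (ε * E.M f 0)) • T.wv f) by
        module]
    omega)
  have c2 := ((S.A.close_refl (List.replicate m0 (Sum.inl (T.src f, a)))).tail Alph.ok_nil
    (Alph.ok_single (S.ok_zero (T.src f))))
  rw [List.append_nil] at c2
  have c3 := (c2.trans (hC' _ _ _ 0 _ _ _ _ k1 p2 (by rw [nrm_zero]; omega)
    (by simp only [Nat.cast_zero, zero_smul, add_zero, zero_add]; omega))).tail Alph.ok_nil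
    (S.ok_inr f)
  rw [List.append_nil] at c3
  have c4 := ((hC' _ _ _ (u - (m0 : ℤ) • a) _ _ _ _ k2 k2 (by omega)
    (by rw [add_sub_cancel_right]; omega)).trans (S.close_slide f a _ _ m1)).trans
    (hC' _ _ _ 0 _ _ _ _ k3 g.2 (by rw [nrm_zero]; omega) (by
      have := n2 (bar f)
      rw [sub_smul, ← smul_smul (m1 : ℤ)] at this
      simp only [Nat.cast_zero, zero_smul, add_zero, zero_add]; omega))
  have c5 := c1.trans ((c3.mono (K' := 3 * C' + 5) (by simp; omega)).app (by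
    simp only [Alph.ev_append, p2.ev S, S.ev_rep, T.vtx_zero, mul_one, one_mul, Alph.ev_cons,
      Alph.ev_nil, S.val_inr]
    rw [← mul_assoc, ← T.vtx_add, add_sub_cancel]) (c4.mono (K' := 3 * C' + 5) (by omega)) (k0.ok S)
      (((p2.ok S).append (S.ok_inr f)).append (g.2.ok S)))
  rw [T.vtx_zero, mul_one, mul_one] at c5
  refine c5.mono ?_
  simp only [List.length_append, List.length_singleton, List.length_replicate]
  rw [abs_le] at l2
  omega

theorem Sys.ft_rext : ∃ C : ℕ, ∀ s n h c v b n' h' c' v' b' f, S.PR s n h c v b →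
    S.Fin (st s h c n) (v n) (b n) → S.PR s n' h' c' v' b' → S.Fin (st s h' c' n') (v' n') (b' n') →
    T.src f = svx (st s h c n) →
    S.A.ev (wd (wb h' b') (b' n') n' 0) = S.A.ev (wd (wb h b) (b n) n 0) * T.edg f →
    S.A.Close C (wd (wb h b) (b n) n 0) (wd (wb h' b') (b' n') n' 0) 1 ∨ n = n' + 1 := by
  obtain ⟨C, hC⟩ := S.core 0
  obtain ⟨C', hC'⟩ := S.tail2 C
  refine ⟨C' + C, fun s n h c v b n' h' c' v' b' f p g p' g' hf e => ?_⟩
  have rs := Sys.Route.rsq p' g' rfl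
  rw [e, p.ev (g.2.ev S)] at rs
  rw [p.ev (g.2.ev S), p'.ev (g'.2.ev S)] at e
  rcases Tub.rext p.comp p.red (hf.trans (svx_st s h c n)) with
    ⟨h2, v2, a1, a2, a3, a4, a5, a6, a7⟩ | ⟨m, rfl, a⟩
  swap
  · exact Or.inr (by rw [rs.uniq E.wv_ne a])
  left
  obtain ⟨rfl, b2, sl, δ, b3, b4, b5, b6⟩ := Tub.rel_of_eq E.wv_ne (δ0 := 0) (ω := 0) a5 a6 p'.red
    (by rw [e, a7]; simp)
  have e1 : ∀ j < n, h j = h' j := fun j q => (a1 j q).symm.trans (b2 j (by omega)).symm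
  have e2 : ∀ j, j < n + 1 → h2 j = h' j := fun j q => (b2 j q).symm
  rw [a4, add_zero, b4, e2 n (by omega), add_eq_zero_iff_neg_eq, ← neg_smul] at b6
  rw [← b6] at g'
  obtain ⟨t1, t2⟩ := hC' _ _ _ _ _ _ _ (p' n (by omega)) g'
  rw [st_congr s c e1 n le_rfl] at g
  have e3 : δ n + (v' n + -sl n • T.wv (h' n)) = v n + 0 := by
    rw [← add_assoc, b5 n (by omega), a3 n le_rfl, e2 n (by omega)]; module
  obtain ⟨c1, c2⟩ := hC s s n h' c c' v v' b b' sl
    (fun j => if j ≤ n then δ j else sl (j - 1) • T.wv (bar (h' (j - 1)))) (v n) _ 0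
    (p.congr fun j q => (e1 j q).symm) (fun j q => p' j (by omega))
    (fun j => by
      split_ifs with q
      · rw [b4, e2 j (by omega)]
      · rfl)
    (fun j q => by rw [if_pos q.le, b5 j (by omega), a3 j q.le, e2 j (by omega)])
    (by simp [b3, nrm_zero]) (by rw [if_pos le_rfl, e3]) (by rw [nrm_zero]) (g.1.ae (by simp)) t1
  simp only [le_refl, if_true, zero_le, b3, T.vtx_zero] at c1 c2
  have r := g.2
  rw [svx_st, ← svx_st s h' c'] at r c2
  rw [wd_wb e1, wd_snoc, zero_add]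
  exact c2 _ _ _ (r.ok S) ((p'.ok (by omega)).append (g'.2.ok S))
    (t2 _ _ _ _ r c1 (by rw [e3]; simp [nrm_zero]))

theorem Sys.ft_redg : ∃ C : ℕ, ∀ s W W' f, S.Route s (T.src f) W → S.Route s (T.src (bar f)) W' →
    S.A.ev W' = S.A.ev W * T.edg f → S.A.Close C W W' 1 := by
  obtain ⟨C, hC⟩ := S.ft_rext
  refine ⟨C, ?_⟩
  rintro s _ _ f ⟨n, h, c, v, b, p, g, e1, rfl⟩ ⟨n', h', c', v', b', p', g', e2, rfl⟩ e
  rcases hC s n h c v b n' h' c' v' b' f p g p' g' e1.symm e with a | a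
  · exact a
  rcases hC s n' h' c' v' b' n h c v b (bar f) p' g' p g e2.symm
    (by rw [e, T.edg_bar, mul_inv_cancel_right]) with a' | a'
  · simpa using a'.symm
  · omega

theorem Sys.ft_lext : ∃ C : ℕ, ∀ f n h c v b n' h' c' v' b',
    S.PR (.inl (T.src (bar f))) n h c v b → S.Fin (st (.inl (T.src (bar f))) h c n) (v n) (b n) →
    S.PR (.inl (T.src f)) n' h' c' v' b' → S.Fin (st (.inl (T.src f)) h' c' n') (v' n') (b' n') →
    S.A.ev (wd (wb h' b') (b' n') n' 0) = T.edg f * S.A.ev (wd (wb h b) (b n) n 0) →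
    S.A.Close C (wd (wb h' b') (b' n') n' 0) (wd (wb h b) (b n) n 0) (T.edg f) ∨ n = n' + 1 := by
  obtain ⟨C, hC⟩ := S.ft_vtx 0
  refine ⟨C + 5, fun f n h c v b n' h' c' v' b' p g p' g' e => ?_⟩
  have rs := Sys.Route.rsq p' g' rfl
  have e0 := e
  rw [e, p.ev (g.2.ev S)] at rs
  rw [p.ev (g.2.ev S), p'.ev (g'.2.ev S)] at e
  rcases Tub.lext p.comp p.red with ⟨h2, v2, a1, -, a3, -, a5, a6, a7⟩ | ⟨m, y, rfl, a⟩
  swap
  · exact Or.inr (by rw [rs.uniq E.wv_ne a])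
  left
  obtain ⟨rfl, b2, sl, δ, b3, -, b5, -⟩ := Tub.rel_of_eq E.wv_ne (δ0 := 0) (ω := 0) a5 a6 p'.red
    (by rw [← a7, T.vtx_zero, T.vtx_zero, one_mul, mul_one]; exact e)
  have e1 : h' 0 = f := (b2 0 (by omega)).trans a1
  have e2 := b5 0 (by omega)
  rw [b3, zero_add, a3, zero_add, a1] at e2
  obtain ⟨-, ⟨-, i, -⟩, k⟩ := p' 0 (by omega)
  have L0 := E.hL0
  have hL := E.hL
  have i1 := (i E.L ⟨by omega, le_rfl, hL⟩).2 (c' 0).2.2
  have i2 := (i (-E.L) ⟨le_rfl, by omega, by omega⟩).1 (c' 0).2.1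
  simp only [Sys.GO, st, e1, e2, H_line] at i1 i2
  rw [show sl 0 = 0 by omega, zero_smul] at e2
  have l := k.length
  have ev := k.ev S
  rw [e2] at l ev
  rw [show S.LO (h' 0) (st (.inl (T.src f)) h' c' 0) 0 = 1 from nat_zero f] at l
  rw [T.vtx_zero] at ev
  have ev' : S.A.ev (wb h' b' 0) = T.edg f := by simp [wb, ev, e1]
  rw [wd, wd_shift] at e0 ⊢
  rw [Alph.ev_append, ev', mul_right_inj] at e0
  rw [st_shift] at g'
  have r' : S.Route _ _ _ := ⟨n, _, _, _, _, p'.shift, g', rfl, rfl⟩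
  have r : S.Route _ _ _ := ⟨n, _, _, _, _, p, g, rfl, rfl⟩
  have c1 := hC _ _ _ _ _ _ 0 0 (by rw [e1]; rfl) r' r (by rw [nrm_zero]) (by rw [nrm_zero])
    (by rw [T.vtx_zero, T.vtx_zero, one_mul, mul_one]; exact e0.symm)
  rw [T.vtx_zero] at c1
  have c2 : S.A.Close 1 [] [] (T.edg f) := fun t => by
    simpa using Alph.short_val (A := S.A) (a := Sum.inr f) trivial
  have c3 := c2.tail (p'.ok (j := 0) (by omega)) Alph.ok_nil
  have l' : (wb h' b' 0).length = 2 := by simp [wb]; omega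
  rw [List.nil_append, l'] at c3
  exact ((c3.mono (K' := C + 3) (by simp)).app (by simp [ev']) (c1.mono (by omega))
    ((p'.ok (by omega)).append r'.ok) r.ok).mono (by rw [l']; simp)

theorem Sys.ft_ledg : ∃ C : ℕ, ∀ y W W' f, S.Route (.inl (T.src (bar f))) y W →
    S.Route (.inl (T.src f)) y W' → S.A.ev W' = T.edg f * S.A.ev W → S.A.Close C W' W (T.edg f) := by
  obtain ⟨C, hC⟩ := S.ft_lext
  refine ⟨C, ?_⟩
  rintro y _ _ f ⟨n, h, c, v, b, p, g, -, rfl⟩ ⟨n', h', c', v', b', p', g', -, rfl⟩ e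
  rcases hC f n h c v b n' h' c' v' b' p g p' g' e with a | a
  · exact a
  rcases hC (bar f) n' h' c' v' b' n h c v b (by rwa [bar_bar]) (by rwa [bar_bar]) p g
    (by rw [e, T.edg_bar, inv_mul_cancel_left]) with a' | a'
  · simpa [T.edg_bar] using a'.symm
  · omega

theorem Sys.ft_right [Nonempty ι] {y' y : V} {g : T.F} (p : T.IsPath y' g y) : ∃ C : ℕ, ∀ x W W',
    S.Route (.inl x) y' W → S.Route (.inl x) y W' → S.A.ev W' = S.A.ev W * g →
    S.A.Close C W W' 1 := by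
  obtain ⟨C1, h1⟩ := S.ft_vtx 1
  obtain ⟨C2, h2⟩ := S.ft_redg
  have k : ∀ x y W W' z, S.Route (.inl x) y W → S.Route (.inl x) y W' → nrm z ≤ 1 →
      S.A.ev W' = S.A.ev W * T.vtx y z → S.A.Close C1 W W' 1 := fun x y W W' z r r' a e => by
    simpa using h1 _ _ _ _ _ _ 0 z rfl r r' (by simp [nrm_zero]) a (by simpa using e)
  refine Tub.IsPath.ind (g := g) (y := y) (P := fun g y => ∃ C : ℕ, ∀ x W W', S.Route (.inl x) y' W →
    S.Route (.inl x) y W' → S.A.ev W' = S.A.ev W * g → S.A.Close C W W' 1) ?_ ?_ ?_ p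
  · exact ⟨C1, fun x W W' r r' e => k x _ W W' 0 r r' (by simp [nrm_zero]) (by simpa using e)⟩
  · rintro g y z p ⟨C, hC⟩ a
    refine ⟨C + C1, fun x W W' r r' e => ?_⟩
    obtain ⟨U, u, eu⟩ := S.exists_route (r.path.trans p)
    simpa using (hC x W U r u eu).trans (k x y U W' z u r' a (by rw [e, eu, mul_assoc]))
  · rintro g f p ⟨C, hC⟩
    refine ⟨C + C2, fun x W W' r r' e => ?_⟩
    obtain ⟨U, u, eu⟩ := S.exists_route (r.path.trans p)
    simpa using (hC x W U r u eu).trans (h2 _ U W' f u r' (by rw [e, eu, mul_assoc]))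

theorem Sys.ft_left [Nonempty ι] {x x' : V} {g : T.F} (p : T.IsPath x g x') : ∃ C : ℕ, ∀ y W W',
    S.Route (.inl x) y W → S.Route (.inl x') y W' → S.A.ev W = g * S.A.ev W' →
    S.A.Close C W W' g := by
  obtain ⟨C1, h1⟩ := S.ft_vtx 1
  obtain ⟨C2, h2⟩ := S.ft_ledg
  have k : ∀ x y W W' z, S.Route (.inl x) y W → S.Route (.inl x) y W' → nrm z ≤ 1 →
      S.A.ev W = T.vtx x z * S.A.ev W' → S.A.Close C1 W W' (T.vtx x z) :=
    fun x y W W' z r r' a e =>
      h1 (.inl x) (.inl x) y y W W' z 0 rfl r r' a (by simp [nrm_zero]) (by rw [T.vtx_zero, mul_one]; exact e.symm)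
  refine Tub.IsPath.ind (g := g) (y := x') (P := fun g x' => ∃ C : ℕ, ∀ y W W', S.Route (.inl x) y W →
    S.Route (.inl x') y W' → S.A.ev W = g * S.A.ev W' → S.A.Close C W W' g) ?_ ?_ ?_ p
  · exact ⟨C1, fun y W W' r r' e => by
      simpa using k x _ W W' 0 r r' (by simp [nrm_zero]) (by simpa using e)⟩
  · rintro g x' z p ⟨C, hC⟩ a
    refine ⟨C + C1, fun y W W' r r' e => ?_⟩
    obtain ⟨U, u, eu⟩ := S.exists_route ((T.path_vtx x' z).trans r'.path)
    exact (hC y W U r u (by rw [e, eu, mul_assoc])).trans (k x' y U W' z u r' a eu)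
  · rintro g f p ⟨C, hC⟩
    refine ⟨C + C2, fun y W W' r r' e => ?_⟩
    obtain ⟨U, u, eu⟩ := S.exists_route ((T.path_edg f).trans r'.path)
    exact (hC y W U r u (by rw [e, eu, mul_assoc])).trans (h2 y W' U f r' u eu)

theorem Sys.ft [Nonempty ι] {x : V} {a b : T.F} (p : T.IsPath x a x) (q : T.IsPath x b x) :
    ∃ C : ℕ, ∀ W W', S.Route (.inl x) x W → S.Route (.inl x) x W' →
      S.A.ev W = a * S.A.ev W' * b → S.A.Close C W W' a := by
  obtain ⟨C1, h1⟩ := S.ft_left p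
  obtain ⟨C2, h2⟩ := S.ft_right q
  refine ⟨C1 + C2, fun W W' r r' e => ?_⟩
  obtain ⟨U, u, eu⟩ := S.exists_route (r'.path.trans q)
  simpa using (h1 x W U r u (by rw [e, eu, mul_assoc])).trans (h2 x W' U r' u eu).symm

end Pool.Agent.Work.MP_0909b4_al
end

-- merged part: Pool.Agent.Work.MP_0909b4_al.Main
section
/-! Retraction onto the fundamental group and the main theorem. -/

namespace Pool.Agent.Work.MP_0909b4_al

variable {V ι : Type} (T : Tub V ι)

theorem Tub.exists_retr (x0 : V) : ∃ ρ : T.F →* T.pi1 x0, ∀ g, T.IsPath x0 g x0 → (ρ g : T.F) = g := by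
  classical
  have : ∀ x, ∃ γ : T.F, ((∃ g, T.IsPath x0 g x) → T.IsPath x0 γ x) ∧ (x = x0 → γ = 1) := by
    intro x
    by_cases c : x = x0
    · exact ⟨1, fun _ => c ▸ .nil, fun _ => rfl⟩
    · by_cases q : ∃ g, T.IsPath x0 g x
      · exact ⟨q.choose, fun _ => q.choose_spec, fun r => absurd r c⟩
      · exact ⟨1, fun r => absurd r q, fun _ => rfl⟩
  choose γ h1 h2 using this
  let r : V → T.F →* T.F := fun x =>
    if ∃ g, T.IsPath x0 g x then (MulAut.conj (γ x)).toMonoidHom else 1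
  let φ : Gen V ι → T.F := Sum.elim (fun q => r q.1 (PresentedGroup.of (Sum.inl q))) fun i =>
    if ∃ g, T.IsPath x0 g (T.o i) then γ (T.o i) * PresentedGroup.of (Sum.inr i) * (γ (T.d i))⁻¹ else 1
  have e1 : ∀ x v, FreeGroup.lift φ (vecF x v) = r x (T.vtx x v) := fun x v => by
    simp [vecF, T.vtx_eq, φ]
  have e2 : ∀ i, (∃ g, T.IsPath x0 g (T.d i)) ↔ ∃ g, T.IsPath x0 g (T.o i) := fun i =>
    ⟨fun ⟨_, p⟩ => ⟨_, p.edgeInv i⟩, fun ⟨_, p⟩ => ⟨_, p.edge i⟩⟩
  let ρ : T.F →* T.F := PresentedGroup.toGroup (f := φ) (by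
    rintro _ (⟨x, rfl⟩ | ⟨i, rfl⟩)
    · simp only [map_mul, map_inv, e1]
      rw [mul_inv_eq_one, mul_inv_eq_iff_eq_mul, ← map_mul, ← map_mul, ← T.vtx_add, ← T.vtx_add,
        add_comm]
    · simp only [map_mul, map_inv, e1, FreeGroup.lift_apply_of, φ, r, Sum.elim_inr, e2]
      have := T.slide (i, true) 1
      simp only [one_smul, Tub.src, Tub.wv, Tub.edg, bar, if_true, Bool.not_true,
        Bool.false_eq_true, if_false] at this
      split_ifs
      · simp [mul_assoc, eq_mul_inv_of_mul_eq this]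
      · simp)
  have e3 : ∀ a, ρ (PresentedGroup.of a) = φ a := fun a => PresentedGroup.toGroup.of _
  have e4 : ∀ g, ρ g ∈ T.pi1 x0 := by
    intro g
    have hg : g ∈ Subgroup.closure (Set.range (PresentedGroup.of : Gen V ι → T.F)) := by
      rw [PresentedGroup.closure_range_of]; trivial
    induction hg using Subgroup.closure_induction with
    | mem _ q =>
      obtain ⟨⟨x, b⟩ | i, rfl⟩ := q
      · simp only [e3, φ, r, Sum.elim_inl]
        split_ifs with c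
        · exact Subgroup.subset_closure (((h1 x c).vert b).trans (h1 x c).inv)
        · exact one_mem _
      · simp only [e3, φ, Sum.elim_inr]
        split_ifs with c
        · exact Subgroup.subset_closure (((h1 _ c).edge i).trans (h1 _ ((e2 i).2 c)).inv)
        · exact one_mem _
    | one => rw [map_one]; exact one_mem _
    | mul _ _ _ _ a b => rw [map_mul]; exact mul_mem a b
    | inv _ _ a => rw [map_inv]; exact inv_mem a
  have e5 : ∀ g y, T.IsPath x0 g y → ρ g = g * (γ y)⁻¹ := by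
    intro g y p
    induction p with
    | nil => simp [h2 x0 rfl]
    | @vert _ y b p ih =>
      have q : ∃ g, T.IsPath x0 g y := ⟨_, p⟩
      simp [ih, e3, φ, r, q, mul_assoc]
    | @vertInv _ y b p ih =>
      have q : ∃ g, T.IsPath x0 g y := ⟨_, p⟩
      simp [ih, e3, φ, r, q, mul_assoc]
    | edge i p ih =>
      have q : ∃ g, T.IsPath x0 g (T.o i) := ⟨_, p⟩
      simp [ih, e3, φ, q, mul_assoc]
    | edgeInv i p ih =>
      have q : ∃ g, T.IsPath x0 g (T.o i) := (e2 i).1 ⟨_, p⟩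
      simp [ih, e3, φ, q, mul_assoc]
  exact ⟨ρ.codRestrict _ e4, fun g p => by simp [e5 g x0 p, h2 x0 rfl]⟩

theorem biaut_of {α Γ G : Type} [Group Γ] [Group G] (A : Alph α Γ) (hA : {a | A.ok a}.Finite)
    (ρ : Γ →* G) (L : Language α) (hL : L.IsRegular) (ho : ∀ w ∈ L, A.Ok w)
    (hs : ∀ g, ∃ w ∈ L, ρ (A.ev w) = g)
    (hf : ∀ a b : G, ∃ C : ℕ, ∃ a', ρ a' = a ∧ ∀ u ∈ L, ∀ v ∈ L,
      ρ (A.ev u) = a * ρ (A.ev v) * b → A.Close C u v a') : IsBiautomatic G := by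
  classical
  let S : Finset G := (hA.image fun a => ρ (A.val a)).toFinset
  have mS : ∀ g, g ∈ S ↔ ∃ a, A.ok a ∧ ρ (A.val a) = g := fun g => by simp [S]
  have lift : ∀ u, A.Ok u → ∃ w : List S, w.map Subtype.val = u.map fun a => ρ (A.val a) := by
    intro u
    induction u with
    | nil => exact fun _ => ⟨[], rfl⟩
    | cons a u ih =>
      intro o
      obtain ⟨w, e⟩ := ih fun b hb => o b (by simp [hb])
      exact ⟨⟨_, (mS _).2 ⟨a, o a (by simp), rfl⟩⟩ :: w, by simp [e]⟩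
  have ev : ∀ (w : List S) (u : List α), (w.map Subtype.val = u.map fun a => ρ (A.val a)) → ∀ t,
      evalWord (w.take t) = ρ (A.ev (u.take t)) := fun w u e t => by
    rw [evalWord, Alph.ev, map_list_prod, List.map_map, List.map_take, List.map_take, e]; rfl
  have ev' : ∀ (w : List S) (u : List α), (w.map Subtype.val = u.map fun a => ρ (A.val a)) →
      evalWord w = ρ (A.ev u) := fun w u e => by
    rw [evalWord, Alph.ev, map_list_prod, List.map_map, e]; rfl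
  obtain ⟨C, -, hC⟩ := exists_unif ((S.finite_toSet.insert 1).prod (S.finite_toSet.insert 1))
    (P := fun q C => ∃ a', ρ a' = q.1 ∧ ∀ u ∈ L, ∀ v ∈ L,
      ρ (A.ev u) = q.1 * ρ (A.ev v) * q.2 → A.Close C.toNat u v a')
    (fun _ _ _ a b => b.imp fun _ c => ⟨c.1, fun u hu v hv e => (c.2 u hu v hv e).mono (by omega)⟩)
    fun q _ => by
      obtain ⟨C, hC⟩ := hf q.1 q.2
      exact ⟨C, hC⟩
  refine ⟨S, _, C.toNat, fun s hs => ?_, reg_image (fun a => ρ (A.val a)) Subtype.val hL,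
    fun g => ?_, ?_⟩
  · obtain ⟨a, a1, rfl⟩ := (mS s).1 hs
    obtain ⟨b, b1, b2⟩ := A.inv a a1
    exact (mS _).2 ⟨b, b1, by rw [b2, map_inv]⟩
  · obtain ⟨u, hu, rfl⟩ := hs g
    obtain ⟨w, e⟩ := lift u (ho u hu)
    exact ⟨w, ⟨u, hu, e⟩, ev' w u e⟩
  · rintro w ⟨u, hu, e⟩ w' ⟨u', hu', e'⟩ a b ha hb q t
    rw [ev' w u e, ev' w' u' e'] at q
    obtain ⟨a', rfl, k⟩ := hC (a, b) ⟨ha.symm, hb.symm⟩
    obtain ⟨z, z1, z2, z3⟩ := k u hu u' hu' q t
    obtain ⟨y, ey⟩ := lift z z1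
    refine ⟨y, le_of_eq_of_le (by simpa using congrArg List.length ey) z2, ?_⟩
    rw [ev w u e, ev w' u' e', ev' y z ey, z3]
    simp

theorem Tub.biautomatic [Finite V] [Finite ι] [Nonempty ι] (E : Des T) (x0 : V) :
    IsBiautomatic (T.pi1 x0) := by
  obtain ⟨S⟩ := exists_sys E
  obtain ⟨ρ, hρ⟩ := T.exists_retr x0
  refine biaut_of S.A ?_ ρ _ (S.reg_route (.inl x0) x0) (fun w hw => hw.ok) (fun g => ?_)
    fun a b => ?_
  · refine (((Set.finite_univ.prod (ball_finite (2 * S.K))).image Sum.inl).union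
      (Set.finite_range Sum.inr)).subset ?_
    rintro (⟨x, d⟩ | h) q
    exacts [Or.inl ⟨(x, d), ⟨trivial, q⟩, rfl⟩, Or.inr ⟨h, rfl⟩]
  · obtain ⟨W, r, e⟩ := S.exists_route (Tub.path_of_mem g.2)
    exact ⟨W, r, Subtype.ext (by rw [hρ _ r.path, e])⟩
  · obtain ⟨C, hC⟩ := S.ft (Tub.path_of_mem a.2) (Tub.path_of_mem b.2)
    refine ⟨C, a, Subtype.ext (hρ _ (Tub.path_of_mem a.2)), fun u hu v hv e => hC u v hu hv ?_⟩
    have := congrArg Subtype.val e
    rwa [Subgroup.coe_mul, Subgroup.coe_mul, hρ _ hu.path, hρ _ hv.path] at this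

end Pool.Agent.Work.MP_0909b4_al
end
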