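import Pool.Agent.Work.MP_0909b4_al.Defs

/-! Statement-level definitions: piecewise Euclidean 2-complexes and CAT(0) spaces. -/

namespace Pool.Agent.Work.MP_0909b4_al.NA

/-- A piecewise Euclidean simplicial complex of dimension at most 2 with finitely many shapes:
every simplex has a chart realising it as a nondegenerate simplex of the Euclidean plane `ℂ`, and
the charts give common edges the same length. -/
structure PECx where
  V : Type
  faces : Set (Finset V)
  nonempty : ∀ σ ∈ faces, σ.Nonempty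
  down : ∀ σ ∈ faces, ∀ τ ⊆ σ, τ.Nonempty → τ ∈ faces
  dim : ∀ σ ∈ faces, σ.card ≤ 3
  chart : Finset V → V → ℂ
  indep : ∀ σ ∈ faces, AffineIndependent ℝ (fun v : σ => chart σ v)
  compat : ∀ σ ∈ faces, ∀ τ ∈ faces, ∀ v w, v ∈ σ → w ∈ σ → v ∈ τ → w ∈ τ →
    dist (chart σ v) (chart σ w) = dist (chart τ v) (chart τ w)
  shapes : {r | ∃ σ ∈ faces, ∃ v ∈ σ, ∃ w ∈ σ, r = dist (chart σ v) (chart σ w)}.Finite

/-- points of the geometric realisation, in barycentric coordinates -/
structure PECx.Pt (K : PECx) : Type where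
  co : K.V →₀ ℝ
  nonneg : ∀ v, 0 ≤ co v
  sum_one : ∑ v ∈ co.support, co v = 1
  mem : co.support ∈ K.faces

/-- the image of a point in the chart of the simplex `σ` -/
noncomputable def PECx.img (K : PECx) (σ : Finset K.V) (x : K.Pt) : ℂ :=
  ∑ v ∈ σ, x.co v • K.chart σ v

/-- `Chain x y r`: a finite string of points from `x` to `y`, consecutive ones in a common simplex,
of total Euclidean length `r` -/
inductive PECx.Chain (K : PECx) : K.Pt → K.Pt → ℝ → Prop
  | nil (x : K.Pt) : K.Chain x x 0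
  | cons {x y z : K.Pt} {r : ℝ} (σ : Finset K.V) : σ ∈ K.faces → x.co.support ⊆ σ →
      y.co.support ⊆ σ → K.Chain y z r → K.Chain x z (dist (K.img σ x) (K.img σ y) + r)

/-- the induced length metric -/
noncomputable def PECx.d (K : PECx) (x y : K.Pt) : ℝ := sInf {r | K.Chain x y r}

/-- a constant speed geodesic from `x` to `y`, parametrised by `[0,1]` -/
def IsGeod {X : Type} [MetricSpace X] (c : ℝ → X) (x y : X) : Prop :=
  c 0 = x ∧ c 1 = y ∧
    ∀ s ∈ Set.Icc (0 : ℝ) 1, ∀ t ∈ Set.Icc (0 : ℝ) 1, dist (c s) (c t) = |s - t| * dist x y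

/-- complete, geodesic, and geodesic triangles are no fatter than their comparison triangles -/
def IsCAT0 (X : Type) [MetricSpace X] : Prop :=
  CompleteSpace X ∧ (∀ x y : X, ∃ c, IsGeod c x y) ∧
    ∀ (p q r : X) (c c' : ℝ → X) (P Q R : ℂ), IsGeod c p q → IsGeod c' p r →
      dist P Q = dist p q → dist P R = dist p r → dist Q R = dist q r →
      ∀ s ∈ Set.Icc (0 : ℝ) 1, ∀ t ∈ Set.Icc (0 : ℝ) 1,
        dist (c s) (c' t) ≤ dist (P + s • (Q - P)) (P + t • (R - P))

end Pool.Agent.Work.MP_0909b4_al.NA
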