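import Pool.Agent.Work.MP_0909b4_al.NAData

/-! Checked facts on the tables, I: single loops. -/

namespace Pool.Agent.Work.MP_0909b4_al.NA.Dat

def Dx (k : Fin 21) : ℤ := Vx (nx k) - Vx k
def Dy (k : Fin 21) : ℤ := Vy (nx k) - Vy k
/-- the cross product of integer vectors -/
def cr (a b c d : ℤ) : ℤ := a * d - b * c
def Hx (k : Fin 21) : ℤ := cr (Dx k) (Dy k) (Cx (cty k) - Vx k) (Cy (cty k) - Vy k)
def key (d : Fin 521) : ℤ := (dpar d).val * 1000000 + (PVx d + 128) * 1000 + (PVy d + 128)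

theorem f_co : ∀ k, cty (nx k) = cty k ∧ nx (pv k) = k ∧ pv (nx k) = k ∧ nx (nx k) ≠ k ∧
    (Vx k - Cx (cty k)) ^ 2 + (Vy k - Cy (cty k)) ^ 2 = rr (cty k) ∧ 400 ≤ Dx k ^ 2 + Dy k ^ 2 ∧
    (cty k = 5 → Dx k ^ 2 + Dy k ^ 2 = 1600 ∧ Hx k = 800) := by decide +kernel

theorem f_cyc : ∀ k k', cty k = cty k' → (∃ n < 4, nx^[n] k = k') ∧
    (k' ≠ k → k' ≠ nx k → 0 < cr (Dx k) (Dy k) (Vx k' - Vx k) (Vy k' - Vy k)) := by decide +kernel

theorem f_ty : ∀ t, (∃ k, cty k = t) ∧ rr t ≤ 800 ∧ par (r1 t) = t ∧ par (r2 t) = ty (r1 t) ∧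
    par (r3 t) = ty (r2 t) ∧ ty (r3 t) = 5 := by decide +kernel

theorem f_ch : ∀ j, Ax j ^ 2 + Ay j ^ 2 = 25 ∧ cty (da j) = par j ∧ cty (db j) = par j ∧
    5 * PCx j = Ax j * Cx (ty j) - Ay j * Cy (ty j) + 5 * Bx j ∧
    5 * PCy j = Ax j * Cy (ty j) + Ay j * Cx (ty j) + 5 * By j ∧
    clo (par j) ≤ j.val ∧ j.val < clo (par j) + 37 := by decide +kernel

theorem f_dart : ∀ j k, cty k = ty j → dch (dart j k) = j ∧ dco (dart j k) = k := by
  decide +kernel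

theorem f_d : ∀ d, cty (dco d) = ty (dch d) ∧ dart (dch d) (dco d) = d ∧
    nxd d = dart (dch d) (nx (dco d)) ∧ pvd d = dart (dch d) (pv (dco d)) ∧ dpar d = par (dch d) ∧
    vnx d = (if isB (pvd d) = true then st d else opp (pvd d)) ∧
    5 * PVx d = Ax (dch d) * Vx (dco d) - Ay (dch d) * Vy (dco d) + 5 * Bx (dch d) ∧
    5 * PVy d = Ax (dch d) * Vy (dco d) + Ay (dch d) * Vx (dco d) + 5 * By (dch d) ∧
    first (dch d) ≤ d.val ∧ d.val < first (dch d) + 4 := by decide +kernel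

theorem f_opp : ∀ d, isB d = false → isB (opp d) = false ∧ opp (opp d) = d ∧
    dpar (opp d) = dpar d ∧ PVx (opp d) = PVx (nxd d) ∧ PVy (opp d) = PVy (nxd d) ∧
    left (opp d) = (!left d) ∧ 0 < Hx (dco d) + Hx (dco (opp d)) := by decide +kernel

theorem f_bd : ∀ k p, isB (bd k p) = true ∧ bs (bd k p) = k ∧ bp (bd k p) = p ∧
    dpar (bd k p) = cty k ∧ PVx (bd k p) = 5 * Vx k + p.val * Dx k ∧
    PVy (bd k p) = 5 * Vy k + p.val * Dy k ∧ PVx (nxd (bd k p)) = 5 * Vx k + (p.val + 1) * Dx k ∧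
    PVy (nxd (bd k p)) = 5 * Vy k + (p.val + 1) * Dy k ∧
    PCx (dch (bd k p)) = Cx (cty k) + 4 * Vx k + p.val * Dx k ∧
    PCy (dch (bd k p)) = Cy (cty k) + 4 * Vy k + p.val * Dy k ∧
    (p ≠ 0 → p ≠ 4 → da (dch (bd k p)) = k ∧ db (dch (bd k p)) = nx k) := by decide +kernel

theorem f_cor : ∀ k, pvd (bd k 0) = bd (pv k) 4 ∧ dco (bd (dco (bd k 0)) 0) = dco (bd k 0) ∧
    Ax (dch (bd (dco (bd k 0)) 0)) = 5 ∧ Ay (dch (bd (dco (bd k 0)) 0)) = 0 ∧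
    da (dch (bd k 0)) = k ∧ db (dch (bd k 0)) = k := by decide +kernel

theorem f_B : ∀ d, isB d = true → bd (bs d) (bp d) = d ∧ st d = d ∧
    (isB (pvd d) = true → bp d = 0) := by decide +kernel

theorem f_st : ∀ d, st (st d) = st d ∧ dpar (st d) = dpar d ∧ PVx (st d) = PVx d ∧
    PVy (st d) = PVy d ∧ ord (vid d) = st d ∧ (isB (st d) = true → bp (st d) = 0 → st d = d) ∧
    (isB (st d) = true → bp (st d) ≠ 0 → da (dch d) = bs (st d) ∨ da (dch d) = nx (bs (st d)) ∨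
      db (dch d) = bs (st d) ∨ db (dch d) = nx (bs (st d))) ∧
    (dch d = 144 → isB (st d) = false) := by decide +kernel

theorem f_ord : ∀ i : Fin 173, key (ord i.castSucc) < key (ord i.succ) := by decide +kernel

theorem f_vcyc : ∀ d, (∃ n < 8, vnx^[n] d = st d) ∧ ∃ n < 8, vnx^[n] (st d) = d := by
  decide +kernel

theorem f_two : ∀ d, ¬(isB d = true ∧ bp d = 0) → vnx (vnx d) = d →
    (isB d = true ∨ isB (pvd d) = true) ∧
      Dx (dco d) * Dx (pv (dco d)) + Dy (dco d) * Dy (pv (dco d)) = 0 := by decide +kernel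

theorem f_j : par 108 = 5 ∧ ty 108 = 5 ∧ Ax 108 = 5 ∧ Ay 108 = 0 ∧ par 144 = 5 ∧ ty 144 = 5 ∧
    Ax 144 = 4 ∧ Ay 144 = 3 := by decide +kernel

end Pool.Agent.Work.MP_0909b4_al.NA.Dat
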