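import Pool.Agent.Work.MP_0909b4_al.NAPoly

/-! A Lipschitz function is almost affine on some piece (maximal slope argument).

Plan. For `T > 0` let `lam T` be the supremum of the slopes
`(f (io n c w) - f (io n c z)) / dist z w` over all `n, c` and `z, w ∈ Om n c` with `T ≤ dist z w`
(nonempty by `big`, bounded by `Λ`, nonnegative by symmetry, antitone in `T`), and `l = inf lam`.
Given small `η, δ` choose `T₀` with `lam T₀ < l + δ`, then a pair `z, w` at distance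
`T ≥ max (4 T₀) (A 5 ^ k₀ / η)` with slope `> l - δ`, `u = (w - z) / T`. Choose `k` with
`A 5 ^ k ≤ η T < A 5 ^ (k+1)`; `k₀ ≤ k ≤ n` by `diam`. `near_line`: for `y ∈ Om n c` within `η T` of
the midpoint, the slopes from `z` to `y` and from `y` to `w` are `≤ l + δ`, and
`‖y - z‖ ≤ dot u (y - z) + 2 η² T`, so `f (io y) = f (io z) + l * dot u (y - z)` up to
`(2 Λ η² + 2 δ) T`. Apply `D1` at the midpoint; `dot (l u) (B • y)` is affine in `y`.
-/

namespace Pool.Agent.Work.MP_0909b4_al.NA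

theorem NASlope_norm_le (s b c : ℝ) (v : ℂ) (hv : ‖v‖ ^ 2 = s ^ 2 + b) (hs : 0 ≤ s) (hc : 0 ≤ c)
    (h : b ≤ 2 * s * c) : ‖v‖ ≤ s + c := by
  have h1 : ‖v‖ ^ 2 ≤ (s + c) ^ 2 := by linarith only [hv, h, sq_nonneg c, sq_nonneg c]
  exact (pow_le_pow_iff_left₀ (norm_nonneg v) (by positivity) two_ne_zero).1 h1

theorem NASlope_sq (v : ℂ) : ‖v‖ ^ 2 = v.re ^ 2 + v.im ^ 2 := by
  rw [Complex.sq_norm, Complex.normSq_apply]
  ring

theorem near_line (F : ℂ → ℝ) (z w y : ℂ) (l δ η Λ T : ℝ) (hT : 0 < T) (hzw : dist z w = T)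
    (hη : 0 < η) (hη' : η ≤ 1 / 4) (hδ : 0 ≤ δ) (hl : 0 ≤ l) (hΛ : l ≤ Λ)
    (hy : dist y ((z + w) / 2) ≤ η * T) (h₁ : (l - δ) * T ≤ F w - F z)
    (h₂ : F y - F z ≤ (l + δ) * dist z y) (h₃ : F w - F y ≤ (l + δ) * dist y w) :
    |F y - (F z + l * dot ((w - z) / T) (y - z))| ≤ (2 * Λ * η ^ 2 + 2 * δ) * T := by
  obtain ⟨u, hu⟩ : ∃ u : ℂ, u = (w - z) / T := ⟨_, rfl⟩
  obtain ⟨e, he⟩ : ∃ e : ℂ, e = y - (z + w) / 2 := ⟨_, rfl⟩
  have hT' : (T : ℂ) ≠ 0 := by exact_mod_cast hT.ne'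
  have hw : w = z + T * u := by
    rw [hu]
    field_simp
    ring
  have hun : ‖u‖ = 1 := by
    rw [hu, norm_div, Complex.norm_real, Real.norm_eq_abs, abs_of_pos hT, ← dist_eq_norm,
      dist_comm, hzw, div_self hT.ne']
  have hu2 : u.re ^ 2 + u.im ^ 2 = 1 := by
    rw [← NASlope_sq, hun]
    norm_num
  have hen : ‖e‖ ≤ η * T := by
    rw [he, ← dist_eq_norm]
    exact hy
  have he2 : e.re ^ 2 + e.im ^ 2 ≤ (η * T) ^ 2 := by
    rw [← NASlope_sq]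
    exact pow_le_pow_left₀ (norm_nonneg e) hen 2
  have hyz : y - z = ((T / 2 : ℝ) : ℂ) * u + e := by
    rw [he, hw]
    push_cast
    ring
  have hwy : w - y = ((T / 2 : ℝ) : ℂ) * u - e := by
    rw [he, hw]
    push_cast
    ring
  obtain ⟨a, ha⟩ : ∃ a : ℝ, a = u.re * e.re + u.im * e.im := ⟨_, rfl⟩
  obtain ⟨b, hb⟩ : ∃ b : ℝ, b = u.re * e.im - u.im * e.re := ⟨_, rfl⟩
  have hab : a ^ 2 + b ^ 2 = e.re ^ 2 + e.im ^ 2 := by
    have : a ^ 2 + b ^ 2 = (u.re ^ 2 + u.im ^ 2) * (e.re ^ 2 + e.im ^ 2) := by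
      rw [ha, hb]
      ring
    rw [this, hu2, one_mul]
  have hηT : 0 < η * T := mul_pos hη hT
  have hηT4 : η * T ≤ T / 4 := by linarith only [hT, hη', mul_nonneg_of_nonpos_of_nonpos (le_of_lt (Mathlib.Tactic.Linarith.sub_neg_of_lt hT)) (Mathlib.Tactic.Linarith.sub_nonpos_of_le hη')]
  have haa : |a| ≤ η * T := by
    apply abs_le_of_sq_le_sq' _ hηT.le |> abs_le.2
    linarith only [he2, hab, sq_nonneg b, sq_nonneg b]
  obtain ⟨ha1, ha2⟩ := abs_le.1 haa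
  have hb2 : b ^ 2 ≤ (η * T) ^ 2 := by linarith only [he2, hab, sq_nonneg a, sq_nonneg a]
  have hdot : dot u (y - z) = T / 2 + a := by
    rw [hyz, ha]
    simp only [dot, Complex.add_re, Complex.add_im, Complex.mul_re, Complex.mul_im,
      Complex.ofReal_re, Complex.ofReal_im]
    linear_combination (T / 2) * hu2
  have hn1 : ‖y - z‖ ^ 2 = (T / 2 + a) ^ 2 + b ^ 2 := by
    rw [NASlope_sq, hyz]
    simp only [Complex.add_re, Complex.add_im, Complex.mul_re, Complex.mul_im,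
      Complex.ofReal_re, Complex.ofReal_im]
    linear_combination (T / 2) ^ 2 * hu2 - hab - T * ha
  have hn2 : ‖w - y‖ ^ 2 = (T / 2 - a) ^ 2 + b ^ 2 := by
    rw [NASlope_sq, hwy]
    simp only [Complex.sub_re, Complex.sub_im, Complex.mul_re, Complex.mul_im,
      Complex.ofReal_re, Complex.ofReal_im]
    linear_combination (T / 2) ^ 2 * hu2 - hab + T * ha
  have hc : 0 ≤ 2 * η ^ 2 * T := by positivity
  have hk : 0 ≤ η ^ 2 * T := by positivity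
  have hd1 : ‖y - z‖ ≤ T / 2 + a + 2 * η ^ 2 * T :=
    NASlope_norm_le _ _ _ _ hn1 (by linarith only [hηT, hηT4, ha1]) hc (by (refine le_of_not_gt fun h_nl => ?_; linarith only [h_nl, hT, hηT4, ha1, he2, hab, mul_nonneg_of_nonpos_of_nonpos (Mathlib.Tactic.Linarith.sub_nonpos_of_le (sq_nonneg a)) (le_of_lt (Mathlib.Tactic.Linarith.sub_neg_of_lt hT)), mul_nonneg_of_nonpos_of_nonpos (Mathlib.Tactic.Linarith.sub_nonpos_of_le (sq_nonneg (η * T))) (Mathlib.Tactic.Linarith.sub_nonpos_of_le hηT4), mul_nonneg_of_nonpos_of_nonpos (Mathlib.Tactic.Linarith.sub_nonpos_of_le (sq_nonneg (η * T))) (Mathlib.Tactic.Linarith.sub_nonpos_of_le ha1), mul_nonneg_of_nonpos_of_nonpos (le_of_lt (Mathlib.Tactic.Linarith.sub_neg_of_lt hT)) (Mathlib.Tactic.Linarith.sub_nonpos_of_le he2), Mathlib.Tactic.Linarith.mul_zero_eq (Mathlib.Tactic.Linarith.sub_neg_of_lt hT) (sub_eq_zero_of_eq hab), mul_pos_of_neg_of_neg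 (Mathlib.Tactic.Linarith.sub_neg_of_lt hT) (Mathlib.Tactic.Linarith.sub_neg_of_lt h_nl)]))
  have hd2 : ‖w - y‖ ≤ T / 2 - a + 2 * η ^ 2 * T :=
    NASlope_norm_le _ _ _ _ hn2 (by linarith only [hηT, hηT4, ha2]) hc (by (refine le_of_not_gt fun h_nl => ?_; linarith only [h_nl, hT, hηT4, ha2, he2, hab, mul_nonneg_of_nonpos_of_nonpos (Mathlib.Tactic.Linarith.sub_nonpos_of_le (sq_nonneg a)) (le_of_lt (Mathlib.Tactic.Linarith.sub_neg_of_lt hT)), mul_nonneg_of_nonpos_of_nonpos (Mathlib.Tactic.Linarith.sub_nonpos_of_le (sq_nonneg (η * T))) (Mathlib.Tactic.Linarith.sub_nonpos_of_le hηT4), mul_nonneg_of_nonpos_of_nonpos (Mathlib.Tactic.Linarith.sub_nonpos_of_le (sq_nonneg (η * T))) (Mathlib.Tactic.Linarith.sub_nonpos_of_le ha2), mul_nonneg_of_nonpos_of_nonpos (le_of_lt (Mathlib.Tactic.Linarith.sub_neg_of_lt hT)) (Mathlib.Tactic.Linarith.sub_nonpos_of_le he2), Mathlib.Tactic.Linarith.mul_zero_eq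 (Mathlib.Tactic.Linarith.sub_neg_of_lt hT) (sub_eq_zero_of_eq hab), mul_pos_of_neg_of_neg (Mathlib.Tactic.Linarith.sub_neg_of_lt hT) (Mathlib.Tactic.Linarith.sub_neg_of_lt h_nl)]))
  have hη2 : 2 * η ^ 2 * T ≤ T / 4 := by linarith only [hηT4, hη, hηT, mul_pos_of_neg_of_neg (Mathlib.Tactic.Linarith.sub_neg_of_lt hη) (Mathlib.Tactic.Linarith.sub_neg_of_lt hηT), mul_nonneg_of_nonpos_of_nonpos (le_of_lt (Mathlib.Tactic.Linarith.sub_neg_of_lt hη)) (Mathlib.Tactic.Linarith.sub_nonpos_of_le hηT4)]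
  rw [dist_comm, dist_eq_norm] at h₂ h₃
  rw [← hu, hdot, abs_le]
  have e1 : l * ‖y - z‖ ≤ l * (T / 2 + a + 2 * η ^ 2 * T) := mul_le_mul_of_nonneg_left hd1 hl
  have e2 : l * ‖w - y‖ ≤ l * (T / 2 - a + 2 * η ^ 2 * T) := mul_le_mul_of_nonneg_left hd2 hl
  have e3 : δ * ‖y - z‖ ≤ δ * T := mul_le_mul_of_nonneg_left (by linarith only [hηT4, ha2, hd1, hη2]) hδ
  have e4 : δ * ‖w - y‖ ≤ δ * T := mul_le_mul_of_nonneg_left (by linarith only [hηT4, ha1, hd2, hη2]) hδ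
  have e5 : l * (2 * η ^ 2 * T) ≤ Λ * (2 * η ^ 2 * T) := mul_le_mul_of_nonneg_right hΛ hc
  have e6 : 0 ≤ δ * T := mul_nonneg hδ hT.le
  constructor <;> linarith only [h₁, h₃, e2, e4, e5, h₂, e1, e3, e6]

theorem NASlope_far {G X : Type} [Group G] [MetricSpace X] [MulAction G X] (F : FlatSys G X)
    (T : ℝ) : ∃ n c, ∃ z ∈ F.Om n c, ∃ w ∈ F.Om n c, T ≤ dist z w := by
  obtain ⟨c⟩ := F.ne
  obtain ⟨n, hn⟩ := pow_unbounded_of_one_lt (2 * T) (by norm_num : (1 : ℝ) < 5)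
  obtain ⟨z, hz, w, hw, h⟩ := F.big n c
  exact ⟨n, c, z, hz, w, hw, by linarith only [hn, h]⟩

theorem NASlope_lim {G X : Type} [Group G] [MetricSpace X] [MulAction G X] (F : FlatSys G X)
    (f : X → ℝ) (Λ : ℝ) (hΛ : 0 ≤ Λ) (hf : ∀ x y, |f x - f y| ≤ Λ * dist x y) (δ : ℝ)
    (hδ : 0 < δ) :
    ∃ l T₀ : ℝ, 0 ≤ l ∧ l ≤ Λ ∧ 0 < T₀ ∧
      (∀ n c, ∀ z ∈ F.Om n c, ∀ w ∈ F.Om n c, T₀ ≤ dist z w →
        f (F.io n c w) - f (F.io n c z) ≤ (l + δ) * dist z w) ∧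
      ∀ T₁ : ℝ, 0 < T₁ → ∃ n c, ∃ z ∈ F.Om n c, ∃ w ∈ F.Om n c, T₁ ≤ dist z w ∧
        (l - δ) * dist z w ≤ f (F.io n c w) - f (F.io n c z) := by
  obtain ⟨L, hL⟩ : ∃ L : Set ℝ, L = {s | ∃ T₀ : ℝ, 0 < T₀ ∧
      ∀ n c, ∀ z ∈ F.Om n c, ∀ w ∈ F.Om n c, T₀ ≤ dist z w →
        f (F.io n c w) - f (F.io n c z) ≤ s * dist z w} := ⟨_, rfl⟩
  have hΛL : Λ ∈ L := by
    rw [hL]
    refine ⟨1, one_pos, fun n c z hz w hw _ => ?_⟩
    have h1 := (abs_le.1 (hf (F.io n c w) (F.io n c z))).2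
    have h2 := F.io_lip n c w hw z hz
    rw [dist_comm w z] at h2
    exact h1.trans (mul_le_mul_of_nonneg_left h2 hΛ)
  have h0 : ∀ s ∈ L, 0 ≤ s := by
    intro s hs
    rw [hL] at hs
    obtain ⟨T₀, hT₀, h⟩ := hs
    obtain ⟨n, c, z, hz, w, hw, hd⟩ := NASlope_far F T₀
    have h1 := h n c z hz w hw hd
    have h2 := h n c w hw z hz (by rwa [dist_comm])
    rw [dist_comm w z] at h2
    have h3 : 0 < dist z w := hT₀.trans_le hd
    by_contra hneg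
    have := mul_neg_of_neg_of_pos (not_le.1 hneg) h3
    linarith only [h1, h2, this]
  have hbdd : BddBelow L := ⟨0, h0⟩
  obtain ⟨s, hs, hsl⟩ := exists_lt_of_csInf_lt ⟨Λ, hΛL⟩ (lt_add_of_pos_right (sInf L) hδ)
  have hs' := hs
  rw [hL] at hs'
  obtain ⟨T₀, hT₀, h⟩ := hs'
  refine ⟨sInf L, T₀, le_csInf ⟨Λ, hΛL⟩ h0, csInf_le hbdd hΛL, hT₀, ?_, ?_⟩
  · intro n c z hz w hw hd
    exact (h n c z hz w hw hd).trans (mul_le_mul_of_nonneg_right hsl.le dist_nonneg)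
  · intro T₁ hT₁
    by_contra hcon
    have hmem : sInf L - δ ∈ L := by
      nth_rewrite 1 [hL]
      refine ⟨T₁, hT₁, fun n c z hz w hw hd => ?_⟩
      by_contra hlt
      exact hcon ⟨n, c, z, hz, w, hw, hd, (not_le.1 hlt).le⟩
    have := csInf_le hbdd hmem
    linarith

theorem FlatSys.slope {G X : Type} [Group G] [MetricSpace X] [MulAction G X] (F : FlatSys G X)
    (f : X → ℝ) (Λ : ℝ) (hf : ∀ x y, |f x - f y| ≤ Λ * dist x y) (ε : ℝ) (hε : 0 < ε) (k₀ : ℕ) :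
    ∃ (k : ℕ) (c : F.Col) (g : G) (v : ℂ) (b : ℝ), k₀ ≤ k ∧
      ∀ z ∈ F.Om k c, |f (g • F.io k c z) - (dot v z + b)| ≤ ε * 5 ^ k := by
  obtain ⟨M, hM⟩ : ∃ M : ℝ, M = |Λ| + 1 := ⟨_, rfl⟩
  have hM0 : 0 < M := by
    rw [hM]
    positivity
  have hfM : ∀ x y, |f x - f y| ≤ M * dist x y := fun x y =>
    (hf x y).trans (mul_le_mul_of_nonneg_right (by linarith [le_abs_self Λ]) dist_nonneg)
  have hA : 0 < F.A := lt_of_lt_of_le one_pos F.A_ge
  obtain ⟨η, hηd⟩ : ∃ η : ℝ, η = min (1 / 4) (ε / (20 * F.A * M)) := ⟨_, rfl⟩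
  have hη : 0 < η := by
    rw [hηd]
    exact lt_min (by norm_num) (by positivity)
  have hη4 : η ≤ 1 / 4 := hηd ▸ min_le_left _ _
  have hηε : η * (20 * F.A * M) ≤ ε := by
    have : η ≤ ε / (20 * F.A * M) := hηd ▸ min_le_right _ _
    rwa [le_div_iff₀ (by positivity)] at this
  obtain ⟨δ, hδd⟩ : ∃ δ : ℝ, δ = ε * η / (20 * F.A) := ⟨_, rfl⟩
  have hδ : 0 < δ := by
    rw [hδd]
    positivity
  have hδε : δ * (20 * F.A) = ε * η := by
    rw [hδd]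
    field_simp
  obtain ⟨l, T₀, hl, hlM, hT₀, hup, hlow⟩ := NASlope_lim F f M hM0.le hfM δ hδ
  obtain ⟨n, c, z, hz, w, hw, hd, hs⟩ := hlow (max (4 * T₀) (F.A * 5 ^ k₀ / η))
    (lt_max_of_lt_left (by linarith only [hT₀]))
  obtain ⟨T, hT⟩ : ∃ T : ℝ, dist z w = T := ⟨_, rfl⟩
  rw [hT] at hd hs
  have hT1 : 4 * T₀ ≤ T := (le_max_left _ _).trans hd
  have hT2 : F.A * 5 ^ k₀ ≤ T * η := by
    have := (le_max_right _ _).trans hd
    rwa [div_le_iff₀ hη] at this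
  have hTp : 0 < T := by linarith only [hT₀, hT1]
  have hx : (5 : ℝ) ^ k₀ ≤ η * T / F.A := by
    rw [le_div_iff₀ hA]
    linarith only [hT2]
  obtain ⟨k, hk1, hk2⟩ := exists_nat_pow_near
    ((one_le_pow₀ (by norm_num : (1 : ℝ) ≤ 5)).trans hx) (by norm_num : (1 : ℝ) < 5)
  have hk₀ : k₀ ≤ k := by
    have := (pow_lt_pow_iff_right₀ (by norm_num : (1 : ℝ) < 5)).1 (hx.trans_lt hk2)
    omega
  rw [le_div_iff₀ hA] at hk1
  rw [div_lt_iff₀ hA, pow_succ] at hk2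
  have hηT : η * T ≤ T / 4 := by linarith only [hη4, hT₀, hT1, mul_nonneg_of_nonpos_of_nonpos (Mathlib.Tactic.Linarith.sub_nonpos_of_le hη4) (le_of_lt (Mathlib.Tactic.Linarith.sub_neg_of_lt hT₀)), mul_nonneg_of_nonpos_of_nonpos (Mathlib.Tactic.Linarith.sub_nonpos_of_le hη4) (Mathlib.Tactic.Linarith.sub_nonpos_of_le hT1)]
  have hkn : k ≤ n := by
    have h1 := F.diam n c z hz w hw
    rw [hT] at h1
    have h2 : (5 : ℝ) ^ k * F.A ≤ 5 ^ n * F.A := by linarith only [hT₀, hT1, hk1, hηT, h1]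
    exact (pow_le_pow_iff_right₀ (by norm_num : (1 : ℝ) < 5)).1 (le_of_mul_le_mul_right h2 hA)
  have hm : (z + w) / 2 ∈ F.Om n c := by
    have := F.conv n c hz hw (a := 1 / 2) (b := 1 / 2) (by norm_num) (by norm_num) (by norm_num)
    convert this using 1
    simp only [Complex.real_smul]
    push_cast
    ring
  obtain ⟨c', B, ⟨g, hg⟩, hB⟩ := F.D1 n c k hkn _ hm
  have hzm : dist z ((z + w) / 2) = T / 2 := by
    rw [← hT, dist_eq_norm, dist_eq_norm]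
    have : z - (z + w) / 2 = (z - w) / 2 := by ring
    rw [this, norm_div]
    simp
  have hwm : dist w ((z + w) / 2) = T / 2 := by
    rw [← hT, dist_comm z w, dist_eq_norm, dist_eq_norm]
    have : w - (z + w) / 2 = (w - z) / 2 := by ring
    rw [this, norm_div]
    simp
  refine ⟨k, c', g, l * ((starRingEnd ℂ) B.a * ((w - z) / T)),
    f (F.io n c z) + l * dot ((w - z) / T) (B.b - z), hk₀, fun y hy => ?_⟩
  obtain ⟨hy1, hy2⟩ := hg y hy
  have hy3 : dist (B • y) ((z + w) / 2) ≤ η * T := (hB y hy).trans (by linarith only [hk1])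
  have hzy : T₀ ≤ dist z (B • y) := by
    have := dist_triangle z (B • y) ((z + w) / 2)
    linarith only [hT1, hηT, hzm, hy3, this]
  have hyw : T₀ ≤ dist (B • y) w := by
    have := dist_triangle w (B • y) ((z + w) / 2)
    rw [dist_comm w (B • y)] at this
    linarith only [hT1, hηT, hwm, hy3, this]
  have key := near_line (fun x => f (F.io n c x)) z w (B • y) l δ η M T hTp hT hη hη4 hδ.le hl hlM
    hy3 hs (hup n c z hz _ hy1 hzy) (hup n c _ hy1 w hw hyw)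
  have hlin : dot (l * ((starRingEnd ℂ) B.a * ((w - z) / T))) y +
      (f (F.io n c z) + l * dot ((w - z) / T) (B.b - z)) =
      f (F.io n c z) + l * dot ((w - z) / T) (B • y - z) := by
    generalize (w - z) / (T : ℂ) = u
    simp only [dot, Mot.smul_def, Complex.add_re, Complex.add_im, Complex.mul_re, Complex.mul_im,
      Complex.sub_re, Complex.sub_im, Complex.ofReal_re, Complex.ofReal_im, Complex.conj_re,
      Complex.conj_im]
    ring
  rw [← hy2, hlin]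
  refine key.trans ?_
  have h5 : (0 : ℝ) < 5 ^ k := by positivity
  have e1 : 2 * M * η * (η * T) ≤ 2 * M * η * (5 ^ k * 5 * F.A) :=
    mul_le_mul_of_nonneg_left hk2.le (by positivity)
  have e2 : η * (20 * F.A * M) * 5 ^ k ≤ ε * 5 ^ k := mul_le_mul_of_nonneg_right hηε h5.le
  have e3 : ε * (η * T) ≤ ε * (5 ^ k * 5 * F.A) := mul_le_mul_of_nonneg_left hk2.le hε.le
  have e4 : 2 * δ * T * F.A ≤ ε * 5 ^ k / 2 * F.A := by
    have : δ * (20 * F.A) * T = ε * η * T := by rw [hδε]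
    linarith only [e3, this]
  have e5 : 2 * δ * T ≤ ε * 5 ^ k / 2 := le_of_mul_le_mul_right e4 hA
  linarith only [e1, e2, e5]

end Pool.Agent.Work.MP_0909b4_al.NA
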