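import Pool.Agent.Work.MP_0909b4_al.NAPoly
import Pool.Agent.Work.MP_0909b4_al.NAInst
import Pool.Agent.Work.MP_0909b4_al.NASlope

-- merged part: Pool.Agent.Work.MP_0909b4_al.NACell
section
/-! The cells of a polygonal complex as patches.

Plan. Work in `X = P.gcx.cx`. Write `A v`, `S s`, `O f` for the labels.
* apex: `ap v = pt (vpt (1, A v)) 1`.
* side `s = sd c`: for `y` in the half of `sseg s` at the end `b`, `sideP s y` is the point of the edge
  `(1, S s), (gen (SA s b), A (en s b))` with `dev = y` (`exists_mix`); the two halves share only the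
  midpoint. `si s y = pt (sideP s y) 1`.
* face `f = fc c₀`: the triangles `(c, b)` at `(1, O f)` cover the polygon (`Gon.fan`, cut the fan
  triangle at the midpoint). A point of such a triangle is `(1 - t) vpt (1, O f) + t (gen (FS c) •
  sideP (sd c) y)` with `dev = (1 - t) ctr + t (m2 c • y)`. Two such points with the same `dev` are
  equal: `1 - t` is the minimum of `cr c' z / cr c' ctr`, so it is determined by `z`; if `t > 0`
  the boundary point `m2 c • y` is determined, and `Gon.seg_inter` with `gen_tri` handles the case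
  of two different sides. So `faceP f z` is well defined, `fa f z = pt (faceP f z) 1`, and on each
  triangle `dist_common` gives the Lipschitz bound.
* `flat`: the barycentre of the triangle `(c, false)` and `DevCx.flat_bary`.
-/

namespace Pool.Agent.Work.MP_0909b4_al.NA

/-- placed apexes, sides and faces -/
structure CellSys (P : Poly) {G X : Type} [Group G] [MetricSpace X] [MulAction G X]
    (D : DevAct G X) where
  ap : P.Ap → D.PP
  si : P.Si → ℂ → D.PP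
  fa : P.Fa → ℂ → D.PP
  r₀ : ℝ
  r₀_pos : 0 < r₀
  patch : ∀ c, D.Patch (P.gon.poly (P.fc c)) (fa (P.fc c))
  si_end : ∀ c b, si (P.sd c) (P.m1 (P.sd c) b).b = P.m1 (P.sd c) b • ap (P.en (P.sd c) b)
  fa_si : ∀ c, ∀ y ∈ P.sseg (P.sd c), fa (P.fc c) (P.m2 c • y) = P.m2 c • si (P.sd c) y
  flat : ∀ c, ∃ w ∈ P.gon.poly (P.fc c), ∃ x m, fa (P.fc c) w = D.pt x m ∧
    ∀ a, dist x a ≤ r₀ → dist (D.dev a) (D.dev x) = dist x a

theorem CellSys.fa_vt {P : Poly} {G X : Type} [Group G] [MetricSpace X] [MulAction G X]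
    {D : DevAct G X} (C : CellSys P D) (c : P.Cn) :
    C.fa (P.fc c) (P.vt c) = P.ma c • C.ap (P.ap c) := by
  have hm : (P.m1 (P.sd c) (P.fl c)).b ∈ P.sseg (P.sd c) := by
    cases P.fl c
    · exact left_mem_segment ℝ _ _
    · exact right_mem_segment ℝ _ _
  have h := C.fa_si c _ hm
  rw [C.si_end, ← mul_smul] at h
  exact h

namespace DevCx

variable {X : DevCx}

theorem dev_NACell {x : X.P} {f : X.V →₀ ℝ} (h : x.co = f) :
    X.dev x = Finsupp.linearCombination ℝ X.pos f := by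
  subst h
  rfl

theorem mk_NACell {σ : Finset X.V} (hσ : σ ∈ X.faces) (f : X.V →₀ ℝ) (h0 : ∀ v, 0 ≤ f v)
    (hs : f.support ⊆ σ) (h1 : Finsupp.linearCombination ℝ (fun _ : X.V => (1 : ℝ)) f = 1) :
    ∃ x : X.P, x.co = f := by
  have h2 : ∑ v ∈ f.support, f v = 1 := by
    rw [← h1, Finsupp.linearCombination_apply, Finsupp.sum]
    simp
  refine ⟨⟨f, h0, h2, X.down σ hσ _ hs ?_⟩, rfl⟩
  by_contra hn
  rw [Finset.not_nonempty_iff_eq_empty] at hn
  rw [hn] at h2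
  simp at h2

theorem ext_NACell {x y : X.P} (h : x.co = y.co) : x = y := pt_ext fun v => by rw [h]

end DevCx

theorem supp_NACell {V : Type} {O S A v : V} {o s a : ℝ}
    (hv : v ∈ (Finsupp.single O o + Finsupp.single S s + Finsupp.single A a).support) :
    v = O ∨ v = S ∨ v = A := by
  by_contra hn
  simp only [not_or] at hn
  simp [Ne.symm hn.1, Ne.symm hn.2.1, Ne.symm hn.2.2] at hv

theorem bary_NACell {V : Type} {O S A v : V} (n1 : O ≠ S) (n2 : O ≠ A) (n3 : S ≠ A) (r : ℝ)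
    (hv : v = O ∨ v = S ∨ v = A) :
    (Finsupp.single O r + Finsupp.single S r + Finsupp.single A r) v = r := by
  rcases hv with rfl | rfl | rfl
  · simp [n1.symm, n2.symm]
  · simp [n1, n3.symm]
  · simp [n2, n3]

/-- a half of a fan triangle -/
def triNACell (o p q : ℂ) (b : Bool) : Set ℂ :=
  {z | ∃ u w : ℝ, 0 ≤ u ∧ 0 ≤ w ∧ u + w ≤ 1 ∧ (if b then u ≤ w else w ≤ u) ∧
    z = o + u • (p - o) + w • (q - o)}

theorem tri_closed_NACell (o p q : ℂ) (b : Bool) : IsClosed (triNACell o p q b) := by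
  have hc : IsCompact {x : ℝ × ℝ | 0 ≤ x.1 ∧ 0 ≤ x.2 ∧ x.1 + x.2 ≤ 1 ∧
      (if b then x.1 ≤ x.2 else x.2 ≤ x.1)} := by
    refine (isCompact_Icc (a := ((0 : ℝ), (0 : ℝ))) (b := (1, 1))).of_isClosed_subset ?_ ?_
    · refine (isClosed_le continuous_const continuous_fst).inter
        ((isClosed_le continuous_const continuous_snd).inter
        ((isClosed_le (continuous_fst.add continuous_snd) continuous_const).inter ?_))
      cases b
      · exact isClosed_le continuous_snd continuous_fst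
      · exact isClosed_le continuous_fst continuous_snd
    · rintro ⟨u, w⟩ ⟨h1, h2, h3, -⟩
      exact ⟨⟨h1, h2⟩, ⟨by dsimp only at *; linarith, by dsimp only at *; linarith⟩⟩
  have := (hc.image (f := fun x : ℝ × ℝ => o + x.1 • (p - o) + x.2 • (q - o))
    (by fun_prop)).isClosed
  convert this using 1
  ext z
  constructor
  · rintro ⟨u, w, h1, h2, h3, h4, rfl⟩
    exact ⟨(u, w), ⟨h1, h2, h3, h4⟩, rfl⟩
  · rintro ⟨⟨u, w⟩, ⟨h1, h2, h3, h4⟩, rfl⟩
    exact ⟨u, w, h1, h2, h3, h4, rfl⟩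

theorem tri_convex_NACell (o p q : ℂ) (b : Bool) : Convex ℝ (triNACell o p q b) := by
  rintro _ ⟨u, w, h1, h2, h3, h4, rfl⟩ _ ⟨u', w', h1', h2', h3', h4', rfl⟩ s t hs ht hst
  refine ⟨s * u + t * u', s * w + t * w', by positivity, by positivity, by linarith only [hst, h3, hs, h3', ht, mul_nonneg_of_nonpos_of_nonpos (Mathlib.Tactic.Linarith.sub_nonpos_of_le h3) (Mathlib.Tactic.Linarith.sub_nonpos_of_le hs), mul_nonneg_of_nonpos_of_nonpos (Mathlib.Tactic.Linarith.sub_nonpos_of_le h3') (Mathlib.Tactic.Linarith.sub_nonpos_of_le ht)], ?_, ?_⟩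
  · cases b
    · simp only [Bool.false_eq_true, if_false] at *
      linarith only [h4, hs, h4', ht, mul_le_mul_of_nonneg_left h4 hs, mul_le_mul_of_nonneg_left h4' ht]
    · simp only [if_true] at *
      linarith only [h4, hs, h4', ht, mul_le_mul_of_nonneg_left h4 hs, mul_le_mul_of_nonneg_left h4' ht]
  · obtain rfl : t = 1 - s := by linarith
    module

namespace Gon

variable {α F : Type} (Q : Gon α F)

theorem cr_NACell (c : α) (o p q : ℂ) (u w : ℝ) :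
    Q.cr c (o + u • (p - o) + w • (q - o)) =
      (1 - u - w) * Q.cr c o + u * Q.cr c p + w * Q.cr c q := by
  simp only [cr, cross, Complex.add_re, Complex.add_im, Complex.sub_re, Complex.sub_im,
    Complex.smul_re, Complex.smul_im, smul_eq_mul]
  ring

theorem ge_NACell {c c' : α} (h : Q.fc c = Q.fc c') {u w u' w' : ℝ} (hu' : 0 ≤ u') (hw' : 0 ≤ w')
    (e : Q.ctr (Q.fc c) + u • (Q.vt c - Q.ctr (Q.fc c)) + w • (Q.vt (Q.nx c) - Q.ctr (Q.fc c)) =
      Q.ctr (Q.fc c) + u' • (Q.vt c' - Q.ctr (Q.fc c)) + w' • (Q.vt (Q.nx c') - Q.ctr (Q.fc c))) :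
    u + w ≤ u' + w' := by
  have e1 := congrArg (Q.cr c) e
  rw [cr_NACell, cr_NACell, Q.cr_seg (left_mem_segment ℝ _ _),
    Q.cr_seg (right_mem_segment ℝ _ _)] at e1
  have a1 := Q.vt_mem c' c h
  have a2 := Q.vt_mem (Q.nx c') c (h.trans (Q.fc_nx c').symm)
  have a3 := Q.ctr_side c
  (refine le_of_not_gt fun h_nl => ?_; linarith only [h_nl, e1, hu', a1, hw', a2, a3, mul_nonneg hu' a1, mul_nonneg hw' a2, mul_pos_of_neg_of_neg (Mathlib.Tactic.Linarith.sub_neg_of_lt a3) (Mathlib.Tactic.Linarith.sub_neg_of_lt h_nl)])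

theorem uniq_NACell {c c' : α} (h : Q.fc c = Q.fc c') {u w u' w' : ℝ} (hu : 0 ≤ u) (hw : 0 ≤ w)
    (hu' : 0 ≤ u') (hw' : 0 ≤ w')
    (e : Q.ctr (Q.fc c) + u • (Q.vt c - Q.ctr (Q.fc c)) + w • (Q.vt (Q.nx c) - Q.ctr (Q.fc c)) =
      Q.ctr (Q.fc c) + u' • (Q.vt c' - Q.ctr (Q.fc c)) + w' • (Q.vt (Q.nx c') - Q.ctr (Q.fc c))) :
    (c = c' ∧ u = u' ∧ w = w') ∨ (u = 0 ∧ w = 0 ∧ u' = 0 ∧ w' = 0) ∨
      (c' = Q.nx c ∧ u = 0 ∧ w' = 0 ∧ w = u') ∨ (c = Q.nx c' ∧ u' = 0 ∧ w = 0 ∧ w' = u) := by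
  have t1 : u + w = u' + w' := le_antisymm (Q.ge_NACell h hu' hw' e)
    (Q.ge_NACell h.symm hu hw (by rw [← h]; exact e.symm))
  have zero : ∀ (d : α) (r : ℝ), r • (Q.vt (Q.nx d) - Q.vt d) = 0 → r = 0 := fun d r hr =>
    (smul_eq_zero.1 hr).resolve_right (sub_ne_zero.2 (Q.vt_nx_ne d))
  obtain rfl : u' = u + w - w' := by linarith
  by_cases hc : c = c'
  · subst hc
    have : w - w' = 0 := zero c _ (by linear_combination (norm := module) e)
    exact Or.inl ⟨rfl, by linarith only [this], by linarith⟩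
  rcases (add_nonneg hu hw).eq_or_lt with t0 | t0
  · exact Or.inr (Or.inl ⟨by linarith, by linarith, by linarith, by linarith⟩)
  have e2 : u • Q.vt c + w • Q.vt (Q.nx c) = (u + w - w') • Q.vt c' + w' • Q.vt (Q.nx c') := by
    linear_combination (norm := module) e
  have m1 : (u + w)⁻¹ • (u • Q.vt c + w • Q.vt (Q.nx c)) ∈ Q.seg c :=
    ⟨(u + w)⁻¹ * u, (u + w)⁻¹ * w, by positivity, by positivity, by field_simp, by module⟩
  have m2 : (u + w)⁻¹ • (u • Q.vt c + w • Q.vt (Q.nx c)) ∈ Q.seg c' :=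
    ⟨(u + w)⁻¹ * (u + w - w'), (u + w)⁻¹ * w', by positivity, by positivity,
      by field_simp; ring, by rw [e2]; module⟩
  rcases Q.seg_inter h hc m1 m2 with ⟨h1, h2⟩ | ⟨h1, h2⟩
  · rw [inv_smul_eq_iff₀ t0.ne'] at h2
    have a1 : w' = 0 := zero c' _ (by linear_combination (norm := module) h2 - e2)
    subst h1
    have a2 : u = 0 := zero c _ (by linear_combination (norm := module) -h2)
    exact Or.inr (Or.inr (Or.inl ⟨rfl, a2, a1, by linarith⟩))
  · rw [inv_smul_eq_iff₀ t0.ne'] at h2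
    have a1 : w = 0 := zero c _ (by linear_combination (norm := module) h2)
    subst h1
    have a2 : u + w - w' = 0 := zero c' _ (by linear_combination (norm := module) e2 - h2)
    exact Or.inr (Or.inr (Or.inr ⟨rfl, a2, a1, by linarith⟩))

theorem tri_sub_NACell (c : α) {u w : ℝ} (hu : 0 ≤ u) (hw : 0 ≤ w) (h1 : u + w ≤ 1) :
    Q.ctr (Q.fc c) + u • (Q.vt c - Q.ctr (Q.fc c)) + w • (Q.vt (Q.nx c) - Q.ctr (Q.fc c)) ∈
      Q.poly (Q.fc c) := by
  intro c' h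
  rw [cr_NACell]
  have a1 := Q.vt_mem c c' h
  have a2 := Q.vt_mem (Q.nx c) c' (h.trans (Q.fc_nx c).symm)
  have a3 := Q.ctr_side c'
  rw [h] at a3
  have a4 : 0 ≤ 1 - u - w := by linarith
  positivity

end Gon

namespace Poly

variable (P : Poly)

/-- the centre of a face -/
noncomputable def oNACell (f : P.Fa) : P.gcx.cx.V := ((1 : P.gcx.Γ), some (Sum.inr (Sum.inr f)))

/-- the midpoint of the side of a corner -/
noncomputable def sNACell (c : P.Cn) : P.gcx.cx.V := (P.gcx.gen (Ed.FS c), some (Sum.inr (Sum.inl (P.sd c))))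

/-- the apex of a corner -/
noncomputable def aNACell (c : P.Cn) : P.gcx.cx.V := (P.gcx.gen (Ed.FA c), some (Sum.inl (P.ap c)))

theorem pos_o_NACell (f : P.Fa) : P.gcx.cx.pos (P.oNACell f) = P.gon.ctr f := by
  change P.gcx.hol 1 • P.gon.ctr f = _
  rw [map_one, one_smul]

theorem vt_NACell (c : P.Cn) : P.vt c = P.m2 c • (P.m1 (P.sd c) (P.fl c)).b := rfl

theorem vt_nx_NACell (c : P.Cn) : P.vt (P.nx c) = P.m2 c • (P.m1 (P.sd c) (!P.fl c)).b := by
  rw [Poly0.vt, P.close_mo]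
  rfl

theorem pos_s_NACell (c : P.Cn) :
    P.gcx.cx.pos (P.sNACell c) = (1 / 2 : ℝ) • (P.vt c + P.vt (P.nx c)) := by
  change P.gcx.hol (P.gcx.gen (Ed.FS c)) • (((P.m1 (P.sd c) false).b + (P.m1 (P.sd c) true).b) / 2) = _
  rw [GC0.hol_of, vt_NACell, vt_nx_NACell]
  change P.m2 c • _ = _
  cases P.fl c <;> simp [Mot.smul_def] <;> ring

theorem pos_a_NACell (c : P.Cn) : P.gcx.cx.pos (P.aNACell c) = P.vt c := by
  change P.gcx.hol (P.gcx.gen (Ed.FA c)) • (0 : ℂ) = _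
  rw [GC0.hol_of, Mot.smul_zero']
  rfl

open Classical in
/-- the triangles of a face -/
noncomputable def σNACell (c : P.Cn) (b : Bool) : Finset P.gcx.cx.V :=
  {P.oNACell (P.fc c), P.sNACell c, P.aNACell (if b then P.nx c else c)}

theorem mem_σ_NACell {c : P.Cn} {b : Bool} {v : P.gcx.cx.V} : v ∈ P.σNACell c b ↔
    v = P.oNACell (P.fc c) ∨ v = P.sNACell c ∨ v = P.aNACell (if b then P.nx c else c) := by
  simp [σNACell]

theorem σ_mem_NACell (c : P.Cn) (b : Bool) : P.σNACell c b ∈ P.gcx.cx.faces := by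
  refine ⟨⟨_, P.mem_σ_NACell.2 (Or.inl rfl)⟩, _, GC0.Mx.tri (K := P.gcx.toGC0) 1 (c, b), ?_⟩
  intro v hv
  rw [one_mul, one_mul]
  exact P.mem_σ_NACell.1 hv

/-- barycentric coordinates in the fan triangle of `c` -/
noncomputable def coNACell (c : P.Cn) (u w : ℝ) : P.gcx.cx.V →₀ ℝ :=
  Finsupp.single (P.oNACell (P.fc c)) (1 - u - w) + Finsupp.single (P.sNACell c) (2 * min u w) +
    Finsupp.single (P.aNACell c) (u - min u w) + Finsupp.single (P.aNACell (P.nx c)) (w - min u w)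

theorem co_supp_NACell (c : P.Cn) (b : Bool) {u w : ℝ} (h : if b then u ≤ w else w ≤ u) :
    (P.coNACell c u w).support ⊆ P.σNACell c b := by
  intro v hv
  rw [mem_σ_NACell]
  cases b
  · simp only [Bool.false_eq_true, if_false] at h
    rw [coNACell, min_eq_right h, sub_self, Finsupp.single_zero, add_zero] at hv
    exact supp_NACell hv
  · simp only [if_true] at h
    rw [coNACell, min_eq_left h, sub_self, Finsupp.single_zero, add_zero] at hv
    exact supp_NACell hv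

theorem co_exists_NACell (c : P.Cn) {u w : ℝ} (hu : 0 ≤ u) (hw : 0 ≤ w) (h1 : u + w ≤ 1) :
    ∃ x : P.gcx.cx.P, x.co = P.coNACell c u w := by
  classical
  refine DevCx.mk_NACell (P.σ_mem_NACell c (decide (u ≤ w))) _ (fun v => ?_)
    (P.co_supp_NACell c _ ?_) ?_
  · have a1 : 0 ≤ 1 - u - w := by linarith
    have a2 : 0 ≤ 2 * min u w := mul_nonneg zero_le_two (le_min hu hw)
    have a3 : 0 ≤ u - min u w := sub_nonneg.2 (min_le_left _ _)
    have a4 : 0 ≤ w - min u w := sub_nonneg.2 (min_le_right _ _)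
    simp only [coNACell, Finsupp.add_apply, Finsupp.single_apply]
    positivity
  · by_cases h : u ≤ w
    · simp [h]
    · simp [h, (not_le.1 h).le]
  · simp only [coNACell, map_add, Finsupp.linearCombination_single, smul_eq_mul]
    ring

theorem co_dev_NACell {c : P.Cn} {u w : ℝ} {x : P.gcx.cx.P} (h : x.co = P.coNACell c u w) :
    P.gcx.cx.dev x = P.gon.ctr (P.fc c) + u • (P.vt c - P.gon.ctr (P.fc c)) +
      w • (P.vt (P.nx c) - P.gon.ctr (P.fc c)) := by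
  rw [DevCx.dev_NACell h]
  simp only [coNACell, map_add, Finsupp.linearCombination_single, pos_o_NACell, pos_s_NACell,
    pos_a_NACell]
  module

/-- the points of the face `f` at the identity -/
def InNACell (f : P.Fa) (x : P.gcx.cx.P) : Prop :=
  ∃ c u w, P.fc c = f ∧ 0 ≤ u ∧ 0 ≤ w ∧ x.co = P.coNACell c u w

theorem in_uniq_NACell {f : P.Fa} {x y : P.gcx.cx.P} (hx : P.InNACell f x) (hy : P.InNACell f y)
    (e : P.gcx.cx.dev x = P.gcx.cx.dev y) : x = y := by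
  obtain ⟨c, u, w, rfl, hu, hw, hx⟩ := hx
  obtain ⟨c', u', w', h, hu', hw', hy⟩ := hy
  rw [P.co_dev_NACell hx, P.co_dev_NACell hy, h] at e
  refine DevCx.ext_NACell (hx.trans (Eq.trans ?_ hy.symm))
  rcases P.gon.uniq_NACell (c := c) (c' := c') h.symm hu hw hu' hw' e with
    ⟨rfl, rfl, rfl⟩ | ⟨rfl, rfl, rfl, rfl⟩ | ⟨h1, rfl, rfl, rfl⟩ | ⟨h1, rfl, rfl, rfl⟩
  · rfl
  · simp [coNACell, h]
  · obtain rfl : c' = P.nx c := h1
    simp [coNACell, h, min_eq_left hw, min_eq_right hw]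
  · obtain rfl : c = P.nx c' := h1
    simp [coNACell, h, min_eq_left hu, min_eq_right hu]

open Classical in
/-- the point of the face `f` over `z` -/
noncomputable def ptNACell (f : P.Fa) (z : ℂ) : P.gcx.cx.P :=
  if h : ∃ x, P.InNACell f x ∧ P.gcx.cx.dev x = z then h.choose else P.gcx.cx.vpt (P.oNACell f)

theorem pt_eq_NACell {f : P.Fa} {x : P.gcx.cx.P} (hx : P.InNACell f x) :
    P.ptNACell f (P.gcx.cx.dev x) = x := by
  have h : ∃ y, P.InNACell f y ∧ P.gcx.cx.dev y = P.gcx.cx.dev x := ⟨x, hx, rfl⟩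
  rw [ptNACell, dif_pos h]
  exact P.in_uniq_NACell h.choose_spec.1 hx h.choose_spec.2

theorem pt_co_NACell (c : P.Cn) {u w : ℝ} (hu : 0 ≤ u) (hw : 0 ≤ w) (h1 : u + w ≤ 1) :
    (P.ptNACell (P.fc c) (P.gon.ctr (P.fc c) + u • (P.vt c - P.gon.ctr (P.fc c)) +
      w • (P.vt (P.nx c) - P.gon.ctr (P.fc c)))).co = P.coNACell c u w := by
  obtain ⟨x, hx⟩ := P.co_exists_NACell c hu hw h1
  rw [← P.co_dev_NACell hx, P.pt_eq_NACell ⟨c, u, w, rfl, hu, hw, hx⟩, hx]

theorem patch_NACell (c₀ : P.Cn) : P.gcx.act.Patch (P.gon.poly (P.fc c₀))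
    fun z => P.gcx.act.pt (P.ptNACell (P.fc c₀) z) 1 := by
  have := P.finC
  refine ⟨fun z hz => ?_, {c // P.fc c = P.fc c₀} × Bool, inferInstance,
    fun i => triNACell (P.gon.ctr (P.fc i.1.1)) (P.vt i.1.1) (P.vt (P.nx i.1.1)) i.2,
    fun _ => P.ptNACell (P.fc c₀), fun _ => 1, ?_, ?_⟩
  · obtain ⟨c, u, w, h, hu, hw, h1, rfl⟩ := P.gon.fan c₀ hz
    rw [DevAct.loc_pt, one_smul, ← show P.fc c = P.fc c₀ from h]
    exact P.co_dev_NACell (P.pt_co_NACell c hu hw h1)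
  · ext z
    rw [Set.mem_iUnion]
    constructor
    · rintro ⟨⟨⟨c, h⟩, b⟩, u, w, hu, hw, h1, -, rfl⟩
      dsimp only
      rw [← h]
      exact P.gon.tri_sub_NACell c hu hw h1
    · intro hz
      obtain ⟨c, u, w, h, hu, hw, h1, rfl⟩ := P.gon.fan c₀ hz
      rcases le_total u w with h2 | h2
      · exact ⟨(⟨c, h⟩, true), u, w, hu, hw, h1, h2, rfl⟩
      · exact ⟨(⟨c, h⟩, false), u, w, hu, hw, h1, h2, rfl⟩
  · rintro ⟨⟨c, h⟩, b⟩
    refine ⟨tri_closed_NACell _ _ _ _, tri_convex_NACell _ _ _ _, ?_, fun _ _ => rfl⟩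
    rintro _ ⟨u, w, hu, hw, h1, h2, rfl⟩ _ ⟨u', w', hu', hw', h1', h2', rfl⟩
    have e := P.pt_co_NACell c hu hw h1
    have e' := P.pt_co_NACell c hu' hw' h1'
    dsimp only
    rw [← h]
    refine (DevCx.dist_common (P.σ_mem_NACell c b) (e ▸ P.co_supp_NACell c b h2)
      (e' ▸ P.co_supp_NACell c b h2')).le.trans ?_
    rw [P.co_dev_NACell e, P.co_dev_NACell e']

/-- the midpoint of a side at the identity -/
noncomputable def mNACell (s : P.Si) : P.gcx.cx.V := ((1 : P.gcx.Γ), some (Sum.inr (Sum.inl s)))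

/-- the ends of a side at the identity -/
noncomputable def bNACell (s : {s : P.Si // ∃ c, P.sd c = s}) (b : Bool) : P.gcx.cx.V :=
  (P.gcx.gen (Ed.SA s b), some (Sum.inl (P.en s.1 b)))

/-- barycentric coordinates on a side -/
noncomputable def sco_NACell (s : {s : P.Si // ∃ c, P.sd c = s}) (u w : ℝ) : P.gcx.cx.V →₀ ℝ :=
  Finsupp.single (P.mNACell s.1) (2 * min u w) +
    Finsupp.single (P.bNACell s false) (u - min u w) +
    Finsupp.single (P.bNACell s true) (w - min u w)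

theorem smul_co_NACell (g : P.gcx.Γ) (x : P.gcx.cx.P) {f : P.gcx.cx.V →₀ ℝ} (h : x.co = f) :
    (g • x).co = Finsupp.mapDomain (α := P.gcx.cx.V) (β := P.gcx.cx.V) (P.gcx.sh g) f := by
  rw [← h]
  exact Finsupp.equivMapDomain_eq_mapDomain _ _

theorem sh_a_NACell (c : P.Cn) : P.gcx.sh (P.gcx.gen (Ed.FS c))⁻¹ (P.aNACell c) =
    P.bNACell ⟨P.sd c, c, rfl⟩ (P.fl c) := by
  have h : P.gcx.gen (Ed.FS c) * P.gcx.gen (Ed.SA ⟨P.sd c, c, rfl⟩ (xor (P.fl c) false)) =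
    P.gcx.gen (Ed.FA c) := P.gcx.gen_tri (c, false)
  rw [Bool.xor_false] at h
  refine Prod.ext ?_ rfl
  change (P.gcx.gen (Ed.FS c))⁻¹ * P.gcx.gen (Ed.FA c) = P.gcx.gen (Ed.SA _ _)
  rw [← h, inv_mul_cancel_left]

theorem sh_nx_NACell (c : P.Cn) : P.gcx.sh (P.gcx.gen (Ed.FS c))⁻¹ (P.aNACell (P.nx c)) =
    P.bNACell ⟨P.sd c, c, rfl⟩ (!P.fl c) := by
  have h : P.gcx.gen (Ed.FS c) * P.gcx.gen (Ed.SA ⟨P.sd c, c, rfl⟩ (xor (P.fl c) true)) =
    P.gcx.gen (Ed.FA (P.nx c)) := P.gcx.gen_tri (c, true)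
  rw [Bool.xor_true] at h
  refine Prod.ext ?_ ?_
  · change (P.gcx.gen (Ed.FS c))⁻¹ * P.gcx.gen (Ed.FA (P.nx c)) = P.gcx.gen (Ed.SA _ _)
    rw [← h, inv_mul_cancel_left]
  · change some (Sum.inl (P.ap (P.nx c))) = some (Sum.inl (P.en (P.sd c) (!P.fl c)))
    rw [P.close_ap]

theorem sh_s_NACell (c : P.Cn) : P.gcx.sh (P.gcx.gen (Ed.FS c))⁻¹ (P.sNACell c) =
    P.mNACell (P.sd c) :=
  Prod.ext (inv_mul_cancel (P.gcx.gen (Ed.FS c))) rfl

theorem side_NACell (c : P.Cn) (s : {s : P.Si // ∃ c, P.sd c = s}) (hs : P.sd c = s.1) {u w : ℝ}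
    (hu : 0 ≤ u) (hw : 0 ≤ w) (h1 : u + w = 1) : ∃ x : P.gcx.cx.P, x.co = P.sco_NACell s u w ∧
      P.gcx.act.pt (P.ptNACell (P.fc c)
        (P.m2 c • (u • (P.m1 s.1 false).b + w • (P.m1 s.1 true).b))) 1 =
      P.m2 c • P.gcx.act.pt x 1 := by
  obtain rfl : s = ⟨P.sd c, c, rfl⟩ := Subtype.ext hs.symm
  have key : ∀ u w : ℝ, 0 ≤ u → 0 ≤ w → u + w = 1 →
      ((P.gcx.gen (Ed.FS c))⁻¹ • P.ptNACell (P.fc c) (P.m2 c •
        (u • (P.m1 (P.sd c) (P.fl c)).b + w • (P.m1 (P.sd c) (!P.fl c)).b))).co =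
      Finsupp.single (P.mNACell (P.sd c)) (2 * min u w) +
        Finsupp.single (P.bNACell ⟨P.sd c, c, rfl⟩ (P.fl c)) (u - min u w) +
        Finsupp.single (P.bNACell ⟨P.sd c, c, rfl⟩ (!P.fl c)) (w - min u w) := by
    intro u w hu hw h1
    have e : P.m2 c • (u • (P.m1 (P.sd c) (P.fl c)).b + w • (P.m1 (P.sd c) (!P.fl c)).b) =
        P.gon.ctr (P.fc c) + u • (P.vt c - P.gon.ctr (P.fc c)) +
          w • (P.vt (P.nx c) - P.gon.ctr (P.fc c)) := by
      obtain rfl : w = 1 - u := by linarith only [h1]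
      rw [vt_NACell, vt_nx_NACell]
      simp only [Mot.smul_def, Complex.real_smul]
      push_cast
      ring
    rw [e, P.smul_co_NACell _ _ (P.pt_co_NACell c hu hw h1.le), coNACell,
      show 1 - u - w = 0 by linarith, Finsupp.single_zero, zero_add, Finsupp.mapDomain_add,
      Finsupp.mapDomain_add, Finsupp.mapDomain_single, Finsupp.mapDomain_single,
      Finsupp.mapDomain_single, sh_a_NACell, sh_nx_NACell, sh_s_NACell]
  refine ⟨(P.gcx.gen (Ed.FS c))⁻¹ • P.ptNACell (P.fc c) (P.m2 c •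
    (u • (P.m1 (P.sd c) false).b + w • (P.m1 (P.sd c) true).b)), ?_, ?_⟩
  · cases hf : P.fl c
    · have := key u w hu hw h1
      rw [hf] at this
      exact this
    · have := key w u hw hu (by linarith)
      rw [hf, add_comm, min_comm, add_right_comm] at this
      exact this
  · rw [DevAct.smul_pt]
    refine Eq.trans ?_ (P.gcx.act.pt_smul (P.gcx.gen (Ed.FS c))⁻¹ _ _).symm
    congr 1
    change 1 = P.m2 c * 1 * P.gcx.hol (P.gcx.gen (Ed.FS c))⁻¹
    rw [map_inv, GC0.hol_of, mul_one]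
    exact (mul_inv_cancel (P.m2 c)).symm

open Classical in
/-- the placed points of a side -/
noncomputable def siNACell (s : P.Si) (y : ℂ) : P.gcx.act.PP :=
  if h : ∃ c, P.sd c = s then (P.m2 h.choose)⁻¹ •
    P.gcx.act.pt (P.ptNACell (P.fc h.choose) (P.m2 h.choose • y)) 1
  else P.gcx.act.pt (P.ptNACell P.neF.some y) 1

theorem si_eq_NACell (c : P.Cn) {u w : ℝ} (hu : 0 ≤ u) (hw : 0 ≤ w) (h1 : u + w = 1)
    {x : P.gcx.cx.P} (hx : x.co = P.sco_NACell ⟨P.sd c, c, rfl⟩ u w) :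
    P.siNACell (P.sd c) (u • (P.m1 (P.sd c) false).b + w • (P.m1 (P.sd c) true).b) =
      P.gcx.act.pt x 1 := by
  have h : ∃ c', P.sd c' = P.sd c := ⟨c, rfl⟩
  obtain ⟨y, hy, e⟩ := P.side_NACell h.choose ⟨P.sd c, c, rfl⟩ h.choose_spec hu hw h1
  rw [siNACell, dif_pos h, e, inv_smul_smul, DevCx.ext_NACell (hy.trans hx.symm)]

theorem si_end_NACell (c : P.Cn) (b : Bool) : P.siNACell (P.sd c) (P.m1 (P.sd c) b).b =
    P.m1 (P.sd c) b • P.gcx.act.pt
      (P.gcx.cx.vpt ((1 : P.gcx.Γ), some (Sum.inl (P.en (P.sd c) b)))) 1 := by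
  have e : P.gcx.act.pt (P.gcx.cx.vpt (P.bNACell ⟨P.sd c, c, rfl⟩ b)) 1 = P.m1 (P.sd c) b •
      P.gcx.act.pt (P.gcx.cx.vpt ((1 : P.gcx.Γ), some (Sum.inl (P.en (P.sd c) b)))) 1 := by
    have h := P.gcx.smul_vpt (P.gcx.gen (Ed.SA ⟨P.sd c, c, rfl⟩ b)) 1
      (some (Sum.inl (P.en (P.sd c) b)))
    rw [mul_one] at h
    rw [DevAct.smul_pt]
    refine (congrArg (fun x => P.gcx.act.pt x 1) h.symm).trans ((P.gcx.act.pt_smul _ _ _).trans ?_)
    congr 1
    change 1 * P.gcx.hol (P.gcx.gen _) = _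
    rw [GC0.hol_of, one_mul, mul_one]
    rfl
  rw [← e]
  cases b
  · have := P.si_eq_NACell c zero_le_one le_rfl (add_zero 1)
      (x := P.gcx.cx.vpt (P.bNACell ⟨P.sd c, c, rfl⟩ false)) (by simp [sco_NACell]; rfl)
    simpa using this
  · have := P.si_eq_NACell c le_rfl zero_le_one (zero_add 1)
      (x := P.gcx.cx.vpt (P.bNACell ⟨P.sd c, c, rfl⟩ true)) (by simp [sco_NACell]; rfl)
    simpa using this

theorem flat_NACell : ∃ r₀ : ℝ, 0 < r₀ ∧ ∀ c, ∃ w ∈ P.gon.poly (P.fc c), ∀ a,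
    dist (P.ptNACell (P.fc c) w) a ≤ r₀ → dist (P.gcx.cx.dev a)
      (P.gcx.cx.dev (P.ptNACell (P.fc c) w)) = dist (P.ptNACell (P.fc c) w) a := by
  classical
  obtain ⟨r₀, h0, h⟩ := P.gcx.cx.flat_bary
  refine ⟨r₀, h0, fun c => ⟨_, P.gon.tri_sub_NACell c (u := 1 / 2) (w := 1 / 6) (by norm_num)
    (by norm_num) (by norm_num), ?_⟩⟩
  have n1 : P.oNACell (P.fc c) ≠ P.sNACell c := fun e =>
    Sum.inr_ne_inl (Sum.inr_injective (Option.some_injective _ (congrArg Prod.snd e)))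
  have n2 : P.oNACell (P.fc c) ≠ P.aNACell c := fun e =>
    Sum.inr_ne_inl (Option.some_injective _ (congrArg Prod.snd e))
  have n3 : P.sNACell c ≠ P.aNACell c := fun e =>
    Sum.inr_ne_inl (Option.some_injective _ (congrArg Prod.snd e))
  refine h _ (P.σ_mem_NACell c false) ?_ _ ?_
  · exact Finset.card_eq_three.2 ⟨_, _, _, n1, n2, n3, by ext v; simp [mem_σ_NACell]⟩
  · intro v hv
    have e := P.pt_co_NACell c (u := 1 / 2) (w := 1 / 6) (by norm_num) (by norm_num) (by norm_num)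
    refine (DFunLike.congr_fun e v).trans ?_
    rw [coNACell, min_eq_right (by norm_num), sub_self, Finsupp.single_zero, add_zero,
      show (1 - 1 / 2 - 1 / 6 : ℝ) = 1 / 3 by norm_num, show (2 * (1 / 6) : ℝ) = 1 / 3 by norm_num,
      show (1 / 2 - 1 / 6 : ℝ) = 1 / 3 by norm_num]
    exact bary_NACell n1 n2 n3 _ (P.mem_σ_NACell.1 hv)

end Poly

theorem Poly.cells (P : Poly) : Nonempty (CellSys P P.gcx.act) := by
  obtain ⟨r₀, h0, h⟩ := P.flat_NACell
  refine ⟨⟨fun v => P.gcx.act.pt (P.gcx.cx.vpt ((1 : P.gcx.Γ), some (Sum.inl v))) 1, P.siNACell,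
    fun f z => P.gcx.act.pt (P.ptNACell f z) 1, r₀, h0, P.patch_NACell, P.si_end_NACell, ?_, ?_⟩⟩
  · rintro c _ ⟨u, w, hu, hw, h1, rfl⟩
    obtain ⟨x, hx, e⟩ := P.side_NACell c ⟨P.sd c, c, rfl⟩ rfl hu hw h1
    rw [P.si_eq_NACell c hu hw h1 hx]
    exact e
  · intro c
    obtain ⟨w, hw, e⟩ := h c
    exact ⟨w, hw, _, 1, rfl, e⟩

end Pool.Agent.Work.MP_0909b4_al.NA
end

-- merged part: Pool.Agent.Work.MP_0909b4_al.NAMain
section
-- merged part: Pool.Agent.Work.MP_0909b4_al.NAMoreau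
section
/-! The Delaunay geometry of the children: mixed cells cover the inflated tile.

`ell j` is the affine function with `normSq (x - PC j) - rr = normSq x - 2 ell j x`. At a vertex `v` of
the subdivision `ell j v ≤ normSq v / 2` with equality iff `v` is a vertex of `j`.

Plan.
* `Tj_weights`: `Gon.weights`. `ell_max`: compare at the vertices (`circ`, `del_le`).
* `mem_of_max`: check the half plane of each side `d` of `j`. If `d = bd k p` it contains `5 t`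
  (`bd_δ`, `bd_PV`). Else `ell j - ell (dch (opp d))` vanishes at `PV d` and has gradient
  `PC j - PC j' = l * I * (a δ)` with `l > 0` (`wz_birth`, `GE.wz_eq`).
* `dual_uniq`: `dot (PC j - PC i) (x - x') ≥ 0` for `x ∈ Tj j`, `x' ∈ Tj i`, so
  `dot (p - p') (x - x') ≥ 0`.
* `moreau`: maximise the concave function `∑ λ j b j - normSq (w - ∑ λ j c j) / (2 μ)` on the standard
  simplex and perturb the maximiser by `ε (e i - e j)`.
* `dual_exists`: apply `moreau` to the children of `t`. If `x ∉ 5 t` let `x₀` be the nearest point of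
  `5 t`, `ν = x - x₀`; `x₀` is on a side, in the side of a child `j₀ = dch (bd k p)` chosen with
  `dot (PC j₀) ν = dot (C t) ν + 4 h`, `h = dot x₀ ν / 5 = max` of `dot · ν` on `t` (if `x₀` is a corner
  `5 V k` take `p = 0`; else `dot (δ k) ν = 0`). All active `j` have the same `dot (PC j) ν`
  (`PC_in`, `ell_max`), which contradicts `y ∈ t`. So `x ∈ 5 t` and `mem_of_max` applies.
-/

namespace Pool.Agent.Work.MP_0909b4_al.NA

theorem NAMoreau_sum {J : Type} [Fintype J] [DecidableEq J] (l f : J → ℝ) (i j : J) (ε : ℝ) :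
    ∑ k, (l k + ε * ((if k = i then 1 else 0) - (if k = j then 1 else 0))) * f k =
      ∑ k, l k * f k + ε * (f i - f j) := by
  have h : ∀ k, (l k + ε * ((if k = i then 1 else 0) - (if k = j then 1 else 0))) * f k =
      l k * f k + (ε * (if k = i then f k else 0) - ε * (if k = j then f k else 0)) := by
    intro k
    split_ifs <;> ring
  simp only [h, Finset.sum_add_distrib, Finset.sum_sub_distrib, ← Finset.mul_sum,
    Finset.sum_ite_eq', Finset.mem_univ, if_true]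
  ring

theorem NAMoreau_hull {A : Set ℂ} {p : ℂ} (h : p ∈ convexHull ℝ A) (α β γ : ℝ)
    (hA : ∀ q ∈ A, 0 ≤ α * q.re + β * q.im + γ) : 0 ≤ α * p.re + β * p.im + γ := by
  have hc : Convex ℝ {q : ℂ | 0 ≤ α * q.re + β * q.im + γ} := by
    intro x hx y hy a b ha hb hab
    have hx' : 0 ≤ α * x.re + β * x.im + γ := hx
    have hy' : 0 ≤ α * y.re + β * y.im + γ := hy
    have e : α * (a • x + b • y).re + β * (a • x + b • y).im + γ =
        a * (α * x.re + β * x.im + γ) + b * (α * y.re + β * y.im + γ) := by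
      have hb' : b = 1 - a := by linarith
      simp only [Complex.add_re, Complex.add_im, Complex.smul_re, Complex.smul_im, smul_eq_mul, hb']
      ring
    change 0 ≤ α * (a • x + b • y).re + β * (a • x + b • y).im + γ
    rw [e]
    exact add_nonneg (mul_nonneg ha hx') (mul_nonneg hb hy')
  exact convexHull_min hA hc h

theorem NAMoreau_cross (a u v : ℂ) : cross (a * u) (a * v) = Complex.normSq a * cross u v := by
  simp only [cross, Complex.mul_re, Complex.mul_im, Complex.normSq_apply]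
  ring

theorem NAMoreau_normSq (m : Mot) : Complex.normSq m.a = 1 := by
  rw [Complex.normSq_eq_norm_sq, m.norm_a, one_pow]

theorem moreau {J : Type} [Fintype J] [Nonempty J] (c : J → ℂ) (b : J → ℝ) {μ : ℝ} (hμ : 0 < μ)
    (w : ℂ) : ∃ (x : ℂ) (l : J → ℝ), (∀ j, 0 ≤ l j) ∧ ∑ j, l j = 1 ∧
      w = μ * x + ∑ j, l j • c j ∧ ∀ j, l j ≠ 0 → ∀ i, dot (c i) x + b i ≤ dot (c j) x + b j := by
  classical
  let G : (J → ℝ) → ℝ := fun l => 2 * μ * ∑ k, l k * b k -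
    ((w.re - ∑ k, l k * (c k).re) ^ 2 + (w.im - ∑ k, l k * (c k).im) ^ 2)
  have hG : Continuous G := by fun_prop
  obtain ⟨j₀⟩ := (inferInstance : Nonempty J)
  obtain ⟨l, hl, hmax⟩ := (isCompact_stdSimplex ℝ J).exists_isMaxOn
    ⟨_, single_mem_stdSimplex ℝ j₀⟩ hG.continuousOn
  obtain ⟨hl0, hl1⟩ := hl
  obtain ⟨X, hX⟩ : ∃ X, X = (w.re - ∑ k, l k * (c k).re) / μ := ⟨_, rfl⟩
  obtain ⟨Y, hY⟩ : ∃ Y, Y = (w.im - ∑ k, l k * (c k).im) / μ := ⟨_, rfl⟩
  have hX' : w.re - ∑ k, l k * (c k).re = μ * X := by rw [hX]; field_simp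
  have hY' : w.im - ∑ k, l k * (c k).im = μ * Y := by rw [hY]; field_simp
  refine ⟨⟨X, Y⟩, l, hl0, hl1, ?_, ?_⟩
  · apply Complex.ext
    · simp only [Complex.add_re, Complex.mul_re, Complex.ofReal_re, Complex.ofReal_im,
        Complex.re_sum, Complex.smul_re, smul_eq_mul]
      linarith only [hX']
    · simp only [Complex.add_im, Complex.mul_im, Complex.ofReal_re, Complex.ofReal_im,
        Complex.im_sum, Complex.smul_im, smul_eq_mul]
      linarith only [hY']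
  · intro j hj i
    have hj' : 0 < l j := lt_of_le_of_ne (hl0 j) (Ne.symm hj)
    obtain ⟨A, hA⟩ : ∃ A, A = b i - b j + (((c i).re - (c j).re) * X + ((c i).im - (c j).im) * Y) :=
      ⟨_, rfl⟩
    obtain ⟨K, hK⟩ : ∃ K, K = ((c i).re - (c j).re) ^ 2 + ((c i).im - (c j).im) ^ 2 := ⟨_, rfl⟩
    have hK0 : 0 ≤ K := by rw [hK]; positivity
    have key : ∀ ε : ℝ, 0 < ε → ε ≤ l j → 2 * μ * A ≤ ε * K := by
      intro ε hε hεl
      have hmem : (fun k => l k + ε * ((if k = i then 1 else 0) - (if k = j then 1 else 0))) ∈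
          stdSimplex ℝ J := by
        refine ⟨fun k => ?_, ?_⟩
        · have := hl0 k
          dsimp only
          by_cases h1 : k = j
          · have h2 : ε ≤ l k := by rwa [h1]
            rw [if_pos h1]
            split_ifs <;> linarith only [hε, h2]
          · rw [if_neg h1]
            split_ifs <;> linarith only [hε, this]
        · have := NAMoreau_sum l (fun _ => 1) i j ε
          simpa [hl1] using this
      have h2 : G _ ≤ G l := hmax hmem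
      simp only [G, NAMoreau_sum] at h2
      have e1 : w.re - (∑ k, l k * (c k).re + ε * ((c i).re - (c j).re)) =
          μ * X - ε * ((c i).re - (c j).re) := by linarith only [hX']
      have e2 : w.im - (∑ k, l k * (c k).im + ε * ((c i).im - (c j).im)) =
          μ * Y - ε * ((c i).im - (c j).im) := by linarith only [hY']
      rw [e1, e2, hX', hY'] at h2
      have h3 : ε * (2 * μ * A - ε * K) ≤ 0 := by
        rw [hA, hK]
        linarith only [h2, h2]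
      have h4 : 2 * μ * A - ε * K ≤ 0 := by
        by_contra h5
        exact absurd (mul_pos hε (not_le.mp h5)) (not_lt.mpr h3)
      linarith only [h4]
    have hA0 : A ≤ 0 := by
      by_contra h5
      have h6 : 0 < μ * A := mul_pos hμ (not_le.mp h5)
      have h7 : 0 < μ * A / (K + 1) := by positivity
      have h8 := key (min (l j) (μ * A / (K + 1))) (lt_min hj' h7) (min_le_left _ _)
      have h9 : min (l j) (μ * A / (K + 1)) * K ≤ μ * A / (K + 1) * (K + 1) :=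
        mul_le_mul (min_le_right _ _) (by linarith only []) hK0 h7.le
      rw [div_mul_cancel₀ _ (by positivity)] at h9
      linarith only [h6, h8, h9]
    simp only [dot]
    rw [hA] at hA0
    linarith only [hA0]

namespace Sub

variable (S : Sub)

/-- the child as a subset of the inflated parent -/
def Tj (j : S.Ch) : Set ℂ := {x | ∃ y ∈ S.tile (S.ty j), x = S.mo j • y}

noncomputable def ell (j : S.Ch) (x : ℂ) : ℝ :=
  dot (S.PC j) x - (Complex.normSq (S.PC j) - S.rr (S.ty j)) / 2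

/-- the convex hull of the centres of the children that contain `x` -/
def Dual (t : S.Ty) (x : ℂ) : Set ℂ := convexHull ℝ (S.PC '' {j | S.par j = t ∧ x ∈ S.Tj j})

/-- the side of a child -/
def eseg (d : S.D) : Set ℂ := segment ℝ (S.PV d) (S.PV (S.nxd d))

/-- the dual segment -/
def dseg (d : S.D) : Set ℂ := segment ℝ (S.PC (S.dch d)) (S.PC (S.dch (S.opp d)))

variable {S}

theorem NAMoreau_tile {t : S.Ty} {y : ℂ} :
    y ∈ S.tile t ↔ ∀ k, S.cty k = t → 0 ≤ cross (S.δ k) (y - S.V k) := Iff.rfl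

theorem NAMoreau_V_mem (k : S.Co) : S.V k ∈ S.tile (S.cty k) := S.gon.vt_mem k

theorem NAMoreau_Tj_convex (j : S.Ch) : Convex ℝ (S.Tj j) := by
  rintro _ ⟨y, hy, rfl⟩ _ ⟨z, hz, rfl⟩ a b ha hb hab
  refine ⟨a • y + b • z, S.gon.poly_convex _ hy hz ha hb hab, ?_⟩
  have hb' : (b : ℂ) = 1 - a := by
    have : b = 1 - a := by linarith
    rw [this]
    push_cast
    ring
  simp only [Mot.smul_def, Complex.real_smul, hb']
  ring

theorem PV_mem (d : S.D) : S.PV d ∈ S.Tj (S.dch d) := by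
  refine ⟨S.V (S.dco d), ?_, rfl⟩
  rw [← S.dco_ty]
  exact NAMoreau_V_mem _

theorem eseg_sub (d : S.D) : S.eseg d ⊆ S.Tj (S.dch d) := by
  refine (NAMoreau_Tj_convex _).segment_subset (PV_mem d) ?_
  have := PV_mem (S.nxd d)
  rwa [S.dch_nxd] at this

theorem eseg_opp {d : S.D} (h : S.isB d = false) : S.eseg (S.opp d) = S.eseg d := by
  unfold eseg
  rw [S.opp_PV d h, S.opp_PV' h, segment_symm]

open Classical in
theorem NAMoreau_dsum [Fintype S.D] [Fintype S.Co] {M : Type} [AddCommMonoid M] (j : S.Ch)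
    (g : S.Co → M) (hg : ∀ k, S.cty k ≠ S.ty j → g k = 0) :
    ∑ d, (if S.dch d = j then g (S.dco d) else 0) = ∑ k, g k := by
  rw [← Finset.sum_filter, ← Finset.sum_subset
    (Finset.subset_univ (Finset.univ.filter fun k => S.cty k = S.ty j))
    (fun k _ hk => hg k (by simpa using hk))]
  refine Finset.sum_bij' (fun d _ => S.dco d) (fun k _ => S.dart j k) ?_ ?_ ?_ ?_ ?_
  · intro d hd
    simp only [Finset.mem_filter, Finset.mem_univ, true_and] at hd ⊢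
    rw [S.dco_ty, hd]
  · intro k hk
    simp only [Finset.mem_filter, Finset.mem_univ, true_and] at hk ⊢
    exact S.dch_dart j k hk
  · intro d hd
    simp only [Finset.mem_filter, Finset.mem_univ, true_and] at hd
    rw [← hd, S.dart_eta]
  · intro k hk
    simp only [Finset.mem_filter, Finset.mem_univ, true_and] at hk
    exact S.dco_dart j k hk
  · intro d _
    rfl

theorem Tj_weights [Fintype S.D] {j : S.Ch} {x : ℂ} (h : x ∈ S.Tj j) : ∃ w : S.D → ℝ,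
    (∀ d, 0 ≤ w d) ∧ (∀ d, S.dch d ≠ j → w d = 0) ∧ ∑ d, w d = 1 ∧ ∑ d, w d • S.PV d = x := by
  classical
  let := Fintype.ofFinite S.Co
  obtain ⟨y, hy, rfl⟩ := h
  obtain ⟨k₀, hk₀⟩ := S.co_surj (S.ty j)
  obtain ⟨w, hw, hw0, hw1, hwy⟩ := S.gon.weights k₀ (z := y) (by
    change y ∈ S.tile (S.cty k₀)
    rwa [hk₀])
  have hw0' : ∀ k, S.cty k ≠ S.ty j → w k = 0 := fun k hk => hw0 k (by
    change S.cty k ≠ S.cty k₀
    rwa [hk₀])
  have hwy' : ∑ k, w k • S.V k = y := hwy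
  refine ⟨fun d => if S.dch d = j then w (S.dco d) else 0, ?_, ?_, ?_, ?_⟩
  · intro d
    dsimp only
    split_ifs
    · exact hw _
    · exact le_rfl
  · intro d hd
    exact if_neg hd
  · rw [NAMoreau_dsum j w hw0', hw1]
  · have e : ∀ d, (if S.dch d = j then w (S.dco d) else 0) • S.PV d =
        if S.dch d = j then w (S.dco d) • (S.mo j • S.V (S.dco d)) else 0 := by
      intro d
      split_ifs with hd
      · rw [← hd]
        rfl
      · exact zero_smul _ _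
    simp only [e]
    rw [NAMoreau_dsum j (fun k => w k • (S.mo j • S.V k)) (fun k hk => by
      simp only [hw0' k hk, zero_smul])]
    have e2 : ∀ k, w k • (S.mo j • S.V k) = (S.mo j).a * (w k • S.V k) + w k • (S.mo j).b := by
      intro k
      simp only [Mot.smul_def, Complex.real_smul]
      ring
    simp only [e2, Finset.sum_add_distrib, ← Finset.mul_sum, ← Finset.sum_smul, hw1, hwy', one_smul]
    rfl

theorem NAMoreau_aff {j : S.Ch} {x : ℂ} (h : x ∈ S.Tj j) (α β γ : ℝ)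
    (hA : ∀ d, S.dch d = j → 0 ≤ α * (S.PV d).re + β * (S.PV d).im + γ) :
    0 ≤ α * x.re + β * x.im + γ := by
  classical
  let := Fintype.ofFinite S.D
  obtain ⟨w, hw, hw0, hw1, rfl⟩ := Tj_weights h
  have e : α * (∑ d, w d • S.PV d).re + β * (∑ d, w d • S.PV d).im + γ =
      ∑ d, w d * (α * (S.PV d).re + β * (S.PV d).im + γ) := by
    have e1 : ∀ d, w d * (α * (S.PV d).re + β * (S.PV d).im + γ) =
        α * (w d * (S.PV d).re) + β * (w d * (S.PV d).im) + γ * w d := fun d => by ring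
    simp only [e1, Finset.sum_add_distrib, ← Finset.mul_sum, hw1, Complex.re_sum, Complex.im_sum,
      Complex.smul_re, Complex.smul_im, smul_eq_mul, mul_one]
  rw [e]
  refine Finset.sum_nonneg fun d _ => ?_
  by_cases hd : S.dch d = j
  · exact mul_nonneg (hw d) (hA d hd)
  · rw [hw0 d hd, zero_mul]

theorem Tj_sub {j : S.Ch} {x : ℂ} (h : x ∈ S.Tj j) : ∃ y ∈ S.tile (S.par j), x = 5 * y := by
  refine ⟨x / 5, NAMoreau_tile.mpr fun k hk => ?_, by ring⟩
  have := NAMoreau_aff h (-(S.δ k).im) (S.δ k).re (-5 * cross (S.δ k) (S.V k)) (fun d hd => by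
    have h1 := S.PV_in d k (by rw [hk, ← hd]; rfl)
    simp only [cross, Complex.sub_re, Complex.sub_im, Complex.mul_re, Complex.mul_im,
      Complex.re_ofNat, Complex.im_ofNat] at h1 ⊢
    linarith only [h1])
  simp only [cross, Complex.sub_re, Complex.sub_im, Complex.div_ofNat_re,
    Complex.div_ofNat_im] at this ⊢
  linarith only [this]

theorem PC_sub' (j : S.Ch) : ∃ y ∈ S.tile (S.par j), S.PC j = S.C (S.par j) + 4 * y := by
  refine ⟨(S.PC j - S.C (S.par j)) / 4, NAMoreau_tile.mpr fun k hk => ?_, by ring⟩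
  have h1 := S.PC_in j k hk
  simp only [cross, Complex.sub_re, Complex.sub_im, Complex.mul_re, Complex.mul_im,
    Complex.re_ofNat, Complex.im_ofNat, Complex.div_ofNat_re, Complex.div_ofNat_im] at h1 ⊢
  linarith only [h1]

theorem tile_rad {t : S.Ty} {y : ℂ} (h : y ∈ S.tile t) :
    Complex.normSq (y - S.C t) ≤ S.rr t := by
  obtain ⟨k₀, rfl⟩ := S.co_surj t
  have h0 : 0 ≤ S.rr (S.cty k₀) := by
    rw [← S.circ]
    exact Complex.normSq_nonneg _
  have h1 : y ∈ convexHull ℝ (S.gon.vt '' {c | S.gon.fc c = S.gon.fc k₀}) := by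
    rw [← S.gon.poly_eq_hull]
    exact h
  have h2 : y ∈ Metric.closedBall (S.C (S.cty k₀)) (√(S.rr (S.cty k₀))) := by
    refine convexHull_min ?_ (convex_closedBall _ _) h1
    rintro _ ⟨k, hk, rfl⟩
    have hk' : S.cty k = S.cty k₀ := hk
    rw [Metric.mem_closedBall, dist_eq_norm, ← hk', ← S.circ k, Complex.normSq_eq_norm_sq,
      Real.sqrt_sq (norm_nonneg _)]
    exact le_rfl
  rw [Metric.mem_closedBall, dist_eq_norm] at h2
  rw [Complex.normSq_eq_norm_sq, ← Real.sq_sqrt h0]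
  exact pow_le_pow_left₀ (norm_nonneg _) h2 2

theorem NAMoreau_ell (j : S.Ch) (v : ℂ) : S.ell j v =
    Complex.normSq v / 2 - (Complex.normSq (v - S.PC j) - S.rr (S.ty j)) / 2 := by
  simp only [ell, dot, Complex.normSq_apply, Complex.sub_re, Complex.sub_im]
  ring

theorem NAMoreau_ell_PV (d : S.D) : S.ell (S.dch d) (S.PV d) = Complex.normSq (S.PV d) / 2 := by
  have h : Complex.normSq (S.PV d - S.PC (S.dch d)) = S.rr (S.ty (S.dch d)) := by
    have e : S.PV d - S.PC (S.dch d) =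
        (S.mo (S.dch d)).a * (S.V (S.dco d) - S.C (S.cty (S.dco d))) := by
      rw [S.dco_ty]
      exact Mot.smul_sub _ _ _
    rw [e, Complex.normSq_mul, NAMoreau_normSq, one_mul, S.circ, S.dco_ty]
  rw [NAMoreau_ell, h]
  ring

theorem NAMoreau_ell_sub (j : S.Ch) (x v : ℂ) :
    S.ell j x = S.ell j v + dot (S.PC j) (x - v) := by
  simp only [ell, dot, Complex.sub_re, Complex.sub_im]
  ring

theorem ell_max {i j : S.Ch} (h : S.par i = S.par j) {x : ℂ} (hx : x ∈ S.Tj j) :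
    S.ell i x ≤ S.ell j x := by
  have := NAMoreau_aff hx ((S.PC j).re - (S.PC i).re) ((S.PC j).im - (S.PC i).im)
    ((Complex.normSq (S.PC i) - S.rr (S.ty i)) / 2 - (Complex.normSq (S.PC j) - S.rr (S.ty j)) / 2)
    (fun d hd => by
      have h1 := NAMoreau_ell_PV d
      have h2 := NAMoreau_ell i (S.PV d)
      have h3 := S.del_le i d (by rw [h, ← hd]; rfl)
      rw [hd] at h1
      simp only [ell, dot] at h1 h2
      linarith only [h1, h2, h3])
  simp only [ell, dot]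
  linarith only [this]

theorem mem_of_max {j : S.Ch} {y : ℂ} (hy : y ∈ S.tile (S.par j))
    (h : ∀ i, S.par i = S.par j → S.ell i (5 * y) ≤ S.ell j (5 * y)) : 5 * y ∈ S.Tj j := by
  refine ⟨(S.mo j)⁻¹ • (5 * y), NAMoreau_tile.mpr fun k hk => ?_, (smul_inv_smul _ _).symm⟩
  obtain ⟨d, hd1, hd2⟩ : ∃ d, S.dch d = j ∧ S.dco d = k :=
    ⟨S.dart j k, S.dch_dart j k hk, S.dco_dart j k hk⟩
  subst hd1 hd2
  have e : cross (S.δ (S.dco d)) ((S.mo (S.dch d))⁻¹ • (5 * y) - S.V (S.dco d)) =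
      cross ((S.mo (S.dch d)).a * S.δ (S.dco d)) (5 * y - S.PV d) := by
    have e1 : 5 * y - S.PV d =
        (S.mo (S.dch d)).a * ((S.mo (S.dch d))⁻¹ • (5 * y) - S.V (S.dco d)) := by
      rw [← Mot.smul_sub, smul_inv_smul]
      rfl
    rw [e1, NAMoreau_cross, NAMoreau_normSq, one_mul]
  rw [e]
  cases hB : S.isB d
  · obtain ⟨l, hl, hw⟩ := (GE.birth hB).wz_eq
    have h1 := wz_birth hB
    have h2 := h (S.dch (S.opp d)) (S.opp_par d hB)
    have h3 := NAMoreau_ell_PV d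
    have h4 := NAMoreau_ell_PV (S.nxd (S.opp d))
    rw [S.dch_nxd, S.opp_PV' hB] at h4
    rw [NAMoreau_ell_sub _ _ (S.PV d), NAMoreau_ell_sub (S.dch d) _ (S.PV d), h3, h4] at h2
    obtain ⟨u, hu⟩ : ∃ u, u = (S.mo (S.dch d)).a * S.δ (S.dco d) := ⟨_, rfl⟩
    have h5 : S.PC (S.dch (S.opp d)) = S.PC (S.dch d) + l * (-Complex.I * u) := by
      rw [hw] at h1
      rw [hu]
      linear_combination -h1
    rw [← hu]
    rw [h5] at h2
    have h6 : 0 ≤ l * cross u (5 * y - S.PV d) := by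
      generalize 5 * y - S.PV d = z at h2 ⊢
      simp only [dot, cross, Complex.add_re, Complex.add_im, Complex.mul_re, Complex.mul_im,
        Complex.neg_re, Complex.neg_im, Complex.I_re, Complex.I_im, Complex.ofReal_re,
        Complex.ofReal_im] at h2 ⊢
      linarith only [h2]
    exact nonneg_of_mul_nonneg_right h6 hl
  · have h1 := S.bd_δ (S.bs d) (S.bp d)
    have h2 := S.bd_PV (S.bs d) (S.bp d)
    rw [S.bd_eta d hB] at h1 h2
    have h3 := NAMoreau_tile.mp hy (S.bs d) (S.cty_bs hB)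
    rw [h1, h2]
    simp only [cross, Complex.sub_re, Complex.sub_im, Complex.add_re, Complex.add_im,
      Complex.mul_re, Complex.mul_im, Complex.re_ofNat, Complex.im_ofNat, Complex.natCast_re,
      Complex.natCast_im] at h3 ⊢
    linarith only [h3]

theorem plain_cover {t : S.Ty} {y : ℂ} (hy : y ∈ S.tile t) :
    ∃ j, S.par j = t ∧ 5 * y ∈ S.Tj j := by
  obtain ⟨k, hk⟩ := S.co_surj t
  have h0 : S.par (S.dch (S.bd k 0)) = t := (S.bd_par k 0).trans hk
  obtain ⟨j, hj, hmax⟩ := Set.exists_max_image {j | S.par j = t} (fun j => S.ell j (5 * y))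
    (Set.toFinite _) ⟨_, h0⟩
  have hj' : S.par j = t := hj
  exact ⟨j, hj', mem_of_max (by rwa [hj']) fun i hi => hmax i (hi.trans hj')⟩

theorem dual_uniq {t : S.Ty} {μ : ℝ} (hμ : 0 < μ) {x x' p p' : ℂ} (h : p ∈ S.Dual t x)
    (h' : p' ∈ S.Dual t x') (e : μ * x + p = μ * x' + p') : x = x' ∧ p = p' := by
  have h1 : 0 ≤ (x.re - x'.re) * p.re + (x.im - x'.im) * p.im +
      -((x.re - x'.re) * p'.re + (x.im - x'.im) * p'.im) := by
    refine NAMoreau_hull h _ _ _ ?_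
    rintro _ ⟨j, ⟨hj, hx⟩, rfl⟩
    have h2 : 0 ≤ -(x.re - x'.re) * p'.re + -(x.im - x'.im) * p'.im +
        ((x.re - x'.re) * (S.PC j).re + (x.im - x'.im) * (S.PC j).im) := by
      refine NAMoreau_hull h' _ _ _ ?_
      rintro _ ⟨i, ⟨hi, hx'⟩, rfl⟩
      have h3 := ell_max (hi.trans hj.symm) hx
      have h4 := ell_max (hj.trans hi.symm) hx'
      simp only [ell, dot] at h3 h4
      linarith only [h3, h4]
    linarith
  have e1 := congrArg Complex.re e
  have e2 := congrArg Complex.im e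
  simp only [Complex.add_re, Complex.add_im, Complex.mul_re, Complex.mul_im, Complex.ofReal_re,
    Complex.ofReal_im] at e1 e2
  have e3 : p.re = p'.re - μ * (x.re - x'.re) := by linarith
  have e4 : p.im = p'.im - μ * (x.im - x'.im) := by linarith
  rw [e3, e4] at h1
  have h5 : μ * ((x.re - x'.re) ^ 2 + (x.im - x'.im) ^ 2) ≤ 0 := by linarith
  have h6 : (x.re - x'.re) ^ 2 + (x.im - x'.im) ^ 2 ≤ 0 := by
    by_contra h7
    exact absurd (mul_pos hμ (not_le.mp h7)) (not_lt.mpr h5)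
  have h7 : x.re - x'.re = 0 := by nlinarith [sq_nonneg (x.re - x'.re), sq_nonneg (x.im - x'.im)]
  have h8 : x.im - x'.im = 0 := by nlinarith [sq_nonneg (x.re - x'.re), sq_nonneg (x.im - x'.im)]
  have hx : x = x' := Complex.ext (by linarith only [h7]) (by linarith only [h8])
  refine ⟨hx, ?_⟩
  rw [hx] at e
  exact add_left_cancel e

/-- a point of the tile that maximises a nonzero linear form lies on a side -/
theorem NAMoreau_side {t : S.Ty} {y ν : ℂ} (hy : y ∈ S.tile t) (hν : ν ≠ 0)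
    (h : ∀ z ∈ S.tile t, dot ν (z - y) ≤ 0) :
    ∃ k, S.cty k = t ∧ cross (S.δ k) (y - S.V k) = 0 := by
  by_contra hno
  push Not at hno
  have h1 : ∀ᶠ ε : ℝ in nhds 0, ∀ k, S.cty k = t → 0 < cross (S.δ k) (y + ε * ν - S.V k) := by
    rw [Filter.eventually_all]
    intro k
    by_cases hk : S.cty k = t
    · have hc : Continuous fun ε : ℝ => cross (S.δ k) (y + ε * ν - S.V k) := by
        unfold cross
        fun_prop
      have h0 : 0 < cross (S.δ k) (y + (0 : ℝ) * ν - S.V k) := by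
        have := lt_of_le_of_ne (NAMoreau_tile.mp hy k hk) (hno k hk).symm
        simpa using this
      exact (hc.continuousAt.eventually (lt_mem_nhds h0)).mono fun ε hε _ => hε
    · exact Filter.Eventually.of_forall fun ε hk' => absurd hk' hk
  obtain ⟨ε, h2, h3⟩ := ((h1.filter_mono (nhdsWithin_le_nhds (s := Set.Ioi 0))).and
    self_mem_nhdsWithin).exists
  have h4 := h (y + ε * ν) (NAMoreau_tile.mpr fun k hk => (h2 k hk).le)
  have h5 : 0 < Complex.normSq ν := Complex.normSq_pos.mpr hν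
  have h6 : 0 < ε * Complex.normSq ν := mul_pos h3 h5
  simp only [dot, Complex.sub_re, Complex.sub_im, Complex.add_re, Complex.add_im, Complex.mul_re,
    Complex.mul_im, Complex.ofReal_re, Complex.ofReal_im, Complex.normSq_apply] at h4 h6
  linarith

theorem NAMoreau_corner (k : S.Co) (ν : ℂ) : ∃ j, S.par j = S.cty k ∧ 5 * S.V k ∈ S.Tj j ∧
    dot (S.PC j) ν = dot (S.C (S.cty k) + 4 * S.V k) ν := by
  refine ⟨S.dch (S.bd k 0), S.bd_par k 0, ?_, ?_⟩
  · have h := PV_mem (S.bd k 0)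
    rw [S.bd_PV] at h
    simpa using h
  · rw [S.bd_PC]
    simp

/-- the child that touches an extreme point and has an extreme centre -/
theorem NAMoreau_extreme {t : S.Ty} {y ν : ℂ} (hy : y ∈ S.tile t) (hν : ν ≠ 0)
    (h : ∀ z ∈ S.tile t, dot ν (z - y) ≤ 0) :
    ∃ j, S.par j = t ∧ 5 * y ∈ S.Tj j ∧ dot (S.PC j) ν = dot (S.C t + 4 * y) ν := by
  obtain ⟨k, rfl, hk⟩ := NAMoreau_side hy hν h
  obtain ⟨a, s, ha, hs, has, hys⟩ := S.gon.on_side (c := k) hy hk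
  have hys' : y = S.V k + s * S.δ k := by
    have e : a • S.V k + s • S.V (S.nx k) = y := hys
    have ha' : (a : ℂ) = 1 - s := by
      have : a = 1 - s := by linarith
      rw [this]
      push_cast
      ring
    rw [← e]
    simp only [Complex.real_smul, ha', Sub0.δ]
    ring
  rcases hs.eq_or_lt with h0 | h0
  · have e : y = S.V k := by rw [hys', ← h0]; simp
    rw [e]
    exact NAMoreau_corner k ν
  rcases ha.eq_or_lt with h1 | h1
  · have e : y = S.V (S.nx k) := by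
      have : s = 1 := by linarith
      rw [hys', this]
      simp [Sub0.δ]
    have := NAMoreau_corner (S.nx k) ν
    rw [S.cty_nx] at this
    rw [e]
    exact this
  have h2 := h (S.V k) (NAMoreau_V_mem k)
  have h3 := h (S.V (S.nx k)) (by
    have := NAMoreau_V_mem (S.nx k)
    rwa [S.cty_nx] at this)
  have e2 : S.V k - y = ((-s : ℝ) : ℂ) * S.δ k := by
    rw [hys']
    push_cast
    ring
  have e3 : S.V (S.nx k) - y = (a : ℂ) * S.δ k := by
    have : a = 1 - s := by linarith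
    rw [hys', this]
    simp only [Sub0.δ]
    push_cast
    ring
  rw [e2] at h2
  rw [e3] at h3
  have h4 : dot (S.δ k) ν = 0 := by
    have h2' : 0 ≤ s * dot (S.δ k) ν := by
      simp only [dot, Complex.mul_re, Complex.mul_im, Complex.ofReal_re, Complex.ofReal_im] at h2 ⊢
      linarith
    have h3' : a * dot (S.δ k) ν ≤ 0 := by
      simp only [dot, Complex.mul_re, Complex.mul_im, Complex.ofReal_re, Complex.ofReal_im] at h3 ⊢
      linarith
    have h5 : 0 ≤ dot (S.δ k) ν := by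
      by_contra h6
      exact absurd (mul_neg_of_pos_of_neg h0 (not_le.mp h6)) (not_lt.mpr h2')
    have h6 : dot (S.δ k) ν ≤ 0 := by
      by_contra h7
      exact absurd (mul_pos h1 (not_le.mp h7)) (not_lt.mpr h3')
    exact le_antisymm h6 h5
  have h5 : ⌊5 * s⌋₊ < 5 := by
    rw [Nat.floor_lt (by positivity)]
    push_cast
    linarith
  obtain ⟨p, hp⟩ : ∃ p : Fin 5, p.val = ⌊5 * s⌋₊ := ⟨⟨_, h5⟩, rfl⟩
  have h6 : (p.val : ℝ) ≤ 5 * s := by rw [hp]; exact Nat.floor_le (by positivity)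
  have h7 : 5 * s < p.val + 1 := by rw [hp]; exact Nat.lt_floor_add_one _
  refine ⟨S.dch (S.bd k p), S.bd_par k p, eseg_sub _ ?_, ?_⟩
  · refine ⟨p.val + 1 - 5 * s, 5 * s - p.val, by linarith only [h7], by linarith only [h6], by ring, ?_⟩
    rw [S.bd_PV, S.bd_PV', hys']
    simp only [Complex.real_smul]
    push_cast
    ring
  · rw [S.bd_PC, hys']
    simp only [dot, Complex.add_re, Complex.add_im, Complex.mul_re, Complex.mul_im,
      Complex.re_ofNat, Complex.im_ofNat, Complex.natCast_re, Complex.natCast_im,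
      Complex.ofReal_re, Complex.ofReal_im] at h4 ⊢
    linear_combination ((p.val : ℝ) - 4 * s) * h4

theorem dual_exists {t : S.Ty} {μ : ℝ} (hμ : 0 < μ) {y : ℂ} (hy : y ∈ S.tile t) :
    ∃ x p, p ∈ S.Dual t x ∧ μ * x + p = (5 * μ + 4) * y + S.C t := by
  classical
  obtain ⟨k, hk⟩ := S.co_surj t
  let := Fintype.ofFinite {j : S.Ch // S.par j = t}
  have : Nonempty {j : S.Ch // S.par j = t} := ⟨⟨S.dch (S.bd k 0), (S.bd_par k 0).trans hk⟩⟩
  obtain ⟨x, l, hl0, hl1, hw, hact⟩ := moreau (fun j : {j : S.Ch // S.par j = t} => S.PC j.1)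
    (fun j => -((Complex.normSq (S.PC j.1) - S.rr (S.ty j.1)) / 2)) hμ ((5 * μ + 4) * y + S.C t)
  have hact' : ∀ j, l j ≠ 0 → ∀ i, S.par i = t → S.ell i x ≤ S.ell j.1 x := by
    intro j hj i hi
    have := hact j hj ⟨i, hi⟩
    simp only [ell]
    linarith only [hi, this]
  obtain ⟨y₀, hy₀, hmin₀⟩ := exists_norm_eq_iInf_of_complete_convex (K := S.tile t) ⟨y, hy⟩
    (S.gon.poly_closed t).isComplete (S.gon.poly_convex t) (x / 5)
  have hmin := (norm_eq_iInf_iff_real_inner_le_zero (K := S.tile t) (S.gon.poly_convex t)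
    hy₀).mp hmin₀
  obtain ⟨ν, hν⟩ : ∃ ν, ν = x / 5 - y₀ := ⟨_, rfl⟩
  have hx : x = 5 * y₀ + 5 * ν := by rw [hν]; ring
  have hmin' : ∀ z ∈ S.tile t, dot ν (z - y₀) ≤ 0 := by
    intro z hz
    have := hmin z hz
    rw [← hν, Complex.inner] at this
    simp only [dot, Complex.mul_re, Complex.conj_re, Complex.conj_im] at this ⊢
    linarith only [this]
  have hν0 : ν = 0 := by
    by_contra hne
    obtain ⟨j₀, hj₀, hmem, hdot⟩ := NAMoreau_extreme hy₀ hne hmin'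
    have h1 : ∀ j, l j * dot (S.C t + 4 * y₀) ν ≤ l j * dot (S.PC j.1) ν := by
      intro j
      by_cases hj : l j = 0
      · simp [hj]
      refine mul_le_mul_of_nonneg_left ?_ (hl0 j)
      have h2 := hact' j hj j₀ hj₀
      have h3 := ell_max (j.2.trans hj₀.symm) hmem
      rw [NAMoreau_ell_sub j₀ x (5 * y₀), NAMoreau_ell_sub j.1 x (5 * y₀)] at h2
      have e : x - 5 * y₀ = 5 * ν := by rw [hx]; ring
      rw [e] at h2
      rw [← hdot]
      simp only [dot, Complex.mul_re, Complex.mul_im, Complex.re_ofNat, Complex.im_ofNat] at h2 ⊢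
      linarith only [h3, h2]
    have h2 := Finset.sum_le_sum fun j (_ : j ∈ Finset.univ) => h1 j
    rw [← Finset.sum_mul, hl1, one_mul] at h2
    have h3 : ∑ j, l j * dot (S.PC j.1) ν = dot (∑ j, l j • S.PC j.1) ν := by
      simp only [dot, Complex.re_sum, Complex.im_sum, Complex.smul_re, Complex.smul_im,
        smul_eq_mul, Finset.sum_mul, ← Finset.sum_add_distrib]
      exact Finset.sum_congr rfl fun j _ => by ring
    have h4 : ∑ j, l j • S.PC j.1 = (5 * μ + 4) * y + S.C t - μ * (5 * y₀ + 5 * ν) := by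
      rw [hw, ← hx]
      ring
    rw [h3, h4] at h2
    have h5 := mul_nonneg (by positivity : 0 ≤ 5 * μ + 4) (neg_nonneg.mpr (hmin' y hy))
    have h6 : 0 < μ * Complex.normSq ν := mul_pos hμ (Complex.normSq_pos.mpr hne)
    simp only [dot, Complex.add_re, Complex.add_im, Complex.sub_re, Complex.sub_im, Complex.mul_re,
      Complex.mul_im, Complex.re_ofNat, Complex.im_ofNat, Complex.ofReal_re, Complex.ofReal_im,
      Complex.normSq_apply] at h2 h5 h6
    linarith only [h5, h6, h2]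
  have hx' : x = 5 * y₀ := by rw [hx, hν0]; ring
  refine ⟨x, ∑ j, l j • S.PC j.1, ?_, hw.symm⟩
  rw [← Finset.sum_filter_of_ne (p := fun j => l j ≠ 0) (fun j _ hj h0 => hj (by simp [h0]))]
  refine (convex_convexHull ℝ _).sum_mem (fun j _ => hl0 j) ?_ ?_
  · rw [Finset.sum_filter_of_ne (fun j _ hj => hj), hl1]
  · intro j hj
    have hj' : l j ≠ 0 := (Finset.mem_filter.mp hj).2
    refine subset_convexHull ℝ _ ⟨j.1, ⟨j.2, ?_⟩, rfl⟩
    rw [hx']
    refine mem_of_max (by rw [j.2]; exact hy₀) fun i hi => ?_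
    rw [← hx']
    exact hact' j hj' i (hi.trans j.2)

theorem dual_into {t : S.Ty} {μ : ℝ} (hμ : 0 < μ) {x p : ℂ} (h : p ∈ S.Dual t x) :
    ∃ y ∈ S.tile t, μ * x + p = (5 * μ + 4) * y + S.C t := by
  obtain ⟨_, j, ⟨hj, hx⟩, rfl⟩ := convexHull_nonempty_iff.mp ⟨p, h⟩
  obtain ⟨y₁, hy₁, rfl⟩ := Tj_sub hx
  rw [hj] at hy₁
  have hy₂ : (p - S.C t) / 4 ∈ S.tile t := by
    refine NAMoreau_tile.mpr fun k hk => ?_
    have := NAMoreau_hull h (-(S.δ k).im) (S.δ k).re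
      (-cross (S.δ k) (S.C t) - 4 * cross (S.δ k) (S.V k)) (by
        rintro _ ⟨i, ⟨hi, _⟩, rfl⟩
        have h1 := S.PC_in i k (hk.trans hi.symm)
        rw [hi] at h1
        simp only [cross, Complex.sub_re, Complex.sub_im, Complex.mul_re, Complex.mul_im,
          Complex.re_ofNat, Complex.im_ofNat] at h1 ⊢
        linarith only [h1])
    simp only [cross, Complex.sub_re, Complex.sub_im, Complex.div_ofNat_re,
      Complex.div_ofNat_im] at this ⊢
    linarith only [this]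
  have h0 : (0 : ℝ) < 5 * μ + 4 := by positivity
  refine ⟨(5 * μ / (5 * μ + 4)) • y₁ + (4 / (5 * μ + 4)) • ((p - S.C t) / 4),
    S.gon.poly_convex t hy₁ hy₂ (by positivity) (by positivity) (by field_simp), ?_⟩
  have h1 : (5 * μ + 4 : ℂ) ≠ 0 := by exact_mod_cast h0.ne'
  simp only [Complex.real_smul]
  push_cast
  have h2 : (5 * μ + 4 : ℂ) * (5 * μ + 4 : ℂ)⁻¹ = 1 := mul_inv_cancel₀ h1
  linear_combination (-(5 * μ * y₁) - (p - S.C t)) * h2

end Sub

end Pool.Agent.Work.MP_0909b4_al.NA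
end

-- merged part: Pool.Agent.Work.MP_0909b4_al.NAClass
section
/-! Classification of the mixed cells and of their overlaps.

Plan.
* `vertex_in`: `normSq (PV d - PC j) ≤ rr` by `tile_rad`, so `del_le`, `del_eq` apply.
* `common`: write `x = ∑ w d PV d` in `j`; `ell j x = ell j' x` forces `ell j' = ell j` at all `PV d` with
  `w d > 0`, so these are vertices of `j'` (`del_eq`). If only one weight is positive `x` is a
  vertex; else `share` gives the side, and no third weight is positive (apply `share` to other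
  pairs, or `Gon` facts).
* `act_vertex`: `vertex_in`, `PV_mem`, `st_iff`.
* `classify`: if `x = PV d`: for a corner dart only one child is active (`isC_of_st`); for `two d`
  two children, separated by the interior side `pvd d` or `pvd (vnx d)`; else
  `Gon.poly_eq_hull` for `gonV`. If `x` is no vertex, `common` shows that at most two children are
  active. Replace `e` by `opp e` to get `left`.
* `ov_TE`, `ov_EE`: if `x` is no vertex use `common`. If `x` is a vertex, it is an end of the side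
  (`ov_EV`); the dual segments are sides of the polygon `gonV` (`Gon.vt_on_seg`, `Gon.seg_inter`),
  or `two_of_st` applies.
-/

namespace Pool.Agent.Work.MP_0909b4_al.NA

namespace Sub

variable {S : Sub}

theorem NAClass_cross (m : Mot) (z w : ℂ) : cross (m.a * z) (m.a * w) = cross z w := by
  have h : m.a.re ^ 2 + m.a.im ^ 2 = 1 := by
    have := Complex.normSq_eq_norm_sq m.a
    rw [m.norm_a, Complex.normSq_apply] at this
    linarith only [this]
  simp only [cross, Complex.mul_re, Complex.mul_im]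
  linear_combination (z.re * w.im - z.im * w.re) * h

theorem NAClass_normSq (m : Mot) (z w : ℂ) :
    Complex.normSq (m • z - m • w) = Complex.normSq (z - w) := by
  rw [Complex.normSq_eq_norm_sq, Complex.normSq_eq_norm_sq, Mot.norm_smul_sub]

theorem NAClass_cr (d : S.D) (y : ℂ) : cross (S.PV (S.nxd d) - S.PV d)
    (S.mo (S.dch d) • y - S.PV d) = S.gon.cr (S.dco d) y := by
  rw [PV_nxd, add_sub_cancel_left, Sub0.PV, Mot.smul_sub, NAClass_cross]
  rfl

/-- the children as polygons -/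
noncomputable def NAClass_gon (S : Sub) : Gon S.D S.Ch where
  fin := S.finD
  fc := S.dch
  nx := S.nxd
  vt := S.PV
  fc_nx := S.dch_nxd
  cyc d d' h := by
    obtain ⟨n, hn⟩ := S.cyc (S.dco d) (S.dco d') (by rw [S.dco_ty, S.dco_ty, h])
    have : ∀ n, S.dch (S.nxd^[n] d) = S.dch d ∧ S.dco (S.nxd^[n] d) = S.nx^[n] (S.dco d) := by
      intro n
      induction n with
      | zero => exact ⟨rfl, rfl⟩
      | succ n ih =>
        rw [Function.iterate_succ_apply', Function.iterate_succ_apply', dch_nxd, dco_nxd, ih.2]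
        exact ⟨ih.1, rfl⟩
    exact ⟨n, S.d_ext ((this n).1.trans h) ((this n).2.trans hn)⟩
  three d h := S.three (S.dco d) (by rw [← dco_nxd, ← dco_nxd, h])
  convex d d' h h1 h2 := by
    have e : S.PV d' = S.mo (S.dch d) • S.V (S.dco d') := by rw [h]; rfl
    rw [e, NAClass_cr]
    exact S.convex _ _ (by rw [S.dco_ty, S.dco_ty, h]) (fun e => h1 (S.d_ext h.symm e))
      fun e => h2 (S.d_ext (by rw [dch_nxd, h]) (by rw [dco_nxd, e]))

theorem NAClass_poly {j : S.Ch} {x : ℂ} (h : x ∈ S.Tj j) : x ∈ S.NAClass_gon.poly j := by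
  obtain ⟨y, hy, rfl⟩ := h
  rintro d rfl
  exact (hy (S.dco d) (S.dco_ty d)).trans_eq (NAClass_cr d y).symm

theorem NAClass_inter {e e' : S.D} (h : S.dch e = S.dch e') {x : ℂ} (hx : x ∈ S.eseg e)
    (hx' : x ∈ S.eseg e') (hv : ¬∃ d, S.dpar d = S.dpar e ∧ x = S.PV d) : e = e' := by
  by_contra hne
  rcases S.NAClass_gon.seg_inter h hne hx hx' with h1 | h1
  · exact hv ⟨e', congrArg S.par h.symm, h1.2⟩
  · exact hv ⟨e, rfl, h1.2⟩

theorem NAClass_ell (j : S.Ch) (x : ℂ) :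
    Complex.normSq (x - S.PC j) = Complex.normSq x - 2 * S.ell j x + S.rr (S.ty j) := by
  simp only [ell, dot, Complex.normSq_apply, Complex.sub_re, Complex.sub_im]
  ring

theorem NAClass_sum [Fintype S.D] (j : S.Ch) {w : S.D → ℝ} (h : ∑ d, w d = 1) :
    S.ell j (∑ d, w d • S.PV d) = ∑ d, w d * S.ell j (S.PV d) := by
  simp only [ell, dot, Complex.re_sum, Complex.im_sum, Complex.smul_re, Complex.smul_im,
    smul_eq_mul, mul_sub, mul_add, Finset.sum_sub_distrib, Finset.sum_add_distrib, Finset.mul_sum,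
    ← Finset.sum_mul, h, one_mul, mul_left_comm]

theorem vertex_in {j : S.Ch} {d : S.D} (h : S.par j = S.dpar d) (hx : S.PV d ∈ S.Tj j) :
    ∃ d', S.dch d' = j ∧ S.st d' = S.st d := by
  refine S.del_eq j d h (le_antisymm ?_ (S.del_le j d h))
  obtain ⟨y, hy, e⟩ := hx
  rw [e, Sub0.PC, NAClass_normSq]
  exact tile_rad hy

theorem common {j j' : S.Ch} (h : S.par j = S.par j') (hne : j ≠ j') {x : ℂ} (hx : x ∈ S.Tj j)
    (hx' : x ∈ S.Tj j') : (∃ d, S.dch d = j ∧ x = S.PV d) ∨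
      ∃ e, S.dch e = j ∧ S.isB e = false ∧ S.dch (S.opp e) = j' ∧ x ∈ S.eseg e := by
  classical
  have := Fintype.ofFinite S.D
  obtain ⟨w, w0, w1, w2, w3⟩ := Tj_weights hx
  have h0 : ∀ d, w d ≠ 0 → S.dch d = j := fun d hd => by_contra fun e => hd (w1 d e)
  have h1 : ∑ d, w d * (S.ell j (S.PV d) - S.ell j' (S.PV d)) = 0 := by
    simp only [mul_sub, Finset.sum_sub_distrib, ← NAClass_sum _ w2, w3]
    exact sub_eq_zero.2 (le_antisymm (ell_max h hx') (ell_max h.symm hx))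
  rw [Finset.sum_eq_zero_iff_of_nonneg fun d _ => by
    by_cases hd : w d = 0
    · simp [hd]
    · exact mul_nonneg (w0 d) (sub_nonneg.2 (ell_max h.symm (h0 d hd ▸ PV_mem d)))] at h1
  have h2 : ∀ d, w d ≠ 0 → ∃ d', S.dch d' = j' ∧ S.st d' = S.st d := by
    intro d hd
    obtain rfl := h0 d hd
    refine S.del_eq j' d h.symm ?_
    have h3 := (mul_eq_zero.1 (h1 d (Finset.mem_univ _))).resolve_left hd
    have h4 := NAClass_ell (S.dch d) (S.PV d)
    have h5 : Complex.normSq (S.PV d - S.PC (S.dch d)) = S.rr (S.ty (S.dch d)) := by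
      rw [Sub0.PV, Sub0.PC, NAClass_normSq, ← S.dco_ty, S.circ]
    rw [NAClass_ell]
    linarith only [h3, h4, h5]
  have h3 : ∀ e, S.dch e = j → S.isB e = false → S.dch (S.opp e) = j' → x ∈ S.eseg e := by
    intro e e1 e2 e3
    have h4 := NAClass_poly hx e e1
    have h5 := NAClass_poly hx' _ e3
    refine S.NAClass_gon.on_side (c := e) (NAClass_poly (e1 ▸ hx : x ∈ S.Tj (S.dch e))) (le_antisymm ?_ h4)
    change 0 ≤ cross (S.PV (S.nxd (S.opp e)) - S.PV (S.opp e)) (x - S.PV (S.opp e)) at h5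
    change cross (S.PV (S.nxd e) - S.PV e) (x - S.PV e) ≤ 0
    rw [S.opp_PV' e2, S.opp_PV e e2] at h5
    simp only [cross, Complex.sub_re, Complex.sub_im] at h5 ⊢
    linarith
  obtain ⟨d₁, -, hd₁⟩ := Finset.exists_ne_zero_of_sum_ne_zero (w2.trans_ne one_ne_zero)
  by_cases h4 : ∃ d₂, d₂ ≠ d₁ ∧ w d₂ ≠ 0
  · obtain ⟨d₂, h4, hd₂⟩ := h4
    obtain ⟨e₁, a1, a2⟩ := h2 d₁ hd₁
    obtain ⟨e₂, b1, b2⟩ := h2 d₂ hd₂
    rcases S.share d₁ d₂ e₁ e₂ ((h0 _ hd₁).trans (h0 _ hd₂).symm) (a1.trans b1.symm)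
      (by rwa [h0 _ hd₁, a1]) h4.symm a2.symm b2.symm with ⟨-, c1, rfl⟩ | ⟨-, c1, rfl⟩
    · exact Or.inr ⟨d₁, h0 _ hd₁, c1, b1, h3 _ (h0 _ hd₁) c1 b1⟩
    · exact Or.inr ⟨d₂, h0 _ hd₂, c1, a1, h3 _ (h0 _ hd₂) c1 a1⟩
  · push Not at h4
    rw [Finset.sum_eq_single d₁ (fun d _ hd => h4 d hd) (by simp)] at w2
    rw [Finset.sum_eq_single d₁ (fun d _ hd => by rw [h4 d hd, zero_smul]) (by simp), w2,
      one_smul] at w3
    exact Or.inl ⟨d₁, h0 _ hd₁, w3.symm⟩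

theorem act_vertex (d : S.D) (j : S.Ch) : (S.par j = S.dpar d ∧ S.PV d ∈ S.Tj j) ↔
    ∃ d', S.dch d' = j ∧ S.st d' = S.st d := by
  refine ⟨fun h => vertex_in h.1 h.2, ?_⟩
  rintro ⟨d', rfl, h⟩
  obtain ⟨h1, h2⟩ := (S.st_iff _ _).1 h
  exact ⟨h1, h2 ▸ PV_mem d'⟩

theorem dual_T {j : S.Ch} {x : ℂ} (h : x ∈ S.Tj j) : S.PC j ∈ S.Dual (S.par j) x :=
  subset_convexHull ℝ _ ⟨j, ⟨rfl, h⟩, rfl⟩

theorem dual_E {e : S.D} (h : S.isB e = false) {x p : ℂ} (hx : x ∈ S.eseg e) (hp : p ∈ S.dseg e) :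
    p ∈ S.Dual (S.dpar e) x :=
  (convex_convexHull ℝ _).segment_subset (dual_T (eseg_sub e hx))
    (subset_convexHull ℝ _ ⟨_, ⟨S.opp_par e h, eseg_sub _ (eseg_opp h ▸ hx)⟩, rfl⟩) hp

theorem NAClass_same {d d' : S.D} (hc : ¬S.isC d) (h2 : ¬S.two d) (h : S.st d' = S.st d) :
    ¬S.isC d' ∧ ¬S.two d' :=
  have h1 : ¬S.isC d' := fun c => hc (S.isC_of_st h c ▸ c)
  ⟨h1, fun c => h2 (S.two_of_st h1 h c).1⟩

theorem dual_V {d : S.D} (hc : ¬S.isC d) (h2 : ¬S.two d) :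
    S.Dual (S.dpar d) (S.PV d) = S.gonV.poly (S.st d) := by
  refine Eq.trans ?_ (S.gonV.poly_eq_hull ⟨d, hc, h2⟩).symm
  rw [Dual]
  congr 1
  ext z
  constructor
  · rintro ⟨j, hj, rfl⟩
    obtain ⟨d', rfl, h⟩ := (act_vertex d j).1 hj
    exact ⟨⟨d', NAClass_same hc h2 h⟩, h, rfl⟩
  · rintro ⟨c, h, rfl⟩
    exact ⟨_, (act_vertex d _).2 ⟨c.1, rfl, h⟩, rfl⟩

theorem NAClass_dseg {e : S.D} (h : S.isB e = false) : S.dseg (S.opp e) = S.dseg e := by
  rw [dseg, S.opp_opp e h, segment_symm, dseg]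

theorem NAClass_vnx {e : S.D} (h : S.isB e = false) :
    S.vnx (S.nxd e) = S.opp e ∧ ¬S.isC (S.nxd e) := by
  refine ⟨by simp [Sub0.vnx, Sub0.turn, pvd_nxd, h], fun c => ?_⟩
  have := S.isC_pvd c
  simp [pvd_nxd, h] at this

theorem NAClass_one {t : S.Ty} {x p : ℂ} (h : p ∈ S.Dual t x) {j : S.Ch}
    (hj : ∀ i, S.par i = t → x ∈ S.Tj i → i = j) : p = S.PC j := by
  refine convexHull_min (t := {S.PC j}) ?_ (convex_singleton _) h
  rintro _ ⟨i, hi, rfl⟩
  exact congrArg S.PC (hj i hi.1 hi.2)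

theorem NAClass_two {x p : ℂ} {e : S.D} (h : p ∈ S.Dual (S.dpar e) x) (he : S.isB e = false)
    (hx : x ∈ S.eseg e)
    (hj : ∀ i, S.par i = S.dpar e → x ∈ S.Tj i → i = S.dch e ∨ i = S.dch (S.opp e)) :
    ∃ e', S.dpar e' = S.dpar e ∧ S.isB e' = false ∧ S.left e' = true ∧ x ∈ S.eseg e' ∧
      p ∈ S.dseg e' := by
  have hp : p ∈ S.dseg e := by
    refine convexHull_min ?_ (convex_segment _ _) h
    rintro _ ⟨i, hi, rfl⟩
    rcases hj i hi.1 hi.2 with rfl | rfl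
    exacts [left_mem_segment _ _ _, right_mem_segment _ _ _]
  cases hl : S.left e
  · exact ⟨S.opp e, S.opp_par e he, S.opp_B e he, by simp [S.opp_left e he, hl],
      eseg_opp he ▸ hx, NAClass_dseg he ▸ hp⟩
  · exact ⟨e, rfl, he, hl, hx, hp⟩

theorem NAClass_side {j : S.Ch} {e : S.D} (h : S.par j = S.dpar e) {x : ℂ} (hx : x ∈ S.Tj j)
    (hx' : x ∈ S.eseg e) (hv : ¬∃ d, S.dpar d = S.dpar e ∧ x = S.PV d) :
    j = S.dch e ∨ j = S.dch (S.opp e) := by
  refine or_iff_not_imp_left.2 fun hne => ?_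
  rcases common h.symm (Ne.symm hne) (eseg_sub e hx') hx with ⟨d, h1, h2⟩ | ⟨e', h1, -, h2, h3⟩
  · exact absurd ⟨d, congrArg S.par h1, h2⟩ hv
  · rw [NAClass_inter h1.symm hx' h3 hv, h2]

theorem classify {t : S.Ty} {x p : ℂ} (h : p ∈ S.Dual t x) :
    (∃ j, S.par j = t ∧ x ∈ S.Tj j ∧ p = S.PC j) ∨
    (∃ e, S.dpar e = t ∧ S.isB e = false ∧ S.left e = true ∧ x ∈ S.eseg e ∧ p ∈ S.dseg e) ∨
    ∃ d, S.dpar d = t ∧ ¬S.isC d ∧ ¬S.two d ∧ x = S.PV d ∧ p ∈ S.gonV.poly (S.st d) := by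
  by_cases hv : ∃ d, S.dpar d = t ∧ x = S.PV d
  · obtain ⟨d, rfl, rfl⟩ := hv
    by_cases hc : S.isC d
    · refine Or.inl ⟨S.dch d, rfl, PV_mem d, NAClass_one h fun i h1 h2 => ?_⟩
      obtain ⟨d', rfl, h3⟩ := vertex_in h1 h2
      rw [S.isC_of_st h3.symm hc]
    by_cases h2 : S.two d
    · obtain ⟨e, he, h3⟩ : ∃ e, S.isB e = false ∧ S.st d = S.st (S.nxd e) := by
        cases hb : S.isB (S.pvd d)
        · exact ⟨_, hb, by rw [nxd_pvd]⟩
        · obtain ⟨a1, a2, -⟩ := S.last_facts hb hc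
          exact ⟨_, (S.first_facts a1 a2).2.1, by rw [nxd_pvd, S.st_st]⟩
      obtain ⟨h4, h5⟩ := (S.st_iff _ _).1 h3
      rw [dpar_nxd] at h4
      rw [h4, h5] at h ⊢
      refine Or.inr (Or.inl (NAClass_two h he (right_mem_segment _ _ _) fun i h6 h7 => ?_))
      obtain ⟨d', rfl, h8⟩ := vertex_in (h6.trans (S.dpar_nxd e).symm) h7
      rcases (S.two_of_st (NAClass_vnx he).2 h8.symm (S.two_of_st hc h3 h2).1).2 with rfl | rfl
      · exact Or.inl (S.dch_nxd e)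
      · exact Or.inr (congrArg _ (NAClass_vnx he).1)
    · exact Or.inr (Or.inr ⟨d, rfl, hc, h2, rfl, dual_V hc h2 ▸ h⟩)
  · obtain ⟨_, j, ⟨rfl, hj⟩, -⟩ := convexHull_nonempty_iff.1 ⟨p, h⟩
    by_cases h1 : ∀ i, S.par i = S.par j → x ∈ S.Tj i → i = j
    · exact Or.inl ⟨j, rfl, hj, NAClass_one h h1⟩
    · push Not at h1
      obtain ⟨i, h2, h3, h4⟩ := h1
      rcases common h2.symm h4.symm hj h3 with ⟨d, rfl, h5⟩ | ⟨e, rfl, h5, -, h6⟩
      · exact absurd ⟨d, rfl, h5⟩ hv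
      · exact Or.inr (Or.inl (NAClass_two h h5 h6 fun i h7 h8 => NAClass_side h7 h8 h6 hv))

theorem ov_EV {e d : S.D} (h : S.dpar e = S.dpar d) (hx : S.PV d ∈ S.eseg e) :
    S.st e = S.st d ∨ S.st (S.nxd e) = S.st d := by
  obtain ⟨d', h1, h2⟩ := vertex_in h (eseg_sub e hx)
  rw [← ((S.st_iff _ _).1 h2).2] at hx
  rcases S.NAClass_gon.vt_on_seg (c := e) h1.symm hx with rfl | rfl
  exacts [Or.inl h2, Or.inr h2]

theorem NAClass_end {e d : S.D} (he : S.isB e = false) (h : S.dpar d = S.dpar e)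
    (hx : S.PV d ∈ S.eseg e) : ∃ f, S.isB f = false ∧ S.st (S.nxd f) = S.st d ∧
      S.dseg f = S.dseg e ∧ (f = e ∧ S.opp f = S.opp e ∨ f = S.opp e ∧ S.opp f = e) := by
  rcases ov_EV h.symm hx with h1 | h1
  · exact ⟨S.opp e, S.opp_B e he, (S.st_nxd_opp he).trans h1, NAClass_dseg he,
      Or.inr ⟨rfl, S.opp_opp e he⟩⟩
  · exact ⟨e, he, h1, rfl, Or.inl ⟨rfl, rfl⟩⟩

theorem NAClass_seg {e : S.D} (he : S.isB e = false) (h2 : ¬S.two (S.nxd e)) :
    S.gonV.seg ⟨S.nxd e, (NAClass_vnx he).2, h2⟩ = S.dseg e := by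
  change segment ℝ (S.PC (S.dch (S.nxd e))) (S.PC (S.dch (S.vnx (S.nxd e)))) = _
  rw [(NAClass_vnx he).1, dch_nxd, dseg]

theorem ov_TE {j : S.Ch} {e : S.D} (h : S.par j = S.dpar e) (he : S.isB e = false) {x : ℂ}
    (hx : x ∈ S.Tj j) (hx' : x ∈ S.eseg e) (hp : S.PC j ∈ S.dseg e) :
    j = S.dch e ∨ j = S.dch (S.opp e) := by
  by_cases hv : ∃ d, S.dpar d = S.dpar e ∧ x = S.PV d
  · obtain ⟨d, h1, rfl⟩ := hv
    obtain ⟨d', rfl, h2⟩ := vertex_in (h.trans h1.symm) hx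
    obtain ⟨f, f1, f2, f3, f4⟩ := NAClass_end he h1 hx'
    have h3 : d' = S.nxd f ∨ d' = S.vnx (S.nxd f) := by
      by_cases h4 : S.two (S.nxd f)
      · exact (S.two_of_st (NAClass_vnx f1).2 (f2.trans h2.symm) h4).2
      · rw [← f3, ← NAClass_seg f1 h4] at hp
        exact (S.gonV.vt_on_seg (c := ⟨_, (NAClass_vnx f1).2, h4⟩)
          (c' := ⟨d', NAClass_same (NAClass_vnx f1).2 h4 (h2.trans f2.symm)⟩)
          (f2.trans h2.symm) hp).imp (congrArg Subtype.val) (congrArg Subtype.val)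
    rw [(NAClass_vnx f1).1] at h3
    have h4 : S.dch d' = S.dch f ∨ S.dch d' = S.dch (S.opp f) :=
      h3.imp (fun e => by rw [e, dch_nxd]) (congrArg _)
    rcases f4 with ⟨f4, f5⟩ | ⟨f4, f5⟩ <;> rw [f5, f4] at h4
    exacts [h4, h4.symm]
  · exact NAClass_side h hx hx' hv

theorem ov_EE {e e' : S.D} (h : S.dpar e = S.dpar e') (he : S.isB e = false)
    (he' : S.isB e' = false) (h₁ : e' ≠ e) (h₂ : e' ≠ S.opp e) {x p : ℂ} (hx : x ∈ S.eseg e)
    (hx' : x ∈ S.eseg e') (hp : p ∈ S.dseg e) (hp' : p ∈ S.dseg e') :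
    p = S.PC (S.dch e) ∨ p = S.PC (S.dch (S.opp e)) := by
  by_cases hv : ∃ d, S.dpar d = S.dpar e ∧ x = S.PV d
  · obtain ⟨d, h1, rfl⟩ := hv
    obtain ⟨f, f1, f2, f3, f4⟩ := NAClass_end he h1 hx
    obtain ⟨g, g1, g2, g3, g4⟩ := NAClass_end he' (h1.trans h) hx'
    have h2 : S.nxd f ≠ S.nxd g := fun c => by
      obtain rfl : f = g := by rw [← S.pvd_nxd f, c, pvd_nxd]
      rcases f4 with f4 | f4 <;> rcases g4 with g4 | g4
      exacts [h₁ (g4.1.symm.trans f4.1), h₂ (g4.2.symm.trans f4.2), h₂ (g4.1.symm.trans f4.1),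
        h₁ (g4.2.symm.trans f4.2)]
    have h3 : ¬S.two (S.nxd f) := fun c => by
      have h4 := (S.two_of_st (NAClass_vnx f1).2 (f2.trans g2.symm) c).2.resolve_left h2.symm
      have h5 : S.opp g = S.nxd f := by rw [← (NAClass_vnx g1).1, h4]; exact c
      have h6 := S.two_B _ (NAClass_vnx f1).2 c
      rw [pvd_nxd, ← h5, S.opp_B g g1, f1] at h6
      simp at h6
    have h4 := (NAClass_same (NAClass_vnx f1).2 h3 (g2.trans f2.symm)).2
    rw [← f3, ← NAClass_seg f1 h3] at hp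
    rw [← g3, ← NAClass_seg g1 h4] at hp'
    have h5 : p = S.PC (S.dch f) ∨ p = S.PC (S.dch (S.opp f)) := by
      rcases S.gonV.seg_inter (c := ⟨_, (NAClass_vnx f1).2, h3⟩) (c' := ⟨_, (NAClass_vnx g1).2, h4⟩)
        (f2.trans g2.symm) (fun c => h2 (congrArg Subtype.val c)) hp hp' with ⟨a, b⟩ | ⟨-, b⟩
      · rw [a] at b
        exact Or.inr (b.trans (congrArg (fun z => S.PC (S.dch z)) (NAClass_vnx f1).1))
      · exact Or.inl (b.trans (congrArg S.PC (S.dch_nxd f)))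
    rcases f4 with ⟨f4, f5⟩ | ⟨f4, f5⟩ <;> rw [f5, f4] at h5
    exacts [h5, h5.symm]
  · rcases NAClass_side h.symm (eseg_sub e' hx') hx hv with h1 | h1
    · exact absurd (NAClass_inter h1.symm hx hx' hv).symm h₁
    · exact absurd (NAClass_inter h1.symm (eseg_opp he ▸ hx) hx'
        (by rwa [S.opp_par e he])).symm h₂

end Sub

end Pool.Agent.Work.MP_0909b4_al.NA
end

-- merged part: Pool.Agent.Work.MP_0909b4_al.NARec0
section
/-! The supertiles of level `n` as patches: definitions, plane geometry, and level `0`.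

Plan.
* `Bm_mx`: `(mu n + 1) / 2 = 5 ^ n`. `Bm_apm`, `apm_succ`, `gm_tv`: `Mot.ext` and computation
  (`ra_cor`, `bd_PV`, `bd_PC`, `GE.gm_V`).
* `poly_core`, `poly_strip`, `poly_vf`, `poly_mid`: unfold `Gon.poly` for `S.poly.gon`; the corners of
  the face are listed by the constructors, the vertices by `ma_eq`, `vt_strip`, `vt_mid`, `par_mem`.
* `lev0`: `Core G = fa (core G)`, `LS z = fa (strip z)`; the interface is `fa_si`, `fa_vt` for the
  corners of `core` and `strip`.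
-/

namespace Pool.Agent.Work.MP_0909b4_al.NA

/-- the weight of the Delaunay part at level `n` -/
noncomputable def mu (n : ℕ) : ℝ := 2 * 5 ^ n - 1

/-- mixed coordinates -/
noncomputable def mx (n : ℕ) (x p : ℂ) : ℂ := (mu n * x + p) / 2

/-- the age at level `n` -/
def an (n : ℕ) : Fin 3 := ⟨min n 2, by omega⟩

/-- the translation that places a vertex face at the vertex `v` -/
noncomputable def tv (n : ℕ) (v : ℂ) : Mot := Mot.tr (mu n * v / 2)

theorem NARec0_mu (n : ℕ) : ((mu n : ℝ) : ℂ) = 2 * 5 ^ n - 1 := by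
  simp [mu]

theorem NARec0_mu0 : ((mu 0 : ℝ) : ℂ) = 1 := by
  rw [NARec0_mu]
  norm_num

theorem mu_pos (n : ℕ) : 0 < mu n := by
  have : (1 : ℝ) ≤ 5 ^ n := one_le_pow₀ (by norm_num)
  unfold mu
  linarith

theorem mu_succ (n : ℕ) : mu (n + 1) = 5 * mu n + 4 := by
  unfold mu
  ring

theorem pow_le_mu (n : ℕ) : (5 : ℝ) ^ n ≤ mu n := by
  have : (1 : ℝ) ≤ 5 ^ n := one_le_pow₀ (by norm_num)
  unfold mu
  linarith

namespace Sub

variable (S : Sub)

/-- the supertile -/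
def OmT (n : ℕ) (t : S.Ty) : Set ℂ := {z | ∃ x ∈ S.tile t, z = mx n x (S.C t)}

/-- a point of the long strip -/
noncomputable def rp (n : ℕ) (k k' : S.Co) (s t : ℝ) : ℂ :=
  mx n (S.V k + s * S.δ k) (S.C (S.cty k) + t * S.wz k k')

/-- the long strip -/
def Rect (n : ℕ) (k k' : S.Co) : Set ℂ :=
  {z | ∃ s t : ℝ, 0 ≤ s ∧ s ≤ 1 ∧ 0 ≤ t ∧ t ≤ 1 ∧ z = S.rp n k k' s t}

/-- the placement of the apex at the corner `k` of a supertile -/
noncomputable def apm (n : ℕ) (k : S.Co) : Mot :=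
  (S.rotm (an n) k).at' (mx n (S.V k) (S.C (S.cty k)))

variable {S}

theorem Bm_mx (n : ℕ) (j : S.Ch) (x p : ℂ) :
    S.Bm (5 ^ n) j • mx n x p = mx n (S.mo j • x) (S.mo j • p) := by
  simp only [Bm, mx, Mot.smul_def, Mot.at'_a, Mot.at'_b, NARec0_mu]
  push_cast
  ring

theorem gm_mx (n : ℕ) (k k' : S.Co) (x p : ℂ) :
    S.gm k k' (5 ^ n) • mx n x p = mx n (S.gm k k' 1 • x) (S.gm k k' 1 • p) := by
  simp only [gm, mx, Mot.smul_def, NARec0_mu]
  push_cast
  ring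

theorem tv_smul (n : ℕ) (v p : ℂ) : tv n v • (p / 2) = mx n v p := by
  simp only [tv, mx, Mot.smul_def, Mot.tr_a, Mot.tr_b]
  ring

theorem Bm_apm (n : ℕ) (d : S.D) :
    S.Bm (5 ^ n) (S.dch d) * S.apm n (S.dco d) = tv n (S.PV d) * S.am d (an n) := by
  refine Mot.ext ?_ ?_
  · simp [Bm, apm, tv, am]
  · have h := Bm_mx n (S.dch d) (S.V (S.dco d)) (S.C (S.cty (S.dco d)))
    have h' := tv_smul n (S.PV d) (S.PC (S.dch d))
    change S.Bm (5 ^ n) (S.dch d) • mx n (S.V (S.dco d)) (S.C (S.cty (S.dco d))) =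
      tv n (S.PV d) • (S.PC (S.dch d) / 2)
    rw [h, h', S.dco_ty]
    rfl

theorem apm_succ (n : ℕ) (k : S.Co) :
    S.apm (n + 1) k = S.Bm (5 ^ n) (S.dch (S.bd k 0)) * S.apm n (S.cor k) := by
  refine Mot.ext ?_ ?_
  · have h1 : an (n + 1) ≠ 0 := by
      intro h
      have := congrArg Fin.val h
      simp [an] at this
    have h2 : (S.rotm (an n) (S.cor k)).a = 1 := by
      unfold rotm
      split_ifs
      · rfl
      · exact S.ra_cor k
    simp only [apm, Mot.mul_a, Mot.at'_a, h2, Bm, mul_one]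
    rw [rotm, if_neg h1]
    rfl
  · have h := Bm_mx n (S.dch (S.bd k 0)) (S.V (S.cor k)) (S.C (S.cty (S.cor k)))
    change mx (n + 1) (S.V k) (S.C (S.cty k)) =
      S.Bm (5 ^ n) (S.dch (S.bd k 0)) • mx n (S.V (S.cor k)) (S.C (S.cty (S.cor k)))
    have e1 : S.mo (S.dch (S.bd k 0)) • S.V (S.cor k) = S.PV (S.bd k 0) := rfl
    have e2 : S.mo (S.dch (S.bd k 0)) • S.C (S.cty (S.cor k)) = S.PC (S.dch (S.bd k 0)) := by
      unfold Sub0.cor
      rw [S.dco_ty]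
      rfl
    rw [h, e1, e2, S.bd_PV, S.bd_PC]
    simp only [mx, NARec0_mu]
    simp
    ring

theorem GE.gm_tv {z : S.ZS} (h : S.GE (S.kQ z) (S.kR z)) (n : ℕ) (p : Fin 4) :
    S.gm (S.kQ z) (S.kR z) (5 ^ (n + 1)) * tv n (S.PV (S.dR z p)) =
      tv n (S.PV (S.dQ z p)) * S.gm (S.kQ z) (S.kR z) (5 / 2) := by
  refine Mot.ext ?_ ?_
  · simp [gm, tv]
  · have h1 := h.az_δ
    have h2 : ((p.castSucc.rev.val : ℕ) : ℂ) = 4 - p.val := by
      have h3 : p.castSucc.rev.val + p.val = 4 := by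
        rw [Fin.val_rev, Fin.val_castSucc]
        omega
      have h4 : ((p.castSucc.rev.val : ℕ) : ℂ) + p.val = 4 := by exact_mod_cast h3
      linear_combination h4
    have h5 : S.V (S.nx (S.kQ z)) = S.V (S.kQ z) + S.δ (S.kQ z) := by
      unfold Sub0.δ
      ring
    simp only [gm, tv, Mot.mul_b, Mot.tr_a, Mot.tr_b, dR, dQ, S.bd_PV, NARec0_mu, h2, h5,
      Fin.val_succ]
    push_cast
    linear_combination ((2 * 5 ^ n - 1) / 2 * (4 - (p.val : ℂ))) * h1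

theorem iter_an {α : Type} (f : α → α) (h : ∀ x, f^[3] x = f^[2] x) (n : ℕ) (x : α) :
    f^[(an n).val] (f x) = f^[(an (n + 1)).val] x := by
  rcases n with _ | _ | n
  · rfl
  · rfl
  · have h1 : (an (n + 1 + 1)).val = 2 := by simp [an]
    have h2 : (an (n + 1 + 1 + 1)).val = 2 := by simp [an]
    rw [h1, h2]
    exact h x

/-- a side of a child in the coordinates of the parent -/
theorem Bm_rp_birth {e : S.D} (h : S.isB e = false) (n : ℕ) (s t : ℝ) :
    S.Bm (5 ^ n) (S.dch e) • S.rp n (S.dco e) (S.dco (S.opp e)) s t =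
      mx n (S.PV e + s * (S.PV (S.nxd e) - S.PV e))
        (S.PC (S.dch e) + t * (S.PC (S.dch (S.opp e)) - S.PC (S.dch e))) := by
  have h1 := S.PV_nxd e
  have h2 := wz_birth h
  rw [rp, Bm_mx, h1, ← h2, S.dco_ty]
  congr 1
  · simp only [Sub0.PV, Mot.smul_def]
    ring
  · simp only [Sub0.PC, Mot.smul_def]
    ring

theorem GE.Bm_rp_sub {k k' : S.Co} (h : S.GE k k') (n : ℕ) (p : Fin 5) (s t : ℝ) :
    S.Bm (5 ^ n) (S.dch (S.bd k p)) • S.rp n (S.dco (S.bd k p)) (S.dco (S.bd k' p.rev)) s t =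
      S.rp (n + 1) k k' (((mu n + 1) * p.val + mu n * s) / mu (n + 1)) t := by
  have h1 := S.bd_δ k p
  have h2 := h.wz_sub p
  have h3 := S.bd_PV k p
  have h4 := S.bd_PC k p
  have h5 : ((mu (n + 1) : ℝ) : ℂ) ≠ 0 := by exact_mod_cast (mu_pos (n + 1)).ne'
  have h6 : ((mu (n + 1) : ℝ) : ℂ) = 5 * mu n + 4 := by exact_mod_cast mu_succ n
  have h7 : ((mu (n + 1) : ℝ) : ℂ) * ((((mu n + 1) * p.val + mu n * s) / mu (n + 1) : ℝ) : ℂ) =
      (mu n + 1) * p.val + mu n * s := by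
    push_cast
    rw [mul_div_cancel₀ _ h5]
  rw [rp, Bm_mx, S.dco_ty]
  simp only [Sub0.PV, Sub0.PC, Mot.smul_def] at h3 h4
  simp only [rp, mx, Mot.smul_def]
  linear_combination (mu n * s / 2 : ℂ) * h1 + (t / 2 : ℂ) * h2 + (mu n / 2 : ℂ) * h3 +
    (1 / 2 : ℂ) * h4 - (S.δ k / 2) * h7 - (S.V k / 2) * h6

theorem tv_mid (z : S.ZS) (n : ℕ) (p : Fin 4) (s t : ℝ) :
    tv n (S.PV (S.dQ z p)) • (S.PC (S.dch (S.dQ z p)) / 2 + s * (-S.δ (S.kQ z) / 2) +
      t * (S.wz (S.kQ z) (S.kR z) / 2)) =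
      S.rp (n + 1) (S.kQ z) (S.kR z) (((mu n + 1) * (p.val + 1) - s) / mu (n + 1)) t := by
  have h5 : ((mu (n + 1) : ℝ) : ℂ) ≠ 0 := by exact_mod_cast (mu_pos (n + 1)).ne'
  have h6 : ((mu (n + 1) : ℝ) : ℂ) = 5 * mu n + 4 := by exact_mod_cast mu_succ n
  have h7 : ((mu (n + 1) : ℝ) : ℂ) * ((((mu n + 1) * (p.val + 1) - s) / mu (n + 1) : ℝ) : ℂ) =
      (mu n + 1) * (p.val + 1) - s := by
    push_cast
    rw [mul_div_cancel₀ _ h5]
  simp only [rp, mx, tv, Mot.smul_def, Mot.tr_a, Mot.tr_b, dQ, S.bd_PV, S.bd_PC, Fin.val_succ]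
  rw [Nat.cast_add, Nat.cast_one]
  linear_combination -(S.δ (S.kQ z) / 2) * h7 - (S.V (S.kQ z) / 2) * h6

theorem GE.rp_inj {k k' : S.Co} (h : S.GE k k') (n : ℕ) {s t s' t' : ℝ}
    (e : S.rp n k k' s t = S.rp n k k' s' t') : s = s' ∧ t = t' := by
  obtain ⟨l, hl, hw⟩ := h.wz_eq
  have h1 : S.δ k * ((mu n * (s - s') : ℝ) + (-(l * (t - t')) : ℝ) * Complex.I) = 0 := by
    simp only [rp, mx, hw] at e
    push_cast
    linear_combination 2 * e
  have h2 := (mul_eq_zero.1 h1).resolve_left (S.δ_ne k)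
  have h3 := congrArg Complex.re h2
  have h4 := congrArg Complex.im h2
  simp only [Complex.add_re, Complex.ofReal_re, Complex.mul_re, Complex.I_re, Complex.ofReal_im,
    Complex.I_im, Complex.zero_re, Complex.add_im, Complex.mul_im, Complex.zero_im, mul_zero,
    mul_one, sub_zero, add_zero, zero_add] at h3 h4
  have h5 := (mul_eq_zero.1 h3).resolve_left (mu_pos n).ne'
  have h6 := (mul_eq_zero.1 (neg_eq_zero.1 h4)).resolve_left hl.ne'
  exact ⟨sub_eq_zero.1 h5, sub_eq_zero.1 h6⟩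

theorem GE.rp_one {k k' : S.Co} (h : S.GE k k') (n : ℕ) (s : ℝ) :
    S.rp n k k' s 1 = S.gm k k' (5 ^ n) • S.rp n k' k (1 - s) 0 := by
  have h1 := h.gm_V 1 (1 - s)
  rw [rp, rp, gm_mx]
  congr 1
  · simp only [Complex.ofReal_one, one_mul] at h1
    rw [h1]
    push_cast
    ring
  · simp [wz]

theorem rp_mem (n : ℕ) (k k' : S.Co) {s : ℝ} (h0 : 0 ≤ s) (h1 : s ≤ 1) :
    S.rp n k k' s 0 ∈ S.OmT n (S.cty k) := by
  refine ⟨S.V k + s * S.δ k, S.gon.seg_sub k ?_, by simp [rp]⟩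
  change _ ∈ segment ℝ (S.V k) (S.V (S.nx k))
  rw [segment_eq_image']
  exact ⟨s, ⟨h0, h1⟩, by simp [Sub0.δ]⟩

theorem NARec0_mem (f : S.Fa) (y : ℂ) : y ∈ S.poly.gon.poly f ↔ ∀ c : S.Cn0, S.ok c →
    S.fc0 c = f → 0 ≤ cross ((S.ma0 (S.nx0 c)).b - (S.ma0 c).b) (y - (S.ma0 c).b) := by
  have key : ∀ c : S.poly0.Cn, S.poly.gon.cr c y =
      cross ((S.ma0 (S.nx0 c.1)).b - (S.ma0 c.1).b) (y - (S.ma0 c.1).b) := by
    intro c
    change cross ((S.poly0.ma (S.poly0.nx c)).b - (S.poly0.ma c).b) (y - (S.poly0.ma c).b) = _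
    rw [ma_eq, ma_eq]
    rfl
  constructor
  · intro h c hc e
    rw [← key ⟨c, hc⟩]
    exact h ⟨c, hc⟩ e
  · intro h c e
    rw [key c]
    exact h c.1 c.2 e

theorem NARec0_half (u v : ℂ) : cross (u / 2) (v / 2) = cross u v / 4 := by
  simp only [cross, Complex.div_ofNat_re, Complex.div_ofNat_im]
  ring

theorem NARec0_sq (k : S.Co) : 0 < (S.δ k).re ^ 2 + (S.δ k).im ^ 2 := by
  have h := Complex.normSq_pos.2 (S.δ_ne k)
  rw [Complex.normSq_apply] at h
  linarith only [h]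

theorem NARec0_ts {G : S.TS} {k : S.Co} (hk : S.cty k = S.ty G.1) :
    S.ts (S.dart G.1 k, G.2) = G := by
  unfold ts
  rw [S.dch_dart _ _ hk]

theorem NARec0_cv (k : S.Co) : S.cv (S.nx k) - S.cv k = S.δ k / 2 := by
  unfold cv Sub0.δ
  rw [S.cty_nx]
  ring

theorem NARec0_apm0 (k : S.Co) : S.apm 0 k = Mot.tr (S.cv k) := by
  refine Mot.ext ?_ ?_
  · have h0 : an 0 = 0 := rfl
    simp [apm, rotm, h0]
  · simp only [apm, Mot.at'_b, Mot.tr_b, mx, cv, NARec0_mu0, one_mul]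

theorem NARec0_seg (x : S.DS) (k' : S.Co) {s : ℝ} (h0 : 0 ≤ s) (h1 : s ≤ 1) :
    S.rp 0 (S.dco x.1) k' s 0 ∈ S.poly.sseg (Si.cs x) := by
  change _ ∈ segment ℝ (S.cv (S.dco x.1)) (S.cv (S.nx (S.dco x.1)))
  rw [segment_eq_image', NARec0_cv]
  refine ⟨s, ⟨h0, h1⟩, ?_⟩
  simp only [rp, mx, NARec0_mu0, cv, Complex.real_smul]
  push_cast
  ring

theorem poly_core {G : S.TS} (h : S.Val G) :
    S.poly.gon.poly (Fa.core G) = S.OmT 0 (S.ty G.1) := by
  ext y
  have key : ∀ x : S.DS, cross ((S.ma0 (S.nx0 (.core x))).b - (S.ma0 (.core x)).b)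
      (y - (S.ma0 (.core x)).b) =
      S.gon.cr (S.dco x.1) (2 * y - S.C (S.cty (S.dco x.1))) / 4 := by
    intro x
    change cross (S.cv (S.dco (S.nxd x.1)) - S.cv (S.dco x.1)) (y - S.cv (S.dco x.1)) =
      cross (S.δ (S.dco x.1)) (2 * y - S.C (S.cty (S.dco x.1)) - S.V (S.dco x.1)) / 4
    rw [S.dco_nxd, NARec0_cv, ← NARec0_half]
    congr 1
    unfold cv
    ring
  rw [NARec0_mem]
  constructor
  · intro H
    refine ⟨2 * y - S.C (S.ty G.1), fun k hk => ?_, ?_⟩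
    · have hk' : S.cty k = S.ty G.1 := hk
      have h1 := H (.core (S.dart G.1 k, G.2)) (by
        change S.Val (S.ts _)
        rwa [NARec0_ts hk']) (congrArg Fa.core (NARec0_ts hk'))
      rw [key] at h1
      dsimp only at h1
      rw [S.dco_dart _ _ hk', hk'] at h1
      linarith only [h1]
    · simp only [mx, NARec0_mu0]
      ring
  · rintro ⟨x, hx, rfl⟩ c _ e
    cases c with
    | core x' =>
      have e' : S.ts x' = G := Fa.core.inj e
      have hk : S.cty (S.dco x'.1) = S.ty G.1 := by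
        rw [S.dco_ty, ← e']
        rfl
      have h1 := hx (S.dco x'.1) hk
      have h2 : 2 * mx 0 x (S.C (S.ty G.1)) - S.C (S.ty G.1) = x := by
        simp only [mx, NARec0_mu0]
        ring
      rw [key, hk, h2]
      linarith
    | strip => cases e
    | vf => cases e
    | mid => cases e

theorem poly_strip {z : S.ZS} (h : S.IsAdj z) :
    S.poly.gon.poly (Fa.strip z) = S.Rect 0 (S.kQ z) (S.kR z) := by
  ext y
  obtain ⟨l, hl, hw⟩ := h.inv.2.2.2.2.wz_eq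
  have hc : 0 < cross (S.wz (S.kQ z) (S.kR z) / 2) (S.δ (S.kQ z) / 2) := by
    have hw' : S.wz (S.kQ z) (S.kR z) = l * (-Complex.I * S.δ (S.kQ z)) := hw
    have := mul_pos hl (NARec0_sq (S.kQ z))
    rw [NARec0_half, hw']
    simp [cross]
    linarith only [this]
  have h1 : y ∈ S.poly.gon.poly (Fa.strip z) ↔ ∀ i : Fin 4, 0 ≤ cross
      (parV (S.cv (S.kQ z)) (S.wz (S.kQ z) (S.kR z) / 2) (S.δ (S.kQ z) / 2) (i + 1) -
        parV (S.cv (S.kQ z)) (S.wz (S.kQ z) (S.kR z) / 2) (S.δ (S.kQ z) / 2) i)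
      (y - parV (S.cv (S.kQ z)) (S.wz (S.kQ z) (S.kR z) / 2) (S.δ (S.kQ z) / 2) i) := by
    rw [NARec0_mem]
    constructor
    · intro H i
      rw [← vt_strip h, ← vt_strip h]
      exact H (.strip z i) h rfl
    · intro H c _ e
      cases c with
      | strip z' i =>
        obtain rfl : z' = z := Fa.strip.inj e
        have h2 := H i
        rw [← vt_strip h, ← vt_strip h] at h2
        exact h2
      | core => cases e
      | vf => cases e
      | mid => cases e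
  rw [h1, par_mem _ _ _ hc]
  constructor
  · rintro ⟨s, t, g1, g2, g3, g4, rfl⟩
    refine ⟨t, s, g3, g4, g1, g2, ?_⟩
    simp only [rp, mx, cv, NARec0_mu0]
    ring
  · rintro ⟨s, t, g1, g2, g3, g4, rfl⟩
    refine ⟨t, s, g3, g4, g1, g2, ?_⟩
    simp only [rp, mx, cv, NARec0_mu0]
    ring

theorem poly_vf {G : S.TS} (h : S.Val G) {d : S.D} (hd : S.dpar d = S.ty G.1) (a : Fin 3) (p : ℂ) :
    p / 2 ∈ S.poly.gon.poly (Fa.vf G (S.st d) a) ↔ p ∈ S.gonV.poly (S.st d) := by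
  have key : ∀ d' : S.D, cross ((S.ma0 (S.nx0 (.vf G d' a))).b - (S.ma0 (.vf G d' a)).b)
      (p / 2 - (S.ma0 (.vf G d' a)).b) =
      cross (S.PC (S.dch (S.vnx d')) - S.PC (S.dch d')) (p - S.PC (S.dch d')) / 4 := by
    intro d'
    change cross (S.PC (S.dch (S.vnx d')) / 2 - S.PC (S.dch d') / 2)
      (p / 2 - S.PC (S.dch d') / 2) = _
    rw [← NARec0_half, sub_div, sub_div]
  rw [NARec0_mem]
  constructor
  · intro H c hc
    have hc' : S.st c.1 = S.st d := hc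
    have h1 := H (.vf G c.1 a) ⟨h, ((S.st_iff _ _).1 hc').1.trans hd, c.2.1, c.2.2⟩
      (congrArg (fun e => Fa.vf G e a) hc')
    rw [key] at h1
    change 0 ≤ cross (S.PC (S.dch (S.vnx c.1)) - S.PC (S.dch c.1)) (p - S.PC (S.dch c.1))
    linarith only [h1]
  · intro H c hc e
    cases c with
    | vf G' d' a' =>
      obtain ⟨rfl, e2, rfl⟩ := Fa.vf.inj e
      have h1 : 0 ≤ cross (S.PC (S.dch (S.vnx d')) - S.PC (S.dch d')) (p - S.PC (S.dch d')) :=
        H ⟨d', hc.2.2.1, hc.2.2.2⟩ e2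
      rw [key]
      linarith
    | core => cases e
    | strip => cases e
    | mid => cases e

theorem poly_mid {z : S.ZS} (h : S.IsAdj z) (p : Fin 4) (a : Fin 3) (y : ℂ) :
    y ∈ S.poly.gon.poly (Fa.mid z p a) ↔ ∃ s t : ℝ, 0 ≤ s ∧ s ≤ 1 ∧ 0 ≤ t ∧ t ≤ 1 ∧
      y = S.PC (S.dch (S.dQ z p)) / 2 + s * (-S.δ (S.kQ z) / 2) +
        t * (S.wz (S.kQ z) (S.kR z) / 2) := by
  obtain ⟨l, hl, hw⟩ := h.inv.2.2.2.2.wz_eq
  have hc : 0 < cross (-S.δ (S.kQ z) / 2) (S.wz (S.kQ z) (S.kR z) / 2) := by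
    have hw' : S.wz (S.kQ z) (S.kR z) = l * (-Complex.I * S.δ (S.kQ z)) := hw
    have := mul_pos hl (NARec0_sq (S.kQ z))
    rw [NARec0_half, hw']
    simp [cross]
    linarith only [this]
  rw [← par_mem _ _ _ hc, NARec0_mem]
  constructor
  · intro H i
    rw [← vt_mid h p a, ← vt_mid h p a]
    exact H (.mid z p a i) h rfl
  · intro H c _ e
    cases c with
    | mid z' p' a' i =>
      obtain ⟨rfl, rfl, rfl⟩ := Fa.mid.inj e
      have h2 := H i
      rw [← vt_mid h p' a', ← vt_mid h p' a'] at h2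
      exact h2
    | core => cases e
    | vf => cases e
    | strip => cases e

theorem sseg_se (z : S.ZS) (b : Bool) (y : ℂ) : y ∈ S.poly.sseg (Si.se z b) ↔
    ∃ t : ℝ, 0 ≤ t ∧ t ≤ 1 ∧ y = t * (S.wz (S.kQ z) (S.kR z) / 2) := by
  have h1 : S.poly.sseg (Si.se z b) = segment ℝ 0 (S.wz (S.kQ z) (S.kR z) / 2) := by
    cases b <;> rfl
  rw [h1, segment_eq_image']
  constructor
  · rintro ⟨t, ⟨h0, h2⟩, rfl⟩
    exact ⟨t, h0, h2, by simp⟩
  · rintro ⟨t, h0, h2, rfl⟩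
    exact ⟨t, ⟨h0, h2⟩, by simp⟩

variable {G' X : Type} [Group G'] [MetricSpace X] [MulAction G' X] {D : DevAct G' X}

/-- the patches of level `n` and their interface -/
structure Lev (C : CellSys S.poly D) (n : ℕ) where
  Core : S.TS → ℂ → D.PP
  LS : S.ZS → ℂ → D.PP
  pC : ∀ G, S.Val G → D.Patch (S.OmT n (S.ty G.1)) (Core G)
  pL : ∀ z, S.IsAdj z → D.Patch (S.Rect n (S.kQ z) (S.kR z)) (LS z)
  sQ : ∀ z, S.IsAdj z → ∀ s : ℝ, 0 ≤ s → s ≤ 1 →
    LS z (S.rp n (S.kQ z) (S.kR z) s 0) = Core (S.ts z.1) (S.rp n (S.kQ z) (S.kR z) s 0)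
  sR : ∀ z, S.IsAdj z → ∀ s : ℝ, 0 ≤ s → s ≤ 1 → LS z (S.rp n (S.kQ z) (S.kR z) s 1) =
    S.gm (S.kQ z) (S.kR z) (5 ^ n) • Core (S.ts z.2.1) (S.rp n (S.kR z) (S.kQ z) (1 - s) 0)
  ax : ∀ x : S.DS, S.Val (S.ts x) → Core (S.ts x) (S.apm n (S.dco x.1)).b =
    S.apm n (S.dco x.1) • C.ap (S.cc^[(an n).val] x)
  e0 : ∀ z, S.IsAdj z → ∀ y ∈ S.poly.sseg (Si.se ((S.subz 0)^[(an n).val] z) false),
    LS z (S.apm n (S.kQ z) • y) =
      S.apm n (S.kQ z) • C.si (Si.se ((S.subz 0)^[(an n).val] z) false) y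
  e1 : ∀ z, S.IsAdj z → ∀ y ∈ S.poly.sseg (Si.se ((S.subz 4)^[(an n).val] z) true),
    LS z (S.apm n (S.nx (S.kQ z)) • y) =
      S.apm n (S.nx (S.kQ z)) • C.si (Si.se ((S.subz 4)^[(an n).val] z) true) y

/-- the ends of the long strip -/
theorem apm_e0 {z : S.ZS} (h : S.GE (S.kQ z) (S.kR z)) (n : ℕ) (t : ℝ) {z' : S.ZS}
    (e : z' = (S.subz 0)^[(an n).val] z) :
    S.apm n (S.kQ z) • ((t : ℂ) * (S.wz (S.kQ z') (S.kR z') / 2)) =
      S.rp n (S.kQ z) (S.kR z) 0 t := by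
  have h1 : (S.rotm (an n) (S.kQ z)).a * S.wz (S.kQ z') (S.kR z') = S.wz (S.kQ z) (S.kR z) :=
    (iter0_geo h (an n) e).2
  simp only [apm, rp, mx, Mot.smul_def, Mot.at'_a, Mot.at'_b]
  push_cast
  linear_combination (t / 2 : ℂ) * h1

theorem apm_e1 {z : S.ZS} (h : S.GE (S.kQ z) (S.kR z)) (n : ℕ) (t : ℝ) {z' : S.ZS}
    (e : z' = (S.subz 4)^[(an n).val] z) :
    S.apm n (S.nx (S.kQ z)) • ((t : ℂ) * (S.wz (S.kQ z') (S.kR z') / 2)) =
      S.rp n (S.kQ z) (S.kR z) 1 t := by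
  have h1 : (S.rotm (an n) (S.nx (S.kQ z))).a * S.wz (S.kQ z') (S.kR z') =
      S.wz (S.kQ z) (S.kR z) := (iter4_geo h (an n) e).2
  simp only [apm, rp, mx, Mot.smul_def, Mot.at'_a, Mot.at'_b, S.cty_nx, Sub0.δ]
  push_cast
  linear_combination (t / 2 : ℂ) * h1

theorem lev0 (C : CellSys S.poly D) :
    ∃ L : Lev C 0, ∀ G, S.Val G → ∀ z, L.Core G z = C.fa (Fa.core G) z := by
  have hcs : ∀ x : S.DS, S.Val (S.ts x) → ∀ y ∈ S.poly.sseg (Si.cs x),
      C.fa (Fa.core (S.ts x)) y = C.si (Si.cs x) y := by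
    intro x hx y hy
    have h1 : C.fa (Fa.core (S.ts x)) ((1 : Mot) • y) = (1 : Mot) • C.si (Si.cs x) y :=
      C.fa_si ⟨.core x, hx⟩ y hy
    rwa [one_smul, one_smul] at h1
  refine ⟨⟨fun G => C.fa (Fa.core G), fun z => C.fa (Fa.strip z), ?_, ?_, ?_, ?_, ?_, ?_, ?_⟩,
    fun _ _ _ => rfl⟩
  · intro G hG
    obtain ⟨k, hk⟩ := S.co_surj (S.ty G.1)
    have h1 : D.Patch (S.poly.gon.poly (Fa.core (S.ts (S.dart G.1 k, G.2))))
        (C.fa (Fa.core (S.ts (S.dart G.1 k, G.2)))) :=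
      C.patch ⟨.core (S.dart G.1 k, G.2), by
        change S.Val (S.ts _)
        rwa [NARec0_ts hk]⟩
    rwa [NARec0_ts hk, poly_core hG] at h1
  · intro z hz
    have h1 : D.Patch (S.poly.gon.poly (Fa.strip z)) (C.fa (Fa.strip z)) :=
      C.patch ⟨.strip z 0, hz⟩
    rwa [poly_strip hz] at h1
  · intro z hz s h0 h1
    have hy := NARec0_seg z.1 (S.kR z) h0 h1
    have h2 : C.fa (Fa.strip z) ((1 : Mot) • S.rp 0 (S.kQ z) (S.kR z) s 0) =
        (1 : Mot) • C.si (Si.cs z.1) (S.rp 0 (S.kQ z) (S.kR z) s 0) :=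
      C.fa_si ⟨.strip z 3, hz⟩ _ hy
    rw [one_smul, one_smul] at h2
    exact h2.trans (hcs z.1 hz.inv.1 _ hy).symm
  · intro z hz s h0 h1
    have hy := NARec0_seg z.2.1 (S.kQ z) (s := 1 - s) (by linarith) (by linarith)
    have h2 : C.fa (Fa.strip z) (S.gm (S.kQ z) (S.kR z) 1 • S.rp 0 (S.kR z) (S.kQ z) (1 - s) 0) =
        S.gm (S.kQ z) (S.kR z) 1 • C.si (Si.cs z.2.1) (S.rp 0 (S.kR z) (S.kQ z) (1 - s) 0) :=
      C.fa_si ⟨.strip z 1, hz⟩ _ hy
    have hG : S.GE (S.kQ z) (S.kR z) := hz.inv.2.2.2.2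
    have h3 := hcs z.2.1 hz.inv.2.1 _ hy
    rw [hG.rp_one, pow_zero]
    exact h2.trans (congrArg (fun w => S.gm (S.kQ z) (S.kR z) 1 • w) h3.symm)
  · intro x hx
    have h1 := C.fa_vt ⟨.core x, hx⟩
    have h2 : S.poly.ma ⟨.core x, hx⟩ = Mot.tr (S.cv (S.dco x.1)) := ma_eq ⟨.core x, hx⟩
    have h3 : S.poly.vt ⟨.core x, hx⟩ = (Mot.tr (S.cv (S.dco x.1))).b := congrArg Mot.b h2
    rw [h2, h3] at h1
    rw [NARec0_apm0]
    exact h1
  · intro z hz y hy
    rw [NARec0_apm0]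
    exact C.fa_si ⟨.strip z 0, hz⟩ y hy
  · intro z hz y hy
    rw [NARec0_apm0]
    exact C.fa_si ⟨.strip z 2, hz⟩ y hy

end Sub

end Pool.Agent.Work.MP_0909b4_al.NA
end

-- merged part: Pool.Agent.Work.MP_0909b4_al.NARec1
section
/-! The supertile of level `n + 1` is glued from supertiles, long strips and vertex faces.

Plan for `core_step`. Use `DevAct.glue` with the index type
`{j // par j = t} ⊕ {e // dpar e = t ∧ isB e = false ∧ left e = true} ⊕ {d // dpar d = t ∧ ¬isC d ∧ ¬two d}`.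
In the coordinates `mx n x p` of the parent the pieces are `x ∈ Tj j, p = PC j` (`Bm_mx`),
`x ∈ eseg e, p ∈ dseg e` (`Bm_rp_birth`), `x = PV d, p ∈ gonV.poly (st d)` (`poly_vf`, `tv_smul`); in
each case `p ∈ Dual t x` (`dual_T`, `dual_E`, `dual_V`). Cover: `dual_exists`, `classify`, `mu_succ`.
Inclusion: `dual_into`. On overlaps `dual_uniq` gives the same `x, p`, and then
* `agree_TE`: `ov_TE`; `PC_inj` forces `t = 0` or `t = 1`; `sQ`, or `sR` with `gm_birth`;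
* `agree_TV`: `vertex_in` gives the dart `d'` of `j` at the vertex; `L.ax` for `cd G d'`, `Bm_apm`,
  `CellSys.fa_vt` for the corner `vf G d' a`;
* `agree_EV`: `ov_EV`; the side of the corner `vf G (nxd e) a` (end `1`) or `vf G (nxd (opp e)) a`
  (end `0`) is the end of the strip: `e1` or `e0`, `apm_e1`, `apm_e0`, `Bm_apm`, `fa_si`;
* two strips: `ov_EE` and `agree_TE` twice; two tiles: `PC_inj`; two vertices: `st_iff`.
-/

namespace Pool.Agent.Work.MP_0909b4_al.NA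

namespace Sub

variable {S : Sub} {G' X : Type} [Group G'] [MetricSpace X] [MulAction G' X] {D : DevAct G' X}
  {C : CellSys S.poly D} {n : ℕ}

/-- `Φ` is the supertile of level `n + 1` with label `G` -/
structure IsCore (L : Lev C n) (G : S.TS) (Φ : ℂ → D.PP) : Prop where
  patch : D.Patch (S.OmT (n + 1) (S.ty G.1)) Φ
  T : ∀ j, S.par j = S.ty G.1 → ∀ z ∈ S.OmT n (S.ty j),
    Φ (S.Bm (5 ^ n) j • z) = S.Bm (5 ^ n) j • L.Core (S.chd G j) z
  E : ∀ e, S.dpar e = S.ty G.1 → S.isB e = false → S.left e = true →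
    ∀ z ∈ S.Rect n (S.dco e) (S.dco (S.opp e)),
    Φ (S.Bm (5 ^ n) (S.dch e) • z) = S.Bm (5 ^ n) (S.dch e) • L.LS (S.birth G e) z
  V : ∀ d, S.dpar d = S.ty G.1 → ¬S.isC d → ¬S.two d →
    ∀ z ∈ S.poly.gon.poly (Fa.vf G (S.st d) (an n)),
    Φ (tv n (S.PV d) • z) = tv n (S.PV d) • C.fa (Fa.vf G (S.st d) (an n)) z

theorem NARec1_mx {x p x' p' : ℂ} (e : mx n x p = mx n x' p') :
    (mu n : ℂ) * x + p = mu n * x' + p' := by
  unfold mx at e
  linear_combination 2 * e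

theorem NARec1_seg (A B : ℂ) {s : ℝ} (h0 : 0 ≤ s) (h1 : s ≤ 1) :
    A + s * (B - A) ∈ segment ℝ A B :=
  ⟨1 - s, s, by linarith, h0, by ring, by
    simp only [Complex.real_smul]
    push_cast
    ring⟩

theorem NARec1_seg' {A B x : ℂ} (h : x ∈ segment ℝ A B) :
    ∃ s : ℝ, 0 ≤ s ∧ s ≤ 1 ∧ x = A + s * (B - A) := by
  obtain ⟨a, b, ha, hb, hab, rfl⟩ := h
  refine ⟨b, hb, by linarith, ?_⟩
  have : (a : ℂ) = 1 - b := by
    rw [← Complex.ofReal_one, ← hab]
    push_cast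
    ring
  simp only [Complex.real_smul, this]
  ring

theorem NARec1_uniq {t : S.Ty} {x x' p p' : ℂ} (h : p ∈ S.Dual t x) (h' : p' ∈ S.Dual t x')
    (e : mx n x p = mx n x' p') : x = x' ∧ p = p' :=
  dual_uniq (mu_pos n) h h' (NARec1_mx e)

theorem NARec1_into {t : S.Ty} {x p : ℂ} (h : p ∈ S.Dual t x) : mx n x p ∈ S.OmT (n + 1) t := by
  obtain ⟨y, hy, e⟩ := dual_into (mu_pos n) h
  refine ⟨y, hy, ?_⟩
  unfold mx
  rw [mu_succ, e]
  push_cast
  ring

theorem NARec1_PC_ne {e : S.D} (hB : S.isB e = false) :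
    S.PC (S.dch (S.opp e)) - S.PC (S.dch e) ≠ 0 := by
  obtain ⟨l, hl, hw⟩ := (GE.birth hB).wz_eq
  rw [← wz_birth hB, hw]
  have h1 : (l : ℂ) ≠ 0 := by exact_mod_cast hl.ne'
  exact mul_ne_zero (Mot.a_ne _) (mul_ne_zero h1 (mul_ne_zero (neg_ne_zero.2 Complex.I_ne_zero)
    (S.δ_ne _)))

theorem NARec1_PV_ne (e : S.D) : S.PV (S.nxd e) - S.PV e ≠ 0 := by
  rw [S.PV_nxd, add_sub_cancel_left]
  exact mul_ne_zero (Mot.a_ne _) (S.δ_ne _)

/-- a tile in the coordinates of the parent -/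
theorem NARec1_T {j : S.Ch} {z : ℂ} (hz : z ∈ S.OmT n (S.ty j)) :
    ∃ x ∈ S.Tj j, S.Bm (5 ^ n) j • z = mx n x (S.PC j) := by
  obtain ⟨y, hy, rfl⟩ := hz
  exact ⟨S.mo j • y, ⟨y, hy, rfl⟩, Bm_mx n j _ _⟩

theorem NARec1_T' {j : S.Ch} {x : ℂ} (hx : x ∈ S.Tj j) :
    ∃ z ∈ S.OmT n (S.ty j), mx n x (S.PC j) = S.Bm (5 ^ n) j • z := by
  obtain ⟨y, hy, rfl⟩ := hx
  exact ⟨_, ⟨y, hy, rfl⟩, (Bm_mx n j _ _).symm⟩

/-- a strip in the coordinates of the parent -/
theorem NARec1_E {e : S.D} (hB : S.isB e = false) {z : ℂ}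
    (hz : z ∈ S.Rect n (S.dco e) (S.dco (S.opp e))) :
    ∃ x ∈ S.eseg e, ∃ p ∈ S.dseg e, S.Bm (5 ^ n) (S.dch e) • z = mx n x p := by
  obtain ⟨s, t, s0, s1, t0, t1, rfl⟩ := hz
  exact ⟨_, NARec1_seg _ _ s0 s1, _, NARec1_seg _ _ t0 t1, Bm_rp_birth hB n s t⟩

/-- a vertex face in the coordinates of the parent -/
theorem NARec1_V {G : S.TS} (h : S.Val G) {d : S.D} (hd : S.dpar d = S.ty G.1) (hc : ¬S.isC d)
    (h2 : ¬S.two d) {z : ℂ} (hz : z ∈ S.poly.gon.poly (Fa.vf G (S.st d) (an n))) :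
    2 * z ∈ S.Dual (S.dpar d) (S.PV d) ∧ tv n (S.PV d) • z = mx n (S.PV d) (2 * z) := by
  have e : z = 2 * z / 2 := by ring
  constructor
  · rw [dual_V hc h2, ← poly_vf h hd (an n), ← e]
    exact hz
  · rw [← tv_smul, ← e]

theorem NARec1_st {d d' : S.D} (e : S.st d' = S.st d) (hc : ¬S.isC d) (h2 : ¬S.two d) :
    S.dpar d' = S.dpar d ∧ S.PV d' = S.PV d ∧ ¬S.isC d' ∧ ¬S.two d' := by
  have hc' : ¬S.isC d' := fun h' => hc (S.isC_of_st e h' ▸ h')
  exact ⟨((S.st_iff _ _).1 e).1, ((S.st_iff _ _).1 e).2, hc', fun h' => h2 (S.two_of_st hc' e h').1⟩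

/-- the end `0` of a strip -/
theorem NARec1_e0 (L : Lev C n) {G : S.TS} (h : S.Val G) {e : S.D} (he : S.dpar e = S.ty G.1)
    (hB : S.isB e = false) (hl : S.left e = true) {t : ℝ} (t0 : 0 ≤ t) (t1 : t ≤ 1) {z' : S.ZS}
    (ez : z' = (S.subz 0)^[(an n).val] (S.birth G e)) {y : ℂ}
    (ey : y = t * (S.wz (S.kQ z') (S.kR z') / 2)) :
    y ∈ S.poly.sseg (Si.se z' false) ∧
      S.Bm (5 ^ n) (S.dch e) • S.rp n (S.dco e) (S.dco (S.opp e)) 0 t =
        (tv n (S.PV e) * S.am e (an n)) • y ∧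
      S.Bm (5 ^ n) (S.dch e) • L.LS (S.birth G e) (S.rp n (S.dco e) (S.dco (S.opp e)) 0 t) =
        (tv n (S.PV e) * S.am e (an n)) • C.si (Si.se z' false) y := by
  have hy : y ∈ S.poly.sseg (Si.se z' false) := (sseg_se z' false y).2 ⟨t, t0, t1, ey⟩
  have h1 : S.apm n (S.dco e) • y = S.rp n (S.dco e) (S.dco (S.opp e)) 0 t := by
    rw [ey]
    exact apm_e0 (z := S.birth G e) (GE.birth hB) n t ez
  refine ⟨hy, ?_, ?_⟩
  · rw [← h1, ← Bm_apm, mul_smul]
  · subst ez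
    rw [← h1, ← Bm_apm, mul_smul]
    exact congrArg _ (L.e0 (S.birth G e) (IsAdj.birth h he hB hl) y hy)

/-- the end `1` of a strip -/
theorem NARec1_e1 (L : Lev C n) {G : S.TS} (h : S.Val G) {e : S.D} (he : S.dpar e = S.ty G.1)
    (hB : S.isB e = false) (hl : S.left e = true) {t : ℝ} (t0 : 0 ≤ t) (t1 : t ≤ 1) {z' : S.ZS}
    (ez : z' = (S.subz 4)^[(an n).val] (S.birth G e)) {y : ℂ}
    (ey : y = t * (S.wz (S.kQ z') (S.kR z') / 2)) :
    y ∈ S.poly.sseg (Si.se z' true) ∧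
      S.Bm (5 ^ n) (S.dch e) • S.rp n (S.dco e) (S.dco (S.opp e)) 1 t =
        (tv n (S.PV (S.nxd e)) * S.am (S.nxd e) (an n)) • y ∧
      S.Bm (5 ^ n) (S.dch e) • L.LS (S.birth G e) (S.rp n (S.dco e) (S.dco (S.opp e)) 1 t) =
        (tv n (S.PV (S.nxd e)) * S.am (S.nxd e) (an n)) • C.si (Si.se z' true) y := by
  have hy : y ∈ S.poly.sseg (Si.se z' true) := (sseg_se z' true y).2 ⟨t, t0, t1, ey⟩
  have h1 : S.apm n (S.nx (S.dco e)) • y = S.rp n (S.dco e) (S.dco (S.opp e)) 1 t := by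
    rw [ey]
    exact apm_e1 (z := S.birth G e) (GE.birth hB) n t ez
  refine ⟨hy, ?_, ?_⟩
  · rw [← h1, ← Bm_apm, mul_smul, S.dch_nxd, S.dco_nxd]
  · subst ez
    rw [← h1, ← Bm_apm, mul_smul, S.dch_nxd, S.dco_nxd]
    exact congrArg _ (L.e1 (S.birth G e) (IsAdj.birth h he hB hl) y hy)

theorem NARec1_vs0 (G : S.TS) {e : S.D} (hB : S.isB e = false) (hl : S.left e = true)
    (a : Fin 3) : S.vside G (S.nxd (S.opp e)) a =
      (.se ((S.subz 0)^[a.val] (S.birth G e)) false, true, S.am e a) := by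
  simp [vside, Sub0.turn, S.pvd_nxd, S.opp_B e hB, S.opp_left e hB, hl, S.opp_opp e hB]

theorem NARec1_vs1 (G : S.TS) {e : S.D} (hB : S.isB e = false) (hl : S.left e = true)
    (a : Fin 3) : S.vside G (S.nxd e) a =
      (.se ((S.subz 4)^[a.val] (S.birth G e)) true, false, S.am (S.nxd e) a) := by
  simp [vside, S.pvd_nxd, hB, hl]

/-- a side of a vertex face -/
theorem NARec1_fa_si {G : S.TS} (h : S.Val G) {d : S.D} (hd : S.dpar d = S.ty G.1) (hc : ¬S.isC d)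
    (h2 : ¬S.two d) (a : Fin 3) {s : S.Si} {b : Bool} {m : Mot} (e : S.vside G d a = (s, b, m))
    {y : ℂ} (hy : y ∈ S.poly.sseg s) : m • y ∈ S.poly.gon.poly (Fa.vf G (S.st d) a) ∧
      C.fa (Fa.vf G (S.st d) a) (m • y) = m • C.si s y := by
  let c : S.poly.Cn := ⟨.vf G d a, h, hd, hc, h2⟩
  have e1 : S.poly.sd c = s := congrArg (·.1) e
  have e2 : S.poly.m2 c = m := congrArg (·.2.2) e
  subst e1 e2
  exact ⟨S.poly.gon.seg_sub c ((S.poly.m2_seg c y).2 hy), C.fa_si c y hy⟩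

theorem agree_TE (L : Lev C n) {G : S.TS} (h : S.Val G) {j : S.Ch} (hj : S.par j = S.ty G.1)
    {e : S.D} (he : S.dpar e = S.ty G.1) (hB : S.isB e = false) (hl : S.left e = true) {z z' : ℂ}
    (hz : z ∈ S.OmT n (S.ty j)) (hz' : z' ∈ S.Rect n (S.dco e) (S.dco (S.opp e)))
    (q : S.Bm (5 ^ n) j • z = S.Bm (5 ^ n) (S.dch e) • z') :
    S.Bm (5 ^ n) j • L.Core (S.chd G j) z = S.Bm (5 ^ n) (S.dch e) • L.LS (S.birth G e) z' := by
  have hp : S.par j = S.dpar e := hj.trans he.symm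
  have hA := IsAdj.birth h he hB hl
  obtain ⟨x, hx, q1⟩ := NARec1_T hz
  obtain ⟨s, t, s0, s1, t0, t1, rfl⟩ := hz'
  have hx' : _ ∈ S.eseg e := NARec1_seg _ _ s0 s1
  have hp' : _ ∈ S.dseg e := NARec1_seg _ _ t0 t1
  obtain ⟨ex, ep⟩ := NARec1_uniq (hp ▸ dual_T hx) (dual_E hB hx' hp')
    (q1.symm.trans (q.trans (Bm_rp_birth hB n s t)))
  have hne := NARec1_PC_ne hB
  rcases ov_TE hp hB hx (ex ▸ hx') (ep ▸ hp') with rfl | rfl
  · have ht : (t : ℂ) = 0 := by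
      refine (mul_eq_zero.1 ?_).resolve_right hne
      linear_combination -ep
    obtain rfl : t = 0 := by exact_mod_cast ht
    obtain rfl := MulAction.injective _ q
    exact congrArg _ (L.sQ _ hA s s0 s1).symm
  · have ht : (t : ℂ) - 1 = 0 := by
      refine (mul_eq_zero.1 ?_).resolve_right hne
      linear_combination -ep
    obtain rfl : t = 1 := by exact_mod_cast sub_eq_zero.1 ht
    rw [(GE.birth hB).rp_one, ← mul_smul, gm_birth hB] at q
    obtain rfl := MulAction.injective _ q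
    rw [← gm_birth hB, mul_smul]
    exact congrArg _ (L.sR _ hA s s0 s1).symm

theorem agree_TV (L : Lev C n) {G : S.TS} (h : S.Val G) {j : S.Ch} (hj : S.par j = S.ty G.1)
    {d : S.D} (hd : S.dpar d = S.ty G.1) (hc : ¬S.isC d) (h2 : ¬S.two d) {z z' : ℂ}
    (hz : z ∈ S.OmT n (S.ty j)) (hz' : z' ∈ S.poly.gon.poly (Fa.vf G (S.st d) (an n)))
    (q : S.Bm (5 ^ n) j • z = tv n (S.PV d) • z') :
    S.Bm (5 ^ n) j • L.Core (S.chd G j) z =
      tv n (S.PV d) • C.fa (Fa.vf G (S.st d) (an n)) z' := by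
  have hp : S.par j = S.dpar d := hj.trans hd.symm
  obtain ⟨x, hx, q1⟩ := NARec1_T hz
  obtain ⟨hD, q2⟩ := NARec1_V h hd hc h2 hz'
  obtain ⟨rfl, ep⟩ := NARec1_uniq (hp ▸ dual_T hx) hD (q1.symm.trans (q.trans q2))
  obtain ⟨d', rfl, es⟩ := vertex_in hp hx
  obtain ⟨-, eV, hc', h2'⟩ := NARec1_st es hc h2
  have ez : z = (S.apm n (S.dco d')).b := by
    apply MulAction.injective (S.Bm (5 ^ n) (S.dch d'))
    change _ • z = _ • mx n _ _
    rw [q1, Bm_mx, S.dco_ty, ← eV]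
    rfl
  let c : S.poly.Cn := ⟨.vf G d' (an n), h, hj, hc', h2'⟩
  have e1 : S.poly.ma c = S.am d' (an n) := ma_eq c
  have e2 : S.poly.ap c = S.apx G d' (an n) := ap_eq c
  have e3 : S.poly.vt c = z' := by
    change (S.poly.ma c).b = z'
    rw [e1]
    change S.PC (S.dch d') / 2 = z'
    rw [ep]
    ring
  have k := C.fa_vt c
  rw [e1, e2, e3] at k
  have k' : C.fa (Fa.vf G (S.st d') (an n)) z' = _ := k
  rw [← es, k', ← eV, ← mul_smul, ← Bm_apm, mul_smul, ez]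
  exact congrArg _ (L.ax (S.cd G d') (h.chd hj))

theorem agree_EV (L : Lev C n) {G : S.TS} (h : S.Val G) {e : S.D} (he : S.dpar e = S.ty G.1)
    (hB : S.isB e = false) (hl : S.left e = true) {d : S.D} (hd : S.dpar d = S.ty G.1)
    (hc : ¬S.isC d) (h2 : ¬S.two d) {z z' : ℂ} (hz : z ∈ S.Rect n (S.dco e) (S.dco (S.opp e)))
    (hz' : z' ∈ S.poly.gon.poly (Fa.vf G (S.st d) (an n)))
    (q : S.Bm (5 ^ n) (S.dch e) • z = tv n (S.PV d) • z') :
    S.Bm (5 ^ n) (S.dch e) • L.LS (S.birth G e) z =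
      tv n (S.PV d) • C.fa (Fa.vf G (S.st d) (an n)) z' := by
  have hp : S.dpar e = S.dpar d := he.trans hd.symm
  obtain ⟨s, t, s0, s1, t0, t1, rfl⟩ := hz
  have hx' : _ ∈ S.eseg e := NARec1_seg _ _ s0 s1
  have hp' : _ ∈ S.dseg e := NARec1_seg _ _ t0 t1
  obtain ⟨hD, q2⟩ := NARec1_V h hd hc h2 hz'
  obtain ⟨ex, -⟩ := NARec1_uniq (hp ▸ dual_E hB hx' hp') hD
    ((Bm_rp_birth hB n s t).symm.trans (q.trans q2))
  have hne := NARec1_PV_ne e
  rcases ov_EV hp (ex ▸ hx') with es | es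
  · have eV := ((S.st_iff _ _).1 es).2
    have hs : (s : ℂ) = 0 := by
      refine (mul_eq_zero.1 ?_).resolve_right hne
      linear_combination ex - eV
    obtain rfl : s = 0 := by exact_mod_cast hs
    obtain ⟨hy, k1, k2⟩ := NARec1_e0 L h he hB hl t0 t1 rfl rfl
    have es' := (S.st_nxd_opp hB).trans es
    obtain ⟨ep, -, hc', h2'⟩ := NARec1_st es' hc h2
    obtain ⟨-, k3⟩ := NARec1_fa_si (C := C) h (ep.trans hd) hc' h2' (an n)
      (NARec1_vs0 G hB hl (an n)) hy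
    rw [k1, eV, mul_smul] at q
    rw [k2, eV, mul_smul, ← k3, es', MulAction.injective _ q]
  · have eV := ((S.st_iff _ _).1 es).2
    have hs : (s : ℂ) - 1 = 0 := by
      refine (mul_eq_zero.1 ?_).resolve_right hne
      linear_combination ex - eV
    obtain rfl : s = 1 := by exact_mod_cast sub_eq_zero.1 hs
    obtain ⟨hy, k1, k2⟩ := NARec1_e1 L h he hB hl t0 t1 rfl rfl
    obtain ⟨ep, -, hc', h2'⟩ := NARec1_st es hc h2
    obtain ⟨-, k3⟩ := NARec1_fa_si (C := C) h (ep.trans hd) hc' h2' (an n)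
      (NARec1_vs1 G hB hl (an n)) hy
    rw [k1, eV, mul_smul] at q
    rw [k2, eV, mul_smul, ← k3, es, MulAction.injective _ q]

theorem core_step (L : Lev C n) {G : S.TS} (h : S.Val G) : ∃ Φ, IsCore L G Φ := by
  let J : Type := {j // S.par j = S.ty G.1} ⊕
    {e // S.dpar e = S.ty G.1 ∧ S.isB e = false ∧ S.left e = true} ⊕
    {d // S.dpar d = S.ty G.1 ∧ ¬S.isC d ∧ ¬S.two d}
  obtain ⟨k₀, hk₀⟩ := S.co_surj (S.ty G.1)
  have : Nonempty J := ⟨.inl ⟨S.dch (S.bd k₀ 0), (S.bd_par k₀ 0).trans hk₀⟩⟩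
  let Ω : J → Set ℂ := Sum.elim (fun j => S.OmT n (S.ty j.1))
    (Sum.elim (fun e => S.Rect n (S.dco e.1) (S.dco (S.opp e.1)))
      fun d => S.poly.gon.poly (Fa.vf G (S.st d.1) (an n)))
  let Φ : J → ℂ → D.PP := Sum.elim (fun j => L.Core (S.chd G j.1))
    (Sum.elim (fun e => L.LS (S.birth G e.1)) fun d => C.fa (Fa.vf G (S.st d.1) (an n)))
  let B : J → Mot := Sum.elim (fun j => S.Bm (5 ^ n) j.1)
    (Sum.elim (fun e => S.Bm (5 ^ n) (S.dch e.1)) fun d => tv n (S.PV d.1))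
  refine (DevAct.glue (D := D) Ω Φ B ?_ ?_ (S.OmT (n + 1) (S.ty G.1)) ?_ ?_).imp ?_
  rotate_right
  · rintro Ψ ⟨hΨ, hE⟩
    exact ⟨hΨ, fun j hj => hE (.inl ⟨j, hj⟩),
      fun e he hB hl => hE (.inr (.inl ⟨e, he, hB, hl⟩)),
      fun d hd hc h2 => hE (.inr (.inr ⟨d, hd, hc, h2⟩))⟩
  · rintro (⟨j, hj⟩ | ⟨e, he, hB, hl⟩ | ⟨d, hd, hc, h2⟩)
    · exact L.pC (S.chd G j) (h.chd hj)
    · have k := L.pL (S.birth G e) (IsAdj.birth h he hB hl)
      exact k
    · exact C.patch (⟨.vf G d (an n), h, hd, hc, h2⟩ : S.poly.Cn)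
  · rintro (⟨j, hj⟩ | ⟨e, he, hB, hl⟩ | ⟨d, hd, hc, h2⟩)
      (⟨j', hj'⟩ | ⟨e', he', hB', hl'⟩ | ⟨d', hd', hc', h2'⟩) z hz z' hz' q
    · obtain ⟨x, hx, q1⟩ := NARec1_T hz
      obtain ⟨x', hx', q2⟩ := NARec1_T hz'
      have hp : S.par j = S.par j' := hj.trans hj'.symm
      obtain rfl := S.PC_inj j j' hp
        (NARec1_uniq (hp ▸ dual_T hx) (dual_T hx') (q1.symm.trans (q.trans q2))).2
      obtain rfl := MulAction.injective _ q
      rfl
    · exact agree_TE L h hj he' hB' hl' hz hz' q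
    · exact agree_TV L h hj hd' hc' h2' hz hz' q
    · exact (agree_TE L h hj' he hB hl hz' hz q.symm).symm
    · by_cases h₁ : e' = e
      · subst h₁
        obtain rfl := MulAction.injective _ q
        rfl
      have h₂ : e' ≠ S.opp e := by
        rintro rfl
        rw [S.opp_left e hB, hl] at hl'
        exact absurd hl' (by simp)
      have hp : S.dpar e = S.dpar e' := he.trans he'.symm
      obtain ⟨x, hx, p, hpp, q1⟩ := NARec1_E hB hz
      obtain ⟨x', hx', p', hpp', q2⟩ := NARec1_E hB' hz'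
      obtain ⟨rfl, rfl⟩ := NARec1_uniq (hp ▸ dual_E hB hx hpp) (dual_E hB' hx' hpp')
        (q1.symm.trans (q.trans q2))
      obtain ⟨j, hj, hxj, rfl⟩ : ∃ j, S.par j = S.ty G.1 ∧ x ∈ S.Tj j ∧ p = S.PC j := by
        rcases ov_EE hp hB hB' h₁ h₂ hx hx' hpp hpp' with e1 | e1
        · exact ⟨_, he, eseg_sub e hx, e1⟩
        · exact ⟨_, (S.opp_par e hB).trans he, eseg_sub _ ((eseg_opp hB).symm ▸ hx), e1⟩
      obtain ⟨w, hw, q3⟩ := NARec1_T' (n := n) hxj
      exact (agree_TE L h hj he hB hl hw hz (q3.symm.trans q1.symm)).symm.trans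
        (agree_TE L h hj he' hB' hl' hw hz' (q3.symm.trans q2.symm))
    · exact agree_EV L h he hB hl hd' hc' h2' hz hz' q
    · exact (agree_TV L h hj' hd hc h2 hz' hz q.symm).symm
    · exact (agree_EV L h he' hB' hl' hd hc h2 hz' hz q.symm).symm
    · have hp : S.dpar d = S.dpar d' := hd.trans hd'.symm
      obtain ⟨hD, q1⟩ := NARec1_V h hd hc h2 hz
      obtain ⟨hD', q2⟩ := NARec1_V h hd' hc' h2' hz'
      obtain ⟨eV, ez⟩ := NARec1_uniq (hp ▸ hD) hD' (q1.symm.trans (q.trans q2))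
      obtain rfl : z = z' := by linear_combination ez / 2
      change tv n (S.PV d) • C.fa (Fa.vf G (S.st d) (an n)) z =
        tv n (S.PV d') • C.fa (Fa.vf G (S.st d') (an n)) z
      rw [eV, (S.st_iff _ _).2 ⟨hp, eV⟩]
  · rintro (⟨j, hj⟩ | ⟨e, he, hB, hl⟩ | ⟨d, hd, hc, h2⟩) z hz
    · obtain ⟨x, hx, q1⟩ := NARec1_T hz
      have k := NARec1_into (n := n) (dual_T hx)
      rw [hj] at k
      exact Set.mem_of_eq_of_mem q1 k
    · obtain ⟨x, hx, p, hpp, q1⟩ := NARec1_E hB hz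
      exact Set.mem_of_eq_of_mem q1 (NARec1_into (he ▸ dual_E hB hx hpp))
    · obtain ⟨hD, q1⟩ := NARec1_V h hd hc h2 hz
      exact Set.mem_of_eq_of_mem q1 (NARec1_into (hd ▸ hD))
  · rintro w ⟨y, hy, rfl⟩
    obtain ⟨x, p, hD, e₀⟩ := dual_exists (mu_pos n) hy
    have e' : mx (n + 1) y (S.C (S.ty G.1)) = mx n x p := by
      unfold mx
      rw [mu_succ, e₀]
      push_cast
      ring
    rw [e']
    clear e' e₀
    rcases classify hD with ⟨j, hj, hx, rfl⟩ | ⟨e, he, hB, hl, hx, hpp⟩ | ⟨d, hd, hc, h2, rfl, hpp⟩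
    · obtain ⟨z, hz, q⟩ := NARec1_T' (n := n) hx
      exact ⟨.inl ⟨j, hj⟩, z, hz, q⟩
    · obtain ⟨s, s0, s1, rfl⟩ := NARec1_seg' hx
      obtain ⟨t, t0, t1, rfl⟩ := NARec1_seg' hpp
      exact ⟨.inr (.inl ⟨e, he, hB, hl⟩), _, ⟨s, t, s0, s1, t0, t1, rfl⟩,
        (Bm_rp_birth hB n s t).symm⟩
    · exact ⟨.inr (.inr ⟨d, hd, hc, h2⟩), p / 2, (poly_vf h hd (an n) p).2 hpp,
        (tv_smul n _ p).symm⟩

theorem Bm_OmT {j : S.Ch} {z : ℂ} (hz : z ∈ S.OmT n (S.ty j)) :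
    S.Bm (5 ^ n) j • z ∈ S.OmT (n + 1) (S.par j) := by
  obtain ⟨x, hx, q⟩ := NARec1_T hz
  rw [q]
  exact NARec1_into (dual_T hx)

/-- the sides `hside` seen in the supertile -/
theorem IsCore.hs {L : Lev C n} {G : S.TS} {Φ : ℂ → D.PP} (H : IsCore L G Φ) (h : S.Val G)
    {d : S.D} (hd : S.dpar d = S.ty G.1) (hB : S.isB d = true) (h0 : S.bp d ≠ 0) {y : ℂ}
    (hy : y ∈ S.poly.sseg (S.hside G d (an n)).1) :
    Φ ((tv n (S.PV d) * (S.hside G d (an n)).2.2) • y) =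
      (tv n (S.PV d) * (S.hside G d (an n)).2.2) • C.si (S.hside G d (an n)).1 y := by
  obtain ⟨hc, hP, hs, hP', hc', -, -, hd', -⟩ := S.first_facts hB h0
  by_cases h2 : S.two d
  · have e0 : S.hside G d (an n) = S.vside G d (an n) := if_pos h2
    rw [e0] at hy ⊢
    by_cases hl : S.left (S.pvd d) = true
    · have he : S.dpar (S.pvd d) = S.ty G.1 := (S.dpar_pvd d).trans hd
      have e1 := NARec1_vs1 G hP hl (an n)
      rw [S.nxd_pvd] at e1
      rw [e1] at hy ⊢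
      obtain ⟨t, t0, t1, ey⟩ := (sseg_se _ _ y).1 hy
      obtain ⟨-, k1, k2⟩ := NARec1_e1 L h he hP hl t0 t1 rfl ey
      rw [S.nxd_pvd] at k1 k2
      rw [← k1, ← k2]
      exact H.E _ he hP hl _ ⟨1, t, zero_le_one, le_rfl, t0, t1, rfl⟩
    · have he : S.dpar (S.opp (S.pvd d)) = S.ty G.1 :=
        (S.opp_par _ hP).trans ((S.dpar_pvd d).trans hd)
      have hB' := S.opp_B _ hP
      have hl' : S.left (S.opp (S.pvd d)) = true := by
        rw [S.opp_left _ hP]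
        simpa using hl
      have e1 := NARec1_vs0 G hB' hl' (an n)
      rw [S.opp_opp _ hP, S.nxd_pvd] at e1
      rw [e1] at hy ⊢
      obtain ⟨t, t0, t1, ey⟩ := (sseg_se _ _ y).1 hy
      obtain ⟨-, k1, k2⟩ := NARec1_e0 L h he hB' hl' t0 t1 rfl ey
      rw [S.opp_PV _ hP, S.nxd_pvd] at k1 k2
      rw [← k1, ← k2]
      exact H.E _ he hB' hl' _ ⟨0, t, le_rfl, zero_le_one, t0, t1, rfl⟩
  · have e0 : S.hside G d (an n) = (.hs G d (an n), true, 1) := if_neg h2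
    rw [e0] at hy ⊢
    have es : S.st (S.ls d) = S.st d := hs.trans (S.st_B d hB).symm
    have e1 : S.vside G (S.ls d) (an n) = (.hs G d (an n), false, 1) := by
      rw [vside, if_pos hP', hs]
    obtain ⟨k1, k2⟩ := NARec1_fa_si (C := C) h (hd'.trans hd) hc' (NARec1_st es hc h2).2.2.2 (an n)
      e1 hy
    rw [es, one_smul] at k1 k2
    rw [mul_one, H.V d hd hc h2 y k1, k2, one_smul]

end Sub

end Pool.Agent.Work.MP_0909b4_al.NA
end

-- merged part: Pool.Agent.Work.MP_0909b4_al.NARec2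
section
/-! The long strip of level `n + 1`, and the step from level `n` to level `n + 1`.

Plan.
* `ls_step`: `DevAct.glue` with index type `Fin 5 ⊕ Fin 4`. In the coordinates `rp (n+1) k k' σ t`,
  with `τ = mu (n+1) σ ∈ [0, 5 μ + 4]`, the strip `p` is `τ ∈ [(μ+1) p, (μ+1) p + μ]` (`GE.Bm_rp_sub`)
  and the rectangle `p` is `τ ∈ [(μ+1)(p+1) - 1, (μ+1)(p+1)]` (`tv_mid`, `poly_mid`); `GE.rp_inj`.
  The strip `p.castSucc` meets the rectangle `p` in its end `1` (corner `mid z p a 1`, `e1`, `apm_e1`,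
  `Bm_apm` for the dart `ls (dQ z p)`), the strip `p.succ` in its end `0` (corner `mid z p a 3`).
* `step`: choose `Core`, `LS` by `core_step`, `ls_step`. `ax`, `e0`, `e1`: `apm_succ`, `iter_an`,
  `cc_three`, `subz0_three`, `subz4_three`, `dch_bd4`, `dco_bd4`. `sQ`: on the strip `p` use `IsLS.S`,
  `L.sQ`, `IsCore.T`; on the rectangle `p` use `IsLS.M`, `fa_si` for the corner `mid z p a 0`, and
  `IsCore.hs`. `sR`: the same with `GE.gm_sub`, `GE.gm_tv`, `GE.rp_one`, the corner `mid z p a 2`.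
-/

namespace Pool.Agent.Work.MP_0909b4_al.NA

namespace Sub

variable {S : Sub} {G' X : Type} [Group G'] [MetricSpace X] [MulAction G' X] {D : DevAct G' X}
  {C : CellSys S.poly D} {n : ℕ}

/-- `Φ` is the long strip of level `n + 1` with label `z` -/
structure IsLS (L : Lev C n) (z : S.ZS) (Φ : ℂ → D.PP) : Prop where
  patch : D.Patch (S.Rect (n + 1) (S.kQ z) (S.kR z)) Φ
  St : ∀ p : Fin 5, ∀ y ∈ S.Rect n (S.kQ (S.subz p z)) (S.kR (S.subz p z)),
    Φ (S.Bm (5 ^ n) (S.dch (S.bd (S.kQ z) p)) • y) =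
      S.Bm (5 ^ n) (S.dch (S.bd (S.kQ z) p)) • L.LS (S.subz p z) y
  M : ∀ p : Fin 4, ∀ y ∈ S.poly.gon.poly (Fa.mid z p (an n)),
    Φ (tv n (S.PV (S.dQ z p)) • y) = tv n (S.PV (S.dQ z p)) • C.fa (Fa.mid z p (an n)) y

/-- the parameter interval is covered by the five strips and the four rectangles -/
theorem par_cover {μ τ : ℝ} (hμ : 0 < μ) (h0 : 0 ≤ τ) (h1 : τ ≤ 5 * μ + 4) :
    (∃ (p : Fin 5) (s : ℝ), 0 ≤ s ∧ s ≤ 1 ∧ τ = (μ + 1) * p.val + μ * s) ∨
      ∃ (p : Fin 4) (s : ℝ), 0 ≤ s ∧ s ≤ 1 ∧ τ = (μ + 1) * (p.val + 1) - s := by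
  have A : ∀ p : Fin 5, (μ + 1) * p.val ≤ τ → τ ≤ (μ + 1) * p.val + μ →
      ∃ (p : Fin 5) (s : ℝ), 0 ≤ s ∧ s ≤ 1 ∧ τ = (μ + 1) * p.val + μ * s := fun p a b =>
    ⟨p, (τ - (μ + 1) * p.val) / μ, div_nonneg (by linarith) hμ.le,
      (div_le_one hμ).2 (by linarith), by field_simp; ring⟩
  have B : ∀ p : Fin 4, (μ + 1) * (p.val + 1) - 1 ≤ τ → τ ≤ (μ + 1) * (p.val + 1) →
      ∃ (p : Fin 4) (s : ℝ), 0 ≤ s ∧ s ≤ 1 ∧ τ = (μ + 1) * (p.val + 1) - s := fun p a b =>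
    ⟨p, (μ + 1) * (p.val + 1) - τ, by linarith, by linarith, by ring⟩
  rcases le_total τ μ with c0 | c0
  · exact Or.inl (A 0 (by simpa using h0) (by simpa using c0))
  rcases le_total τ (μ + 1) with d0 | d0
  · exact Or.inr (B 0 (by simpa using c0) (by simpa using d0))
  rcases le_total τ (2 * μ + 1) with c1 | c1
  · exact Or.inl (A 1 (by simpa using d0) (by simp; linarith))
  rcases le_total τ (2 * μ + 2) with d1 | d1
  · exact Or.inr (B 1 (by simp; linarith) (by simp; linarith))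
  rcases le_total τ (3 * μ + 2) with c2 | c2
  · exact Or.inl (A 2 (by simp; linarith) (by simp; linarith))
  rcases le_total τ (3 * μ + 3) with d2 | d2
  · exact Or.inr (B 2 (by simp; linarith) (by simp; linarith))
  rcases le_total τ (4 * μ + 3) with c3 | c3
  · exact Or.inl (A 3 (by simp; linarith) (by simp; linarith))
  rcases le_total τ (4 * μ + 4) with d3 | d3
  · exact Or.inr (B 3 (by simp; linarith) (by simp; linarith))
  · exact Or.inl (A 4 (by simp; linarith) (by simp; linarith))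

theorem NARec2_GE {z : S.ZS} (h : S.IsAdj z) : S.GE (S.kQ z) (S.kR z) := h.inv.2.2.2.2

/-- a point of a short strip in the coordinates of the long strip -/
theorem NARec2_St {z : S.ZS} (h : S.IsAdj z) (n : ℕ) (p : Fin 5) (s t : ℝ) :
    S.Bm (5 ^ n) (S.dch (S.bd (S.kQ z) p)) • S.rp n (S.kQ (S.subz p z)) (S.kR (S.subz p z)) s t =
      S.rp (n + 1) (S.kQ z) (S.kR z) (((mu n + 1) * p.val + mu n * s) / mu (n + 1)) t :=
  (NARec2_GE h).Bm_rp_sub n p s t

theorem NARec2_cover (n : ℕ) {σ : ℝ} (h0 : 0 ≤ σ) (h1 : σ ≤ 1) :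
    (∃ (p : Fin 5) (s : ℝ), 0 ≤ s ∧ s ≤ 1 ∧ σ = ((mu n + 1) * p.val + mu n * s) / mu (n + 1)) ∨
      ∃ (p : Fin 4) (s : ℝ), 0 ≤ s ∧ s ≤ 1 ∧ σ = ((mu n + 1) * (p.val + 1) - s) / mu (n + 1) := by
  have hp := mu_pos (n + 1)
  have h2 : mu (n + 1) * σ ≤ 5 * mu n + 4 := by
    rw [← mu_succ]
    exact mul_le_of_le_one_right hp.le h1
  rcases par_cover (mu_pos n) (mul_nonneg hp.le h0) h2 with ⟨p, s, a, b, e⟩ | ⟨p, s, a, b, e⟩
  · exact Or.inl ⟨p, s, a, b, by rw [← e, mul_div_cancel_left₀ _ hp.ne']⟩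
  · exact Or.inr ⟨p, s, a, b, by rw [← e, mul_div_cancel_left₀ _ hp.ne']⟩

theorem NARec2_int {μ x : ℝ} (hμ : 0 < μ) {a b : ℕ} (e : (μ + 1) * a = (μ + 1) * b + x)
    (h0 : -(μ + 1) < x) (h1 : x < μ + 1) : a = b := by
  have hm : 0 < μ + 1 := by linarith
  have l1 : (a : ℝ) < b + 1 := by
    by_contra hn
    have := mul_le_mul_of_nonneg_left (not_lt.1 hn) hm.le
    linarith
  have l2 : (b : ℝ) < a + 1 := by
    by_contra hn
    have := mul_le_mul_of_nonneg_left (not_lt.1 hn) hm.le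
    linarith
  have l1' : a < b + 1 := by exact_mod_cast l1
  have l2' : b < a + 1 := by exact_mod_cast l2
  omega

theorem NARec2_ov {μ s s' : ℝ} (hμ : 0 < μ) {p : Fin 5} {q : Fin 4} (a : 0 ≤ s) (b : s ≤ 1)
    (a' : 0 ≤ s') (b' : s' ≤ 1) (e : (μ + 1) * p.val + μ * s = (μ + 1) * (q.val + 1) - s') :
    (p = q.castSucc ∧ s = 1) ∨ (p = q.succ ∧ s = 0) := by
  have h1 : 0 ≤ μ * s := mul_nonneg hμ.le a
  have h2 : μ * s ≤ μ := mul_le_of_le_one_right hμ.le b
  by_cases c : μ * s + s' < μ + 1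
  · right
    have : p.val = q.val + 1 := by
      refine NARec2_int hμ (x := -(μ * s + s')) ?_ (by linarith) (by linarith)
      push_cast
      linarith only [e]
    refine ⟨Fin.ext this, ?_⟩
    rw [this] at e
    push_cast at e
    have h3 : μ * s = 0 := by linarith only [h1, a', e]
    exact (mul_eq_zero.1 h3).resolve_left hμ.ne'
  · left
    have h3 : μ * s = μ * 1 := by linarith
    have h4 : s' = 1 := by linarith
    refine ⟨Fin.ext ?_, mul_left_cancel₀ hμ.ne' h3⟩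
    refine NARec2_int hμ (x := 0) ?_ (by linarith) (by linarith)
    change (μ + 1) * p.val = (μ + 1) * q.val + 0
    linarith only [b', e, h2, c]

theorem NARec2_mot1 (z : S.ZS) (n : ℕ) (q : Fin 4) :
    S.Bm (5 ^ n) (S.dch (S.bd (S.kQ z) q.castSucc)) *
      S.apm n (S.nx (S.kQ (S.subz q.castSucc z))) =
      tv n (S.PV (S.dQ z q)) * S.am (S.ls (S.dQ z q)) (an n) := by
  have e : S.ls (S.dQ z q) = S.nxd (S.bd (S.kQ z) q.castSucc) := S.ls_bd _ q
  have e' : S.PV (S.dQ z q) = S.PV (S.nxd (S.bd (S.kQ z) q.castSucc)) := by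
    rw [S.bd_PV', dQ, S.bd_PV]
    simp
  have := Bm_apm n (S.nxd (S.bd (S.kQ z) q.castSucc))
  rw [S.dch_nxd, S.dco_nxd] at this
  rw [e, e']
  exact this

theorem NARec2_mot0 (z : S.ZS) (n : ℕ) (q : Fin 4) :
    S.Bm (5 ^ n) (S.dch (S.bd (S.kQ z) q.succ)) * S.apm n (S.kQ (S.subz q.succ z)) =
      tv n (S.PV (S.dQ z q)) * S.am (S.dQ z q) (an n) :=
  Bm_apm n (S.dQ z q)

/-- the end `1` of a short strip is a side of the next rectangle -/
theorem NARec2_end1 (L : Lev C n) {z : S.ZS} (h : S.IsAdj z) (q : Fin 4) {t : ℝ} (h0 : 0 ≤ t)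
    (h1 : t ≤ 1) {y : ℂ}
    (e : S.Bm (5 ^ n) (S.dch (S.bd (S.kQ z) q.castSucc)) •
      S.rp n (S.kQ (S.subz q.castSucc z)) (S.kR (S.subz q.castSucc z)) 1 t =
      tv n (S.PV (S.dQ z q)) • y) :
    S.Bm (5 ^ n) (S.dch (S.bd (S.kQ z) q.castSucc)) • L.LS (S.subz q.castSucc z)
      (S.rp n (S.kQ (S.subz q.castSucc z)) (S.kR (S.subz q.castSucc z)) 1 t) =
      tv n (S.PV (S.dQ z q)) • C.fa (Fa.mid z q (an n)) y := by
  have hp : S.IsAdj (S.subz q.castSucc z) := h.sub _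
  have hy := (sseg_se ((S.subz 4)^[(an n).val] (S.subz q.castSucc z)) true _).2 ⟨t, h0, h1, rfl⟩
  rw [← apm_e1 (NARec2_GE hp) n t rfl] at e ⊢
  rw [L.e1 _ hp _ hy, ← mul_smul, NARec2_mot1, mul_smul]
  rw [← mul_smul, NARec2_mot1, mul_smul, smul_left_cancel_iff] at e
  rw [← e]
  exact congrArg _ (C.fa_si ⟨Cn0.mid z q (an n) 1, h⟩ _ hy).symm

/-- the end `0` of a short strip is a side of the previous rectangle -/
theorem NARec2_end0 (L : Lev C n) {z : S.ZS} (h : S.IsAdj z) (q : Fin 4) {t : ℝ} (h0 : 0 ≤ t)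
    (h1 : t ≤ 1) {y : ℂ}
    (e : S.Bm (5 ^ n) (S.dch (S.bd (S.kQ z) q.succ)) •
      S.rp n (S.kQ (S.subz q.succ z)) (S.kR (S.subz q.succ z)) 0 t =
      tv n (S.PV (S.dQ z q)) • y) :
    S.Bm (5 ^ n) (S.dch (S.bd (S.kQ z) q.succ)) • L.LS (S.subz q.succ z)
      (S.rp n (S.kQ (S.subz q.succ z)) (S.kR (S.subz q.succ z)) 0 t) =
      tv n (S.PV (S.dQ z q)) • C.fa (Fa.mid z q (an n)) y := by
  have hp : S.IsAdj (S.subz q.succ z) := h.sub _
  have hy := (sseg_se ((S.subz 0)^[(an n).val] (S.subz q.succ z)) false _).2 ⟨t, h0, h1, rfl⟩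
  rw [← apm_e0 (NARec2_GE hp) n t rfl] at e ⊢
  rw [L.e0 _ hp _ hy, ← mul_smul, NARec2_mot0, mul_smul]
  rw [← mul_smul, NARec2_mot0, mul_smul, smul_left_cancel_iff] at e
  rw [← e]
  exact congrArg _ (C.fa_si ⟨Cn0.mid z q (an n) 3, h⟩ _ hy).symm

theorem NARec2_SM (L : Lev C n) {z : S.ZS} (h : S.IsAdj z) (p : Fin 5) (q : Fin 4) {y y' : ℂ}
    (hy : y ∈ S.Rect n (S.kQ (S.subz p z)) (S.kR (S.subz p z)))
    (hy' : y' ∈ S.poly.gon.poly (Fa.mid z q (an n)))
    (e : S.Bm (5 ^ n) (S.dch (S.bd (S.kQ z) p)) • y = tv n (S.PV (S.dQ z q)) • y') :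
    S.Bm (5 ^ n) (S.dch (S.bd (S.kQ z) p)) • L.LS (S.subz p z) y =
      tv n (S.PV (S.dQ z q)) • C.fa (Fa.mid z q (an n)) y' := by
  obtain ⟨s, t, a, b, c, d, rfl⟩ := hy
  obtain ⟨s', t', a', b', -, -, e'⟩ := (poly_mid h q (an n) y').1 hy'
  have e2 := e
  rw [NARec2_St h, e', tv_mid] at e2
  have e3 := (div_left_inj' (mu_pos (n + 1)).ne').1 ((NARec2_GE h).rp_inj (n + 1) e2).1
  rcases NARec2_ov (mu_pos n) a b a' b' e3 with ⟨rfl, rfl⟩ | ⟨rfl, rfl⟩
  · exact NARec2_end1 L h q c d e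
  · exact NARec2_end0 L h q c d e

theorem ls_step (L : Lev C n) {z : S.ZS} (h : S.IsAdj z) : ∃ Φ, IsLS L z Φ := by
  have hμ := mu_pos n
  have hμ' := mu_pos (n + 1)
  have hs := mu_succ n
  refine (DevAct.glue (D := D) (J := Fin 5 ⊕ Fin 4)
    (Sum.elim (fun p => S.Rect n (S.kQ (S.subz p z)) (S.kR (S.subz p z)))
      fun q => S.poly.gon.poly (Fa.mid z q (an n)))
    (Sum.elim (fun p => L.LS (S.subz p z)) fun q => C.fa (Fa.mid z q (an n)))
    (Sum.elim (fun p => S.Bm (5 ^ n) (S.dch (S.bd (S.kQ z) p))) fun q => tv n (S.PV (S.dQ z q)))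
    ?_ ?_ (S.Rect (n + 1) (S.kQ z) (S.kR z)) ?_ ?_).imp
    fun Ψ H => ⟨H.1, fun p => H.2 (Sum.inl p), fun q => H.2 (Sum.inr q)⟩
  · rintro (p | q)
    · exact L.pL _ (h.sub p)
    · exact C.patch ⟨Cn0.mid z q (an n) 0, h⟩
  · rintro (p | q) (p' | q') y hy y' hy' e
    · simp only [Sum.elim_inl] at hy hy' e ⊢
      have e2 := e
      obtain ⟨s, t, a, b, -, -, f⟩ := hy
      obtain ⟨s', t', a', b', -, -, f'⟩ := hy'
      rw [f, f', NARec2_St h, NARec2_St h] at e2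
      have e3 := (div_left_inj' hμ'.ne').1 ((NARec2_GE h).rp_inj (n + 1) e2).1
      have h1 := mul_nonneg hμ.le a
      have h2 := mul_le_of_le_one_right hμ.le b
      have h3 := mul_nonneg hμ.le a'
      have h4 := mul_le_of_le_one_right hμ.le b'
      obtain rfl : p = p' := Fin.ext (NARec2_int hμ (x := mu n * s' - mu n * s) (by linarith only [e3])
        (by linarith) (by linarith))
      rw [smul_left_cancel_iff] at e
      rw [e]
    · exact NARec2_SM L h p q' hy hy' e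
    · exact (NARec2_SM L h p' q hy' hy e.symm).symm
    · simp only [Sum.elim_inr] at hy hy' e ⊢
      have e2 := e
      obtain ⟨s, t, a, b, -, -, f⟩ := (poly_mid h q (an n) y).1 hy
      obtain ⟨s', t', a', b', -, -, f'⟩ := (poly_mid h q' (an n) y').1 hy'
      rw [f, f', tv_mid, tv_mid] at e2
      have e3 := (div_left_inj' hμ'.ne').1 ((NARec2_GE h).rp_inj (n + 1) e2).1
      obtain rfl : q = q' := Fin.ext (NARec2_int hμ (x := s - s') (by linarith only [e3])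
        (by linarith only [hμ, a, b']) (by linarith only [hμ, b, a']))
      rw [smul_left_cancel_iff] at e
      rw [e]
  · rintro (p | q) y hy
    · obtain ⟨s, t, a, b, c, d, rfl⟩ := hy
      have h1 := mul_nonneg hμ.le a
      have h2 := mul_le_of_le_one_right hμ.le b
      have h3 : (0 : ℝ) ≤ p.val := Nat.cast_nonneg _
      have h4 : (p.val : ℝ) ≤ 4 := by exact_mod_cast Nat.lt_succ_iff.1 p.isLt
      refine ⟨_, t, div_nonneg (by positivity) hμ'.le, (div_le_one hμ').2 ?_, c, d,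
        NARec2_St h n p s t⟩
      linarith only [hs, h2, h4, hμ, mul_nonneg_of_nonpos_of_nonpos (le_of_lt (Mathlib.Tactic.Linarith.sub_neg_of_lt hμ)) (Mathlib.Tactic.Linarith.sub_nonpos_of_le h4)]
    · obtain ⟨s, t, a, b, c, d, rfl⟩ := (poly_mid h q (an n) y).1 hy
      have h3 : (0 : ℝ) ≤ q.val := Nat.cast_nonneg _
      have h4 : (q.val : ℝ) ≤ 3 := by exact_mod_cast Nat.lt_succ_iff.1 q.isLt
      refine ⟨_, t, div_nonneg ?_ hμ'.le, (div_le_one hμ').2 ?_, c, d, tv_mid z n q s t⟩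
      · linarith only [hμ, b, mul_nonneg_of_nonpos_of_nonpos (Mathlib.Tactic.Linarith.sub_nonpos_of_le (Mathlib.Tactic.Linarith.natCast_nonneg ℝ ↑q)) (le_of_lt (Mathlib.Tactic.Linarith.sub_neg_of_lt hμ))]
      · linarith only [hμ, hs, a, h4, mul_nonneg_of_nonpos_of_nonpos (le_of_lt (Mathlib.Tactic.Linarith.sub_neg_of_lt hμ)) (Mathlib.Tactic.Linarith.sub_nonpos_of_le h4)]
  · rintro w ⟨σ, t, a, b, c, d, rfl⟩
    rcases NARec2_cover n a b with ⟨p, s, a', b', rfl⟩ | ⟨q, s, a', b', rfl⟩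
    · exact ⟨Sum.inl p, _, ⟨s, t, a', b', c, d, rfl⟩, (NARec2_St h n p s t).symm⟩
    · exact ⟨Sum.inr q, _, (poly_mid h q (an n) _).2 ⟨s, t, a', b', c, d, rfl⟩,
        (tv_mid z n q s t).symm⟩

theorem NARec2_par (x : S.DS) (p : Fin 5) :
    S.par (S.dch (S.bd (S.dco x.1) p)) = S.ty (S.ts x).1 :=
  (S.bd_par _ p).trans (S.dco_ty x.1)

theorem NARec2_mem (n : ℕ) (d : S.D) (k' : S.Co) {s : ℝ} (h0 : 0 ≤ s) (h1 : s ≤ 1) :
    S.rp n (S.dco d) k' s 0 ∈ S.OmT n (S.ty (S.dch d)) := by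
  rw [← S.dco_ty]
  exact rp_mem n _ k' h0 h1

theorem NARec2_vt {z : S.ZS} (h : S.IsAdj z) (q : Fin 4) (a : Fin 3) (i : Fin 4) :
    S.poly.vt ⟨Cn0.mid z q a i, h⟩ = parV (S.PC (S.dch (S.dQ z q)) / 2) (-S.δ (S.kQ z) / 2)
      (S.wz (S.kQ z) (S.kR z) / 2) i := by
  rw [← vt_mid h q a i]
  exact congrArg Mot.b (ma_eq ⟨Cn0.mid z q a i, h⟩)

theorem NARec2_seg {z : S.ZS} (h : S.IsAdj z) (q : Fin 4) (a : Fin 3) (i : Fin 4) {y : ℂ}
    (hy : y ∈ segment ℝ (parV (S.PC (S.dch (S.dQ z q)) / 2) (-S.δ (S.kQ z) / 2)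
      (S.wz (S.kQ z) (S.kR z) / 2) i) (parV (S.PC (S.dch (S.dQ z q)) / 2) (-S.δ (S.kQ z) / 2)
      (S.wz (S.kQ z) (S.kR z) / 2) (i + 1))) :
    ∃ y' ∈ S.poly.sseg (S.sdm (Cn0.mid z q a i)).1, y = (S.sdm (Cn0.mid z q a i)).2.2 • y' := by
  refine ⟨((S.sdm (Cn0.mid z q a i)).2.2)⁻¹ • y, ?_, (smul_inv_smul _ _).symm⟩
  refine (S.poly.m2_seg ⟨Cn0.mid z q a i, h⟩ _).1 ?_
  change (S.sdm (Cn0.mid z q a i)).2.2 • _ ∈
    segment ℝ (S.poly.vt ⟨Cn0.mid z q a i, h⟩) (S.poly.vt ⟨Cn0.mid z q a (i + 1), h⟩)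
  rw [smul_inv_smul, NARec2_vt, NARec2_vt]
  exact hy

theorem step_sQ {L : Lev C n} {z : S.ZS} (h : S.IsAdj z) {Φ Ψ : ℂ → D.PP} (H : IsLS L z Φ)
    (H' : IsCore L (S.ts z.1) Ψ) {s : ℝ} (h0 : 0 ≤ s) (h1 : s ≤ 1) :
    Φ (S.rp (n + 1) (S.kQ z) (S.kR z) s 0) = Ψ (S.rp (n + 1) (S.kQ z) (S.kR z) s 0) := by
  rcases NARec2_cover n h0 h1 with ⟨p, σ, a, b, rfl⟩ | ⟨q, σ, a, b, rfl⟩
  · rw [← NARec2_St h, H.St p _ ⟨σ, 0, a, b, le_rfl, zero_le_one, rfl⟩, L.sQ _ (h.sub p) σ a b]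
    exact (H'.T _ (NARec2_par z.1 p) _ (NARec2_mem n (S.bd (S.kQ z) p) _ a b)).symm
  · rw [← tv_mid, H.M q _ ((poly_mid h q (an n) _).2 ⟨σ, 0, a, b, le_rfl, zero_le_one, rfl⟩)]
    obtain ⟨y, hy, e⟩ := NARec2_seg h q (an n) 0
      (y := S.PC (S.dch (S.dQ z q)) / 2 + σ * (-S.δ (S.kQ z) / 2) +
        (0 : ℝ) * (S.wz (S.kQ z) (S.kR z) / 2)) ⟨1 - σ, σ, by linarith only [b], a, by ring, by
          simp [parV]
          ring⟩
    obtain ⟨f1, f2, f3, -⟩ := dQ_facts z q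
    have k1 := C.fa_si ⟨Cn0.mid z q (an n) 0, h⟩ y hy
    have k2 := H'.hs h.inv.1 f3 f1 f2 (y := y) hy
    rw [mul_smul, mul_smul] at k2
    rw [e]
    exact (congrArg _ k1).trans k2.symm

theorem step_sR {L : Lev C n} {z : S.ZS} (h : S.IsAdj z) {Φ Ψ : ℂ → D.PP} (H : IsLS L z Φ)
    (H' : IsCore L (S.ts z.2.1) Ψ) {s : ℝ} (h0 : 0 ≤ s) (h1 : s ≤ 1) :
    Φ (S.rp (n + 1) (S.kQ z) (S.kR z) s 1) =
      S.gm (S.kQ z) (S.kR z) (5 ^ (n + 1)) • Ψ (S.rp (n + 1) (S.kR z) (S.kQ z) (1 - s) 0) := by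
  have g := NARec2_GE h
  have e1 := g.rp_one (n + 1) s
  rcases NARec2_cover n h0 h1 with ⟨p, σ, a, b, f⟩ | ⟨q, σ, a, b, f⟩
  · have hp : S.IsAdj (S.subz p z) := h.sub p
    have e2 : S.Bm (5 ^ n) (S.dch (S.bd (S.kQ z) p)) *
        S.gm (S.kQ (S.subz p z)) (S.kR (S.subz p z)) (5 ^ n) =
        S.gm (S.kQ z) (S.kR z) (5 ^ (n + 1)) * S.Bm (5 ^ n) (S.dch (S.bd (S.kR z) p.rev)) := by
      rw [pow_succ']
      exact g.gm_sub p (5 ^ n)
    have e3 := NARec2_St h n p σ 1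
    rw [← f] at e3
    have e4 := e3
    rw [(NARec2_GE hp).rp_one, ← mul_smul, e2, mul_smul, e1, smul_left_cancel_iff] at e4
    rw [← e3, H.St p _ ⟨σ, 1, a, b, zero_le_one, le_rfl, rfl⟩, L.sR _ hp σ a b, ← mul_smul, e2,
      mul_smul, ← e4]
    exact congrArg _ (H'.T _ (NARec2_par z.2.1 p.rev) _
      (NARec2_mem n (S.bd (S.kR z) p.rev) _ (by linarith) (by linarith))).symm
  · have e3 := tv_mid z n q σ 1
    rw [← f] at e3
    have hm := (poly_mid h q (an n) _).2 ⟨σ, 1, a, b, zero_le_one, le_rfl, rfl⟩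
    obtain ⟨y, hy, e⟩ := NARec2_seg h q (an n) 2
      (y := S.PC (S.dch (S.dQ z q)) / 2 + σ * (-S.δ (S.kQ z) / 2) +
        (1 : ℝ) * (S.wz (S.kQ z) (S.kR z) / 2)) ⟨σ, 1 - σ, a, by linarith, by ring, by
          simp [parV]
          ring⟩
    obtain ⟨f1, f2, f3, -⟩ := dR_facts z q
    have k1 := C.fa_si ⟨Cn0.mid z q (an n) 2, h⟩ y hy
    have k2 := H'.hs h.inv.2.1 f3 f1 f2 (y := y) hy
    have e2 : tv n (S.PV (S.dQ z q)) * (S.sdm (Cn0.mid z q (an n) 2)).2.2 =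
        S.gm (S.kQ z) (S.kR z) (5 ^ (n + 1)) *
          (tv n (S.PV (S.dR z q)) * (S.hside (S.ts z.2.1) (S.dR z q) (an n)).2.2) := by
      rw [← mul_assoc, g.gm_tv, mul_assoc]
      rfl
    have e4 := e3
    rw [e, ← mul_smul, e2, mul_smul, e1, smul_left_cancel_iff] at e4
    rw [← e3, H.M q _ hm, e, ← e4, k2, ← mul_smul, ← e2, mul_smul]
    exact congrArg _ k1

theorem step (L : Lev C n) : ∃ L' : Lev C (n + 1), ∀ G, S.Val G → IsCore L G (L'.Core G) := by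
  have hC : ∀ G, ∃ Φ, S.Val G → IsCore L G Φ := fun G => by
    by_cases h : S.Val G
    · exact (core_step L h).imp fun _ H _ => H
    · exact ⟨L.Core G, fun h' => (h h').elim⟩
  have hL : ∀ z, ∃ Φ, S.IsAdj z → IsLS L z Φ := fun z => by
    by_cases h : S.IsAdj z
    · exact (ls_step L h).imp fun _ H _ => H
    · exact ⟨L.LS z, fun h' => (h h').elim⟩
  choose Co hCo using hC
  choose LS hLS using hL
  refine ⟨⟨Co, LS, fun G h => (hCo G h).patch, fun z h => (hLS z h).patch,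
    fun z h s a b => step_sQ h (hLS z h) (hCo _ h.inv.1) a b,
    fun z h s a b => step_sR h (hLS z h) (hCo _ h.inv.2.1) a b, fun x h => ?_, fun z h y hy => ?_,
    fun z h y hy => ?_⟩, hCo⟩
  · have hm : (S.apm n (S.cor (S.dco x.1))).b ∈ S.OmT n (S.ty (S.dch (S.bd (S.dco x.1) 0))) := by
      rw [← S.dco_ty]
      exact ⟨_, S.gon.vt_mem (S.cor (S.dco x.1)), rfl⟩
    rw [apm_succ, ← iter_an S.cc cc_three, mul_smul]
    refine ((hCo _ h).T _ (NARec2_par x 0) _ hm).trans (congrArg _ ?_)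
    exact L.ax (S.cc x) (h.subD 0)
  · have hp : S.IsAdj (S.subz 0 z) := h.sub 0
    rw [← iter_an (S.subz 0) subz0_three] at hy ⊢
    obtain ⟨t, a, b, e⟩ := (sseg_se _ _ _).1 hy
    have hm : S.apm n (S.kQ (S.subz 0 z)) • y ∈
        S.Rect n (S.kQ (S.subz 0 z)) (S.kR (S.subz 0 z)) :=
      ⟨0, t, le_rfl, zero_le_one, a, b, e ▸ apm_e0 (NARec2_GE hp) n t rfl⟩
    rw [apm_succ, mul_smul, mul_smul]
    exact ((hLS z h).St 0 _ hm).trans (congrArg _ (L.e0 _ hp y hy))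
  · have hp : S.IsAdj (S.subz 4 z) := h.sub 4
    rw [← iter_an (S.subz 4) subz4_three] at hy ⊢
    obtain ⟨t, a, b, e⟩ := (sseg_se _ _ _).1 hy
    have hm : S.apm n (S.nx (S.kQ (S.subz 4 z))) • y ∈
        S.Rect n (S.kQ (S.subz 4 z)) (S.kR (S.subz 4 z)) :=
      ⟨1, t, zero_le_one, le_rfl, a, b, e ▸ apm_e1 (NARec2_GE hp) n t rfl⟩
    have e' : S.cor (S.nx (S.kQ z)) = S.nx (S.kQ (S.subz 4 z)) := by
      rw [← S.nx_pv (S.cor (S.nx (S.kQ z))), ← S.dco_bd4]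
      rfl
    rw [apm_succ, mul_smul, mul_smul, e', ← S.dch_bd4]
    exact ((hLS z h).St 4 _ hm).trans (congrArg _ (L.e1 _ hp y hy))

end Sub

end Pool.Agent.Work.MP_0909b4_al.NA
end

-- merged part: Pool.Agent.Work.MP_0909b4_al.NARec3
section
/-! The system of all supertiles.

Plan. `levels`: recursion with choice on `step`, starting from `lev0`. Colours are the valid labels,
`Om n G = OmT n (ty G.1)`, `A = 5`. `PSub` is transitive (`B * B'`), and `(n+1, G)` contains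
`(n, chd G j)` with `B = Bm (5 ^ n) j` (`IsCore.T`, `Bm_OmT`).
* `big`, `diam`: `one_le`, `tile_rad`, `rr_le`, `pow_le_mu`.
* `D1`: by induction on `n - k` with `plain_cover`: for `x ∈ tile` there are `G', B, x' ∈ tile` with
  `B • (5 ^ k x') = 5 ^ n x`; and `mx k x p = 5 ^ k x - (x - p) / 2`.
* `D2`: let `M = N * card Col + 1` (or any bound for the pigeonhole principle), `m = M + 3`. Go down
  three levels to the type `tS` (`reach`), then `i` times through `j1` and `M - i` times through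
  `j0`; the rotation is `a₀ * (mo j1).a ^ i`. `N` of the indices `i ≤ M` give the same colour. `s` is a
  lower bound of `‖(mo j1).a ^ l - 1‖`, `0 < l ≤ M`. The ball with centre `mx k (C tS) (C tS)` and radius
  `5 ^ k / 2` lies in `OmT k tS` (`tS_ball`, `pow_le_mu`).
* `D3`: `CellSys.flat` for a corner `core x`, `poly_core`.
-/

namespace Pool.Agent.Work.MP_0909b4_al.NA

namespace Sub

variable {S : Sub} {G' X : Type} [Group G'] [MetricSpace X] [MulAction G' X] {D : DevAct G' X}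

theorem levels (C : CellSys S.poly D) : ∃ L : ∀ n, Lev C n,
    (∀ G, S.Val G → ∀ z, (L 0).Core G z = C.fa (Fa.core G) z) ∧
    ∀ n G, S.Val G → IsCore (L n) G ((L (n + 1)).Core G) := by
  choose st hst using fun n (L : Lev C n) => step L
  obtain ⟨L₀, h₀⟩ := lev0 C
  exact ⟨fun n => Nat.rec L₀ st n, h₀, fun n G h => hst n _ G h⟩

theorem NARec3_refl {Col : Type} (Om : ℕ → Col → Set ℂ) (Φ : ℕ → Col → ℂ → D.PP) (n : ℕ)
    (c : Col) : PSub Om Φ n c n c 1 := fun z hz => by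
  rw [one_smul, one_smul]
  exact ⟨hz, rfl⟩

theorem NARec3_trans {Col : Type} {Om : ℕ → Col → Set ℂ} {Φ : ℕ → Col → ℂ → D.PP} {n k l : ℕ}
    {c c' c'' : Col} {B B' : Mot} (h : PSub Om Φ n c k c' B) (h' : PSub Om Φ k c' l c'' B') :
    PSub Om Φ n c l c'' (B * B') := fun z hz => by
  obtain ⟨h1, h2⟩ := h' z hz
  obtain ⟨h3, h4⟩ := h _ h1
  rw [mul_smul, mul_smul]
  exact ⟨h3, by rw [h4, h2]⟩

theorem NARec3_rad {t : S.Ty} {y : ℂ} (h : y ∈ S.tile t) : ‖y - S.C t‖ ≤ 3 / 2 := by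
  have h1 := (tile_rad h).trans (S.rr_le t)
  rw [Complex.normSq_eq_norm_sq] at h1
  (refine le_of_not_gt fun h_nl => ?_; linarith only [h_nl, h1, norm_nonneg (y - S.C t), mul_pos_of_neg_of_neg (Mathlib.Tactic.Linarith.sub_neg_of_lt h_nl) (Mathlib.Tactic.Linarith.sub_neg_of_lt h_nl)])

theorem NARec3_diam {t : S.Ty} {x y : ℂ} (hx : x ∈ S.tile t) (hy : y ∈ S.tile t) :
    ‖x - y‖ ≤ 3 := by
  have h1 := NARec3_rad hx
  have h2 := NARec3_rad hy
  have h3 := norm_sub_le (x - S.C t) (y - S.C t)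
  rw [sub_sub_sub_cancel_right] at h3
  linarith only [h1, h2, h3]

theorem NARec3_dist (n : ℕ) (x y p : ℂ) : dist (mx n x p) (mx n y p) = mu n / 2 * ‖x - y‖ := by
  have e : mx n x p - mx n y p = ((mu n / 2 : ℝ) : ℂ) * (x - y) := by
    unfold mx
    push_cast
    ring
  rw [dist_eq_norm, e, norm_mul, Complex.norm_real, Real.norm_eq_abs,
    abs_of_pos (half_pos (mu_pos n))]

theorem NARec3_mx (n : ℕ) (x p : ℂ) : mx n x p = 5 ^ n * x - (x - p) / 2 := by
  unfold mx mu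
  push_cast
  ring

theorem NARec3_conv (n : ℕ) (t : S.Ty) : Convex ℝ (S.OmT n t) := by
  rintro _ ⟨x, hx, rfl⟩ _ ⟨y, hy, rfl⟩ a b ha hb hab
  refine ⟨a • x + b • y, S.gon.poly_convex t hx hy ha hb hab, ?_⟩
  have e : (b : ℂ) = 1 - a := by
    rw [← Complex.ofReal_one, ← hab]
    push_cast
    ring
  unfold mx
  simp only [Complex.real_smul, e]
  ring

theorem NARec3_cross (u v : ℂ) : -(‖u‖ * ‖v‖) ≤ cross u v := by
  have e : cross u v = ((starRingEnd ℂ) u * v).im := by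
    simp only [cross, Complex.mul_im, Complex.conj_re, Complex.conj_im]
    ring
  have h := Complex.abs_im_le_norm ((starRingEnd ℂ) u * v)
  rw [norm_mul, Complex.norm_conj] at h
  rw [e]
  exact neg_le_of_abs_le h

theorem NARec3_ball (k : ℕ) :
    Metric.closedBall (mx k (S.C S.tS) (S.C S.tS)) ((5 : ℝ) ^ k / 2) ⊆ S.OmT k S.tS := by
  intro z hz
  rw [Metric.mem_closedBall, dist_eq_norm] at hz
  have hμ := mu_pos k
  have hμ' : ((mu k : ℝ) : ℂ) ≠ 0 := Complex.ofReal_ne_zero.2 hμ.ne'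
  have hn : ‖((2 / mu k : ℝ) : ℂ) * (z - mx k (S.C S.tS) (S.C S.tS))‖ ≤ 1 := by
    rw [norm_mul, Complex.norm_real, Real.norm_eq_abs, abs_of_pos (by positivity),
      div_mul_eq_mul_div, div_le_one hμ]
    linarith only [hz, pow_le_mu k]
  refine ⟨S.C S.tS + ((2 / mu k : ℝ) : ℂ) * (z - mx k (S.C S.tS) (S.C S.tS)), fun c hc => ?_, ?_⟩
  · generalize ((2 / mu k : ℝ) : ℂ) * (z - mx k (S.C S.tS) (S.C S.tS)) = u at hn
    have hc' : S.cty c = S.tS := hc
    have h1 := S.tS_ball c hc'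
    have h2 := NARec3_cross (S.δ c) u
    have h3 : ‖S.δ c‖ * ‖u‖ ≤ ‖S.δ c‖ := mul_le_of_le_one_right (norm_nonneg _) hn
    have e : S.gon.cr c (S.C S.tS + u) = S.hx c + cross (S.δ c) u := by
      change cross (S.δ c) (S.C S.tS + u - S.V c) =
        cross (S.δ c) (S.C (S.cty c) - S.V c) + cross (S.δ c) u
      rw [hc']
      simp only [cross, Complex.add_re, Complex.add_im, Complex.sub_re, Complex.sub_im]
      ring
    rw [e]
    linarith
  · unfold mx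
    push_cast
    field_simp
    ring

theorem NARec3_sep {a : ℂ} (ha : ∀ n : ℕ, 0 < n → a ^ n ≠ 1) (M : ℕ) :
    ∃ s : ℝ, 0 < s ∧ ∀ l, 0 < l → l ≤ M → s ≤ ‖a ^ l - 1‖ := by
  induction M with
  | zero => exact ⟨1, one_pos, fun l h0 h1 => absurd h1 (by omega)⟩
  | succ M ih =>
    obtain ⟨s, hs, h⟩ := ih
    refine ⟨min s ‖a ^ (M + 1) - 1‖,
      lt_min hs (norm_pos_iff.2 (sub_ne_zero.2 (ha _ M.succ_pos))), fun l h0 h1 => ?_⟩
    rcases Nat.lt_or_ge l (M + 1) with h2 | h2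
    · exact (min_le_left _ _).trans (h l h0 (by omega))
    · rw [le_antisymm h1 h2]
      exact min_le_right _ _

theorem NARec3_rot {a b : ℂ} (ha : ‖a‖ = 1) (hb : ‖b‖ = 1) {i j : ℕ} (h : j ≤ i) :
    ‖b * a ^ i - b * a ^ j‖ = ‖a ^ (i - j) - 1‖ := by
  obtain ⟨l, rfl⟩ := Nat.exists_eq_add_of_le h
  have e : b * a ^ (j + l) - b * a ^ j = b * a ^ j * (a ^ l - 1) := by ring
  rw [e, norm_mul, norm_mul, norm_pow, ha, hb, Nat.add_sub_cancel_left]
  simp

/-- the supertiles by colours -/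
def NARec3_Om (S : Sub) (n : ℕ) (G : {G : S.TS // S.Val G}) : Set ℂ := S.OmT n (S.ty G.1.1)

/-- the patches by colours -/
def NARec3_Phi {C : CellSys S.poly D} (L : ∀ n, Lev C n) (n : ℕ) (G : {G : S.TS // S.Val G}) :
    ℂ → D.PP := (L n).Core G.1

theorem NARec3_step {C : CellSys S.poly D} {L : ∀ n, Lev C n}
    (hL : ∀ n G, S.Val G → IsCore (L n) G ((L (n + 1)).Core G)) (n : ℕ)
    (G : {G : S.TS // S.Val G}) {j : S.Ch} (hj : S.par j = S.ty G.1.1) :
    PSub (NARec3_Om S) (NARec3_Phi L) (n + 1) G n ⟨S.chd G.1 j, G.2.chd hj⟩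
      (S.Bm (5 ^ n) j) := fun z hz => by
  have hz' : z ∈ S.OmT n (S.ty j) := hz
  refine ⟨?_, (hL n G.1 G.2).T j hj z hz'⟩
  have h := Bm_OmT hz'
  rw [hj] at h
  exact h

theorem NARec3_D1 {C : CellSys S.poly D} {L : ∀ n, Lev C n}
    (hL : ∀ n G, S.Val G → IsCore (L n) G ((L (n + 1)).Core G)) (k d : ℕ) :
    ∀ (G : {G : S.TS // S.Val G}), ∀ x ∈ S.tile (S.ty G.1.1),
      ∃ (G' : {G : S.TS // S.Val G}) (B : Mot), ∃ x' ∈ S.tile (S.ty G'.1.1),
        PSub (NARec3_Om S) (NARec3_Phi L) (k + d) G k G' B ∧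
          B • ((5 : ℂ) ^ k * x') = 5 ^ (k + d) * x := by
  induction d with
  | zero => exact fun G x hx => ⟨G, 1, x, hx, NARec3_refl _ _ _ _, one_smul _ _⟩
  | succ d ih =>
    intro G x hx
    obtain ⟨j, hj, y, hy, e⟩ := plain_cover hx
    obtain ⟨G', B, x', hx', h1, h2⟩ := ih ⟨S.chd G.1 j, G.2.chd hj⟩ y hy
    refine ⟨G', S.Bm (5 ^ (k + d)) j * B, x', hx',
      NARec3_trans (NARec3_step hL (k + d) G hj) h1, ?_⟩
    rw [mul_smul, h2, ← add_assoc, pow_succ, mul_assoc, e, Mot.smul_def, Mot.smul_def]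
    unfold Bm
    rw [Mot.at'_a, Mot.at'_b]
    push_cast
    ring

theorem NARec3_down {C : CellSys S.poly D} {L : ∀ n, Lev C n}
    (hL : ∀ n G, S.Val G → IsCore (L n) G ((L (n + 1)).Core G)) {j : S.Ch}
    (hp : S.par j = S.tS) (ht : S.ty j = S.tS) (k r : ℕ) :
    ∀ (G : {G : S.TS // S.Val G}), S.ty G.1.1 = S.tS →
      ∃ (G' : {G : S.TS // S.Val G}) (B : Mot), S.ty G'.1.1 = S.tS ∧
        PSub (NARec3_Om S) (NARec3_Phi L) (k + r) G k G' B ∧ B.a = (S.mo j).a ^ r := by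
  induction r with
  | zero => exact fun G hG => ⟨G, 1, hG, NARec3_refl _ _ _ _, (pow_zero _).symm⟩
  | succ r ih =>
    intro G hG
    have hj : S.par j = S.ty G.1.1 := hp.trans hG.symm
    obtain ⟨G', B, h0, h1, h2⟩ := ih ⟨S.chd G.1 j, G.2.chd hj⟩ ht
    refine ⟨G', S.Bm (5 ^ (k + r)) j * B, h0, NARec3_trans (NARec3_step hL (k + r) G hj) h1, ?_⟩
    rw [Mot.mul_a, h2, pow_succ']
    rfl

theorem NARec3_reach {C : CellSys S.poly D} {L : ∀ n, Lev C n}
    (hL : ∀ n G, S.Val G → IsCore (L n) G ((L (n + 1)).Core G)) (k : ℕ)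
    (G : {G : S.TS // S.Val G}) : ∃ (G' : {G : S.TS // S.Val G}) (B : Mot), S.ty G'.1.1 = S.tS ∧
      PSub (NARec3_Om S) (NARec3_Phi L) (k + 3) G k G' B := by
  obtain ⟨i₁, i₂, i₃, h1, h2, h3, h4⟩ := S.reach (S.ty G.1.1)
  have k1 := NARec3_step hL (k + 2) G h1
  have k2 := NARec3_step hL (k + 1) ⟨S.chd G.1 i₁, G.2.chd h1⟩ h2
  have k3 := NARec3_step hL k ⟨S.chd (S.chd G.1 i₁) i₂, (G.2.chd h1).chd h2⟩ h3
  exact ⟨_, _, h4, NARec3_trans k1 (NARec3_trans k2 k3)⟩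

theorem NARec3_D2 {C : CellSys S.poly D} {L : ∀ n, Lev C n}
    (hL : ∀ n G, S.Val G → IsCore (L n) G ((L (n + 1)).Core G)) (N : ℕ) :
    ∃ (m : ℕ) (s : ℝ), 0 < s ∧ ∀ k c, ∃ (c' : {G : S.TS // S.Val G}) (B : Fin N → Mot) (z₀ : ℂ),
      (∀ i, PSub (NARec3_Om S) (NARec3_Phi L) (k + m) c k c' (B i)) ∧
      (∀ i j, i ≠ j → s ≤ ‖(B i).a - (B j).a‖) ∧
      Metric.closedBall z₀ ((5 : ℝ) ^ k / 2) ⊆ NARec3_Om S k c' := by
  classical
  have := Fintype.ofFinite {G : S.TS // S.Val G}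
  obtain ⟨M, hM⟩ : ∃ M, M = Fintype.card {G : S.TS // S.Val G} * N := ⟨_, rfl⟩
  obtain ⟨s, hs, hsep⟩ := NARec3_sep S.j1_a M
  refine ⟨M + 3, s, hs, fun k c => ?_⟩
  obtain ⟨G₀, B₀, h0, h1⟩ := NARec3_reach hL (k + M) c
  have key : ∀ i : Fin (M + 1), ∃ (G' : {G : S.TS // S.Val G}) (B : Mot), S.ty G'.1.1 = S.tS ∧
      PSub (NARec3_Om S) (NARec3_Phi L) (k + (M + 3)) c k G' B ∧
        B.a = B₀.a * (S.mo S.j1).a ^ i.val := by
    intro i
    obtain ⟨G₁, B₁, k0, k1, k2⟩ := NARec3_down hL S.j1_par S.j1_ty (k + (M - i.val)) i.val G₀ h0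
    obtain ⟨G₂, B₂, k3, k4, k5⟩ := NARec3_down hL S.j0_par S.j0_ty k (M - i.val) G₁ k0
    have e : k + (M - i.val) + i.val = k + M := by omega
    rw [e] at k1
    refine ⟨G₂, B₀ * (B₁ * B₂), k3, NARec3_trans h1 (NARec3_trans k1 k4), ?_⟩
    rw [Mot.mul_a, Mot.mul_a, k2, k5, S.j0_a, one_pow, mul_one]
  choose g B hg hB ha using key
  obtain ⟨c', hc'⟩ := Fintype.exists_lt_card_fiber_of_mul_lt_card (n := N) g
    (by rw [Fintype.card_fin, ← hM]; omega)
  obtain ⟨i₀, hi₀⟩ := Finset.card_pos.1 (lt_of_le_of_lt (Nat.zero_le _) hc')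
  have hmem : ∀ i, g (Finset.orderEmbOfCardLe _ hc'.le i) = c' := fun i =>
    (Finset.mem_filter.1 (Finset.orderEmbOfCardLe_mem _ hc'.le i)).2
  generalize Finset.orderEmbOfCardLe _ hc'.le = f at hmem
  refine ⟨c', fun i => B (f i), mx k (S.C S.tS) (S.C S.tS), fun i => hmem i ▸ hB (f i),
    fun i j hij => ?_, ?_⟩
  · have hne : (f i).val ≠ (f j).val := fun e => hij (f.injective (Fin.ext e))
    have hi := (f i).isLt
    have hj := (f j).isLt
    rw [ha, ha]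
    rcases Nat.lt_or_gt_of_ne hne with h | h
    · rw [norm_sub_rev, NARec3_rot (Mot.norm_a _) (Mot.norm_a _) h.le]
      exact hsep _ (by omega) (by omega)
    · rw [NARec3_rot (Mot.norm_a _) (Mot.norm_a _) h.le]
      exact hsep _ (by omega) (by omega)
  · have e : S.ty c'.1.1 = S.tS := (Finset.mem_filter.1 hi₀).2 ▸ hg i₀
    unfold NARec3_Om
    rw [e]
    exact NARec3_ball k

theorem patchSys (C : CellSys S.poly D) : Nonempty (PatchSys D) := by
  obtain ⟨L, h0, hL⟩ := levels C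
  refine ⟨⟨{G : S.TS // S.Val G}, ⟨⟨_, exists_val.choose_spec⟩⟩, NARec3_Om S, NARec3_Phi L, 5, C.r₀,
    by norm_num, C.r₀_pos, fun n c => NARec3_conv n _, fun n c => (L n).pC c.1 c.2,
    fun n c => ?_, fun n c => ?_, fun n c k hk => ?_, NARec3_D2 hL, fun c => ?_⟩⟩
  · obtain ⟨k, hk⟩ := S.co_surj (S.ty c.1.1)
    have h1 : S.V k ∈ S.tile (S.ty c.1.1) := hk ▸ S.gon.vt_mem k
    have h2 : S.V (S.nx k) ∈ S.tile (S.ty c.1.1) :=
      ((S.cty_nx k).trans hk) ▸ S.gon.vt_mem (S.nx k)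
    refine ⟨_, ⟨_, h2, rfl⟩, _, ⟨_, h1, rfl⟩, ?_⟩
    rw [NARec3_dist]
    have h3 := S.one_le k
    rw [Complex.normSq_eq_norm_sq] at h3
    have h4 : 1 ≤ ‖S.V (S.nx k) - S.V k‖ := by
      change 1 ≤ ‖S.δ k‖
      (refine le_of_not_gt fun h_nl => ?_; linarith only [h_nl, h3, norm_nonneg (S.δ k), mul_nonneg_of_nonpos_of_nonpos (le_of_lt (Mathlib.Tactic.Linarith.sub_neg_of_lt h_nl)) (Mathlib.Tactic.Linarith.sub_nonpos_of_le (norm_nonneg (S.δ k)))])
    linarith only [h4, pow_le_mu n, mu_pos n, mul_nonneg_of_nonpos_of_nonpos (Mathlib.Tactic.Linarith.sub_nonpos_of_le h4) (le_of_lt (Mathlib.Tactic.Linarith.sub_neg_of_lt (mu_pos n)))]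
  · rintro _ ⟨x, hx, rfl⟩ _ ⟨y, hy, rfl⟩
    rw [NARec3_dist]
    have h1 := NARec3_diam hx hy
    have h2 : (0 : ℝ) < 5 ^ n := by positivity
    have h3 : mu n / 2 ≤ 5 ^ n := by
      unfold mu
      linarith
    linarith only [h2, h3, h1, norm_nonneg (x - y), mu_pos n, mul_nonneg_of_nonpos_of_nonpos (Mathlib.Tactic.Linarith.sub_nonpos_of_le h1) (le_of_lt (Mathlib.Tactic.Linarith.sub_neg_of_lt (mu_pos n)))]
  · rintro _ ⟨x, hx, rfl⟩
    obtain ⟨d, rfl⟩ := Nat.exists_eq_add_of_le hk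
    obtain ⟨G', B, x', hx', h1, h2⟩ := NARec3_D1 hL k d c x hx
    refine ⟨G', B, h1, ?_⟩
    rintro _ ⟨y, hy, rfl⟩
    have k1 := dist_triangle (B • mx k y (S.C (S.ty G'.1.1))) (B • ((5 : ℂ) ^ k * x'))
      (mx (k + d) x (S.C (S.ty c.1.1)))
    have k2 : dist (B • ((5 : ℂ) ^ k * x')) (mx (k + d) x (S.C (S.ty c.1.1))) ≤ 3 / 4 := by
      rw [h2, NARec3_mx, dist_eq_norm, sub_sub_cancel, norm_div, Complex.norm_two]
      linarith only [hx, NARec3_rad hx]
    have k3 : dist (B • mx k y (S.C (S.ty G'.1.1))) (B • ((5 : ℂ) ^ k * x')) ≤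
        5 ^ k * 3 + 3 / 4 := by
      have e : mx k y (S.C (S.ty G'.1.1)) - (5 : ℂ) ^ k * x' =
          5 ^ k * (y - x') - (y - S.C (S.ty G'.1.1)) / 2 := by
        rw [NARec3_mx]
        ring
      rw [Mot.dist_smul', dist_eq_norm, e]
      refine (norm_sub_le _ _).trans (add_le_add ?_ ?_)
      · rw [norm_mul, norm_pow, Complex.norm_ofNat]
        exact mul_le_mul_of_nonneg_left (NARec3_diam hy hx') (by positivity)
      · rw [norm_div, Complex.norm_two]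
        linarith only [hy, NARec3_rad hy]
    have k4 : (1 : ℝ) ≤ 5 ^ k := one_le_pow₀ (by norm_num)
    linarith only [k1, k2, k3, k4]
  · obtain ⟨G, hG⟩ := c
    obtain ⟨k, hk⟩ := S.co_surj (S.ty G.1)
    obtain ⟨x, rfl⟩ : ∃ x : S.DS, S.ts x = G :=
      ⟨(S.dart G.1 k, G.2), Prod.ext (S.dch_dart _ _ hk) rfl⟩
    obtain ⟨w, hw, y, m, h1, h2⟩ := C.flat ⟨Cn0.core x, hG⟩
    have hw' : w ∈ S.poly.gon.poly (Fa.core (S.ts x)) := hw
    rw [poly_core hG] at hw'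
    exact ⟨w, hw', y, m, (h0 _ hG w).trans h1, h2⟩

end Sub

end Pool.Agent.Work.MP_0909b4_al.NA
end

-- merged part: Pool.Agent.Work.MP_0909b4_al.NACone1
section
/-! Euclidean cones over finite graphs: definitions and the link.

Plan. On a sector `InS a b x` one has `vec x = x a • u a + x b • u b` (for `a ≠ b`) or
`vec x = x a • u a` (for `a = b`). So `vec x = 0` only for `x = 0`, and the link (points with
`‖vec‖ = 1`) is a metric graph `AG` with coordinates `angle (u a) (vec y)`, by the sector lemmas of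
`NAPlane`.
-/

namespace Pool.Agent.Work.MP_0909b4_al.NA

open Real InnerProductGeometry

/-- plane sectors glued along rays -/
structure Cone where
  N : Type
  [fin : Fintype N]
  ne : Nonempty N
  u : N → ℂ
  u_ne : ∀ n, u n ≠ 0
  E : N → N → Prop
  E_symm : ∀ {a b}, E a b → E b a
  indep : ∀ {a b}, E a b → cross (u a) (u b) ≠ 0
  pot : ∀ {a b}, E a b → ∃ F : N → ℝ, F a + (2 * π - angle (u a) (u b)) ≤ F b ∧
    ∀ x y, E x y → ¬(x = a ∧ y = b) → ¬(x = b ∧ y = a) → F y ≤ F x + angle (u x) (u y)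

attribute [instance] Cone.fin

namespace Cone

variable (C : Cone)

/-- the coefficients vanish outside the sector or ray `a b` -/
def InS (a b : C.N) (x : C.N → ℝ) : Prop := (C.E a b ∨ a = b) ∧ ∀ n, n ≠ a → n ≠ b → x n = 0

/-- points of the cone -/
def CP : Type := {x : C.N → ℝ // (∀ n, 0 ≤ x n) ∧ ∃ a b, C.InS a b x}

noncomputable def vec (x : C.N → ℝ) : ℂ := ∑ n, x n • C.u n

inductive CChain : C.CP → C.CP → ℝ → Prop
  | nil (x : C.CP) : CChain x x 0
  | cons {a b : C.N} {x y z : C.CP} {r : ℝ} : C.InS a b x.1 → C.InS a b y.1 → CChain y z r →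
      CChain x z (dist (C.vec x.1) (C.vec y.1) + r)

/-- the length metric of the cone -/
noncomputable def dC (x y : C.CP) : ℝ := sInf {r | C.CChain x y r}

/-- the link -/
def LY : Type := {x : C.CP // ‖C.vec x.1‖ = 1}

/-- scaling -/
def sm (ρ : ℝ) (h : 0 ≤ ρ) (x : C.CP) : C.CP :=
  ⟨fun n => ρ * x.1 n, fun n => mul_nonneg h (x.2.1 n), by
    obtain ⟨a, b, hE, h0⟩ := x.2.2
    exact ⟨a, b, hE, fun n ha hb => by simp [h0 n ha hb]⟩⟩

theorem vec_sm (ρ : ℝ) (h : 0 ≤ ρ) (x : C.CP) : C.vec (C.sm ρ h x).1 = ρ • C.vec x.1 := by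
  unfold vec sm
  rw [Finset.smul_sum]
  exact Finset.sum_congr rfl fun n _ => mul_smul _ _ _

theorem vec_eq {a b : C.N} (hab : a ≠ b) {x : C.N → ℝ} (h : C.InS a b x) :
    C.vec x = x a • C.u a + x b • C.u b := by
  unfold vec
  refine Fintype.sum_eq_add a b hab fun c hc => ?_
  rw [h.2 c hc.1 hc.2, zero_smul]

theorem vec_eq_ray {a : C.N} {x : C.N → ℝ} (h : C.InS a a x) : C.vec x = x a • C.u a := by
  unfold vec
  refine Finset.sum_eq_single a (fun c _ hc => ?_) (fun h => absurd (Finset.mem_univ a) h)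
  rw [h.2 c hc hc, zero_smul]

theorem NACone1_E_ne {a b : C.N} (h : C.E a b) : a ≠ b := by
  rintro rfl
  apply C.indep h
  unfold cross
  ring

theorem NACone1_InS_symm {a b : C.N} {x : C.N → ℝ} (h : C.InS a b x) : C.InS b a x :=
  ⟨h.1.elim (fun e => Or.inl (C.E_symm e)) (fun e => Or.inr e.symm),
    fun n hb ha => h.2 n ha hb⟩

theorem vec_eq_zero (x : C.CP) (h : C.vec x.1 = 0) : x.1 = 0 := by
  obtain ⟨a, b, hS⟩ := x.2.2
  have key : x.1 a = 0 ∧ x.1 b = 0 := by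
    rcases hS.1 with hE | rfl
    · rw [C.vec_eq (C.NACone1_E_ne hE) hS] at h
      have hc := C.indep hE
      have hre := congrArg Complex.re h
      have him := congrArg Complex.im h
      simp only [Complex.add_re, Complex.add_im, Complex.smul_re, Complex.smul_im, smul_eq_mul,
        Complex.zero_re, Complex.zero_im] at hre him
      unfold cross at hc
      constructor
      · refine (mul_eq_zero.1 (?_ : x.1 a * _ = 0)).resolve_right hc
        linear_combination (C.u b).im * hre - (C.u b).re * him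
      · refine (mul_eq_zero.1 (?_ : x.1 b * _ = 0)).resolve_right hc
        linear_combination (C.u a).re * him - (C.u a).im * hre
    · rw [C.vec_eq_ray hS] at h
      have := (smul_eq_zero.1 h).resolve_right (C.u_ne a)
      exact ⟨this, this⟩
  funext n
  by_cases ha : n = a
  · rw [ha]; exact key.1
  by_cases hb : n = b
  · rw [hb]; exact key.2
  exact hS.2 n ha hb

open Classical in
/-- the vertex of the link on the ray `n` -/
noncomputable def ray (n : C.N) : C.LY :=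
  ⟨⟨fun m => if m = n then ‖C.u n‖⁻¹ else 0, by
    refine ⟨fun m => ?_, n, n, Or.inr rfl, fun m hm _ => if_neg hm⟩
    beta_reduce
    split_ifs
    · positivity
    · exact le_rfl⟩, by
    have hS : C.InS n n (fun m => if m = n then ‖C.u n‖⁻¹ else 0) :=
      ⟨Or.inr rfl, fun m hm _ => if_neg hm⟩
    change ‖C.vec (fun m => if m = n then ‖C.u n‖⁻¹ else 0)‖ = 1
    rw [C.vec_eq_ray hS, if_pos rfl, norm_smul, norm_inv, norm_norm]
    exact inv_mul_cancel₀ (norm_ne_zero_iff.2 (C.u_ne n))⟩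

theorem NACone1_ray_self (n : C.N) : (C.ray n).1.1 n = ‖C.u n‖⁻¹ := if_pos rfl

theorem NACone1_ray_ne {m n : C.N} (h : m ≠ n) : (C.ray n).1.1 m = 0 := if_neg h

theorem NACone1_ray_pos (n : C.N) : 0 < (C.ray n).1.1 n := by
  rw [C.NACone1_ray_self]
  exact inv_pos.2 (norm_pos_iff.2 (C.u_ne n))

theorem NACone1_ray_InS (n : C.N) : C.InS n n (C.ray n).1.1 :=
  ⟨Or.inr rfl, fun _ hm _ => C.NACone1_ray_ne hm⟩

theorem NACone1_vec_ne (y : C.LY) : C.vec y.1.1 ≠ 0 := by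
  intro h
  have := y.2
  rw [h, norm_zero] at this
  exact zero_ne_one this

theorem eq_ray {a : C.N} (y : C.LY) (h : C.InS a a y.1.1) : y = C.ray a := by
  refine Subtype.ext (Subtype.ext (funext fun m => ?_))
  by_cases hm : m = a
  · subst hm
    have h1 := y.2
    rw [C.vec_eq_ray h, norm_smul, Real.norm_of_nonneg (y.1.2.1 m)] at h1
    rw [C.NACone1_ray_self]
    exact eq_inv_of_mul_eq_one_left h1
  · rw [C.NACone1_ray_ne hm]
    exact h.2 m hm hm

theorem NACone1_angle_ray (a : C.N) : angle (C.u a) (C.vec (C.ray a).1.1) = 0 := by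
  rw [C.vec_eq_ray (C.NACone1_ray_InS a), angle_smul_right_of_pos _ _ (C.NACone1_ray_pos a)]
  exact angle_self (C.u_ne a)

theorem NACone1_InS_ray {a b : C.N} {x : C.N → ℝ} (h : C.InS a b x) (hb : x b = 0) :
    C.InS a a x := by
  refine ⟨Or.inr rfl, fun n hn _ => ?_⟩
  by_cases hnb : n = b
  · rw [hnb]; exact hb
  · exact h.2 n hn hnb

theorem NACone1_ne_zero {a b : C.N} {y : C.LY} (h : C.InS a b y.1.1)
    (h0 : 0 < angle (C.u a) (C.vec y.1.1)) : y.1.1 b ≠ 0 := by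
  intro hb
  rw [C.eq_ray y (C.NACone1_InS_ray h hb), C.NACone1_angle_ray] at h0
  exact lt_irrefl _ h0

theorem polar (x : C.CP) : ∃ (ρ : ℝ) (h : 0 ≤ ρ) (y : C.LY), x = C.sm ρ h y.1 := by
  by_cases h0 : C.vec x.1 = 0
  · obtain ⟨n⟩ := C.ne
    refine ⟨0, le_rfl, C.ray n, Subtype.ext ?_⟩
    rw [C.vec_eq_zero x h0]
    funext m
    simp [sm]
  · have hp : 0 < ‖C.vec x.1‖ := norm_pos_iff.2 h0
    refine ⟨‖C.vec x.1‖, hp.le, ⟨C.sm ‖C.vec x.1‖⁻¹ (inv_nonneg.2 hp.le) x, ?_⟩, Subtype.ext ?_⟩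
    · rw [C.vec_sm, norm_smul, norm_inv, norm_norm]
      exact inv_mul_cancel₀ hp.ne'
    · funext m
      change x.1 m = ‖C.vec x.1‖ * (‖C.vec x.1‖⁻¹ * x.1 m)
      rw [mul_inv_cancel_left₀ hp.ne']

/-- the link as a metric graph -/
noncomputable def ag : AG where
  Y := C.LY
  N := C.N
  fin := inferInstance
  ι := C.ray
  E := C.E
  θ a b := angle (C.u a) (C.u b)
  In a b y := C.E a b ∧ C.InS a b y.1.1
  c a _ y := angle (C.u a) (C.vec y.1.1)
  ι_inj := by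
    intro m n h
    by_contra hmn
    have h1 := C.NACone1_ray_pos m
    rw [h, C.NACone1_ray_ne hmn] at h1
    exact lt_irrefl _ h1
  E_symm := C.E_symm
  E_ne := fun h => C.NACone1_E_ne h
  θ_symm := fun a b => angle_comm _ _
  θ_pos := fun h => (angle_pos_lt (C.indep h)).1
  θ_lt := fun h => (angle_pos_lt (C.indep h)).2
  In_E := fun h => h.1
  In_symm := fun h => ⟨C.E_symm h.1, C.NACone1_InS_symm h.2⟩
  c_symm := by
    intro a b y h
    have hv := C.vec_eq (C.NACone1_E_ne h.1) h.2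
    have hne := C.NACone1_vec_ne y
    rw [hv] at hne
    have := angle_sector (C.indep h.1) (y.1.2.1 a) (y.1.2.1 b) hne
    rw [← hv] at this
    linarith
  c_nonneg := fun _ => angle_nonneg _ _
  In_ι := by
    intro a b n
    constructor
    · rintro ⟨hE, hS⟩
      refine ⟨hE, ?_⟩
      by_contra hn
      rw [not_or] at hn
      exact (C.NACone1_ray_pos n).ne' (hS.2 n hn.1 hn.2)
    · rintro ⟨hE, rfl | rfl⟩
      · exact ⟨hE, Or.inl hE, fun m hm _ => C.NACone1_ray_ne hm⟩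
      · exact ⟨hE, Or.inl hE, fun m _ hm => C.NACone1_ray_ne hm⟩
  c_ι := fun _ => C.NACone1_angle_ray _
  c_zero := by
    intro a b y h h0
    refine C.eq_ray y (C.NACone1_InS_ray h.2 ?_)
    by_contra hb
    have hv := C.vec_eq (C.NACone1_E_ne h.1) h.2
    have hne := C.NACone1_vec_ne y
    rw [hv] at hne h0
    exact hb (angle_sector_zero (C.indep h.1) (y.1.2.1 a) (y.1.2.1 b) hne h0)
  inner := by
    intro a b a' b' y h h' ha hb
    have hb0 := C.NACone1_ne_zero h.2 ha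
    have ha0 := C.NACone1_ne_zero (C.NACone1_InS_symm h.2) hb
    have hab := C.NACone1_E_ne h.1
    have h1 : a = a' ∨ a = b' := by
      by_contra hn
      rw [not_or] at hn
      exact ha0 (h'.2.2 a hn.1 hn.2)
    have h2 : b = a' ∨ b = b' := by
      by_contra hn
      rw [not_or] at hn
      exact hb0 (h'.2.2 b hn.1 hn.2)
    rcases h1 with h1 | h1 <;> rcases h2 with h2 | h2
    · exact absurd (h1.trans h2.symm) hab
    · exact Or.inl ⟨h1.symm, h2.symm⟩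
    · exact Or.inr ⟨h2.symm, h1.symm⟩
    · exact absurd (h1.trans h2.symm) hab
  cover := by
    intro y
    obtain ⟨a, b, hS⟩ := y.1.2.2
    rcases hS.1 with hE | rfl
    · exact Or.inl ⟨a, b, hE, hS⟩
    · exact Or.inr ⟨a, C.eq_ray y hS⟩
  surj := by
    classical
    intro a b s hE h0 h1
    obtain ⟨α, β, hα, hβ, hn, hs⟩ := angle_sector_surj (C.indep hE) h0 h1
    have hab := C.NACone1_E_ne hE
    let x : C.N → ℝ := fun n => if n = a then α else if n = b then β else 0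
    have hxa : x a = α := if_pos rfl
    have hxb : x b = β := (if_neg hab.symm).trans (if_pos rfl)
    have hS : C.InS a b x := ⟨Or.inl hE, fun n hna hnb => (if_neg hna).trans (if_neg hnb)⟩
    have hv : C.vec x = α • C.u a + β • C.u b := by rw [C.vec_eq hab hS, hxa, hxb]
    have hx0 : ∀ n, 0 ≤ x n := by
      intro n
      simp only [x]
      split_ifs
      · exact hα
      · exact hβ
      · exact le_rfl
    refine ⟨⟨⟨x, hx0, a, b, hS⟩, ?_⟩, ⟨hE, hS⟩, ?_⟩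
    · change ‖C.vec x‖ = 1
      rw [hv, hn]
    · change angle (C.u a) (C.vec x) = s
      rw [hv, hs]
  pot := C.pot

theorem angle_eq {a b : C.N} {y y' : C.LY} (h : C.ag.In a b y) (h' : C.ag.In a b y') :
    angle (C.vec y.1.1) (C.vec y'.1.1) = |C.ag.c a b y - C.ag.c a b y'| := by
  have hE : C.E a b := h.1
  have hv := C.vec_eq (C.NACone1_E_ne hE) h.2
  have hv' := C.vec_eq (C.NACone1_E_ne hE) h'.2
  have hne := C.NACone1_vec_ne y
  have hne' := C.NACone1_vec_ne y'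
  change _ = |angle (C.u a) (C.vec y.1.1) - angle (C.u a) (C.vec y'.1.1)|
  rw [hv] at hne ⊢
  rw [hv'] at hne' ⊢
  exact angle_sector₂ (C.indep hE) (y.1.2.1 a) (y.1.2.1 b) (y'.1.2.1 a) (y'.1.2.1 b) hne hne'

end Cone

end Pool.Agent.Work.MP_0909b4_al.NA
end

-- merged part: Pool.Agent.Work.MP_0909b4_al.NACone2
section
/-! The cone metric and the CN inequality in a cone.

Plan.
* `chain_ge`: induction on the chain, for all polar forms of the end points; in a step write the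
  middle point in polar form, use `dist_eq_DD`, `angle_eq` (or `eq_ray` on a ray), `DD_mono`,
  `DD_tri`; if one radius vanishes `DD` does not depend on the angle.
* `chain_of_AC`: induction on the angular chain with `DD_split`.
* `chain_DD`: if `ang < π` and both radii are positive use `attained`; else go through the apex
  `sm 0`.
* `cone_mid`: polar forms, `DD_mid`; for `φ = ang a b < π` split an attained chain at `s`, for
  `φ = π` take `m = a` or `m = b`; then `DD_cn` with `ang_split`.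
-/

namespace Pool.Agent.Work.MP_0909b4_al.NA

open Real InnerProductGeometry

namespace Cone

variable {C : Cone}

theorem CChain.nonneg {x y : C.CP} {r : ℝ} (h : C.CChain x y r) : 0 ≤ r := by
  induction h with
  | nil x => exact le_rfl
  | cons _ _ _ ih => exact add_nonneg dist_nonneg ih

theorem CChain.trans {x y z : C.CP} {r s : ℝ} (h : C.CChain x y r) (h' : C.CChain y z s) :
    C.CChain x z (r + s) := by
  induction h with
  | nil x => simpa using h'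
  | cons h1 h2 _ ih =>
    rw [add_assoc]
    exact CChain.cons h1 h2 (ih h')

theorem NACone2_norm {ρ : ℝ} (h0 : 0 ≤ ρ) (y : C.LY) : ‖C.vec (C.sm ρ h0 y.1).1‖ = ρ := by
  rw [vec_sm, norm_smul, y.2, mul_one, Real.norm_eq_abs, abs_of_nonneg h0]

theorem NACone2_InS {ρ : ℝ} (h0 : 0 ≤ ρ) {a b : C.N} {x : C.CP} (h : C.InS a b x.1) :
    C.InS a b (C.sm ρ h0 x).1 :=
  ⟨h.1, fun n ha hb => by
    change ρ * x.1 n = 0
    rw [h.2 n ha hb, mul_zero]⟩

theorem NACone2_InS' {ρ : ℝ} (h0 : 0 ≤ ρ) (hρ : ρ ≠ 0) {a b : C.N} {x : C.CP}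
    (h : C.InS a b (C.sm ρ h0 x).1) : C.InS a b x.1 :=
  ⟨h.1, fun n ha hb => by
    have := h.2 n ha hb
    change ρ * x.1 n = 0 at this
    exact (mul_eq_zero.1 this).resolve_left hρ⟩

theorem NACone2_dist {ρ ρ' : ℝ} (h0 : 0 ≤ ρ) (h0' : 0 ≤ ρ') (y y' : C.LY) :
    dist (C.vec (C.sm ρ h0 y.1).1) (C.vec (C.sm ρ' h0' y'.1).1) =
      DD ρ ρ' (angle (C.vec y.1.1) (C.vec y'.1.1)) := by
  rw [vec_sm, vec_sm]
  exact dist_eq_DD y.2 y'.2

theorem NACone2_zero_right {ρ : ℝ} (h : 0 ≤ ρ) (φ : ℝ) : DD ρ 0 φ = ρ := by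
  rw [DD_symm, DD_zero_left h]

theorem NACone2_ang_le {a b : C.N} {y y' : C.LY} (h : C.InS a b y.1.1) (h' : C.InS a b y'.1.1) :
    C.ag.ang y y' ≤ angle (C.vec y.1.1) (C.vec y'.1.1) := by
  rcases h.1 with hE | hab
  · have h1 : C.ag.In a b y := ⟨hE, h⟩
    have h2 : C.ag.In a b y' := ⟨hE, h'⟩
    rw [angle_eq C h1 h2]
    exact AG.ang_le_step h1 h2
  · subst hab
    have e : y' = y := (eq_ray C y' h').trans (eq_ray C y h).symm
    subst e
    rw [AG.ang_self]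
    exact angle_nonneg _ _

theorem NACone2_step {ρ ρ' : ℝ} (h0 : 0 ≤ ρ) (h0' : 0 ≤ ρ') {y y' : C.LY} {a b : C.N}
    (h : C.InS a b (C.sm ρ h0 y.1).1) (h' : C.InS a b (C.sm ρ' h0' y'.1).1) :
    DD ρ ρ' (C.ag.ang y y') ≤
      dist (C.vec (C.sm ρ h0 y.1).1) (C.vec (C.sm ρ' h0' y'.1).1) := by
  rw [NACone2_dist]
  by_cases hρ : ρ = 0
  · subst hρ
    rw [DD_zero_left h0', DD_zero_left h0']
  by_cases hρ' : ρ' = 0
  · subst hρ'
    rw [NACone2_zero_right h0, NACone2_zero_right h0]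
  exact DD_mono h0 h0' (AG.ang_nonneg _ _)
    (NACone2_ang_le (NACone2_InS' h0 hρ h) (NACone2_InS' h0' hρ' h')) (angle_le_pi _ _)

theorem chain_ge {x z : C.CP} {r : ℝ} (h : C.CChain x z r) {ρ ρ' : ℝ} (h0 : 0 ≤ ρ) (h0' : 0 ≤ ρ')
    {y y' : C.LY} (hx : x = C.sm ρ h0 y.1) (hz : z = C.sm ρ' h0' y'.1) :
    DD ρ ρ' (C.ag.ang y y') ≤ r := by
  induction h generalizing ρ y with
  | nil x =>
    obtain ⟨a, b, hab⟩ := x.2.2
    have := NACone2_step h0 h0' (hx ▸ hab) (hz ▸ hab)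
    rwa [← hx, ← hz, dist_self] at this
  | @cons a b x w z r h1 h2 _ ih =>
    obtain ⟨ρ₁, h01, y₁, hw⟩ := polar C w
    have i1 := ih h01 hw hz
    have i2 := NACone2_step h0 h01 (hx ▸ h1) (hw ▸ h2)
    rw [← hx, ← hw] at i2
    have i3 := DD_tri h0 h01 h0' (AG.ang_nonneg (A := C.ag) y y') (AG.ang_le_pi _ _)
      (AG.ang_nonneg (A := C.ag) y y₁) (AG.ang_le_pi _ _) (AG.ang_nonneg (A := C.ag) y₁ y')
      (AG.ang_le_pi _ _) (AG.ang_triangle (A := C.ag) y y₁ y')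
    linarith

theorem NACone2_ray {ρ ρ' : ℝ} (h0 : 0 ≤ ρ) (h0' : 0 ≤ ρ') (y : C.LY) :
    C.CChain (C.sm ρ h0 y.1) (C.sm ρ' h0' y.1) (DD ρ ρ' 0) := by
  obtain ⟨a, b, hab⟩ := y.1.2.2
  have := CChain.cons (NACone2_InS h0 hab) (NACone2_InS h0' hab) (CChain.nil _)
  have hv : C.vec y.1.1 ≠ 0 := by
    intro h
    have := y.2
    rw [h, norm_zero] at this
    exact zero_ne_one this
  rwa [NACone2_dist, angle_self hv, add_zero] at this

theorem NACone2_of_AC {y y' : C.ag.Y} {φ : ℝ} (h : C.ag.AC y y' φ) (hφ : φ < π) {ρ ρ' : ℝ}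
    (h0 : 0 < ρ) (h0' : 0 < ρ') :
    C.CChain (C.sm ρ h0.le (show C.LY from y).1) (C.sm ρ' h0'.le (show C.LY from y').1)
      (DD ρ ρ' φ) := by
  induction h generalizing ρ with
  | nil y => exact NACone2_ray h0.le h0'.le y
  | @cons a b x w z r h1 h2 h3 ih =>
    have hr := h3.nonneg
    have ha := abs_nonneg (C.ag.c a b x - C.ag.c a b w)
    obtain ⟨ρ₁, h01, e⟩ := DD_split h0 h0' ha hr hφ
    have i1 := ih (by linarith) h01
    have i2 := CChain.cons (NACone2_InS h0.le h1.2) (NACone2_InS h01.le h2.2) i1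
    have i3 := NACone2_dist h0.le h01.le (show C.LY from x) (show C.LY from w)
    rw [angle_eq C h1 h2] at i3
    rw [← e, ← i3]
    exact i2

theorem chain_of_AC {y y' : C.LY} {φ : ℝ} (h : C.ag.AC y y' φ) (hφ : φ < π) {ρ ρ' : ℝ}
    (h0 : 0 < ρ) (h0' : 0 < ρ') :
    C.CChain (C.sm ρ h0.le y.1) (C.sm ρ' h0'.le y'.1) (DD ρ ρ' φ) := by
  exact NACone2_of_AC h hφ h0 h0'

theorem NACone2_apex {ρ ρ' : ℝ} (h0 : 0 ≤ ρ) (h0' : 0 ≤ ρ') (y y' : C.LY) :
    C.CChain (C.sm ρ h0 y.1) (C.sm ρ' h0' y'.1) (ρ + ρ') := by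
  have i1 := NACone2_ray h0 le_rfl y
  have i2 := NACone2_ray le_rfl h0' y'
  have e : C.sm 0 le_rfl y.1 = C.sm 0 le_rfl y'.1 := by
    apply Subtype.ext
    funext n
    change 0 * _ = 0 * _
    rw [zero_mul, zero_mul]
  rw [NACone2_zero_right h0, e] at i1
  rw [DD_zero_left h0'] at i2
  exact i1.trans i2

theorem chain_DD {ρ ρ' : ℝ} (h0 : 0 ≤ ρ) (h0' : 0 ≤ ρ') (y y' : C.LY) :
    C.CChain (C.sm ρ h0 y.1) (C.sm ρ' h0' y'.1) (DD ρ ρ' (C.ag.ang y y')) := by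
  have i := NACone2_apex h0 h0' y y'
  rcases h0.eq_or_lt with hρ | hρ
  · subst hρ
    rw [DD_zero_left h0']
    rwa [zero_add] at i
  rcases h0'.eq_or_lt with hρ' | hρ'
  · subst hρ'
    rw [NACone2_zero_right h0]
    rwa [add_zero] at i
  rcases (AG.ang_le_pi (A := C.ag) y y').eq_or_lt with hπ | hπ
  · rw [hπ, DD_pi h0 h0']
    exact i
  · exact chain_of_AC (AG.attained hπ) hπ hρ hρ'

theorem dC_eq {ρ ρ' : ℝ} (h0 : 0 ≤ ρ) (h0' : 0 ≤ ρ') (y y' : C.LY) :
    C.dC (C.sm ρ h0 y.1) (C.sm ρ' h0' y'.1) = DD ρ ρ' (C.ag.ang y y') := by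
  apply IsLeast.csInf_eq
  exact ⟨chain_DD h0 h0' y y', fun r hr => chain_ge hr h0 h0' rfl rfl⟩

theorem chain_dC (x y : C.CP) : C.CChain x y (C.dC x y) := by
  obtain ⟨ρ, h0, a, rfl⟩ := polar C x
  obtain ⟨ρ', h0', b, rfl⟩ := polar C y
  rw [dC_eq]
  exact chain_DD h0 h0' a b

theorem CChain.dC_le {x y : C.CP} {r : ℝ} (h : C.CChain x y r) : C.dC x y ≤ r := by
  obtain ⟨ρ, h0, a, rfl⟩ := polar C x
  obtain ⟨ρ', h0', b, rfl⟩ := polar C y
  rw [dC_eq]
  exact chain_ge h h0 h0' rfl rfl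

theorem NACone2_pt {A : AG} (a b : A.Y) {s : ℝ} (hs0 : 0 ≤ s) (hs : s ≤ A.ang a b)
    (hπ : A.ang a b = π → s = 0 ∨ s = π) :
    ∃ m, A.ang a m = s ∧ A.ang b m = A.ang a b - s ∧ ∀ p,
      2 * π ≤ A.ang p a + A.ang p b + A.ang a b ∨ A.ang p m + s ≤ A.ang p a ∨
        A.ang p m + (A.ang a b - s) ≤ A.ang p b := by
  rcases (AG.ang_le_pi a b).eq_or_lt with h | h
  · rcases hπ h with rfl | rfl
    · exact ⟨a, AG.ang_self a, by rw [AG.ang_symm, sub_zero], fun p => Or.inr (Or.inl (by simp))⟩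
    · exact ⟨b, h, by rw [AG.ang_self, h, sub_self], fun p => Or.inr (Or.inr (by simp [h]))⟩
  · obtain ⟨m, h1, h2⟩ := (AG.attained h).split hs0 hs
    have i1 := h1.ang_le
    have i2 := h2.ang_le
    have i3 := AG.ang_triangle a m b
    have i4 := AG.ang_symm b m
    have e1 : A.ang a m = s := by linarith
    have e2 : A.ang b m = A.ang a b - s := by linarith
    refine ⟨m, e1, e2, fun p => ?_⟩
    by_cases hp : 2 * π ≤ A.ang p a + A.ang p b + A.ang a b
    · exact Or.inl hp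
    · have := AG.ang_split p a b m (by linarith only [i1, i2, i4, i3]) h (not_le.1 hp)
      rw [e1, e2] at this
      exact Or.inr this

theorem cone_mid (a b : C.CP) : ∃ m, C.dC a m = C.dC a b / 2 ∧ C.dC b m = C.dC a b / 2 ∧
    ∀ p, C.dC p m ^ 2 ≤ (C.dC p a ^ 2 + C.dC p b ^ 2) / 2 - C.dC a b ^ 2 / 4 := by
  obtain ⟨ρ, h0, ya, rfl⟩ := polar C a
  obtain ⟨ρ', h0', yb, rfl⟩ := polar C b
  obtain ⟨ρm, s, hm0, hs0, hs, hπ, hm⟩ :=
    DD_mid h0 h0' (AG.ang_nonneg (A := C.ag) ya yb) (AG.ang_le_pi _ _)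
  obtain ⟨ym, e1, e2, h3⟩ := NACone2_pt (A := C.ag) ya yb hs0 hs hπ
  refine ⟨C.sm ρm hm0 (show C.LY from ym).1, ?_, ?_, fun p => ?_⟩
  · rw [dC_eq, dC_eq, e1]
    exact hm.left
  · rw [dC_eq, dC_eq, e2]
    exact hm.right
  · obtain ⟨ρp, hp0, yp, rfl⟩ := polar C p
    rw [dC_eq, dC_eq, dC_eq, dC_eq]
    have t1 := AG.ang_triangle (A := C.ag) yp ya ym
    have t2 := AG.ang_triangle (A := C.ag) ya yp ym
    have t3 := AG.ang_triangle (A := C.ag) yp yb ym
    have t4 := AG.ang_triangle (A := C.ag) yb yp ym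
    have s1 := AG.ang_symm (A := C.ag) ya yp
    have s2 := AG.ang_symm (A := C.ag) yb yp
    exact DD_cn hm h0 h0' hm0 hp0 hs0 hs (AG.ang_le_pi _ _) (AG.ang_nonneg _ _) (AG.ang_le_pi _ _)
      (AG.ang_nonneg _ _) (AG.ang_le_pi _ _) (AG.ang_nonneg _ _) (AG.ang_le_pi _ _)
      (abs_le.2 ⟨by linarith, by linarith⟩) (abs_le.2 ⟨by linarith, by linarith⟩) (h3 yp)

end Cone

end Pool.Agent.Work.MP_0909b4_al.NA
end

-- merged part: Pool.Agent.Work.MP_0909b4_al.NALocal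
section
/-! The complex is locally a cone, hence CAT(0).

Plan. Let `Λ` be as in `co_lip`, `exists_lip`.
* `toC v x`: if `0 < x.co v` the support of `x` is a simplex with at most two other vertices, which
  span a sector or a ray of the cone at `v` (`nbr` if there is none); `vec = dev x - pos v`.
* `cone_lip`: two points of a common sector can be scaled down to points of a common simplex
  (`exists_ofC`), so `∑ n, x n` changes by at most `Λ * dist (vec x) (vec y)` in a step of a cone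
  chain (the function is homogeneous), hence along chains.
* `local_cone`: let `1/4 ≤ x.co v`, `r = 1 / (8 Λ)` or smaller. A chain of length `< r` from `x` stays
  in `0 < co v`, so it maps to a cone chain of the same length. A cone chain of length `< r` from
  `toC v x` stays in `∑ < 1`, so it comes from a chain.
* `locCN`: take `r / 10` or smaller, `v` with `1/3 ≤ x.co v`; all points within `r / 5` of `x` have
  `1/4 ≤ co v`; transport `cone_mid`.
-/

namespace Pool.Agent.Work.MP_0909b4_al.NA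

namespace DevCx

variable (X : DevCx)

theorem NALocal_ne {v w : X.V} (h : w ≠ v) (h' : Adj2 X.faces v w) : X.pos w - X.pos v ≠ 0 := by
  obtain ⟨σ, hσ, hv, hw⟩ := h'
  intro h0
  exact h (congrArg Subtype.val ((X.indep σ hσ).injective (a₁ := ⟨w, hw⟩) (a₂ := ⟨v, hv⟩)
    (sub_eq_zero.1 h0)))

theorem NALocal_cross {v a b : X.V} (h : Tri3 X.faces v a b) :
    cross (X.pos a - X.pos v) (X.pos b - X.pos v) ≠ 0 := by
  obtain ⟨⟨σ, hσ, hv, ha, hb⟩, hva, hvb, hab⟩ := h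
  have h1 := (affineIndependent_iff_linearIndependent_vsub ℝ _ (⟨v, hv⟩ : σ)).1 (X.indep σ hσ)
  have h2 : LinearIndependent ℝ ![X.pos a - X.pos v, X.pos b - X.pos v] := by
    have h3 := h1.comp ![⟨⟨a, ha⟩, fun e => hva (congrArg Subtype.val e).symm⟩,
      ⟨⟨b, hb⟩, fun e => hvb (congrArg Subtype.val e).symm⟩] (by
        intro i j hij
        fin_cases i <;> fin_cases j
        · rfl
        · exact absurd (congrArg (fun z => z.1.1) hij) hab
        · exact absurd (congrArg (fun z => z.1.1) hij) hab.symm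
        · rfl)
    refine (congrArg (fun f : Fin 2 → ℂ => LinearIndependent ℝ f) (funext fun i => ?_)).mp h3
    fin_cases i <;> rfl
  rw [LinearIndependent.pair_iff] at h2
  generalize X.pos a - X.pos v = u at h2
  generalize X.pos b - X.pos v = w at h2
  intro h0
  unfold cross at h0
  have e1 := h2 w.re (-u.re) (Complex.ext (by simp; ring) (by simp; linarith))
  have e2 := h2 w.im (-u.im) (Complex.ext (by simp; linarith) (by simp; ring))
  have e3 := h2 1 0 (Complex.ext (by simpa using e1.2) (by simpa using e2.2))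
  exact one_ne_zero e3.1

/-- the cone at the vertex `v` -/
noncomputable def cone (v : X.V) : Cone where
  N := {w // w ≠ v ∧ Adj2 X.faces v w}
  fin := @Fintype.ofFinite _ (by
    exact ((X.locfin v).subset fun _ h => h.2).to_subtype)
  ne := by
    obtain ⟨w, hw⟩ := X.nbr v
    exact ⟨⟨w, hw⟩⟩
  u w := X.pos w.1 - X.pos v
  u_ne := by exact fun w => X.NALocal_ne w.2.1 w.2.2
  E a b := Tri3 X.faces v a.1 b.1
  E_symm := by
    rintro a b ⟨⟨σ, hσ, hv, ha, hb⟩, h1, h2, h3⟩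
    exact ⟨⟨σ, hσ, hv, hb, ha⟩, h2, h1, h3.symm⟩
  indep := by exact fun h => X.NALocal_cross h
  pot := by
    intro a b h
    obtain ⟨F, h1, h2⟩ := X.link v a.1 b.1 h
    exact ⟨fun n => F n.1, h1, fun x y hxy h3 h4 => h2 x.1 y.1 hxy
      (fun e => h3 ⟨Subtype.ext e.1, Subtype.ext e.2⟩)
      fun e => h4 ⟨Subtype.ext e.1, Subtype.ext e.2⟩⟩

/-- `c` is the point of the cone at `v` with the coordinates of `x` -/
def ToC (v : X.V) (x : X.P) (c : (X.cone v).CP) : Prop :=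
  0 < x.co v ∧ ∀ n : (X.cone v).N, c.1 n = x.co n.1

variable {X}

theorem NALocal_sector {v : X.V} {σ : Finset X.V} (hσ : σ ∈ X.faces) (hv : v ∈ σ) :
    ∃ a b : (X.cone v).N, ((X.cone v).E a b ∨ a = b) ∧
      ∀ n : (X.cone v).N, n.1 ∈ σ → n = a ∨ n = b := by
  classical
  have hc : (σ.erase v).card ≤ 2 := by
    have := X.dim σ hσ
    rw [Finset.card_erase_of_mem hv]
    omega
  have hm : ∀ n : (X.cone v).N, n.1 ∈ σ → n.1 ∈ σ.erase v := fun n hn =>
    Finset.mem_erase.2 ⟨n.2.1, hn⟩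
  have hadj : ∀ w ∈ σ.erase v, w ≠ v ∧ Adj2 X.faces v w := fun w hw =>
    ⟨(Finset.mem_erase.1 hw).1, σ, hσ, hv, (Finset.mem_erase.1 hw).2⟩
  obtain h | h | h : (σ.erase v).card = 0 ∨ (σ.erase v).card = 1 ∨ (σ.erase v).card = 2 := by
    omega
  · obtain ⟨a⟩ := (X.cone v).ne
    refine ⟨a, a, Or.inr rfl, fun n hn => ?_⟩
    have := hm n hn
    rw [Finset.card_eq_zero.1 h] at this
    exact absurd this (Finset.notMem_empty _)
  · obtain ⟨a, ha⟩ := Finset.card_eq_one.1 h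
    refine ⟨⟨a, hadj a (ha ▸ Finset.mem_singleton_self a)⟩, _, Or.inr rfl, fun n hn => ?_⟩
    have := hm n hn
    rw [ha, Finset.mem_singleton] at this
    exact Or.inl (Subtype.ext this)
  · obtain ⟨a, b, hab, he⟩ := Finset.card_eq_two.1 h
    have ha : a ∈ σ.erase v := he ▸ Finset.mem_insert_self a {b}
    have hb : b ∈ σ.erase v := he ▸ Finset.mem_insert_of_mem (Finset.mem_singleton_self b)
    refine ⟨⟨a, hadj a ha⟩, ⟨b, hadj b hb⟩, Or.inl ⟨⟨σ, hσ, hv, Finset.mem_of_mem_erase ha,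
      Finset.mem_of_mem_erase hb⟩, (hadj a ha).1.symm, (hadj b hb).1.symm, hab⟩, fun n hn => ?_⟩
    have := hm n hn
    rw [he, Finset.mem_insert, Finset.mem_singleton] at this
    exact this.imp (fun e => Subtype.ext e) fun e => Subtype.ext e

theorem NALocal_face {v : X.V} {a b : (X.cone v).N} (h : (X.cone v).E a b ∨ a = b) :
    ∃ σ ∈ X.faces, v ∈ σ ∧ a.1 ∈ σ ∧ b.1 ∈ σ := by
  rcases h with h | rfl
  · exact h.1
  · obtain ⟨σ, hσ, hv, ha⟩ := a.2.2
    exact ⟨σ, hσ, hv, ha, ha⟩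

theorem NALocal_sum {M : Type} [AddCommMonoid M] {v : X.V} {σ : Finset X.V} (hσ : σ ∈ X.faces)
    (hv : v ∈ σ) (g : X.V → M) (hg : ∀ w ∉ σ, g w = 0) :
    g v + ∑ n : (X.cone v).N, g n.1 = ∑ w ∈ σ, g w := by
  classical
  have h1 : ∑ w ∈ (X.locfin v).toFinset.erase v, g w = ∑ n : (X.cone v).N, g n.1 :=
    Finset.sum_subtype (p := fun w => w ≠ v ∧ Adj2 X.faces v w) _ (fun w => by simp) g
  rw [← h1, ← Finset.add_sum_erase σ g hv]
  congr 1
  refine (Finset.sum_subset (fun w hw => ?_) fun w hw hw' => hg w fun h => hw' ?_).symm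
  · rw [Finset.mem_erase] at hw ⊢
    exact ⟨hw.1, (Set.Finite.mem_toFinset _).2 ⟨σ, hσ, hv, hw.2⟩⟩
  · exact Finset.mem_erase.2 ⟨(Finset.mem_erase.1 hw).1, h⟩

theorem NALocal_mem {v : X.V} {x : X.P} (h : 0 < x.co v) : v ∈ x.co.support :=
  Finsupp.mem_support_iff.2 h.ne'

theorem NALocal_inS {v : X.V} {σ : Finset X.V} {a b : (X.cone v).N}
    (hab : (X.cone v).E a b ∨ a = b) (h : ∀ n : (X.cone v).N, n.1 ∈ σ → n = a ∨ n = b) {x : X.P}
    (hx : x.co.support ⊆ σ) : (X.cone v).InS a b fun n => x.co n.1 := by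
  refine ⟨hab, fun n ha hb => ?_⟩
  by_contra h0
  exact (h n (hx (Finsupp.mem_support_iff.2 h0))).elim ha hb

theorem exists_toC {v : X.V} {x : X.P} (h : 0 < x.co v) : ∃ c, X.ToC v x c := by
  obtain ⟨a, b, hab, hn⟩ := NALocal_sector x.mem (NALocal_mem h)
  exact ⟨⟨fun n => x.co n.1, fun n => x.nonneg _, a, b, NALocal_inS hab hn subset_rfl⟩, h,
    fun _ => rfl⟩

theorem ToC.sum {v : X.V} {x : X.P} {c : (X.cone v).CP} (h : X.ToC v x c) :
    ∑ n, c.1 n = 1 - x.co v := by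
  have h1 := NALocal_sum x.mem (NALocal_mem h.1) x.co fun w hw => Finsupp.notMem_support_iff.1 hw
  rw [Finset.sum_congr rfl fun n _ => h.2 n, eq_sub_iff_add_eq', h1]
  exact x.sum_one

theorem ToC.vec {v : X.V} {x : X.P} {c : (X.cone v).CP} (h : X.ToC v x c) :
    (X.cone v).vec c.1 = X.dev x - X.pos v := by
  have h1 := NALocal_sum x.mem (NALocal_mem h.1) (fun w => x.co w • (X.pos w - X.pos v))
    fun w hw => smul_eq_zero_of_left (Finsupp.notMem_support_iff.1 hw) _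
  simp only [sub_self, smul_zero, zero_add] at h1
  have h2 : (X.cone v).vec c.1 = ∑ n : (X.cone v).N, x.co n.1 • (X.pos n.1 - X.pos v) :=
    Finset.sum_congr rfl fun n _ => by rw [h.2 n]; rfl
  have h3 : ∑ w ∈ x.co.support, x.co w • (X.pos w - X.pos v) =
      X.dev x - (∑ w ∈ x.co.support, x.co w) • X.pos v := by
    simp only [smul_sub, Finset.sum_sub_distrib, Finset.sum_smul]
    rfl
  rw [x.sum_one, one_smul] at h3
  exact h2.trans (h1.trans h3)

theorem exists_ofC {v : X.V} (c : (X.cone v).CP) (h : ∑ n, c.1 n < 1) : ∃ x, X.ToC v x c := by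
  classical
  obtain ⟨a, b, hab, h0⟩ := c.2.2
  obtain ⟨σ, hσ, hv, ha, hb⟩ := NALocal_face hab
  let w : X.V → ℝ := fun z => if hz : z ≠ v ∧ Adj2 X.faces v z then c.1 ⟨z, hz⟩ else
    if z = v then 1 - ∑ n, c.1 n else 0
  have hwn : ∀ n : (X.cone v).N, w n.1 = c.1 n := fun n => dif_pos n.2
  have hwv : w v = 1 - ∑ n, c.1 n := (dif_neg fun hz => hz.1 rfl).trans (if_pos rfl)
  have hs : ∀ z, z ∉ σ → w z = 0 := by
    intro z hz
    by_cases h1 : z ≠ v ∧ Adj2 X.faces v z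
    · exact (hwn ⟨z, h1⟩).trans (h0 _ (fun e => hz (by rw [← e] at ha; exact ha))
        fun e => hz (by rw [← e] at hb; exact hb))
    · exact (dif_neg h1).trans (if_neg fun e => hz (by rw [e]; exact hv))
  obtain ⟨x, hx, -, -⟩ := exists_pt hσ w (fun z => by
    by_cases h1 : z ≠ v ∧ Adj2 X.faces v z
    · exact (c.2.1 _).trans_eq (hwn ⟨z, h1⟩).symm
    · by_cases h2 : z = v
      · rw [h2, hwv]
        exact (sub_pos.2 h).le
      · exact (show w z = 0 from (dif_neg h1).trans (if_neg h2)).ge) hs (by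
    rw [← NALocal_sum hσ hv w hs, hwv, Finset.sum_congr rfl fun n _ => hwn n, sub_add_cancel])
  exact ⟨x, by rw [hx, hwv]; exact sub_pos.2 h, fun n => by rw [hx, hwn]⟩

theorem ToC.common {v : X.V} {x y : X.P} {c d : (X.cone v).CP} (h : X.ToC v x c)
    (h' : X.ToC v y d) : (∃ σ ∈ X.faces, x.co.support ⊆ σ ∧ y.co.support ⊆ σ) ↔
      ∃ a b, (X.cone v).InS a b c.1 ∧ (X.cone v).InS a b d.1 := by
  constructor
  · rintro ⟨σ, hσ, hx, hy⟩
    obtain ⟨a, b, hab, hn⟩ := NALocal_sector hσ (hx (NALocal_mem h.1))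
    refine ⟨a, b, ?_, ?_⟩
    · rw [show c.1 = fun n => x.co n.1 from funext h.2]
      exact NALocal_inS hab hn hx
    · rw [show d.1 = fun n => y.co n.1 from funext h'.2]
      exact NALocal_inS hab hn hy
  · rintro ⟨a, b, hc, hd⟩
    obtain ⟨σ, hσ, hv, ha, hb⟩ := NALocal_face hc.1
    have key : ∀ {z : X.P} {e : (X.cone v).CP}, X.ToC v z e → (X.cone v).InS a b e.1 →
        z.co.support ⊆ σ := by
      intro z e hz he w hw
      by_cases hwv : w = v
      · exact hwv ▸ hv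
      · by_contra hwσ
        have h1 := he.2 ⟨w, hwv, _, z.mem, NALocal_mem hz.1, hw⟩
          (fun e => hwσ (by rw [← e] at ha; exact ha)) fun e => hwσ (by rw [← e] at hb; exact hb)
        exact Finsupp.mem_support_iff.1 hw ((hz.2 _).symm.trans h1)
    exact ⟨σ, hσ, key h hc, key h' hd⟩

theorem NALocal_dist {v : X.V} {x y : X.P} {c d : (X.cone v).CP} (h : X.ToC v x c)
    (h' : X.ToC v y d) :
    dist ((X.cone v).vec c.1) ((X.cone v).vec d.1) = dist (X.dev x) (X.dev y) := by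
  rw [h.vec, h'.vec, dist_sub_right]

theorem NALocal_uniq {v : X.V} {x y : X.P} {c : (X.cone v).CP} (h : X.ToC v x c)
    (h' : X.ToC v y c) : x = y := by
  refine pt_ext fun w => ?_
  by_cases hw : w = v
  · have e1 := h.sum
    have e2 := h'.sum
    rw [hw]
    linarith only [e1, e2]
  · by_cases ha : Adj2 X.faces v w
    · exact (h.2 ⟨w, hw, ha⟩).symm.trans (h'.2 ⟨w, hw, ha⟩)
    · have key : ∀ z : X.P, 0 < z.co v → z.co w = 0 := fun z hz => by
        by_contra h0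
        exact ha ⟨_, z.mem, NALocal_mem hz, Finsupp.mem_support_iff.2 h0⟩
      rw [key x h.1, key y h'.1]

theorem cone_lip (X : DevCx) : ∃ Λ : ℝ, 0 < Λ ∧ ∀ (v : X.V) (c d : (X.cone v).CP) (r : ℝ),
    (X.cone v).CChain c d r → |∑ n, c.1 n - ∑ n, d.1 n| ≤ Λ * r := by
  obtain ⟨Λ, hΛ, hl⟩ := X.exists_lip
  have step : ∀ (v : X.V) (c d : (X.cone v).CP) (a b : (X.cone v).N), (X.cone v).InS a b c.1 →
      (X.cone v).InS a b d.1 →
      |∑ n, c.1 n - ∑ n, d.1 n| ≤ Λ * dist ((X.cone v).vec c.1) ((X.cone v).vec d.1) := by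
    intro v c d a b hc hd
    have hc0 : 0 ≤ ∑ n, c.1 n := Finset.sum_nonneg fun n _ => c.2.1 n
    have hd0 : 0 ≤ ∑ n, d.1 n := Finset.sum_nonneg fun n _ => d.2.1 n
    have hS : 0 < 1 + ∑ n, c.1 n + ∑ n, d.1 n := by positivity
    obtain ⟨ρ, hρ, hρ1⟩ : ∃ ρ : ℝ, 0 < ρ ∧ ρ * (1 + ∑ n, c.1 n + ∑ n, d.1 n) = 1 :=
      ⟨_, inv_pos.2 hS, inv_mul_cancel₀ hS.ne'⟩
    have hs : ∀ e : (X.cone v).CP, ∑ n, ((X.cone v).sm ρ hρ.le e).1 n = ρ * ∑ n, e.1 n :=
      fun e => (Finset.mul_sum _ _ _).symm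
    have hi : ∀ e : (X.cone v).CP, (X.cone v).InS a b e.1 →
        (X.cone v).InS a b ((X.cone v).sm ρ hρ.le e).1 := fun e he =>
      ⟨he.1, fun n h1 h2 => by
        change ρ * e.1 n = 0
        rw [he.2 n h1 h2, mul_zero]⟩
    obtain ⟨x, hx⟩ := exists_ofC ((X.cone v).sm ρ hρ.le c) (by rw [hs]; linarith only [hρ, hρ1, hd0, mul_nonneg_of_nonpos_of_nonpos (Mathlib.Tactic.Linarith.sub_nonpos_of_le hd0) (le_of_lt (Mathlib.Tactic.Linarith.sub_neg_of_lt hρ))])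
    obtain ⟨y, hy⟩ := exists_ofC ((X.cone v).sm ρ hρ.le d) (by rw [hs]; linarith only [hρ, hρ1, hc0, mul_nonneg_of_nonpos_of_nonpos (Mathlib.Tactic.Linarith.sub_nonpos_of_le hc0) (le_of_lt (Mathlib.Tactic.Linarith.sub_neg_of_lt hρ))])
    obtain ⟨σ, hσ, hxσ, hyσ⟩ := (hx.common hy).2 ⟨a, b, hi c hc, hi d hd⟩
    have h1 := hl σ hσ x y hxσ hyσ v
    rw [← NALocal_dist hx hy, Cone.vec_sm, Cone.vec_sm, dist_smul₀, Real.norm_of_nonneg hρ.le] at h1
    have h2 : x.co v - y.co v = -ρ * (∑ n, c.1 n - ∑ n, d.1 n) := by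
      have e1 := hx.sum
      have e2 := hy.sum
      rw [hs] at e1 e2
      linarith only [e1, e2]
    rw [h2, abs_mul, abs_neg, abs_of_pos hρ, mul_left_comm] at h1
    exact le_of_mul_le_mul_left h1 hρ
  refine ⟨Λ, hΛ, fun v c d r h => ?_⟩
  induction h with
  | nil x => simp
  | cons h1 h2 _ ih =>
    rw [mul_add]
    exact (abs_sub_le _ _ _).trans (add_le_add (step v _ _ _ _ h1 h2) ih)

theorem NALocal_fwd {Λ : ℝ} (hΛ : 0 < Λ) (hl : ∀ (x y : X.P) (r : ℝ), X.toPECx.Chain x y r →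
    ∀ v, |x.co v - y.co v| ≤ Λ * r) {v : X.V} {x y : X.P} {s : ℝ} (h : X.toPECx.Chain x y s)
    {c d : (X.cone v).CP} (hc : X.ToC v x c) (hd : X.ToC v y d) (hs : Λ * s < x.co v) :
    (X.cone v).CChain c d s := by
  induction h generalizing c with
  | nil x =>
    rw [show c = d from Subtype.ext (funext fun n => (hc.2 n).trans (hd.2 n).symm)]
    exact Cone.CChain.nil d
  | @cons x y z r σ hσ hx hy hch ih =>
    have h1 := (le_abs_self _).trans (hl x y _ (PECx.Chain.cons σ hσ hx hy (PECx.Chain.nil y)) v)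
    have h2 := mul_nonneg hΛ.le (chain_nonneg hch)
    rw [add_zero] at h1
    rw [mul_add] at hs
    obtain ⟨e, he⟩ := exists_toC (x := y) (v := v) (by linarith)
    obtain ⟨a, b, ha, hb⟩ := (hc.common he).1 ⟨σ, hσ, hx, hy⟩
    rw [img_eq hx, img_eq hy, ← NALocal_dist hc he]
    exact Cone.CChain.cons ha hb (ih he hd (by linarith))

theorem NALocal_back {Λ : ℝ} (hΛ : 0 < Λ) {v : X.V} (hl : ∀ (c d : (X.cone v).CP) (r : ℝ),
    (X.cone v).CChain c d r → |∑ n, c.1 n - ∑ n, d.1 n| ≤ Λ * r) {c d : (X.cone v).CP} {s : ℝ}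
    (h : (X.cone v).CChain c d s) (x : X.P) (hc : X.ToC v x c) (hs : Λ * s < x.co v) :
    ∃ y, X.ToC v y d ∧ X.toPECx.Chain x y s := by
  induction h generalizing x with
  | nil c => exact ⟨x, hc, PECx.Chain.nil x⟩
  | @cons a b c e d r ha hb hch ih =>
    have h1 := (neg_le_abs _).trans (hl c e _ (Cone.CChain.cons ha hb (Cone.CChain.nil e)))
    have h2 := mul_nonneg hΛ.le hch.nonneg
    have h3 := hc.sum
    rw [add_zero] at h1
    rw [mul_add] at hs
    obtain ⟨y, hy⟩ := exists_ofC e (by linarith)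
    have h4 := hy.sum
    obtain ⟨z, hz, hz'⟩ := ih y hy (by linarith)
    obtain ⟨σ, hσ, hx, hyσ⟩ := (hc.common hy).2 ⟨a, b, ha, hb⟩
    refine ⟨z, hz, ?_⟩
    rw [NALocal_dist hc hy, ← img_eq hx, ← img_eq hyσ]
    exact PECx.Chain.cons σ hσ hx hyσ hz'

theorem local_cone (X : DevCx) : ∃ r : ℝ, 0 < r ∧ ∀ (v : X.V) (x : X.P) (c : (X.cone v).CP),
    1 / 4 ≤ x.co v → X.ToC v x c →
    (∀ y d, X.ToC v y d → (dist x y < r ∨ (X.cone v).dC c d < r) →
      dist x y = (X.cone v).dC c d) ∧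
    ∀ d, (X.cone v).dC c d < r → ∃ y, X.ToC v y d := by
  obtain ⟨Λ₁, hΛ₁, h₁⟩ := X.chain_co
  obtain ⟨Λ₂, hΛ₂, h₂⟩ := X.cone_lip
  refine ⟨min (1 / (8 * Λ₁)) (1 / (8 * Λ₂)), lt_min (by positivity) (by positivity),
    fun v x c hx hc => ?_⟩
  have small : ∀ {Λ s : ℝ}, 0 < Λ → s < 1 / (8 * Λ) → Λ * s < x.co v := by
    intro Λ s hΛ hs
    rw [lt_div_iff₀ (by positivity)] at hs
    linarith only [hx, hs]
  have back : ∀ d, (X.cone v).dC c d < min (1 / (8 * Λ₁)) (1 / (8 * Λ₂)) →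
      ∃ y, X.ToC v y d ∧ dist x y ≤ (X.cone v).dC c d := by
    intro d hd
    obtain ⟨y, hy, hy'⟩ := NALocal_back hΛ₂ (h₂ v) (Cone.chain_dC c d) x hc
      (small hΛ₂ (hd.trans_le (min_le_right _ _)))
    exact ⟨y, hy, dist_le_chain hy'⟩
  refine ⟨fun y d hd h => ?_, fun d hd => (back d hd).imp fun _ h => h.1⟩
  have i1 : dist x y < min (1 / (8 * Λ₁)) (1 / (8 * Λ₂)) → (X.cone v).dC c d ≤ dist x y := by
    intro h
    refine le_of_forall_gt fun s hs => ?_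
    obtain ⟨s', hs', hch⟩ := exists_chain_lt (lt_min hs h)
    exact (NALocal_fwd hΛ₁ h₁ hch hc hd (small hΛ₁ (hs'.trans_le
      ((min_le_right _ _).trans (min_le_left _ _))))).dC_le.trans_lt (hs'.trans_le (min_le_left _ _))
  have i2 : (X.cone v).dC c d < min (1 / (8 * Λ₁)) (1 / (8 * Λ₂)) →
      dist x y ≤ (X.cone v).dC c d := by
    intro h
    obtain ⟨y', hy', hle⟩ := back d h
    rwa [NALocal_uniq hd hy']
  rcases h with h | h
  · exact le_antisymm (i2 ((i1 h).trans_lt h)) (i1 h)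
  · exact le_antisymm (i2 h) (i1 ((i2 h).trans_lt h))

theorem locCN (X : DevCx) : ∃ r, LocCN X.P r := by
  obtain ⟨r₀, hr₀, hloc⟩ := X.local_cone
  obtain ⟨Λ, hΛ, hl⟩ := X.co_lip
  obtain ⟨r₁, hr₁, hc⟩ := X.cpt
  obtain ⟨r, hr, k₁, k₀, kΛ⟩ : ∃ r : ℝ, 0 < r ∧ r ≤ r₁ ∧ r ≤ r₀ / 10 ∧ r ≤ 1 / (12 * Λ) :=
    ⟨min r₁ (min (r₀ / 10) (1 / (12 * Λ))), lt_min hr₁ (lt_min (by positivity) (by positivity)),
      min_le_left _ _, (min_le_right _ _).trans (min_le_left _ _),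
      (min_le_right _ _).trans (min_le_right _ _)⟩
  rw [le_div_iff₀ (by positivity)] at kΛ
  refine ⟨r, hr, fun x => (hc x).of_isClosed_subset Metric.isClosed_closedBall
    (Metric.closedBall_subset_closedBall k₁), fun x y hxy => ?_⟩
  obtain ⟨v, hv⟩ := exists_big x
  have big : ∀ z : X.P, dist x z ≤ r → 1 / 4 ≤ z.co v := by
    intro z hz
    have h1 := (le_abs_self _).trans (hl x z v)
    have h2 := mul_le_mul_of_nonneg_left hz hΛ.le
    linarith only [kΛ, hv, h1, h2]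
  have bx := big x (by rw [dist_self]; exact hr.le)
  have by' := big y hxy
  obtain ⟨a, ha⟩ := exists_toC (x := x) (v := v) (by linarith only [hv])
  obtain ⟨b, hb⟩ := exists_toC (x := y) (v := v) (by linarith only [by'])
  have e1 : dist x y = (X.cone v).dC a b := (hloc v x a bx ha).1 y b hb (Or.inl (by linarith only [hr, k₀, hxy]))
  obtain ⟨m, hm₁, hm₂, hm₃⟩ := Cone.cone_mid a b
  rw [← e1] at hm₁ hm₂ hm₃
  obtain ⟨m', hm'⟩ := (hloc v x a bx ha).2 m (by linarith only [hr, k₀, hxy, hm₁])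
  have e2 : dist x m' = (X.cone v).dC a m := (hloc v x a bx ha).1 m' m hm' (Or.inr (by linarith only [hr, k₀, hxy, hm₁]))
  have e3 : dist y m' = (X.cone v).dC b m := (hloc v y b by' hb).1 m' m hm' (Or.inr (by linarith only [hr, k₀, hxy, hm₂]))
  refine ⟨m', e2.trans hm₁, e3.trans hm₂, fun p hp => ?_⟩
  have bp := big p hp
  obtain ⟨q, hq⟩ := exists_toC (x := p) (v := v) (by linarith only [bp])
  rw [dist_comm] at hp
  have t1 := dist_triangle p x y
  have t2 := dist_triangle p x m'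
  rw [(hloc v p q bp hq).1 x a ha (Or.inl (by linarith only [hr, k₀, hp])),
    (hloc v p q bp hq).1 y b hb (Or.inl (by linarith only [hr, k₀, hxy, hp, t1])),
    (hloc v p q bp hq).1 m' m hm' (Or.inl (by linarith only [hr, k₀, hxy, hm₁, e2, hp, t2]))]
  exact hm₃ q

theorem cat0 (X : DevCx) :
    IsCAT0 X.P ∧ GlobCN X.P ∧ ProperSpace X.P ∧ ∀ x y : X.P, ∃ c, IsGeod c x y := by
  obtain ⟨r, h⟩ := X.locCN
  have hg := (h.geod X.isLen X.hasSec).1
  have hp := h.proper hg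
  have hc := h.globCN X.isLen X.hasSec
  exact ⟨hc.isCAT0 hg, hc, hp, hg⟩

end DevCx

end Pool.Agent.Work.MP_0909b4_al.NA
end

-- merged part: Pool.Agent.Work.MP_0909b4_al.NACount
section
/-! A group acting geometrically on a space with a flat system has no combing.

Plan.
* `three_rot`: two of the three unit vectors, `a, a'`, lie weakly on the same side of the line
  `ℝ q`; with `x = dot q a / ‖q‖`, `‖a - a'‖ ^ 2 ≤ 4 |x - x'| ≤ 8 e / ‖q‖`, and `Δ - e ≤ ‖q‖`.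
* `pass_near`: `R = max (max r₀ 1) (4 K) + 1` with `K` above `l`, `R₀`, and the bound of `fel_bound` for
  `2 R₀ + 1`. Choose `M ≥ 3` with `ρ (2π / M) ≤ 1`, orbit points `γ i • x₀` within `R₀` of
  `g • io (circ w ρ M i)` with `γ M = γ 0`, `T₀` above all `τ (γ i)`; grid `Y i t = P (γ i) t • x₀` for
  `t ≤ T₀` and last row on the circle; `sweep` with `ι = g • io`, `φ ∘ g⁻¹`.
* `no_comb`: let `Bf = {h | dist x₀ (h • x₀) ≤ R + R₀}`, `N = 2 * card Q * card Bf + 1`, `m, s` from `D2`,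
  `ε` small in terms of `s, l, 5 ^ m`, `k` large; `slope` at a level `k + m`, `D2`, `w` from `D3` at
  `z₀`, `ρ = 5 ^ k / 2 - A`. For each copy `g i` use `pass_near`; with `h₀ • x₀` within `R₀` of `io w`,
  the pairs `(st (γ i) (t i), h₀⁻¹ (g i)⁻¹ P (γ i) (t i))` take at most `card Q * card Bf` values, so
  three copies `1, 2, 3` agree. Then `q i = P (γ i) (t i) * ((P (γ 1) (t 1))⁻¹ * γ 1)` equals
  `g i (g 1)⁻¹ γ 1`, and `T1`, `T3` show that `f` grows by `Δ = τ (γ 1) - t 1` up to a constant from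
  `g i • io w` to `g i • io (z 1)`, while `l Δ ≥ ρ - R - R₀`. Also
  `dot v (B • z) - dot v (B • w) = dot (v * conj (z - w)) B.a`. Contradiction with `three_rot`.
-/

namespace Pool.Agent.Work.MP_0909b4_al.NA

theorem NACount_real {x y x' y' n e : ℝ} (hn : 0 ≤ n) (h : x ^ 2 + y ^ 2 = n ^ 2)
    (h' : x' ^ 2 + y' ^ 2 = n ^ 2) (hy : 0 ≤ y * y') (he : |x - x'| ≤ 2 * e) :
    (x - x') ^ 2 + (y - y') ^ 2 ≤ 8 * e * n := by
  have hx : |x| ≤ n := abs_le_of_sq_le_sq' (by linarith only [h, sq_nonneg y, sq_nonneg y]) hn |> abs_le.2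
  have hx' : |x'| ≤ n := abs_le_of_sq_le_sq' (by linarith only [h', sq_nonneg y', sq_nonneg y']) hn |> abs_le.2
  have he0 : 0 ≤ 2 * e := (abs_nonneg _).trans he
  have h1 : |x - x'| ≤ 2 * n := (abs_sub x x').trans (by linarith)
  have h2 : |x + x'| ≤ 2 * n := (abs_add_le x x').trans (by linarith)
  have h3 : (x - x') ^ 2 ≤ 2 * e * (2 * n) := by
    rw [← sq_abs, sq]
    exact mul_le_mul he h1 (abs_nonneg _) he0
  have h4 : |x ^ 2 - x' ^ 2| ≤ 2 * e * (2 * n) := by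
    rw [sq_sub_sq, mul_comm, abs_mul]
    exact mul_le_mul he h2 (abs_nonneg _) he0
  obtain ⟨h5, h6⟩ := abs_le.1 h4
  rcases le_total (y ^ 2) (y' ^ 2) with hc | hc
  · have : y ^ 2 ≤ y * y' := by
      refine (pow_le_pow_iff_left₀ (sq_nonneg y) hy two_ne_zero).1 ?_
      linarith only [hc, mul_le_mul_of_nonneg_left hc (sq_nonneg y), sq_nonneg y]
    linarith only [h, h', h3, h6, this]
  · have : y' ^ 2 ≤ y * y' := by
      refine (pow_le_pow_iff_left₀ (sq_nonneg y') hy two_ne_zero).1 ?_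
      linarith only [hc, mul_le_mul_of_nonneg_left hc (sq_nonneg y'), sq_nonneg y']
    linarith only [h, h', h3, h5, this]

theorem NACount_sq (q a : ℂ) : dot q a ^ 2 + cross q a ^ 2 = ‖q‖ ^ 2 * ‖a‖ ^ 2 := by
  rw [Complex.sq_norm, Complex.sq_norm, Complex.normSq_apply, Complex.normSq_apply, dot, cross]
  ring

theorem NACount_pair {q a a' : ℂ} {s Δ e : ℝ} (hs : 0 ≤ s) (n : ‖a‖ = 1) (n' : ‖a'‖ = 1)
    (h : s ≤ ‖a - a'‖) (e₁ : |dot q a - Δ| ≤ e) (e₂ : |dot q a' - Δ| ≤ e)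
    (hc : 0 ≤ cross q a * cross q a') : s ^ 2 * (Δ - e) ≤ 8 * e := by
  have he : 0 ≤ e := (abs_nonneg _).trans e₁
  have h1 := NACount_sq q a
  have h2 := NACount_sq q a'
  have h3 := NACount_sq q (a - a')
  rw [n, one_pow, mul_one] at h1
  rw [n', one_pow, mul_one] at h2
  obtain ⟨e₃, e₄⟩ := abs_le.1 e₁
  obtain ⟨e₅, e₆⟩ := abs_le.1 e₂
  have h4 := NACount_real (e := e) (norm_nonneg q) h1 h2 hc
    (abs_le.2 ⟨by linarith, by linarith⟩)
  have h5 : dot q (a - a') = dot q a - dot q a' := by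
    simp only [dot, Complex.sub_re, Complex.sub_im]; ring
  have h6 : cross q (a - a') = cross q a - cross q a' := by
    simp only [cross, Complex.sub_re, Complex.sub_im]; ring
  rw [h5, h6] at h3
  have h7 : dot q a ≤ ‖q‖ :=
    (abs_le_of_sq_le_sq' (by linarith only [h1, sq_nonneg (cross q a), sq_nonneg (cross q a)]) (norm_nonneg q)).2
  have h8 : s ^ 2 ≤ ‖a - a'‖ ^ 2 := pow_le_pow_left₀ hs h 2
  rcases (norm_nonneg q).eq_or_lt with h0 | h0
  · linarith only [he, e₃, h7, h0, mul_nonneg (sq_nonneg s) (show 0 ≤ e - Δ by linarith), sq_nonneg s]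
  have h9 : ‖q‖ * ‖a - a'‖ ^ 2 ≤ 8 * e := by
    refine le_of_mul_le_mul_left ?_ h0
    linarith only [h3, h4]
  calc s ^ 2 * (Δ - e) ≤ s ^ 2 * ‖q‖ := mul_le_mul_of_nonneg_left (by linarith) (sq_nonneg s)
    _ ≤ ‖a - a'‖ ^ 2 * ‖q‖ := mul_le_mul_of_nonneg_right h8 h0.le
    _ ≤ 8 * e := by linarith

theorem three_rot (q a₁ a₂ a₃ : ℂ) (s Δ e : ℝ) (hs : 0 ≤ s) (n₁ : ‖a₁‖ = 1) (n₂ : ‖a₂‖ = 1)
    (n₃ : ‖a₃‖ = 1) (h₁₂ : s ≤ ‖a₁ - a₂‖) (h₁₃ : s ≤ ‖a₁ - a₃‖) (h₂₃ : s ≤ ‖a₂ - a₃‖)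
    (e₁ : |dot q a₁ - Δ| ≤ e) (e₂ : |dot q a₂ - Δ| ≤ e) (e₃ : |dot q a₃ - Δ| ≤ e) :
    s ^ 2 * (Δ - e) ≤ 8 * e := by
  by_cases c₁₂ : 0 ≤ cross q a₁ * cross q a₂
  · exact NACount_pair hs n₁ n₂ h₁₂ e₁ e₂ c₁₂
  by_cases c₁₃ : 0 ≤ cross q a₁ * cross q a₃
  · exact NACount_pair hs n₁ n₃ h₁₃ e₁ e₃ c₁₃
  refine NACount_pair hs n₂ n₃ h₂₃ e₂ e₃ ?_
  push Not at c₁₂ c₁₃
  by_contra h
  push Not at h
  have h1 := mul_pos_of_neg_of_neg c₁₂ c₁₃
  linarith only [h1, h, mul_nonneg (sq_nonneg (cross q a₁)) (neg_nonneg.2 h.le), sq_nonneg (cross q a₁)]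

variable {G X : Type} [Group G] [MetricSpace X] [MulAction G X] {x₀ : X} {R₀ : ℝ}

theorem GeoAct.pass_near (h : GeoAct G X x₀ R₀) (c : Comb G) (F : FlatSys G X) : ∃ R : ℝ, 0 < R ∧
    ∀ (k : ℕ) (c' : F.Col) (g : G) (w : ℂ) (ρ : ℝ), R ≤ ρ → Metric.closedBall w ρ ⊆ F.Om k c' →
      (∀ a, dist (F.io k c' w) a ≤ F.r₀ → dist (F.φ k c' a) w = dist (F.io k c' w) a) →
      ∃ (γ : G) (t : ℕ) (z : ℂ), t ≤ c.τ γ ∧ dist z w = ρ ∧ dist (γ • x₀) (g • F.io k c' z) ≤ R₀ ∧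
        dist (c.P γ t • x₀) (g • F.io k c' w) ≤ R := by
  obtain ⟨l, hl, hst, -⟩ := h.step_bound c
  obtain ⟨K₁, hK₁⟩ := h.fel_bound c (2 * R₀ + 1)
  choose Γ hΓ using h.cob
  set K := max (max l K₁) (max R₀ 1) with hK
  have k1 : l ≤ K := (le_max_left _ _).trans (le_max_left _ _)
  have k2 : K₁ ≤ K := (le_max_right _ _).trans (le_max_left _ _)
  have k3 : R₀ ≤ K := (le_max_left _ _).trans (le_max_right _ _)
  have k4 : 1 ≤ K := (le_max_right _ _).trans (le_max_right _ _)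
  have hR : 0 < max F.r₀ (4 * K) := lt_max_of_lt_left F.r₀_pos
  refine ⟨max F.r₀ (4 * K), hR, ?_⟩
  intro k c' g w ρ hρ hball hflat
  have hρ0 : 0 ≤ ρ := hR.le.trans hρ
  obtain ⟨M, hM⟩ := exists_nat_ge (max 3 (ρ * (2 * Real.pi)))
  have hM3 : 3 ≤ M := by exact_mod_cast (le_max_left _ _).trans hM
  have hM0 : (0 : ℝ) < M := by exact_mod_cast lt_of_lt_of_le (by norm_num) hM3
  have hstep : ρ * (2 * Real.pi / M) ≤ 1 := by
    rw [← mul_div_assoc, div_le_one hM0]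
    exact (le_max_right _ _).trans hM
  have hmem : ∀ i, circ w ρ M i ∈ Metric.closedBall w ρ := fun i =>
    (circ_dist w hρ0 M i).le
  have hw : w ∈ Metric.closedBall w ρ := Metric.mem_closedBall_self hρ0
  set p : ℕ → X := fun i => g • F.io k c' (circ w ρ M i) with hp
  have hpp : ∀ i, dist (p i) (p (i + 1)) ≤ 1 := fun i => by
    simp only [hp, h.iso]
    exact (F.io_lip k c' _ (hball (hmem i)) _ (hball (hmem (i + 1)))).trans
      ((circ_step w hρ0 M i).trans hstep)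
  set T₀ := ∑ i ∈ Finset.range (M + 1), c.τ (Γ (p i)) with hT₀
  have hT : ∀ i ≤ M, c.τ (Γ (p i)) ≤ T₀ := fun i hi =>
    Finset.single_le_sum (f := fun i => c.τ (Γ (p i))) (fun _ _ => Nat.zero_le _)
      (Finset.mem_range.2 (Nat.lt_succ_of_le hi))
  have hdist : ∀ a b : X, dist (g • a) b = dist a (g⁻¹ • b) := fun a b => by
    rw [← h.iso g a (g⁻¹ • b), smul_inv_smul]
  obtain ⟨i, hi, t, ht, hd⟩ := sweep h.cn h.geod (fun z => g • F.io k c' z)
    (fun x => F.φ k c' (g⁻¹ • x)) w ρ F.r₀ K (max F.r₀ (4 * K)) F.r₀_pos (le_max_left _ _)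
    (le_max_right _ _)
    (fun z hz z' hz' => by
      rw [h.iso]; exact F.io_lip k c' _ (hball hz) _ (hball hz'))
    (fun x y => (F.φ_lip k c' _ _).trans (h.iso _ _ _).le)
    (fun z hz => by rw [inv_smul_smul]; exact F.φ_io k c' z (hball hz))
    (fun a ha => by rw [hdist] at ha ⊢; exact hflat _ ha) hρ0
    (fun i t => if t ≤ T₀ then c.P (Γ (p i)) t • x₀ else p i) M (T₀ + 1) hM3
    (fun i _ t _ => by
      split_ifs
      · refine (hK₁ _ _ ?_ t).trans k2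
        have h1 := dist_triangle4 (Γ (p i) • x₀) (p i) (p (i + 1)) (Γ (p (i + 1)) • x₀)
        have h2 := hΓ (p i)
        rw [dist_comm] at h2
        linarith only [h1, h2, hpp, hΓ, hpp i, hΓ (p (i + 1))]
      · exact (hpp i).trans k4)
    (fun i hi t ht => by
      have ht' : t ≤ T₀ := Nat.lt_succ_iff.1 ht
      rw [if_pos ht']
      split_ifs with h1
      · exact (hst _ _).trans k1
      · rw [c.P_end _ _ ((hT i hi).trans (by omega)), dist_comm]
        exact (hΓ _).trans k3)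
    (fun t _ => by simp only [hp, circ_last w ρ (show 0 < M by omega)])
    (fun i _ => by simp only [Nat.zero_le, if_true, c.P_zero])
    (fun i _ => by rw [if_neg (by omega)])
  by_cases h1 : t ≤ T₀
  · rw [if_pos h1] at hd
    refine ⟨Γ (p i), min t (c.τ (Γ (p i))), circ w ρ M i, min_le_right _ _,
      circ_dist w hρ0 M i, ?_, ?_⟩
    · rw [dist_comm]; exact hΓ _
    · rcases le_total t (c.τ (Γ (p i))) with h2 | h2
      · rw [min_eq_left h2]; exact hd.le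
      · rw [min_eq_right h2, c.P_end _ _ le_rfl]
        rw [c.P_end _ _ h2] at hd
        exact hd.le
  · rw [if_neg h1] at hd
    simp only [hp, h.iso] at hd
    have h2 := F.φ_lip k c' (F.io k c' (circ w ρ M i)) (F.io k c' w)
    rw [F.φ_io k c' _ (hball (hmem i)), F.φ_io k c' _ (hball hw), circ_dist w hρ0] at h2
    linarith only [hρ, hd, h2]

theorem GeoAct.no_comb (h : GeoAct G X x₀ R₀) (F : FlatSys G X) (c : Comb G) : False := by
  classical
  obtain ⟨R, hR, hpass⟩ := h.pass_near c F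
  obtain ⟨l, hl, -, hst⟩ := h.step_bound c
  obtain ⟨f, Λ, B₀, hΛ, hf, hB⟩ := h.exists_f c
  have hR₀ : 0 ≤ R₀ := by
    obtain ⟨g, hg⟩ := h.cob x₀
    exact dist_nonneg.trans hg
  have hB₀ : 0 ≤ B₀ := (abs_nonneg _).trans (hB 1)
  have hA : 0 ≤ F.A := zero_le_one.trans F.A_ge
  have hC : (0 : ℝ) ≤ c.C := Nat.cast_nonneg _
  have := c.finQ
  have := (h.fin (R + R₀)).to_subtype
  have := Fintype.ofFinite (c.Q × {g : G | dist x₀ (g • x₀) ≤ R + R₀})
  obtain ⟨m, s, hs, hD2⟩ :=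
    F.D2 (Fintype.card (c.Q × {g : G | dist x₀ (g • x₀) ≤ R + R₀}) * 2 + 1)
  set D := Λ * R₀ + Λ * R + 2 * B₀ + 2 * c.C with hD
  have hD0 : 0 ≤ D := by positivity
  obtain ⟨k₁, hk₁⟩ := pow_unbounded_of_one_lt
    (4 * (l * (8 + s ^ 2) * D / s ^ 2 + F.A + R + R₀ + l * c.C)) (show (1 : ℝ) < 5 by norm_num)
  obtain ⟨n, c₀, g, v, b, hn, hsl⟩ := F.slope f Λ hf (s ^ 2 / (8 * l * (8 + s ^ 2) * 5 ^ m))
    (by positivity) (k₁ + m)
  obtain ⟨k, rfl⟩ : ∃ k, n = k + m := ⟨n - m, by omega⟩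
  have hk : 4 * (l * (8 + s ^ 2) * D / s ^ 2 + F.A + R + R₀ + l * c.C) < (5 : ℝ) ^ k :=
    hk₁.trans_le (pow_le_pow_right₀ (by norm_num) (by omega))
  have hq : 0 ≤ l * (8 + s ^ 2) * D / s ^ 2 := by positivity
  have hlC : 0 ≤ l * c.C := by positivity
  obtain ⟨c', B, z₀, hsub, hsep, hball⟩ := hD2 k c₀
  choose g' hg' using hsub
  obtain ⟨w, hw, hwz, hflat⟩ := F.D3 k c' z₀
    (hball (Metric.mem_closedBall_self (by positivity)))
  have hball' : Metric.closedBall w ((5 : ℝ) ^ k / 2 - F.A) ⊆ F.Om k c' :=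
    (Metric.closedBall_subset_closedBall' (by linarith only [hwz])).trans hball
  choose γ t z ht hz hγ hP using fun i =>
    hpass k c' (g * g' i) w ((5 : ℝ) ^ k / 2 - F.A) (by linarith only [hR, hR₀, hA, hk, hq, hlC]) hball' hflat
  obtain ⟨h₀, hh₀⟩ := h.cob (F.io k c' w)
  have hu : ∀ i, h₀⁻¹ * ((g * g' i)⁻¹ * c.P (γ i) (t i)) ∈
      {g : G | dist x₀ (g • x₀) ≤ R + R₀} := fun i => by
    have h1 := dist_triangle_right (((g * g' i) * h₀) • x₀) (c.P (γ i) (t i) • x₀)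
      ((g * g' i) • F.io k c' w)
    have h2 : dist (((g * g' i) * h₀) • x₀) ((g * g' i) • F.io k c' w) ≤ R₀ := by
      rw [mul_smul, h.iso, dist_comm]; exact hh₀
    change dist _ _ ≤ _
    rw [← h.iso ((g * g' i) * h₀), ← mul_smul ((g * g' i) * h₀), mul_assoc (g * g' i),
      mul_inv_cancel_left, mul_inv_cancel_left]
    linarith only [h1, h2, hP, hP i]
  obtain ⟨y, hy⟩ := Fintype.exists_lt_card_fiber_of_mul_lt_card (n := 2)
    (fun i => ((c.st (γ i) (t i), ⟨_, hu i⟩) : c.Q × {g : G | dist x₀ (g • x₀) ≤ R + R₀}))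
    (by rw [Fintype.card_fin]; omega)
  obtain ⟨i₁, i₂, i₃, m₁, m₂, m₃, d₁₂, d₁₃, d₂₃⟩ := Finset.two_lt_card_iff.1 hy
  have hzm : z i₁ ∈ F.Om k c' := hball' (hz i₁).le
  have hΔ : (5 : ℝ) ^ k / 2 - F.A - R - R₀ ≤ l * (c.τ (γ i₁) - t i₁) := by
    have h1 := hst (γ i₁) (t i₁) (ht i₁)
    have h2 := F.φ_lip k c' (F.io k c' (z i₁)) (F.io k c' w)
    rw [F.φ_io k c' _ hzm, F.φ_io k c' _ hw, hz, ← h.iso (g * g' i₁)] at h2
    have h3 := dist_triangle4 ((g * g' i₁) • F.io k c' (z i₁)) (γ i₁ • x₀)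
      (c.P (γ i₁) (t i₁) • x₀) ((g * g' i₁) • F.io k c' w)
    have h4 := hγ i₁
    rw [dist_comm] at h1 h4
    linarith only [h1, h2, h3, h4, hP, hP i₁]
  have hCt : t i₁ + c.C ≤ c.τ (γ i₁) := by
    have h1 : l * c.C ≤ l * (c.τ (γ i₁) - t i₁) := by linarith only [hR, hR₀, hA, hk, hq, hlC, hΔ]
    have h2 := le_of_mul_le_mul_left h1 hl
    have h3 : ((t i₁ + c.C : ℕ) : ℝ) ≤ c.τ (γ i₁) := by push_cast; linarith only [h2]
    exact_mod_cast h3
  set E := s ^ 2 / (8 * l * (8 + s ^ 2) * 5 ^ m) * 5 ^ (k + m) with hE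
  have key : ∀ i ∈ Finset.univ.filter fun i => ((c.st (γ i) (t i), ⟨_, hu i⟩) :
      c.Q × {g : G | dist x₀ (g • x₀) ≤ R + R₀}) = y,
      |dot (v * (starRingEnd ℂ) (z i₁ - w)) (B i).a - (c.τ (γ i₁) - t i₁)| ≤ D + 2 * E := by
    intro i hi
    have e := (Finset.mem_filter.1 m₁).2.trans (Finset.mem_filter.1 hi).2.symm
    have e1 : c.st (γ i₁) (t i₁) = c.st (γ i) (t i) := congrArg Prod.fst e
    have e2 : (g * g' i₁)⁻¹ * c.P (γ i₁) (t i₁) = (g * g' i)⁻¹ * c.P (γ i) (t i) :=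
      mul_left_cancel (congrArg (fun p => p.2.1) e)
    have e3 : c.P (γ i) (t i) * ((c.P (γ i₁) (t i₁))⁻¹ * γ i₁) =
        (g * g' i) * ((g * g' i₁)⁻¹ * γ i₁) := by
      have : c.P (γ i) (t i) = (g * g' i) * ((g * g' i₁)⁻¹ * c.P (γ i₁) (t i₁)) := by
        rw [e2, mul_inv_cancel_left]
      rw [this]
      group
    have a1 := abs_le.1 (c.T3 (γ i₁) (γ i) (t i₁) (t i) hCt (ht i) e1)
    have a2 := abs_le.1 (c.T1 (γ i) (t i) (ht i))
    rw [e3] at a1
    have a3 := abs_le.1 (hB ((g * g' i) * ((g * g' i₁)⁻¹ * γ i₁)))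
    have a4 := abs_le.1 (hB (c.P (γ i) (t i)))
    have a5 := abs_le.1 ((hf _ _).trans (mul_le_mul_of_nonneg_left (hP i) hΛ.le))
    have b1 : dist (((g * g' i) * ((g * g' i₁)⁻¹ * γ i₁)) • x₀)
        ((g * g' i) • F.io k c' (z i₁)) ≤ R₀ := by
      rw [mul_smul, h.iso, ← h.iso (g * g' i₁), ← mul_smul, mul_inv_cancel_left]
      exact hγ i₁
    have a6 := abs_le.1 ((hf _ _).trans (mul_le_mul_of_nonneg_left b1 hΛ.le))
    have a7 := abs_le.1 (hsl _ (hg' i _ hzm).1)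
    have a8 := abs_le.1 (hsl _ (hg' i _ hw).1)
    rw [(hg' i _ hzm).2, ← mul_smul] at a7
    rw [(hg' i _ hw).2, ← mul_smul] at a8
    have a9 : dot (v * (starRingEnd ℂ) (z i₁ - w)) (B i).a =
        dot v (B i • z i₁) - dot v (B i • w) := by
      simp only [dot, Mot.smul_def, Complex.mul_re, Complex.mul_im, Complex.add_re,
        Complex.add_im, Complex.conj_re, Complex.conj_im, Complex.sub_re, Complex.sub_im]
      ring
    rw [a9, abs_le]
    constructor <;> linarith only [a1, a2, a3, a4, a5, a6, a7, a8, a1.1, a1.2, a2.1, a2.2, a3.1, a3.2, a4.1, a4.2, a5.1, a5.2, a6.1,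
      a6.2, a7.1, a7.2, a8.1, a8.2]
  have fin := three_rot _ _ _ _ s _ _ hs.le (B i₁).norm_a (B i₂).norm_a (B i₃).norm_a
    (hsep _ _ d₁₂) (hsep _ _ d₁₃) (hsep _ _ d₂₃) (key _ m₁) (key _ m₂) (key _ m₃)
  have hE' : l * (8 + s ^ 2) * (2 * E) = s ^ 2 * 5 ^ k / 4 := by
    rw [hE, pow_add]
    field_simp
    ring
  have hs2 : 0 < s ^ 2 := by positivity
  have hq' : l * (8 + s ^ 2) * D = s ^ 2 * (l * (8 + s ^ 2) * D / s ^ 2) := by field_simp
  have f1 := mul_le_mul_of_nonneg_left fin hl.le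
  have f2 := mul_le_mul_of_nonneg_left hΔ hs2.le
  have f3 := mul_lt_mul_of_pos_left hk hs2
  have f4 := mul_nonneg hs2.le hlC
  linarith only [hE', hq', f1, f2, f3, f4]

theorem GeoAct.not_biautomatic (h : GeoAct G X x₀ R₀) (F : FlatSys G X) : ¬IsBiautomatic G := by
  intro hb
  obtain ⟨A⟩ := exists_aut hb
  obtain ⟨c⟩ := A.exists_comb
  exact h.no_comb F c

end Pool.Agent.Work.MP_0909b4_al.NA
end

-- merged part: Pool.Agent.Work.MP_0909b4_al.NAMain
section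
/-! The counterexample, from a substitution. -/

namespace Pool.Agent.Work.MP_0909b4_al.NA

theorem GCx.exists_tri (K : GCx) (t : K.Tr) : ∃ σ ∈ K.cx.faces, σ.card = 3 := by
  classical
  obtain ⟨⟨σ, hσ, a, b, c⟩, h₁, h₂, h₃⟩ := (K.tri_iff 1 (K.src (K.e01 t)) _ _).2
    ⟨K.e01 t, K.e02 t, Or.inl ⟨t, Or.inl ⟨rfl, rfl, rfl⟩⟩, rfl, rfl⟩
  refine ⟨σ, hσ, le_antisymm (K.cx.dim σ hσ) ?_⟩
  exact Finset.two_lt_card_iff.2 ⟨_, _, _, a, b, c, h₁, h₂, h₃⟩

theorem GC0.fg (K : GC0) : Group.FG K.Γ := by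
  have := K.finE
  exact Group.fg_of_surjective (PresentedGroup.mk_surjective K.rels)

theorem main_of_sub (S : Sub) : ∃ (K : PECx) (_ : MetricSpace K.Pt) (G : Type) (_ : Group G)
    (_ : MulAction G K.Pt), (∃ σ ∈ K.faces, σ.card = 3) ∧ (∀ x y : K.Pt, ∃ r, K.Chain x y r) ∧
    (∀ x y : K.Pt, dist x y = K.d x y) ∧ IsCAT0 K.Pt ∧
    (∀ (g : G) (x y : K.Pt), dist (g • x) (g • y) = dist x y) ∧
    (∀ x : K.Pt, ∃ r > 0, {g : G | ∃ y ∈ Metric.ball x r, g • y ∈ Metric.ball x r}.Finite) ∧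
    (∃ C : Set K.Pt, IsCompact C ∧ ∀ x : K.Pt, ∃ g : G, g • x ∈ C) ∧ Group.FG G ∧
    ¬IsBiautomatic G := by
  let K := S.poly.gcx
  obtain ⟨h₁, h₂, h₃, h₄⟩ := K.cx.cat0
  obtain ⟨C⟩ := S.poly.cells
  obtain ⟨P⟩ := Sub.patchSys C
  obtain ⟨F⟩ := P.flat
  let x₀ : K.cx.P := K.cx.vpt (1, none)
  obtain ⟨R₀, hR⟩ := K.cob x₀
  have hg : GeoAct K.Γ K.cx.P x₀ R₀ :=
    ⟨K.iso, h₄, h₂, hR, finite_of_sep K.iso K.act.δ_pos K.act.sep x₀⟩
  obtain ⟨G, hG⟩ := Sub.exists_val (S := S)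
  obtain ⟨k, hk⟩ := S.co_surj (S.ty G.1)
  have hx : S.ok (.core (S.dart G.1 k, G.2)) := by
    change S.Val (S.dch (S.dart G.1 k), G.2)
    rw [S.dch_dart _ _ hk]
    exact hG
  exact ⟨K.cx.toPECx, inferInstance, K.Γ, inferInstance, inferInstance,
    K.exists_tri (⟨_, hx⟩, false), DevCx.chain_exists, fun _ _ => rfl, h₁, K.iso, K.proper,
    K.cocompact, K.fg, hg.not_biautomatic F⟩

end Pool.Agent.Work.MP_0909b4_al.NA
end
end
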