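import Pool.Agent.Work.MP_0909b4_al.NADefs
import Mathlib
import Pool.Agent.Work.MP_0909b4_al.Defs

-- merged part: Pool.Agent.Work.MP_0909b4_al.NAMet3
section
-- merged part: Pool.Agent.Work.MP_0909b4_al.NAMet1
section
/-! Locally CAT(0) spaces: local lemmas.

Plan.
* `cn`: let `m0` be the midpoint of `h.mid`; CN at `p = m` gives `dist m m0 ^ 2 ≤ 0`.
* `mid_convex`: let `m''` be a midpoint of `x, y'`. Two uses of `cn` (pair `x, y'` seen from `m`,
  pair `x, y` seen from `y'`) give `dist m m'' ≤ dist y y' / 2`; the same with base `y'` gives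
  `dist m'' m' ≤ dist x x' / 2`.
* `disc_convex`: increments `a (i+1) - a i` are monotone.
* `disc_geod`: induction on `j - i`; `cn` for the pair `z (j-1), z (j+1)` seen from `z i` gives
  `dist (z i) (z (j+1)) ^ 2 ≥ ((j+1-i) s) ^ 2`, the triangle inequality gives the converse.
* `IsLoc.dist_le`: subdivide.
* `loc_close`: `f t = dist (c t) (c' t)` is discretely convex on the grid `i / N` for all large `N`
  (`mid_convex`), so `f (i/N) ≤ (i/N) f 1`; `f` is Lipschitz, so `f t ≤ t * f 1`; for small `t`,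
  `L' t = dist (c' 0) (c' t) ≤ L t + t * f 1`.
-/

namespace Pool.Agent.Work.MP_0909b4_al.NA

/-- uniformly locally compact, with local midpoints that satisfy the CN inequality -/
structure LocCN (X : Type) [MetricSpace X] (r : ℝ) : Prop where
  pos : 0 < r
  cpt : ∀ x : X, IsCompact (Metric.closedBall x r)
  mid : ∀ x y : X, dist x y ≤ r → ∃ m, dist x m = dist x y / 2 ∧ dist y m = dist x y / 2 ∧
    ∀ p, dist x p ≤ r → dist p m ^ 2 ≤ (dist p x ^ 2 + dist p y ^ 2) / 2 - dist x y ^ 2 / 4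

/-- `m` is a midpoint of `x` and `y` -/
def IsMid {X : Type} [MetricSpace X] (x y m : X) : Prop :=
  dist x m = dist x y / 2 ∧ dist y m = dist x y / 2

/-- a local geodesic of speed `L` -/
def IsLoc {X : Type} [MetricSpace X] (r L : ℝ) (c : ℝ → X) : Prop :=
  0 ≤ L ∧ ∀ s ∈ Set.Icc (0 : ℝ) 1, ∀ t ∈ Set.Icc (0 : ℝ) 1, L * |s - t| ≤ r / 10 →
    dist (c s) (c t) = L * |s - t|

variable {X : Type} [MetricSpace X] {r : ℝ}

theorem LocCN.cn (h : LocCN X r) {x y m p : X} (hm : IsMid x y m) (hxy : dist x y ≤ r)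
    (hp : dist x p ≤ r) :
    dist p m ^ 2 ≤ (dist p x ^ 2 + dist p y ^ 2) / 2 - dist x y ^ 2 / 4 := by
  obtain ⟨m0, h1, h2, h3⟩ := h.mid x y hxy
  have hd := dist_nonneg (x := x) (y := y)
  have h4 := h3 m (by rw [hm.1]; linarith only [hxy, hd])
  rw [dist_comm m x, dist_comm m y, hm.1, hm.2] at h4
  have h5 : dist m m0 ^ 2 ≤ 0 := by linarith only [h4]
  have h6 : m = m0 := dist_eq_zero.mp (pow_eq_zero_iff (two_ne_zero) |>.mp
    (le_antisymm h5 (sq_nonneg _)))
  rw [h6]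
  exact h3 p hp

theorem LocCN.NAMet1_half (h : LocCN X r) {x y m y' m' : X} (hm : IsMid x y m)
    (hm' : IsMid x y' m') (h₁ : dist x y ≤ r) (h₂ : dist x y' ≤ r) :
    dist m m' ≤ dist y y' / 2 := by
  have hd := dist_nonneg (x := x) (y := y)
  have a1 := h.cn (p := m) hm' h₂ (by rw [hm.1]; linarith only [h₁, hd])
  have a2 := h.cn (p := y') hm h₁ h₂
  rw [dist_comm m x, hm.1, dist_comm m y'] at a1
  rw [dist_comm y' x, dist_comm y' y] at a2
  refine le_of_sq_le_sq (by linarith only [a1, a2]) (by positivity)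

theorem IsMid.NAMet1_symm {x y m : X} (hm : IsMid x y m) : IsMid y x m :=
  ⟨by rw [hm.2, dist_comm x y], by rw [hm.1, dist_comm x y]⟩

theorem LocCN.mid_convex (h : LocCN X r) {x y m x' y' m' : X} (hm : IsMid x y m)
    (hm' : IsMid x' y' m') (h₁ : dist x y ≤ r / 4) (h₂ : dist x x' ≤ r / 4)
    (h₃ : dist y y' ≤ r / 4) : dist m m' ≤ (dist x x' + dist y y') / 2 := by
  have hr := h.pos
  have e1 : dist x y' ≤ r / 2 := by linarith only [h₁, h₃, dist_triangle x y y']
  have e2 : dist y' x' ≤ r := by linarith only [h₂, hr, e1, dist_triangle y' x x', dist_comm x y']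
  obtain ⟨m'', g1, g2, -⟩ := h.mid x y' (by linarith only [hr, e1])
  have hm'' : IsMid x y' m'' := ⟨g1, g2⟩
  have a1 := h.NAMet1_half hm hm'' (by linarith only [h₁, hr]) (by linarith only [hr, e1])
  have a2 := h.NAMet1_half hm''.NAMet1_symm hm'.NAMet1_symm (by rw [dist_comm]; linarith only [hr, e1]) e2
  linarith only [a1, a2, dist_triangle m m'' m']

/-- a discretely convex finite sequence lies below its chord -/
theorem disc_convex (a : ℕ → ℝ) (N : ℕ) (h : ∀ i, i + 2 ≤ N → a (i + 1) ≤ (a i + a (i + 2)) / 2)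
    (i : ℕ) (hi : i ≤ N) : N * a i ≤ (N - i) * a 0 + i * a N := by
  rcases hi.eq_or_lt with rfl | hi
  · simp
  have mono : ∀ j d, j + d + 1 ≤ N → a (j + 1) - a j ≤ a (j + d + 1) - a (j + d) := by
    intro j d
    induction d with
    | zero => simp
    | succ d ih =>
      intro hd
      have h1 := ih (by omega)
      have h2 := h (j + d) (by omega)
      have e1 : j + (d + 1) + 1 = j + d + 2 := by ring
      have e2 : j + (d + 1) = j + d + 1 := by ring
      rw [e1, e2]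
      linarith only [h1, h2]
  have lo : ∀ k, k ≤ i → a k - a 0 ≤ k * (a (i + 1) - a i) := by
    intro k
    induction k with
    | zero => simp
    | succ k ih =>
      intro hk
      have h1 := ih (by omega)
      have h2 := mono k (i - k) (by omega)
      rw [show k + (i - k) = i by omega] at h2
      push_cast
      linarith only [h1, h2]
  have up : ∀ k, i + k ≤ N → k * (a (i + 1) - a i) ≤ a (i + k) - a i := by
    intro k
    induction k with
    | zero => simp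
    | succ k ih =>
      intro hk
      have h1 := ih (by omega)
      have h2 := mono i k (by omega)
      rw [← add_assoc]
      push_cast
      linarith only [h1, h2]
  have h1 := lo i le_rfl
  have h2 := up (N - i) (by omega)
  rw [show i + (N - i) = N by omega, Nat.cast_sub hi.le] at h2
  have h3 : (0 : ℝ) ≤ N - i := by
    have : (i : ℝ) ≤ N := by exact_mod_cast hi.le
    linarith only [this]
  have h4 : (0 : ℝ) ≤ i := Nat.cast_nonneg i
  linarith only [h1, h3, h2, h4, mul_le_mul_of_nonneg_left h1 h3, mul_le_mul_of_nonneg_left h2 h4]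

/-- short discrete geodesics are geodesic -/
theorem LocCN.disc_geod (h : LocCN X r) (z : ℕ → X) (N : ℕ) (s : ℝ)
    (hs : ∀ i, i < N → dist (z i) (z (i + 1)) = s)
    (hm : ∀ i, i + 2 ≤ N → IsMid (z i) (z (i + 2)) (z (i + 1))) (i j : ℕ) (hij : i ≤ j)
    (hj : j ≤ N) (hsm : (j - i : ℝ) * s ≤ r / 2) : dist (z i) (z j) = (j - i : ℝ) * s := by
  have hr := h.pos
  have key : ∀ d : ℕ, i + d ≤ N → (d : ℝ) * s ≤ r / 2 → dist (z i) (z (i + d)) = d * s := by
    intro d
    induction d using Nat.twoStepInduction with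
    | zero => simp
    | one => intro h1 _; simpa using hs i (by omega)
    | more d ih0 ih1 =>
      intro h1 h2
      have s1 := hs (i + d) (by omega)
      have s2 := hs (i + d + 1) (by omega)
      have s0 : 0 ≤ s := by rw [← s1]; exact dist_nonneg
      have hd : (0 : ℝ) ≤ d := Nat.cast_nonneg d
      push_cast at h2 ih1 ⊢
      have e0 := ih0 (by omega) (by linarith only [s0, h2])
      have e1 := ih1 (by omega) (by linarith only [s0, h2])
      have mid := hm (i + d) (by omega)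
      have e2 : dist (z (i + d)) (z (i + d + 2)) = 2 * s := by linarith only [s1, mid, mid.1]
      have cn := h.cn (p := z i) mid (by linarith only [hr, h2, e2, s0, mul_nonneg_of_nonpos_of_nonpos (Mathlib.Tactic.Linarith.sub_nonpos_of_le (Mathlib.Tactic.Linarith.natCast_nonneg ℝ d)) (Mathlib.Tactic.Linarith.sub_nonpos_of_le s0)]) (by rw [dist_comm, e0]; linarith only [hr, s0, h2])
      rw [← add_assoc] at e1
      rw [← add_assoc]
      rw [e0, e1, e2] at cn
      refine le_antisymm ?_ (le_of_sq_le_sq (by linarith only [cn]) dist_nonneg)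
      linarith only [s2, e1, dist_triangle (z i) (z (i + d + 1)) (z (i + d + 2))]
  obtain ⟨d, rfl⟩ := Nat.exists_eq_add_of_le hij
  have e : ((i + d : ℕ) : ℝ) - i = d := by push_cast; ring
  rw [e] at hsm ⊢
  exact key d hj hsm

theorem IsLoc.dist_le {L : ℝ} {c : ℝ → X} (hr : 0 < r) (h : IsLoc r L c) {s t : ℝ}
    (hs : s ∈ Set.Icc (0 : ℝ) 1) (ht : t ∈ Set.Icc (0 : ℝ) 1) : dist (c s) (c t) ≤ L * |s - t| := by
  have key : ∀ k : ℕ, ∀ t ∈ Set.Icc (0 : ℝ) 1, L * |s - t| ≤ k * (r / 10) →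
      dist (c s) (c t) ≤ L * |s - t| := by
    intro k
    induction k with
    | zero =>
      intro t ht h0
      exact (h.2 s hs t ht (by push_cast at h0; linarith only [hr, h0])).le
    | succ k ih =>
      intro t ht h0
      have hk : (0 : ℝ) < k + 1 := by positivity
      have hk0 : (0 : ℝ) ≤ k := Nat.cast_nonneg k
      set q : ℝ := k / (k + 1) with hq
      have q0 : 0 ≤ q := by positivity
      have q1 : q ≤ 1 := by rw [hq, div_le_one hk]; linarith only []
      have q2 : (1 - q) * (k + 1) = 1 := by rw [hq]; field_simp; ring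
      have hu : s + q * (t - s) ∈ Set.Icc (0 : ℝ) 1 :=
        ⟨by linarith only [q0, ht, q1, hs, hs.1, ht.1, mul_nonneg_of_nonpos_of_nonpos (Mathlib.Tactic.Linarith.sub_nonpos_of_le q0) (Mathlib.Tactic.Linarith.sub_nonpos_of_le ht.left), mul_nonneg_of_nonpos_of_nonpos (Mathlib.Tactic.Linarith.sub_nonpos_of_le q1) (Mathlib.Tactic.Linarith.sub_nonpos_of_le hs.left)], by linarith only [q0, ht, q1, hs, hs.2, ht.2, mul_nonneg_of_nonpos_of_nonpos (Mathlib.Tactic.Linarith.sub_nonpos_of_le q0) (Mathlib.Tactic.Linarith.sub_nonpos_of_le ht.right), mul_nonneg_of_nonpos_of_nonpos (Mathlib.Tactic.Linarith.sub_nonpos_of_le q1) (Mathlib.Tactic.Linarith.sub_nonpos_of_le hs.right)]⟩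
      have e1 : |s - (s + q * (t - s))| = q * |s - t| := by
        rw [show s - (s + q * (t - s)) = q * (s - t) by ring, abs_mul, abs_of_nonneg q0]
      have e2 : |s + q * (t - s) - t| = (1 - q) * |s - t| := by
        rw [show s + q * (t - s) - t = (1 - q) * (s - t) by ring, abs_mul,
          abs_of_nonneg (by linarith only [q1])]
      push_cast at h0
      have b1 : L * ((1 - q) * |s - t|) ≤ r / 10 := by
        have := mul_le_mul_of_nonneg_left h0 (show 0 ≤ 1 - q by linarith only [q1])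
        calc L * ((1 - q) * |s - t|) = (1 - q) * (L * |s - t|) := by ring
          _ ≤ (1 - q) * ((k + 1) * (r / 10)) := this
          _ = r / 10 := by rw [← mul_assoc, q2, one_mul]
      have b2 : L * (q * |s - t|) ≤ k * (r / 10) := by
        have := mul_le_mul_of_nonneg_left h0 q0
        calc L * (q * |s - t|) = q * (L * |s - t|) := by ring
          _ ≤ q * ((k + 1) * (r / 10)) := this
          _ = k * (r / 10) := by rw [hq]; field_simp
      have a1 := ih _ hu (by rw [e1]; exact b2)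
      have a2 := h.2 _ hu t ht (by rw [e2]; exact b1)
      rw [e1] at a1
      rw [e2] at a2
      linarith only [a1, a2, dist_triangle (c s) (c (s + q * (t - s))) (c t)]
  obtain ⟨k, hk⟩ := exists_nat_ge (L * |s - t| / (r / 10))
  exact key k t ht ((div_le_iff₀ (by linarith only [hr])).mp hk)

theorem IsLoc.NAMet1_mid {L : ℝ} {c : ℝ → X} (h : IsLoc r L c) {u e : ℝ} (hu : 0 ≤ u)
    (he : 0 ≤ e) (h1 : u + 2 * e ≤ 1) (hL : L * (2 * e) ≤ r / 10) :
    IsMid (c u) (c (u + 2 * e)) (c (u + e)) ∧ dist (c u) (c (u + 2 * e)) ≤ r / 10 := by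
  have hLe : 0 ≤ L * e := mul_nonneg h.1 he
  have a1 : |u - (u + 2 * e)| = 2 * e := by
    rw [show u - (u + 2 * e) = -(2 * e) by ring, abs_neg, abs_of_nonneg (by linarith only [he])]
  have a2 : |u - (u + e)| = e := by
    rw [show u - (u + e) = -e by ring, abs_neg, abs_of_nonneg he]
  have a3 : |u + 2 * e - (u + e)| = e := by
    rw [show u + 2 * e - (u + e) = e by ring, abs_of_nonneg he]
  have b1 := h.2 u ⟨hu, by linarith only [he, h1]⟩ (u + 2 * e) ⟨by linarith, h1⟩ (by rw [a1]; exact hL)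
  have b2 := h.2 u ⟨hu, by linarith⟩ (u + e) ⟨by linarith, by linarith⟩ (by rw [a2]; linarith only [hL, hLe])
  have b3 := h.2 (u + 2 * e) ⟨by linarith only [hu, he], h1⟩ (u + e) ⟨by linarith, by linarith only [he, h1]⟩
    (by rw [a3]; linarith only [hL, hLe])
  rw [a1] at b1
  rw [a2] at b2
  rw [a3] at b3
  exact ⟨⟨by rw [b1, b2]; ring, by rw [b1, b3]; ring⟩, by rw [b1]; exact hL⟩

/-- close local geodesics with the same origin -/
theorem LocCN.loc_close (h : LocCN X r) {L L' : ℝ} {c c' : ℝ → X} (hc : IsLoc r L c)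
    (hc' : IsLoc r L' c') (h0 : c 0 = c' 0)
    (hd : ∀ t ∈ Set.Icc (0 : ℝ) 1, dist (c t) (c' t) ≤ r / 5) :
    (∀ t ∈ Set.Icc (0 : ℝ) 1, dist (c t) (c' t) ≤ dist (c 1) (c' 1)) ∧
      L' ≤ L + dist (c 1) (c' 1) := by
  have hr := h.pos
  have hL := hc.1
  have hL' := hc'.1
  have f1 : 0 ≤ dist (c 1) (c' 1) := dist_nonneg
  have key : ∀ t ∈ Set.Icc (0 : ℝ) 1, dist (c t) (c' t) ≤ t * dist (c 1) (c' 1) := by
    intro t ht
    refine le_of_forall_pos_le_add fun ε hε => ?_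
    obtain ⟨N, hN⟩ := exists_nat_gt ((L + L') * 20 / r + (L + L') / ε)
    have p1 : 0 ≤ (L + L') * 20 / r := by positivity
    have p2 : 0 ≤ (L + L') / ε := by positivity
    have hN0 : (0 : ℝ) < N := by linarith only [hN, p1, p2]
    have n1 : (L + L') * (2 * (1 / N)) ≤ r / 10 := by
      have : (L + L') * 20 ≤ N * r := (div_le_iff₀ hr).mp (by linarith only [hN, p2])
      rw [show (L + L') * (2 * (1 / N)) = (L + L') * 2 / N by ring, div_le_iff₀ hN0]
      linarith only [this]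
    have n2 : (L + L') * (1 / N) ≤ ε := by
      have : L + L' ≤ N * ε := (div_le_iff₀ hε).mp (by linarith only [hN, p1])
      rw [mul_one_div, div_le_iff₀ hN0]
      linarith only [this]
    have e0 : (0 : ℝ) ≤ 1 / N := by positivity
    have conv := disc_convex (fun i : ℕ => dist (c (i / N)) (c' (i / N))) N (by
      intro i hi
      have hi' : (i : ℝ) + 2 ≤ N := by exact_mod_cast hi
      have u0 : (0 : ℝ) ≤ i / N := by positivity
      have u1 : (i : ℝ) / N + 2 * (1 / N) ≤ 1 := by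
        rw [show (i : ℝ) / N + 2 * (1 / N) = (i + 2) / N by ring, div_le_one hN0]; exact hi'
      obtain ⟨m1, d1⟩ := hc.NAMet1_mid u0 e0 u1 (by linarith only [n1, hL', e0, mul_nonneg_of_nonpos_of_nonpos (Mathlib.Tactic.Linarith.sub_nonpos_of_le hL') (Mathlib.Tactic.Linarith.sub_nonpos_of_le e0)])
      obtain ⟨m2, -⟩ := hc'.NAMet1_mid u0 e0 u1 (by linarith only [n1, hL, e0, mul_nonneg_of_nonpos_of_nonpos (Mathlib.Tactic.Linarith.sub_nonpos_of_le hL) (Mathlib.Tactic.Linarith.sub_nonpos_of_le e0)])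
      have g1 := hd (i / N) ⟨u0, by linarith only [e0, u1]⟩
      have g2 := hd (i / N + 2 * (1 / N)) ⟨by linarith only [e0, u0], u1⟩
      have := h.mid_convex m1 m2 (by linarith only [hr, d1]) (by linarith only [hr, g1]) (by linarith only [hr, g2])
      have x1 : ((i + 1 : ℕ) : ℝ) / N = i / N + 1 / N := by push_cast; ring
      have x2 : ((i + 2 : ℕ) : ℝ) / N = i / N + 2 * (1 / N) := by push_cast; ring
      simp only [x1, x2]
      exact this)
    set i := ⌊t * N⌋₊ with hi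
    have i1 : (i : ℝ) ≤ t * N := Nat.floor_le (mul_nonneg ht.1 hN0.le)
    have i2 : t * N < i + 1 := Nat.lt_floor_add_one _
    have i3 : (i : ℝ) ≤ N := by linarith only [i1, ht, ht.2, mul_nonneg_of_nonpos_of_nonpos (Mathlib.Tactic.Linarith.sub_nonpos_of_le (Mathlib.Tactic.Linarith.natCast_nonneg ℝ N)) (Mathlib.Tactic.Linarith.sub_nonpos_of_le ht.right)]
    have c1 := conv i (by exact_mod_cast i3)
    simp only [Nat.cast_zero, zero_div, h0, dist_self, mul_zero, zero_add, div_self hN0.ne'] at c1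
    have c2 : dist (c (i / N)) (c' (i / N)) ≤ t * dist (c 1) (c' 1) := by
      refine le_of_mul_le_mul_left (c1.trans ?_) hN0
      linarith only [f1, i1, mul_nonneg_of_nonpos_of_nonpos (Mathlib.Tactic.Linarith.sub_nonpos_of_le f1) (Mathlib.Tactic.Linarith.sub_nonpos_of_le i1)]
    have hq : (i : ℝ) / N ∈ Set.Icc (0 : ℝ) 1 := ⟨by positivity, (div_le_one hN0).mpr i3⟩
    have ab : |t - i / N| ≤ 1 / N := by
      rw [show t - i / N = (t * N - i) / N by field_simp, abs_div, abs_of_pos hN0,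
        abs_of_nonneg (by linarith only [i1])]
      gcongr
      linarith only [i2]
    have d1 := hc.dist_le hr ht hq
    have d2 := hc'.dist_le hr ht hq
    have d3 := mul_le_mul_of_nonneg_left ab hL
    have d4 := mul_le_mul_of_nonneg_left ab hL'
    linarith only [n2, c2, d1, d2, d3, d4, dist_triangle4 (c t) (c (i / N)) (c' (i / N)) (c' t), dist_comm (c' t) (c' (i / N))]
  refine ⟨fun t ht => (key t ht).trans (by linarith only [f1, ht, ht.1, ht.2, mul_nonneg_of_nonpos_of_nonpos (Mathlib.Tactic.Linarith.sub_nonpos_of_le f1) (Mathlib.Tactic.Linarith.sub_nonpos_of_le ht.right)]), ?_⟩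
  set t : ℝ := min 1 (r / 10 / (L' + 1)) with ht
  have t0 : 0 < t := lt_min one_pos (by positivity)
  have t1 : t ∈ Set.Icc (0 : ℝ) 1 := ⟨t0.le, min_le_left _ _⟩
  have t2 : t * (L' + 1) ≤ r / 10 := (le_div_iff₀ (by linarith)).mp (min_le_right _ _)
  have z0 : (0 : ℝ) ∈ Set.Icc (0 : ℝ) 1 := ⟨le_rfl, zero_le_one⟩
  have ab : |0 - t| = t := by rw [zero_sub, abs_neg, abs_of_pos t0]
  have a1 := hc'.2 0 z0 t t1 (by rw [ab]; linarith only [t0, t2])
  have a2 := hc.dist_le hr z0 t1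
  have a3 := key t t1
  rw [ab] at a1 a2
  rw [h0] at a2
  have a4 := dist_triangle (c' 0) (c t) (c' t)
  refine le_of_mul_le_mul_left (a := t) (by linarith only [a1, a2, a3, a4]) t0

end Pool.Agent.Work.MP_0909b4_al.NA
end

-- merged part: Pool.Agent.Work.MP_0909b4_al.NAMet2
section
/-! Moving the end point of a local geodesic.

Plan.
* `exists_disc`: minimise the energy `∑ dist (z i) (z (i+1)) ^ 2` over the compact set of
  `z : Fin (N+1) → X` with `z 0 = c 0`, `z N = y`, `z i ∈ closedBall (c (i/N)) (r/20)`. Replacing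
  `z (i+1)` by a midpoint `m` of `z i, z (i+2)` stays in the set (`mid_convex`, as `c ((i+1)/N)` is
  a midpoint of its neighbours); minimality and CN seen from `z (i+1)` force `z (i+1) = m`.
  `g i = dist (z i) (c (i/N))` is discretely convex with `g 0 = 0`, so `g 1 ≤ r / (20 N)`.
* `short_geod`: dyadic midpoints and completeness of the compact ball (or an Arzela-Ascoli type
  limit, for instance with an ultrafilter, of the discrete geodesics).
* `exists_loc`: take `N` large, join consecutive `z i` by short geodesics; `disc_geod` shows that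
  the result is a local geodesic of speed `N s`; it is `r/5`-close to `c`, then use `loc_close`.
-/

namespace Pool.Agent.Work.MP_0909b4_al.NA

variable {X : Type} [MetricSpace X] {r : ℝ}

open Filter Topology

theorem NAMet2_mid {x y m : X}
    (h : dist x m ^ 2 + dist m y ^ 2 ≤ (dist x y / 2) ^ 2 + (dist x y / 2) ^ 2) : IsMid x y m := by
  have h1 := dist_triangle x m y
  have h2 := dist_nonneg (x := x) (y := m)
  have h3 := dist_nonneg (x := m) (y := y)
  have h4 := dist_nonneg (x := x) (y := y)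
  have h5 : (dist x m - dist x y / 2) ^ 2 + (dist m y - dist x y / 2) ^ 2 ≤ 0 := by linarith only [h, h1, h4, mul_nonneg_of_nonpos_of_nonpos (Mathlib.Tactic.Linarith.sub_nonpos_of_le h1) (Mathlib.Tactic.Linarith.sub_nonpos_of_le h4)]
  have h6 : dist x m - dist x y / 2 = 0 := by
    nlinarith [sq_nonneg (dist x m - dist x y / 2), sq_nonneg (dist m y - dist x y / 2)]
  have h7 : dist m y - dist x y / 2 = 0 := by
    nlinarith [sq_nonneg (dist x m - dist x y / 2), sq_nonneg (dist m y - dist x y / 2)]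
  exact ⟨by linarith only [h6], by rw [dist_comm]; linarith only [h1, h6, h7]⟩

theorem NAMet2_grid {N i : ℕ} (hi : i ≤ N) : ((i : ℝ) / N) ∈ Set.Icc (0 : ℝ) 1 :=
  ⟨by positivity, div_le_one_of_le₀ (by exact_mod_cast hi) (Nat.cast_nonneg _)⟩

theorem NAMet2_step {L : ℝ} {c : ℝ → X} (hc : IsLoc r L c) {N : ℕ} (hL : L / N ≤ r / 20)
    (i k : ℕ) (hk : k ≤ 2) (hi : i + k ≤ N) :
    dist (c (i / N)) (c ((i + k : ℕ) / N)) = k * (L / N) := by
  have h0 : 0 ≤ L / N := div_nonneg hc.1 (Nat.cast_nonneg _)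
  have e : L * |(i : ℝ) / N - ((i + k : ℕ) : ℝ) / N| = k * (L / N) := by
    rw [abs_sub_comm, ← sub_div, Nat.cast_add, add_sub_cancel_left, abs_of_nonneg (by positivity)]
    ring
  have hk' : (k : ℝ) ≤ 2 := by exact_mod_cast hk
  rw [hc.2 _ (NAMet2_grid (by omega)) _ (NAMet2_grid hi) (by rw [e]; linarith only [hL, h0, hk', mul_nonneg_of_nonpos_of_nonpos (Mathlib.Tactic.Linarith.sub_nonpos_of_le h0) (Mathlib.Tactic.Linarith.sub_nonpos_of_le hk')]), e]

theorem LocCN.exists_disc (h : LocCN X r) {L : ℝ} {c : ℝ → X} (hc : IsLoc r L c) (y : X)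
    (hy : dist (c 1) y ≤ r / 20) (N : ℕ) (hN : 0 < N) (hL : L / N ≤ r / 20) :
    ∃ (z : ℕ → X) (s : ℝ), z 0 = c 0 ∧ z N = y ∧ (∀ i, i ≤ N → dist (z i) (c (i / N)) ≤ r / 20) ∧
      (∀ i, i < N → dist (z i) (z (i + 1)) = s) ∧
      (∀ i, i + 2 ≤ N → IsMid (z i) (z (i + 2)) (z (i + 1))) ∧ N * s ≤ L + r / 20 := by
  classical
  have hr := h.pos
  have hN' : (0 : ℝ) < N := by exact_mod_cast hN
  set w : ℕ → X := fun i => c (i / N) with hw
  have hw0 : w 0 = c 0 := by simp [hw]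
  have hwN : w N = c 1 := by simp [hw, hN'.ne']
  have hw1 : ∀ i, i + 1 ≤ N → dist (w i) (w (i + 1)) = L / N := fun i hi => by
    simpa [hw] using NAMet2_step hc hL i 1 one_le_two hi
  have hw2 : ∀ i, i + 2 ≤ N → dist (w i) (w (i + 2)) = 2 * (L / N) := fun i hi => by
    simpa [hw] using NAMet2_step hc hL i 2 le_rfl hi
  have hwm : ∀ i, i + 2 ≤ N → IsMid (w i) (w (i + 2)) (w (i + 1)) := fun i hi =>
    ⟨by rw [hw1 i (by omega), hw2 i hi]; ring,
      by rw [dist_comm, hw1 (i + 1) hi, hw2 i hi]; ring⟩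
  set S : ℕ → Set X := fun i =>
    if i = 0 then {c 0} else if N ≤ i then {y} else Metric.closedBall (w i) (r / 20) with hS
  have hSc : ∀ i, IsCompact (S i) := fun i => by
    simp only [hS]
    split_ifs
    · exact isCompact_singleton
    · exact isCompact_singleton
    · exact (h.cpt _).of_isClosed_subset Metric.isClosed_closedBall
        (Metric.closedBall_subset_closedBall (by linarith only [hr]))
  have hSn : ∀ i, (S i).Nonempty := fun i => by
    simp only [hS]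
    split_ifs
    · exact Set.singleton_nonempty _
    · exact Set.singleton_nonempty _
    · exact ⟨_, Metric.mem_closedBall_self (by positivity)⟩
  have hE : Continuous fun z : ℕ → X => ∑ i ∈ Finset.range N, dist (z i) (z (i + 1)) ^ 2 := by
    fun_prop
  obtain ⟨z, hz, hmin⟩ := (isCompact_univ_pi hSc).exists_isMinOn (Set.univ_pi_nonempty_iff.2 hSn)
    hE.continuousOn
  have hz0 : z 0 = c 0 := by simpa [hS] using hz 0 trivial
  have hzN : z N = y := by simpa [hS, hN.ne'] using hz N trivial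
  have hzw : ∀ i, i ≤ N → dist (w i) (z i) ≤ r / 20 := fun i hi => by
    rcases Nat.eq_zero_or_pos i with rfl | h0
    · rw [hw0, hz0, dist_self]; positivity
    · rcases hi.eq_or_lt with rfl | hi'
      · rw [hwN, hzN]; exact hy
      · have := hz i trivial
        simp only [hS, if_neg h0.ne', if_neg (not_le.2 hi')] at this
        rw [dist_comm]; exact this
  have hcv : ∀ i, i + 2 ≤ N → ∀ m, IsMid (z i) (z (i + 2)) m →
      dist (w (i + 1)) m ≤ (dist (w i) (z i) + dist (w (i + 2)) (z (i + 2))) / 2 :=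
    fun i hi m hm => h.mid_convex (hwm i hi) hm (by rw [hw2 i hi]; linarith only [hL, hr])
      ((hzw i (by omega)).trans (by linarith only [hr])) ((hzw _ hi).trans (by linarith only [hr]))
  have hzm : ∀ i, i + 2 ≤ N → IsMid (z i) (z (i + 2)) (z (i + 1)) := fun i hi => by
    have h1 := hzw i (by omega)
    have h2 := hzw _ hi
    have h3 : dist (z i) (z (i + 2)) ≤ r := by
      have := dist_triangle4 (z i) (w i) (w (i + 2)) (z (i + 2))
      rw [hw2 i hi, dist_comm (z i) (w i)] at this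
      linarith only [hL, hr, h1, h2, this]
    obtain ⟨m, hm1, hm2, -⟩ := h.mid _ _ h3
    have h4 := hcv i hi m ⟨hm1, hm2⟩
    have h5 : Function.update z (i + 1) m ∈ Set.univ.pi S := fun j _ => by
      rcases eq_or_ne j (i + 1) with rfl | hj
      · simp only [hS, Function.update_self, if_neg (Nat.succ_ne_zero i),
          if_neg (show ¬ N ≤ i + 1 by omega), Metric.mem_closedBall]
        rw [dist_comm]; linarith only [h1, h2, h4]
      · rw [Function.update_of_ne hj]; exact hz j trivial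
    have h6 : ∑ j ∈ Finset.range N, dist (z j) (z (j + 1)) ^ 2 ≤ ∑ j ∈ Finset.range N,
        dist (Function.update z (i + 1) m j) (Function.update z (i + 1) m (j + 1)) ^ 2 := hmin h5
    rw [← sub_nonneg, ← Finset.sum_sub_distrib, Finset.sum_eq_add_of_mem i (i + 1)
      (Finset.mem_range.2 (by omega)) (Finset.mem_range.2 (by omega)) (by omega) (fun j _ hj => by
        rw [Function.update_of_ne hj.2, Function.update_of_ne (by omega), sub_self]),
      Function.update_self, Function.update_of_ne (by omega), Function.update_of_ne (by omega),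
      hm1, dist_comm m, hm2] at h6
    exact NAMet2_mid (by linarith only [h6])
  have hs : ∀ i, i < N → dist (z i) (z (i + 1)) = dist (z 0) (z 1) := fun i => by
    induction i with
    | zero => exact fun _ => rfl
    | succ i ih =>
      intro hi
      have := hzm i hi
      rw [← ih (by omega), this.1, dist_comm, this.2]
  refine ⟨z, dist (z 0) (z 1), hz0, hzN, fun i hi => by rw [dist_comm]; exact hzw i hi, hs, hzm, ?_⟩
  have h1 := disc_convex (fun i => dist (w i) (z i)) N (fun i hi => hcv i hi _ (hzm i hi)) 1 hN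
  simp only [hw0, hz0, dist_self, mul_zero, Nat.cast_one, one_mul, zero_add] at h1
  have h2 := dist_triangle (z 0) (w 1) (z 1)
  have h3 := hw1 0 hN
  rw [hw0, ← hz0, zero_add] at h3
  have h4 := hzw N le_rfl
  have h5 : N * (L / N) = L := by field_simp
  linarith only [h1, h4, h5, h2, h3, mul_nonneg_of_nonpos_of_nonpos (Mathlib.Tactic.Linarith.sub_nonpos_of_le (Mathlib.Tactic.Linarith.natCast_nonneg ℝ N)) (Mathlib.Tactic.Linarith.sub_nonpos_of_le h2), Mathlib.Tactic.Linarith.mul_zero_eq (Mathlib.Tactic.Linarith.sub_nonpos_of_le (Mathlib.Tactic.Linarith.natCast_nonneg ℝ N)) (sub_eq_zero_of_eq h3)]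

theorem NAMet2_lim {Z : Type} [TopologicalSpace Z] (U : Ultrafilter ℕ) {γ : ℕ → Z} {K : Set Z}
    (hK : IsCompact K) (h : ∀ᶠ n in U, γ n ∈ K) : ∃ p, Tendsto γ U (𝓝 p) := by
  obtain ⟨p, -, hp⟩ := hK.ultrafilter_le_nhds (U.map γ) (le_principal_iff.2 h)
  exact ⟨p, hp⟩

theorem NAMet2_floor {t : ℝ} (ht : t ∈ Set.Icc (0 : ℝ) 1) :
    Tendsto (fun N : ℕ => (⌊t * N⌋₊ : ℝ) / N) atTop (𝓝 t) :=
  (tendsto_nat_floor_mul_div_atTop ht.1).comp tendsto_natCast_atTop_atTop

theorem NAMet2_floor_le {t : ℝ} (ht : t ∈ Set.Icc (0 : ℝ) 1) (N : ℕ) : ⌊t * N⌋₊ ≤ N :=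
  Nat.floor_le_of_le (mul_le_of_le_one_left (Nat.cast_nonneg _) ht.2)

theorem NAMet2_chain (h : LocCN X r) (n : ℕ) : ∀ x y : X, dist x y ≤ r → ∃ z : ℕ → X, z 0 = x ∧
    z (2 ^ n) = y ∧ ∀ k, k < 2 ^ n → dist (z k) (z (k + 1)) ≤ dist x y / 2 ^ n := by
  induction n with
  | zero =>
    intro x y _
    refine ⟨fun k => if k = 0 then x else y, by simp, by simp, fun k hk => ?_⟩
    obtain rfl : k = 0 := by omega
    simp
  | succ n ih =>
    intro x y hxy
    have hr := h.pos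
    obtain ⟨m, hm1, hm2, -⟩ := h.mid x y hxy
    rw [dist_comm] at hm2
    obtain ⟨z1, h10, h11, h1⟩ := ih x m (by linarith only [hxy, hr, hm1])
    obtain ⟨z2, h20, h21, h2⟩ := ih m y (by linarith only [hxy, hr, hm2])
    have hp : 0 < 2 ^ n := by positivity
    have e : dist x y / 2 / 2 ^ n = dist x y / 2 ^ (n + 1) := by ring
    refine ⟨fun k => if k < 2 ^ n then z1 k else z2 (k - 2 ^ n), by simp [hp, h10], ?_,
      fun k hk => ?_⟩
    · have : 2 ^ (n + 1) - 2 ^ n = 2 ^ n := by omega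
      simp only [if_neg (show ¬ 2 ^ (n + 1) < 2 ^ n by omega), this, h21]
    · by_cases h3 : k < 2 ^ n
      · have h4 := h1 k h3
        rw [hm1, e] at h4
        by_cases h5 : k + 1 < 2 ^ n
        · simpa only [if_pos h3, if_pos h5] using h4
        · have h6 : k + 1 = 2 ^ n := by omega
          simp only [if_pos h3, if_neg h5]
          rwa [h6, Nat.sub_self, h20, ← h11, ← h6]
      · have h4 := h2 (k - 2 ^ n) (by omega)
        rw [hm2, e] at h4
        simp only [if_neg h3, if_neg (show ¬ k + 1 < 2 ^ n by omega)]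
        rwa [show k + 1 - 2 ^ n = k - 2 ^ n + 1 by omega]

theorem LocCN.short_geod (h : LocCN X r) {x y : X} (hxy : dist x y ≤ r) :
    ∃ c, IsGeod c x y := by
  choose z hz0 hz1 hz using fun n => NAMet2_chain h n x y hxy
  have hD := dist_nonneg (x := x) (y := y)
  have hd : ∀ n i j, i ≤ j → j ≤ 2 ^ n → dist (z n i) (z n j) ≤
      ((j : ℝ) / (2 ^ n : ℕ) - i / (2 ^ n : ℕ)) * dist x y := fun n i j hij hj => by
    have := dist_le_Ico_sum_of_dist_le (f := z n) hij (d := fun _ => dist x y / 2 ^ n)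
      fun {k} _ hk => hz n k (by omega)
    rw [Finset.sum_const, Nat.card_Ico, nsmul_eq_mul, Nat.cast_sub hij] at this
    refine this.trans_eq ?_
    push_cast
    ring
  set U : Ultrafilter ℕ := Ultrafilter.of atTop with hU
  have hU' : (U : Filter ℕ) ≤ atTop := Ultrafilter.of_le _
  have hq : ∀ t ∈ Set.Icc (0 : ℝ) 1,
      Tendsto (fun n : ℕ => (⌊t * (2 ^ n : ℕ)⌋₊ : ℝ) / (2 ^ n : ℕ)) U (𝓝 t) := fun t ht =>
    ((NAMet2_floor ht).comp (tendsto_pow_atTop_atTop_of_one_lt one_lt_two)).mono_left hU'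
  have hlim : ∀ t : ℝ, ∃ p, t ∈ Set.Icc (0 : ℝ) 1 →
      Tendsto (fun n => z n ⌊t * (2 ^ n : ℕ)⌋₊) U (𝓝 p) := fun t => by
    by_cases ht : t ∈ Set.Icc (0 : ℝ) 1
    · obtain ⟨p, hp⟩ := NAMet2_lim U (γ := fun n => z n ⌊t * (2 ^ n : ℕ)⌋₊) (h.cpt x)
        (Eventually.of_forall fun n => by
          have h1 := hd n 0 _ (Nat.zero_le _) (NAMet2_floor_le ht _)
          have h2 := (NAMet2_grid (NAMet2_floor_le ht (2 ^ n))).2
          rw [hz0, Nat.cast_zero, zero_div, sub_zero] at h1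
          rw [Metric.mem_closedBall, dist_comm]
          linarith only [hxy, h1, hD, h2, mul_nonneg_of_nonpos_of_nonpos (Mathlib.Tactic.Linarith.sub_nonpos_of_le hD) (Mathlib.Tactic.Linarith.sub_nonpos_of_le h2)])
      exact ⟨p, fun _ => hp⟩
    · exact ⟨x, fun h' => absurd h' ht⟩
  choose c hc using hlim
  have h0 : (0 : ℝ) ∈ Set.Icc (0 : ℝ) 1 := ⟨le_rfl, zero_le_one⟩
  have h1 : (1 : ℝ) ∈ Set.Icc (0 : ℝ) 1 := ⟨zero_le_one, le_rfl⟩
  have hc0 : c 0 = x := tendsto_nhds_unique (hc 0 h0) (by simp [hz0])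
  have hc1 : c 1 = y := tendsto_nhds_unique (hc 1 h1) (by
    simp only [one_mul, Nat.floor_natCast, hz1, tendsto_const_nhds])
  have hle : ∀ s ∈ Set.Icc (0 : ℝ) 1, ∀ t ∈ Set.Icc (0 : ℝ) 1, s ≤ t →
      dist (c s) (c t) ≤ (t - s) * dist x y := fun s hs t ht hst =>
    le_of_tendsto_of_tendsto' ((hc s hs).dist (hc t ht)) (((hq t ht).sub (hq s hs)).mul_const _)
      fun n => hd n _ _ (Nat.floor_mono (mul_le_mul_of_nonneg_right hst (Nat.cast_nonneg _)))
        (NAMet2_floor_le ht _)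
  have heq : ∀ s ∈ Set.Icc (0 : ℝ) 1, ∀ t ∈ Set.Icc (0 : ℝ) 1, s ≤ t →
      dist (c s) (c t) = |s - t| * dist x y := fun s hs t ht hst => by
    have h2 := hle 0 h0 s hs hs.1
    have h3 := hle t ht 1 h1 ht.2
    have h4 := hle s hs t ht hst
    have h5 := dist_triangle4 (c 0) (c s) (c t) (c 1)
    rw [hc0, hc1] at *
    rw [abs_sub_comm, abs_of_nonneg (sub_nonneg.2 hst)]
    linarith only [h2, h3, h5, h4]
  refine ⟨c, hc0, hc1, fun s hs t ht => ?_⟩
  rcases le_total s t with hst | hst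
  · exact heq s hs t ht hst
  · rw [dist_comm, abs_sub_comm]
    exact heq t ht s hs hst

theorem LocCN.exists_loc (h : LocCN X r) {L : ℝ} {c : ℝ → X} (hc : IsLoc r L c) (y : X)
    (hy : dist (c 1) y ≤ r / 20) : ∃ (L' : ℝ) (c' : ℝ → X), IsLoc r L' c' ∧ c' 0 = c 0 ∧ c' 1 = y ∧
      ∀ t ∈ Set.Icc (0 : ℝ) 1, dist (c t) (c' t) ≤ r / 20 := by
  have hr := h.pos
  have hex : ∀ N : ℕ, ∃ (z : ℕ → X) (s : ℝ), 0 < N ∧ L / N ≤ r / 20 →
      z 0 = c 0 ∧ z N = y ∧ (∀ i, i ≤ N → dist (z i) (c (i / N)) ≤ r / 20) ∧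
      (∀ i, i < N → dist (z i) (z (i + 1)) = s) ∧
      (∀ i, i + 2 ≤ N → IsMid (z i) (z (i + 2)) (z (i + 1))) ∧ N * s ≤ L + r / 20 := fun N => by
    by_cases hN : 0 < N ∧ L / N ≤ r / 20
    · obtain ⟨z, s, h'⟩ := h.exists_disc hc y hy N hN.1 hN.2
      exact ⟨z, s, fun _ => h'⟩
    · exact ⟨fun _ => y, 0, fun h' => absurd h' hN⟩
  choose z σ hz using hex
  set U : Ultrafilter ℕ := Ultrafilter.of atTop with hU
  have hU' : (U : Filter ℕ) ≤ atTop := Ultrafilter.of_le _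
  have hev : ∀ᶠ N : ℕ in U, 0 < N ∧ L / N ≤ r / 20 :=
    hU' ((eventually_gt_atTop 0).and ((tendsto_const_div_atTop_nhds_zero_nat L).eventually
      (eventually_le_nhds (by positivity))))
  have hq : ∀ t ∈ Set.Icc (0 : ℝ) 1, Tendsto (fun N : ℕ => (⌊t * N⌋₊ : ℝ) / N) U (𝓝 t) :=
    fun t ht => (NAMet2_floor ht).mono_left hU'
  have hb : ∀ t ∈ Set.Icc (0 : ℝ) 1, ∀ᶠ N : ℕ in U,
      dist (c t) (z N ⌊t * N⌋₊) ≤ L * |t - (⌊t * N⌋₊ : ℝ) / N| + r / 20 := fun t ht => by
    filter_upwards [hev] with N hN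
    have h1 := (hz N hN).2.2.1 _ (NAMet2_floor_le ht N)
    have h2 := hc.dist_le hr ht (NAMet2_grid (NAMet2_floor_le ht N))
    have h3 := dist_triangle_right (c t) (z N ⌊t * N⌋₊) (c (⌊t * N⌋₊ / N))
    linarith only [h1, h2, h3]
  have hb' : ∀ t ∈ Set.Icc (0 : ℝ) 1,
      Tendsto (fun N : ℕ => L * |t - (⌊t * N⌋₊ : ℝ) / N| + r / 20) U (𝓝 (r / 20)) := fun t ht => by
    have := (((hq t ht).const_sub t).abs.const_mul L).add_const (r / 20)
    simpa using this
  have hlim : ∀ t : ℝ, ∃ p, t ∈ Set.Icc (0 : ℝ) 1 →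
      Tendsto (fun N => z N ⌊t * N⌋₊) U (𝓝 p) := fun t => by
    by_cases ht : t ∈ Set.Icc (0 : ℝ) 1
    · obtain ⟨p, hp⟩ := NAMet2_lim U (γ := fun N => z N ⌊t * N⌋₊) (h.cpt (c t)) (by
        filter_upwards [hb t ht, (hb' t ht).eventually (eventually_le_nhds
          (show r / 20 < r by linarith only [hr]))] with N h1 h2
        rw [Metric.mem_closedBall, dist_comm]
        exact h1.trans h2)
      exact ⟨p, fun _ => hp⟩
    · exact ⟨y, fun h' => absurd h' ht⟩
  choose c' hc' using hlim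
  have hIcc : ∀ᶠ N : ℕ in U, N * σ N ∈ Set.Icc 0 (L + r / 20) := by
    filter_upwards [hev] with N hN
    refine ⟨mul_nonneg (Nat.cast_nonneg _) ?_, (hz N hN).2.2.2.2.2⟩
    rw [← (hz N hN).2.2.2.1 0 hN.1]
    exact dist_nonneg
  obtain ⟨L', hL'⟩ := NAMet2_lim U (γ := fun N : ℕ => N * σ N) isCompact_Icc hIcc
  have heq : ∀ s ∈ Set.Icc (0 : ℝ) 1, ∀ t ∈ Set.Icc (0 : ℝ) 1, s ≤ t → L' * |s - t| ≤ r / 10 →
      dist (c' s) (c' t) = L' * |s - t| := fun s hs t ht hst hl => by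
    rw [abs_sub_comm, abs_of_nonneg (sub_nonneg.2 hst)] at hl ⊢
    have h1 := hL'.mul ((hq t ht).sub (hq s hs))
    refine tendsto_nhds_unique ((hc' s hs).dist (hc' t ht)) (h1.congr' ?_)
    filter_upwards [hev, h1.eventually (eventually_le_nhds
      (show L' * (t - s) < r / 2 by linarith only [hr, hl]))] with N hN h2
    have hN' : (N : ℝ) ≠ 0 := by exact_mod_cast hN.1.ne'
    have e : N * σ N * ((⌊t * N⌋₊ : ℝ) / N - (⌊s * N⌋₊ : ℝ) / N) =
        ((⌊t * N⌋₊ : ℝ) - (⌊s * N⌋₊ : ℝ)) * σ N := by field_simp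
    rw [e] at h2 ⊢
    exact (h.disc_geod (z N) N (σ N) (hz N hN).2.2.2.1 (hz N hN).2.2.2.2.1 _ _
      (Nat.floor_mono (mul_le_mul_of_nonneg_right hst (Nat.cast_nonneg _)))
      (NAMet2_floor_le ht N) h2).symm
  refine ⟨L', c', ⟨ge_of_tendsto hL' (hIcc.mono fun N hN => hN.1), fun s hs t ht hl => ?_⟩,
    tendsto_nhds_unique (hc' 0 ⟨le_rfl, zero_le_one⟩) (tendsto_const_nhds.congr' ?_),
    tendsto_nhds_unique (hc' 1 ⟨zero_le_one, le_rfl⟩) (tendsto_const_nhds.congr' ?_),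
    fun t ht => le_of_tendsto_of_tendsto (tendsto_const_nhds.dist (hc' t ht)) (hb' t ht) (hb t ht)⟩
  · rcases le_total s t with hst | hst
    · exact heq s hs t ht hst hl
    · rw [dist_comm, abs_sub_comm]
      rw [abs_sub_comm] at hl
      exact heq t ht s hs hst hl
  · filter_upwards [hev] with N hN
    simp [(hz N hN).1]
  · filter_upwards [hev] with N hN
    simp [(hz N hN).2.1]

end Pool.Agent.Work.MP_0909b4_al.NA
end

-- merged part: Pool.Agent.Work.MP_0909b4_al.NASec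
section
/-! Local systems on metric spaces and their sections.

Plan.
* `hasSec_of_contraction`: choose `N` with `|D| / N ≤ ε / 4`, transport `e₀` along the points
  `H x₀ x (i / N)`; for close `x, y` a ladder argument with `T_comp`.
* `hasSec_convex`: `H x₀ x t = x₀ + (projIcc t) (x - x₀)`.
* `chain_segment`: the parameters of the segment in `C i` form a closed interval; go greedily, or
  take the supremum of the `t` with `R z (z + t (w - z))` and use finiteness twice.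
-/

namespace Pool.Agent.Work.MP_0909b4_al.NA

/-- a local system at scale `ε` on a set with a distance function -/
structure LocSys (Z : Type) [PseudoMetricSpace Z] (ε : ℝ) where
  E : Z → Type
  T : ∀ x y, dist x y ≤ ε → E x → E y
  T_self : ∀ x h e, T x x h e = e
  T_comp : ∀ x y z h₁ h₂ h₃ e, T y z h₂ (T x y h₁ e) = T x z h₃ e

/-- every local system has a global section with prescribed value at one point -/
def HasSec (Z : Type) [PseudoMetricSpace Z] : Prop :=
  ∀ ε : ℝ, 0 < ε → ∀ (L : LocSys Z ε) (x₀ : Z) (e₀ : L.E x₀), ∃ s : ∀ x, L.E x, s x₀ = e₀ ∧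
    ∀ x y (h : dist x y ≤ ε), dist x y ≤ ε / 4 → L.T x y h (s x) = s y

theorem NASec_steps (D : ℝ) {ε : ℝ} (hε : 0 < ε) : ∃ (t : ℕ → ℝ) (N : ℕ), t 0 = 0 ∧ t N = 1 ∧
    (∀ i, t i ∈ Set.Icc (0 : ℝ) 1) ∧ ∀ i, D * |t i - t (i + 1)| ≤ ε / 4 := by
  obtain ⟨N, hN⟩ := exists_nat_gt (|D| / (ε / 4))
  have h0 : (0 : ℝ) < N := lt_of_le_of_lt (by positivity) hN
  refine ⟨fun i => min (i / N) 1, N, by simp, by simp [div_self h0.ne'],
    fun i => ⟨le_min (by positivity) zero_le_one, min_le_right _ _⟩, fun i => ?_⟩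
  have h1 : |min ((i : ℝ) / N) 1 - min (((i + 1 : ℕ) : ℝ) / N) 1| ≤ 1 / N := by
    refine (abs_min_sub_min_le_max _ _ _ _).trans (max_le ?_ ?_)
    · rw [Nat.cast_succ, add_div, sub_add_cancel_left, abs_neg, abs_of_pos (by positivity)]
    · rw [sub_self, abs_zero]
      positivity
  rw [div_lt_iff₀ (by positivity)] at hN
  calc _ ≤ |D| * (1 / N) := mul_le_mul (le_abs_self D) h1 (abs_nonneg _) (abs_nonneg _)
    _ ≤ ε / 4 := by
      rw [mul_one_div, div_le_iff₀ h0]
      linarith only [hN]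

/-- transport along a chain of points -/
def NASec_tr {Z : Type} [PseudoMetricSpace Z] {ε : ℝ} (L : LocSys Z ε) (P : ℕ → Z)
    (hP : ∀ i, dist (P i) (P (i + 1)) ≤ ε) (e : L.E (P 0)) : ∀ i, L.E (P i)
  | 0 => e
  | i + 1 => L.T _ _ (hP i) (NASec_tr L P hP e i)

theorem hasSec_of_contraction {Z : Type} [PseudoMetricSpace Z] (D : ℝ)
    (H : Z → Z → ℝ → Z) (h0 : ∀ x₀ x, H x₀ x 0 = x₀) (h1 : ∀ x₀ x, H x₀ x 1 = x)
    (hc : ∀ x₀ t, H x₀ x₀ t = x₀)
    (hl : ∀ x₀ x y, ∀ s ∈ Set.Icc (0 : ℝ) 1, ∀ t ∈ Set.Icc (0 : ℝ) 1,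
      dist (H x₀ x s) (H x₀ y t) ≤ dist x y + D * |s - t|) : HasSec Z := by
  intro ε hε L x₀ e₀
  obtain ⟨t, N, t0, tN, tm, ts⟩ := NASec_steps D hε
  have d1 : ∀ x y i, dist x y ≤ ε / 4 → dist (H x₀ x (t i)) (H x₀ y (t (i + 1))) ≤ ε :=
    fun x y i h => by linarith only [hε, h, hl, tm, ts, hl x₀ x y _ (tm i) _ (tm (i + 1)), ts i]
  have d2 : ∀ x y i, dist x y ≤ ε / 4 → dist (H x₀ x (t i)) (H x₀ y (t i)) ≤ ε :=
    fun x y i h => by
      have := hl x₀ x y _ (tm i) _ (tm i)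
      rw [sub_self, abs_zero, mul_zero] at this
      linarith only [hε, h, this]
  have d0 : ∀ x : Z, dist x x ≤ ε / 4 := fun x => by
    rw [dist_self]
    positivity
  have d3 : ∀ x, dist x₀ (H x₀ x (t 0)) ≤ ε := fun x => by
    rw [t0, h0, dist_self]
    exact hε.le
  have d4 : ∀ x y, dist x y ≤ ε / 4 → dist (H x₀ x (t N)) y ≤ ε := fun x y h => by
    rw [tN, h1]
    linarith
  have d5 : ∀ i, dist (H x₀ x₀ (t i)) x₀ ≤ ε := fun i => by
    rw [hc, dist_self]
    exact hε.le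
  let a : ∀ x i, L.E (H x₀ x (t i)) := fun x =>
    NASec_tr L (fun i => H x₀ x (t i)) (fun i => d1 x x i (d0 x)) (L.T _ _ (d3 x) e₀)
  have a0 : ∀ x, a x 0 = L.T _ _ (d3 x) e₀ := fun _ => rfl
  have a1 : ∀ x i, a x (i + 1) = L.T _ _ (d1 x x i (d0 x)) (a x i) := fun _ _ => rfl
  have k1 : ∀ i, L.T _ _ (d5 i) (a x₀ i) = e₀ := fun i => by
    induction i with
    | zero => rw [a0, L.T_comp _ _ _ _ _ (by rw [dist_self]; exact hε.le), L.T_self]
    | succ i ih => rw [a1, L.T_comp _ _ _ _ _ (d5 i), ih]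
  have k2 : ∀ x y (h : dist x y ≤ ε / 4) i, L.T _ _ (d2 x y i h) (a x i) = a y i :=
    fun x y h i => by
      induction i with
      | zero => rw [a0, a0, L.T_comp _ _ _ _ _ (d3 y)]
      | succ i ih =>
        rw [a1, a1, ← ih, L.T_comp _ _ _ _ _ (d1 x y i h), L.T_comp _ _ _ _ _ (d1 x y i h)]
  refine ⟨fun x => L.T _ _ (d4 x x (d0 x)) (a x N), k1 N, fun x y h h' => ?_⟩
  dsimp only
  rw [← k2 x y h' N, L.T_comp _ _ _ _ _ (d4 x y h'), L.T_comp _ _ _ _ _ (d4 x y h')]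

theorem hasSec_convex {C : Set ℂ} (hC : Convex ℝ C) (hb : Bornology.IsBounded C) : HasSec C := by
  obtain ⟨D, hD⟩ := Metric.isBounded_iff.1 hb
  refine hasSec_of_contraction D (fun x₀ x t => ⟨x₀ + (Set.projIcc (0 : ℝ) 1 zero_le_one t : ℝ) •
    ((x : ℂ) - x₀), hC.add_smul_sub_mem x₀.2 x.2 (Set.projIcc (0 : ℝ) 1 zero_le_one t).2⟩)
    (fun x₀ x => Subtype.ext (by simp)) (fun x₀ x => Subtype.ext (by simp))
    (fun x₀ t => Subtype.ext (by simp)) fun x₀ x y s hs t ht => ?_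
  rw [Subtype.dist_eq, Subtype.dist_eq, Set.projIcc_of_mem _ hs, Set.projIcc_of_mem _ ht,
    dist_eq_norm, dist_eq_norm]
  have e : (x₀ : ℂ) + s • ((x : ℂ) - x₀) - (x₀ + t • ((y : ℂ) - x₀)) =
      s • ((x : ℂ) - y) + (s - t) • ((y : ℂ) - x₀) := by
    simp only [Complex.real_smul]
    push_cast
    ring
  have h1 := hD y.2 x₀.2
  rw [dist_eq_norm] at h1
  dsimp only
  rw [e]
  refine (norm_add_le _ _).trans (add_le_add ?_ ?_)
  · rw [norm_smul, Real.norm_of_nonneg hs.1]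
    exact mul_le_of_le_one_left (norm_nonneg _) hs.2
  · rw [norm_smul, Real.norm_eq_abs, mul_comm]
    exact mul_le_mul_of_nonneg_right h1 (abs_nonneg _)

/-- a 1-Lipschitz statement proved on the pieces of a finite closed cover of a segment -/
theorem chain_segment {ι : Type} [Finite ι] (C : ι → Set ℂ) (hcl : ∀ i, IsClosed (C i))
    (hcv : ∀ i, Convex ℝ (C i)) (R : ℂ → ℂ → Prop) (hR : ∀ i, ∀ z ∈ C i, ∀ w ∈ C i, R z w)
    (htr : ∀ z w u, w ∈ segment ℝ z u → R z w → R w u → R z u) (z w : ℂ)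
    (hcov : segment ℝ z w ⊆ ⋃ i, C i) : R z w := by
  classical
  have := Fintype.ofFinite ι
  have key : ∀ s : Finset ι, ∀ z, segment ℝ z w ⊆ ⋃ i ∈ s, C i → R z w := by
    intro s
    induction s using Finset.strongInduction with
    | H s ih =>
      intro z hz
      obtain ⟨i, hi, hzi⟩ := Set.mem_iUnion₂.1 (hz (left_mem_segment ℝ z w))
      let γ : ℝ →ᵃ[ℝ] ℂ := AffineMap.lineMap z w
      have hγ : Continuous γ := AffineMap.lineMap_continuous
      have γ0 : γ 0 = z := AffineMap.lineMap_apply_zero z w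
      have γ1 : γ 1 = w := AffineMap.lineMap_apply_one z w
      have hs : ∀ t ∈ Set.Icc (0 : ℝ) 1, γ t ∈ segment ℝ z w := fun t ht => by
        rw [segment_eq_image_lineMap]
        exact ⟨t, ht, rfl⟩
      obtain ⟨t, ⟨ht, hti⟩, hmax⟩ := (isCompact_Icc.inter_right ((hcl i).preimage hγ) :
        IsCompact (Set.Icc (0 : ℝ) 1 ∩ γ ⁻¹' C i)).exists_isGreatest
          ⟨0, ⟨le_rfl, zero_le_one⟩, by rwa [Set.mem_preimage, γ0]⟩
      have h1 : R z (γ t) := hR i z hzi _ hti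
      rcases ht.2.eq_or_lt with rfl | ht1
      · rwa [γ1] at h1
      refine htr z (γ t) w (hs t ht) h1 (ih (s.erase i) (Finset.erase_ssubset hi) _ ?_)
      rw [← γ1, ← image_segment, segment_eq_Icc ht.2, Set.image_subset_iff, ← closure_Ioc ht1.ne]
      refine closure_minimal (fun u hu => ?_)
        ((isClosed_biUnion_finset fun j _ => hcl j).preimage hγ)
      have hu' : u ∈ Set.Icc (0 : ℝ) 1 := ⟨ht.1.trans hu.1.le, hu.2⟩
      obtain ⟨j, hj, huj⟩ := Set.mem_iUnion₂.1 (hz (hs u hu'))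
      refine Set.mem_iUnion₂.2 ⟨j, Finset.mem_erase.2 ⟨?_, hj⟩, huj⟩
      rintro rfl
      exact absurd (hmax ⟨hu', huj⟩) (not_le.2 hu.1)
  exact key Finset.univ z (by simpa using hcov)

end Pool.Agent.Work.MP_0909b4_al.NA
end

-- merged part: Pool.Agent.Work.MP_0909b4_al.NAMet3
section
/-! Cartan-Hadamard: existence and continuity of geodesics.

Plan for `geod`. Fix `p`. Local system at scale `ε = r / 20`: `E x` = local geodesics from `p` to
`x` (normalised, for instance `c t = c (projIcc t)`, so that equality on `[0,1]` is equality);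
`T x y c` = the local geodesic from `p` to `y` given by `exists_loc`; it is the only one that is
`r/5`-close to `c` (`loc_close`), which gives `T_self` and `T_comp`. Let `s` be the section with
`s p` constant. Speeds satisfy `L (s y) ≤ L (s x) + dist x y` for close points, so `IsLen` gives
`L (s y) ≤ dist p y`, and `s y` is a geodesic (`IsLoc.dist_le`). Any geodesic `c` from `p` to `x`
is `s x`: `t ↦ c (τ t)` equals `s (c τ)` by induction along a fine grid of `τ`.
`proper`: a closed ball of radius `R + r/2` is covered by the `r`-balls around a finite `r/4`-net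
of the ball of radius `R`.
-/

namespace Pool.Agent.Work.MP_0909b4_al.NA

/-- any two points are joined by fine chains of almost minimal length -/
def IsLen (X : Type) [MetricSpace X] : Prop :=
  ∀ (x y : X) (η : ℝ), 0 < η → ∃ (N : ℕ) (z : ℕ → X), z 0 = x ∧ z N = y ∧
    (∀ i, i < N → dist (z i) (z (i + 1)) ≤ η) ∧
    ∑ i ∈ Finset.range N, dist (z i) (z (i + 1)) ≤ dist x y + η

variable {X : Type} [MetricSpace X] {r : ℝ}

/-- normalised local geodesics from `p` to `x` -/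
def NAMet3_E (r : ℝ) (p x : X) : Type :=
  {c : ℝ → X // (∃ L, IsLoc r L c) ∧ c 0 = p ∧ c 1 = x ∧
    ∀ t, c t = c (Set.projIcc (0 : ℝ) 1 zero_le_one t)}

theorem LocCN.NAMet3_eq (h : LocCN X r) {L L' : ℝ} {c c' : ℝ → X} (hc : IsLoc r L c)
    (hc' : IsLoc r L' c') (h0 : c 0 = c' 0) (h1 : c 1 = c' 1)
    (hd : ∀ t ∈ Set.Icc (0 : ℝ) 1, dist (c t) (c' t) ≤ r / 5) :
    ∀ t ∈ Set.Icc (0 : ℝ) 1, c t = c' t := fun t ht => by
  have h2 := (h.loc_close hc hc' h0 hd).1 t ht
  rw [h1, dist_self] at h2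
  exact dist_le_zero.1 h2

theorem LocCN.NAMet3_ext (h : LocCN X r) {p x : X} (c c' : NAMet3_E r p x)
    (hd : ∀ t ∈ Set.Icc (0 : ℝ) 1, dist (c.1 t) (c'.1 t) ≤ r / 5) : c = c' := by
  obtain ⟨c, ⟨L, hc⟩, h0, h1, hn⟩ := c
  obtain ⟨c', ⟨L', hc'⟩, h0', h1', hn'⟩ := c'
  refine Subtype.ext (funext fun t => ?_)
  change c t = c' t
  rw [hn, hn']
  exact h.NAMet3_eq hc hc' (h0.trans h0'.symm) (h1.trans h1'.symm) hd _ (Subtype.property _)

theorem LocCN.NAMet3_move (h : LocCN X r) {p x y : X} (hxy : dist x y ≤ r / 20)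
    (c : NAMet3_E r p x) : ∃ c' : NAMet3_E r p y,
      ∀ t ∈ Set.Icc (0 : ℝ) 1, dist (c.1 t) (c'.1 t) ≤ r / 20 := by
  obtain ⟨c, ⟨L, hc⟩, h0, h1, hn⟩ := c
  obtain ⟨L', c', hc', h0', h1', hd⟩ := h.exists_loc hc y (by rwa [h1])
  have e : ∀ t ∈ Set.Icc (0 : ℝ) 1, c' (Set.projIcc (0 : ℝ) 1 zero_le_one t) = c' t :=
    fun t ht => by rw [Set.projIcc_of_mem _ ht]
  refine ⟨⟨fun t => c' (Set.projIcc (0 : ℝ) 1 zero_le_one t), ⟨L', hc'.1, fun s hs t ht hl => ?_⟩,
    ?_, ?_, fun t => ?_⟩, fun t ht => ?_⟩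
  · simp only [e s hs, e t ht]
    exact hc'.2 s hs t ht hl
  · simp only [e 0 ⟨le_rfl, zero_le_one⟩, h0', h0]
  · simp only [e 1 ⟨zero_le_one, le_rfl⟩, h1']
  · simp only [Set.projIcc_val]
  · simp only [e t ht]
    exact hd t ht

theorem NAMet3_const (r : ℝ) (p : X) : IsLoc r 0 fun _ => p :=
  ⟨le_rfl, fun _ _ _ _ _ => by simp⟩

/-- a continuous family of local geodesics from `p` -/
theorem LocCN.NAMet3_sec (h : LocCN X r) (hs : HasSec X) (p : X) :
    ∃ (S : X → ℝ → X) (L : X → ℝ), (∀ x, IsLoc r (L x) (S x)) ∧ (∀ x, S x 0 = p) ∧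
      (∀ x, S x 1 = x) ∧ (∀ t, S p t = p) ∧ ∀ x y, dist x y ≤ r / 80 →
        ∀ t ∈ Set.Icc (0 : ℝ) 1, dist (S x t) (S y t) ≤ r / 20 := by
  have hr := h.pos
  choose T hT using fun (x y : X) (hxy : dist x y ≤ r / 20) (c : NAMet3_E r p x) =>
    h.NAMet3_move hxy c
  let Λ : LocSys X (r / 20) :=
    { E := NAMet3_E r p
      T := T
      T_self := fun x hx e => (h.NAMet3_ext e _ fun t ht => (hT x x hx e t ht).trans
        (by linarith only [hr])).symm
      T_comp := fun x y z h₁ h₂ h₃ e => h.NAMet3_ext _ _ fun t ht => by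
        have a1 := hT x y h₁ e t ht
        have a2 := hT y z h₂ (T x y h₁ e) t ht
        have a3 := hT x z h₃ e t ht
        have a4 := dist_triangle4 ((T y z h₂ (T x y h₁ e)).1 t) ((T x y h₁ e).1 t) (e.1 t)
          ((T x z h₃ e).1 t)
        rw [dist_comm] at a1 a2
        linarith only [h₂, h₁, h₃, hr, a1, a2, a3, a4] }
  obtain ⟨s, hp, hst⟩ := hs (r / 20) (by linarith) Λ p
    ⟨fun _ => p, ⟨0, NAMet3_const r p⟩, rfl, rfl, fun _ => rfl⟩
  choose L hL using fun x => (s x).2.1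
  refine ⟨fun x => (s x).1, L, hL, fun x => (s x).2.2.1, fun x => (s x).2.2.2.1,
    fun t => by simp only [hp], fun x y hxy t ht => ?_⟩
  have h1 := hT x y (by linarith only [hr, hxy]) (s x) t ht
  have h2 : T x y (by linarith only [hr, hxy]) (s x) = s y := hst x y (by linarith only [hr, hxy]) (by linarith only [hxy])
  rwa [h2] at h1

theorem NAMet3_geod (hr : 0 < r) {L : ℝ} {c : ℝ → X} {x y : X} (hc : IsLoc r L c) (h0 : c 0 = x)
    (h1 : c 1 = y) (hL : L ≤ dist x y) : IsGeod c x y := by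
  have z0 : (0 : ℝ) ∈ Set.Icc (0 : ℝ) 1 := ⟨le_rfl, zero_le_one⟩
  have z1 : (1 : ℝ) ∈ Set.Icc (0 : ℝ) 1 := ⟨zero_le_one, le_rfl⟩
  have hle : ∀ s ∈ Set.Icc (0 : ℝ) 1, ∀ t ∈ Set.Icc (0 : ℝ) 1, s ≤ t →
      dist (c s) (c t) ≤ (t - s) * dist x y := fun s hs t ht hst => by
    have h2 := hc.dist_le hr hs ht
    rw [abs_sub_comm, abs_of_nonneg (sub_nonneg.2 hst)] at h2
    linarith only [h2, hL, hst, mul_nonneg_of_nonpos_of_nonpos (Mathlib.Tactic.Linarith.sub_nonpos_of_le hL) (Mathlib.Tactic.Linarith.sub_nonpos_of_le hst)]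
  have heq : ∀ s ∈ Set.Icc (0 : ℝ) 1, ∀ t ∈ Set.Icc (0 : ℝ) 1, s ≤ t →
      dist (c s) (c t) = |s - t| * dist x y := fun s hs t ht hst => by
    have h2 := hle 0 z0 s hs hs.1
    have h3 := hle t ht 1 z1 ht.2
    have h4 := hle s hs t ht hst
    have h5 := dist_triangle4 (c 0) (c s) (c t) (c 1)
    rw [h0] at h2 h5
    rw [h1] at h3 h5
    rw [abs_sub_comm, abs_of_nonneg (sub_nonneg.2 hst)]
    linarith only [h2, h3, h5, h4]
  refine ⟨h0, h1, fun s hs t ht => ?_⟩
  rcases le_total s t with hst | hst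
  · exact heq s hs t ht hst
  · rw [dist_comm, abs_sub_comm]
    exact heq t ht s hs hst

theorem NAMet3_mul {s t : ℝ} (hs : s ∈ Set.Icc (0 : ℝ) 1) (ht : t ∈ Set.Icc (0 : ℝ) 1) :
    s * t ∈ Set.Icc (0 : ℝ) 1 :=
  ⟨mul_nonneg hs.1 ht.1, mul_le_one₀ hs.2 ht.1 ht.2⟩

theorem IsGeod.NAMet3_loc {c : ℝ → X} {x y : X} (hc : IsGeod c x y) (r : ℝ) {τ : ℝ}
    (hτ : τ ∈ Set.Icc (0 : ℝ) 1) : IsLoc r (τ * dist x y) fun t => c (τ * t) := by
  refine ⟨mul_nonneg hτ.1 dist_nonneg, fun s hs t ht _ => ?_⟩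
  rw [hc.2.2 _ (NAMet3_mul hτ hs) _ (NAMet3_mul hτ ht), ← mul_sub, abs_mul, abs_of_nonneg hτ.1]
  ring

theorem LocCN.geod (h : LocCN X r) (hl : IsLen X) (hs : HasSec X) :
    (∀ x y : X, ∃ c, IsGeod c x y) ∧
      ∀ (p x y : X) (c c' : ℝ → X), IsGeod c p x → IsGeod c' p y → dist x y ≤ r / 100 →
        ∀ t ∈ Set.Icc (0 : ℝ) 1, dist (c t) (c' t) ≤ dist x y := by
  have hr := h.pos
  constructor
  · intro p y
    obtain ⟨S, L, hL, h0, h1, hp, hS⟩ := h.NAMet3_sec hs p
    have hLp : L p ≤ 0 := by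
      have h2 := (h.loc_close (NAMet3_const r p) (hL p) (h0 p).symm fun t _ => by
        rw [hp, dist_self]; linarith only [hr]).2
      rwa [hp, dist_self, add_zero] at h2
    refine ⟨S y, NAMet3_geod hr (hL y) (h0 y) (h1 y) (le_of_forall_pos_le_add fun η hη => ?_)⟩
    obtain ⟨N, z, z0, zN, hz, hsum⟩ := hl p y (min η (r / 80)) (lt_min hη (by linarith))
    have key : ∀ i, i ≤ N → L (z i) ≤ ∑ j ∈ Finset.range i, dist (z j) (z (j + 1)) := by
      intro i
      induction i with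
      | zero => intro _; simpa [z0] using hLp
      | succ i ih =>
        intro hi
        have h2 := (h.loc_close (hL (z i)) (hL (z (i + 1))) ((h0 _).trans (h0 _).symm)
          fun t ht => (hS _ _ ((hz i hi).trans (min_le_right _ _)) t ht).trans (by linarith only [hr])).2
        rw [h1, h1] at h2
        rw [Finset.sum_range_succ]
        linarith only [h2, ih, hi, ih (by omega)]
    have h2 := key N le_rfl
    rw [zN] at h2
    linarith only [hsum, h2, min_le_left η (r / 80)]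
  · intro p x y c c' hc hc' hxy
    obtain ⟨S, L, hL, h0, h1, hp, hS⟩ := h.NAMet3_sec hs p
    have uniq : ∀ (x : X) (c : ℝ → X), IsGeod c p x → ∀ t ∈ Set.Icc (0 : ℝ) 1, S x t = c t := by
      intro x c hc
      obtain ⟨τ, N, τ0, τN, τm, τs⟩ := NASec_steps (dist p x) (show 0 < r / 20 by linarith only [hr])
      have key : ∀ i, ∀ t ∈ Set.Icc (0 : ℝ) 1, S (c (τ i)) t = c (τ i * t) := by
        intro i
        induction i with
        | zero => intro t _; rw [τ0, zero_mul, hc.1, hp]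
        | succ i ih =>
          have h2 := τs i
          refine h.NAMet3_eq (hL _) (hc.NAMet3_loc r (τm (i + 1))) ?_ ?_ fun t ht => ?_
          · rw [h0, mul_zero, hc.1]
          · rw [h1, mul_one]
          · have h3 := hS (c (τ i)) (c (τ (i + 1)))
              (by rw [hc.2.2 _ (τm i) _ (τm (i + 1))]; linarith only [h2]) t ht
            have h4 := hc.2.2 _ (NAMet3_mul (τm i) ht) _ (NAMet3_mul (τm (i + 1)) ht)
            rw [← sub_mul, abs_mul, abs_of_nonneg ht.1] at h4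
            have h5 : 0 ≤ dist p x * |τ i - τ (i + 1)| := by positivity
            have h6 := dist_triangle_left (S (c (τ (i + 1))) t) (c (τ (i + 1) * t)) (c (τ i * t))
            rw [ih t ht] at h3
            linarith only [hr, h3, h4, h6, ht, h2, ht.1, ht.2, mul_nonneg_of_nonpos_of_nonpos (le_of_lt (Mathlib.Tactic.Linarith.sub_neg_of_lt hr)) (Mathlib.Tactic.Linarith.sub_nonpos_of_le ht.right), mul_nonneg_of_nonpos_of_nonpos (Mathlib.Tactic.Linarith.sub_nonpos_of_le h2) (Mathlib.Tactic.Linarith.sub_nonpos_of_le ht.left)]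
      intro t ht
      have h2 := key N t ht
      rwa [τN, one_mul, hc.2.1] at h2
    intro t ht
    have h2 := (h.loc_close (hL x) (hL y) ((h0 _).trans (h0 _).symm)
      fun t ht => (hS x y (by linarith only [hr, hxy]) t ht).trans (by linarith only [hr])).1 t ht
    rwa [h1, h1, uniq x c hc t ht, uniq y c' hc' t ht] at h2

theorem LocCN.proper (h : LocCN X r) (hg : ∀ x y : X, ∃ c, IsGeod c x y) : ProperSpace X := by
  have hr := h.pos
  have key : ∀ (x : X) (k : ℕ), IsCompact (Metric.closedBall x (k * (r / 2))) := by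
    intro x k
    induction k with
    | zero => simp
    | succ k ih =>
      obtain ⟨t, -, ht, hcov⟩ := finite_cover_balls_of_compact ih (half_pos hr)
      refine (ht.isCompact_biUnion fun y _ => h.cpt y).of_isClosed_subset
        Metric.isClosed_closedBall fun z hz => ?_
      have hR : (0 : ℝ) ≤ k * (r / 2) := by positivity
      rw [Metric.mem_closedBall, dist_comm] at hz
      push_cast at hz
      have hw : ∃ w ∈ Metric.closedBall x (k * (r / 2)), dist w z ≤ r / 2 := by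
        by_cases h1 : dist x z ≤ k * (r / 2)
        · exact ⟨z, by rwa [Metric.mem_closedBall, dist_comm], by rw [dist_self]; linarith only [hr]⟩
        · obtain ⟨c, c0, c1, hc⟩ := hg x z
          have h2 : 0 < dist x z := by linarith only [hR, h1, not_le.1 h1]
          have h3 : k * (r / 2) / dist x z ∈ Set.Icc (0 : ℝ) 1 :=
            ⟨by positivity, (div_le_one h2).2 (not_le.1 h1).le⟩
          have h4 := hc _ h3 0 ⟨le_rfl, zero_le_one⟩
          have h5 := hc 1 ⟨zero_le_one, le_rfl⟩ _ h3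
          rw [c0, sub_zero, abs_of_nonneg h3.1, div_mul_cancel₀ _ h2.ne'] at h4
          rw [c1, abs_of_nonneg (sub_nonneg.2 h3.2), sub_mul, div_mul_cancel₀ _ h2.ne',
            dist_comm] at h5
          exact ⟨_, h4.le, by linarith only [hz, h5]⟩
      obtain ⟨w, hw1, hw2⟩ := hw
      obtain ⟨y, hy, hwy⟩ := Set.mem_iUnion₂.1 (hcov hw1)
      refine Set.mem_biUnion hy ?_
      rw [Metric.mem_ball] at hwy
      rw [Metric.mem_closedBall]
      linarith only [hw2, hwy, dist_triangle_left z y w]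
  refine ⟨fun x R => ?_⟩
  obtain ⟨k, hk⟩ := exists_nat_ge (R / (r / 2))
  exact (key x k).of_isClosed_subset Metric.isClosed_closedBall
    (Metric.closedBall_subset_closedBall ((div_le_iff₀ (half_pos hr)).1 hk))

end Pool.Agent.Work.MP_0909b4_al.NA
end

-- merged part: Pool.Agent.Work.MP_0909b4_al.NAMet4
section
/-! Cartan-Hadamard: the global comparison inequality.

Plan.
* `cn_geod`: `u ↦ dist p (c u) ^ 2 - u ^ 2 D ^ 2` is continuous and midpoint convex on `[0,1]`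
  (`LocCN.cn`), hence convex (`disc_convex` on grids and continuity).
* `quad`: `cn` twice gives `4 dist m m' ^ 2 ≤ aa'² + ab'² + ba'² + bb'² - ab² - a'b'²`. It remains to
  see `ab'² + ba'² ≤ aa'² + bb'² + 2 ab a'b'`: take geodesics `γ` from `a` to `b'` and `η` from `b`
  to `a'`, bound `0 ≤ dist (γ s) (η t) ^ 2` by `cn_geod` twice, choose `t = s` or `t = 1 - s`
  suitably, divide by `s (1 - s)` and optimise in `s`.
* `globCN`: for close `x, y` with midpoint `m` and any `p`: geodesics `γ, η` from `p`, `a i = γ (i/N)`,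
  `b i = η (i/N)`, `m i` midpoints, `δ i = dist (a i) (b i) ≤ dist x y` (`LocCN.geod`);
  `dist p m ^ 2 ≤ N ∑ dist (m i) (m (i+1)) ^ 2`, `quad`, and Cauchy-Schwarz for `δ`. Then as in
  `cn_geod` on fine grids.
* `isCAT0`, `convex`: two uses of `GlobCN`.
-/

namespace Pool.Agent.Work.MP_0909b4_al.NA

variable {X : Type} [MetricSpace X] {r : ℝ}

/-- a continuous function that is midpoint convex at small scales lies below its chord -/
theorem NAMet4_convex {f : ℝ → ℝ} (hf : ContinuousOn f (Set.Icc 0 1)) {δ : ℝ} (hδ : 0 < δ)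
    (hm : ∀ s ∈ Set.Icc (0 : ℝ) 1, ∀ t ∈ Set.Icc (0 : ℝ) 1, |s - t| ≤ δ →
      f ((s + t) / 2) ≤ (f s + f t) / 2) {t : ℝ} (ht : t ∈ Set.Icc (0 : ℝ) 1) :
    f t ≤ (1 - t) * f 0 + t * f 1 := by
  set g : ℝ → ℝ := fun u => f u - ((1 - u) * f 0 + u * f 1) with hg
  have hgc : ContinuousOn g (Set.Icc 0 1) := hf.sub (by fun_prop)
  obtain ⟨u, hu, hmax⟩ := isCompact_Icc.exists_isMaxOn ⟨0, by simp⟩ hgc
  have hK : IsCompact (Set.Icc (0 : ℝ) 1 ∩ g ⁻¹' {g u}) :=
    isCompact_Icc.of_isClosed_subset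
      (hgc.preimage_isClosed_of_isClosed isClosed_Icc isClosed_singleton) Set.inter_subset_left
  obtain ⟨v, ⟨hv, hvu⟩, hleast⟩ := hK.exists_isLeast ⟨u, hu, rfl⟩
  have hvu' : g v = g u := hvu
  by_contra hcon
  have hpos : 0 < g u := by
    have h1 : g t ≤ g u := hmax ht
    have h2 : 0 < g t := by
      simp only [hg]
      linarith [not_le.1 hcon]
    linarith
  have hv0 : 0 < v := by
    refine lt_of_le_of_ne hv.1 fun e => ?_
    rw [← e] at hvu'
    simp only [hg] at hvu' hpos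
    linarith
  have hv1 : v < 1 := by
    refine lt_of_le_of_ne hv.2 fun e => ?_
    rw [e] at hvu'
    simp only [hg] at hvu' hpos
    linarith
  obtain ⟨e, he0, he1, he2, he3⟩ : ∃ e : ℝ, 0 < e ∧ e ≤ v ∧ e ≤ 1 - v ∧ e ≤ δ / 2 :=
    ⟨min v (min (1 - v) (δ / 2)), lt_min hv0 (lt_min (by linarith) (by linarith only [hδ])), min_le_left _ _,
      (min_le_right _ _).trans (min_le_left _ _), (min_le_right _ _).trans (min_le_right _ _)⟩
  have m1 : v - e ∈ Set.Icc (0 : ℝ) 1 := ⟨by linarith, by linarith⟩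
  have m2 : v + e ∈ Set.Icc (0 : ℝ) 1 := ⟨by linarith, by linarith⟩
  have h1 := hm _ m1 _ m2 (by rw [abs_le]; constructor <;> linarith only [he3, he0])
  rw [show (v - e + (v + e)) / 2 = v by ring] at h1
  have h2 : g (v + e) ≤ g u := hmax m2
  have h3 : g (v - e) < g u := by
    refine lt_of_le_of_ne (hmax m1) fun h4 => ?_
    have h5 := hleast ⟨m1, h4⟩
    linarith only [he0, h5]
  simp only [hg] at h2 h3 hvu'
  linarith only [h1, h2, h3, hvu']

theorem NAMet4_mid {x y : X} {c : ℝ → X} (hc : IsGeod c x y) {s t : ℝ}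
    (hs : s ∈ Set.Icc (0 : ℝ) 1) (ht : t ∈ Set.Icc (0 : ℝ) 1) :
    IsMid (c s) (c t) (c ((s + t) / 2)) := by
  have hm : (s + t) / 2 ∈ Set.Icc (0 : ℝ) 1 :=
    ⟨by linarith only [hs, ht, hs.1, ht.1], by linarith [hs.2, ht.2]⟩
  constructor
  · rw [hc.2.2 s hs _ hm, hc.2.2 s hs t ht, show s - (s + t) / 2 = (s - t) / 2 by ring, abs_div,
      abs_two]
    ring
  · rw [hc.2.2 t ht _ hm, hc.2.2 s hs t ht, show t - (s + t) / 2 = (t - s) / 2 by ring, abs_div,
      abs_two, abs_sub_comm]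
    ring

theorem NAMet4_left {x y : X} {c : ℝ → X} (hc : IsGeod c x y) {t : ℝ}
    (ht : t ∈ Set.Icc (0 : ℝ) 1) : dist x (c t) = t * dist x y := by
  have h := hc.2.2 0 ⟨le_rfl, zero_le_one⟩ t ht
  rwa [hc.1, zero_sub, abs_neg, abs_of_nonneg ht.1] at h

theorem NAMet4_left_le {x y : X} {c : ℝ → X} (hc : IsGeod c x y) {t : ℝ}
    (ht : t ∈ Set.Icc (0 : ℝ) 1) : dist x (c t) ≤ dist x y := by
  rw [NAMet4_left hc ht]
  exact mul_le_of_le_one_left dist_nonneg ht.2

theorem NAMet4_cont {x y : X} {c : ℝ → X} (hc : IsGeod c x y) : ContinuousOn c (Set.Icc 0 1) := by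
  refine LipschitzOnWith.continuousOn (K := nndist x y) (LipschitzOnWith.of_dist_le_mul ?_)
  intro s hs t ht
  rw [hc.2.2 s hs t ht, Real.dist_eq, coe_nndist, mul_comm]

/-- from the midpoint inequality at small scales to the inequality along the geodesic -/
theorem NAMet4_along {p x y : X} {c : ℝ → X} (hc : IsGeod c x y) {δ : ℝ} (hδ : 0 < δ)
    (hm : ∀ s ∈ Set.Icc (0 : ℝ) 1, ∀ t ∈ Set.Icc (0 : ℝ) 1, |s - t| ≤ δ →
      dist p (c ((s + t) / 2)) ^ 2 ≤
        (dist p (c s) ^ 2 + dist p (c t) ^ 2) / 2 - dist (c s) (c t) ^ 2 / 4)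
    {t : ℝ} (ht : t ∈ Set.Icc (0 : ℝ) 1) :
    dist p (c t) ^ 2 ≤ (1 - t) * dist p x ^ 2 + t * dist p y ^ 2 - t * (1 - t) * dist x y ^ 2 := by
  have hf : ContinuousOn (fun u => dist p (c u) ^ 2 - u ^ 2 * dist x y ^ 2) (Set.Icc 0 1) :=
    (((continuous_const.dist continuous_id).comp_continuousOn (NAMet4_cont hc)).pow 2).sub
      (by fun_prop)
  have h1 := NAMet4_convex hf hδ (fun s hs t ht hst => by
    have h2 := hm s hs t ht hst
    rw [hc.2.2 s hs t ht, mul_pow, sq_abs] at h2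
    linarith only [h2]) ht
  rw [hc.1, hc.2.1] at h1
  linarith only [h1]

theorem LocCN.cn_geod (h : LocCN X r) {p x y : X} {c : ℝ → X} (hc : IsGeod c x y)
    (hxy : dist x y ≤ r / 2) (hp : dist x p ≤ r / 2) {t : ℝ} (ht : t ∈ Set.Icc (0 : ℝ) 1) :
    dist p (c t) ^ 2 ≤ (1 - t) * dist p x ^ 2 + t * dist p y ^ 2 - t * (1 - t) * dist x y ^ 2 := by
  refine NAMet4_along hc one_pos (fun s hs u hu hsu => h.cn (NAMet4_mid hc hs hu) ?_ ?_) ht
  · rw [hc.2.2 s hs u hu]
    have h1 : |s - u| * dist x y ≤ dist x y := mul_le_of_le_one_left dist_nonneg hsu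
    linarith only [hxy, h1, h, h.pos]
  · have h1 := NAMet4_left_le hc hs
    have h2 := dist_triangle (c s) x p
    rw [dist_comm (c s) x] at h2
    linarith only [hxy, hp, h1, h2]

theorem LocCN.NAMet4_cosq (h : LocCN X r) {a b a' b' : X}
    (h₁ : dist a b ≤ r / 20) (h₂ : dist a' b' ≤ r / 20) (h₃ : dist a a' ≤ r / 20) :
    dist b a' ^ 2 + dist a b' ^ 2 ≤ dist a a' ^ 2 + dist b b' ^ 2 + 2 * dist a b * dist a' b' := by
  have hr := h.pos
  rcases eq_or_ne a b with rfl | hab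
  · simp
  rcases eq_or_ne a' b' with rfl | hab'
  · simp [add_comm]
  have hA : 0 < dist a b := dist_pos.2 hab
  have hB : 0 < dist a' b' := dist_pos.2 hab'
  have d1 : dist a b' ≤ r / 10 := by linarith only [h₂, h₃, dist_triangle a a' b']
  have d2 : dist b a' ≤ r / 10 := by linarith only [h₁, h₃, dist_triangle b a a', dist_comm a b]
  have d3 : dist b b' ≤ r / 2 := by linarith only [h₁, h₂, hA, d2, dist_triangle b a' b']
  obtain ⟨γ, hγ⟩ := h.short_geod (x := a) (y := b') (by linarith only [h₁, hA, d1])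
  obtain ⟨η, hη⟩ := h.short_geod (x := b) (y := a') (by linarith only [h₁, hA, d2])
  obtain ⟨s, hs⟩ : ∃ s : ℝ, s = dist a b / (dist a b + dist a' b') := ⟨_, rfl⟩
  have hs0 : 0 < s := by rw [hs]; positivity
  have hs1 : s < 1 := by
    rw [hs, div_lt_one (by positivity)]
    linarith only [hB]
  have hsm : s ∈ Set.Icc (0 : ℝ) 1 := ⟨hs0.le, hs1.le⟩
  have e1 : (1 - s) * dist a b = s * dist a' b' := by
    rw [hs]
    field_simp
    ring
  have k1 := h.cn_geod (p := η s) hγ (by linarith only [h₁, hA, d1]) (by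
    linarith only [h₁, hA, d2, hη, hsm, dist_triangle a b (η s), NAMet4_left_le hη hsm]) hsm
  have k2 := h.cn_geod (p := a) hη (by linarith only [h₁, hA, d2]) (by linarith only [h₁, hA, dist_comm a b]) hsm
  have k3 := h.cn_geod (p := b') hη (by linarith only [h₁, hA, d2]) d3 hsm
  rw [dist_comm (η s) a, dist_comm (η s) b'] at k1
  rw [dist_comm b' b, dist_comm b' a'] at k3
  have k4 := mul_le_mul_of_nonneg_left k2 (sub_pos.2 hs1).le
  have k5 := mul_le_mul_of_nonneg_left k3 hs0.le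
  have k6 := sq_nonneg (dist (η s) (γ s))
  have e2 : (1 - s) ^ 2 * dist a b ^ 2 + s ^ 2 * dist a' b' ^ 2 =
      s * (1 - s) * (2 * dist a b * dist a' b') := by
    linear_combination ((1 - s) * dist a b - s * dist a' b') * e1
  refine le_of_mul_le_mul_left ?_ (mul_pos hs0 (sub_pos.2 hs1))
  linarith only [k1, k4, k5, e2, sq_nonneg (dist (η s) (γ s))]

/-- the quadrilateral inequality in small balls -/
theorem LocCN.quad (h : LocCN X r) {a b a' b' m m' : X} (hm : IsMid a b m) (hm' : IsMid a' b' m')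
    (h₁ : dist a b ≤ r / 20) (h₂ : dist a' b' ≤ r / 20) (h₃ : dist a a' ≤ r / 20) :
    dist m m' ^ 2 ≤ (dist a a' ^ 2 + dist b b' ^ 2) / 2 - (dist a b - dist a' b') ^ 2 / 4 := by
  have hr := h.pos
  have d1 : dist a b' ≤ r / 10 := by linarith only [h₂, h₃, dist_triangle a a' b']
  have d2 : dist a' m ≤ r := by
    linarith only [h₁, h₃, hr, hm, dist_triangle a' a m, dist_comm a a', hm.1, dist_nonneg (x := a) (y := b)]
  have k1 := h.cn (p := m) hm' (by linarith only [h₂, hr]) d2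
  have k2 := h.cn (p := a') hm (by linarith only [h₁, hr]) (by linarith only [h₃, hr])
  have k3 := h.cn (p := b') hm (by linarith only [h₁, hr]) (by linarith only [hr, d1])
  have k4 := h.NAMet4_cosq h₁ h₂ h₃
  rw [dist_comm m a', dist_comm m b'] at k1
  rw [dist_comm a' a, dist_comm a' b] at k2
  rw [dist_comm b' a, dist_comm b' b] at k3
  linarith only [k1, k2, k3, k4]

theorem LocCN.NAMet4_far (h : LocCN X r) (hl : IsLen X) (hs : HasSec X) {x y m : X} (p : X)
    (hm : IsMid x y m) (hxy : dist x y ≤ r / 100) :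
    dist p m ^ 2 ≤ (dist p x ^ 2 + dist p y ^ 2) / 2 - dist x y ^ 2 / 4 := by
  have hr := h.pos
  obtain ⟨hg, hclose⟩ := h.geod hl hs
  obtain ⟨γ, hγ⟩ := hg p x
  obtain ⟨η, hη⟩ := hg p y
  obtain ⟨N, hN⟩ := exists_nat_gt (dist p x / (r / 20))
  have hN0 : (0 : ℝ) < N := lt_of_le_of_lt (by positivity) hN
  have hI : ∀ i : ℕ, i ≤ N → (i : ℝ) / N ∈ Set.Icc (0 : ℝ) 1 := fun i hi =>
    ⟨by positivity, (div_le_one hN0).2 (by exact_mod_cast hi)⟩
  have hδ : ∀ i : ℕ, i ≤ N → dist (γ (i / N)) (η (i / N)) ≤ r / 100 := fun i hi =>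
    (hclose p x y γ η hγ hη hxy _ (hI i hi)).trans hxy
  have hex : ∀ i : ℕ, ∃ z, i ≤ N → IsMid (γ (i / N)) (η (i / N)) z ∧ (i = N → z = m) := by
    intro i
    rcases lt_trichotomy i N with hi | rfl | hi
    · obtain ⟨z, z1, z2, -⟩ := h.mid (γ (i / N)) (η (i / N)) (by linarith only [hr, hδ, hi, hδ i hi.le])
      exact ⟨z, fun _ => ⟨⟨z1, z2⟩, fun e => absurd e hi.ne⟩⟩
    · refine ⟨m, fun _ => ⟨?_, fun _ => rfl⟩⟩
      rw [div_self hN0.ne', hγ.2.1, hη.2.1]
      exact hm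
    · exact ⟨m, fun h' => absurd h' (not_le.2 hi)⟩
  choose z hz using hex
  have z0 : z 0 = p := by
    have h1 := (hz 0 (Nat.zero_le N)).1.1
    rw [Nat.cast_zero, zero_div, hγ.1, hη.1, dist_self, zero_div] at h1
    exact (dist_eq_zero.1 h1).symm
  have zN : z N = m := (hz N le_rfl).2 rfl
  have hstep : ∀ {q : X} {c : ℝ → X}, IsGeod c p q → ∀ i : ℕ, i < N →
      dist (c (i / N)) (c ((i + 1 : ℕ) / N)) = dist p q / N := by
    intro q c hc i hi
    rw [hc.2.2 _ (hI i hi.le) _ (hI (i + 1) hi), Nat.cast_succ,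
      show (i : ℝ) / N - (i + 1) / N = -(1 / N) by ring, abs_neg, abs_of_pos (by positivity)]
    ring
  set δ : ℕ → ℝ := fun i => dist (γ (i / N)) (η (i / N)) with hδdef
  have hq : ∀ i ∈ Finset.range N, dist (z i) (z (i + 1)) ^ 2 ≤
      ((dist p x / N) ^ 2 + (dist p y / N) ^ 2) / 2 - (δ (i + 1) - δ i) ^ 2 / 4 := by
    intro i hi
    have hi' := Finset.mem_range.1 hi
    have h1 := h.quad (hz i hi'.le).1 (hz (i + 1) hi').1 (by linarith only [hr, hδ, hi', hδ i hi'.le])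
      (by linarith only [hr, hδ, hi', hδ (i + 1) hi']) (by
        rw [hstep hγ i hi', div_le_iff₀ hN0]
        rw [div_lt_iff₀ (by positivity)] at hN
        linarith only [hN])
    rw [hstep hγ i hi', hstep hη i hi'] at h1
    have h2 : (δ (i + 1) - δ i) ^ 2 = (δ i - δ (i + 1)) ^ 2 := by ring
    rw [h2]
    exact h1
  have s1 : dist p m ≤ ∑ i ∈ Finset.range N, dist (z i) (z (i + 1)) := by
    rw [← z0, ← zN]
    exact dist_le_range_sum_dist z N
  have s2 := sq_sum_le_card_mul_sum_sq (s := Finset.range N) (f := fun i => dist (z i) (z (i + 1)))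
  have s3 := sq_sum_le_card_mul_sum_sq (s := Finset.range N) (f := fun i => δ (i + 1) - δ i)
  have s4 := Finset.sum_le_sum hq
  rw [Finset.sum_sub_distrib, Finset.sum_const, ← Finset.sum_div, nsmul_eq_mul] at s4
  rw [Finset.sum_range_sub] at s3
  rw [Finset.card_range] at s2 s3 s4
  have e0 : δ 0 = 0 := by simp [hδdef, hγ.1, hη.1]
  have eN : δ N = dist x y := by simp only [hδdef, div_self hN0.ne', hγ.2.1, hη.2.1]
  rw [e0, eN, sub_zero] at s3
  have s5 := mul_le_mul_of_nonneg_left s4 hN0.le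
  have e1 : (N : ℝ) * (N * (((dist p x / N) ^ 2 + (dist p y / N) ^ 2) / 2)) =
      (dist p x ^ 2 + dist p y ^ 2) / 2 := by
    field_simp
  have s6 := pow_le_pow_left₀ dist_nonneg s1 2
  rw [mul_sub, e1] at s5
  linarith only [s2, s3, s5, s6]

/-- the CN inequality along all geodesics -/
def GlobCN (X : Type) [MetricSpace X] : Prop :=
  ∀ (p x y : X) (c : ℝ → X), IsGeod c x y → ∀ t ∈ Set.Icc (0 : ℝ) 1,
    dist p (c t) ^ 2 ≤ (1 - t) * dist p x ^ 2 + t * dist p y ^ 2 - t * (1 - t) * dist x y ^ 2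

theorem LocCN.globCN (h : LocCN X r) (hl : IsLen X) (hs : HasSec X) : GlobCN X := by
  intro p x y c hc t ht
  have hr := h.pos
  have hD : 0 < dist x y + 1 := by positivity
  refine NAMet4_along hc (δ := r / 100 / (dist x y + 1)) (by positivity)
    (fun s hs' u hu hsu => h.NAMet4_far hl hs p (NAMet4_mid hc hs' hu) ?_) ht
  rw [hc.2.2 s hs' u hu]
  rw [le_div_iff₀ hD] at hsu
  linarith only [hsu, abs_nonneg (s - u)]

theorem GlobCN.NAMet4_two (h : GlobCN X) {p x y : X} {c c' : ℝ → X} (hc : IsGeod c p x)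
    (hc' : IsGeod c' p y) {s t : ℝ} (hs : s ∈ Set.Icc (0 : ℝ) 1) (ht : t ∈ Set.Icc (0 : ℝ) 1) :
    dist (c s) (c' t) ^ 2 ≤ s ^ 2 * dist p x ^ 2 + t ^ 2 * dist p y ^ 2 +
      s * t * (dist x y ^ 2 - dist p x ^ 2 - dist p y ^ 2) := by
  have k1 := h (c s) p y c' hc' t ht
  have k2 := h y p x c hc s hs
  rw [dist_comm (c s) p, NAMet4_left hc hs, dist_comm (c s) y] at k1
  rw [dist_comm y p, dist_comm y x] at k2
  have k3 := mul_le_mul_of_nonneg_left k2 ht.1
  linarith only [k1, k3]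

theorem GlobCN.isCAT0 [CompleteSpace X] (h : GlobCN X) (hg : ∀ x y : X, ∃ c, IsGeod c x y) :
    IsCAT0 X := by
  refine ⟨inferInstance, hg, fun p q w c c' P Q R hc hc' e1 e2 e3 s hs t ht => ?_⟩
  refine (pow_le_pow_iff_left₀ dist_nonneg dist_nonneg two_ne_zero).1 ?_
  refine (h.NAMet4_two hc hc' hs ht).trans (le_of_eq ?_)
  rw [← e1, ← e2, ← e3]
  simp only [Complex.dist_eq, Complex.sq_norm, Complex.normSq_apply, Complex.sub_re,
    Complex.sub_im, Complex.add_re, Complex.add_im, Complex.smul_re, Complex.smul_im, smul_eq_mul]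
  ring

theorem GlobCN.convex (h : GlobCN X) {p x y : X} {c c' : ℝ → X} (hc : IsGeod c p x)
    (hc' : IsGeod c' p y) {t : ℝ} (ht : t ∈ Set.Icc (0 : ℝ) 1) :
    dist (c t) (c' t) ≤ t * dist x y := by
  refine (pow_le_pow_iff_left₀ dist_nonneg (mul_nonneg ht.1 dist_nonneg) two_ne_zero).1 ?_
  refine (h.NAMet4_two hc hc' ht ht).trans (le_of_eq ?_)
  ring

end Pool.Agent.Work.MP_0909b4_al.NA
end

-- merged part: Pool.Agent.Work.MP_0909b4_al.NAAut
section
/-! From a biautomatic structure to a combing by shortest words.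

Plan. Write `L = M.accepts` for a `DFA` `M` with finitely many states. `u g` is a shortest word of
`L` that represents `g`. Only `a = 1` is used. `Bk` is the finite set of values of words of length
at most `K`, and `C₀ = card states * card Bk`.
* `cut`: the `C₀ + 1` times give two times `t₁ < t₂` with the same state `M.eval (p ++ σ.take t)` and
  the same value of `σ.take t`; then `p ++ σ.take t₁ ++ σ.drop t₂` is accepted, has the same value
  and is shorter.
* `lip_gen`: if `|u (g s)| > |u g| + C₀`, the initial parts of `u (g s)` of length `≥ |u g|` have values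
  in `g Bk⁻¹`; use `cut` with `p = []`.
* `short_tail`: a state from which an accepting state can be reached reaches one with a word of
  bounded length (a finite maximum of choices over the states).
* `t1`, `t3`: compare the accepted word `p ++ w` (or `p' ++ σ`) with the shortest word for the same
  element (fellow travelling with `b = 1`) and use `cut`.
* `exists_comb`: `P g t` is the value of `(u g).take t`, `st g t = M.eval ((u g).take t)`; `fel` and
  `lip` by induction on a word for `h`.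
-/

namespace Pool.Agent.Work.MP_0909b4_al.NA

/-- the properties of a combing by shortest words of an automatic structure -/
structure Comb (G : Type) [Group G] where
  P : G → ℕ → G
  τ : G → ℕ
  Q : Type
  finQ : Finite Q
  st : G → ℕ → Q
  C : ℕ
  P_zero : ∀ g, P g 0 = 1
  P_end : ∀ g t, τ g ≤ t → P g t = g
  step : {k | ∃ g t, k = (P g t)⁻¹ * P g (t + 1)}.Finite
  fel : ∀ h, {k | ∃ g t, k = (P g t)⁻¹ * P (g * h) t}.Finite
  lip : ∀ h, ∃ B : ℝ, ∀ g, (τ (g * h) : ℝ) ≤ τ g + B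
  T1 : ∀ g t, t ≤ τ g → |(τ (P g t) : ℝ) - t| ≤ C
  T3 : ∀ g g' t t', t + C ≤ τ g → t' ≤ τ g' → st g t = st g' t' →
    |(τ (P g' t' * ((P g t)⁻¹ * g)) : ℝ) - (t' + (τ g - t))| ≤ C

/-- an automatic structure with a choice of shortest words -/
structure Aut (G : Type) [Group G] where
  S : Finset G
  σ : Type
  finσ : Finite σ
  M : DFA S σ
  K : ℕ
  symm : ∀ s ∈ S, s⁻¹ ∈ S
  u : G → List S
  u_mem : ∀ g, u g ∈ M.accepts
  u_eval : ∀ g, evalWord (u g) = g
  u_min : ∀ w ∈ M.accepts, (u (evalWord w)).length ≤ w.length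
  ft : ∀ v ∈ M.accepts, ∀ w ∈ M.accepts, ∀ b : G, (b ∈ S ∨ b = 1) → evalWord v = evalWord w * b →
    ∀ t : ℕ, ∃ x : List S, x.length ≤ K ∧ evalWord (v.take t) * evalWord x = evalWord (w.take t)

variable {G : Type} [Group G]

theorem exists_aut (h : IsBiautomatic G) : Nonempty (Aut G) := by
  classical
  obtain ⟨S, L, K, hs, ⟨σ, hσ, M, rfl⟩, honto, hft⟩ := h
  have hmin : ∀ g : G, ∃ w ∈ M.accepts, evalWord w = g ∧
      ∀ w' ∈ M.accepts, evalWord w' = g → w.length ≤ w'.length := by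
    intro g
    have hex : ∃ n, ∃ w ∈ M.accepts, evalWord w = g ∧ w.length = n := by
      obtain ⟨w, hw, hg⟩ := honto g
      exact ⟨_, w, hw, hg, rfl⟩
    obtain ⟨w, hw, hg, hn⟩ := Nat.find_spec hex
    refine ⟨w, hw, hg, fun w' hw' hg' => ?_⟩
    rw [hn]
    exact Nat.find_min' hex ⟨w', hw', hg', rfl⟩
  choose u hu1 hu2 hu3 using hmin
  refine ⟨⟨S, σ, inferInstance, M, K, hs, u, hu1, hu2, fun w hw => hu3 _ w hw rfl,
    fun v hv w hw b hb e t => ?_⟩⟩
  simpa only [one_mul] using hft v hv w hw 1 b (Or.inr rfl) hb (by rw [one_mul, e]) t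

theorem evalWord_append {S : Finset G} (v w : List S) :
    evalWord (v ++ w) = evalWord v * evalWord w := by
  simp [evalWord]

namespace Aut

variable (A : Aut G)

theorem cut : ∃ C₀ : ℕ, ∀ (g h : G) (p σ : List A.S) (t₀ : ℕ), A.u g = p ++ σ →
    t₀ + C₀ ≤ σ.length → (∀ t, t₀ ≤ t → t ≤ t₀ + C₀ → ∃ x : List A.S, x.length ≤ A.K ∧
      evalWord (σ.take t) * evalWord x = h) → False := by
  have := A.finσ
  have : Finite {x : List A.S | x.length ≤ A.K} := (List.finite_length_le A.S A.K).to_subtype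
  refine ⟨Nat.card (A.σ × {x : List A.S | x.length ≤ A.K}), fun g h p σ t₀ hg hlen hx => ?_⟩
  set C₀ := Nat.card (A.σ × {x : List A.S | x.length ≤ A.K}) with hC₀
  choose x hx1 hx2 using fun i : Fin (C₀ + 1) => hx (t₀ + i) (Nat.le_add_right _ _)
    (Nat.add_le_add_left (Nat.lt_succ_iff.1 i.2) _)
  have key : ∀ i j : Fin (C₀ + 1), i < j →
      A.M.eval (p ++ σ.take (t₀ + i)) = A.M.eval (p ++ σ.take (t₀ + j)) → x i = x j → False := by
    intro i j hij h1 h2
    have h3 : evalWord (σ.take (t₀ + i)) = evalWord (σ.take (t₀ + j)) := by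
      have h4 := hx2 i
      rw [h2, ← hx2 j] at h4
      exact mul_right_cancel h4
    have e : p ++ σ = p ++ σ.take (t₀ + j) ++ σ.drop (t₀ + j) := by
      rw [List.append_assoc, List.take_append_drop]
    have h5 : p ++ σ.take (t₀ + i) ++ σ.drop (t₀ + j) ∈ A.M.accepts := by
      have h6 := A.u_mem g
      rw [hg, e] at h6
      rw [DFA.mem_accepts, DFA.eval, DFA.evalFrom_of_append] at h6 ⊢
      rw [DFA.eval] at h1
      rwa [h1]
    have h7 : evalWord (p ++ σ.take (t₀ + i) ++ σ.drop (t₀ + j)) = g := by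
      rw [← A.u_eval g, hg, e]
      simp only [evalWord_append, h3]
    have h8 := A.u_min _ h5
    rw [h7, hg] at h8
    have h9 : (i : ℕ) < j := hij
    have h10 : (j : ℕ) < C₀ + 1 := j.2
    simp only [List.length_append, List.length_take, List.length_drop] at h8
    omega
  have hinj : Function.Injective fun i : Fin (C₀ + 1) =>
      ((A.M.eval (p ++ σ.take (t₀ + i)), ⟨x i, hx1 i⟩) :
        A.σ × {x : List A.S | x.length ≤ A.K}) := by
    intro i j hij
    have h1 := congrArg Prod.fst hij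
    have h2 := congrArg (fun z => z.2.1) hij
    rcases lt_trichotomy i j with h3 | h3 | h3
    · exact (key i j h3 h1 h2).elim
    · exact h3
    · exact (key j i h3 h1.symm h2.symm).elim
  have h1 := Nat.card_le_card_of_injective _ hinj
  rw [Nat.card_fin, ← hC₀] at h1
  omega

theorem lip_gen : ∃ C : ℕ, ∀ g : G, ∀ s ∈ A.S, (A.u (g * s)).length ≤ (A.u g).length + C := by
  obtain ⟨C₀, hC⟩ := A.cut
  refine ⟨C₀, fun g s hs => ?_⟩
  by_contra hn
  refine hC (g * s) g [] (A.u (g * s)) (A.u g).length rfl (by omega) fun t ht _ => ?_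
  obtain ⟨x, hx1, hx2⟩ := A.ft _ (A.u_mem (g * s)) _ (A.u_mem g) s (Or.inl hs)
    (by rw [A.u_eval, A.u_eval]) t
  rw [List.take_of_length_le ht, A.u_eval] at hx2
  exact ⟨x, hx1, hx2⟩

theorem NAAut_lip_word : ∃ C : ℕ, ∀ (w : List A.S) (g : G),
    (A.u (g * evalWord w)).length ≤ (A.u g).length + C * w.length ∧
      (A.u g).length ≤ (A.u (g * evalWord w)).length + C * w.length := by
  obtain ⟨C, hC⟩ := A.lip_gen
  refine ⟨C, fun w => ?_⟩
  induction w with
  | nil =>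
    intro g
    simp [evalWord]
  | cons s w ih =>
    intro g
    have e : g * evalWord (s :: w) = g * s * evalWord w := by simp [evalWord, mul_assoc]
    have h1 := ih (g * s)
    have h2 := hC g s s.2
    have h3 := hC (g * s) _ (A.symm s s.2)
    rw [mul_inv_cancel_right] at h3
    rw [e, List.length_cons, Nat.mul_succ]
    omega

theorem short_tail : ∃ N : ℕ, ∀ p σ : List A.S, p ++ σ ∈ A.M.accepts →
    ∃ w : List A.S, w.length ≤ N ∧ p ++ w ∈ A.M.accepts := by
  have := A.finσ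
  have h1 : ∀ q : A.σ, ∃ w : List A.S, (∃ σ, A.M.evalFrom q σ ∈ A.M.accept) →
      A.M.evalFrom q w ∈ A.M.accept := by
    intro q
    by_cases h : ∃ σ, A.M.evalFrom q σ ∈ A.M.accept
    · obtain ⟨w, hw⟩ := h
      exact ⟨w, fun _ => hw⟩
    · exact ⟨[], fun h' => absurd h' h⟩
  choose w hw using h1
  obtain ⟨N, hN⟩ := (Set.finite_range fun q => (w q).length).bddAbove
  refine ⟨N, fun p σ h => ⟨w (A.M.eval p), hN ⟨_, rfl⟩, ?_⟩⟩
  rw [DFA.mem_accepts, DFA.eval, DFA.evalFrom_of_append] at h ⊢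
  exact hw _ ⟨σ, h⟩

theorem t1 : ∃ C : ℕ, ∀ (g : G) (t : ℕ), t ≤ (A.u g).length →
    (A.u (evalWord ((A.u g).take t))).length ≤ t + C ∧
      t ≤ (A.u (evalWord ((A.u g).take t))).length + C := by
  obtain ⟨C₀, hC₀⟩ := A.cut
  obtain ⟨C, hC⟩ := A.NAAut_lip_word
  obtain ⟨N, hN⟩ := A.short_tail
  refine ⟨N + C * N + C₀, fun g t ht => ?_⟩
  obtain ⟨w, hw1, hw2⟩ := hN ((A.u g).take t) ((A.u g).drop t) (by
    rw [List.take_append_drop]
    exact A.u_mem g)
  have h1 := hC w (evalWord ((A.u g).take t))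
  rw [← evalWord_append] at h1
  have h2 := A.u_min _ hw2
  have h3 : C * w.length ≤ C * N := Nat.mul_le_mul_left C hw1
  have hlen : ((A.u g).take t).length = t := List.length_take_of_le ht
  rw [List.length_append, hlen] at h2
  refine ⟨by omega, ?_⟩
  by_contra hn
  refine hC₀ g (evalWord ((A.u g).take t ++ w)) [] (A.u g)
    (A.u (evalWord ((A.u g).take t ++ w))).length rfl (by omega) fun t' ht1 ht2 => ?_
  obtain ⟨x, hx1, hx2⟩ := A.ft _ hw2 _ (A.u_mem (evalWord ((A.u g).take t ++ w))) 1 (Or.inr rfl)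
    (by rw [A.u_eval, mul_one]) t'
  have ht3 : t' ≤ t := by omega
  rw [List.take_of_length_le ht1, A.u_eval, List.take_append_of_le_length (by omega),
    List.take_take, min_eq_left ht3] at hx2
  exact ⟨x, hx1, hx2⟩

theorem t3 : ∃ C : ℕ, ∀ (g : G) (p σ p' : List A.S), A.u g = p ++ σ → C ≤ σ.length →
    A.M.eval p = A.M.eval p' →
    (A.u (evalWord (p' ++ σ))).length ≤ p'.length + σ.length ∧
      p'.length + σ.length ≤ (A.u (evalWord (p' ++ σ))).length + C := by
  obtain ⟨C₀, hC₀⟩ := A.cut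
  refine ⟨C₀, fun g p σ p' hg hσ hst => ?_⟩
  have hacc : p' ++ σ ∈ A.M.accepts := by
    have h6 := A.u_mem g
    rw [hg] at h6
    rw [DFA.mem_accepts, DFA.eval, DFA.evalFrom_of_append] at h6 ⊢
    rw [DFA.eval] at hst
    rwa [← hst]
  have h1 := A.u_min _ hacc
  rw [List.length_append] at h1
  refine ⟨h1, ?_⟩
  by_contra hn
  refine hC₀ g ((evalWord p')⁻¹ * evalWord (p' ++ σ)) p σ (σ.length - C₀) hg (by omega)
    fun t ht1 _ => ?_
  obtain ⟨x, hx1, hx2⟩ := A.ft _ hacc _ (A.u_mem (evalWord (p' ++ σ))) 1 (Or.inr rfl)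
    (by rw [A.u_eval, mul_one]) (p'.length + t)
  rw [List.take_of_length_le (l := A.u _) (by omega), A.u_eval, List.take_length_add_append,
    evalWord_append] at hx2
  refine ⟨x, hx1, ?_⟩
  rw [← hx2]
  group

include A in
theorem exists_comb : Nonempty (Comb G) := by
  obtain ⟨C1, h1⟩ := A.t1
  obtain ⟨C3, h3⟩ := A.t3
  obtain ⟨C, hC⟩ := A.NAAut_lip_word
  have hfel : ∀ w : List A.S, {k | ∃ g t, k = (evalWord ((A.u g).take t))⁻¹ *
      evalWord ((A.u (g * evalWord w)).take t)}.Finite := by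
    intro w
    induction w with
    | nil =>
      refine (Set.finite_singleton 1).subset ?_
      rintro _ ⟨g, t, rfl⟩
      simp [evalWord]
    | cons s w ih =>
      refine (((List.finite_length_le A.S A.K).image fun x => (evalWord x)⁻¹).image2
        (fun a b => a * b) ih).subset ?_
      rintro _ ⟨g, t, rfl⟩
      have e : g * evalWord (s :: w) = g * s * evalWord w := by simp [evalWord, mul_assoc]
      obtain ⟨x, hx1, hx2⟩ := A.ft _ (A.u_mem (g * s)) _ (A.u_mem g) s (Or.inl s.2)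
        (by rw [A.u_eval, A.u_eval]) t
      refine ⟨_, ⟨x, hx1, rfl⟩, _, ⟨g * s, t, rfl⟩, ?_⟩
      rw [e, ← hx2]
      group
  refine ⟨{ P := fun g t => evalWord ((A.u g).take t)
            τ := fun g => (A.u g).length
            Q := A.σ
            finQ := A.finσ
            st := fun g t => A.M.eval ((A.u g).take t)
            C := C1 + C3
            P_zero := fun g => by simp [evalWord]
            P_end := fun g t ht => by rw [List.take_of_length_le ht, A.u_eval]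
            step := ?_
            fel := fun h => ?_
            lip := fun h => ⟨C * (A.u h).length, fun g => ?_⟩
            T1 := fun g t ht => ?_
            T3 := fun g g' t t' ht ht' hst => ?_ }⟩
  · refine (A.S.finite_toSet.insert 1).subset ?_
    rintro _ ⟨g, t, rfl⟩
    rw [List.take_add_one, evalWord_append, inv_mul_cancel_left]
    cases (A.u g)[t]? with
    | none => exact Or.inl (by simp [evalWord])
    | some s => exact Or.inr (by simp [evalWord])
  · have h4 := hfel (A.u h)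
    rwa [A.u_eval] at h4
  · have h4 := (hC (A.u h) g).1
    rw [A.u_eval] at h4
    exact_mod_cast h4
  · obtain ⟨h4, h5⟩ := h1 g t ht
    have h6 : ((A.u (evalWord ((A.u g).take t))).length : ℝ) ≤ t + C1 := by exact_mod_cast h4
    have h7 : (t : ℝ) ≤ (A.u (evalWord ((A.u g).take t))).length + C1 := by exact_mod_cast h5
    have h8 : (0 : ℝ) ≤ C3 := Nat.cast_nonneg _
    rw [abs_le]
    push_cast
    constructor <;> linarith only [h7, h6]
  · have ht0 : t ≤ (A.u g).length := by omega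
    obtain ⟨h4, h5⟩ := h3 g ((A.u g).take t) ((A.u g).drop t) ((A.u g').take t')
      (List.take_append_drop _ _).symm (by rw [List.length_drop]; omega) hst
    have e : evalWord ((A.u g').take t' ++ (A.u g).drop t) =
        evalWord ((A.u g').take t') * ((evalWord ((A.u g).take t))⁻¹ * g) := by
      rw [evalWord_append, eq_inv_mul_iff_mul_eq.2 (show evalWord ((A.u g).take t) *
        evalWord ((A.u g).drop t) = g by rw [← evalWord_append, List.take_append_drop, A.u_eval])]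
    rw [e, List.length_take_of_le ht', List.length_drop] at h4 h5
    set m := (A.u (evalWord ((A.u g').take t') * ((evalWord ((A.u g).take t))⁻¹ * g))).length
      with hm
    have h6 : (m : ℝ) ≤ t' + (((A.u g).length - t : ℕ) : ℝ) := by exact_mod_cast h4
    have h7 : (t' : ℝ) + (((A.u g).length - t : ℕ) : ℝ) ≤ m + C3 := by exact_mod_cast h5
    have h8 : (0 : ℝ) ≤ C1 := Nat.cast_nonneg _
    have h9 : (0 : ℝ) ≤ C3 := Nat.cast_nonneg _
    rw [Nat.cast_sub ht0] at h6 h7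
    rw [abs_le]
    push_cast
    constructor <;> linarith only [h7, h6]

end Aut

end Pool.Agent.Work.MP_0909b4_al.NA
end

-- merged part: Pool.Agent.Work.MP_0909b4_al.NAQI
section
/-! A combing seen in a space on which the group acts geometrically.

Plan.
* `step_bound`, `fel_bound`: bounded images of finite sets (for `fel_bound` a finite union over the
  `h` with `dist x₀ (h • x₀) ≤ R`).
* `tau_lip`: put points at mutual distance `≤ 1` on a geodesic from `g • x₀` to `g' • x₀`, choose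
  orbit points within `R₀`; consecutive group elements differ by an `h` with
  `dist x₀ (h • x₀) ≤ 2 R₀ + 1`, a finite set, on which `lip` is uniform.
* `exists_f`: `f x = ⨅ g, τ g + Λ * dist x (g • x₀)`.
* `finite_of_sep`: a closed ball is totally bounded and the orbit points are `δ`-separated.
-/

namespace Pool.Agent.Work.MP_0909b4_al.NA

/-- a geometric action on a CAT(0) space -/
structure GeoAct (G X : Type) [Group G] [MetricSpace X] [MulAction G X] (x₀ : X) (R₀ : ℝ) :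
    Prop where
  iso : ∀ (g : G) (x y : X), dist (g • x) (g • y) = dist x y
  geod : ∀ x y : X, ∃ c, IsGeod c x y
  cn : GlobCN X
  cob : ∀ x : X, ∃ g : G, dist x (g • x₀) ≤ R₀
  fin : ∀ R : ℝ, {g : G | dist x₀ (g • x₀) ≤ R}.Finite

variable {G X : Type} [Group G] [MetricSpace X] [MulAction G X] {x₀ : X} {R₀ : ℝ}

theorem NAQI_dist (iso : ∀ (g : G) (x y : X), dist (g • x) (g • y) = dist x y) (a b : G) (x : X) :
    dist (a • x) (b • x) = dist x ((a⁻¹ * b) • x) := by
  rw [← iso a⁻¹, inv_smul_smul, mul_smul]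

theorem NAQI_bound {α : Type} {S : Set α} (hS : S.Finite) (f : α → ℝ) :
    ∃ B : ℝ, 0 ≤ B ∧ ∀ k ∈ S, f k ≤ B := by
  obtain ⟨B, hB⟩ := (hS.image f).bddAbove
  exact ⟨max B 0, le_max_right _ _, fun k hk => (hB ⟨k, hk, rfl⟩).trans (le_max_left _ _)⟩

theorem finite_of_sep [ProperSpace X] (iso : ∀ (g : G) (x y : X), dist (g • x) (g • y) = dist x y)
    {δ : ℝ} (hδ : 0 < δ) (sep : ∀ g : G, g ≠ 1 → ∀ x : X, δ ≤ dist x (g • x)) (x₀ : X) (R : ℝ) :
    {g : G | dist x₀ (g • x₀) ≤ R}.Finite := by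
  obtain ⟨T, hT, hcov⟩ := Metric.totallyBounded_iff.mp
    (isCompact_closedBall x₀ R).totallyBounded (δ / 2) (half_pos hδ)
  have key : ∀ g : G, ∃ y : X, dist x₀ (g • x₀) ≤ R → y ∈ T ∧ dist (g • x₀) y < δ / 2 := by
    intro g
    by_cases hg : dist x₀ (g • x₀) ≤ R
    · have := hcov (Metric.mem_closedBall'.mpr hg)
      simp only [Set.mem_iUnion, Metric.mem_ball] at this
      obtain ⟨y, hy, hy'⟩ := this
      exact ⟨y, fun _ => ⟨hy, hy'⟩⟩
    · exact ⟨x₀, fun h => absurd h hg⟩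
  choose F hF using key
  refine Set.Finite.of_finite_image (f := F) (hT.subset ?_) ?_
  · rintro _ ⟨g, hg, rfl⟩
    exact (hF g hg).1
  · intro a ha b hb hab
    by_contra hne
    have h1 := sep (a⁻¹ * b) (fun h => hne (inv_mul_eq_one.mp h)) x₀
    rw [← NAQI_dist iso] at h1
    have h2 := (hF a ha).2
    have h3 := (hF b hb).2
    rw [hab] at h2
    linarith only [h1, h2, h3, dist_triangle_right (a • x₀) (b • x₀) (F b)]

theorem GeoAct.step_bound (h : GeoAct G X x₀ R₀) (c : Comb G) : ∃ l : ℝ, 0 < l ∧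
    (∀ g t, dist (c.P g t • x₀) (c.P g (t + 1) • x₀) ≤ l) ∧
    ∀ g t, t ≤ c.τ g → dist (c.P g t • x₀) (g • x₀) ≤ l * (c.τ g - t) := by
  obtain ⟨B, hB0, hB⟩ := NAQI_bound c.step fun k => dist x₀ (k • x₀)
  have h1 : ∀ g t, dist (c.P g t • x₀) (c.P g (t + 1) • x₀) ≤ B + 1 := fun g t => by
    rw [NAQI_dist h.iso]
    linarith only [hB, hB _ ⟨g, t, rfl⟩]
  have h2 : ∀ g (n t : ℕ), dist (c.P g t • x₀) (c.P g (t + n) • x₀) ≤ (B + 1) * n := by
    intro g n t
    induction n with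
    | zero => simp
    | succ n ih =>
      have := dist_triangle (c.P g t • x₀) (c.P g (t + n) • x₀) (c.P g (t + n + 1) • x₀)
      have h3 := h1 g (t + n)
      rw [← add_assoc]
      push_cast
      linarith
  refine ⟨B + 1, by linarith, h1, fun g t ht => ?_⟩
  have := h2 g (c.τ g - t) t
  rw [Nat.add_sub_cancel' ht, c.P_end g _ le_rfl, Nat.cast_sub ht] at this
  exact this

theorem GeoAct.fel_bound (h : GeoAct G X x₀ R₀) (c : Comb G) (R : ℝ) : ∃ K : ℝ, ∀ g g' : G,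
    dist (g • x₀) (g' • x₀) ≤ R → ∀ t, dist (c.P g t • x₀) (c.P g' t • x₀) ≤ K := by
  obtain ⟨B, -, hB⟩ := NAQI_bound ((h.fin R).biUnion fun k _ => c.fel k) fun k => dist x₀ (k • x₀)
  refine ⟨B, fun g g' hg t => ?_⟩
  rw [NAQI_dist h.iso] at hg ⊢
  refine hB _ (Set.mem_biUnion (x := g⁻¹ * g') hg ⟨g, t, ?_⟩)
  rw [mul_inv_cancel_left]

theorem GeoAct.tau_lip (h : GeoAct G X x₀ R₀) (c : Comb G) : ∃ Λ : ℝ, 0 < Λ ∧ ∀ g g' : G,
    (c.τ g' : ℝ) ≤ c.τ g + Λ * (dist (g • x₀) (g' • x₀) + 1) := by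
  choose b hb using c.lip
  obtain ⟨B, hB0, hB⟩ := NAQI_bound (h.fin (2 * R₀ + 1)) b
  have hR : 0 ≤ R₀ := by
    obtain ⟨g, hg⟩ := h.cob x₀
    exact dist_nonneg.trans hg
  have h1 : ∀ g g' : G, dist (g • x₀) (g' • x₀) ≤ 2 * R₀ + 1 → (c.τ g' : ℝ) ≤ c.τ g + B := by
    intro g g' hg
    rw [NAQI_dist h.iso] at hg
    have h2 := hb (g⁻¹ * g') g
    rw [mul_inv_cancel_left] at h2
    linarith only [h2, hB, hg, hB _ hg]
  have h2 : ∀ (n : ℕ) (g g' : G) (x : X), dist (g • x₀) x ≤ n → dist x (g' • x₀) ≤ R₀ →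
      (c.τ g' : ℝ) ≤ c.τ g + B * (n + 1) := by
    intro n
    induction n with
    | zero =>
      intro g g' x hx hx'
      have := h1 g g' (by
        have := dist_triangle (g • x₀) x (g' • x₀)
        simp only [Nat.cast_zero] at hx
        linarith)
      simpa using this
    | succ n ih =>
      intro g g' x hx hx'
      obtain ⟨γ, γ0, γ1, hγ⟩ := h.geod (g • x₀) x
      have hn : (0 : ℝ) < n + 1 := by positivity
      have ht0 : (0 : ℝ) ≤ n / (n + 1) := by positivity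
      have ht1 : (n : ℝ) / (n + 1) ≤ 1 := by rw [div_le_one hn]; linarith
      push_cast at hx
      have e1 := hγ (n / (n + 1)) ⟨ht0, ht1⟩ 0 ⟨le_rfl, zero_le_one⟩
      have e2 := hγ 1 ⟨zero_le_one, le_rfl⟩ (n / (n + 1)) ⟨ht0, ht1⟩
      rw [γ0, sub_zero, abs_of_nonneg ht0, dist_comm] at e1
      rw [γ1, abs_of_nonneg (sub_nonneg.mpr ht1)] at e2
      have a1 : dist (g • x₀) (γ (n / (n + 1))) ≤ n := by
        rw [e1]
        calc (n : ℝ) / (n + 1) * dist (g • x₀) x ≤ n / (n + 1) * (n + 1) :=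
              mul_le_mul_of_nonneg_left hx ht0
          _ = n := by field_simp
      have a2 : dist x (γ (n / (n + 1))) ≤ 1 := by
        rw [e2]
        calc (1 - (n : ℝ) / (n + 1)) * dist (g • x₀) x ≤ (1 - n / (n + 1)) * (n + 1) :=
              mul_le_mul_of_nonneg_left hx (sub_nonneg.mpr ht1)
          _ = 1 := by field_simp; ring
      obtain ⟨g'', hg''⟩ := h.cob (γ (n / (n + 1)))
      have a3 := ih g g'' _ a1 hg''
      have a4 := h1 g'' g' (by
        have b1 := dist_triangle (g'' • x₀) x (g' • x₀)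
        have b2 := dist_triangle_left (g'' • x₀) x (γ (n / (n + 1)))
        rw [dist_comm] at a2
        linarith only [hx', a2, hg'', b1, b2])
      push_cast
      linarith only [a3, a4]
  refine ⟨2 * B + 1, by linarith, fun g g' => ?_⟩
  have d0 : 0 ≤ dist (g • x₀) (g' • x₀) := dist_nonneg
  have a := h2 ⌈dist (g • x₀) (g' • x₀)⌉₊ g g' (g' • x₀) (Nat.le_ceil _) (by simpa using hR)
  have a' := (Nat.ceil_lt_add_one d0).le
  linarith only [d0, a, hB0, a', mul_nonneg_of_nonpos_of_nonpos (Mathlib.Tactic.Linarith.sub_nonpos_of_le hB0) (Mathlib.Tactic.Linarith.sub_nonpos_of_le d0), mul_nonneg_of_nonpos_of_nonpos (Mathlib.Tactic.Linarith.sub_nonpos_of_le hB0) (Mathlib.Tactic.Linarith.sub_nonpos_of_le a')]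

theorem GeoAct.exists_f (h : GeoAct G X x₀ R₀) (c : Comb G) : ∃ (f : X → ℝ) (Λ B : ℝ), 0 < Λ ∧
    (∀ x y, |f x - f y| ≤ Λ * dist x y) ∧ ∀ g : G, |f (g • x₀) - c.τ g| ≤ B := by
  obtain ⟨Λ, hΛ, hl⟩ := h.tau_lip c
  obtain ⟨f, hf⟩ : ∃ f : X → ℝ, ∀ x, f x = ⨅ g : G, ((c.τ g : ℝ) + Λ * dist x (g • x₀)) :=
    ⟨_, fun _ => rfl⟩
  have h1 : ∀ x (g : G), f x ≤ c.τ g + Λ * dist x (g • x₀) := fun x g => by
    rw [hf]
    refine ciInf_le ⟨0, ?_⟩ g
    rintro _ ⟨k, rfl⟩
    positivity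
  have h2 : ∀ x a, (∀ g : G, a ≤ c.τ g + Λ * dist x (g • x₀)) → a ≤ f x := fun x a ha => by
    rw [hf]
    exact le_ciInf ha
  have h3 : ∀ x y, f x - Λ * dist x y ≤ f y := fun x y => h2 y _ fun g => by
    have := mul_le_mul_of_nonneg_left (dist_triangle x y (g • x₀)) hΛ.le
    linarith [h1 x g]
  refine ⟨f, Λ, Λ, hΛ, fun x y => abs_le.mpr ⟨?_, ?_⟩, fun g => abs_le.mpr ⟨?_, ?_⟩⟩
  · have := h3 y x
    rw [dist_comm] at this
    linarith
  · linarith [h3 x y]
  · have := h2 (g • x₀) (c.τ g - Λ) fun k => by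
      have := hl k g
      rw [dist_comm] at this
      linarith
    linarith
  · have := h1 (g • x₀) g
    rw [dist_self] at this
    linarith

end Pool.Agent.Work.MP_0909b4_al.NA
end

-- merged part: Pool.Agent.Work.MP_0909b4_al.NAWind
section
/-! A discrete winding number argument: a contraction of a circle in a flat disc passes near the
centre.

Plan.
* `grid_wind`: for unit vectors at distance `≤ 1/2`, `|arg (b / a)| < π / 2`. Around each square of
  the grid the four arguments add up to a multiple of `2π` (the product of the quotients is `1`) of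
  absolute value `< 2π`, so to `0`. Hence the row sums do not depend on `t`.
* `sweep`: suppose all grid points are at distance `≥ R` from `y = ι w`. For such a point `x` let
  `c` be a geodesic from `y` to `x` and `D x = (φ (c (r₀ / dist y x)) - w) / r₀`, a unit vector by
  `hflat`. `GlobCN.convex` gives `‖D x - D x'‖ ≤ 2 K / R ≤ 1/2` for neighbours. `ι` is an isometry on
  the disc, so `t ↦ ι (w + t (z - w))` is the geodesic to `ι z` (uniqueness from `GlobCN.convex`)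
  and the last row is `exp (2π i I / M)`, whose row sum is `2π` (`M ≥ 3`).
-/

namespace Pool.Agent.Work.MP_0909b4_al.NA

open Real

theorem NAWind_arg {a b : ℂ} (ha : ‖a‖ = 1) (h : ‖a - b‖ ≤ 1 / 2) :
    |Complex.arg (b / a)| < π / 2 := by
  have ha0 : a ≠ 0 := norm_pos_iff.1 (ha ▸ one_pos)
  have h1 : ‖1 - b / a‖ ≤ 1 / 2 := by
    rwa [one_sub_div ha0, norm_div, ha, div_one]
  have h2 := (Complex.re_le_norm _).trans h1
  rw [Complex.sub_re, Complex.one_re] at h2
  exact Complex.abs_arg_lt_pi_div_two_iff.2 (Or.inl (by linarith only [h2]))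

theorem NAWind_sq {a b c d : ℂ} (ha : ‖a‖ = 1) (hb : ‖b‖ = 1) (hc : ‖c‖ = 1) (hd : ‖d‖ = 1)
    (h1 : ‖a - b‖ ≤ 1 / 2) (h2 : ‖b - d‖ ≤ 1 / 2) (h3 : ‖a - c‖ ≤ 1 / 2) (h4 : ‖c - d‖ ≤ 1 / 2) :
    Complex.arg (d / c) = Complex.arg (b / a) + (Complex.arg (d / b) - Complex.arg (c / a)) := by
  have n : ∀ {z : ℂ}, ‖z‖ = 1 → z ≠ 0 := fun h => norm_pos_iff.1 (h ▸ one_pos)
  have e : ((Complex.arg (b / a) + Complex.arg (d / b) : ℝ) : Real.Angle) =
      ((Complex.arg (c / a) + Complex.arg (d / c) : ℝ) : Real.Angle) := by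
    rw [Real.Angle.coe_add, Real.Angle.coe_add, Complex.arg_div_coe_angle (n hb) (n ha),
      Complex.arg_div_coe_angle (n hd) (n hb), Complex.arg_div_coe_angle (n hc) (n ha),
      Complex.arg_div_coe_angle (n hd) (n hc)]
    abel
  have b1 := abs_lt.1 (NAWind_arg ha h1)
  have b2 := abs_lt.1 (NAWind_arg hb h2)
  have b3 := abs_lt.1 (NAWind_arg ha h3)
  have b4 := abs_lt.1 (NAWind_arg hc h4)
  have e' := congrArg Real.Angle.toReal e
  rw [Real.Angle.toReal_coe_eq_self_iff.2 ⟨by linarith only [b1, b2], by linarith only [b1, b2]⟩,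
    Real.Angle.toReal_coe_eq_self_iff.2 ⟨by linarith only [b3, b4], by linarith only [b3, b4]⟩] at e'
  linarith only [e']

theorem grid_wind (D : ℕ → ℕ → ℂ) (M T : ℕ) (h1 : ∀ i ≤ M, ∀ t ≤ T, ‖D i t‖ = 1)
    (hi : ∀ i < M, ∀ t ≤ T, ‖D i t - D (i + 1) t‖ ≤ 1 / 2)
    (ht : ∀ i ≤ M, ∀ t < T, ‖D i t - D i (t + 1)‖ ≤ 1 / 2) (hc : ∀ t ≤ T, D 0 t = D M t)
    (h0 : ∀ i ≤ M, D i 0 = D 0 0) :
    ∑ i ∈ Finset.range M, Complex.arg (D (i + 1) T / D i T) = 0 := by
  have key : ∀ t ≤ T, ∑ i ∈ Finset.range M, Complex.arg (D (i + 1) t / D i t) = 0 := by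
    intro t
    induction t with
    | zero =>
      refine fun hT => Finset.sum_eq_zero fun i hi' => ?_
      have hi'' := Finset.mem_range.1 hi'
      rw [h0 _ hi'', h0 _ hi''.le, div_self (norm_pos_iff.1 (h1 0 M.zero_le 0 hT ▸ one_pos)),
        Complex.arg_one]
    | succ t ih =>
      intro hT
      have hT' : t ≤ T := Nat.le_of_succ_le hT
      rw [Finset.sum_congr rfl fun i hi' => NAWind_sq (h1 i (Finset.mem_range.1 hi').le t hT')
        (h1 (i + 1) (Finset.mem_range.1 hi') t hT') (h1 i (Finset.mem_range.1 hi').le _ hT)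
        (h1 (i + 1) (Finset.mem_range.1 hi') _ hT) (hi i (Finset.mem_range.1 hi') t hT')
        (ht (i + 1) (Finset.mem_range.1 hi') t hT) (ht i (Finset.mem_range.1 hi').le t hT)
        (hi i (Finset.mem_range.1 hi') _ hT), Finset.sum_add_distrib, ih hT',
        Finset.sum_range_sub fun i => Complex.arg (D i (t + 1) / D i t), hc t hT', hc _ hT,
        sub_self, add_zero]
  exact key T le_rfl

/-- the `i`-th of `M` equally spaced points on the circle with centre `w` and radius `ρ` -/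
noncomputable def circ (w : ℂ) (ρ : ℝ) (M i : ℕ) : ℂ :=
  w + ρ * Complex.exp ((2 * π * i / M : ℝ) * Complex.I)

theorem circ_dist (w : ℂ) {ρ : ℝ} (h : 0 ≤ ρ) (M i : ℕ) : dist (circ w ρ M i) w = ρ := by
  rw [circ, dist_eq_norm, add_sub_cancel_left, norm_mul, Complex.norm_exp_ofReal_mul_I, mul_one,
    Complex.norm_of_nonneg h]

theorem circ_last (w : ℂ) (ρ : ℝ) {M : ℕ} (h : 0 < M) : circ w ρ M M = circ w ρ M 0 := by
  have hM : (M : ℝ) ≠ 0 := Nat.cast_ne_zero.2 h.ne'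
  rw [circ, circ, mul_div_cancel_right₀ _ hM]
  simp

theorem NAWind_exp (M i : ℕ) : Complex.exp ((2 * π * (i + 1 : ℕ) / M : ℝ) * Complex.I) =
    Complex.exp ((2 * π * i / M : ℝ) * Complex.I) * Complex.exp ((2 * π / M : ℝ) * Complex.I) := by
  rw [← Complex.exp_add]
  congr 1
  push_cast
  ring

theorem circ_step (w : ℂ) {ρ : ℝ} (h : 0 ≤ ρ) (M i : ℕ) :
    dist (circ w ρ M i) (circ w ρ M (i + 1)) ≤ ρ * (2 * π / M) := by
  rw [dist_comm, circ, circ, dist_eq_norm, add_sub_add_left_eq_sub, NAWind_exp, ← mul_sub,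
    ← mul_sub_one, norm_mul, norm_mul, Complex.norm_exp_ofReal_mul_I, one_mul,
    Complex.norm_of_nonneg h, mul_comm _ Complex.I]
  refine mul_le_mul_of_nonneg_left (Real.norm_exp_I_mul_ofReal_sub_one_le.trans_eq ?_) h
  exact Real.norm_of_nonneg (by positivity)

theorem NAWind_close {X : Type} [MetricSpace X] (hcn : GlobCN X) {y x x' : X} {c c' : ℝ → X}
    (hc : IsGeod c y x) (hc' : IsGeod c' y x') {r₀ K R : ℝ} (hr : 0 < r₀) (hR : r₀ ≤ R)
    (hK : 4 * K ≤ R) (hx : R ≤ dist y x) (hx' : R ≤ dist y x') (h : dist x x' ≤ K) :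
    dist (c (r₀ / dist y x)) (c' (r₀ / dist y x')) ≤ r₀ / 2 := by
  have hd : 0 < dist y x := hr.trans_le (hR.trans hx)
  have hd' : 0 < dist y x' := hr.trans_le (hR.trans hx')
  have hs : r₀ / dist y x ∈ Set.Icc (0 : ℝ) 1 :=
    ⟨(div_pos hr hd).le, (div_le_one hd).2 (hR.trans hx)⟩
  have hs' : r₀ / dist y x' ∈ Set.Icc (0 : ℝ) 1 :=
    ⟨(div_pos hr hd').le, (div_le_one hd').2 (hR.trans hx')⟩
  have h1 := hcn.convex hc hc' hs
  have h2 := hc'.2.2 _ hs _ hs'
  have h3 : |r₀ / dist y x - r₀ / dist y x'| * dist y x' =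
      r₀ / dist y x * |dist y x' - dist y x| := by
    rw [← abs_of_pos hd', ← abs_mul, ← abs_of_nonneg hs.1, ← abs_mul, abs_of_pos hd',
      abs_of_nonneg hs.1]
    congr 1
    field_simp
  have h4 : |dist y x' - dist y x| ≤ dist x x' := by
    rw [dist_comm y, dist_comm y, dist_comm x x']
    exact abs_dist_sub_le _ _ _
  have h5 := mul_le_mul_of_nonneg_left h4 hs.1
  have h6 : r₀ / dist y x * dist x x' ≤ r₀ / 4 := by
    rw [div_mul_eq_mul_div, div_le_div_iff₀ hd (by norm_num), mul_assoc]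
    exact mul_le_mul_of_nonneg_left (by linarith only [hK, hx, h]) hr.le
  linarith only [h1, h2, h3, h5, h6, dist_triangle (c (r₀ / dist y x)) (c' (r₀ / dist y x)) (c' (r₀ / dist y x'))]

theorem sweep {X : Type} [MetricSpace X] (hcn : GlobCN X) (hg : ∀ x y : X, ∃ c, IsGeod c x y)
    (ι : ℂ → X) (φ : X → ℂ) (w : ℂ) (ρ r₀ K R : ℝ) (hr : 0 < r₀) (hR : r₀ ≤ R) (hK : 4 * K ≤ R)
    (hι : ∀ z ∈ Metric.closedBall w ρ, ∀ z' ∈ Metric.closedBall w ρ, dist (ι z) (ι z') ≤ dist z z')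
    (hφ : ∀ x y, dist (φ x) (φ y) ≤ dist x y) (hφι : ∀ z ∈ Metric.closedBall w ρ, φ (ι z) = z)
    (hflat : ∀ a, dist (ι w) a ≤ r₀ → dist (φ a) w = dist (ι w) a) (hρ : 0 ≤ ρ)
    (Y : ℕ → ℕ → X) (M T : ℕ) (hM : 3 ≤ M)
    (hi : ∀ i < M, ∀ t ≤ T, dist (Y i t) (Y (i + 1) t) ≤ K)
    (ht : ∀ i ≤ M, ∀ t < T, dist (Y i t) (Y i (t + 1)) ≤ K) (hc : ∀ t ≤ T, Y 0 t = Y M t)
    (h0 : ∀ i ≤ M, Y i 0 = Y 0 0) (hT : ∀ i ≤ M, Y i T = ι (circ w ρ M i)) :
    ∃ i ≤ M, ∃ t ≤ T, dist (Y i t) (ι w) < R := by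
  by_contra hcon
  push Not at hcon
  choose c hc' using hg (ι w)
  have hfar : ∀ i ≤ M, ∀ t ≤ T, R ≤ dist (ι w) (Y i t) := fun i hi' t ht' =>
    dist_comm (ι w) _ ▸ hcon i hi' t ht'
  have hs : ∀ x, R ≤ dist (ι w) x → r₀ / dist (ι w) x ∈ Set.Icc (0 : ℝ) 1 := fun x hx =>
    ⟨div_nonneg hr.le dist_nonneg, (div_le_one (hr.trans_le (hR.trans hx))).2 (hR.trans hx)⟩
  have hr' : (r₀ : ℂ) ≠ 0 := Complex.ofReal_ne_zero.2 hr.ne'
  let D : X → ℂ := fun x => (φ (c x (r₀ / dist (ι w) x)) - w) / r₀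
  have hD1 : ∀ x, R ≤ dist (ι w) x → ‖D x‖ = 1 := by
    intro x hx
    have h1 := (hc' x).2.2 0 ⟨le_rfl, zero_le_one⟩ _ (hs x hx)
    rw [(hc' x).1, zero_sub, abs_neg, abs_of_nonneg (hs x hx).1,
      div_mul_cancel₀ _ (hr.trans_le (hR.trans hx)).ne'] at h1
    rw [norm_div, ← dist_eq_norm, hflat _ h1.le, h1, Complex.norm_of_nonneg hr.le, div_self hr.ne']
  have hD2 : ∀ x x', R ≤ dist (ι w) x → R ≤ dist (ι w) x' → dist x x' ≤ K →
      ‖D x - D x'‖ ≤ 1 / 2 := by
    intro x x' hx hx' h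
    have h1 := (hφ _ _).trans (NAWind_close hcn (hc' x) (hc' x') hr hR hK hx hx' h)
    rw [← sub_div, sub_sub_sub_cancel_right, norm_div, ← dist_eq_norm,
      Complex.norm_of_nonneg hr.le, div_le_iff₀ hr]
    linarith only [h1]
  have hiso : ∀ z ∈ Metric.closedBall w ρ, ∀ z' ∈ Metric.closedBall w ρ,
      dist (ι z) (ι z') = dist z z' := fun z hz z' hz' => (hι z hz z' hz').antisymm (by
    have := hφ (ι z) (ι z')
    rwa [hφι z hz, hφι z' hz'] at this)
  have hw : w ∈ Metric.closedBall w ρ := Metric.mem_closedBall_self hρ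
  have hlast : ∀ i ≤ M, D (Y i T) = Complex.exp ((2 * π * i / M : ℝ) * Complex.I) := by
    intro i hi'
    have h1 := hfar i hi' T le_rfl
    have hz := circ_dist w hρ M i
    have hm : ∀ t ∈ Set.Icc (0 : ℝ) 1, w + t * (circ w ρ M i - w) ∈ Metric.closedBall w ρ := by
      intro t ht'
      rw [mem_closedBall_iff_norm, add_sub_cancel_left, norm_mul, ← dist_eq_norm, hz,
        Complex.norm_of_nonneg ht'.1]
      exact mul_le_of_le_one_left hρ ht'.2
    have hd : dist (ι w) (Y i T) = ρ := by rw [hT i hi', hiso w hw _ hz.le, dist_comm, hz]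
    have hg' : IsGeod (fun t : ℝ => ι (w + t * (circ w ρ M i - w))) (ι w) (Y i T) := by
      refine ⟨by simp, by simp [hT i hi'], fun s hs' t ht' => ?_⟩
      rw [hiso _ (hm s hs') _ (hm t ht'), hd, dist_eq_norm, add_sub_add_left_eq_sub, ← sub_mul,
        norm_mul, ← dist_eq_norm (circ w ρ M i), hz, ← Complex.ofReal_sub, Complex.norm_real,
        Real.norm_eq_abs]
    have h2 := hcn.convex (hc' (Y i T)) hg' (hs _ h1)
    rw [dist_self, mul_zero, dist_le_zero] at h2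
    have hρ' : (ρ : ℂ) ≠ 0 := Complex.ofReal_ne_zero.2 (hr.trans_le (hR.trans (hd ▸ h1))).ne'
    simp only [D]
    rw [h2, hφι _ (hm _ (hs _ h1)), hd, circ, add_sub_cancel_left, add_sub_cancel_left,
      Complex.ofReal_div]
    field_simp
  have key := grid_wind (fun i t => D (Y i t)) M T (fun i hi' t ht' => hD1 _ (hfar i hi' t ht'))
    (fun i hi' t ht' => hD2 _ _ (hfar i hi'.le t ht') (hfar _ hi' t ht') (hi i hi' t ht'))
    (fun i hi' t ht' => hD2 _ _ (hfar i hi' t ht'.le) (hfar i hi' _ ht') (ht i hi' t ht'))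
    (fun t ht' => congrArg D (hc t ht')) fun i hi' => congrArg D (h0 i hi')
  have hM' : (3 : ℝ) ≤ M := by exact_mod_cast hM
  have hpos : 0 < 2 * π / M := by positivity
  have hle : 2 * π / M ≤ π := by
    rw [div_le_iff₀ (by linarith only [hM'])]
    linarith only [hM', pi_pos, mul_nonneg_of_nonpos_of_nonpos (Mathlib.Tactic.Linarith.sub_nonpos_of_le hM') (le_of_lt (Mathlib.Tactic.Linarith.sub_neg_of_lt pi_pos))]
  have hterm : ∀ i ∈ Finset.range M, Complex.arg (D (Y (i + 1) T) / D (Y i T)) = 2 * π / M := by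
    intro i hi'
    have hi'' := Finset.mem_range.1 hi'
    rw [hlast _ hi'', hlast _ hi''.le, NAWind_exp, mul_div_cancel_left₀ _ (Complex.exp_ne_zero _),
      Complex.exp_mul_I, Complex.arg_cos_add_sin_mul_I ⟨by linarith only [hpos, hle, pi_pos], hle⟩]
  rw [Finset.sum_congr rfl hterm, Finset.sum_const, Finset.card_range, nsmul_eq_mul] at key
  exact (mul_pos (by linarith only [hM']) hpos).ne' key

end Pool.Agent.Work.MP_0909b4_al.NA
end
end

-- merged part: Pool.Agent.Work.MP_0909b4_al.NAMot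
section
-- merged part: Pool.Agent.Work.MP_0909b4_al.NAMot
section
/-! Orientation preserving motions of the plane. -/

namespace Pool.Agent.Work.MP_0909b4_al.NA

/-- the motion `z ↦ a z + b` -/
@[ext] structure Mot where
  a : ℂ
  b : ℂ
  norm_a : ‖a‖ = 1

namespace Mot

theorem a_ne (m : Mot) : m.a ≠ 0 := by
  intro h
  have := m.norm_a
  simp [h] at this

noncomputable instance : Group Mot where
  mul m n := ⟨m.a * n.a, m.a * n.b + m.b, by rw [norm_mul, m.norm_a, n.norm_a, one_mul]⟩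
  one := ⟨1, 0, norm_one⟩
  inv m := ⟨m.a⁻¹, -(m.a⁻¹ * m.b), by rw [norm_inv, m.norm_a, inv_one]⟩
  mul_assoc m n k := Mot.ext (mul_assoc _ _ _) (by
    change m.a * n.a * k.b + (m.a * n.b + m.b) = m.a * (n.a * k.b + n.b) + m.b
    ring)
  one_mul m := Mot.ext (one_mul _) (by
    change 1 * m.b + 0 = m.b
    ring)
  mul_one m := Mot.ext (mul_one _) (by
    change m.a * 0 + m.b = m.b
    ring)
  inv_mul_cancel m := Mot.ext (inv_mul_cancel₀ m.a_ne) (by
    change m.a⁻¹ * m.b + -(m.a⁻¹ * m.b) = 0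
    ring)

@[simp] theorem mul_a (m n : Mot) : (m * n).a = m.a * n.a := rfl
@[simp] theorem mul_b (m n : Mot) : (m * n).b = m.a * n.b + m.b := rfl
@[simp] theorem one_a : (1 : Mot).a = 1 := rfl
@[simp] theorem one_b : (1 : Mot).b = 0 := rfl
@[simp] theorem inv_a (m : Mot) : m⁻¹.a = m.a⁻¹ := rfl
@[simp] theorem inv_b (m : Mot) : m⁻¹.b = -(m.a⁻¹ * m.b) := rfl

noncomputable instance : MulAction Mot ℂ where
  smul m z := m.a * z + m.b
  one_smul z := by
    change 1 * z + 0 = z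
    ring
  mul_smul m n z := by
    change m.a * n.a * z + (m.a * n.b + m.b) = m.a * (n.a * z + n.b) + m.b
    ring

theorem smul_def (m : Mot) (z : ℂ) : m • z = m.a * z + m.b := rfl

@[simp] theorem smul_zero' (m : Mot) : m • (0 : ℂ) = m.b := by simp [smul_def]

theorem smul_sub (m : Mot) (z w : ℂ) : m • z - m • w = m.a * (z - w) := by
  simp only [smul_def]
  ring

theorem norm_smul_sub (m : Mot) (z w : ℂ) : ‖m • z - m • w‖ = ‖z - w‖ := by
  rw [smul_sub, norm_mul, m.norm_a, one_mul]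

theorem dist_smul' (m : Mot) (z w : ℂ) : dist (m • z) (m • w) = dist z w := by
  rw [dist_eq_norm, dist_eq_norm, norm_smul_sub]

/-- the translation by `b` -/
def tr (b : ℂ) : Mot := ⟨1, b, norm_one⟩

@[simp] theorem tr_a (b : ℂ) : (tr b).a = 1 := rfl
@[simp] theorem tr_b (b : ℂ) : (tr b).b = b := rfl

/-- same rotation, translation part `b` -/
def at' (m : Mot) (b : ℂ) : Mot := ⟨m.a, b, m.norm_a⟩

@[simp] theorem at'_a (m : Mot) (b : ℂ) : (m.at' b).a = m.a := rfl
@[simp] theorem at'_b (m : Mot) (b : ℂ) : (m.at' b).b = b := rfl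

end Mot

/-- the cross product -/
def cross (z w : ℂ) : ℝ := z.re * w.im - z.im * w.re

/-- the scalar product -/
def dot (z w : ℂ) : ℝ := z.re * w.re + z.im * w.im

end Pool.Agent.Work.MP_0909b4_al.NA
end

-- merged part: Pool.Agent.Work.MP_0909b4_al.NAFlatSys
section
/-! Hierarchical systems of flat convex pieces (definitions). -/

namespace Pool.Agent.Work.MP_0909b4_al.NA

/-- the piece `(k, c')`, moved by `B` in the plane and by a group element in `X`, is a part of the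
piece `(n, c)` -/
def SubPc (G : Type) {X Col : Type} [Group G] [MulAction G X] (Om : ℕ → Col → Set ℂ)
    (io : ℕ → Col → ℂ → X) (n : ℕ) (c : Col) (k : ℕ) (c' : Col) (B : Mot) : Prop :=
  ∃ g : G, ∀ z ∈ Om k c', B • z ∈ Om n c ∧ io n c (B • z) = g • io k c' z

/-- flat convex pieces of size about `5 ^ n` with finitely many colours, made of smaller pieces
that occur with many different rotations -/
structure FlatSys (G X : Type) [Group G] [MetricSpace X] [MulAction G X] where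
  Col : Type
  ne : Nonempty Col
  Om : ℕ → Col → Set ℂ
  io : ℕ → Col → ℂ → X
  φ : ℕ → Col → X → ℂ
  A : ℝ
  r₀ : ℝ
  A_ge : 1 ≤ A
  r₀_pos : 0 < r₀
  conv : ∀ n c, Convex ℝ (Om n c)
  io_lip : ∀ n c, ∀ z ∈ Om n c, ∀ w ∈ Om n c, dist (io n c z) (io n c w) ≤ dist z w
  φ_lip : ∀ n c x y, dist (φ n c x) (φ n c y) ≤ dist x y
  φ_io : ∀ n c, ∀ z ∈ Om n c, φ n c (io n c z) = z
  big : ∀ n c, ∃ z ∈ Om n c, ∃ w ∈ Om n c, (5 : ℝ) ^ n / 2 ≤ dist z w
  diam : ∀ n c, ∀ z ∈ Om n c, ∀ w ∈ Om n c, dist z w ≤ A * 5 ^ n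
  D1 : ∀ n c k, k ≤ n → ∀ z ∈ Om n c, ∃ c' B, SubPc G Om io n c k c' B ∧
    ∀ w ∈ Om k c', dist (B • w) z ≤ A * 5 ^ k
  D2 : ∀ N : ℕ, ∃ (m : ℕ) (s : ℝ), 0 < s ∧ ∀ k c, ∃ (c' : Col) (B : Fin N → Mot) (z₀ : ℂ),
    (∀ i, SubPc G Om io (k + m) c k c' (B i)) ∧ (∀ i j, i ≠ j → s ≤ ‖(B i).a - (B j).a‖) ∧
    Metric.closedBall z₀ ((5 : ℝ) ^ k / 2) ⊆ Om k c'
  D3 : ∀ n c, ∀ z ∈ Om n c, ∃ w ∈ Om n c, dist w z ≤ A ∧
    ∀ a, dist (io n c w) a ≤ r₀ → dist (φ n c a) w = dist (io n c w) a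

end Pool.Agent.Work.MP_0909b4_al.NA
end

-- merged part: Pool.Agent.Work.MP_0909b4_al.NALift
section
/-! Placed points, patches, and lifting of convex patches to the space.

Plan.
* `Patch.lift`: let `R z w` say that for all `x, m` with `pt x m = Φ z` there is `x'` with
  `pt x' m = Φ w` and `dist x x' ≤ dist z w`. It holds on each piece (move the piece map by a group
  element), so on `Ω` by `chain_segment` (use the pieces `C i`; `segment ⊆ Ω`). For
  `dist z w ≤ ε = δ / 4` such an `x'` is unique, even among those with `dist x x' ≤ 2 ε`, by `sep`.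
  This is a local system on the subtype `Ω` with fibres `{(x, m) // pt x m = Φ z}`; take a section
  (`hasSec_convex`), and go along segments in small steps to see that `m` is constant and that the
  lift is 1-Lipschitz.
* `lift_unique`: for each `z` there is a unique `g z`; it is locally constant by `sep`.
* `PatchSys.flat`: choose lifts `io n c` with motions `m n c`, `φ n c x = m n c • dev x`; `PSub` gives
  `SubPc` by `lift_unique`; `D3` from `D1` with `k = 0`.
-/

namespace Pool.Agent.Work.MP_0909b4_al.NA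

/-- a uniformly free isometric action with an equivariant developing map -/
structure DevAct (G X : Type) [Group G] [MetricSpace X] [MulAction G X] where
  dev : X → ℂ
  hol : G →* Mot
  δ : ℝ
  δ_pos : 0 < δ
  iso : ∀ (g : G) (x y : X), dist (g • x) (g • y) = dist x y
  dev_smul : ∀ (g : G) (x : X), dev (g • x) = hol g • dev x
  dev_lip : ∀ x y, dist (dev x) (dev y) ≤ dist x y
  sep : ∀ g : G, g ≠ 1 → ∀ x : X, δ ≤ dist x (g • x)

variable {G X : Type} [Group G] [MetricSpace X] [MulAction G X]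

namespace DevAct

variable (D : DevAct G X)

def rel : Setoid (X × Mot) where
  r a b := ∃ g : G, b.1 = g • a.1 ∧ a.2 = b.2 * D.hol g
  iseqv := ⟨fun a => ⟨1, by simp, by simp⟩,
    fun ⟨g, h1, h2⟩ => ⟨g⁻¹, by simp [h1], by simp [h2]⟩,
    fun ⟨g, h1, h2⟩ ⟨g', h3, h4⟩ => ⟨g' * g, by rw [h3, h1, mul_smul],
      by rw [h2, h4, map_mul, mul_assoc]⟩⟩

/-- points of the quotient together with a placement in the plane -/
def PP : Type := Quotient D.rel

def pt (x : X) (m : Mot) : D.PP := Quotient.mk D.rel (x, m)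

theorem pt_eq {x x' : X} {m m' : Mot} :
    D.pt x m = D.pt x' m' ↔ ∃ g : G, x' = g • x ∧ m = m' * D.hol g := Quotient.eq

theorem pt_smul (g : G) (x : X) (m : Mot) : D.pt (g • x) m = D.pt x (m * D.hol g) := by
  exact (D.pt_eq.2 ⟨g, rfl, rfl⟩).symm

theorem pt_surj (q : D.PP) : ∃ x m, q = D.pt x m := by
  obtain ⟨⟨x, m⟩, rfl⟩ := Quotient.exists_rep q
  exact ⟨x, m, rfl⟩

noncomputable instance : MulAction Mot D.PP where
  smul B q := Quotient.map (sa := D.rel) (sb := D.rel) (fun a => (a.1, B * a.2))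
    (fun _ _ ⟨g, h1, h2⟩ => ⟨g, h1, by simp only [h2, mul_assoc]⟩) q
  one_smul q := by
    obtain ⟨x, m, rfl⟩ := D.pt_surj q
    exact congrArg (D.pt x) (one_mul m)
  mul_smul B B' q := by
    obtain ⟨x, m, rfl⟩ := D.pt_surj q
    exact congrArg (D.pt x) (mul_assoc B B' m)

theorem smul_pt (B : Mot) (x : X) (m : Mot) : B • D.pt x m = D.pt x (B * m) := rfl

/-- the position of a placed point -/
noncomputable def loc (q : D.PP) : ℂ :=
  Quotient.lift (s := D.rel) (fun a => a.2 • D.dev a.1)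
    (fun _ _ ⟨g, h1, h2⟩ => by simp only [h1, h2, D.dev_smul, mul_smul]) q

theorem loc_pt (x : X) (m : Mot) : D.loc (D.pt x m) = m • D.dev x := rfl

theorem loc_smul (B : Mot) (q : D.PP) : D.loc (B • q) = B • D.loc q := by
  obtain ⟨x, m, rfl⟩ := D.pt_surj q
  rw [smul_pt, loc_pt, loc_pt, mul_smul]

/-- a section over `Ω` that is piecewise given by 1-Lipschitz maps to `X` -/
def Patch (Ω : Set ℂ) (Φ : ℂ → D.PP) : Prop :=
  (∀ z ∈ Ω, D.loc (Φ z) = z) ∧ ∃ (ι : Type) (_ : Finite ι) (C : ι → Set ℂ) (ψ : ι → ℂ → X)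
    (m : ι → Mot), ⋃ i, C i = Ω ∧ ∀ i, IsClosed (C i) ∧ Convex ℝ (C i) ∧
      (∀ z ∈ C i, ∀ w ∈ C i, dist (ψ i z) (ψ i w) ≤ dist z w) ∧ ∀ z ∈ C i, Φ z = D.pt (ψ i z) (m i)

variable {D}

theorem Patch.congr {Ω : Set ℂ} {Φ Ψ : ℂ → D.PP} (h : D.Patch Ω Φ) (e : ∀ z ∈ Ω, Ψ z = Φ z) :
    D.Patch Ω Ψ := by
  obtain ⟨h1, ι, hι, C, ψ, m, hU, hC⟩ := h
  refine ⟨fun z hz => (e z hz).symm ▸ h1 z hz, ι, hι, C, ψ, m, hU, fun i =>
    ⟨(hC i).1, (hC i).2.1, (hC i).2.2.1, fun z hz => ?_⟩⟩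
  rw [e z (hU ▸ Set.mem_iUnion.2 ⟨i, hz⟩), (hC i).2.2.2 z hz]

theorem NALift_closed (B : Mot) {C : Set ℂ} (h : IsClosed C) : IsClosed {w | B • w ∈ C} :=
  h.preimage (f := fun w : ℂ => B.a * w + B.b) (by fun_prop)

theorem NALift_convex (B : Mot) {C : Set ℂ} (h : Convex ℝ C) : Convex ℝ {w | B • w ∈ C} := by
  intro z hz w hw a b ha hb hab
  have e : B • (a • z + b • w) = a • B • z + b • B • w := by
    have : (a : ℂ) + b = 1 := by exact_mod_cast hab
    simp only [Mot.smul_def, Complex.real_smul]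
    linear_combination (-B.b) * this
  show B • (a • z + b • w) ∈ C
  rw [e]
  exact h hz hw ha hb hab

theorem NALift_steps {Ω : Set ℂ} (hc : Convex ℝ Ω) {η : ℝ} (hη : 0 < η) (R : ℂ → ℂ → Prop)
    (hR : ∀ z ∈ Ω, ∀ w ∈ Ω, dist z w ≤ η → R z w)
    (htr : ∀ z w u, w ∈ segment ℝ z u → R z w → R w u → R z u) :
    ∀ z ∈ Ω, ∀ w ∈ Ω, R z w := by
  have key : ∀ n : ℕ, ∀ z ∈ Ω, ∀ w ∈ Ω, dist z w ≤ η * 2 ^ n → R z w := fun n => by
    induction n with
    | zero => exact fun z hz w hw h => hR z hz w hw (by simpa using h)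
    | succ n ih =>
      intro z hz w hw h
      have hm := midpoint_mem_segment (𝕜 := ℝ) z w
      have hm' := hc.segment_subset hz hw hm
      rw [pow_succ] at h
      refine htr z _ w hm (ih z hz _ hm' ?_) (ih _ hm' w hw ?_)
      · rw [dist_left_midpoint]
        norm_num
        linarith only [h]
      · rw [dist_midpoint_right]
        norm_num
        linarith
  intro z hz w hw
  obtain ⟨n, hn⟩ := pow_unbounded_of_one_lt (dist z w / η) (one_lt_two (α := ℝ))
  rw [div_lt_iff₀ hη] at hn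
  exact key n z hz w hw (by linarith)

theorem NALift_one {g : G} {x : X} (h : dist x (g • x) < D.δ) : g = 1 := by
  by_contra hg
  exact (D.sep g hg x).not_gt h

theorem NALift_eq {x x' : X} {m : Mot} (h : D.pt x m = D.pt x' m) (hd : dist x x' < D.δ) :
    x = x' := by
  obtain ⟨g, rfl, -⟩ := D.pt_eq.1 h
  rw [NALift_one hd, one_smul]

/-- gluing of placed patches that agree on their overlaps -/
theorem glue {J : Type} [Finite J] [Nonempty J] (Ω : J → Set ℂ) (Φ : J → ℂ → D.PP) (B : J → Mot)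
    (hp : ∀ j, D.Patch (Ω j) (Φ j))
    (hc : ∀ j j', ∀ z ∈ Ω j, ∀ z' ∈ Ω j', B j • z = B j' • z' → B j • Φ j z = B j' • Φ j' z')
    (Ω' : Set ℂ) (h₁ : ∀ j, ∀ z ∈ Ω j, B j • z ∈ Ω') (h₂ : ∀ w ∈ Ω', ∃ j, ∃ z ∈ Ω j, w = B j • z) :
    ∃ Ψ : ℂ → D.PP, D.Patch Ω' Ψ ∧ ∀ j, ∀ z ∈ Ω j, Ψ (B j • z) = B j • Φ j z := by
  classical
  obtain ⟨j₀⟩ := ‹Nonempty J›
  choose! jj zz hz hw using h₂
  have key : ∀ j, ∀ z ∈ Ω j, B (jj (B j • z)) • Φ (jj (B j • z)) (zz (B j • z)) = B j • Φ j z :=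
    fun j z h => hc _ _ _ (hz _ (h₁ j z h)) _ h (hw _ (h₁ j z h)).symm
  refine ⟨fun w => B (jj w) • Φ (jj w) (zz w), ⟨fun w h => ?_, ?_⟩, key⟩
  · rw [loc_smul, (hp _).1 _ (hz w h), ← hw w h]
  choose ι hι C ψ m hU hC using fun j => (hp j).2
  have hCΩ : ∀ j i, C j i ⊆ Ω j := fun j i => hU j ▸ Set.subset_iUnion (C j) i
  refine ⟨Σ j, ι j, inferInstance, fun p => {w | (B p.1)⁻¹ • w ∈ C p.1 p.2},
    fun p w => ψ p.1 p.2 ((B p.1)⁻¹ • w), fun p => B p.1 * m p.1 p.2, ?_, fun p =>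
    ⟨NALift_closed _ (hC _ _).1, NALift_convex _ (hC _ _).2.1, fun z h w h' => ?_,
      fun w h => ?_⟩⟩
  · refine Set.Subset.antisymm (Set.iUnion_subset fun p w h => ?_) fun w h => ?_
    · simpa using h₁ _ _ (hCΩ _ _ h)
    · obtain ⟨i, hi⟩ := Set.mem_iUnion.1 (hU (jj w) ▸ hz w h)
      refine Set.mem_iUnion.2 ⟨⟨jj w, i⟩, ?_⟩
      show (B (jj w))⁻¹ • w ∈ C (jj w) i
      rwa [inv_smul_eq_iff.2 (hw w h)]
  · exact ((hC _ _).2.2.1 _ h _ h').trans (Mot.dist_smul' _ _ _).le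
  · have := key _ _ (hCΩ _ _ h)
    rw [smul_inv_smul] at this
    refine this.trans ?_
    rw [(hC _ _).2.2.2 _ h, smul_pt]

theorem Patch.lift {Ω : Set ℂ} {Φ : ℂ → D.PP} (h : D.Patch Ω Φ) (hc : Convex ℝ Ω)
    (hb : Bornology.IsBounded Ω) (hn : Ω.Nonempty) : ∃ (io : ℂ → X) (m : Mot),
      (∀ z ∈ Ω, Φ z = D.pt (io z) m) ∧ ∀ z ∈ Ω, ∀ w ∈ Ω, dist (io z) (io w) ≤ dist z w := by
  classical
  obtain ⟨-, ι, hι, C, ψ, mm, hU, hC⟩ := h
  obtain ⟨z₀, hz₀⟩ := hn
  obtain ⟨x₀, m, hx₀⟩ := D.pt_surj (Φ z₀)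
  have hR : ∀ z w : Ω, ∀ x, D.pt x m = Φ z → ∃ x', D.pt x' m = Φ w ∧ dist x x' ≤ dist z w := by
    intro z w
    refine chain_segment C (fun i => (hC i).1) (fun i => (hC i).2.1)
      (fun z w => ∀ x, D.pt x m = Φ z → ∃ x', D.pt x' m = Φ w ∧ dist x x' ≤ dist z w)
      (fun i z hz w hw x hx => ?_) (fun z w u hs h1 h2 x hx => ?_) z w
      (hU ▸ hc.segment_subset z.2 w.2)
    · rw [(hC i).2.2.2 z hz] at hx
      obtain ⟨g, h1, h2⟩ := D.pt_eq.1 hx
      refine ⟨g⁻¹ • ψ i w, ?_, ?_⟩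
      · rw [h2, ← pt_smul, smul_inv_smul, (hC i).2.2.2 w hw]
      · rw [← D.iso g, smul_inv_smul, ← h1]
        exact (hC i).2.2.1 z hz w hw
    · obtain ⟨x', k1, k2⟩ := h1 x hx
      obtain ⟨x'', k3, k4⟩ := h2 x' k1
      refine ⟨x'', k3, ?_⟩
      rw [← dist_add_dist_of_mem_segment hs]
      linarith [dist_triangle x x' x'']
  choose T hT1 hT2 using hR
  have hδ := D.δ_pos
  let L : LocSys Ω (D.δ / 4) :=
    { E := fun z => {x : X // D.pt x m = Φ z}
      T := fun z w _ e => ⟨T z w e.1 e.2, hT1 _ _ _ _⟩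
      T_self := fun z _ e => Subtype.ext (NALift_eq (e.2.trans (hT1 _ _ _ e.2).symm) (by
        have := hT2 z z e.1 e.2
        rw [dist_self] at this
        linarith)).symm
      T_comp := fun z w u h1 h2 h3 e => Subtype.ext (NALift_eq
        ((hT1 _ _ _ _).trans (hT1 _ _ _ _).symm) (by
        have k1 := hT2 z w e.1 e.2
        have k2 := hT2 w u _ (hT1 z w e.1 e.2)
        have k3 := hT2 z u e.1 e.2
        have k4 := dist_triangle4 (T w u _ (hT1 z w e.1 e.2)) (T z w e.1 e.2) e.1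
          (T z u e.1 e.2)
        rw [dist_comm] at k1 k2
        simp only
        linarith only [hT1, hδ, h1, h2, h3, k1, k2, k3, k4])) }
  obtain ⟨s, -, hs⟩ := hasSec_convex hc hb (D.δ / 4) (by positivity) L ⟨z₀, hz₀⟩ ⟨x₀, hx₀.symm⟩
  refine ⟨fun z => if h : z ∈ Ω then (s ⟨z, h⟩).1 else x₀, m, fun z hz => ?_, ?_⟩
  · simp only [dif_pos hz]
    exact (s ⟨z, hz⟩).2.symm
  refine NALift_steps hc (η := D.δ / 4 / 4) (by positivity) _ (fun z hz w hw hd => ?_)
    fun z w u hs h1 h2 => ?_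
  · simp only [dif_pos hz, dif_pos hw]
    rw [← hs ⟨z, hz⟩ ⟨w, hw⟩ (le_trans hd (by linarith only [hδ])) hd]
    exact hT2 ⟨z, hz⟩ ⟨w, hw⟩ _ (s ⟨z, hz⟩).2
  · rw [← dist_add_dist_of_mem_segment hs]
    exact (dist_triangle _ _ _).trans (add_le_add h1 h2)

theorem lift_unique {Ω : Set ℂ} (hc : Convex ℝ Ω) (io io' : ℂ → X) (m m' : Mot)
    (h : ∀ z ∈ Ω, D.pt (io z) m = D.pt (io' z) m')
    (hl : ∀ z ∈ Ω, ∀ w ∈ Ω, dist (io z) (io w) ≤ dist z w)
    (hl' : ∀ z ∈ Ω, ∀ w ∈ Ω, dist (io' z) (io' w) ≤ dist z w) :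
    ∃ g : G, ∀ z ∈ Ω, io' z = g • io z := by
  rcases Ω.eq_empty_or_nonempty with rfl | ⟨z₀, hz₀⟩
  · exact ⟨1, fun _ h => h.elim⟩
  obtain ⟨g₀, hg₀, -⟩ := D.pt_eq.1 (h z₀ hz₀)
  have hδ := D.δ_pos
  refine ⟨g₀, fun z hz => NALift_steps hc (η := D.δ / 4) (by positivity)
    (fun z w => ∀ g : G, io' z = g • io z → io' w = g • io w) (fun z hz w hw hd g hg => ?_)
    (fun z w u _ h1 h2 g hg => h2 g (h1 g hg)) z₀ hz₀ z hz g₀ hg₀⟩
  obtain ⟨g', hg', -⟩ := D.pt_eq.1 (h w hw)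
  have e : g⁻¹ * g' = 1 := NALift_one (D := D) (x := io w) (by
    rw [← D.iso g, mul_smul, smul_inv_smul, ← hg']
    have k1 := dist_triangle (g • io w) (io' z) (io' w)
    have k2 := hl w hw z hz
    have k3 := hl' z hz w hw
    rw [← D.iso g, ← hg, dist_comm w] at k2
    linarith only [hδ, hd, k1, k2, k3])
  rw [hg', inv_mul_eq_one.1 e]

end DevAct

/-- a part of a patch -/
def PSub {D : DevAct G X} {Col : Type} (Om : ℕ → Col → Set ℂ) (Φ : ℕ → Col → ℂ → D.PP) (n : ℕ)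
    (c : Col) (k : ℕ) (c' : Col) (B : Mot) : Prop :=
  ∀ z ∈ Om k c', B • z ∈ Om n c ∧ Φ n c (B • z) = B • Φ k c' z

/-- a hierarchical system of patches -/
structure PatchSys (D : DevAct G X) where
  Col : Type
  ne : Nonempty Col
  Om : ℕ → Col → Set ℂ
  Φ : ℕ → Col → ℂ → D.PP
  A : ℝ
  r₀ : ℝ
  A_ge : 1 ≤ A
  r₀_pos : 0 < r₀
  conv : ∀ n c, Convex ℝ (Om n c)
  patch : ∀ n c, D.Patch (Om n c) (Φ n c)
  big : ∀ n c, ∃ z ∈ Om n c, ∃ w ∈ Om n c, (5 : ℝ) ^ n / 2 ≤ dist z w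
  diam : ∀ n c, ∀ z ∈ Om n c, ∀ w ∈ Om n c, dist z w ≤ A * 5 ^ n
  D1 : ∀ n c k, k ≤ n → ∀ z ∈ Om n c, ∃ c' B, PSub Om Φ n c k c' B ∧
    ∀ w ∈ Om k c', dist (B • w) z ≤ A * 5 ^ k
  D2 : ∀ N : ℕ, ∃ (m : ℕ) (s : ℝ), 0 < s ∧ ∀ k c, ∃ (c' : Col) (B : Fin N → Mot) (z₀ : ℂ),
    (∀ i, PSub Om Φ (k + m) c k c' (B i)) ∧ (∀ i j, i ≠ j → s ≤ ‖(B i).a - (B j).a‖) ∧
    Metric.closedBall z₀ ((5 : ℝ) ^ k / 2) ⊆ Om k c'
  D3 : ∀ c, ∃ w ∈ Om 0 c, ∃ x m, Φ 0 c w = D.pt x m ∧
    ∀ a, dist x a ≤ r₀ → dist (D.dev a) (D.dev x) = dist x a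

theorem PatchSys.flat {D : DevAct G X} (P : PatchSys D) : Nonempty (FlatSys G X) := by
  choose io m h1 h2 using fun n c => (P.patch n c).lift (P.conv n c)
    (Metric.isBounded_iff.2 ⟨_, fun z hz w hw => P.diam n c z hz w hw⟩)
    (let ⟨z, hz, _⟩ := P.big n c; ⟨z, hz⟩)
  have hφ : ∀ n c, ∀ z ∈ P.Om n c, m n c • D.dev (io n c z) = z := fun n c z hz => by
    rw [← D.loc_pt, ← h1 n c z hz, (P.patch n c).1 z hz]
  have hsub : ∀ n c k c' B, PSub P.Om P.Φ n c k c' B → SubPc G P.Om io n c k c' B :=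
    fun n c k c' B h => by
      obtain ⟨g, hg⟩ := DevAct.lift_unique (D := D) (P.conv k c') (io k c')
        (fun z => io n c (B • z)) (B * m k c') (m n c)
        (fun z hz => by rw [← D.smul_pt, ← h1 k c' z hz, ← (h z hz).2, h1 n c _ (h z hz).1])
        (h2 k c') fun z hz w hw =>
          (h2 n c _ (h z hz).1 _ (h w hw).1).trans (Mot.dist_smul' _ _ _).le
      exact ⟨g, fun z hz => ⟨(h z hz).1, hg z hz⟩⟩
  refine ⟨⟨P.Col, P.ne, P.Om, io, fun n c x => m n c • D.dev x, P.A, P.r₀, P.A_ge, P.r₀_pos, P.conv,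
    h2, fun n c x y => (Mot.dist_smul' _ _ _).le.trans (D.dev_lip x y), hφ, P.big, P.diam,
    fun n c k hk z hz => ?_, fun N => ?_, fun n c z hz => ?_⟩⟩
  · obtain ⟨c', B, k1, k2⟩ := P.D1 n c k hk z hz
    exact ⟨c', B, hsub _ _ _ _ _ k1, k2⟩
  · obtain ⟨j, s, hs, k0⟩ := P.D2 N
    refine ⟨j, s, hs, fun k c => ?_⟩
    obtain ⟨c', B, z₀, k1, k2⟩ := k0 k c
    exact ⟨c', B, z₀, fun i => hsub _ _ _ _ _ (k1 i), k2⟩
  · obtain ⟨c', B, k1, k2⟩ := P.D1 n c 0 n.zero_le z hz
    obtain ⟨w, hw, x, m', k3, k4⟩ := P.D3 c'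
    obtain ⟨k5, k6⟩ := k1 w hw
    refine ⟨B • w, k5, by simpa using k2 w hw, fun a ha => ?_⟩
    rw [h1 n c _ k5, k3, D.smul_pt] at k6
    obtain ⟨g, hg, -⟩ := D.pt_eq.1 k6.symm
    obtain ⟨a, rfl⟩ : ∃ a', a = g • a' := ⟨g⁻¹ • a, (smul_inv_smul g a).symm⟩
    have k7 := hφ n c _ k5
    rw [hg, D.iso] at ha
    rw [hg] at k7
    rw [hg, D.iso, ← k4 a ha]
    conv_lhs => rw [← k7]
    rw [Mot.dist_smul', D.dev_smul, D.dev_smul, Mot.dist_smul']

end Pool.Agent.Work.MP_0909b4_al.NA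
end

-- merged part: Pool.Agent.Work.MP_0909b4_al.NAPlane
section
/-! Plane trigonometry for Euclidean cones.

Plan. `DD ρ ρ' φ ^ 2 = ρ ^ 2 + ρ' ^ 2 - 2 ρ ρ' cos φ`, and `cos` is decreasing on `[0, π]`.
* `DD_tri`: if `φ₁ + φ₂ ≤ π` use the points `ρ`, `ρ₁ e^{iφ₁}`, `ρ' e^{i(φ₁+φ₂)}` and `DD_mono`; else
  replace `φ₂` by `π - φ₁`.
* `DD_split`: the segment from `ρ` to `ρ' e^{i(φ₁+φ₂)}` meets the open ray of angle `φ₁`
  (parameter `t = ρ sin φ₁ / (ρ sin φ₁ + ρ' sin φ₂)`; treat `φ₁ = 0` and `φ₂ = 0` apart).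
* `DD_mid`: polar coordinates of `(ρ + ρ' e^{iφ}) / 2` (for instance `s = arg`).
* `DD_cn`: find an angle `ω` such that the point `P = ρp e^{iω}` has `cos (ω - s) ≤ cos ψ`,
  `cos α ≤ cos ω`, `cos β ≤ cos (ω - φ)`; then use the parallelogram law for `P`, `ρ`, `ρ' e^{iφ}`.
  Second case `ω = s + ψ`, third case `ω = s - ψ`. First case: `ω = -x` with `x = π - s` if
  `2π - φ - β ≤ π - s ≤ α`, `x = α` if `α < π - s`, `x = 2π - φ - β` if `π - s < 2π - φ - β`.
* the sector lemmas: write `u, w, x, y` in polar form relative to `u`, or use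
  `Complex.angle_eq_abs_arg`; after a reflection one may assume `0 < cross u w`.
-/

namespace Pool.Agent.Work.MP_0909b4_al.NA

open Real InnerProductGeometry

/-- the distance of two points of norms `ρ, ρ'` seen under the angle `φ` -/
noncomputable def DD (ρ ρ' φ : ℝ) : ℝ := ‖(ρ : ℂ) - ρ' * Complex.exp (φ * Complex.I)‖

theorem DD_nonneg (ρ ρ' φ : ℝ) : 0 ≤ DD ρ ρ' φ := norm_nonneg _

theorem DD_sq (ρ ρ' φ : ℝ) : DD ρ ρ' φ ^ 2 = ρ ^ 2 + ρ' ^ 2 - 2 * ρ * ρ' * cos φ := by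
  rw [DD, Complex.sq_norm, Complex.normSq_apply]
  simp only [Complex.sub_re, Complex.sub_im, Complex.ofReal_re, Complex.ofReal_im,
    Complex.re_ofReal_mul, Complex.im_ofReal_mul, Complex.exp_ofReal_mul_I_re,
    Complex.exp_ofReal_mul_I_im]
  linear_combination ρ' ^ 2 * sin_sq_add_cos_sq φ

theorem DD_symm (ρ ρ' φ : ℝ) : DD ρ ρ' φ = DD ρ' ρ φ := by
  rw [← sq_eq_sq₀ (DD_nonneg _ _ _) (DD_nonneg _ _ _), DD_sq, DD_sq]
  ring

theorem DD_zero (ρ ρ' : ℝ) : DD ρ ρ' 0 = |ρ - ρ'| := by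
  rw [← sq_eq_sq₀ (DD_nonneg _ _ _) (abs_nonneg _), DD_sq, sq_abs, cos_zero]
  ring

theorem DD_pi {ρ ρ' : ℝ} (h : 0 ≤ ρ) (h' : 0 ≤ ρ') : DD ρ ρ' π = ρ + ρ' := by
  rw [← sq_eq_sq₀ (DD_nonneg _ _ _) (add_nonneg h h'), DD_sq, cos_pi]
  ring

theorem DD_zero_left {ρ' : ℝ} (h' : 0 ≤ ρ') (φ : ℝ) : DD 0 ρ' φ = ρ' := by
  rw [← sq_eq_sq₀ (DD_nonneg _ _ _) h', DD_sq]
  ring

theorem DD_mono {ρ ρ' φ ψ : ℝ} (h : 0 ≤ ρ) (h' : 0 ≤ ρ') (h0 : 0 ≤ φ) (h1 : φ ≤ ψ) (h2 : ψ ≤ π) :
    DD ρ ρ' φ ≤ DD ρ ρ' ψ := by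
  rw [← sq_le_sq₀ (DD_nonneg _ _ _) (DD_nonneg _ _ _), DD_sq, DD_sq]
  have h3 := cos_le_cos_of_nonneg_of_le_pi h0 h2 h1
  have h4 := mul_le_mul_of_nonneg_left h3 (mul_nonneg h h')
  linarith

theorem NAPlane_dist (ρ ρ' a b : ℝ) :
    ‖(ρ : ℂ) * Complex.exp (a * Complex.I) - ρ' * Complex.exp (b * Complex.I)‖ =
      DD ρ ρ' (b - a) := by
  have e : (ρ : ℂ) * Complex.exp (a * Complex.I) - ρ' * Complex.exp (b * Complex.I) =
      Complex.exp (a * Complex.I) * (ρ - ρ' * Complex.exp ((b - a : ℝ) * Complex.I)) := by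
    rw [mul_sub, mul_left_comm, ← Complex.exp_add, mul_comm (Complex.exp _)]
    congr 3
    push_cast
    ring
  rw [e, norm_mul, Complex.norm_exp_ofReal_mul_I, one_mul, DD]

theorem NAPlane_tri (ρ ρ₁ ρ' a b : ℝ) : DD ρ ρ' (a + b) ≤ DD ρ ρ₁ a + DD ρ₁ ρ' b := by
  have e := NAPlane_dist ρ₁ ρ' a (a + b)
  rw [add_sub_cancel_left] at e
  rw [← e, DD, DD]
  exact norm_sub_le_norm_sub_add_norm_sub _ _ _

theorem NAPlane_span {u w y : ℂ} {a b : ℝ} (ha : 0 ≤ a) (hb : 0 ≤ b) (hy : y ≠ 0)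
    (e : y = a • u + b • w) : angle u w = angle u y + angle y w :=
  angle_eq_angle_add_add_angle_add_of_mem_span hy
    (Submodule.mem_span_pair.2 ⟨⟨a, ha⟩, ⟨b, hb⟩, e.symm⟩)

theorem NAPlane_two {u w : ℂ} {a b a' b' : ℝ} (ha : 0 ≤ a) (hb : 0 ≤ b)
    (ha' : 0 ≤ a') (hb' : 0 ≤ b') (hab : a • u + b • w ≠ 0) (hab' : a' • u + b' • w ≠ 0)
    (hc : a' * b ≤ a * b') : angle u (a' • u + b' • w) =
      angle u (a • u + b • w) + angle (a • u + b • w) (a' • u + b' • w) := by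
  rcases eq_or_lt_of_le hb' with h0 | h0
  · have h1 : 0 < a' := lt_of_le_of_ne ha' fun e => hab' (by rw [← e, ← h0]; simp)
    have h2 : b = 0 := by
      rw [← h0, mul_zero] at hc
      exact le_antisymm (by (refine le_of_not_gt fun h_nl => ?_; linarith only [h_nl, hc, h1, mul_pos_of_neg_of_neg (Mathlib.Tactic.Linarith.sub_neg_of_lt h1) (Mathlib.Tactic.Linarith.sub_neg_of_lt h_nl)])) hb
    exact NAPlane_span (b := 0) ha le_rfl hab (by rw [h2, zero_smul, zero_smul])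
  · refine NAPlane_span (a := (a * b' - a' * b) / b') (b := b / b')
      (div_nonneg (by linarith) hb') (div_nonneg hb hb') hab ?_
    rw [smul_add, smul_smul, smul_smul, ← add_assoc, ← add_smul]
    congr 2 <;> field_simp
    ring

theorem NAPlane_omega {φ s α β ψ : ℝ} (hs0 : 0 ≤ s) (hs : s ≤ φ) (hφ : φ ≤ π) (hα0 : 0 ≤ α)
    (hα : α ≤ π) (hβ0 : 0 ≤ β) (hβ : β ≤ π) (hψ0 : 0 ≤ ψ) (h₁ : |ψ - s| ≤ α)
    (h₂ : |ψ - (φ - s)| ≤ β) (h₃ : 2 * π ≤ α + β + φ ∨ ψ + s ≤ α ∨ ψ + (φ - s) ≤ β) :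
    ∃ ω, cos (ω - s) ≤ cos ψ ∧ cos α ≤ cos ω ∧ cos β ≤ cos (ω - φ) := by
  have k1 : ∀ x y : ℝ, |x| ≤ y → y ≤ π → cos y ≤ cos x := fun x y a b => by
    rw [← cos_abs x]
    exact cos_le_cos_of_nonneg_of_le_pi (abs_nonneg x) b a
  have k2 : ∀ x y : ℝ, |x + 2 * π| ≤ y → y ≤ π → cos y ≤ cos x := fun x y a b => by
    rw [← cos_add_two_pi x]
    exact k1 _ _ a b
  obtain ⟨a1, a2⟩ := abs_le.1 h₁
  obtain ⟨b1, b2⟩ := abs_le.1 h₂
  rcases h₃ with h | h | h
  · rcases lt_or_ge α (π - s) with c | c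
    · refine ⟨-α, ?_, (cos_neg α).ge, k2 _ _ (abs_le.2 ⟨by linarith only [hs0, hφ, h, c], by linarith⟩) hβ⟩
      rw [show -α - s = -(α + s) by ring, cos_neg]
      exact cos_le_cos_of_nonneg_of_le_pi hψ0 (by linarith) (by linarith)
    rcases lt_or_ge (π - s) (2 * π - φ - β) with d | d
    · refine ⟨-(2 * π - φ - β), ?_, k1 _ _ (abs_le.2 ⟨by linarith, by linarith⟩) hα,
        k2 _ _ (abs_le.2 ⟨by linarith, by linarith⟩) hβ⟩
      rw [show -(2 * π - φ - β) - s = φ + β - s - 2 * π by ring, cos_sub_two_pi]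
      exact cos_le_cos_of_nonneg_of_le_pi hψ0 (by linarith) (by linarith)
    · refine ⟨-(π - s), ?_, k1 _ _ (abs_le.2 ⟨by linarith, by linarith⟩) hα,
        k2 _ _ (abs_le.2 ⟨by linarith, by linarith⟩) hβ⟩
      rw [show -(π - s) - s = -π by ring, cos_neg, cos_pi]
      exact neg_one_le_cos ψ
  · refine ⟨s + ψ, by rw [add_sub_cancel_left], k1 _ _ (abs_le.2 ⟨by linarith, by linarith⟩) hα,
      k1 _ _ (abs_le.2 ⟨by linarith, by linarith⟩) hβ⟩
  · refine ⟨s - ψ, by rw [sub_sub_cancel_left, cos_neg],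
      k1 _ _ (abs_le.2 ⟨by linarith, by linarith⟩) hα,
      k1 _ _ (abs_le.2 ⟨by linarith, by linarith⟩) hβ⟩

theorem DD_tri {ρ ρ₁ ρ' φ φ₁ φ₂ : ℝ} (h : 0 ≤ ρ) (h₁ : 0 ≤ ρ₁) (h' : 0 ≤ ρ') (h0 : 0 ≤ φ)
    (hπ : φ ≤ π) (h01 : 0 ≤ φ₁) (hπ1 : φ₁ ≤ π) (h02 : 0 ≤ φ₂) (hπ2 : φ₂ ≤ π) (hs : φ ≤ φ₁ + φ₂) :
    DD ρ ρ' φ ≤ DD ρ ρ₁ φ₁ + DD ρ₁ ρ' φ₂ := by
  rcases le_total (φ₁ + φ₂) π with hc | hc
  · exact (DD_mono h h' h0 hs hc).trans (NAPlane_tri _ _ _ _ _)
  · have e1 := NAPlane_tri ρ ρ₁ ρ' φ₁ (π - φ₁)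
    rw [add_sub_cancel] at e1
    have e2 := DD_mono h h' h0 hπ le_rfl
    have e3 : DD ρ₁ ρ' (π - φ₁) ≤ DD ρ₁ ρ' φ₂ := DD_mono h₁ h' (by linarith) (by linarith) hπ2
    linarith

theorem DD_split {ρ ρ' φ₁ φ₂ : ℝ} (h : 0 < ρ) (h' : 0 < ρ') (h01 : 0 ≤ φ₁) (h02 : 0 ≤ φ₂)
    (hs : φ₁ + φ₂ < π) : ∃ ρ₁, 0 < ρ₁ ∧ DD ρ ρ₁ φ₁ + DD ρ₁ ρ' φ₂ = DD ρ ρ' (φ₁ + φ₂) := by
  rcases eq_or_lt_of_le (add_nonneg h01 h02) with h0 | h0
  · have e1 : φ₁ = 0 := by linarith
    have e2 : φ₂ = 0 := by linarith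
    subst e1 e2
    refine ⟨ρ, h, ?_⟩
    rw [add_zero, DD_zero ρ ρ, sub_self, abs_zero, zero_add]
  have s1 : 0 ≤ sin φ₁ := sin_nonneg_of_nonneg_of_le_pi h01 (by linarith)
  have s2 : 0 ≤ sin φ₂ := sin_nonneg_of_nonneg_of_le_pi h02 (by linarith)
  have hS : 0 < sin (φ₁ + φ₂) := sin_pos_of_pos_of_lt_pi h0 hs
  have hd : 0 < ρ * sin φ₁ + ρ' * sin φ₂ := by
    rcases eq_or_lt_of_le h01 with e | e
    · have : 0 < sin φ₂ := sin_pos_of_pos_of_lt_pi (by linarith) (by linarith)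
      positivity
    · have : 0 < sin φ₁ := sin_pos_of_pos_of_lt_pi e (by linarith)
      positivity
  obtain ⟨t, ht⟩ : ∃ t, t = ρ * sin φ₁ / (ρ * sin φ₁ + ρ' * sin φ₂) := ⟨_, rfl⟩
  obtain ⟨r, hr⟩ : ∃ r, r = ρ * ρ' * sin (φ₁ + φ₂) / (ρ * sin φ₁ + ρ' * sin φ₂) := ⟨_, rfl⟩
  have t0 : 0 ≤ t := by rw [ht]; positivity
  have t1 : t ≤ 1 := by
    rw [ht, div_le_one hd]
    have : 0 ≤ ρ' * sin φ₂ := by positivity
    linarith
  have key : (r : ℂ) * Complex.exp (φ₁ * Complex.I) =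
      ((1 - t : ℝ) : ℂ) * ρ + t * (ρ' * Complex.exp ((φ₁ + φ₂ : ℝ) * Complex.I)) := by
    apply Complex.ext
    · simp only [Complex.add_re, Complex.ofReal_re, Complex.re_ofReal_mul,
        Complex.exp_ofReal_mul_I_re]
      rw [ht, hr, sin_add, cos_add]
      field_simp
      linear_combination (ρ' * sin φ₂) * sin_sq_add_cos_sq φ₁
    · simp only [Complex.add_im, Complex.ofReal_im, Complex.im_ofReal_mul,
        Complex.exp_ofReal_mul_I_im]
      rw [ht, hr]
      field_simp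
      ring
  refine ⟨r, by rw [hr]; positivity, ?_⟩
  have e1 : DD ρ r φ₁ = t * DD ρ ρ' (φ₁ + φ₂) := by
    rw [DD, DD, key, show (ρ : ℂ) - (((1 - t : ℝ) : ℂ) * ρ +
      t * (ρ' * Complex.exp ((φ₁ + φ₂ : ℝ) * Complex.I))) =
      t * (ρ - ρ' * Complex.exp ((φ₁ + φ₂ : ℝ) * Complex.I)) by push_cast; ring, norm_mul,
      Complex.norm_real, Real.norm_of_nonneg t0]
  have e2 : DD r ρ' φ₂ = (1 - t) * DD ρ ρ' (φ₁ + φ₂) := by
    have e := NAPlane_dist r ρ' φ₁ (φ₁ + φ₂)
    rw [add_sub_cancel_left] at e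
    rw [← e, DD, key, show ((1 - t : ℝ) : ℂ) * ρ +
      t * (ρ' * Complex.exp ((φ₁ + φ₂ : ℝ) * Complex.I)) -
      ρ' * Complex.exp ((φ₁ + φ₂ : ℝ) * Complex.I) =
      ((1 - t : ℝ) : ℂ) * (ρ - ρ' * Complex.exp ((φ₁ + φ₂ : ℝ) * Complex.I)) by push_cast; ring,
      norm_mul, Complex.norm_real, Real.norm_of_nonneg (by linarith)]
  rw [e1, e2]
  ring

/-- `ρm e^{is}` is the midpoint of `ρ` and `ρ' e^{iφ}` -/
def MidP (ρ ρ' φ ρm s : ℝ) : Prop :=
  (ρm : ℂ) * Complex.exp (s * Complex.I) = (ρ + ρ' * Complex.exp (φ * Complex.I)) / 2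

theorem DD_mid {ρ ρ' φ : ℝ} (h : 0 ≤ ρ) (h' : 0 ≤ ρ') (h0 : 0 ≤ φ) (hπ : φ ≤ π) :
    ∃ ρm s, 0 ≤ ρm ∧ 0 ≤ s ∧ s ≤ φ ∧ (φ = π → s = 0 ∨ s = π) ∧ MidP ρ ρ' φ ρm s := by
  obtain ⟨m, hm⟩ : ∃ m : ℂ, m = (ρ + ρ' * Complex.exp (φ * Complex.I)) / 2 := ⟨_, rfl⟩
  by_cases h0m : m = 0
  · refine ⟨0, 0, le_rfl, le_rfl, h0, fun _ => Or.inl rfl, ?_⟩
    rw [MidP, ← hm, h0m, Complex.ofReal_zero, zero_mul]
  have hs : 0 ≤ sin φ := sin_nonneg_of_nonneg_of_le_pi h0 hπ
  have him : m.im = ρ' * sin φ / 2 := by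
    rw [hm]
    simp only [Complex.div_ofNat_im, Complex.add_im, Complex.ofReal_im, Complex.im_ofReal_mul,
      Complex.exp_ofReal_mul_I_im, zero_add]
  have ha : 0 ≤ m.arg := Complex.arg_nonneg_iff.2 (by rw [him]; positivity)
  refine ⟨‖m‖, m.arg, norm_nonneg _, ha, ?_, fun hφ => ?_, ?_⟩
  · have e1 : angle (1 : ℂ) m = m.arg := by rw [Complex.angle_one_left h0m, abs_of_nonneg ha]
    have e2 : angle (1 : ℂ) (Complex.exp (φ * Complex.I)) = φ := by
      rw [Complex.angle_one_left (Complex.exp_ne_zero _), Complex.exp_mul_I,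
        Complex.arg_cos_add_sin_mul_I ⟨by linarith only [h0, pi_pos], hπ⟩, abs_of_nonneg h0]
    have e3 := NAPlane_span (u := 1) (w := Complex.exp (φ * Complex.I)) (y := m) (a := ρ / 2)
      (b := ρ' / 2) (by positivity) (by positivity) h0m (by
        rw [hm, Complex.real_smul, Complex.real_smul]
        push_cast
        ring)
    have e4 := angle_nonneg m (Complex.exp (φ * Complex.I))
    linarith
  · have : m.im = 0 := by rw [him, hφ, sin_pi, mul_zero, zero_div]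
    rcases le_or_gt 0 m.re with h1 | h1
    · exact Or.inl (Complex.arg_eq_zero_iff.2 ⟨h1, this⟩)
    · exact Or.inr (Complex.arg_eq_pi_iff.2 ⟨h1, this⟩)
  · rw [MidP, ← hm]
    exact Complex.norm_mul_exp_arg_mul_I m

theorem MidP.left {ρ ρ' φ ρm s : ℝ} (h : MidP ρ ρ' φ ρm s) : DD ρ ρm s = DD ρ ρ' φ / 2 := by
  rw [DD, DD, h, show (ρ : ℂ) - (ρ + ρ' * Complex.exp (φ * Complex.I)) / 2 =
    (ρ - ρ' * Complex.exp (φ * Complex.I)) / 2 by ring, norm_div, Complex.norm_ofNat]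

theorem MidP.right {ρ ρ' φ ρm s : ℝ} (h : MidP ρ ρ' φ ρm s) :
    DD ρ' ρm (φ - s) = DD ρ ρ' φ / 2 := by
  rw [DD_symm, ← NAPlane_dist, DD, h, show (ρ + ρ' * Complex.exp (φ * Complex.I)) / 2 -
    ρ' * Complex.exp (φ * Complex.I) = (ρ - ρ' * Complex.exp (φ * Complex.I)) / 2 by ring,
    norm_div, Complex.norm_ofNat]

theorem DD_cn {ρ ρ' φ ρm s ρp α β ψ : ℝ} (hm : MidP ρ ρ' φ ρm s) (h : 0 ≤ ρ) (h' : 0 ≤ ρ')
    (hρm : 0 ≤ ρm) (hp : 0 ≤ ρp) (hs0 : 0 ≤ s) (hs : s ≤ φ) (hφ : φ ≤ π) (hα0 : 0 ≤ α) (hα : α ≤ π)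
    (hβ0 : 0 ≤ β) (hβ : β ≤ π) (hψ0 : 0 ≤ ψ) (hψ : ψ ≤ π) (h₁ : |ψ - s| ≤ α)
    (h₂ : |ψ - (φ - s)| ≤ β) (h₃ : 2 * π ≤ α + β + φ ∨ ψ + s ≤ α ∨ ψ + (φ - s) ≤ β) :
    DD ρp ρm ψ ^ 2 ≤ (DD ρp ρ α ^ 2 + DD ρp ρ' β ^ 2) / 2 - DD ρ ρ' φ ^ 2 / 4 := by
  have hre : ρm * cos s = (ρ + ρ' * cos φ) / 2 := by
    have := congrArg Complex.re hm
    simpa only [Complex.div_ofNat_re, Complex.add_re, Complex.ofReal_re, Complex.re_ofReal_mul,
      Complex.exp_ofReal_mul_I_re] using this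
  have him : ρm * sin s = ρ' * sin φ / 2 := by
    have := congrArg Complex.im hm
    simpa only [Complex.div_ofNat_im, Complex.add_im, Complex.ofReal_im, Complex.im_ofReal_mul,
      Complex.exp_ofReal_mul_I_im, zero_add] using this
  have hsq : ρm ^ 2 = (ρ ^ 2 + ρ' ^ 2 + 2 * ρ * ρ' * cos φ) / 4 := by
    have e : ρm ^ 2 = (ρm * cos s) ^ 2 + (ρm * sin s) ^ 2 := by
      linear_combination (-ρm ^ 2) * sin_sq_add_cos_sq s
    rw [e, hre, him]
    linear_combination (ρ' ^ 2 / 4) * sin_sq_add_cos_sq φ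
  obtain ⟨ω, w1, w2, w3⟩ := NAPlane_omega hs0 hs hφ hα0 hα hβ0 hβ hψ0 h₁ h₂ h₃
  have e1 : 2 * (ρm * cos (ω - s)) = ρ * cos ω + ρ' * cos (ω - φ) := by
    rw [cos_sub, cos_sub]
    linear_combination (2 * cos ω) * hre + (2 * sin ω) * him
  have e2 := mul_le_mul_of_nonneg_left w1 hρm
  have e3 := mul_le_mul_of_nonneg_left w2 h
  have e4 := mul_le_mul_of_nonneg_left w3 h'
  have e5 : ρ * cos α + ρ' * cos β ≤ 2 * (ρm * cos ψ) := by linarith only [e1, e2, e3, e4]
  have e6 := mul_le_mul_of_nonneg_left e5 hp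
  rw [DD_sq, DD_sq, DD_sq, DD_sq, hsq]
  linarith only [e6]

theorem dist_eq_DD {x y : ℂ} (hx : ‖x‖ = 1) (hy : ‖y‖ = 1) {ρ ρ' : ℝ} :
    dist (ρ • x) (ρ' • y) = DD ρ ρ' (angle x y) := by
  rw [← sq_eq_sq₀ dist_nonneg (DD_nonneg _ _ _), DD_sq, dist_eq_norm, norm_sub_sq_real, norm_smul,
    norm_smul, hx, hy, real_inner_smul_left, real_inner_smul_right,
    inner_eq_cos_angle_of_norm_eq_one hx hy, mul_one, mul_one, Real.norm_eq_abs, Real.norm_eq_abs,
    sq_abs, sq_abs]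
  ring

theorem angle_pos_lt {u w : ℂ} (h : cross u w ≠ 0) : 0 < angle u w ∧ angle u w < π := by
  refine ⟨lt_of_le_of_ne (angle_nonneg _ _) fun e => h ?_,
    lt_of_le_of_ne (angle_le_pi _ _) fun e => h ?_⟩
  · obtain ⟨-, r, -, rfl⟩ := angle_eq_zero_iff.1 e.symm
    simp only [cross, Complex.smul_re, Complex.smul_im, smul_eq_mul]
    ring
  · obtain ⟨-, r, -, rfl⟩ := angle_eq_pi_iff.1 e
    simp only [cross, Complex.smul_re, Complex.smul_im, smul_eq_mul]
    ring

/-- angles add in a sector -/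
theorem angle_sector {u w : ℂ} (h : cross u w ≠ 0) {a b : ℝ} (ha : 0 ≤ a) (hb : 0 ≤ b)
    (hab : a • u + b • w ≠ 0) : angle u (a • u + b • w) + angle w (a • u + b • w) = angle u w := by
  have _ := h
  rw [angle_comm w, ← NAPlane_span ha hb hab rfl]

theorem angle_sector₂ {u w : ℂ} (h : cross u w ≠ 0) {a b a' b' : ℝ} (ha : 0 ≤ a) (hb : 0 ≤ b)
    (ha' : 0 ≤ a') (hb' : 0 ≤ b') (hab : a • u + b • w ≠ 0) (hab' : a' • u + b' • w ≠ 0) :
    angle (a • u + b • w) (a' • u + b' • w) =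
      |angle u (a • u + b • w) - angle u (a' • u + b' • w)| := by
  have _ := h
  rcases le_total (a' * b) (a * b') with hc | hc
  · have e := NAPlane_two ha hb ha' hb' hab hab' hc
    have e2 := angle_nonneg (a • u + b • w) (a' • u + b' • w)
    rw [abs_of_nonpos (by linarith)]
    linarith
  · have e := NAPlane_two ha' hb' ha hb hab' hab hc
    have e2 := angle_nonneg (a' • u + b' • w) (a • u + b • w)
    rw [abs_of_nonneg (by linarith), angle_comm]
    linarith

theorem angle_sector_zero {u w : ℂ} (h : cross u w ≠ 0) {a b : ℝ} (ha : 0 ≤ a) (hb : 0 ≤ b)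
    (hab : a • u + b • w ≠ 0) (h0 : angle u (a • u + b • w) = 0) : b = 0 := by
  have _ := ha
  have _ := hb
  have _ := hab
  obtain ⟨-, r, -, e⟩ := angle_eq_zero_iff.1 h0
  have e1 := congrArg Complex.re e
  have e2 := congrArg Complex.im e
  simp only [Complex.add_re, Complex.add_im, Complex.smul_re, Complex.smul_im, smul_eq_mul] at e1 e2
  have e3 : b * cross u w = 0 := by
    rw [cross]
    linear_combination u.re * e2 - u.im * e1
  exact (mul_eq_zero.1 e3).resolve_right h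

theorem angle_sector_surj {u w : ℂ} (h : cross u w ≠ 0) {s : ℝ} (h0 : 0 ≤ s) (h1 : s ≤ angle u w) :
    ∃ a b : ℝ, 0 ≤ a ∧ 0 ≤ b ∧ ‖a • u + b • w‖ = 1 ∧ angle u (a • u + b • w) = s := by
  have hu : u ≠ 0 := fun e => h (by simp [cross, e])
  have hne : ∀ t : ℝ, (1 - t) • u + t • w ≠ 0 := fun t e => by
    have e1 := congrArg Complex.re e
    have e2 := congrArg Complex.im e
    simp only [Complex.add_re, Complex.add_im, Complex.smul_re, Complex.smul_im, smul_eq_mul,
      Complex.zero_re, Complex.zero_im] at e1 e2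
    have e3 : t * cross u w = 0 := by
      rw [cross]
      linear_combination u.re * e2 - u.im * e1
    have e4 : (1 - t) * cross u w = 0 := by
      rw [cross]
      linear_combination w.im * e1 - w.re * e2
    exact h (by linear_combination e3 + e4)
  have hc : Continuous fun t : ℝ => angle u ((1 - t) • u + t • w) := by
    refine continuous_iff_continuousAt.2 fun t => ?_
    have c1 : Continuous fun t : ℝ => (u, (1 - t) • u + t • w) := by fun_prop
    exact ContinuousAt.comp (f := fun t : ℝ => (u, (1 - t) • u + t • w))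
      (g := fun x : ℂ × ℂ => angle x.1 x.2) (continuousAt_angle hu (hne t)) c1.continuousAt
  obtain ⟨t, ⟨t0, t1⟩, ht⟩ := intermediate_value_Icc (zero_le_one' ℝ) hc.continuousOn
    (show s ∈ Set.Icc (angle u ((1 - (0 : ℝ)) • u + (0 : ℝ) • w))
      (angle u ((1 - (1 : ℝ)) • u + (1 : ℝ) • w)) by
        rw [sub_zero, one_smul, zero_smul, add_zero, angle_self hu, sub_self, zero_smul, one_smul,
          zero_add]
        exact ⟨h0, h1⟩)
  have hn : 0 < ‖(1 - t) • u + t • w‖ := norm_pos_iff.2 (hne t)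
  have e : (‖(1 - t) • u + t • w‖⁻¹ * (1 - t)) • u + (‖(1 - t) • u + t • w‖⁻¹ * t) • w =
      ‖(1 - t) • u + t • w‖⁻¹ • ((1 - t) • u + t • w) := by
    rw [mul_smul, mul_smul, ← smul_add]
  refine ⟨‖(1 - t) • u + t • w‖⁻¹ * (1 - t), ‖(1 - t) • u + t • w‖⁻¹ * t,
    mul_nonneg (inv_pos.2 hn).le (by linarith), mul_nonneg (inv_pos.2 hn).le t0, ?_, ?_⟩
  · rw [e, norm_smul, norm_inv, norm_norm, inv_mul_cancel₀ hn.ne']
  · rw [e, angle_smul_right_of_pos _ _ (inv_pos.2 hn)]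
    exact ht

end Pool.Agent.Work.MP_0909b4_al.NA
end

-- merged part: Pool.Agent.Work.MP_0909b4_al.NAAG1
section
/-! Metric graphs given by coordinates on their edges: definitions and normal forms.

Plan.
* `ang_*`: routine (`sInf` of a nonempty set that is bounded below; reverse and concatenate chains).
* `nf`: put `f n = ang p (ι n)` and let `g n` be the minimum of `π`, of the `c n b p` with
  `In n b p`, and of the `θ n b + f b` with `E n b` (a finite minimum). `f n ≤ g n` by the triangle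
  inequality. By induction on a chain from `y` to `p` of length `r`: either `y, p` are in a common
  edge and `|c y - c p| ≤ r`, or `y = p`, or there is an edge `a b` containing `y` with
  `c a b y + g a ≤ r`, or `y = ι a` with `g a ≤ r`. In the step from `y` to `y'` inside the edge
  `a b`: if `y'` is an inner point use `inner`, else `y' = ι a` or `ι b` and one shows `g a ≤ r'`.
  This gives `f = g` (`ds`) and `nf`.
* `attained`: for vertices by strong induction on the number of vertices `v` with `f v < f n`.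
* `split`: induction on the chain and `surj`.
-/

namespace Pool.Agent.Work.MP_0909b4_al.NA

open Real

/-- a finite metric graph with edges shorter than `π` whose cycles have length at least `2 π`
(certified by potentials); `c a b` is the coordinate on the edge `a b` measured from `a` -/
structure AG where
  Y : Type
  N : Type
  fin : Finite N
  ι : N → Y
  E : N → N → Prop
  θ : N → N → ℝ
  In : N → N → Y → Prop
  c : N → N → Y → ℝ
  ι_inj : Function.Injective ι
  E_symm : ∀ {a b}, E a b → E b a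
  E_ne : ∀ {a b}, E a b → a ≠ b
  θ_symm : ∀ a b, θ a b = θ b a
  θ_pos : ∀ {a b}, E a b → 0 < θ a b
  θ_lt : ∀ {a b}, E a b → θ a b < π
  In_E : ∀ {a b y}, In a b y → E a b
  In_symm : ∀ {a b y}, In a b y → In b a y
  c_symm : ∀ {a b y}, In a b y → c b a y = θ a b - c a b y
  c_nonneg : ∀ {a b y}, In a b y → 0 ≤ c a b y
  In_ι : ∀ {a b n}, In a b (ι n) ↔ E a b ∧ (n = a ∨ n = b)
  c_ι : ∀ {a b}, E a b → c a b (ι a) = 0
  c_zero : ∀ {a b y}, In a b y → c a b y = 0 → y = ι a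
  inner : ∀ {a b a' b' y}, In a b y → In a' b' y → 0 < c a b y → 0 < c b a y →
    (a' = a ∧ b' = b) ∨ (a' = b ∧ b' = a)
  cover : ∀ y, (∃ a b, In a b y) ∨ ∃ n, y = ι n
  surj : ∀ {a b} (s : ℝ), E a b → 0 ≤ s → s ≤ θ a b → ∃ y, In a b y ∧ c a b y = s
  pot : ∀ {a b}, E a b → ∃ F : N → ℝ, F a + (2 * π - θ a b) ≤ F b ∧
    ∀ x y, E x y → ¬(x = a ∧ y = b) → ¬(x = b ∧ y = a) → F y ≤ F x + θ x y

namespace AG

variable (A : AG)

/-- chains of points, consecutive ones in a common edge, with their length -/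
inductive AC : A.Y → A.Y → ℝ → Prop
  | nil (y : A.Y) : AC y y 0
  | cons {a b : A.N} {x y z : A.Y} {r : ℝ} : A.In a b x → A.In a b y → AC y z r →
      AC x z (|A.c a b x - A.c a b y| + r)

/-- the path metric truncated at `π` -/
noncomputable def ang (x y : A.Y) : ℝ := sInf ({π} ∪ {r | A.AC x y r})

variable {A}

theorem AC.nonneg {x y : A.Y} {r : ℝ} (h : A.AC x y r) : 0 ≤ r := by
  induction h with
  | nil => exact le_rfl
  | cons _ _ _ ih => positivity

theorem AC.trans {x y z : A.Y} {r s : ℝ} (h : A.AC x y r) (h' : A.AC y z s) :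
    A.AC x z (r + s) := by
  induction h with
  | nil => simpa using h'
  | cons h1 h2 _ ih => rw [add_assoc]; exact .cons h1 h2 (ih h')

theorem NAAG1_step {a b : A.N} {x y : A.Y} (hx : A.In a b x) (hy : A.In a b y) :
    A.AC x y |A.c a b x - A.c a b y| := by
  simpa using AC.cons hx hy (AC.nil y)

theorem AC.symm {x y : A.Y} {r : ℝ} (h : A.AC x y r) : A.AC y x r := by
  induction h with
  | nil => exact .nil _
  | cons h1 h2 _ ih => rw [add_comm, abs_sub_comm]; exact ih.trans (NAAG1_step h2 h1)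

theorem NAAG1_bdd (x y : A.Y) : BddBelow ({π} ∪ {r | A.AC x y r}) := by
  refine ⟨0, ?_⟩
  rintro r (rfl | h)
  exacts [pi_pos.le, AC.nonneg h]

theorem NAAG1_le_ang {x y : A.Y} {t : ℝ} (h1 : t ≤ π) (h2 : ∀ r, A.AC x y r → t ≤ r) :
    t ≤ A.ang x y := by
  refine le_csInf ⟨π, Or.inl rfl⟩ ?_
  rintro r (rfl | h)
  exacts [h1, h2 r h]

theorem AC.ang_le {x y : A.Y} {r : ℝ} (h : A.AC x y r) : A.ang x y ≤ r := by
  exact csInf_le (NAAG1_bdd x y) (Or.inr h)

theorem ang_nonneg (x y : A.Y) : 0 ≤ A.ang x y := by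
  exact NAAG1_le_ang pi_pos.le fun _ h => h.nonneg

theorem ang_le_pi (x y : A.Y) : A.ang x y ≤ π := by
  exact csInf_le (NAAG1_bdd x y) (Or.inl rfl)

theorem ang_self (x : A.Y) : A.ang x x = 0 := by
  exact le_antisymm (AC.nil x).ang_le (ang_nonneg x x)

theorem ang_symm (x y : A.Y) : A.ang x y = A.ang y x := by
  exact le_antisymm (NAAG1_le_ang (ang_le_pi _ _) fun _ h => h.symm.ang_le)
    (NAAG1_le_ang (ang_le_pi _ _) fun _ h => h.symm.ang_le)

theorem ang_triangle (x y z : A.Y) : A.ang x z ≤ A.ang x y + A.ang y z := by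
  rw [← sub_le_iff_le_add]
  refine NAAG1_le_ang (by linarith [ang_le_pi x z, ang_nonneg y z]) fun r hr => ?_
  rw [sub_le_comm]
  refine NAAG1_le_ang (by linarith [ang_le_pi x z, hr.nonneg]) fun s hs => ?_
  linarith [(hr.trans hs).ang_le]

theorem ang_le_step {a b : A.N} {x y : A.Y} (hx : A.In a b x) (hy : A.In a b y) :
    A.ang x y ≤ |A.c a b x - A.c a b y| := by
  exact (NAAG1_step hx hy).ang_le

theorem c_le {a b : A.N} {y : A.Y} (hy : A.In a b y) : A.c a b y ≤ A.θ a b := by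
  linarith [A.c_symm hy, A.c_nonneg (A.In_symm hy)]

theorem NAAG1_vert {a b : A.N} {y : A.Y} (hy : A.In a b y) : A.AC (A.ι a) y (A.c a b y) := by
  have h := NAAG1_step (A.In_ι.2 ⟨A.In_E hy, Or.inl rfl⟩) hy
  rwa [A.c_ι (A.In_E hy), zero_sub, abs_neg, abs_of_nonneg (A.c_nonneg hy)] at h

theorem NAAG1_c_end {a b : A.N} (h : A.E a b) : A.c a b (A.ι b) = A.θ a b := by
  rw [A.c_symm (A.In_ι.2 ⟨A.E_symm h, Or.inl rfl⟩), A.c_ι (A.E_symm h), sub_zero, A.θ_symm]

/-- candidates for the distance of `p` to a vertex -/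
def NAAG1_G (p : A.Y) (n : A.N) : Set ℝ :=
  {t | t = π ∨ (p = A.ι n ∧ t = 0) ∨ (∃ b, A.In n b p ∧ t = A.c n b p) ∨
    ∃ b, A.E n b ∧ t = A.θ n b + A.ang p (A.ι b)}

theorem NAAG1_G_finite (p : A.Y) (n : A.N) : (NAAG1_G p n).Finite := by
  have := A.fin
  refine ((((Set.finite_range fun b => A.c n b p).union
    (Set.finite_range fun b => A.θ n b + A.ang p (A.ι b))).insert 0).insert π).subset ?_
  rintro t (rfl | ⟨-, rfl⟩ | ⟨b, -, rfl⟩ | ⟨b, -, rfl⟩)
  · exact Or.inl rfl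
  · exact Or.inr (Or.inl rfl)
  · exact Or.inr (Or.inr (Or.inl ⟨b, rfl⟩))
  · exact Or.inr (Or.inr (Or.inr ⟨b, rfl⟩))

/-- the least candidate -/
noncomputable def NAAG1_g (p : A.Y) (n : A.N) : ℝ := sInf (NAAG1_G p n)

theorem NAAG1_g_mem (p : A.Y) (n : A.N) : NAAG1_g p n ∈ NAAG1_G p n :=
  Set.Nonempty.csInf_mem ⟨π, Or.inl rfl⟩ (NAAG1_G_finite p n)

theorem NAAG1_g_le {p : A.Y} {n : A.N} {t : ℝ} (h : t ∈ NAAG1_G p n) : NAAG1_g p n ≤ t :=
  csInf_le (NAAG1_G_finite p n).bddBelow h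

theorem NAAG1_le_g (p : A.Y) (n : A.N) : A.ang p (A.ι n) ≤ NAAG1_g p n := by
  rcases NAAG1_g_mem p n with h | ⟨h1, h⟩ | ⟨b, h1, h⟩ | ⟨b, h1, h⟩ <;> rw [h]
  · exact ang_le_pi _ _
  · rw [h1, ang_self]
  · exact (NAAG1_vert h1).symm.ang_le
  · have h4 := (NAAG1_vert (A.In_ι.2 ⟨h1, Or.inr rfl⟩)).symm.ang_le
    rw [NAAG1_c_end h1] at h4
    linarith [ang_triangle p (A.ι b) (A.ι n)]

/-- one of the three ways to reach `p` from a point of the edge `a b` has length at most `r` -/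
def NAAG1_M (p : A.Y) (a b : A.N) (y : A.Y) (r : ℝ) : Prop :=
  (A.In a b p ∧ |A.c a b y - A.c a b p| ≤ r) ∨ A.c a b y + NAAG1_g p a ≤ r ∨
    A.c b a y + NAAG1_g p b ≤ r

theorem NAAG1_M_symm {p y : A.Y} {a b : A.N} {r : ℝ} (hy : A.In a b y) (h : NAAG1_M p a b y r) :
    NAAG1_M p b a y r := by
  rcases h with ⟨h1, h2⟩ | h | h
  · refine Or.inl ⟨A.In_symm h1, ?_⟩
    rwa [A.c_symm hy, A.c_symm h1, sub_sub_sub_cancel_left, abs_sub_comm]
  · exact Or.inr (Or.inr h)
  · exact Or.inr (Or.inl h)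

theorem NAAG1_M_vert {p : A.Y} {a b : A.N} {r : ℝ} (e : A.E a b) (h : NAAG1_M p a b (A.ι a) r) :
    NAAG1_g p a ≤ r := by
  rcases h with ⟨h1, h2⟩ | h | h
  · rw [A.c_ι e, zero_sub, abs_neg, abs_of_nonneg (A.c_nonneg h1)] at h2
    exact (NAAG1_g_le (Or.inr (Or.inr (Or.inl ⟨b, h1, rfl⟩)))).trans h2
  · rwa [A.c_ι e, zero_add] at h
  · rw [NAAG1_c_end (A.E_symm e), A.θ_symm] at h
    linarith [NAAG1_g_le (p := p) (Or.inr (Or.inr (Or.inr ⟨b, e, rfl⟩))), NAAG1_le_g p b]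

theorem NAAG1_inv {p y : A.Y} {r : ℝ} (h : A.AC y p r) :
    (∀ n, y = A.ι n → NAAG1_g p n ≤ r) ∧ ∀ a b, A.In a b y → NAAG1_M p a b y r := by
  induction h with
  | nil y =>
    exact ⟨fun n hn => NAAG1_g_le (Or.inr (Or.inl ⟨hn, rfl⟩)), fun a b hy => Or.inl ⟨hy, by simp⟩⟩
  | @cons a b x y z r hx hy _ ih =>
    have hM : NAAG1_M z a b x (|A.c a b x - A.c a b y| + r) := by
      rcases ih.2 a b hy with ⟨h1, h2⟩ | h1 | h1
      · exact Or.inl ⟨h1, by linarith [abs_sub_le (A.c a b x) (A.c a b y) (A.c a b z)]⟩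
      · exact Or.inr (Or.inl (by linarith [le_abs_self (A.c a b x - A.c a b y)]))
      · refine Or.inr (Or.inr ?_)
        linarith [neg_le_abs (A.c a b x - A.c a b y), A.c_symm hx, A.c_symm hy]
    have hv : ∀ n, x = A.ι n → NAAG1_g z n ≤ |A.c a b x - A.c a b y| + r := by
      rintro n rfl
      obtain ⟨e, rfl | rfl⟩ := A.In_ι.1 hx
      · exact NAAG1_M_vert e hM
      · exact NAAG1_M_vert (A.E_symm e) (NAAG1_M_symm hx hM)
    refine ⟨hv, fun a' b' hx' => ?_⟩
    have hw : ∀ n, x = A.ι n → NAAG1_M z a' b' x (|A.c a b x - A.c a b y| + r) := by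
      intro n hn
      have k := hv n hn
      subst hn
      obtain ⟨e, rfl | rfl⟩ := A.In_ι.1 hx'
      · exact Or.inr (Or.inl (by rwa [A.c_ι e, zero_add]))
      · exact Or.inr (Or.inr (by rwa [A.c_ι (A.E_symm e), zero_add]))
    rcases (A.c_nonneg hx).eq_or_lt with h1 | h1
    · exact hw a (A.c_zero hx h1.symm)
    rcases (A.c_nonneg (A.In_symm hx)).eq_or_lt with h2 | h2
    · exact hw b (A.c_zero (A.In_symm hx) h2.symm)
    rcases A.inner hx hx' h1 h2 with ⟨rfl, rfl⟩ | ⟨rfl, rfl⟩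
    · exact hM
    · exact NAAG1_M_symm hx hM

theorem NAAG1_g_eq (p : A.Y) (n : A.N) : NAAG1_g p n = A.ang p (A.ι n) := by
  refine le_antisymm ?_ (NAAG1_le_g p n)
  rw [ang_symm]
  exact NAAG1_le_ang (NAAG1_g_le (Or.inl rfl)) fun r hr => (NAAG1_inv hr).1 n rfl

/-- descent step at a vertex -/
theorem ds (p : A.Y) (n : A.N) (h : A.ang p (A.ι n) < π) :
    p = A.ι n ∨ (∃ b, A.In n b p ∧ A.ang p (A.ι n) = A.c n b p) ∨
      ∃ b, A.E n b ∧ A.ang p (A.ι n) = A.θ n b + A.ang p (A.ι b) := by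
  rcases NAAG1_g_mem p n with h1 | h1 | h1 | h1
  · rw [NAAG1_g_eq] at h1; exact absurd h1 h.ne
  · exact Or.inl h1.1
  · rw [NAAG1_g_eq] at h1; exact Or.inr (Or.inl h1)
  · rw [NAAG1_g_eq] at h1; exact Or.inr (Or.inr h1)

/-- normal form on an edge -/
theorem nf (p : A.Y) {a b : A.N} {y : A.Y} (hy : A.In a b y) (h : A.ang p y < π) :
    (A.In a b p ∧ A.ang p y = |A.c a b y - A.c a b p|) ∨
      A.ang p y = A.ang p (A.ι a) + A.c a b y ∨ A.ang p y = A.ang p (A.ι b) + A.c b a y := by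
  classical
  have k : min (min π (if A.In a b p then |A.c a b y - A.c a b p| else π))
      (min (A.ang p (A.ι a) + A.c a b y) (A.ang p (A.ι b) + A.c b a y)) ≤ A.ang p y := by
    rw [ang_symm p y]
    refine NAAG1_le_ang ((min_le_left _ _).trans (min_le_left _ _)) fun r hr => ?_
    rcases (NAAG1_inv hr).2 a b hy with ⟨h1, h2⟩ | h1 | h1
    · rw [if_pos h1]; exact (min_le_left _ _).trans ((min_le_right _ _).trans h2)
    · rw [NAAG1_g_eq, add_comm] at h1
      exact (min_le_right _ _).trans ((min_le_left _ _).trans h1)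
    · rw [NAAG1_g_eq, add_comm] at h1
      exact (min_le_right _ _).trans ((min_le_right _ _).trans h1)
  simp only [min_le_iff] at k
  rcases k with (k | k) | k | k
  · exact absurd h (not_lt.2 k)
  · split_ifs at k with hp
    · exact Or.inl ⟨hp, le_antisymm (ang_symm p y ▸ ang_le_step hy hp) k⟩
    · exact absurd h (not_lt.2 k)
  · exact Or.inr (Or.inl (le_antisymm
      ((ang_triangle p _ y).trans (add_le_add le_rfl (NAAG1_vert hy).ang_le)) k))
  · exact Or.inr (Or.inr (le_antisymm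
      ((ang_triangle p _ y).trans (add_le_add le_rfl (NAAG1_vert (A.In_symm hy)).ang_le)) k))

theorem attained {x y : A.Y} (h : A.ang x y < π) : A.AC x y (A.ang x y) := by
  have := A.fin
  have hv : ∀ n, A.ang x (A.ι n) < π → A.AC x (A.ι n) (A.ang x (A.ι n)) := by
    have : IsTrans A.N fun b n => A.ang x (A.ι b) < A.ang x (A.ι n) := ⟨fun _ _ _ => lt_trans⟩
    have : Std.Irrefl fun b n : A.N => A.ang x (A.ι b) < A.ang x (A.ι n) := ⟨fun _ => lt_irrefl _⟩
    intro n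
    induction n using (Finite.wellFounded_of_trans_of_irrefl
      fun b n : A.N => A.ang x (A.ι b) < A.ang x (A.ι n)).induction with
    | _ n ih =>
    intro hn
    rcases ds x n hn with rfl | ⟨b, h1, h2⟩ | ⟨b, h1, h2⟩
    · rw [ang_self]; exact .nil _
    · rw [h2]; exact (NAAG1_vert h1).symm
    · have h3 := A.θ_pos h1
      have h4 := (NAAG1_vert (A.In_ι.2 ⟨h1, Or.inr rfl⟩)).symm
      rw [NAAG1_c_end h1] at h4
      rw [h2, add_comm]
      exact (ih b (by linarith) (by linarith)).trans h4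
  rcases A.cover y with ⟨a, b, hy⟩ | ⟨n, rfl⟩
  · rcases nf x hy h with ⟨h1, h2⟩ | h1 | h1
    · rw [h2]; exact (NAAG1_step hy h1).symm
    · rw [h1]; exact (hv a (by linarith [A.c_nonneg hy])).trans (NAAG1_vert hy)
    · rw [h1]
      exact (hv b (by linarith [A.c_nonneg (A.In_symm hy)])).trans (NAAG1_vert (A.In_symm hy))
  · exact hv n h

theorem AC.split {x y : A.Y} {r : ℝ} (h : A.AC x y r) {s : ℝ} (h0 : 0 ≤ s) (h1 : s ≤ r) :
    ∃ m, A.AC x m s ∧ A.AC m y (r - s) := by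
  induction h generalizing s with
  | nil y =>
    obtain rfl : s = 0 := le_antisymm h1 h0
    exact ⟨y, .nil y, by simpa using AC.nil y⟩
  | @cons a b x y z r hx hy hr ih =>
    rcases le_total |A.c a b x - A.c a b y| s with h2 | h2
    · obtain ⟨m, k1, k2⟩ := ih (s := s - |A.c a b x - A.c a b y|) (by linarith) (by linarith)
      refine ⟨m, ?_, ?_⟩
      · convert AC.cons hx hy k1 using 1; ring
      · convert k2 using 1; ring
    · have x0 := A.c_nonneg hx
      have y0 := A.c_nonneg hy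
      have x1 := c_le hx
      have y1 := c_le hy
      rcases le_total (A.c a b x) (A.c a b y) with h3 | h3
      · rw [abs_of_nonpos (by linarith only [h3, h0, h2])] at h2 ⊢
        obtain ⟨m, hm, e⟩ := A.surj (A.c a b x + s) (A.In_E hx) (by linarith) (by linarith)
        refine ⟨m, ?_, ?_⟩
        · convert NAAG1_step hx hm using 1
          rw [e, abs_of_nonpos (by linarith only [h0])]; ring
        · convert AC.cons hm hy hr using 1
          rw [e, abs_of_nonpos (by linarith)]; ring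
      · rw [abs_of_nonneg (by linarith)] at h2 ⊢
        obtain ⟨m, hm, e⟩ := A.surj (A.c a b x - s) (A.In_E hx) (by linarith) (by linarith)
        refine ⟨m, ?_, ?_⟩
        · convert NAAG1_step hx hm using 1
          rw [e, abs_of_nonneg (by linarith)]; ring
        · convert AC.cons hm hy hr using 1
          rw [e, abs_of_nonneg (by linarith)]; ring

end AG

end Pool.Agent.Work.MP_0909b4_al.NA
end

-- merged part: Pool.Agent.Work.MP_0909b4_al.NAAG2
section
/-! Consequences of the potentials. Throughout `f y = ang p y`.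

Plan.
* `mp` (maximum principle): strong induction on the number of vertices `v'` with `f v' < f v`, using
  `ds`.
* `ext`: if `p = ι v` take `B = F v`; else `p` is an inner point of a unique edge `v v'`, which is
  not `a b`; take `B = F v + (c v v' p / θ v v') (F v' - F v)`.
* `k0`: first `f (ι a) = c a b p =: s`. If it is smaller, take the potential `F` of `a b`
  (`F a + 2π - θ ≤ F b`), `B = F b + θ - s`, `T = s` in `mp`; this gives `s > π`. Then use `nf`.
* `k1`: both values are `< π`. If neither equality holds, no descent step uses the edge `a b`, so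
  `mp` applies to `F` and to `-F` with `B` from `ext` and `T = π`; hence `2π - θ ≤ f a + f b`.
* `k2`: `n` has two different descents. If `p` is on the edge `n a` with `s = c n a p > 0`, use the
  potential of `n a`, `B = F a + θ - s`, `T = f n`. Else use `ext` and `mp` twice with `T = f n`.
-/

namespace Pool.Agent.Work.MP_0909b4_al.NA

open Real

namespace AG

variable {A : AG}

theorem mp (p : A.Y) (F : A.N → ℝ) (B T : ℝ) (hT : T ≤ π) (h0 : ∀ v, p = A.ι v → B ≤ F v)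
    (h1 : ∀ v v', A.In v v' p → A.ang p (A.ι v) = A.c v v' p → A.ang p (A.ι v) < T →
      B ≤ F v + A.c v v' p)
    (h2 : ∀ v v', A.E v v' → A.ang p (A.ι v) = A.θ v v' + A.ang p (A.ι v') →
      A.ang p (A.ι v) < T → F v' ≤ F v + A.θ v v') :
    ∀ v, A.ang p (A.ι v) < T → B ≤ F v + A.ang p (A.ι v) := by
  by_contra hno
  push Not at hno
  have := A.fin
  obtain ⟨v, ⟨hv1, hv2⟩, hmin⟩ := Set.exists_min_image
    {v | A.ang p (A.ι v) < T ∧ F v + A.ang p (A.ι v) < B} (fun v => A.ang p (A.ι v))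
    (Set.toFinite _) hno
  rcases ds p v (hv1.trans_le hT) with h | ⟨b, hb, h⟩ | ⟨b, hb, h⟩
  · have := h0 v h
    have := ang_nonneg p (A.ι v)
    linarith
  · have := h1 v b hb h hv1
    linarith
  · have hθ := A.θ_pos hb
    have h3 := h2 v b hb h hv1
    have h4 : A.ang p (A.ι b) < T := by linarith
    have h5 := hmin b ⟨h4, by linarith⟩
    linarith

theorem NAAG2_c_end {a b : A.N} (h : A.E a b) : A.c a b (A.ι b) = A.θ a b := by
  have h1 : A.In b a (A.ι b) := A.In_ι.2 ⟨A.E_symm h, Or.inl rfl⟩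
  rw [A.c_symm h1, A.c_ι (A.E_symm h), sub_zero, A.θ_symm]

theorem ext (p : A.Y) {a b : A.N} (F : A.N → ℝ)
    (hF : ∀ x y, A.E x y → ¬(x = a ∧ y = b) → ¬(x = b ∧ y = a) → F y ≤ F x + A.θ x y)
    (hp : ¬(A.In a b p ∧ 0 < A.c a b p ∧ 0 < A.c b a p)) :
    ∃ B : ℝ, (∀ v, p = A.ι v → B = F v) ∧
      ∀ v v', A.In v v' p → ¬(v = a ∧ v' = b) → ¬(v = b ∧ v' = a) → |B - F v| ≤ A.c v v' p := by
  have hF' : ∀ x y, A.E x y → ¬(x = a ∧ y = b) → ¬(x = b ∧ y = a) → F x ≤ F y + A.θ x y :=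
    fun x y h h1 h2 => by
      rw [A.θ_symm]
      exact hF y x (A.E_symm h) (fun e => h2 ⟨e.2, e.1⟩) fun e => h1 ⟨e.2, e.1⟩
  by_cases hv : ∃ n, p = A.ι n
  · obtain ⟨n, rfl⟩ := hv
    refine ⟨F n, fun v e => by rw [A.ι_inj e], fun v v' h h1 h2 => ?_⟩
    obtain ⟨hE, rfl | rfl⟩ := A.In_ι.1 h
    · rw [sub_self, abs_zero]
      exact A.c_nonneg h
    · rw [NAAG2_c_end hE, abs_le]
      have := hF v n hE h1 h2
      have := hF' v n hE h1 h2
      constructor <;> linarith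
  · obtain ⟨u, u', hu⟩ := (A.cover p).resolve_right hv
    have hu' := A.In_symm hu
    have p1 : 0 < A.c u u' p :=
      (A.c_nonneg hu).lt_of_ne fun e => hv ⟨u, A.c_zero hu e.symm⟩
    have p2 : 0 < A.c u' u p :=
      (A.c_nonneg hu').lt_of_ne fun e => hv ⟨u', A.c_zero hu' e.symm⟩
    have n1 : ¬(u = a ∧ u' = b) := by
      rintro ⟨rfl, rfl⟩
      exact hp ⟨hu, p1, p2⟩
    have n2 : ¬(u = b ∧ u' = a) := by
      rintro ⟨rfl, rfl⟩
      exact hp ⟨hu', p2, p1⟩
    have e1 := hF u u' (A.In_E hu) n1 n2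
    have e2 := hF' u u' (A.In_E hu) n1 n2
    have e3 := A.c_symm hu
    refine ⟨min (F u + A.c u u' p) (F u' + A.c u' u p), fun v e => (hv ⟨v, e⟩).elim,
      fun v v' h _ _ => ?_⟩
    have m1 := min_le_left (F u + A.c u u' p) (F u' + A.c u' u p)
    have m2 := min_le_right (F u + A.c u u' p) (F u' + A.c u' u p)
    have m3 := min_choice (F u + A.c u u' p) (F u' + A.c u' u p)
    rcases A.inner hu h p1 p2 with ⟨rfl, rfl⟩ | ⟨rfl, rfl⟩ <;> rw [abs_le] <;>
      rcases m3 with m3 | m3 <;> constructor <;> linarith only [p1, m3, m1, e2, e3, e1, m2, p2]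

theorem NAAG2_edge {p : A.Y} {a b : A.N} (hp : A.In a b p) (hs : 0 < A.c a b p) (F : A.N → ℝ)
    (hF : ∀ x y, A.E x y → ¬(x = a ∧ y = b) → ¬(x = b ∧ y = a) → F y ≤ F x + A.θ x y) :
    ∀ v, A.ang p (A.ι v) < A.c a b p →
      F b + A.θ a b - A.c a b p ≤ F v + A.ang p (A.ι v) := by
  have hE := A.In_E hp
  have hle := c_le hp
  refine mp p F _ _ (hle.trans (A.θ_lt hE).le) (fun v e => ?_) (fun v v' h e hlt => ?_)
    fun v v' h e hlt => ?_
  · subst e
    obtain ⟨-, rfl | rfl⟩ := A.In_ι.1 hp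
    · rw [A.c_ι hE] at hs
      exact (lt_irrefl _ hs).elim
    · rw [NAAG2_c_end hE]
      linarith
  · rcases (A.c_nonneg (A.In_symm hp)).eq_or_lt with h0 | h0
    · have hpb := A.c_zero (A.In_symm hp) h0.symm
      subst hpb
      rw [NAAG2_c_end hE, add_sub_cancel_right]
      obtain ⟨hE', rfl | rfl⟩ := A.In_ι.1 h
      · exact le_add_of_nonneg_right (A.c_nonneg h)
      · rw [NAAG2_c_end hE']
        refine hF v b hE' ?_ fun e' => A.E_ne hE e'.2.symm
        rintro ⟨rfl, -⟩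
        exact hlt.ne e
    · rcases A.inner hp h hs h0 with ⟨rfl, rfl⟩ | ⟨rfl, rfl⟩
      · exact (hlt.ne e).elim
      · rw [A.c_symm hp]
        linarith
  · have := ang_nonneg p (A.ι v')
    refine hF v v' h ?_ ?_
    · rintro ⟨rfl, rfl⟩
      linarith
    · rintro ⟨rfl, rfl⟩
      rw [A.θ_symm] at e
      linarith

theorem NAAG2_end {p : A.Y} {a b : A.N} (hp : A.In a b p) : A.ang p (A.ι a) = A.c a b p := by
  have hE := A.In_E hp
  have h1 := ang_le_step hp (A.In_ι.2 ⟨hE, Or.inl rfl⟩)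
  rw [A.c_ι hE, sub_zero, abs_of_nonneg (A.c_nonneg hp)] at h1
  refine h1.eq_or_lt.resolve_right fun h => ?_
  obtain ⟨F, hF1, hF⟩ := A.pot hE
  have h2 := NAAG2_edge hp ((ang_nonneg _ _).trans_lt h) F hF a h
  have := c_le hp
  have := A.θ_lt hE
  linarith

theorem NAAG2_two {p : A.Y} {a b : A.N} (hp : ¬A.In a b p) (F : A.N → ℝ)
    (hF : ∀ x y, A.E x y → ¬(x = a ∧ y = b) → ¬(x = b ∧ y = a) → F y ≤ F x + A.θ x y)
    {T : ℝ} (hT : T ≤ π)
    (h1 : A.ang p (A.ι a) = A.θ a b + A.ang p (A.ι b) → T ≤ A.ang p (A.ι a))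
    (h2 : A.ang p (A.ι b) = A.θ b a + A.ang p (A.ι a) → T ≤ A.ang p (A.ι b)) :
    ∃ B : ℝ, (∀ v, A.ang p (A.ι v) < T → B ≤ F v + A.ang p (A.ι v)) ∧
      ∀ v, A.ang p (A.ι v) < T → -B ≤ -F v + A.ang p (A.ι v) := by
  obtain ⟨B, hB0, hB1⟩ := ext p F hF fun h => hp h.1
  have k1 : ∀ v v', A.In v v' p → |B - F v| ≤ A.c v v' p := fun v v' h => by
    refine hB1 v v' h ?_ ?_
    · rintro ⟨rfl, rfl⟩
      exact hp h
    · rintro ⟨rfl, rfl⟩
      exact hp (A.In_symm h)
  have k2 : ∀ v v', A.ang p (A.ι v) = A.θ v v' + A.ang p (A.ι v') → A.ang p (A.ι v) < T →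
      ¬(v = a ∧ v' = b) ∧ ¬(v = b ∧ v' = a) := fun v v' e hlt => by
    constructor
    · rintro ⟨rfl, rfl⟩
      exact hlt.not_ge (h1 e)
    · rintro ⟨rfl, rfl⟩
      exact hlt.not_ge (h2 e)
  refine ⟨B, mp p F B T hT (fun v e => (hB0 v e).le) (fun v v' h _ _ => ?_)
    fun v v' h e hlt => hF v v' h (k2 v v' e hlt).1 (k2 v v' e hlt).2,
    mp p (fun v => -F v) (-B) T hT (fun v e => neg_le_neg (hB0 v e).ge) (fun v v' h _ _ => ?_)
    fun v v' h e hlt => ?_⟩
  · linarith [(abs_le.1 (k1 v v' h)).2]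
  · linarith [(abs_le.1 (k1 v v' h)).1]
  · have := hF v' v (A.E_symm h) (fun e' => (k2 v v' e hlt).2 ⟨e'.2, e'.1⟩)
      fun e' => (k2 v v' e hlt).1 ⟨e'.2, e'.1⟩
    rw [A.θ_symm] at this
    linarith

theorem k0 {p y : A.Y} {a b : A.N} (hp : A.In a b p) (hy : A.In a b y) :
    A.ang p y = |A.c a b y - A.c a b p| := by
  have h1 := ang_le_step hp hy
  rw [abs_sub_comm] at h1
  have a1 := A.c_nonneg hp
  have a2 := A.c_nonneg hy
  have a3 := c_le hp
  have a4 := c_le hy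
  have a5 := A.θ_lt (A.In_E hp)
  have h2 : A.ang p y < π := h1.trans_lt (abs_lt.2 ⟨by linarith, by linarith⟩)
  rcases nf p hy h2 with h | h | h
  · exact h.2
  · rw [NAAG2_end hp] at h
    exact le_antisymm h1 (abs_le.2 ⟨by linarith, by linarith⟩)
  · rw [NAAG2_end (A.In_symm hp), A.c_symm hp, A.c_symm hy] at h
    exact le_antisymm h1 (abs_le.2 ⟨by linarith, by linarith⟩)

theorem k1 {p : A.Y} {a b : A.N} (hab : A.E a b) (hp : ¬A.In a b p)
    (h : A.ang p (A.ι a) + A.ang p (A.ι b) + A.θ a b < 2 * π) :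
    A.ang p (A.ι a) = A.ang p (A.ι b) + A.θ a b ∨ A.ang p (A.ι b) = A.ang p (A.ι a) + A.θ a b := by
  by_contra hno
  push Not at hno
  have ia : A.In a b (A.ι a) := A.In_ι.2 ⟨hab, Or.inl rfl⟩
  have ib : A.In a b (A.ι b) := A.In_ι.2 ⟨hab, Or.inr rfl⟩
  have hθ := A.θ_pos hab
  have d1 := ang_le_step ia ib
  have d2 := ang_le_step ib ia
  rw [A.c_ι hab, NAAG2_c_end hab, zero_sub, abs_neg, abs_of_pos hθ] at d1
  rw [A.c_ι hab, NAAG2_c_end hab, sub_zero, abs_of_pos hθ] at d2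
  have t1 := ang_triangle p (A.ι a) (A.ι b)
  have t2 := ang_triangle p (A.ι b) (A.ι a)
  obtain ⟨F, hF1, hF⟩ := A.pot hab
  obtain ⟨B, b1, b2⟩ := NAAG2_two hp F hF le_rfl (fun e => (hno.1 (by linarith only [e, d2, t2])).elim)
    fun e => (hno.2 (by rw [A.θ_symm] at e; linarith only [e, d1, t1])).elim
  have := b1 a (by linarith)
  have := b2 b (by linarith)
  linarith

theorem NAAG2_one {p : A.Y} {n a b : A.N} (hb : A.E n b) (hab : a ≠ b) (hp : A.In n a p)
    (hs : 0 < A.c n a p)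
    (h₂ : (A.In n b p ∧ 0 < A.c n b p) ∨ A.ang p (A.ι n) = A.θ n b + A.ang p (A.ι b)) : False := by
  have ha := A.In_E hp
  rcases h₂ with ⟨h₂, -⟩ | h₂
  · rcases (A.c_nonneg (A.In_symm hp)).eq_or_lt with h0 | h0
    · have hpb := A.c_zero (A.In_symm hp) h0.symm
      subst hpb
      rcases (A.In_ι.1 h₂).2 with e | e
      · exact A.E_ne ha e.symm
      · exact hab e
    · rcases A.inner hp h₂ hs h0 with e | e
      · exact hab e.2.symm
      · exact A.E_ne ha e.1
  · obtain ⟨F, hF1, hF⟩ := A.pot ha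
    have e := NAAG2_end hp
    have hθ := A.θ_pos hb
    have h3 := NAAG2_edge hp hs F hF b (by linarith)
    have h4 := hF n b hb (fun e' => hab e'.2.symm) fun e' => A.E_ne ha e'.1
    have := c_le hp
    have := A.θ_lt ha
    linarith

theorem k2 {p : A.Y} {n a b : A.N} (ha : A.E n a) (hb : A.E n b) (hab : a ≠ b)
    (h : A.ang p (A.ι n) < π)
    (h₁ : (A.In n a p ∧ 0 < A.c n a p) ∨ A.ang p (A.ι n) = A.θ n a + A.ang p (A.ι a))
    (h₂ : (A.In n b p ∧ 0 < A.c n b p) ∨ A.ang p (A.ι n) = A.θ n b + A.ang p (A.ι b)) : False := by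
  by_cases c1 : A.In n a p ∧ 0 < A.c n a p
  · exact NAAG2_one hb hab c1.1 c1.2 h₂
  by_cases c2 : A.In n b p ∧ 0 < A.c n b p
  · exact NAAG2_one ha hab.symm c2.1 c2.2 h₁
  have e1 := h₁.resolve_left c1
  have e2 := h₂.resolve_left c2
  have θa := A.θ_pos ha
  have θb := A.θ_pos hb
  have hp : ¬A.In n a p := fun hp => by
    have e := NAAG2_end hp
    have := ang_nonneg p (A.ι a)
    exact c1 ⟨hp, by linarith⟩
  obtain ⟨F, hF1, hF⟩ := A.pot ha
  obtain ⟨B, b1, b2⟩ := NAAG2_two hp F hF h.le (fun _ => le_rfl) fun e => by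
    rw [A.θ_symm] at e
    linarith
  have := b1 b (by linarith)
  have := b2 a (by linarith)
  have := hF n b hb (fun e' => hab e'.2.symm) fun e' => A.E_ne ha e'.1
  linarith

end AG

end Pool.Agent.Work.MP_0909b4_al.NA
end

-- merged part: Pool.Agent.Work.MP_0909b4_al.NAAG3
section
/-! Small triangles in the metric graph are tripods. Throughout `f y = ang p y`.

Plan.
* If `In n0 n y`, `In n0 n z`, `c n0 n y < c n0 n z` then either `y = ι n0` or `y` is an inner point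
  of `n0 n`. So two such data at `y` towards the same `n` have the same `n0`; towards `n ≠ n'`, either
  `y = ι n0` with the same `n0`, or `n0 = n'` and `n0' = n`.
* `desc_unique`: inner case: if `p` is on the edge use `k0`; else `nf` for `z`, `z'` gives
  `f y = f n + θ - c y = f n' + c y`, and `k1` is contradicted. Vertex case: reduce to `k2` with
  `k0` and `nf`.
* `step`: let `e = n0' n'` be the edge of `y` and `x`. If `p` is on `e` use `k0` and
  `desc_unique`. Else `nf` for `x` and `y`, `k1`, `desc_unique`.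
* `ds'`: from `cover`, `ds`, `nf`.
* `asc`: strong induction on the number of vertices `v` with `ang a (ι v) < ang a y`; one step of
  `ds'` for `a`, then `step`; the new descent of `p` points back, and `a` does not descend that way.
* `ang_split`: `f m < π`; if `f m > 0` it descends towards some `n`; `a` and `b` cannot both descend
  towards `n` (shortcut inside the edge), apply `asc`.
-/

namespace Pool.Agent.Work.MP_0909b4_al.NA

open Real

namespace AG

variable {A : AG}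

/-- the distance from `p` decreases at unit speed when one moves from `y` towards the vertex `n` -/
def Desc (p y : A.Y) (n : A.N) : Prop :=
  ∃ n0 z, A.In n0 n y ∧ A.In n0 n z ∧ A.c n0 n y < A.c n0 n z ∧
    A.ang p y = A.c n0 n z - A.c n0 n y + A.ang p z

lemma NAAG3_in_l {a b : A.N} (h : A.E a b) : A.In a b (A.ι a) := A.In_ι.2 ⟨h, Or.inl rfl⟩

lemma NAAG3_in_r {a b : A.N} (h : A.E a b) : A.In a b (A.ι b) := A.In_ι.2 ⟨h, Or.inr rfl⟩

lemma NAAG3_c_r {a b : A.N} (h : A.E a b) : A.c a b (A.ι b) = A.θ a b := by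
  have h1 := A.c_symm (NAAG3_in_l (A.E_symm h))
  rw [A.c_ι (A.E_symm h), A.θ_symm b a] at h1
  linarith

lemma NAAG3_lip (p : A.Y) {a b : A.N} {x y : A.Y} (hx : A.In a b x) (hy : A.In a b y) :
    A.ang p y ≤ A.ang p x + |A.c a b x - A.c a b y| :=
  (ang_triangle p x y).trans (by linarith [ang_le_step hx hy])

lemma NAAG3_lip_l (p : A.Y) {a b : A.N} {y : A.Y} (hy : A.In a b y) :
    A.ang p y ≤ A.ang p (A.ι a) + A.c a b y := by
  have h := NAAG3_lip p (NAAG3_in_l (A.In_E hy)) hy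
  rwa [A.c_ι (A.In_E hy), zero_sub, abs_neg, abs_of_nonneg (A.c_nonneg hy)] at h

lemma NAAG3_lip_r (p : A.Y) {a b : A.N} {y : A.Y} (hy : A.In a b y) :
    A.ang p y ≤ A.ang p (A.ι b) + (A.θ a b - A.c a b y) := by
  have h := NAAG3_lip_l p (A.In_symm hy)
  rwa [A.c_symm hy] at h

/-- the two possible kinds of descent -/
lemma NAAG3_char {p y z : A.Y} {n0 n : A.N} (hy : A.In n0 n y) (hz : A.In n0 n z)
    (hc : A.c n0 n y < A.c n0 n z) (he : A.ang p y = A.c n0 n z - A.c n0 n y + A.ang p z)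
    (hπ : A.ang p y < π) :
    (A.In n0 n p ∧ A.c n0 n y < A.c n0 n p) ∨
      (¬A.In n0 n p ∧ A.ang p y = A.θ n0 n - A.c n0 n y + A.ang p (A.ι n)) := by
  by_cases hp : A.In n0 n p
  · refine Or.inl ⟨hp, ?_⟩
    by_contra hle
    have hle := not_lt.1 hle
    rw [k0 hp hy, k0 hp hz, abs_of_nonneg (by linarith), abs_of_nonneg (by linarith)] at he
    linarith
  · refine Or.inr ⟨hp, ?_⟩
    rcases nf p hz (by linarith) with h | h | h
    · exact (hp h.1).elim
    · have := NAAG3_lip_l p hy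
      linarith only [hc, he, h, this]
    · rw [A.c_symm hz] at h
      linarith only [he, h]

/-- a vertex that is not the far end of an edge is the near end -/
lemma NAAG3_vert {a b v : A.N} (h : A.In a b (A.ι v)) (hc : A.c a b (A.ι v) < A.θ a b) :
    v = a := by
  rcases (A.In_ι.1 h).2 with h1 | h1
  · exact h1
  · rw [h1, NAAG3_c_r (A.In_E h)] at hc
    exact (lt_irrefl _ hc).elim

lemma NAAG3_same {y : A.Y} {n0 n0' n : A.N} (hy : A.In n0 n y) (hy' : A.In n0' n y)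
    (hc : A.c n0 n y < A.θ n0 n) : n0' = n0 := by
  rcases (A.c_nonneg hy).lt_or_eq with h0 | h0
  · rcases A.inner hy hy' h0 (by rw [A.c_symm hy]; linarith) with h | h
    · exact h.1
    · exact (A.E_ne (A.In_E hy) h.2.symm).elim
  · have h1 := A.c_zero hy h0.symm
    rw [h1] at hy'
    rcases (A.In_ι.1 hy').2 with h | h
    · exact h.symm
    · exact (A.E_ne (A.In_E hy) h).elim

lemma NAAG3_desc_end {p y : A.Y} {n0 n : A.N} (hy : A.In n0 n y) (hc : A.c n0 n y < A.θ n0 n)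
    (he : A.ang p y = A.θ n0 n - A.c n0 n y + A.ang p (A.ι n)) : Desc p y n :=
  ⟨n0, A.ι n, hy, NAAG3_in_r (A.In_E hy), by rwa [NAAG3_c_r (A.In_E hy)],
    by rwa [NAAG3_c_r (A.In_E hy)]⟩

lemma NAAG3_ds_vert (q : A.Y) (v : A.N) (h0 : 0 < A.ang q (A.ι v)) (h : A.ang q (A.ι v) < π) :
    ∃ n0 n z, A.In n0 n (A.ι v) ∧ A.In n0 n z ∧ A.c n0 n (A.ι v) < A.c n0 n z ∧
      A.ang q (A.ι v) = A.c n0 n z - A.c n0 n (A.ι v) + A.ang q z ∧ (z = q ∨ z = A.ι n) := by
  rcases ds q v h with h1 | ⟨b, hb, h1⟩ | ⟨b, hb, h1⟩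
  · rw [h1, ang_self] at h0
    exact (lt_irrefl _ h0).elim
  · refine ⟨v, b, q, NAAG3_in_l (A.In_E hb), hb, ?_, ?_, Or.inl rfl⟩
    · rw [A.c_ι (A.In_E hb)]
      linarith
    · rw [A.c_ι (A.In_E hb), ang_self]
      linarith
  · refine ⟨v, b, A.ι b, NAAG3_in_l hb, NAAG3_in_r hb, ?_, ?_, Or.inr rfl⟩
    · rw [A.c_ι hb, NAAG3_c_r hb]
      exact A.θ_pos hb
    · rw [A.c_ι hb, NAAG3_c_r hb]
      linarith

theorem desc_unique {p y : A.Y} {n n' : A.N} (h : Desc p y n) (h' : Desc p y n')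
    (hy : A.ang p y < π) : n = n' := by
  obtain ⟨n0, z, h1, h2, h3, h4⟩ := h
  obtain ⟨n0', z', h1', h2', h3', h4'⟩ := h'
  have hθ := c_le h2
  have hθ' := c_le h2'
  have hk := NAAG3_char h1 h2 h3 h4 hy
  have hk' := NAAG3_char h1' h2' h3' h4' hy
  by_contra hne
  rcases (A.c_nonneg h1).lt_or_eq with h0 | h0
  · rcases A.inner h1 h1' h0 (by rw [A.c_symm h1]; linarith) with h | h
    · exact hne h.2.symm
    · obtain ⟨rfl, rfl⟩ := h
      rw [A.c_symm h1] at hk'
      rcases hk with ⟨hp, hl⟩ | ⟨hp, hl⟩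
      · rcases hk' with ⟨-, hl'⟩ | ⟨hp', -⟩
        · rw [A.c_symm hp] at hl'
          linarith
        · exact hp' (A.In_symm hp)
      · rcases hk' with ⟨hp', -⟩ | ⟨-, hl'⟩
        · exact hp (A.In_symm hp')
        · rw [A.θ_symm n0' n'] at hl'
          rcases k1 (A.In_E h1) hp (by linarith) with h | h <;> linarith only [h0, hl, hl', h, h3, hθ]
  · have hv := A.c_zero h1 h0.symm
    subst hv
    have hn0 : n0 = n0' := NAAG3_vert h1' (by linarith)
    subst hn0
    rw [A.c_ι (A.In_E h1)] at hk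
    rw [A.c_ι (A.In_E h1')] at hk'
    refine k2 (A.In_E h1) (A.In_E h1') hne hy ?_ ?_
    · rcases hk with h | h
      · exact Or.inl h
      · exact Or.inr (by linarith only [h, h.2])
    · rcases hk' with h | h
      · exact Or.inl h
      · exact Or.inr (by linarith only [h, h.2])

theorem step {p y x : A.Y} {n n0' n' : A.N} (h : Desc p y n) (hn : n ≠ n') (hy : A.In n0' n' y)
    (hx : A.In n0' n' x) (hc : A.c n0' n' y < A.c n0' n' x)
    (hs : A.ang p x + A.ang p y + (A.c n0' n' x - A.c n0' n' y) < 2 * π) :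
    A.ang p x = A.ang p y + (A.c n0' n' x - A.c n0' n' y) := by
  have hθ := c_le hx
  have hc0 := A.c_nonneg hy
  have l1 := NAAG3_lip p hx hy
  have l2 := NAAG3_lip p hy hx
  rw [abs_of_pos (by linarith)] at l1
  rw [abs_of_neg (by linarith)] at l2
  have hyπ : A.ang p y < π := by linarith
  have hxπ : A.ang p x < π := by linarith
  have hnd : ¬Desc p y n' := fun h' => hn (desc_unique h h' hyπ)
  by_cases hp : A.In n0' n' p
  · rcases le_or_gt (A.c n0' n' p) (A.c n0' n' y) with hle | hlt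
    · rw [k0 hp hy, k0 hp hx, abs_of_nonneg (by linarith), abs_of_nonneg (by linarith)]
      ring
    · refine (hnd ⟨n0', p, hy, hp, hlt, ?_⟩).elim
      rw [k0 hp hy, ang_self, abs_of_neg (by linarith)]
      ring
  · have hne : A.ang p y ≠ A.θ n0' n' - A.c n0' n' y + A.ang p (A.ι n') := fun he =>
      hnd (NAAG3_desc_end hy (by linarith) he)
    have hy1 : A.ang p y = A.ang p (A.ι n0') + A.c n0' n' y := by
      rcases nf p hy hyπ with h1 | h1 | h1
      · exact (hp h1.1).elim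
      · exact h1
      · rw [A.c_symm hy] at h1
        exact (hne (by linarith only [h1])).elim
    rcases nf p hx hxπ with h1 | h1 | h1
    · exact (hp h1.1).elim
    · linarith only [hy1, h1, l2]
    · rw [A.c_symm hx] at h1
      have l3 := NAAG3_lip_r p hy
      have l4 := NAAG3_lip_l p hx
      rcases k1 (A.In_E hy) hp (by linarith) with h2 | h2
      · exact (hne (by linarith only [hc0, hy1, h2, l1, h1])).elim
      · linarith only [hθ, hy1, h1, h2, l2]

theorem ds' (q y : A.Y) (h0 : 0 < A.ang q y) (h : A.ang q y < π) :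
    ∃ n0 n z, A.In n0 n y ∧ A.In n0 n z ∧ A.c n0 n y < A.c n0 n z ∧
      A.ang q y = A.c n0 n z - A.c n0 n y + A.ang q z ∧ (z = q ∨ z = A.ι n) := by
  rcases A.cover y with ⟨a, b, hy⟩ | ⟨v, rfl⟩
  · rcases (A.c_nonneg hy).lt_or_eq with h1 | h1
    · rcases (A.c_nonneg (A.In_symm hy)).lt_or_eq with h2 | h2
      · have hE := A.In_E hy
        have hs := A.c_symm hy
        rcases nf q hy h with ⟨hq, h3⟩ | h3 | h3
        · rcases lt_trichotomy (A.c a b y) (A.c a b q) with h4 | h4 | h4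
          · refine ⟨a, b, q, hy, hq, h4, ?_, Or.inl rfl⟩
            rw [h3, ang_self, abs_of_neg (by linarith)]
            ring
          · rw [h3, h4, sub_self, abs_zero] at h0
            exact (lt_irrefl _ h0).elim
          · refine ⟨b, a, q, A.In_symm hy, A.In_symm hq, ?_, ?_, Or.inl rfl⟩
            · rw [hs, A.c_symm hq]
              linarith
            · rw [h3, ang_self, abs_of_pos (by linarith), hs, A.c_symm hq]
              ring
        · refine ⟨b, a, A.ι a, A.In_symm hy, NAAG3_in_r (A.E_symm hE), ?_, ?_, Or.inr rfl⟩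
          · rw [NAAG3_c_r (A.E_symm hE), hs, A.θ_symm b a]
            linarith
          · rw [NAAG3_c_r (A.E_symm hE), hs, A.θ_symm b a]
            linarith
        · refine ⟨a, b, A.ι b, hy, NAAG3_in_r hE, ?_, ?_, Or.inr rfl⟩
          · rw [NAAG3_c_r hE]
            linarith
          · rw [NAAG3_c_r hE]
            linarith
      · have hv := A.c_zero (A.In_symm hy) h2.symm
        subst hv
        exact NAAG3_ds_vert q b h0 h
    · have hv := A.c_zero hy h1.symm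
      subst hv
      exact NAAG3_ds_vert q a h0 h
  · exact NAAG3_ds_vert q v h0 h

theorem asc {p a y : A.Y} {n : A.N} (h : Desc p y n) (h' : ¬Desc a y n) (ha : A.ang a y < π)
    (hs : A.ang p a + A.ang p y + A.ang a y < 2 * π) : A.ang p y + A.ang a y ≤ A.ang p a := by
  have := A.fin
  induction hk : {v : A.N | A.ang a (A.ι v) < A.ang a y}.ncard using Nat.strong_induction_on
    generalizing y n with
  | _ k ih =>
    rcases (ang_nonneg a y).lt_or_eq with h0 | h0
    swap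
    · have := ang_triangle p a y
      linarith only [h0, this]
    obtain ⟨m0, m, z, h1, h2, h3, h4, h5⟩ := ds' a y h0 ha
    have hnm : n ≠ m := fun he => h' (he ▸ ⟨m0, z, h1, h2, h3, h4⟩)
    have ht := ang_triangle p a z
    have hst := step h hnm h1 h2 h3 (by linarith only [hs, h4, ht])
    rcases h5 with rfl | rfl
    · rw [ang_self] at h4
      linarith
    · have hE := A.In_E h1
      have hr := NAAG3_c_r hE
      have hs1 := A.c_symm h1
      have hl := A.c_ι (A.E_symm hE)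
      have hd : Desc p (A.ι m) m0 :=
        ⟨m, y, A.In_symm h2, A.In_symm h1, by rw [hl, hs1]; linarith, by rw [hl, hs1]; linarith only [hst, hr]⟩
      have hnd : ¬Desc a (A.ι m) m0 := by
        rintro ⟨n0, w, g1, g2, g3, g4⟩
        have hn0 : m = n0 := NAAG3_vert g1 (by linarith only [g3, g2, c_le g2])
        subst hn0
        rcases NAAG3_char g1 g2 g3 g4 (by linarith only [ha, h3, h4]) with ⟨hp, hlt⟩ | ⟨-, he⟩
        · have e1 := k0 hp g1
          have e2 := k0 hp (A.In_symm h1)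
          rw [hl] at hlt
          rw [hl, zero_sub, abs_neg, abs_of_pos hlt] at e1
          rw [hs1] at e2
          have e3 : |A.θ m0 m - A.c m0 m y - A.c m m0 a| <
              A.θ m0 m - A.c m0 m y + A.c m m0 a := abs_lt.2 ⟨by linarith only [h3, hr], by linarith only [hlt]⟩
          linarith only [h4, hr, e1, e2, e3]
        · rw [hl, A.θ_symm m m0] at he
          have := NAAG3_lip_l a h1
          linarith only [h3, h4, hr, he, this]
      have hlt : {v : A.N | A.ang a (A.ι v) < A.ang a (A.ι m)}.ncard < k := by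
        rw [← hk]
        refine Set.ncard_lt_ncard ⟨fun v hv => ?_, fun hsub => ?_⟩ (Set.toFinite _)
        · have hv' : A.ang a (A.ι v) < A.ang a (A.ι m) := hv
          exact show A.ang a (A.ι v) < A.ang a y by linarith only [h3, h4, hv']
        · have h6 : A.ang a (A.ι m) < A.ang a y := by linarith only [h3, h4]
          have h7 : A.ang a (A.ι m) < A.ang a (A.ι m) := hsub h6
          exact lt_irrefl _ h7
      have := ih _ hlt hd hnd (by linarith only [ha, h3, h4]) (by linarith only [hs, h4, hst]) rfl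
      linarith only [h4, hst, this]

theorem ang_split (p a b m : A.Y) (hab : A.ang a b = A.ang a m + A.ang b m) (hπ : A.ang a b < π)
    (hs : A.ang p a + A.ang p b + A.ang a b < 2 * π) :
    A.ang p m + A.ang a m ≤ A.ang p a ∨ A.ang p m + A.ang b m ≤ A.ang p b := by
  have t1 := ang_triangle p a m
  have t2 := ang_triangle p b m
  have n1 := ang_nonneg a m
  have n2 := ang_nonneg b m
  rcases (ang_nonneg p m).lt_or_eq with h0 | h0
  swap
  · have t3 := ang_triangle a p m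
    rw [ang_symm a p] at t3
    exact Or.inl (by linarith only [h0, t3])
  obtain ⟨n0, n, z, h1, h2, h3, h4, -⟩ := ds' p m h0 (by linarith)
  have hd : Desc p m n := ⟨n0, z, h1, h2, h3, h4⟩
  by_cases hda : Desc a m n
  · by_cases hdb : Desc b m n
    · exfalso
      obtain ⟨u, w, g1, g2, g3, g4⟩ := hda
      obtain ⟨u', w', g1', g2', g3', g4'⟩ := hdb
      have hu : u' = u := NAAG3_same g1 g1' (by linarith only [g3, g2, c_le g2])
      subst hu
      have t3 := ang_triangle a w' b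
      have t4 := NAAG3_lip a g2 g2'
      rw [ang_symm w' b] at t3
      have t5 : |A.c u' n w - A.c u' n w'| <
          A.c u' n w - A.c u' n m + (A.c u' n w' - A.c u' n m) :=
        abs_lt.2 ⟨by linarith only [g3], by linarith⟩
      linarith only [hab, g4', g4, t3, t4, t5]
    · exact Or.inr (asc hd hdb (by linarith) (by linarith))
  · exact Or.inl (asc hd hda (by linarith) (by linarith))

end AG

end Pool.Agent.Work.MP_0909b4_al.NA
end
end

-- merged part: Pool.Agent.Work.MP_0909b4_al.NAGon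
section
/-! Families of strictly convex polygons.

Plan.
* `nx_bij`: `cyc` applied to `nx c, c` shows that `nx` is surjective; the type is finite.
* `vt_inj`: if `c ≠ c'` in one polygon then `c' ≠ nx c` or `c ≠ nx c'` (`three`), and `convex` fails
  when `vt c = vt c'`.
* `ctr_side`: `cr c` is affine, `≥ 0` at all vertices and `> 0` at `vt (nx (nx c))`.
  `cross (vt c - o) (vt (nx c) - o) = cr c o`.
* `fan`: the numbers `g c = cross (vt c - o) (z - o)` add up to `0` over the polygon, so there is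
  `c` with `0 ≤ g c` and `g (nx c) ≤ 0` (walk along `nx` from a corner with `0 ≤ g`). Then
  `z - o = a (vt c - o) + b (vt (nx c) - o)` with `a, b ≥ 0`, and `0 ≤ cr c z` gives `a + b ≤ 1`.
* `weights` from `fan`; `on_side`, `seg_inter`: in a convex combination with `cr c = 0` only the two
  ends of the side `c` can have positive weight.
* `winding`: the product of the quotients `d (nx a) / d a` is `1`, each has argument equal to the
  angle, in `(0, π)`; so the sum of the angles is a positive multiple of `2π`.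
* `cyc_pot`: `F (nx^[i] (nx a₀)) = ` the sum of the first `i` weights, `i` below the period.
-/

namespace Pool.Agent.Work.MP_0909b4_al.NA

open Real InnerProductGeometry

/-- `α` is the set of corners, `fc` gives the polygon of a corner, `nx` the next corner in
counterclockwise order, `vt` the position -/
structure Gon (α F : Type) where
  fin : Finite α
  fc : α → F
  nx : α → α
  vt : α → ℂ
  fc_nx : ∀ c, fc (nx c) = fc c
  cyc : ∀ c c', fc c = fc c' → ∃ n, nx^[n] c = c'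
  three : ∀ c, nx (nx c) ≠ c
  convex : ∀ c c', fc c = fc c' → c' ≠ c → c' ≠ nx c → 0 < cross (vt (nx c) - vt c) (vt c' - vt c)

theorem winding {α : Type} [Fintype α] [Nonempty α] (nx : α → α) (h : Function.Bijective nx)
    (d : α → ℂ) (hd : ∀ a, 0 < cross (d a) (d (nx a))) : 2 * π ≤ ∑ a, angle (d a) (d (nx a)) := by
  have hz : ∀ a, d a ≠ 0 := by
    intro a e
    have := hd a
    simp [cross, e] at this
  have him : ∀ a, 0 < (d (nx a) / d a).im := by
    intro a
    have h1 := hd a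
    have h2 : 0 < Complex.normSq (d a) := Complex.normSq_pos.2 (hz a)
    rw [Complex.div_im, ← sub_div]
    apply div_pos _ h2
    unfold cross at h1
    linarith
  have hpos : ∀ a, 0 < Complex.arg (d (nx a) / d a) := by
    intro a
    have h1 : 0 ≤ Complex.arg (d (nx a) / d a) := Complex.arg_nonneg_iff.2 (him a).le
    rcases h1.lt_or_eq with h2 | h2
    · exact h2
    · have := (Complex.arg_eq_zero_iff.1 h2.symm).2
      have := him a
      linarith
  have hang : ∀ a, angle (d a) (d (nx a)) = Complex.arg (d (nx a) / d a) := by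
    intro a
    rw [angle_comm, Complex.angle_eq_abs_arg (hz _) (hz _), abs_of_pos (hpos a)]
  have hprod : ∏ a, d (nx a) / d a = 1 := by
    rw [Finset.prod_div_distrib, h.prod_comp d]
    exact div_self (Finset.prod_ne_zero_iff.2 fun a _ => hz a)
  have hq : ∀ a, d (nx a) / d a ≠ 0 := fun a => div_ne_zero (hz _) (hz _)
  have hexp : Complex.exp (((∑ a, Complex.arg (d (nx a) / d a) : ℝ) : ℂ) * Complex.I) = 1 := by
    rw [Complex.ofReal_sum, Finset.sum_mul, Complex.exp_sum]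
    have h1 : ∀ a, Complex.exp ((Complex.arg (d (nx a) / d a) : ℂ) * Complex.I) =
        (d (nx a) / d a) / ((‖d (nx a) / d a‖ : ℝ) : ℂ) := by
      intro a
      have h2 : ((‖d (nx a) / d a‖ : ℝ) : ℂ) ≠ 0 := by
        exact_mod_cast norm_ne_zero_iff.2 (hq a)
      rw [eq_div_iff h2, mul_comm]
      exact Complex.norm_mul_exp_arg_mul_I _
    simp only [h1]
    rw [Finset.prod_div_distrib, hprod, ← Complex.ofReal_prod, ← norm_prod, hprod]
    simp
  obtain ⟨k, hk⟩ := Complex.exp_eq_one_iff.1 hexp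
  have hk' : ∑ a, Complex.arg (d (nx a) / d a) = k * (2 * π) := by
    have h1 : (((∑ a, Complex.arg (d (nx a) / d a) : ℝ) : ℂ)) = ((k * (2 * π) : ℝ) : ℂ) := by
      apply mul_right_cancel₀ Complex.I_ne_zero
      rw [hk]
      push_cast
      ring
    exact_mod_cast h1
  have hs : 0 < ∑ a, Complex.arg (d (nx a) / d a) :=
    Finset.sum_pos (fun a _ => hpos a) Finset.univ_nonempty
  simp only [hang]
  rw [hk'] at hs ⊢
  have hp : 0 < 2 * π := by positivity
  have h1 : (0 : ℝ) < k := (mul_pos_iff_of_pos_right hp).1 hs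
  have h2 : (1 : ℝ) ≤ k := by
    have : (0 : ℤ) < k := by exact_mod_cast h1
    exact_mod_cast this
  linarith only [hp, h2, mul_nonneg_of_nonpos_of_nonpos (le_of_lt (Mathlib.Tactic.Linarith.sub_neg_of_lt hp)) (Mathlib.Tactic.Linarith.sub_nonpos_of_le h2)]

theorem cyc_pot {α : Type} [Fintype α] (nx : α → α) (h : ∀ a a', ∃ n, nx^[n] a = a') (w : α → ℝ)
    (a₀ : α) : ∃ F : α → ℝ, F a₀ - F (nx a₀) = ∑ a, w a - w a₀ ∧
      ∀ a, a ≠ a₀ → F (nx a) = F a + w a := by
  classical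
  have hsurj : Function.Surjective nx := by
    intro a
    obtain ⟨n, hn⟩ := h (nx a) a
    refine ⟨nx^[n] a, ?_⟩
    rw [← Function.iterate_succ_apply' nx n a, Function.iterate_succ_apply, hn]
  have hbij : Function.Bijective nx := Finite.surjective_iff_bijective.1 hsurj
  let idx : α → ℕ := fun a => Nat.find (h (nx a₀) a)
  have hidx : ∀ a, nx^[idx a] (nx a₀) = a := fun a => Nat.find_spec (h (nx a₀) a)
  have hmin : ∀ a n, nx^[n] (nx a₀) = a → idx a ≤ n := fun a n hn => Nat.find_min' _ hn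
  have hstep : ∀ a, a ≠ a₀ → idx (nx a) = idx a + 1 := by
    intro a ha
    apply le_antisymm
    · apply hmin
      rw [Function.iterate_succ_apply', hidx]
    · have h1 := hidx (nx a)
      cases hm : idx (nx a) with
      | zero =>
        rw [hm] at h1
        exact absurd (hbij.1 h1).symm ha
      | succ m =>
        rw [hm, Function.iterate_succ_apply'] at h1
        exact Nat.succ_le_succ (hmin a m (hbij.1 h1))
  let G : α → ℝ := fun a => ∑ j ∈ Finset.range (idx a), w (nx^[j] (nx a₀))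
  have hG : ∀ a, a ≠ a₀ → G (nx a) = G a + w a := by
    intro a ha
    simp only [G]
    rw [hstep a ha, Finset.sum_range_succ, hidx]
  refine ⟨G, ?_, hG⟩
  have h1 : ∑ a, (G (nx a) - G a) = 0 := by
    rw [Finset.sum_sub_distrib, hbij.sum_comp G, sub_self]
  rw [← Finset.add_sum_erase _ _ (Finset.mem_univ a₀)] at h1
  have h2 : ∑ a ∈ Finset.univ.erase a₀, (G (nx a) - G a) = ∑ a ∈ Finset.univ.erase a₀, w a := by
    apply Finset.sum_congr rfl
    intro a ha
    rw [hG a (Finset.ne_of_mem_erase ha)]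
    ring
  rw [← Finset.add_sum_erase _ _ (Finset.mem_univ a₀)]
  linarith only [h1, h2]

namespace Gon

variable {α F : Type} (P : Gon α F)

/-- the affine function that vanishes on the side `c` -/
def cr (c : α) (z : ℂ) : ℝ := cross (P.vt (P.nx c) - P.vt c) (z - P.vt c)

/-- the polygon -/
def poly (f : F) : Set ℂ := {z | ∀ c, P.fc c = f → 0 ≤ P.cr c z}

/-- the side that starts at `c` -/
def seg (c : α) : Set ℂ := segment ℝ (P.vt c) (P.vt (P.nx c))

/-- the centre of mass of the vertices -/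
noncomputable def ctr (f : F) : ℂ :=
  (Nat.card {c // P.fc c = f} : ℝ)⁻¹ • ∑ᶠ c : {c // P.fc c = f}, P.vt c.1

theorem nx_bij : Function.Bijective P.nx := by
  haveI := P.fin
  apply Finite.surjective_iff_bijective.1
  intro a
  obtain ⟨n, hn⟩ := P.cyc (P.nx a) a (P.fc_nx a)
  refine ⟨P.nx^[n] a, ?_⟩
  rw [← Function.iterate_succ_apply' P.nx n a, Function.iterate_succ_apply, hn]

theorem nx_ne (c : α) : P.nx c ≠ c := by
  intro e
  apply P.three c
  rw [e, e]

theorem vt_inj {c c' : α} (h : P.fc c = P.fc c') (e : P.vt c = P.vt c') : c = c' := by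
  by_contra hne
  by_cases h1 : c' = P.nx c
  · have h2 : c ≠ P.nx c' := by
      rw [h1]
      exact (P.three c).symm
    have := P.convex c' c h.symm hne h2
    simp [cross, e] at this
  · have := P.convex c c' h (Ne.symm hne) h1
    simp [cross, e] at this

theorem vt_nx_ne (c : α) : P.vt (P.nx c) ≠ P.vt c := by
  intro e
  exact P.nx_ne c (P.vt_inj (P.fc_nx c) e)

theorem NAGon_cr_self (c : α) : P.cr c (P.vt c) = 0 := by
  simp [cr, cross]

theorem NAGon_cr_nx (c : α) : P.cr c (P.vt (P.nx c)) = 0 := by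
  simp only [cr, cross]
  ring

theorem NAGon_cr_comb (c : α) (x y : ℂ) {a b : ℝ} (h : a + b = 1) :
    P.cr c (a • x + b • y) = a * P.cr c x + b * P.cr c y := by
  have hb : b = 1 - a := by linarith
  simp only [cr, cross, hb, Complex.sub_re, Complex.sub_im, Complex.add_re, Complex.add_im,
    Complex.smul_re, Complex.smul_im, smul_eq_mul]
  ring

theorem NAGon_cr_sum (c : α) {ι : Type} (s : Finset ι) (w : ι → ℝ) (z : ι → ℂ)
    (h : ∑ i ∈ s, w i = 1) : P.cr c (∑ i ∈ s, w i • z i) = ∑ i ∈ s, w i * P.cr c (z i) := by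
  have h1 : ∀ i, w i * P.cr c (z i) =
      (P.vt (P.nx c) - P.vt c).re * (w i * (z i).im) -
        (P.vt (P.nx c) - P.vt c).im * (w i * (z i).re) +
        w i * ((P.vt (P.nx c) - P.vt c).im * (P.vt c).re -
          (P.vt (P.nx c) - P.vt c).re * (P.vt c).im) := by
    intro i
    simp only [cr, cross, Complex.sub_re, Complex.sub_im]
    ring
  simp only [h1]
  rw [Finset.sum_add_distrib, Finset.sum_sub_distrib, ← Finset.mul_sum, ← Finset.mul_sum,
    ← Finset.sum_mul, h]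
  simp only [cr, cross, Complex.sub_re, Complex.sub_im, Complex.re_sum, Complex.im_sum,
    Complex.smul_re, Complex.smul_im, smul_eq_mul]
  ring

theorem vt_mem (c : α) : P.vt c ∈ P.poly (P.fc c) := by
  intro c' h
  by_cases h1 : c = c'
  · rw [h1, NAGon_cr_self]
  by_cases h2 : c = P.nx c'
  · rw [h2, NAGon_cr_nx]
  exact (P.convex c' c h h1 h2).le

theorem poly_convex (f : F) : Convex ℝ (P.poly f) := by
  intro x hx y hy a b ha hb hab c hc
  rw [P.NAGon_cr_comb c x y hab]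
  exact add_nonneg (mul_nonneg ha (hx c hc)) (mul_nonneg hb (hy c hc))

theorem poly_closed (f : F) : IsClosed (P.poly f) := by
  have : P.poly f = ⋂ c, ⋂ (_ : P.fc c = f), {z | 0 ≤ P.cr c z} := by
    ext z
    simp [poly]
  rw [this]
  refine isClosed_iInter fun c => isClosed_iInter fun _ => isClosed_le continuous_const ?_
  unfold cr cross
  fun_prop

theorem seg_sub (c : α) : P.seg c ⊆ P.poly (P.fc c) := by
  apply (P.poly_convex _).segment_subset (P.vt_mem c)
  have := P.vt_mem (P.nx c)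
  rwa [P.fc_nx] at this

theorem cr_seg {c : α} {z : ℂ} (h : z ∈ P.seg c) : P.cr c z = 0 := by
  obtain ⟨a, b, _, _, hab, rfl⟩ := h
  rw [P.NAGon_cr_comb c _ _ hab, NAGon_cr_self, NAGon_cr_nx]
  ring

theorem NAGon_ctr_weights [Fintype α] (c₀ : α) : ∃ w : α → ℝ,
    (∀ c, P.fc c = P.fc c₀ → 0 < w c) ∧ (∀ c, P.fc c ≠ P.fc c₀ → w c = 0) ∧ ∑ c, w c = 1 ∧
    ∑ c, w c • P.vt c = P.ctr (P.fc c₀) := by
  classical
  haveI : Nonempty {c // P.fc c = P.fc c₀} := ⟨⟨c₀, rfl⟩⟩
  have hN : (0 : ℝ) < (Nat.card {c // P.fc c = P.fc c₀} : ℝ) := by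
    exact_mod_cast Nat.card_pos
  refine ⟨fun c => if P.fc c = P.fc c₀ then (Nat.card {c // P.fc c = P.fc c₀} : ℝ)⁻¹ else 0,
    ?_, ?_, ?_, ?_⟩
  · intro c hc
    simp only [hc, if_true]
    exact inv_pos.2 hN
  · intro c hc
    simp only [hc, if_false]
  · rw [← Finset.sum_filter, Finset.sum_const, nsmul_eq_mul, ← Fintype.card_subtype,
      ← Nat.card_eq_fintype_card]
    exact mul_inv_cancel₀ hN.ne'
  · unfold ctr
    rw [finsum_eq_sum_of_fintype,
      ← Finset.sum_subtype (Finset.univ.filter fun c => P.fc c = P.fc c₀) (by simp) P.vt,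
      Finset.smul_sum, Finset.sum_filter]
    apply Finset.sum_congr rfl
    intro c _
    by_cases hc : P.fc c = P.fc c₀
    · simp only [hc, if_true]
    · simp only [hc, if_false, zero_smul]

theorem ctr_side (c : α) : 0 < P.cr c (P.ctr (P.fc c)) := by
  classical
  haveI := P.fin
  letI := Fintype.ofFinite α
  obtain ⟨w, hw, hw0, hw1, hc⟩ := P.NAGon_ctr_weights c
  rw [← hc, P.NAGon_cr_sum c _ _ _ hw1]
  apply Finset.sum_pos'
  · intro c' _
    by_cases h : P.fc c' = P.fc c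
    · exact mul_nonneg (hw c' h).le (P.vt_mem c' c h.symm)
    · rw [hw0 c' h, zero_mul]
  · have h : P.fc (P.nx (P.nx c)) = P.fc c := by rw [P.fc_nx, P.fc_nx]
    exact ⟨P.nx (P.nx c), Finset.mem_univ _,
      mul_pos (hw _ h) (P.convex c _ h.symm (P.three c) (P.nx_ne _))⟩

theorem ctr_cross (c : α) :
    0 < cross (P.vt c - P.ctr (P.fc c)) (P.vt (P.nx c) - P.ctr (P.fc c)) := by
  have h := P.ctr_side c
  simp only [cr, cross, Complex.sub_re, Complex.sub_im] at h ⊢
  linarith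

theorem fan (c₀ : α) {z : ℂ} (h : z ∈ P.poly (P.fc c₀)) : ∃ (c : α) (a b : ℝ), P.fc c = P.fc c₀ ∧
    0 ≤ a ∧ 0 ≤ b ∧ a + b ≤ 1 ∧
    z = P.ctr (P.fc c) + a • (P.vt c - P.ctr (P.fc c)) + b • (P.vt (P.nx c) - P.ctr (P.fc c)) := by
  classical
  haveI := P.fin
  letI := Fintype.ofFinite α
  obtain ⟨w, hw, hw0, hw1, hc⟩ := P.NAGon_ctr_weights c₀
  set o := P.ctr (P.fc c₀) with ho
  let g : α → ℝ := fun c => cross (P.vt c - o) (z - o)
  have hsum : ∑ c, w c * g c = 0 := by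
    have h1 : ∀ c, w c * g c = (z - o).im * (w c * (P.vt c).re) - (z - o).re * (w c * (P.vt c).im)
        + w c * (o.im * (z - o).re - o.re * (z - o).im) := by
      intro c
      simp only [g, cross, Complex.sub_re, Complex.sub_im]
      ring
    have h2 : ∑ c, w c * (P.vt c).re = o.re := by
      rw [← hc]
      simp [Complex.re_sum]
    have h3 : ∑ c, w c * (P.vt c).im = o.im := by
      rw [← hc]
      simp [Complex.im_sum]
    simp only [h1]
    rw [Finset.sum_add_distrib, Finset.sum_sub_distrib, ← Finset.mul_sum, ← Finset.mul_sum,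
      ← Finset.sum_mul, hw1, h2, h3]
    ring
  have hit : ∀ n c, P.fc (P.nx^[n] c) = P.fc c := by
    intro n c
    induction n with
    | zero => rfl
    | succ n ih => rw [Function.iterate_succ_apply', P.fc_nx, ih]
  have hex : ∃ c, P.fc c = P.fc c₀ ∧ 0 ≤ g c ∧ g (P.nx c) ≤ 0 := by
    by_contra hno
    push Not at hno
    have h1 : ∃ c, P.fc c = P.fc c₀ ∧ 0 ≤ g c := by
      by_contra h2
      push Not at h2
      have : ∑ c, w c * g c < 0 := by
        apply Finset.sum_neg'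
        · intro c _
          by_cases hc' : P.fc c = P.fc c₀
          · exact (mul_neg_of_pos_of_neg (hw c hc') (h2 c hc')).le
          · rw [hw0 c hc', zero_mul]
        · exact ⟨c₀, Finset.mem_univ _, mul_neg_of_pos_of_neg (hw c₀ rfl) (h2 c₀ rfl)⟩
      linarith
    obtain ⟨c₁, hc₁, hg₁⟩ := h1
    have h2 : ∀ n, 0 < g (P.nx^[n] (P.nx c₁)) := by
      intro n
      induction n with
      | zero => exact hno c₁ hc₁ hg₁
      | succ n ih =>
        rw [Function.iterate_succ_apply']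
        exact hno _ (by rw [hit, P.fc_nx, hc₁]) ih.le
    have h3 : ∀ c, P.fc c = P.fc c₀ → 0 < g c := by
      intro c hc'
      obtain ⟨n, hn⟩ := P.cyc (P.nx c₁) c (by rw [P.fc_nx, hc₁, hc'])
      rw [← hn]
      exact h2 n
    have : 0 < ∑ c, w c * g c := by
      apply Finset.sum_pos'
      · intro c _
        by_cases hc' : P.fc c = P.fc c₀
        · exact (mul_pos (hw c hc') (h3 c hc')).le
        · rw [hw0 c hc', zero_mul]
      · exact ⟨c₀, Finset.mem_univ _, mul_pos (hw c₀ rfl) (h3 c₀ rfl)⟩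
    linarith
  obtain ⟨c, hc', hg0, hg1⟩ := hex
  have hD := P.ctr_cross c
  rw [hc', ← ho] at hD
  have hz := h c hc'
  set D := cross (P.vt c - o) (P.vt (P.nx c) - o) with hDdef
  refine ⟨c, -g (P.nx c) / D, g c / D, hc', div_nonneg (by linarith) hD.le,
    div_nonneg hg0 hD.le, ?_, ?_⟩
  · rw [← add_div, div_le_one hD]
    simp only [g, hDdef, cr, cross, Complex.sub_re, Complex.sub_im] at hz ⊢
    linarith only [hz]
  · rw [hc', ← ho]
    have hD' : D ≠ 0 := hD.ne'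
    apply Complex.ext
    · simp only [Complex.add_re, Complex.smul_re, smul_eq_mul]
      field_simp
      simp only [g, hDdef, cross, Complex.sub_re, Complex.sub_im]
      ring
    · simp only [Complex.add_im, Complex.smul_im, smul_eq_mul]
      field_simp
      simp only [g, hDdef, cross, Complex.sub_re, Complex.sub_im]
      ring

theorem weights [Fintype α] (c₀ : α) {z : ℂ} (h : z ∈ P.poly (P.fc c₀)) : ∃ w : α → ℝ,
    (∀ c, 0 ≤ w c) ∧ (∀ c, P.fc c ≠ P.fc c₀ → w c = 0) ∧ ∑ c, w c = 1 ∧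
    ∑ c, w c • P.vt c = z := by
  classical
  obtain ⟨w, hw, hw0, hw1, hc⟩ := P.NAGon_ctr_weights c₀
  obtain ⟨c, a, b, hc', ha, hb, hab, hz⟩ := P.fan c₀ h
  have hwn : ∀ x, 0 ≤ w x := by
    intro x
    by_cases hx : P.fc x = P.fc c₀
    · exact (hw x hx).le
    · rw [hw0 x hx]
  refine ⟨fun x => (1 - a - b) * w x + (if x = c then a else 0) + (if x = P.nx c then b else 0),
    ?_, ?_, ?_, ?_⟩
  · intro x
    have h1 : 0 ≤ (1 - a - b) * w x := mul_nonneg (by linarith) (hwn x)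
    have h2 : 0 ≤ (if x = c then a else 0) := by split_ifs <;> simp [ha]
    have h3 : 0 ≤ (if x = P.nx c then b else 0) := by split_ifs <;> simp [hb]
    linarith only [h1, h2, h3]
  · intro x hx
    have h1 : x ≠ c := by
      rintro rfl
      exact hx hc'
    have h2 : x ≠ P.nx c := by
      rintro rfl
      exact hx (by rw [P.fc_nx, hc'])
    simp [hw0 x hx, h1, h2]
  · rw [Finset.sum_add_distrib, Finset.sum_add_distrib, ← Finset.mul_sum, hw1]
    simp only [Finset.sum_ite_eq', Finset.mem_univ, if_true]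
    ring
  · simp only [add_smul, mul_smul, ite_smul, zero_smul]
    rw [Finset.sum_add_distrib, Finset.sum_add_distrib, ← Finset.smul_sum, hc, hz, hc']
    simp only [Finset.sum_ite_eq', Finset.mem_univ, if_true]
    module

theorem poly_eq_hull (c₀ : α) :
    P.poly (P.fc c₀) = convexHull ℝ (P.vt '' {c | P.fc c = P.fc c₀}) := by
  classical
  haveI := P.fin
  letI := Fintype.ofFinite α
  apply Set.Subset.antisymm
  · intro z hz
    obtain ⟨w, hw, hw0, hw1, hc⟩ := P.weights c₀ hz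
    have h1 : ∑ c ∈ Finset.univ.filter (fun c => P.fc c = P.fc c₀), w c = 1 := by
      rw [← hw1]
      apply Finset.sum_filter_of_ne
      intro c _ hne
      by_contra hx
      exact hne (hw0 c hx)
    have h2 : ∑ c ∈ Finset.univ.filter (fun c => P.fc c = P.fc c₀), w c • P.vt c = z := by
      rw [← hc]
      apply Finset.sum_filter_of_ne
      intro c _ hne
      by_contra hx
      exact hne (by rw [hw0 c hx, zero_smul])
    rw [← h2]
    apply (convex_convexHull ℝ _).sum_mem (fun c _ => hw c) h1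
    intro c hc'
    exact subset_convexHull ℝ _ ⟨c, (Finset.mem_filter.1 hc').2, rfl⟩
  · apply convexHull_min _ (P.poly_convex _)
    rintro _ ⟨c, hc, rfl⟩
    have := P.vt_mem c
    rwa [show P.fc c = P.fc c₀ from hc] at this

theorem on_side {c : α} {z : ℂ} (h : z ∈ P.poly (P.fc c)) (h0 : P.cr c z = 0) : z ∈ P.seg c := by
  classical
  haveI := P.fin
  letI := Fintype.ofFinite α
  obtain ⟨w, hw, hw0, hw1, hc⟩ := P.weights c h
  rw [← hc, P.NAGon_cr_sum c _ _ _ hw1] at h0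
  have hnn : ∀ x ∈ Finset.univ, 0 ≤ w x * P.cr c (P.vt x) := by
    intro x _
    by_cases hx : P.fc x = P.fc c
    · exact mul_nonneg (hw x) (P.vt_mem x c hx.symm)
    · rw [hw0 x hx, zero_mul]
  have hzero : ∀ x, x ≠ c ∧ x ≠ P.nx c → w x = 0 := by
    intro x hx
    by_cases hx' : P.fc x = P.fc c
    · have h1 := (Finset.sum_eq_zero_iff_of_nonneg hnn).1 h0 x (Finset.mem_univ _)
      have h2 : 0 < P.cr c (P.vt x) := P.convex c x hx'.symm hx.1 hx.2
      exact (mul_eq_zero.1 h1).resolve_right h2.ne'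
    · exact hw0 x hx'
  have h1 := Fintype.sum_eq_add c (P.nx c) (P.nx_ne c).symm hzero
  have h2 := Fintype.sum_eq_add (f := fun x => w x • P.vt x) c (P.nx c) (P.nx_ne c).symm
    (fun x hx => by simp only [hzero x hx, zero_smul])
  exact ⟨w c, w (P.nx c), hw _, hw _, by rw [← h1, hw1], by rw [← hc, h2]⟩

theorem vt_on_seg {c c' : α} (h : P.fc c = P.fc c') (h0 : P.vt c' ∈ P.seg c) :
    c' = c ∨ c' = P.nx c := by
  by_contra hno
  push Not at hno
  have h1 : 0 < P.cr c (P.vt c') := P.convex c c' h hno.1 hno.2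
  exact h1.ne' (P.cr_seg h0)

theorem seg_inter {c c' : α} (h : P.fc c = P.fc c') (hne : c ≠ c') {z : ℂ} (h₁ : z ∈ P.seg c)
    (h₂ : z ∈ P.seg c') : (c' = P.nx c ∧ z = P.vt c') ∨ (c = P.nx c' ∧ z = P.vt c) := by
  have h0 := P.cr_seg h₂
  obtain ⟨a, b, ha, hb, hab, rfl⟩ := h₁
  rw [P.NAGon_cr_comb c' _ _ hab] at h0
  have h3 : 0 ≤ P.cr c' (P.vt c) := P.vt_mem c c' h.symm
  have h4 : 0 ≤ P.cr c' (P.vt (P.nx c)) := P.vt_mem (P.nx c) c' (by rw [P.fc_nx, h])
  have h5 := mul_nonneg ha h3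
  have h6 := mul_nonneg hb h4
  have hnx : P.nx c ≠ P.nx c' := fun e => hne (P.nx_bij.1 e)
  by_cases hc : c = P.nx c'
  · right
    have h7 : 0 < P.cr c' (P.vt (P.nx c)) :=
      P.convex c' (P.nx c) (by rw [P.fc_nx, h]) (by rw [hc]; exact P.three c') hnx
    have h8 : b = 0 := (mul_eq_zero.1 (by linarith only [h6, h0, h5] : b * P.cr c' (P.vt (P.nx c)) = 0)).resolve_right
      h7.ne'
    have h9 : a = 1 := by linarith
    exact ⟨hc, by simp [h8, h9]⟩
  · left
    have h7 : 0 < P.cr c' (P.vt c) := P.convex c' c h.symm hne hc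
    have h8 : a = 0 := (mul_eq_zero.1 (by linarith : a * P.cr c' (P.vt c) = 0)).resolve_right
      h7.ne'
    have h9 : b = 1 := by linarith
    have h10 : a • P.vt c + b • P.vt (P.nx c) = P.vt (P.nx c) := by simp [h8, h9]
    rw [h10] at h₂ ⊢
    rcases P.vt_on_seg (by rw [P.fc_nx, h]) h₂ with e | e
    · exact ⟨e.symm, by rw [e]⟩
    · exact absurd e hnx

/-- the potential on the vertices seen from the centre -/
theorem ctr_pot (c₀ : α) : ∃ F : α → ℝ,
    2 * π - angle (P.vt c₀ - P.ctr (P.fc c₀)) (P.vt (P.nx c₀) - P.ctr (P.fc c₀)) ≤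
      F c₀ - F (P.nx c₀) ∧ ∀ c, P.fc c = P.fc c₀ → c ≠ c₀ →
      F (P.nx c) = F c + angle (P.vt c - P.ctr (P.fc c)) (P.vt (P.nx c) - P.ctr (P.fc c)) := by
  classical
  haveI := P.fin
  letI := Fintype.ofFinite {c // P.fc c = P.fc c₀}
  haveI : Nonempty {c // P.fc c = P.fc c₀} := ⟨⟨c₀, rfl⟩⟩
  let n : {c // P.fc c = P.fc c₀} → {c // P.fc c = P.fc c₀} :=
    fun c => ⟨P.nx c.1, by rw [P.fc_nx, c.2]⟩
  have hit : ∀ k c, (n^[k] c).1 = P.nx^[k] c.1 := by
    intro k c
    induction k with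
    | zero => rfl
    | succ k ih => rw [Function.iterate_succ_apply', Function.iterate_succ_apply', ← ih]
  have hcyc : ∀ a a', ∃ k, n^[k] a = a' := by
    intro a a'
    obtain ⟨k, hk⟩ := P.cyc a.1 a'.1 (by rw [a.2, a'.2])
    exact ⟨k, Subtype.ext (by rw [hit, hk])⟩
  have hbij : Function.Bijective n :=
    Finite.injective_iff_bijective.1 fun a b e => Subtype.ext (P.nx_bij.1 (congrArg Subtype.val e))
  let d : {c // P.fc c = P.fc c₀} → ℂ := fun c => P.vt c.1 - P.ctr (P.fc c₀)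
  have hd : ∀ a, 0 < cross (d a) (d (n a)) := by
    intro a
    have := P.ctr_cross a.1
    rwa [a.2] at this
  have hw := winding n hbij d hd
  obtain ⟨G, hG0, hG⟩ := cyc_pot n hcyc (fun a => angle (d a) (d (n a))) ⟨c₀, rfl⟩
  refine ⟨fun c => if h : P.fc c = P.fc c₀ then G ⟨c, h⟩ else 0, ?_, ?_⟩
  · simp only [dif_pos (P.fc_nx c₀), dif_pos]
    have h1 : G ⟨c₀, rfl⟩ - G ⟨P.nx c₀, P.fc_nx c₀⟩ = ∑ a, angle (d a) (d (n a)) -
      angle (P.vt c₀ - P.ctr (P.fc c₀)) (P.vt (P.nx c₀) - P.ctr (P.fc c₀)) := hG0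
    linarith
  · intro c hc hne
    have h1 : P.fc (P.nx c) = P.fc c₀ := by rw [P.fc_nx, hc]
    simp only [dif_pos hc, dif_pos h1]
    have h2 := hG ⟨c, hc⟩ (fun e => hne (congrArg Subtype.val e))
    rw [hc]
    exact h2

end Gon

end Pool.Agent.Work.MP_0909b4_al.NA
end

-- merged part: Pool.Agent.Work.MP_0909b4_al.NADev1
section
-- merged part: Pool.Agent.Work.MP_0909b4_al.NADev1
section
/-! Complexes with a developing map: definitions and the metric.

Plan.
* `exists_lip`: on an edge `|Δ co| = dist / length`; on a triangle `|Δ co v| ≤ dist * length / |cross|`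
  where `cross ^ 2 = a² b² - ((a² + b² - c²) / 2) ^ 2` is a function of the three lengths, so it
  takes finitely many values, all positive.
* `chain_exists`: go to a vertex of the support, then use `conn`.
* metric laws: reverse and concatenate chains; `chain_co` gives `d x y = 0 → x = y`.
-/

namespace Pool.Agent.Work.MP_0909b4_al.NA

open Real InnerProductGeometry

/-- two vertices lie in a common simplex -/
def Adj2 {V : Type} (F : Set (Finset V)) (v w : V) : Prop := ∃ σ ∈ F, v ∈ σ ∧ w ∈ σ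

/-- three vertices lie in a common simplex -/
def Adj3 {V : Type} (F : Set (Finset V)) (u v w : V) : Prop := ∃ σ ∈ F, u ∈ σ ∧ v ∈ σ ∧ w ∈ σ

/-- three distinct vertices of a triangle -/
def Tri3 {V : Type} (F : Set (Finset V)) (u v w : V) : Prop :=
  Adj3 F u v w ∧ u ≠ v ∧ u ≠ w ∧ v ≠ w

/-- a connected, simply connected, locally finite complex that is developed in the plane and
satisfies the link condition -/
structure DevCx where
  V : Type
  faces : Set (Finset V)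
  nonempty : ∀ σ ∈ faces, σ.Nonempty
  down : ∀ σ ∈ faces, ∀ τ ⊆ σ, τ.Nonempty → τ ∈ faces
  dim : ∀ σ ∈ faces, σ.card ≤ 3
  pos : V → ℂ
  indep : ∀ σ ∈ faces, AffineIndependent ℝ (fun v : σ => pos v)
  shapes : {r | ∃ σ ∈ faces, ∃ v ∈ σ, ∃ w ∈ σ, r = dist (pos v) (pos w)}.Finite
  nbr : ∀ v, ∃ w, w ≠ v ∧ Adj2 faces v w
  locfin : ∀ v, {w | Adj2 faces v w}.Finite
  conn : ∀ v w, Relation.ReflTransGen (Adj2 faces) v w
  link : ∀ v a b, Tri3 faces v a b → ∃ F : V → ℝ,
    F a + (2 * π - angle (pos a - pos v) (pos b - pos v)) ≤ F b ∧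
    ∀ x y, Tri3 faces v x y → ¬(x = a ∧ y = b) → ¬(x = b ∧ y = a) →
      F y ≤ F x + angle (pos x - pos v) (pos y - pos v)
  sc : ∀ (E : V → Type) (T : ∀ v w, Adj2 faces v w → E v → E w), (∀ v h e, T v v h e = e) →
    (∀ u v w, Adj3 faces u v w → ∀ h₁ h₂ h₃ e, T v w h₂ (T u v h₁ e) = T u w h₃ e) →
    ∀ v₀ e₀, ∃ s : ∀ v, E v, s v₀ = e₀ ∧ ∀ v w h, T v w h (s v) = s w

namespace DevCx

variable (X : DevCx)

def toPECx : PECx where
  V := X.V
  faces := X.faces
  nonempty := X.nonempty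
  down := X.down
  dim := X.dim
  chart _ := X.pos
  indep := X.indep
  compat := fun _ _ _ _ _ _ _ _ _ _ => rfl
  shapes := X.shapes

/-- the points of the complex -/
abbrev P : Type := X.toPECx.Pt

/-- the developing map -/
noncomputable def dev (x : X.P) : ℂ := ∑ v ∈ x.co.support, x.co v • X.pos v

variable {X}

theorem pt_ext {x y : X.P} (h : ∀ v, x.co v = y.co v) : x = y := by
  obtain ⟨c, _, _, _⟩ := x
  obtain ⟨c', _, _, _⟩ := y
  obtain rfl : c = c' := Finsupp.ext h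
  rfl

theorem img_eq {σ : Finset X.V} {x : X.P} (h : x.co.support ⊆ σ) :
    X.toPECx.img σ x = X.dev x :=
  (Finset.sum_subset h fun v _ hv => by
    rw [Finsupp.notMem_support_iff.1 hv, zero_smul]).symm

theorem sum_co {σ : Finset X.V} {x : X.P} (h : x.co.support ⊆ σ) : ∑ v ∈ σ, x.co v = 1 :=
  (Finset.sum_subset h fun _ _ hv => Finsupp.notMem_support_iff.1 hv).symm.trans x.sum_one

theorem exists_big (x : X.P) : ∃ v, 1 / 3 ≤ x.co v := by
  by_contra h
  push Not at h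
  have h1 := Finset.sum_lt_sum_of_nonempty (X.nonempty _ x.mem) fun v _ => h v
  have h2 : (x.co.support.card : ℝ) ≤ 3 := by exact_mod_cast X.dim _ x.mem
  have h3 : 1 < (x.co.support.card : ℝ) * (1 / 3) :=
    (x.sum_one.symm.trans_lt h1).trans_eq ((Finset.sum_const _).trans (nsmul_eq_mul _ _))
  exact absurd h2 (not_le.2 (by linarith only [h2, h3]))

theorem NADev1_ind {σ : Finset X.V} (hσ : σ ∈ X.faces) (d : X.V → ℝ) (h0 : ∑ v ∈ σ, d v = 0)
    (h1 : ∑ v ∈ σ, d v • X.pos v = 0) : ∀ v ∈ σ, d v = 0 := fun v hv =>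
  affineIndependent_iff.1 (X.indep σ hσ) Finset.univ (fun v : σ => d v)
    ((Finset.sum_coe_sort σ d).trans h0)
    ((Finset.sum_coe_sort σ fun v => d v • X.pos v).trans h1) ⟨v, hv⟩ (Finset.mem_univ _)

theorem NADev1_ne {σ : Finset X.V} (hσ : σ ∈ X.faces) {v w : X.V} (hv : v ∈ σ) (hw : w ∈ σ)
    (h : v ≠ w) : X.pos v ≠ X.pos w := fun e =>
  h (congrArg Subtype.val ((X.indep σ hσ).injective (a₁ := ⟨v, hv⟩) (a₂ := ⟨w, hw⟩) e))

theorem NADev1_cross_le (z w : ℂ) : |cross z w| ≤ ‖z‖ * ‖w‖ := by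
  refine abs_le_of_sq_le_sq ?_ (by positivity)
  rw [mul_pow, Complex.sq_norm, Complex.sq_norm, Complex.normSq_apply, Complex.normSq_apply, cross]
  linarith only [sq_nonneg (z.re * w.re + z.im * w.im), sq_nonneg (z.re * w.re + z.im * w.im)]

theorem NADev1_cross_sq (a b : ℂ) :
    |cross a b| = √(‖a‖ ^ 2 * ‖b‖ ^ 2 - ((‖a‖ ^ 2 + ‖b‖ ^ 2 - ‖a - b‖ ^ 2) / 2) ^ 2) := by
  rw [← Real.sqrt_sq_eq_abs]
  congr 1
  simp only [Complex.sq_norm, Complex.normSq_apply, cross, Complex.sub_re, Complex.sub_im]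
  ring

theorem NADev1_par {a b : ℂ} (hb : b ≠ 0) (h : cross a b = 0) : ∃ t : ℝ, a = t • b := by
  have h0 : b.re * b.re + b.im * b.im ≠ 0 := by
    rw [← Complex.normSq_apply]
    exact fun e => hb (Complex.normSq_eq_zero.1 e)
  refine ⟨(a.re * b.re + a.im * b.im) / (b.re * b.re + b.im * b.im), ?_⟩
  rw [cross] at h
  apply Complex.ext
  · rw [Complex.smul_re, smul_eq_mul, div_mul_eq_mul_div, eq_div_iff h0]
    linear_combination b.im * h
  · rw [Complex.smul_im, smul_eq_mul, div_mul_eq_mul_div, eq_div_iff h0]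
    linear_combination (-b.re) * h

theorem NADev1_lip (X : DevCx) : ∃ Λ : ℝ, 0 < Λ ∧ ∀ σ ∈ X.faces, ∀ d : X.V → ℝ,
    ∑ v ∈ σ, d v = 0 → ∀ v ∈ σ, |d v| ≤ Λ * ‖∑ v ∈ σ, d v • X.pos v‖ := by
  classical
  obtain ⟨Λ₁, h₁⟩ := (X.shapes.image fun A : ℝ => 1 / A).bddAbove
  obtain ⟨Λ₂, h₂⟩ := ((X.shapes.prod (X.shapes.prod X.shapes)).image fun p : ℝ × ℝ × ℝ =>
    p.2.1 / √(p.1 ^ 2 * p.2.1 ^ 2 - ((p.1 ^ 2 + p.2.1 ^ 2 - p.2.2 ^ 2) / 2) ^ 2)).bddAbove
  refine ⟨max 1 (max Λ₁ Λ₂), lt_max_of_lt_left one_pos, fun σ hσ d hd v hv => ?_⟩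
  have hc : (σ.erase v).card ≤ 2 := by
    have := X.dim σ hσ
    rw [Finset.card_erase_of_mem hv]
    omega
  have e1 := Finset.add_sum_erase σ d hv
  have e2 := Finset.add_sum_erase σ (fun v => d v • X.pos v) hv
  rw [hd] at e1
  rcases (by omega : (σ.erase v).card = 0 ∨ (σ.erase v).card = 1 ∨ (σ.erase v).card = 2) with
    h | h | h
  · rw [Finset.card_eq_zero.1 h, Finset.sum_empty, add_zero] at e1
    rw [e1, abs_zero]
    positivity
  · obtain ⟨w, hw⟩ := Finset.card_eq_one.1 h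
    have hw' : w ∈ σ.erase v := hw ▸ Finset.mem_singleton_self w
    have hne := NADev1_ne hσ hv (Finset.mem_of_mem_erase hw') (Finset.ne_of_mem_erase hw').symm
    rw [hw, Finset.sum_singleton] at e1 e2
    have e3 : ∑ v ∈ σ, d v • X.pos v = d v • (X.pos v - X.pos w) := by
      rw [← e2, eq_neg_of_add_eq_zero_right e1, smul_sub, neg_smul, sub_eq_add_neg]
    have hp : 0 < ‖X.pos v - X.pos w‖ := norm_pos_iff.2 (sub_ne_zero.2 hne)
    have h3 : 1 / ‖X.pos v - X.pos w‖ ≤ max 1 (max Λ₁ Λ₂) :=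
      (h₁ ⟨_, ⟨σ, hσ, v, hv, w, Finset.mem_of_mem_erase hw', (dist_eq_norm _ _).symm⟩, rfl⟩).trans
        (le_max_of_le_right (le_max_left _ _))
    rw [e3, norm_smul, Real.norm_eq_abs]
    rw [div_le_iff₀ hp] at h3
    linarith only [h3, abs_nonneg (d v), mul_nonneg_of_nonpos_of_nonpos (Mathlib.Tactic.Linarith.sub_nonpos_of_le h3) (Mathlib.Tactic.Linarith.sub_nonpos_of_le (abs_nonneg (d v)))]
  · obtain ⟨w, u, hwu, hw⟩ := Finset.card_eq_two.1 h
    have hw' : w ∈ σ.erase v := hw ▸ Finset.mem_insert_self w _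
    have hu' : u ∈ σ.erase v := hw ▸ Finset.mem_insert_of_mem (Finset.mem_singleton_self u)
    have hwσ := Finset.mem_of_mem_erase hw'
    have huσ := Finset.mem_of_mem_erase hu'
    have hwv := Finset.ne_of_mem_erase hw'
    have huv := Finset.ne_of_mem_erase hu'
    have hb : X.pos w - X.pos u ≠ 0 := sub_ne_zero.2 (NADev1_ne hσ hwσ huσ hwu)
    have hcr : cross (X.pos v - X.pos u) (X.pos w - X.pos u) ≠ 0 := by
      intro h0
      obtain ⟨t, ht⟩ := NADev1_par hb h0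
      have := NADev1_ind hσ (fun z => if z = v then 1 else if z = w then -t else t - 1) ?_ ?_ v hv
      · simp at this
      · rw [← Finset.add_sum_erase σ _ hv, hw, Finset.sum_pair hwu]
        simp only [hwv, huv, hwu.symm, if_true, if_false]
        ring
      · rw [← Finset.add_sum_erase σ _ hv, hw, Finset.sum_pair hwu]
        simp only [hwv, huv, hwu.symm, if_true, if_false, Complex.real_smul] at ht ⊢
        push_cast
        linear_combination ht
    rw [hw, Finset.sum_pair hwu] at e1 e2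
    have e3 : ∑ v ∈ σ, d v • X.pos v =
        d v • (X.pos v - X.pos u) + d w • (X.pos w - X.pos u) := by
      have : d u = -d v - d w := by linarith only [e1]
      rw [← e2, this]
      simp only [Complex.real_smul]
      push_cast
      ring
    have e4 : cross (∑ v ∈ σ, d v • X.pos v) (X.pos w - X.pos u) =
        d v * cross (X.pos v - X.pos u) (X.pos w - X.pos u) := by
      rw [e3]
      simp only [cross, Complex.add_re, Complex.add_im, Complex.smul_re, Complex.smul_im,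
        smul_eq_mul]
      ring
    have h3 : ‖X.pos w - X.pos u‖ / |cross (X.pos v - X.pos u) (X.pos w - X.pos u)| ≤
        max 1 (max Λ₁ Λ₂) := by
      rw [NADev1_cross_sq, sub_sub_sub_cancel_right]
      exact (h₂ ⟨(‖X.pos v - X.pos u‖, ‖X.pos w - X.pos u‖, ‖X.pos v - X.pos w‖),
        ⟨⟨σ, hσ, v, hv, u, huσ, (dist_eq_norm _ _).symm⟩,
          ⟨σ, hσ, w, hwσ, u, huσ, (dist_eq_norm _ _).symm⟩,
          ⟨σ, hσ, v, hv, w, hwσ, (dist_eq_norm _ _).symm⟩⟩, rfl⟩).trans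
        (le_max_of_le_right (le_max_right _ _))
    have hp := abs_pos.2 hcr
    have h4 := NADev1_cross_le (∑ v ∈ σ, d v • X.pos v) (X.pos w - X.pos u)
    rw [e4, abs_mul] at h4
    rw [div_le_iff₀ hp] at h3
    refine le_of_mul_le_mul_right (h4.trans ?_) hp
    rw [mul_right_comm, mul_comm]
    exact mul_le_mul_of_nonneg_right h3 (norm_nonneg _)

theorem exists_lip (X : DevCx) : ∃ Λ : ℝ, 0 < Λ ∧ ∀ σ ∈ X.faces, ∀ x y : X.P, x.co.support ⊆ σ →
    y.co.support ⊆ σ → ∀ v, |x.co v - y.co v| ≤ Λ * dist (X.dev x) (X.dev y) := by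
  obtain ⟨Λ, h0, h⟩ := X.NADev1_lip
  refine ⟨Λ, h0, fun σ hσ x y hx hy v => ?_⟩
  by_cases hv : v ∈ σ
  · have := h σ hσ (fun v => x.co v - y.co v)
      ((Finset.sum_sub_distrib _ _).trans (sub_eq_zero.2 ((sum_co hx).trans (sum_co hy).symm)))
      v hv
    simp only [sub_smul, Finset.sum_sub_distrib] at this
    rw [dist_eq_norm, ← img_eq hx, ← img_eq hy]
    exact this
  · rw [Finsupp.notMem_support_iff.1 fun e => hv (hx e),
      Finsupp.notMem_support_iff.1 fun e => hv (hy e), sub_self, abs_zero]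
    positivity

theorem single_mem (v : X.V) : ({v} : Finset X.V) ∈ X.faces := by
  obtain ⟨w, -, σ, hσ, hv, -⟩ := X.nbr v
  exact X.down σ hσ _ (Finset.singleton_subset_iff.2 hv) (Finset.singleton_nonempty v)

theorem NADev1_s1 {V : Type} (v w : V) : 0 ≤ Finsupp.single v (1 : ℝ) w := by
  classical
  rw [Finsupp.single_apply]
  split_ifs
  · exact zero_le_one
  · exact le_rfl

theorem NADev1_s2 {V : Type} (v : V) :
    ∑ w ∈ (Finsupp.single v (1 : ℝ)).support, Finsupp.single v (1 : ℝ) w = 1 := by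
  rw [Finsupp.support_single _ one_ne_zero, Finset.sum_singleton, Finsupp.single_eq_same]

theorem NADev1_s3 {V : Type} (v : V) (p : V → ℂ) :
    ∑ w ∈ (Finsupp.single v (1 : ℝ)).support, Finsupp.single v (1 : ℝ) w • p w = p v := by
  rw [Finsupp.support_single _ one_ne_zero, Finset.sum_singleton, Finsupp.single_eq_same, one_smul]

theorem NADev1_s4 {V : Type} {σ : Finset V} {f g : V → ℝ} (hf : ∑ v ∈ σ, f v = 1)
    (hg : ∑ v ∈ σ, g v = 1) (t : ℝ) : ∑ v ∈ σ, ((1 - t) * f v + t * g v) = 1 := by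
  rw [Finset.sum_add_distrib, ← Finset.mul_sum, ← Finset.mul_sum, hf, hg]
  ring

/-- the point at a vertex -/
noncomputable def vpt (X : DevCx) (v : X.V) : X.P :=
  ⟨Finsupp.single v 1, NADev1_s1 v, NADev1_s2 v,
    (congrArg (· ∈ X.faces) (Finsupp.support_single v one_ne_zero)).mpr (single_mem v)⟩

theorem NADev1_supp (v : X.V) : (X.vpt v).co.support = ({v} : Finset X.V) :=
  Finsupp.support_single _ one_ne_zero

theorem dev_vpt (v : X.V) : X.dev (X.vpt v) = X.pos v :=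
  NADev1_s3 v X.pos

/-- points with given barycentric coordinates in a simplex -/
theorem exists_pt {σ : Finset X.V} (hσ : σ ∈ X.faces) (w : X.V → ℝ) (h0 : ∀ v, 0 ≤ w v)
    (hs : ∀ v, v ∉ σ → w v = 0) (h1 : ∑ v ∈ σ, w v = 1) :
    ∃ x : X.P, (∀ v, x.co v = w v) ∧ x.co.support ⊆ σ ∧ X.dev x = ∑ v ∈ σ, w v • X.pos v := by
  have hs' : ∀ v, w v ≠ 0 → v ∈ σ := fun v hv => by
    by_contra h
    exact hv (hs v h)
  have h2 : (Finsupp.onFinset σ w hs').support ⊆ σ := Finsupp.support_onFinset_subset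
  have h3 : ∑ v ∈ (Finsupp.onFinset σ w hs').support, Finsupp.onFinset σ w hs' v = 1 :=
    (Finset.sum_subset h2 fun _ _ hv => Finsupp.notMem_support_iff.1 hv).trans h1
  have h4 : (Finsupp.onFinset σ w hs').support.Nonempty :=
    Finset.nonempty_of_sum_ne_zero (h3.trans_ne one_ne_zero)
  exact ⟨⟨Finsupp.onFinset σ w hs', h0, h3, X.down σ hσ _ h2 h4⟩, fun _ => rfl, h2,
    (img_eq h2).symm⟩

/-- convex combinations inside a simplex -/
theorem exists_mix {σ : Finset X.V} (hσ : σ ∈ X.faces) {x y : X.P} (hx : x.co.support ⊆ σ)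
    (hy : y.co.support ⊆ σ) {t : ℝ} (h0 : 0 ≤ t) (h1 : t ≤ 1) :
    ∃ z : X.P, (∀ v, z.co v = (1 - t) * x.co v + t * y.co v) ∧ z.co.support ⊆ σ ∧
      X.dev z = (1 - t) • X.dev x + t • X.dev y := by
  obtain ⟨z, hz, hs, hd⟩ := exists_pt hσ (fun v => (1 - t) * x.co v + t * y.co v)
    (fun v => add_nonneg (mul_nonneg (sub_nonneg.2 h1) (x.nonneg v)) (mul_nonneg h0 (y.nonneg v)))
    (fun v hv => by
      rw [Finsupp.notMem_support_iff.1 fun e => hv (hx e),
        Finsupp.notMem_support_iff.1 fun e => hv (hy e), mul_zero, mul_zero, add_zero])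
    (NADev1_s4 (sum_co hx) (sum_co hy) t)
  refine ⟨z, hz, hs, ?_⟩
  rw [hd, ← img_eq hx, ← img_eq hy]
  simp only [add_smul, mul_smul, Finset.sum_add_distrib, ← Finset.smul_sum]
  rfl

theorem chain_nonneg {x y : X.P} {r : ℝ} (h : X.toPECx.Chain x y r) : 0 ≤ r := by
  induction h with
  | nil => exact le_rfl
  | cons σ _ _ _ _ ih => exact add_nonneg dist_nonneg ih

theorem chain_trans {x y z : X.P} {r s : ℝ} (h : X.toPECx.Chain x y r)
    (h' : X.toPECx.Chain y z s) : X.toPECx.Chain x z (r + s) := by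
  induction h with
  | nil => rwa [zero_add]
  | cons σ hσ hx hy _ ih =>
    rw [add_assoc]
    exact .cons σ hσ hx hy (ih h')

theorem NADev1_step {σ : Finset X.V} (hσ : σ ∈ X.faces) {x y : X.P} (hx : x.co.support ⊆ σ)
    (hy : y.co.support ⊆ σ) : X.toPECx.Chain x y (dist (X.dev x) (X.dev y)) := by
  have := PECx.Chain.cons (K := X.toPECx) σ hσ hx hy (.nil y)
  rwa [add_zero, img_eq hx, img_eq hy] at this

theorem chain_symm {x y : X.P} {r : ℝ} (h : X.toPECx.Chain x y r) : X.toPECx.Chain y x r := by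
  induction h with
  | nil => exact .nil _
  | cons σ hσ hx hy _ ih =>
    rw [add_comm, img_eq hx, img_eq hy, dist_comm]
    exact chain_trans ih (NADev1_step hσ hy hx)

theorem chain_exists (x y : X.P) : ∃ r, X.toPECx.Chain x y r := by
  obtain ⟨v, hv⟩ := X.nonempty _ x.mem
  obtain ⟨w, hw⟩ := X.nonempty _ y.mem
  have h1 : ∀ (x : X.P) (v : X.V), v ∈ x.co.support → ∃ r, X.toPECx.Chain x (X.vpt v) r :=
    fun x v hv => ⟨_, NADev1_step x.mem subset_rfl
      (by rw [NADev1_supp]; exact Finset.singleton_subset_iff.2 hv)⟩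
  have h2 : ∀ v w, ∃ r, X.toPECx.Chain (X.vpt v) (X.vpt w) r := fun v w => by
    induction X.conn v w with
    | refl => exact ⟨0, .nil _⟩
    | tail _ h ih =>
      obtain ⟨r, hr⟩ := ih
      obtain ⟨σ, hσ, ha, hb⟩ := h
      exact ⟨_, chain_trans hr (NADev1_step hσ
        (by rw [NADev1_supp]; exact Finset.singleton_subset_iff.2 ha)
        (by rw [NADev1_supp]; exact Finset.singleton_subset_iff.2 hb))⟩
  obtain ⟨_, a1⟩ := h1 x v hv
  obtain ⟨_, a2⟩ := h2 v w
  obtain ⟨_, a3⟩ := h1 y w hw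
  exact ⟨_, chain_trans a1 (chain_trans a2 (chain_symm a3))⟩

theorem chain_dev {x y : X.P} {r : ℝ} (h : X.toPECx.Chain x y r) :
    dist (X.dev x) (X.dev y) ≤ r := by
  induction h with
  | nil => exact (dist_self _).le
  | cons σ hσ hx hy _ ih =>
    rw [img_eq hx, img_eq hy]
    exact (dist_triangle _ _ _).trans (add_le_add le_rfl ih)

theorem chain_co (X : DevCx) : ∃ Λ : ℝ, 0 < Λ ∧ ∀ (x y : X.P) (r : ℝ), X.toPECx.Chain x y r →
    ∀ v, |x.co v - y.co v| ≤ Λ * r := by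
  obtain ⟨Λ, h0, h⟩ := X.exists_lip
  refine ⟨Λ, h0, fun x y r hc v => ?_⟩
  induction hc with
  | nil => simp
  | cons σ hσ hx hy _ ih =>
    rw [img_eq hx, img_eq hy, mul_add]
    exact (abs_sub_le _ _ _).trans (add_le_add (h σ hσ _ _ hx hy v) ih)

theorem NADev1_le {x y : X.P} {r : ℝ} (h : X.toPECx.Chain x y r) : X.toPECx.d x y ≤ r :=
  csInf_le ⟨0, fun _ h => chain_nonneg h⟩ h

theorem NADev1_ge {x y : X.P} {a : ℝ} (h : ∀ r, X.toPECx.Chain x y r → a ≤ r) :
    a ≤ X.toPECx.d x y :=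
  le_csInf (chain_exists x y) h

theorem NADev1_co (X : DevCx) : ∃ Λ : ℝ, 0 < Λ ∧ ∀ (x y : X.P) (v : X.V),
    |x.co v - y.co v| ≤ Λ * X.toPECx.d x y := by
  obtain ⟨Λ, h0, h⟩ := X.chain_co
  refine ⟨Λ, h0, fun x y v => ?_⟩
  rw [← div_le_iff₀' h0]
  exact NADev1_ge fun r hr => (div_le_iff₀' h0).2 (h x y r hr v)

noncomputable instance instMetric : MetricSpace X.P where
  dist := X.toPECx.d
  dist_self := fun x => le_antisymm (NADev1_le (.nil x)) (NADev1_ge fun _ h => chain_nonneg h)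
  dist_comm := fun _ _ => le_antisymm (NADev1_ge fun _ h => NADev1_le (chain_symm h))
    (NADev1_ge fun _ h => NADev1_le (chain_symm h))
  dist_triangle := fun _ _ _ => sub_le_iff_le_add'.1 (NADev1_ge fun _ hs =>
    sub_le_comm.1 (NADev1_ge fun _ hr => sub_le_iff_le_add.2 (NADev1_le (chain_trans hr hs))))
  eq_of_dist_eq_zero := fun {x y} (h : X.toPECx.d x y = 0) => by
    obtain ⟨Λ, _, h1⟩ := X.NADev1_co
    refine pt_ext fun v => sub_eq_zero.1 (abs_nonpos_iff.1 ?_)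
    simpa [h] using h1 x y v

theorem dist_def (x y : X.P) : dist x y = X.toPECx.d x y := rfl

theorem dist_le_chain {x y : X.P} {r : ℝ} (h : X.toPECx.Chain x y r) : dist x y ≤ r :=
  NADev1_le h

theorem exists_chain_lt {x y : X.P} {r : ℝ} (h : dist x y < r) :
    ∃ r', r' < r ∧ X.toPECx.Chain x y r' := by
  obtain ⟨r', h1, h2⟩ := exists_lt_of_csInf_lt (chain_exists x y) h
  exact ⟨r', h2, h1⟩

theorem dev_lip (x y : X.P) : dist (X.dev x) (X.dev y) ≤ dist x y :=
  NADev1_ge fun _ h => chain_dev h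

theorem dist_common {σ : Finset X.V} (hσ : σ ∈ X.faces) {x y : X.P} (hx : x.co.support ⊆ σ)
    (hy : y.co.support ⊆ σ) : dist x y = dist (X.dev x) (X.dev y) :=
  le_antisymm (dist_le_chain (NADev1_step hσ hx hy)) (dev_lip x y)

theorem co_lip (X : DevCx) : ∃ Λ : ℝ, 0 < Λ ∧ ∀ (x y : X.P) (v : X.V),
    |x.co v - y.co v| ≤ Λ * dist x y :=
  X.NADev1_co

/-- near the barycentre of a triangle the developing map preserves distances -/
theorem flat_bary (X : DevCx) : ∃ r₀ : ℝ, 0 < r₀ ∧ ∀ σ ∈ X.faces, σ.card = 3 → ∀ y : X.P,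
    (∀ v ∈ σ, y.co v = 1 / 3) → ∀ a : X.P, dist y a ≤ r₀ → dist (X.dev a) (X.dev y) = dist y a := by
  obtain ⟨Λ, h0, h⟩ := X.co_lip
  refine ⟨1 / (6 * Λ), by positivity, fun σ hσ hc y hy a ha => ?_⟩
  have key : ∀ z : X.P, (∀ v ∈ σ, z.co v ≠ 0) → z.co.support ⊆ σ := fun z hz =>
    (Finset.eq_of_subset_of_card_le (fun v hv => Finsupp.mem_support_iff.2 (hz v hv))
      (hc ▸ X.dim _ z.mem)).ge
  have h1 := key y fun v hv => by rw [hy v hv]; norm_num
  have h2 := key a fun v hv e => by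
    have h3 := (h y a v).trans (mul_le_mul_of_nonneg_left ha h0.le)
    have h4 : Λ * (1 / (6 * Λ)) = 1 / 6 := by field_simp
    rw [hy v hv, e, h4] at h3
    norm_num at h3
  rw [dist_common hσ h1 h2, dist_comm]

end DevCx

end Pool.Agent.Work.MP_0909b4_al.NA
end

-- merged part: Pool.Agent.Work.MP_0909b4_al.NAG1
section
/-! The universal cover of a finite ordered complex with a flat structure.

The group `Γ` has a generator for each edge and a relation for each triangle. It is the fundamental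
group of the complex with one more vertex `none` joined to every vertex. The cover has vertices
`Γ × Option L`.

Plan.
* `nb_inj`: two edges at `l` with the same neighbour are both down or both up (ranks); then their
  generators agree, so their motions agree (`hol_of`), and `inj` applies.
* `tri_iff`: a face with three distinct vertices is a triangle `Mx.tri h t`; `(g, l)` is one of its
  three vertices.
* `link`: for `v = (g, none)` there is no triangle; for `v = (g, some l)` transport the potential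
  of `GCx.link` along `nb g l` (`Function.extend`), replacing `F` by `-F` if necessary; angles are
  invariant under multiplication by the unit `(hol g).a` (`pos_nb`).
* `conn`: `(g, none) - (g, src e) - (g * of e, tgt e) - (g * of e, none)`, and induction on `g`
  (`PresentedGroup.closure_range_of`).
* `sc`: the maps `T v w` are bijections. On `Ω = Σ g, E (g, none)` the edge `e` acts by transport
  along the path above, a permutation `π e` with `π (e12 t) ∘ π (e01 t) = π (e02 t)`; so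
  `e ↦ (π e)⁻¹` defines a homomorphism `ρ : Γ → Perm Ω` with `((ρ k)⁻¹ ω).1 = ω.1 * k`. Move `e₀` to
  `ω₀` over `(g₀, none)`, put `s (g, none) = (ρ (g₀⁻¹ * g))⁻¹ ω₀` and `s (g, some l) = T (s (g, none))`.
-/

namespace Pool.Agent.Work.MP_0909b4_al.NA

open Real InnerProductGeometry

/-- a finite ordered complex with motions on the edges -/
structure GC0 where
  L : Type
  Ed : Type
  Tr : Type
  finL : Finite L
  finE : Finite Ed
  finT : Finite Tr
  neL : Nonempty L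
  src : Ed → L
  tgt : Ed → L
  rk : L → ℕ
  rk_lt : ∀ e, rk (tgt e) < rk (src e)
  e01 : Tr → Ed
  e12 : Tr → Ed
  e02 : Tr → Ed
  src02 : ∀ t, src (e02 t) = src (e01 t)
  src12 : ∀ t, src (e12 t) = tgt (e01 t)
  tgt02 : ∀ t, tgt (e02 t) = tgt (e12 t)
  mo : Ed → Mot
  mo_tri : ∀ t, mo (e01 t) * mo (e12 t) = mo (e02 t)
  p : L → ℂ
  inj : ∀ e e', src e = src e' → tgt e = tgt e' → mo e = mo e' → e = e'
  nd_e : ∀ e, mo e • p (tgt e) ≠ p (src e)
  nd_t : ∀ t, cross (mo (e01 t) • p (tgt (e01 t)) - p (src (e01 t)))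
    (mo (e02 t) • p (tgt (e02 t)) - p (src (e01 t))) ≠ 0

open Classical in
/-- the direction of the edge `e` at its end `l`, in the frame of `l` -/
noncomputable def GC0.dir (K : GC0) (l : K.L) (e : K.Ed) : ℂ :=
  if K.src e = l then K.mo e • K.p (K.tgt e) - K.p l else (K.mo e)⁻¹ • K.p (K.src e) - K.p l

/-- the edges `a, b` span the corner of a triangle at `l` -/
def GC0.Cor (K : GC0) (l : K.L) (a b : K.Ed) : Prop :=
  ∃ t, (l = K.src (K.e01 t) ∧ a = K.e01 t ∧ b = K.e02 t) ∨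
    (l = K.tgt (K.e01 t) ∧ a = K.e01 t ∧ b = K.e12 t) ∨
    (l = K.tgt (K.e02 t) ∧ a = K.e02 t ∧ b = K.e12 t)

/-- the link condition -/
structure GCx extends GC0 where
  link : ∀ l a b, toGC0.Cor l a b → ∃ F : Ed → ℝ,
    2 * π - angle (toGC0.dir l a) (toGC0.dir l b) ≤ |F a - F b| ∧
    ∀ x y, toGC0.Cor l x y → ¬(x = a ∧ y = b) → |F x - F y| ≤ angle (toGC0.dir l x) (toGC0.dir l y)

namespace GC0

variable (K : GC0)

def rels : Set (FreeGroup K.Ed) :=
  {r | ∃ t, r = FreeGroup.of (K.e01 t) * FreeGroup.of (K.e12 t) * (FreeGroup.of (K.e02 t))⁻¹}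

/-- the group -/
abbrev Γ : Type := PresentedGroup K.rels

def gen (e : K.Ed) : K.Γ := PresentedGroup.of e

theorem gen_tri (t : K.Tr) : K.gen (K.e01 t) * K.gen (K.e12 t) = K.gen (K.e02 t) := by
  have h := PresentedGroup.one_of_mem (rels := K.rels) ⟨t, rfl⟩
  rw [map_mul, map_mul, map_inv, mul_inv_eq_one] at h
  exact h

/-- the holonomy -/
noncomputable def hol : K.Γ →* Mot := PresentedGroup.toGroup (f := K.mo) (by
  rintro _ ⟨t, rfl⟩
  simp only [map_mul, map_inv, FreeGroup.lift_apply_of, K.mo_tri, mul_inv_cancel])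

theorem hol_of (e : K.Ed) : K.hol (K.gen e) = K.mo e := by
  exact PresentedGroup.toGroup.of _

/-- vertices of the cover -/
abbrev V : Type := K.Γ × Option K.L

/-- a position for the extra vertex -/
theorem exists_far : ∃ q : ℂ, ∀ l, q ≠ K.p l := by
  have := K.finL
  obtain ⟨q, hq⟩ := (Set.finite_range K.p).exists_notMem
  exact ⟨q, fun l h => hq ⟨l, h.symm⟩⟩

noncomputable def p' : Option K.L → ℂ
  | none => K.exists_far.choose
  | some l => K.p l

noncomputable def pos (v : K.V) : ℂ := K.hol v.1 • K.p' v.2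

/-- the vertex sets that contain the simplices -/
inductive Mx : Set K.V → Prop
  | cone (g : K.Γ) (l : K.L) : Mx {(g, none), (g, some l)}
  | edge (g : K.Γ) (e : K.Ed) : Mx {(g, some (K.src e)), (g * K.gen e, some (K.tgt e))}
  | tri (g : K.Γ) (t : K.Tr) : Mx {(g, some (K.src (K.e01 t))),
      (g * K.gen (K.e01 t), some (K.tgt (K.e01 t))), (g * K.gen (K.e02 t), some (K.tgt (K.e02 t)))}

def faces : Set (Finset K.V) := {σ | σ.Nonempty ∧ ∃ M, K.Mx M ∧ (σ : Set K.V) ⊆ M}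

open Classical in
/-- the neighbour of `(g, l)` along `e` -/
noncomputable def nb (g : K.Γ) (l : K.L) (e : K.Ed) : K.V :=
  if K.src e = l then (g * K.gen e, some (K.tgt e)) else (g * (K.gen e)⁻¹, some (K.src e))

theorem NAG1_ne (e : K.Ed) : K.src e ≠ K.tgt e := fun h => by
  have := K.rk_lt e
  rw [h] at this
  exact lt_irrefl _ this

theorem NAG1_nb_src (g : K.Γ) {l : K.L} {e : K.Ed} (h : K.src e = l) :
    K.nb g l e = (g * K.gen e, some (K.tgt e)) := if_pos h

theorem NAG1_nb_tgt (g : K.Γ) {l : K.L} {e : K.Ed} (h : K.tgt e = l) :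
    K.nb g l e = (g * (K.gen e)⁻¹, some (K.src e)) := if_neg fun h' => K.NAG1_ne e (h'.trans h.symm)

theorem NAG1_ind {p : K.Γ → Prop} (h1 : p 1) (hg : ∀ e, p (K.gen e))
    (hm : ∀ x y, p x → p y → p (x * y)) (hi : ∀ x, p x → p x⁻¹) (g : K.Γ) : p g := by
  have hg' : g ∈ Subgroup.closure (Set.range (PresentedGroup.of : K.Ed → K.Γ)) := by
    rw [PresentedGroup.closure_range_of]
    trivial
  induction hg' using Subgroup.closure_induction with
  | mem x hx =>
    obtain ⟨e, rfl⟩ := hx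
    exact hg e
  | one => exact h1
  | mul x y _ _ hx hy => exact hm x y hx hy
  | inv x _ hx => exact hi x hx

theorem nb_inj (g : K.Γ) (l : K.L) {e e' : K.Ed} (h : K.src e = l ∨ K.tgt e = l)
    (h' : K.src e' = l ∨ K.tgt e' = l) (hn : K.nb g l e = K.nb g l e') : e = e' := by
  have r := K.rk_lt e
  have r' := K.rk_lt e'
  have key : K.gen e = K.gen e' → K.mo e = K.mo e' := fun hh => by
    rw [← K.hol_of, ← K.hol_of, hh]
  rcases h with h | h <;> rcases h' with h' | h'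
  · rw [K.NAG1_nb_src g h, K.NAG1_nb_src g h', Prod.mk.injEq, Option.some.injEq,
      mul_right_inj] at hn
    exact K.inj e e' (h.trans h'.symm) hn.2 (key hn.1)
  · rw [K.NAG1_nb_src g h, K.NAG1_nb_tgt g h', Prod.mk.injEq, Option.some.injEq] at hn
    rw [h, hn.2] at r
    rw [h'] at r'
    omega
  · rw [K.NAG1_nb_tgt g h, K.NAG1_nb_src g h', Prod.mk.injEq, Option.some.injEq] at hn
    rw [h, hn.2] at r
    rw [h'] at r'
    omega
  · rw [K.NAG1_nb_tgt g h, K.NAG1_nb_tgt g h', Prod.mk.injEq, Option.some.injEq,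
      mul_right_inj, inv_inj] at hn
    exact K.inj e e' hn.2 (h.trans h'.symm) (key hn.1)

theorem pos_nb (g : K.Γ) (l : K.L) (e : K.Ed) :
    K.pos (K.nb g l e) - K.pos (g, some l) = (K.hol g).a * K.dir l e := by
  unfold nb dir
  split_ifs
  · simp only [pos, p', map_mul, hol_of, mul_smul, Mot.smul_sub]
  · simp only [pos, p', map_mul, map_inv, hol_of, mul_smul, Mot.smul_sub]

theorem NAG1_fin {M : Set K.V} (h : K.Mx M) : ∃ a b c, M = {a, b, c} := by
  cases h with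
  | cone g l => exact ⟨_, _, _, by rw [Set.pair_eq_singleton]⟩
  | edge g e => exact ⟨_, _, _, by rw [Set.pair_eq_singleton]⟩
  | tri g t => exact ⟨_, _, _, rfl⟩

theorem NAG1_adj3 {u v w : K.V} :
    Adj3 K.faces u v w ↔ ∃ M, K.Mx M ∧ u ∈ M ∧ v ∈ M ∧ w ∈ M := by
  classical
  constructor
  · rintro ⟨σ, ⟨-, M, hM, hσ⟩, hu, hv, hw⟩
    exact ⟨M, hM, hσ hu, hσ hv, hσ hw⟩
  · rintro ⟨M, hM, hu, hv, hw⟩
    refine ⟨{u, v, w}, ⟨by simp, M, hM, ?_⟩, by simp, by simp, by simp⟩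
    simp [Set.insert_subset_iff, hu, hv, hw]

theorem NAG1_adj2 {u v : K.V} : Adj2 K.faces u v ↔ ∃ M, K.Mx M ∧ u ∈ M ∧ v ∈ M := by
  constructor
  · rintro ⟨σ, ⟨-, M, hM, hσ⟩, hu, hv⟩
    exact ⟨M, hM, hσ hu, hσ hv⟩
  · rintro ⟨M, hM, hu, hv⟩
    obtain ⟨σ, h1, h2, h3, -⟩ := K.NAG1_adj3.2 ⟨M, hM, hu, hv, hv⟩
    exact ⟨σ, h1, h2, h3⟩

theorem NAG1_cone (g : K.Γ) (o o' : Option K.L) (h : o = none ∨ o' = none) :
    Adj2 K.faces (g, o) (g, o') := by
  obtain ⟨l₀⟩ := K.neL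
  rcases o with _ | l <;> rcases o' with _ | l'
  · exact K.NAG1_adj2.2 ⟨_, .cone g l₀, by simp, by simp⟩
  · exact K.NAG1_adj2.2 ⟨_, .cone g l', by simp, by simp⟩
  · exact K.NAG1_adj2.2 ⟨_, .cone g l, by simp, by simp⟩
  · simp at h

theorem NAG1_refl (v : K.V) : Adj2 K.faces v v := by
  obtain ⟨g, _ | l⟩ := v
  · exact K.NAG1_cone g _ _ (.inl rfl)
  · exact K.NAG1_adj2.2 ⟨_, .cone g l, by simp, by simp⟩

theorem NAG1_symm {v w : K.V} (h : Adj2 K.faces v w) : Adj2 K.faces w v :=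
  let ⟨σ, h1, h2, h3⟩ := h
  ⟨σ, h1, h3, h2⟩

theorem NAG1_edge (g : K.Γ) (e : K.Ed) :
    Adj2 K.faces (g, some (K.src e)) (g * K.gen e, some (K.tgt e)) :=
  K.NAG1_adj2.2 ⟨_, .edge g e, by simp, by simp⟩

theorem NAG1_pigeon {α : Type} {a b u v w : α} (hu : u ∈ ({a, b} : Set α))
    (hv : v ∈ ({a, b} : Set α)) (hw : w ∈ ({a, b} : Set α)) (h1 : u ≠ v) (h2 : u ≠ w)
    (h3 : v ≠ w) : False := by
  rcases hu with rfl | rfl <;> rcases hv with rfl | rfl <;> rcases hw with rfl | rfl <;>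
    simp_all

theorem NAG1_three {α : Type} {a b c u v w : α} (hu : u ∈ ({a, b, c} : Set α))
    (hv : v ∈ ({a, b, c} : Set α)) (hw : w ∈ ({a, b, c} : Set α)) (h1 : u ≠ v) (h2 : u ≠ w)
    (h3 : v ≠ w) : (u = a ∧ (v = b ∧ w = c ∨ v = c ∧ w = b)) ∨
      (u = b ∧ (v = a ∧ w = c ∨ v = c ∧ w = a)) ∨ (u = c ∧ (v = a ∧ w = b ∨ v = b ∧ w = a)) := by
  rcases hu with rfl | rfl | rfl <;> rcases hv with rfl | rfl | rfl <;>
    rcases hw with rfl | rfl | rfl <;> simp_all

theorem NAG1_tri (g : K.Γ) (t : K.Tr) : Tri3 K.faces (g, some (K.src (K.e01 t)))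
    (g * K.gen (K.e01 t), some (K.tgt (K.e01 t))) (g * K.gen (K.e02 t), some (K.tgt (K.e02 t))) := by
  refine ⟨K.NAG1_adj3.2 ⟨_, .tri g t, by simp, by simp, by simp⟩, fun h => ?_, fun h => ?_,
    fun h => ?_⟩
  · exact K.NAG1_ne _ (Option.some.inj (Prod.mk.inj h).2)
  · exact K.NAG1_ne _ ((K.src02 t).trans (Option.some.inj (Prod.mk.inj h).2))
  · exact K.NAG1_ne _ (((K.src12 t).trans (Option.some.inj (Prod.mk.inj h).2)).trans (K.tgt02 t))

theorem NAG1_swap {V : Type} {F : Set (Finset V)} {u v w : V} (h : Tri3 F u v w) : Tri3 F u w v :=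
  let ⟨⟨σ, h1, h2, h3, h4⟩, h5, h6, h7⟩ := h
  ⟨⟨σ, h1, h2, h4, h3⟩, h6, h5, h7.symm⟩

theorem NAG1_swap' {V : Type} {F : Set (Finset V)} {u v w : V} (h : Tri3 F u v w) : Tri3 F v u w :=
  let ⟨⟨σ, h1, h2, h3, h4⟩, h5, h6, h7⟩ := h
  ⟨⟨σ, h1, h3, h2, h4⟩, h5.symm, h7, h6⟩

theorem NAG1_nbs (g : K.Γ) (t : K.Tr) :
    K.nb g (K.src (K.e01 t)) (K.e01 t) = (g * K.gen (K.e01 t), some (K.tgt (K.e01 t))) ∧
    K.nb g (K.src (K.e01 t)) (K.e02 t) = (g * K.gen (K.e02 t), some (K.tgt (K.e02 t))) ∧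
    K.nb (g * K.gen (K.e01 t)) (K.tgt (K.e01 t)) (K.e01 t) = (g, some (K.src (K.e01 t))) ∧
    K.nb (g * K.gen (K.e01 t)) (K.tgt (K.e01 t)) (K.e12 t)
      = (g * K.gen (K.e02 t), some (K.tgt (K.e02 t))) ∧
    K.nb (g * K.gen (K.e02 t)) (K.tgt (K.e02 t)) (K.e02 t) = (g, some (K.src (K.e01 t))) ∧
    K.nb (g * K.gen (K.e02 t)) (K.tgt (K.e02 t)) (K.e12 t)
      = (g * K.gen (K.e01 t), some (K.tgt (K.e01 t))) := by
  refine ⟨K.NAG1_nb_src g rfl, K.NAG1_nb_src g (K.src02 t), ?_, ?_, ?_, ?_⟩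
  · rw [K.NAG1_nb_tgt _ rfl, mul_inv_cancel_right]
  · rw [K.NAG1_nb_src _ (K.src12 t), mul_assoc, K.gen_tri, K.tgt02]
  · rw [K.NAG1_nb_tgt _ rfl, mul_inv_cancel_right, K.src02]
  · rw [K.NAG1_nb_tgt _ (K.tgt02 t).symm, ← K.gen_tri, ← mul_assoc, mul_inv_cancel_right, K.src12]

theorem NAG1_cor {l : K.L} {a b : K.Ed} (h : K.Cor l a b) (g : K.Γ) :
    Tri3 K.faces (g, some l) (K.nb g l a) (K.nb g l b) := by
  obtain ⟨t, ⟨rfl, rfl, rfl⟩ | ⟨rfl, rfl, rfl⟩ | ⟨rfl, rfl, rfl⟩⟩ := h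
  · obtain ⟨h1, h2, -⟩ := K.NAG1_nbs g t
    rw [h1, h2]
    exact K.NAG1_tri g t
  · obtain ⟨g, rfl⟩ : ∃ g', g = g' * K.gen (K.e01 t) := ⟨_, (inv_mul_cancel_right _ _).symm⟩
    obtain ⟨-, -, h1, h2, -⟩ := K.NAG1_nbs g t
    rw [h1, h2]
    exact NAG1_swap' (K.NAG1_tri g t)
  · obtain ⟨g, rfl⟩ : ∃ g', g = g' * K.gen (K.e02 t) := ⟨_, (inv_mul_cancel_right _ _).symm⟩
    obtain ⟨-, -, -, -, h1, h2⟩ := K.NAG1_nbs g t
    rw [h1, h2]
    exact NAG1_swap' (NAG1_swap (K.NAG1_tri g t))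

theorem NAG1_inc {l : K.L} {a b : K.Ed} (h : K.Cor l a b) :
    (K.src a = l ∨ K.tgt a = l) ∧ (K.src b = l ∨ K.tgt b = l) := by
  obtain ⟨t, ⟨rfl, rfl, rfl⟩ | ⟨rfl, rfl, rfl⟩ | ⟨rfl, rfl, rfl⟩⟩ := h
  · exact ⟨.inl rfl, .inl (K.src02 t)⟩
  · exact ⟨.inr rfl, .inl (K.src12 t)⟩
  · exact ⟨.inr rfl, .inr (K.tgt02 t).symm⟩

theorem tri_iff (g : K.Γ) (l : K.L) (x y : K.V) : Tri3 K.faces (g, some l) x y ↔
    ∃ a b, (K.Cor l a b ∨ K.Cor l b a) ∧ x = K.nb g l a ∧ y = K.nb g l b := by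
  constructor
  · rintro ⟨h, h1, h2, h3⟩
    obtain ⟨M, hM, hu, hx, hy⟩ := K.NAG1_adj3.1 h
    cases hM with
    | cone g' l' => exact (NAG1_pigeon hu hx hy h1 h2 h3).elim
    | edge g' e => exact (NAG1_pigeon hu hx hy h1 h2 h3).elim
    | tri g' t =>
      obtain ⟨n1, n2, n3, n4, n5, n6⟩ := K.NAG1_nbs g' t
      rcases NAG1_three hu hx hy h1 h2 h3 with ⟨e, h'⟩ | ⟨e, h'⟩ | ⟨e, h'⟩ <;>
        obtain ⟨rfl, e'⟩ := Prod.mk.inj e <;> obtain rfl := Option.some.inj e' <;>
        rcases h' with ⟨rfl, rfl⟩ | ⟨rfl, rfl⟩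
      · exact ⟨_, _, .inl ⟨t, .inl ⟨rfl, rfl, rfl⟩⟩, n1.symm, n2.symm⟩
      · exact ⟨_, _, .inr ⟨t, .inl ⟨rfl, rfl, rfl⟩⟩, n2.symm, n1.symm⟩
      · exact ⟨_, _, .inl ⟨t, .inr (.inl ⟨rfl, rfl, rfl⟩)⟩, n3.symm, n4.symm⟩
      · exact ⟨_, _, .inr ⟨t, .inr (.inl ⟨rfl, rfl, rfl⟩)⟩, n4.symm, n3.symm⟩
      · exact ⟨_, _, .inl ⟨t, .inr (.inr ⟨rfl, rfl, rfl⟩)⟩, n5.symm, n6.symm⟩
      · exact ⟨_, _, .inr ⟨t, .inr (.inr ⟨rfl, rfl, rfl⟩)⟩, n6.symm, n5.symm⟩
  · rintro ⟨a, b, h | h, rfl, rfl⟩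
    · exact K.NAG1_cor h g
    · exact NAG1_swap (K.NAG1_cor h g)

theorem not_tri_none (g : K.Γ) (x y : K.V) : ¬Tri3 K.faces (g, none) x y := by
  rintro ⟨h, h1, h2, h3⟩
  obtain ⟨M, hM, hu, hx, hy⟩ := K.NAG1_adj3.1 h
  cases hM with
  | cone g' l' => exact NAG1_pigeon hu hx hy h1 h2 h3
  | edge g' e => exact NAG1_pigeon hu hx hy h1 h2 h3
  | tri g' t => simp at hu

theorem NAG1_adj_iff (v w : K.V) : Adj2 K.faces v w ↔ v = w ∨
    (∃ g l, (v = (g, none) ∧ w = (g, some l)) ∨ (w = (g, none) ∧ v = (g, some l))) ∨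
    ∃ g e, (v = (g, some (K.src e)) ∧ w = (g * K.gen e, some (K.tgt e))) ∨
      (w = (g, some (K.src e)) ∧ v = (g * K.gen e, some (K.tgt e))) := by
  constructor
  · intro h
    obtain ⟨M, hM, hv, hw⟩ := K.NAG1_adj2.1 h
    cases hM with
    | cone g l =>
      rcases hv with rfl | rfl <;> rcases hw with rfl | rfl
      exacts [.inl rfl, .inr (.inl ⟨g, l, .inl ⟨rfl, rfl⟩⟩), .inr (.inl ⟨g, l, .inr ⟨rfl, rfl⟩⟩),
        .inl rfl]
    | edge g e =>
      rcases hv with rfl | rfl <;> rcases hw with rfl | rfl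
      exacts [.inl rfl, .inr (.inr ⟨g, e, .inl ⟨rfl, rfl⟩⟩), .inr (.inr ⟨g, e, .inr ⟨rfl, rfl⟩⟩),
        .inl rfl]
    | tri g t =>
      have a1 : ((g, some (K.src (K.e01 t))) : K.V) = (g, some (K.src (K.e02 t))) := by
        rw [K.src02]
      have a2 : ((g * K.gen (K.e01 t), some (K.tgt (K.e01 t))) : K.V)
          = (g * K.gen (K.e01 t), some (K.src (K.e12 t))) := by rw [K.src12]
      have a3 : ((g * K.gen (K.e02 t), some (K.tgt (K.e02 t))) : K.V)
          = (g * K.gen (K.e01 t) * K.gen (K.e12 t), some (K.tgt (K.e12 t))) := by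
        rw [K.tgt02, mul_assoc, K.gen_tri]
      rcases hv with rfl | rfl | rfl <;> rcases hw with rfl | rfl | rfl
      exacts [.inl rfl, .inr (.inr ⟨g, _, .inl ⟨rfl, rfl⟩⟩), .inr (.inr ⟨g, _, .inl ⟨a1, rfl⟩⟩),
        .inr (.inr ⟨g, _, .inr ⟨rfl, rfl⟩⟩), .inl rfl, .inr (.inr ⟨_, _, .inl ⟨a2, a3⟩⟩),
        .inr (.inr ⟨g, _, .inr ⟨a1, rfl⟩⟩), .inr (.inr ⟨_, _, .inr ⟨a2, a3⟩⟩), .inl rfl]
  · rintro (rfl | ⟨g, l, ⟨rfl, rfl⟩ | ⟨rfl, rfl⟩⟩ | ⟨g, e, ⟨rfl, rfl⟩ | ⟨rfl, rfl⟩⟩)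
    exacts [K.NAG1_refl _, K.NAG1_cone g _ _ (.inl rfl), K.NAG1_cone g _ _ (.inr rfl),
      K.NAG1_edge g e, K.NAG1_symm (K.NAG1_edge g e)]

/-- two vertices of a simplex with the same label are equal -/
theorem adj_label {g g' : K.Γ} {o : Option K.L} (h : Adj2 K.faces (g, o) (g', o)) : g = g' := by
  rcases (K.NAG1_adj_iff _ _).1 h with h | ⟨k, l, ⟨h, h'⟩ | ⟨h, h'⟩⟩ | ⟨k, e, ⟨h, h'⟩ | ⟨h, h'⟩⟩
  · exact (Prod.mk.inj h).1
  · exact (Prod.mk.inj h).1.trans (Prod.mk.inj h').1.symm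
  · exact (Prod.mk.inj h').1.trans (Prod.mk.inj h).1.symm
  · exact (K.NAG1_ne e (Option.some.inj ((Prod.mk.inj h).2.symm.trans (Prod.mk.inj h').2))).elim
  · exact (K.NAG1_ne e (Option.some.inj ((Prod.mk.inj h).2.symm.trans (Prod.mk.inj h').2))).elim

theorem adj_iff (v w : K.V) : Adj2 K.faces v w ↔ v = w ∨
    (∃ g l, (v = (g, none) ∧ w = (g, some l)) ∨ (w = (g, none) ∧ v = (g, some l))) ∨
    ∃ g e, (v = (g, some (K.src e)) ∧ w = (g * K.gen e, some (K.tgt e))) ∨
      (w = (g, some (K.src e)) ∧ v = (g * K.gen e, some (K.tgt e))) := by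
  exact K.NAG1_adj_iff v w

/-- the section problem on the total space -/
theorem NAG1_sc {X : Type} (pr : X → K.V) (τ : K.V → X → X)
    (t1 : ∀ w a, Adj2 K.faces (pr a) w → pr (τ w a) = w) (t2 : ∀ a, τ (pr a) a = a)
    (t3 : ∀ v w a, Adj3 K.faces (pr a) v w → τ w (τ v a) = τ w a) (a₀ : X) :
    ∃ σ : K.V → X, (∀ v, pr (σ v) = v) ∧ σ (pr a₀) = a₀ ∧
      ∀ v w, Adj2 K.faces v w → τ w (σ v) = σ w := by
  have t1' : ∀ {v w a}, pr a = v → Adj2 K.faces v w → pr (τ w a) = w := by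
    rintro _ w a rfl h
    exact t1 w a h
  have back : ∀ {u v a}, pr a = u → Adj2 K.faces u v → τ u (τ v a) = a := by
    rintro _ v a rfl ⟨σ, h1, h2, h3⟩
    rw [t3 v _ a ⟨σ, h1, h2, h3, h2⟩, t2]
  have up : ∀ g o, Adj2 K.faces (g, none) (g, o) := fun g o => K.NAG1_cone g _ _ (.inl rfl)
  have dn : ∀ g o, Adj2 K.faces (g, o) (g, none) := fun g o => K.NAG1_cone g _ _ (.inr rfl)
  have base : ∀ ω : {a : X // (pr a).2 = none}, pr ω.1 = ((pr ω.1).1, none) := fun ω =>
    Prod.ext rfl ω.2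
  let mv : K.Γ → K.L → K.L → X → X := fun k l l' a =>
    τ ((pr a).1 * k, none) (τ ((pr a).1 * k, some l') (τ ((pr a).1, some l) a))
  have mv1 : ∀ k l l', (∀ g, Adj2 K.faces (g, some l) (g * k, some l')) →
      ∀ a g, pr a = (g, none) → pr (mv k l l' a) = (g * k, none) := by
    intro k l l' h a g ha
    simp only [mv, ha]
    exact t1' (t1' (t1' ha (up _ _)) (h g)) (dn _ _)
  have mv2 : ∀ k l l', (∀ g, Adj2 K.faces (g, some l) (g * k, some l')) →
      ∀ a g, pr a = (g, none) → mv k⁻¹ l' l (mv k l l' a) = a := by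
    intro k l l' h a g ha
    have e := mv1 k l l' h a g ha
    simp only [mv] at e ⊢
    simp only [e, mul_inv_cancel_right]
    simp only [ha]
    have b1 := t1' ha (up g (some l))
    have b2 := t1' b1 (h g)
    rw [back b2 (dn _ _), back b1 (h g), back ha (up _ _)]
  have hE : ∀ e g, Adj2 K.faces (g, some (K.src e)) (g * K.gen e, some (K.tgt e)) :=
    fun e g => K.NAG1_edge g e
  have hE' : ∀ e g, Adj2 K.faces (g, some (K.tgt e)) (g * (K.gen e)⁻¹, some (K.src e)) :=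
    fun e g => by simpa using K.NAG1_symm (K.NAG1_edge (g * (K.gen e)⁻¹) e)
  let pm : K.Ed → Equiv.Perm {a : X // (pr a).2 = none} := fun e =>
    { toFun := fun ω => ⟨mv (K.gen e) (K.src e) (K.tgt e) ω.1, by
        rw [mv1 _ _ _ (hE e) _ _ (base ω)]⟩
      invFun := fun ω => ⟨mv (K.gen e)⁻¹ (K.tgt e) (K.src e) ω.1, by
        rw [mv1 _ _ _ (hE' e) _ _ (base ω)]⟩
      left_inv := fun ω => Subtype.ext (mv2 _ _ _ (hE e) _ _ (base ω))
      right_inv := fun ω => Subtype.ext (by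
        simpa only [inv_inv] using mv2 _ _ _ (hE' e) _ _ (base ω)) }
  have hpm : ∀ e ω, (pm e ω).1 = mv (K.gen e) (K.src e) (K.tgt e) ω.1 := fun _ _ => rfl
  have rel : ∀ t, pm (K.e12 t) * pm (K.e01 t) = pm (K.e02 t) := by
    intro t
    refine Equiv.ext fun ω => Subtype.ext ?_
    obtain ⟨g, ha⟩ : ∃ g, pr ω.1 = (g, none) := ⟨_, base ω⟩
    have e := mv1 _ _ _ (hE (K.e01 t)) _ _ ha
    rw [Equiv.Perm.mul_apply, hpm, hpm, hpm]
    simp only [mv] at e ⊢
    simp only [e]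
    simp only [ha]
    have b1 := t1' ha (up g (some (K.src (K.e01 t))))
    have b2 := t1' b1 (hE _ g)
    rw [K.src12, back b2 (dn _ _), mul_assoc, K.gen_tri, ← K.tgt02, K.src02,
      t3 _ (g * K.gen (K.e02 t), some (K.tgt (K.e02 t)))]
    rw [b1]
    exact (K.NAG1_tri g t).1
  let ρ : K.Γ →* Equiv.Perm {a : X // (pr a).2 = none} :=
    PresentedGroup.toGroup (f := fun e => (pm e)⁻¹) (by
      rintro _ ⟨t, rfl⟩
      simp only [map_mul, map_inv, FreeGroup.lift_apply_of, ← rel t]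
      group)
  have hρ : ∀ e, (ρ (K.gen e))⁻¹ = pm e := fun e => by
    rw [inv_eq_iff_eq_inv]
    exact PresentedGroup.toGroup.of _
  have pos : ∀ k ω, (pr ((ρ k)⁻¹ ω).1).1 = (pr ω.1).1 * k := by
    intro k
    induction k using K.NAG1_ind with
    | h1 => simp
    | hg e =>
      intro ω
      rw [hρ, hpm, mv1 _ _ _ (hE e) _ _ (base ω)]
    | hm x y hx hy =>
      intro ω
      rw [map_mul, mul_inv_rev, Equiv.Perm.mul_apply, hy, hx, mul_assoc]
    | hi x hx =>
      intro ω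
      have := hx (ρ x ω)
      rw [← Equiv.Perm.mul_apply, inv_mul_cancel, Equiv.Perm.one_apply] at this
      rw [map_inv, inv_inv, this, mul_inv_cancel_right]
  obtain ⟨g₀, o₀, h₀⟩ : ∃ g o, pr a₀ = (g, o) := ⟨_, _, rfl⟩
  have hω := t1' h₀ (dn g₀ o₀)
  let ω₀ : {a : X // (pr a).2 = none} := ⟨τ (g₀, none) a₀, by rw [hω]⟩
  let S : K.Γ → X := fun g => ((ρ (g₀⁻¹ * g))⁻¹ ω₀).1
  have hS : ∀ g, pr (S g) = (g, none) := fun g => by
    rw [base, pos]
    simp only [ω₀, hω, mul_inv_cancel_left]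
  have hS' : ∀ g, τ (g, none) (S g) = S g := fun g => by rw [← hS g, t2]
  have hp : ∀ v : K.V, pr (τ v (S v.1)) = v := fun v => t1' (hS _) (up _ _)
  have half : ∀ v w : K.V, Adj2 K.faces v w → τ w (τ v (S v.1)) = τ w (S w.1) →
      τ v (τ w (S w.1)) = τ v (S v.1) := fun v w h h' => by rw [← h', back (hp v) h]
  have c1 : ∀ g l, τ (g, some l) (τ (g, none) (S g)) = τ (g, some l) (S g) := fun g l => by
    rw [hS']
  have c2 : ∀ g e, τ (g * K.gen e, some (K.tgt e)) (τ (g, some (K.src e)) (S g))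
      = τ (g * K.gen e, some (K.tgt e)) (S (g * K.gen e)) := fun g e => by
    have : S (g * K.gen e) = mv (K.gen e) (K.src e) (K.tgt e) (S g) := by
      simp only [S]
      rw [← mul_assoc, map_mul, mul_inv_rev, Equiv.Perm.mul_apply, hρ, hpm]
    rw [this]
    simp only [mv, hS]
    rw [back (t1' (t1' (hS g) (up _ _)) (hE e g)) (dn _ _)]
  refine ⟨fun v => τ v (S v.1), hp, ?_, fun v w h => ?_⟩
  · simp only [h₀, S, inv_mul_cancel, map_one, inv_one, Equiv.Perm.one_apply, ω₀]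
    exact back h₀ (dn _ _)
  · rcases (K.adj_iff v w).1 h with rfl | ⟨g, l, ⟨rfl, rfl⟩ | ⟨rfl, rfl⟩⟩ |
      ⟨g, e, ⟨rfl, rfl⟩ | ⟨rfl, rfl⟩⟩
    · have := t2 (τ v (S v.1))
      rwa [hp] at this
    · exact c1 g l
    · exact half _ _ (up g _) (c1 g l)
    · exact c2 g e
    · exact half _ _ (hE e g) (c2 g e)

theorem sc (E : K.V → Type) (T : ∀ v w, Adj2 K.faces v w → E v → E w)
    (h₁ : ∀ v h e, T v v h e = e)
    (h₂ : ∀ u v w, Adj3 K.faces u v w → ∀ h₁ h₂ h₃ e, T v w h₂ (T u v h₁ e) = T u w h₃ e)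
    (v₀ : K.V) (e₀ : E v₀) : ∃ s : ∀ v, E v, s v₀ = e₀ ∧ ∀ v w h, T v w h (s v) = s w := by
  classical
  let τ : K.V → (Σ v, E v) → Σ v, E v := fun w a =>
    if h : Adj2 K.faces a.1 w then ⟨w, T a.1 w h a.2⟩ else a
  have hτ : ∀ v w h x, τ w ⟨v, x⟩ = ⟨w, T v w h x⟩ := fun v w h x => dif_pos h
  obtain ⟨σ, s1, s2, s3⟩ := K.NAG1_sc (X := Σ v, E v) Sigma.fst τ
    (fun w a h => by rw [hτ a.1 w h a.2])
    (fun a => by rw [hτ a.1 a.1 (K.NAG1_refl _) a.2, h₁])
    (fun v w a h => by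
      obtain ⟨ς, k0, k1, k2, k3⟩ := id h
      rw [hτ a.1 v ⟨ς, k0, k1, k2⟩ a.2, hτ v w ⟨ς, k0, k2, k3⟩, hτ a.1 w ⟨ς, k0, k1, k3⟩ a.2,
        h₂ _ _ _ h]) ⟨v₀, e₀⟩
  have : ∀ v, ∃ x : E v, σ v = ⟨v, x⟩ := fun v => by
    have := s1 v
    generalize σ v = a at this
    obtain ⟨w, x⟩ := a
    obtain rfl : w = v := this
    exact ⟨x, rfl⟩
  choose s hs using this
  refine ⟨s, ?_, fun v w h => ?_⟩
  · exact eq_of_heq (Sigma.mk.inj ((hs v₀).symm.trans s2)).2
  · have := s3 v w h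
    rw [hs, hs, hτ v w h] at this
    exact eq_of_heq (Sigma.mk.inj this).2

end GC0

theorem NAG1_indep_of {V : Type} {n : ℕ} (pos : V → ℂ) (q : Fin n → V)
    (h : AffineIndependent ℝ fun i => pos (q i)) {σ : Finset V} (hσ : ∀ v ∈ σ, ∃ i, q i = v) :
    AffineIndependent ℝ fun v : σ => pos v := by
  choose f hf using hσ
  have := h.comp_embedding ⟨fun v : σ => f v.1 v.2, fun v w hvw =>
    Subtype.ext ((hf v.1 v.2).symm.trans ((congrArg q hvw).trans (hf w.1 w.2)))⟩
  convert this using 1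
  funext v
  exact congrArg pos (hf v.1 v.2).symm

theorem NAG1_indep2 {V : Type} (pos : V → ℂ) {a b : V} (h : pos a ≠ pos b) {σ : Finset V}
    (hσ : (σ : Set V) ⊆ {a, b}) : AffineIndependent ℝ fun v : σ => pos v := by
  refine NAG1_indep_of pos ![a, b] ?_ fun v hv => ?_
  · have : AffineIndependent ℝ ![pos a, pos b] := affineIndependent_of_ne ℝ h
    convert this using 1
    funext i
    fin_cases i <;> rfl
  · rcases hσ hv with rfl | rfl
    exacts [⟨0, rfl⟩, ⟨1, rfl⟩]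

theorem NAG1_indep3 {V : Type} (pos : V → ℂ) {a b c : V}
    (h : cross (pos b - pos a) (pos c - pos a) ≠ 0) {σ : Finset V}
    (hσ : (σ : Set V) ⊆ {a, b, c}) : AffineIndependent ℝ fun v : σ => pos v := by
  refine NAG1_indep_of pos ![a, b, c] ?_ fun v hv => ?_
  · have : AffineIndependent ℝ ![pos a, pos b, pos c] := by
      rw [affineIndependent_iff_not_collinear_set, collinear_iff_of_mem (p₀ := pos a) (by simp)]
      rintro ⟨z, hz⟩
      obtain ⟨r, hr⟩ := hz (pos b) (by simp)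
      obtain ⟨s, hs⟩ := hz (pos c) (by simp)
      apply h
      rw [hr, hs]
      simp only [cross, vadd_eq_add, add_sub_cancel_right, Complex.smul_re, Complex.smul_im,
        smul_eq_mul]
      ring
    convert this using 1
    funext i
    fin_cases i <;> rfl
  · rcases hσ hv with rfl | rfl | rfl
    exacts [⟨0, rfl⟩, ⟨1, rfl⟩, ⟨2, rfl⟩]

theorem NAG1_cross (m : Mot) (z w : ℂ) : cross (m.a * z) (m.a * w) = cross z w := by
  have h : m.a.re * m.a.re + m.a.im * m.a.im = 1 := by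
    rw [← Complex.normSq_apply, Complex.normSq_eq_norm_sq, m.norm_a, one_pow]
  simp only [cross, Complex.mul_re, Complex.mul_im]
  linear_combination (z.re * w.im - z.im * w.re) * h

theorem GCx.NAG1_link (K : GCx) {l : K.L} {a b : K.Ed} (h : K.Cor l a b ∨ K.Cor l b a) :
    ∃ F : K.Ed → ℝ, F a + (2 * π - angle (K.dir l a) (K.dir l b)) ≤ F b ∧
      ∀ x y, (K.Cor l x y ∨ K.Cor l y x) → ¬(x = a ∧ y = b) → ¬(x = b ∧ y = a) →
        F y ≤ F x + angle (K.dir l x) (K.dir l y) := by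
  obtain ⟨F, h1, h2⟩ : ∃ F : K.Ed → ℝ, 2 * π - angle (K.dir l a) (K.dir l b) ≤ |F a - F b| ∧
      ∀ x y, K.Cor l x y → ¬(x = a ∧ y = b) → ¬(x = b ∧ y = a) →
        |F x - F y| ≤ angle (K.dir l x) (K.dir l y) := by
    rcases h with h | h
    · obtain ⟨F, h1, h2⟩ := K.link l a b h
      exact ⟨F, h1, fun x y k1 k2 _ => h2 x y k1 k2⟩
    · obtain ⟨F, h1, h2⟩ := K.link l b a h
      rw [angle_comm, abs_sub_comm] at h1
      exact ⟨F, h1, fun x y k1 _ k2 => h2 x y k1 k2⟩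
  have h3 : ∀ x y, (K.Cor l x y ∨ K.Cor l y x) → ¬(x = a ∧ y = b) → ¬(x = b ∧ y = a) →
      |F x - F y| ≤ angle (K.dir l x) (K.dir l y) := by
    rintro x y (k | k) k1 k2
    · exact h2 x y k k1 k2
    · rw [angle_comm, abs_sub_comm]
      exact h2 y x k (fun k => k2 k.symm) fun k => k1 k.symm
  rcases le_abs.1 h1 with h1 | h1
  · refine ⟨fun x => -F x, by linarith, fun x y k k1 k2 => ?_⟩
    linarith [(abs_le.1 (h3 x y k k1 k2)).2]
  · refine ⟨F, by linarith, fun x y k k1 k2 => ?_⟩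
    linarith [(abs_le.1 (h3 x y k k1 k2)).1]

/-- the universal cover as a developed complex -/
noncomputable def GCx.cx (K : GCx) : DevCx where
  V := K.V
  faces := K.faces
  nonempty := fun _ h => h.1
  down := fun _ ⟨_, M, hM, h⟩ _ hτ hn => ⟨hn, M, hM, fun _ hv => h (hτ hv)⟩
  dim := by
    classical
    rintro σ ⟨-, M, hM, h⟩
    obtain ⟨a, b, c, rfl⟩ := K.NAG1_fin hM
    refine le_trans (Finset.card_le_card (t := {a, b, c}) fun v hv => ?_) Finset.card_le_three
    simpa using h hv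
  pos := K.pos
  indep := by
    rintro σ ⟨-, M, hM, h⟩
    cases hM with
    | cone g l =>
      refine NAG1_indep2 _ (fun k => K.exists_far.choose_spec l ?_) h
      exact smul_left_cancel (K.hol g) k
    | edge g e =>
      refine NAG1_indep2 _ (fun k => K.nd_e e ?_) h
      simp only [GC0.pos, GC0.p', map_mul, GC0.hol_of, mul_smul] at k
      exact (smul_left_cancel (K.hol g) k).symm
    | tri g t =>
      refine NAG1_indep3 _ ?_ h
      simp only [GC0.pos, GC0.p', map_mul, GC0.hol_of, mul_smul, Mot.smul_sub, NAG1_cross]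
      exact K.nd_t t
  shapes := by
    have := K.finL
    have := K.finE
    refine (((Set.finite_range fun l => dist (K.p' none) (K.p l)).union
      (Set.finite_range fun e => dist (K.p (K.src e)) (K.mo e • K.p (K.tgt e)))).insert 0).subset ?_
    rintro _ ⟨σ, hσ, v, hv, w, hw, rfl⟩
    rcases (K.adj_iff v w).1 ⟨σ, hσ, hv, hw⟩ with rfl | ⟨g, l, ⟨rfl, rfl⟩ | ⟨rfl, rfl⟩⟩ |
      ⟨g, e, ⟨rfl, rfl⟩ | ⟨rfl, rfl⟩⟩
    · exact .inl (dist_self _)
    · exact .inr (.inl ⟨l, (Mot.dist_smul' _ _ _).symm⟩)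
    · exact .inr (.inl ⟨l, (Mot.dist_smul' _ _ _).symm.trans (dist_comm _ _)⟩)
    · refine .inr (.inr ⟨e, ?_⟩)
      simp only [GC0.pos, GC0.p', map_mul, GC0.hol_of, mul_smul, Mot.dist_smul']
    · refine .inr (.inr ⟨e, ?_⟩)
      simp only [GC0.pos, GC0.p', map_mul, GC0.hol_of, mul_smul, Mot.dist_smul', dist_comm]
  nbr := by
    obtain ⟨l₀⟩ := K.neL
    rintro ⟨g, _ | l⟩
    · exact ⟨(g, some l₀), by simp, K.NAG1_cone g _ _ (.inl rfl)⟩
    · exact ⟨(g, none), by simp, K.NAG1_cone g _ _ (.inr rfl)⟩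
  locfin := by
    have := K.finL
    have := K.finE
    intro v
    refine ((Set.finite_range fun o : Option K.L => ((v.1, o) : K.V)).union
      ((Set.finite_range fun e => ((v.1 * K.gen e, some (K.tgt e)) : K.V)).union
        (Set.finite_range fun e => ((v.1 * (K.gen e)⁻¹, some (K.src e)) : K.V)))).subset ?_
    intro w hw
    rcases (K.adj_iff v w).1 hw with rfl | ⟨g, l, ⟨rfl, rfl⟩ | ⟨rfl, rfl⟩⟩ |
      ⟨g, e, ⟨rfl, rfl⟩ | ⟨rfl, rfl⟩⟩
    · exact .inl ⟨_, rfl⟩
    · exact .inl ⟨_, rfl⟩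
    · exact .inl ⟨_, rfl⟩
    · exact .inr (.inl ⟨e, rfl⟩)
    · exact .inr (.inr ⟨e, by simp⟩)
  conn := by
    have sy : ∀ v w, Relation.ReflTransGen (Adj2 K.faces) v w →
        Relation.ReflTransGen (Adj2 K.faces) w v := by
      intro v w h
      induction h with
      | refl => exact .refl
      | tail _ h ih => exact .head (K.NAG1_symm h) ih
    have key : ∀ k g : K.Γ, Relation.ReflTransGen (Adj2 K.faces) (g, none) (g * k, none) := by
      intro k
      induction k using K.NAG1_ind with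
      | h1 =>
        intro g
        rw [mul_one]
      | hg e =>
        exact fun g => .head (K.NAG1_cone g _ _ (.inl rfl))
          (.head (K.NAG1_edge g e) (.single (K.NAG1_cone _ _ _ (.inr rfl))))
      | hm x y hx hy =>
        intro g
        rw [← mul_assoc]
        exact (hx g).trans (hy _)
      | hi x hx =>
        intro g
        have := sy _ _ (hx (g * x⁻¹))
        rwa [inv_mul_cancel_right] at this
    rintro ⟨g, o⟩ ⟨g', o'⟩
    have := key (g⁻¹ * g') g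
    rw [mul_inv_cancel_left] at this
    exact .head (K.NAG1_cone g _ _ (.inr rfl)) (this.tail (K.NAG1_cone g' _ _ (.inl rfl)))
  link := by
    rintro ⟨g, _ | l⟩ a b h
    · exact (K.not_tri_none g a b h).elim
    obtain ⟨a, b, hc, rfl, rfl⟩ := (K.tri_iff g l a b).1 h
    obtain ⟨F, h1, h2⟩ := K.NAG1_link hc
    have inj : Function.Injective fun x : {e // K.src e = l ∨ K.tgt e = l} => K.nb g l x.1 :=
      fun x y k => Subtype.ext (K.nb_inj g l x.2 y.2 k)
    have ext : ∀ x, (K.src x = l ∨ K.tgt x = l) → Function.extend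
        (fun x : {e // K.src e = l ∨ K.tgt e = l} => K.nb g l x.1) (fun x => F x.1) 0
          (K.nb g l x) = F x := fun x hx => inj.extend_apply (fun x => F x.1) 0 ⟨x, hx⟩
    have inc : ∀ {x y}, (K.Cor l x y ∨ K.Cor l y x) →
        (K.src x = l ∨ K.tgt x = l) ∧ (K.src y = l ∨ K.tgt y = l) := by
      rintro x y (k | k)
      exacts [K.NAG1_inc k, (K.NAG1_inc k).symm]
    refine ⟨Function.extend (fun x : {e // K.src e = l ∨ K.tgt e = l} => K.nb g l x.1)
      (fun x => F x.1) 0, ?_, fun x y k k1 k2 => ?_⟩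
    · rw [ext a (inc hc).1, ext b (inc hc).2, K.pos_nb, K.pos_nb,
        Complex.angle_mul_left (Mot.a_ne _)]
      exact h1
    · obtain ⟨x, y, hc', rfl, rfl⟩ := (K.tri_iff g l x y).1 k
      rw [ext x (inc hc').1, ext y (inc hc').2, K.pos_nb, K.pos_nb,
        Complex.angle_mul_left (Mot.a_ne _)]
      refine h2 x y hc' ?_ ?_
      · rintro ⟨rfl, rfl⟩
        exact k1 ⟨rfl, rfl⟩
      · rintro ⟨rfl, rfl⟩
        exact k2 ⟨rfl, rfl⟩
  sc := K.sc

end Pool.Agent.Work.MP_0909b4_al.NA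
end
end

-- merged part: Pool.Agent.Work.MP_0909b4_al.NADev2
section
/-! Complexes with a developing map: length space, local compactness, sections.

Plan.
* `isLen`: take a chain of length `< dist x y + η` and subdivide each step with `exists_mix`.
* `isCompact_simplex`: the map from the standard simplex of `σ → ℝ` onto the set is Lipschitz
  (`exists_pt`, `dist_common`).
* `cpt`: with `r = 1 / (6 Λ)` and `v` with `1/3 ≤ x.co v`, every point of the closed ball has
  `0 < co v`, so its support is one of finitely many simplices (`locfin`).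
* `hasSec`: let `L` be a local system at scale `ε`. On each simplex `σ` the subtype
  `{x // x.co.support ⊆ σ}` has sections (`hasSec_of_contraction` with `exists_mix`), and two
  sections that agree at one point agree (small steps along `exists_mix`). Define the transport
  `T v w` along an edge through such sections, get `s` on the vertices from `sc`, extend it to
  every point through its support. On each simplex the extension is a section. For
  `dist x y ≤ ε / 4` follow a fine chain of length `< ε / 2` and use `T_comp` from the base point `x`.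
-/

namespace Pool.Agent.Work.MP_0909b4_al.NA

namespace DevCx

variable (X : DevCx)

/-- chains whose steps have length at most `η` -/
inductive FineNADev2 (η : ℝ) : X.P → X.P → ℝ → Prop
  | nil (x : X.P) : FineNADev2 η x x 0
  | cons {x y z : X.P} {r : ℝ} (σ : Finset X.V) : σ ∈ X.faces → x.co.support ⊆ σ →
      y.co.support ⊆ σ → dist x y ≤ η → FineNADev2 η y z r → FineNADev2 η x z (dist x y + r)

theorem mix_dist_NADev2 {σ : Finset X.V} (hσ : σ ∈ X.faces) {x y : X.P} (hx : x.co.support ⊆ σ)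
    (hy : y.co.support ⊆ σ) {t : ℝ} (h0 : 0 ≤ t) (h1 : t ≤ 1) :
    ∃ z : X.P, z.co.support ⊆ σ ∧ dist x z = t * dist x y ∧ dist z y = (1 - t) * dist x y := by
  obtain ⟨z, -, hz, hd⟩ := exists_mix hσ hx hy h0 h1
  refine ⟨z, hz, ?_, ?_⟩
  · rw [dist_common hσ hx hz, dist_common hσ hx hy, hd, dist_eq_norm, dist_eq_norm]
    have : X.dev x - ((1 - t) • X.dev x + t • X.dev y) = t • (X.dev x - X.dev y) := by
      module
    rw [this, norm_smul, Real.norm_of_nonneg h0]
  · rw [dist_common hσ hz hy, dist_common hσ hx hy, hd, dist_eq_norm, dist_eq_norm]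
    have : (1 - t) • X.dev x + t • X.dev y - X.dev y = (1 - t) • (X.dev x - X.dev y) := by
      module
    rw [this, norm_smul, Real.norm_of_nonneg (by linarith)]

/-- induction along small steps inside a simplex -/
theorem step_ind_NADev2 {σ : Finset X.V} (hσ : σ ∈ X.faces) {η : ℝ} (hη : 0 < η) {y : X.P}
    (hy : y.co.support ⊆ σ) (Q : X.P → Prop) (hQ : Q y)
    (hs : ∀ x z : X.P, x.co.support ⊆ σ → z.co.support ⊆ σ → dist x z ≤ η →
      dist x z + dist z y = dist x y → Q z → Q x)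
    {x : X.P} (hx : x.co.support ⊆ σ) : Q x := by
  have key : ∀ n : ℕ, ∀ x : X.P, x.co.support ⊆ σ → dist x y ≤ n * η → Q x := by
    intro n
    induction n with
    | zero =>
      intro x _ h
      have : dist x y = 0 := le_antisymm (by simpa using h) dist_nonneg
      rw [dist_eq_zero.1 this]
      exact hQ
    | succ n ih =>
      intro x hx h
      by_cases hd : dist x y ≤ η
      · exact hs x y hx hy hd (by simp) hQ
      · have hd' : η < dist x y := not_le.1 hd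
        have hp : 0 < dist x y := hη.trans hd'
        obtain ⟨z, hz, h1, h2⟩ := X.mix_dist_NADev2 hσ hx hy (t := η / dist x y)
          (div_nonneg hη.le hp.le) ((div_le_one hp).2 hd'.le)
        have e1 : dist x z = η := by rw [h1]; field_simp
        have e2 : dist z y = dist x y - η := by rw [h2]; field_simp
        refine hs x z hx hz e1.le (by rw [e1, e2]; ring) (ih z hz ?_)
        rw [e2]
        push_cast at h
        linarith only [h]
  obtain ⟨n, hn⟩ := exists_nat_ge (dist x y / η)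
  exact key n x hx ((div_le_iff₀ hη).1 hn)

theorem fine_nonneg_NADev2 {η : ℝ} {x y : X.P} {r : ℝ} (h : X.FineNADev2 η x y r) : 0 ≤ r := by
  induction h with
  | nil => exact le_rfl
  | cons σ _ _ _ _ _ ih => exact add_nonneg dist_nonneg ih

theorem fine_of_chain_NADev2 {η : ℝ} (hη : 0 < η) {x y : X.P} {r : ℝ}
    (h : X.toPECx.Chain x y r) : X.FineNADev2 η x y r := by
  induction h with
  | nil x => exact FineNADev2.nil x
  | @cons x y z r σ hσ hx hy _ ih =>
    rw [img_eq hx, img_eq hy, ← dist_common hσ hx hy]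
    refine X.step_ind_NADev2 hσ hη hy (fun a => X.FineNADev2 η a z (dist a y + r)) ?_ ?_ hx
    · simpa using ih
    · intro a b ha hb hab he hq
      have := FineNADev2.cons σ hσ ha hb hab hq
      rwa [← add_assoc, he] at this

theorem seq_of_fine_NADev2 {η : ℝ} {x y : X.P} {r : ℝ} (h : X.FineNADev2 η x y r) :
    ∃ (N : ℕ) (z : ℕ → X.P), z 0 = x ∧ z N = y ∧ (∀ i, i < N → dist (z i) (z (i + 1)) ≤ η) ∧
      ∑ i ∈ Finset.range N, dist (z i) (z (i + 1)) = r := by
  induction h with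
  | nil x => exact ⟨0, fun _ => x, rfl, rfl, fun i hi => absurd hi (Nat.not_lt_zero i), by simp⟩
  | @cons x y z r σ _ _ _ hd _ ih =>
    obtain ⟨N, c, h0, hN, hs, hsum⟩ := ih
    refine ⟨N + 1, fun i => Nat.casesOn i x c, rfl, hN, ?_, ?_⟩
    · intro i hi
      cases i with
      | zero =>
        show dist x (c 0) ≤ η
        rw [h0]
        exact hd
      | succ i => exact hs i (by omega)
    · rw [Finset.sum_range_succ']
      show ∑ i ∈ Finset.range N, dist (c i) (c (i + 1)) + dist x (c 0) = _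
      rw [hsum, h0, add_comm]

theorem isLen : IsLen X.P := by
  intro x y η hη
  obtain ⟨r, hr, hc⟩ := exists_chain_lt (x := x) (y := y) (r := dist x y + η) (by linarith)
  obtain ⟨N, z, h0, hN, hs, hsum⟩ := X.seq_of_fine_NADev2 (X.fine_of_chain_NADev2 hη hc)
  exact ⟨N, z, h0, hN, hs, by rw [hsum]; exact hr.le⟩

theorem isCompact_simplex {σ : Finset X.V} (hσ : σ ∈ X.faces) :
    IsCompact {x : X.P | x.co.support ⊆ σ} := by
  classical
  let w : stdSimplex ℝ σ → X.V → ℝ := fun a v => if h : v ∈ σ then a.1 ⟨v, h⟩ else 0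
  have hw : ∀ a : stdSimplex ℝ σ, ∃ x : X.P, (∀ v, x.co v = w a v) ∧ x.co.support ⊆ σ ∧
      X.dev x = ∑ v ∈ σ, w a v • X.pos v := by
    intro a
    refine exists_pt hσ (w a) ?_ ?_ ?_
    · intro v
      by_cases h : v ∈ σ
      · simp only [w, dif_pos h]
        exact a.2.1 _
      · simp only [w, dif_neg h, le_refl]
    · intro v h
      simp only [w, dif_neg h]
    · rw [← Finset.sum_coe_sort σ, ← a.2.2]
      refine Finset.sum_congr rfl fun v _ => ?_
      simp only [w, dif_pos v.2]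
  choose f hf1 hf2 hf3 using hw
  have hg : Continuous fun a : stdSimplex ℝ σ => ∑ v ∈ σ, w a v • X.pos v := by
    refine continuous_finsetSum _ fun v hv => ?_
    simp only [w, dif_pos hv]
    exact ((continuous_apply _).comp continuous_subtype_val).smul continuous_const
  have hf : Continuous f := by
    refine Metric.continuous_iff.2 fun b ε hε => ?_
    obtain ⟨δ, hδ, h⟩ := Metric.continuous_iff.1 hg b ε hε
    refine ⟨δ, hδ, fun a ha => ?_⟩
    rw [dist_common hσ (hf2 a) (hf2 b), hf3, hf3]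
    exact h a ha
  have hr : {x : X.P | x.co.support ⊆ σ} = Set.range f := by
    ext x
    constructor
    · intro hx
      have hx' : x.co.support ⊆ σ := hx
      refine ⟨⟨fun v => x.co v.1, fun v => x.nonneg _, ?_⟩, pt_ext fun v => ?_⟩
      · rw [Finset.sum_coe_sort σ (fun v => x.co v)]
        exact sum_co hx'
      · rw [hf1]
        by_cases h : v ∈ σ
        · exact dif_pos h
        · exact (dif_neg h).trans (Finsupp.notMem_support_iff.1 fun h' => h (hx' h')).symm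
    · rintro ⟨a, rfl⟩
      exact hf2 a
  rw [hr]
  exact isCompact_range hf

theorem cpt : ∃ r : ℝ, 0 < r ∧ ∀ x : X.P, IsCompact (Metric.closedBall x r) := by
  obtain ⟨Λ, hΛ, hl⟩ := X.co_lip
  refine ⟨1 / (6 * Λ), by positivity, fun x => ?_⟩
  obtain ⟨v, hv⟩ := exists_big x
  have hfin : {σ : Finset X.V | σ ∈ X.faces ∧ σ ⊆ (X.locfin v).toFinset}.Finite :=
    (Finset.finite_toSet (X.locfin v).toFinset.powerset).subset fun σ hσ => by
      simpa using hσ.2
  have hc : IsCompact (⋃ σ ∈ {σ : Finset X.V | σ ∈ X.faces ∧ σ ⊆ (X.locfin v).toFinset},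
      {y : X.P | y.co.support ⊆ σ}) :=
    hfin.isCompact_biUnion fun σ hσ => X.isCompact_simplex hσ.1
  refine hc.of_isClosed_subset Metric.isClosed_closedBall fun y hy => ?_
  have h1 : dist x y ≤ 1 / (6 * Λ) := by
    rw [dist_comm]
    exact hy
  have h2 : |x.co v - y.co v| ≤ 1 / 6 := by
    refine (hl x y v).trans ?_
    calc Λ * dist x y ≤ Λ * (1 / (6 * Λ)) := by gcongr
      _ = 1 / 6 := by field_simp
  have h3 : 0 < y.co v := by
    have := (abs_le.1 h2).2
    linarith only [hv, this]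
  have h4 : v ∈ y.co.support := Finsupp.mem_support_iff.2 h3.ne'
  simp only [Set.mem_iUnion]
  refine ⟨y.co.support, ⟨y.mem, fun u hu => ?_⟩, Finset.Subset.refl _⟩
  rw [Set.Finite.mem_toFinset]
  exact ⟨y.co.support, y.mem, h4, hu⟩

theorem hasSec_simplex_NADev2 {σ : Finset X.V} (hσ : σ ∈ X.faces) :
    HasSec {x : X.P // x.co.support ⊆ σ} := by
  obtain ⟨D, hD⟩ := Metric.isBounded_iff.1 (X.isCompact_simplex hσ).isBounded
  have hm : ∀ (x y : {x : X.P // x.co.support ⊆ σ}) (t : ℝ),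
      ∃ z : {x : X.P // x.co.support ⊆ σ}, 0 ≤ t → t ≤ 1 →
        (∀ v, z.1.co v = (1 - t) * x.1.co v + t * y.1.co v) ∧
          X.dev z.1 = (1 - t) • X.dev x.1 + t • X.dev y.1 := by
    intro x y t
    by_cases h : 0 ≤ t ∧ t ≤ 1
    · obtain ⟨z, h1, h2, h3⟩ := exists_mix hσ x.2 y.2 h.1 h.2
      exact ⟨⟨z, h2⟩, fun _ _ => ⟨h1, h3⟩⟩
    · exact ⟨x, fun h0 h1 => absurd ⟨h0, h1⟩ h⟩
  choose H hH using hm
  classical
  refine hasSec_of_contraction D (fun x y t => if 0 ≤ t ∧ t ≤ 1 then H x y t else x) ?_ ?_ ?_ ?_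
  · intro x y
    rw [if_pos ⟨le_rfl, zero_le_one⟩]
    refine Subtype.ext (pt_ext fun v => ?_)
    rw [(hH x y 0 le_rfl zero_le_one).1]
    ring
  · intro x y
    rw [if_pos ⟨zero_le_one, le_rfl⟩]
    refine Subtype.ext (pt_ext fun v => ?_)
    rw [(hH x y 1 zero_le_one le_rfl).1]
    ring
  · intro x t
    by_cases h : 0 ≤ t ∧ t ≤ 1
    · rw [if_pos h]
      refine Subtype.ext (pt_ext fun v => ?_)
      rw [(hH x x t h.1 h.2).1]
      ring
    · rw [if_neg h]
  · intro x₀ x y s hs t ht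
    rw [if_pos ⟨hs.1, hs.2⟩, if_pos ⟨ht.1, ht.2⟩, Subtype.dist_eq, Subtype.dist_eq,
      dist_common hσ (H x₀ x s).2 (H x₀ y t).2, (hH x₀ x s hs.1 hs.2).2,
      (hH x₀ y t ht.1 ht.2).2, dist_common hσ x.2 y.2, dist_eq_norm, dist_eq_norm]
    have h1 : ‖X.dev y.1 - X.dev x₀.1‖ ≤ D := by
      rw [← dist_eq_norm, ← dist_common hσ y.2 x₀.2]
      exact hD y.2 x₀.2
    have e : (1 - s) • X.dev x₀.1 + s • X.dev x.1 - ((1 - t) • X.dev x₀.1 + t • X.dev y.1) =
        s • (X.dev x.1 - X.dev y.1) + (s - t) • (X.dev y.1 - X.dev x₀.1) := by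
      module
    rw [e]
    refine (norm_add_le _ _).trans (add_le_add ?_ ?_)
    · rw [norm_smul, Real.norm_of_nonneg hs.1]
      exact mul_le_of_le_one_left (norm_nonneg _) hs.2
    · rw [norm_smul, Real.norm_eq_abs, mul_comm]
      gcongr

section Sec

variable {X} {ε : ℝ} (L : LocSys X.P ε)

/-- sections over one simplex -/
def IsSecNADev2 (σ : Finset X.V) (s : ∀ x : X.P, x.co.support ⊆ σ → L.E x) : Prop :=
  ∀ x y hx hy (h : dist x y ≤ ε), dist x y ≤ ε / 4 → L.T x y h (s x hx) = s y hy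

/-- two germs lie on a section over one simplex -/
def RelNADev2 (x : X.P) (e : L.E x) (y : X.P) (f : L.E y) : Prop :=
  ∃ σ ∈ X.faces, ∃ s, IsSecNADev2 L σ s ∧ ∃ hx hy, s x hx = e ∧ s y hy = f

theorem sec_exists_NADev2 (hε : 0 < ε) {σ : Finset X.V} (hσ : σ ∈ X.faces) {x : X.P}
    (hx : x.co.support ⊆ σ) (e : L.E x) : ∃ s, IsSecNADev2 L σ s ∧ s x hx = e := by
  let L' : LocSys {x : X.P // x.co.support ⊆ σ} ε :=
    { E := fun x => L.E x.1
      T := fun x y h => L.T x.1 y.1 h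
      T_self := fun x h e => L.T_self x.1 h e
      T_comp := fun x y z h₁ h₂ h₃ e => L.T_comp x.1 y.1 z.1 h₁ h₂ h₃ e }
  obtain ⟨s, h0, hs⟩ := X.hasSec_simplex_NADev2 hσ ε hε L' ⟨x, hx⟩ e
  exact ⟨fun y hy => s ⟨y, hy⟩, fun a b ha hb h h' => hs ⟨a, ha⟩ ⟨b, hb⟩ h h', h0⟩

theorem sec_unique_NADev2 (hε : 0 < ε) {σ : Finset X.V} (hσ : σ ∈ X.faces)
    {s s' : ∀ x : X.P, x.co.support ⊆ σ → L.E x} (hs : IsSecNADev2 L σ s)
    (hs' : IsSecNADev2 L σ s') {x y : X.P} (hx : x.co.support ⊆ σ) (hy : y.co.support ⊆ σ)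
    (h : s x hx = s' x hx) : s y hy = s' y hy := by
  refine X.step_ind_NADev2 hσ (η := ε / 4) (by linarith only [hε]) hx
    (fun a => ∀ ha, s a ha = s' a ha) (fun _ => h) ?_ hy hy
  intro a b _ hb hab _ hq ha
  have h1 : dist b a ≤ ε / 4 := by rwa [dist_comm]
  have h2 : dist b a ≤ ε := by linarith only [hε, h1]
  rw [← hs b a hb ha h2 h1, ← hs' b a hb ha h2 h1, hq hb]

theorem rel_fun_NADev2 (hε : 0 < ε) {x y : X.P} {e : L.E x} {f f' : L.E y}
    (h : RelNADev2 L x e y f) (h' : RelNADev2 L x e y f') : f = f' := by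
  classical
  obtain ⟨σ, hσ, s, hs, hx, hy, h1, h2⟩ := h
  obtain ⟨σ', hσ', s', hs', hx', hy', h1', h2'⟩ := h'
  have hxi : x.co.support ⊆ σ ∩ σ' := Finset.subset_inter hx hx'
  have hyi : y.co.support ⊆ σ ∩ σ' := Finset.subset_inter hy hy'
  have hτ : σ ∩ σ' ∈ X.faces :=
    X.down σ hσ _ Finset.inter_subset_left ((X.nonempty _ x.mem).mono hxi)
  have := sec_unique_NADev2 L hε hτ
    (s := fun a ha => s a (ha.trans Finset.inter_subset_left))
    (s' := fun a ha => s' a (ha.trans Finset.inter_subset_right))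
    (fun a b ha hb h h' => hs a b _ _ h h') (fun a b ha hb h h' => hs' a b _ _ h h') hxi hyi
    (h1.trans h1'.symm)
  exact h2.symm.trans (this.trans h2')

theorem rel_exists_NADev2 (hε : 0 < ε) {σ : Finset X.V} (hσ : σ ∈ X.faces) {x y : X.P}
    (hx : x.co.support ⊆ σ) (hy : y.co.support ⊆ σ) (e : L.E x) :
    ∃ f, RelNADev2 L x e y f := by
  obtain ⟨s, hs, h⟩ := sec_exists_NADev2 L hε hσ hx e
  exact ⟨s y hy, σ, hσ, s, hs, hx, hy, h, rfl⟩

theorem rel_symm_NADev2 {x y : X.P} {e : L.E x} {f : L.E y} (h : RelNADev2 L x e y f) :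
    RelNADev2 L y f x e := by
  obtain ⟨σ, hσ, s, hs, hx, hy, h1, h2⟩ := h
  exact ⟨σ, hσ, s, hs, hy, hx, h2, h1⟩

theorem rel_refl_NADev2 (hε : 0 < ε) {x : X.P} (e : L.E x) : RelNADev2 L x e x e := by
  obtain ⟨s, hs, h⟩ := sec_exists_NADev2 L hε x.mem (Finset.Subset.refl _) e
  exact ⟨_, x.mem, s, hs, _, _, h, h⟩

theorem rel_trans_NADev2 (hε : 0 < ε) {σ : Finset X.V} (hσ : σ ∈ X.faces) {x y z : X.P}
    (hx : x.co.support ⊆ σ) (hy : y.co.support ⊆ σ) (hz : z.co.support ⊆ σ) {e : L.E x}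
    {f : L.E y} {g : L.E z} (h : RelNADev2 L x e y f) (h' : RelNADev2 L y f z g) :
    RelNADev2 L x e z g := by
  obtain ⟨s, hs, h0⟩ := sec_exists_NADev2 L hε hσ hx e
  have h1 : f = s y hy := rel_fun_NADev2 L hε h ⟨σ, hσ, s, hs, hx, hy, h0, rfl⟩
  have h2 : g = s z hz := rel_fun_NADev2 L hε h' ⟨σ, hσ, s, hs, hy, hz, h1.symm, rfl⟩
  exact ⟨σ, hσ, s, hs, hx, hz, h0, h2.symm⟩

theorem rel_close_NADev2 {x y : X.P} {e : L.E x} {f : L.E y} (h : RelNADev2 L x e y f)
    (h1 : dist x y ≤ ε) (h2 : dist x y ≤ ε / 4) : L.T x y h1 e = f := by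
  obtain ⟨σ, -, s, hs, hx, hy, e1, e2⟩ := h
  rw [← e1, ← e2]
  exact hs x y hx hy h1 h2

end Sec

theorem vpt_supp_NADev2 {σ : Finset X.V} {v : X.V} (h : v ∈ σ) : (X.vpt v).co.support ⊆ σ :=
  Finsupp.support_single_subset.trans (Finset.singleton_subset_iff.2 h)

theorem hasSec : HasSec X.P := by
  intro ε hε L x₀ e₀
  have hT : ∀ v w, Adj2 X.faces v w → ∀ e : L.E (X.vpt v),
      ∃ f, RelNADev2 L (X.vpt v) e (X.vpt w) f := by
    rintro v w ⟨σ, hσ, hv, hw⟩ e
    exact rel_exists_NADev2 L hε hσ (X.vpt_supp_NADev2 hv) (X.vpt_supp_NADev2 hw) e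
  choose T hT using hT
  have hv : ∀ x : X.P, ∃ v, v ∈ x.co.support := fun x => X.nonempty _ x.mem
  choose b hb using hv
  obtain ⟨e₁, he₁⟩ := rel_exists_NADev2 L hε x₀.mem (Finset.Subset.refl _)
    (X.vpt_supp_NADev2 (hb x₀)) e₀
  obtain ⟨s₀, hs₀, hs₁⟩ := X.sc (fun v => L.E (X.vpt v)) T
    (fun v h e => rel_fun_NADev2 L hε (hT v v h e) (rel_refl_NADev2 L hε e))
    (by
      rintro u v w ⟨σ, hσ, hu, hv, hw⟩ h₁ h₂ h₃ e
      exact rel_fun_NADev2 L hε (rel_trans_NADev2 L hε hσ (X.vpt_supp_NADev2 hu)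
        (X.vpt_supp_NADev2 hv) (X.vpt_supp_NADev2 hw) (hT u v h₁ e) (hT v w h₂ _)) (hT u w h₃ e))
    (b x₀) e₁
  have hs : ∀ x : X.P, ∃ f, RelNADev2 L (X.vpt (b x)) (s₀ (b x)) x f := fun x =>
    rel_exists_NADev2 L hε x.mem (X.vpt_supp_NADev2 (hb x)) (Finset.Subset.refl _) _
  choose s hs using hs
  have h1 : ∀ σ ∈ X.faces, ∀ x y : X.P, x.co.support ⊆ σ → y.co.support ⊆ σ →
      RelNADev2 L x (s x) y (s y) := by
    intro σ hσ x y hx hy
    have hxy : Adj2 X.faces (b x) (b y) := ⟨σ, hσ, hx (hb x), hy (hb y)⟩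
    have h2 := hT (b x) (b y) hxy (s₀ (b x))
    rw [hs₁] at h2
    have hbx := X.vpt_supp_NADev2 (hx (hb x))
    have hby := X.vpt_supp_NADev2 (hy (hb y))
    exact rel_trans_NADev2 L hε hσ hx hby hy
      (rel_trans_NADev2 L hε hσ hx hbx hby (rel_symm_NADev2 L (hs x)) h2) (hs y)
  refine ⟨s, ?_, ?_⟩
  · have h2 := hs x₀
    rw [hs₀] at h2
    exact rel_fun_NADev2 L hε h2 (rel_symm_NADev2 L he₁)
  · intro x y h h'
    have key : ∀ (a c : X.P) (r : ℝ), X.FineNADev2 (ε / 4) a c r → dist x a + r ≤ ε →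
        (∀ ha, L.T x a ha (s x) = s a) → ∀ hc, L.T x c hc (s x) = s c := by
      intro a c r hf
      induction hf with
      | nil a => exact fun _ h => h
      | @cons a a' c r σ hσ ha ha' hd hf ih =>
        intro hr hq
        have hr0 := X.fine_nonneg_NADev2 hf
        have ht := dist_triangle x a a'
        have hn : 0 ≤ dist a a' := dist_nonneg
        refine ih (by linarith only [hr, ht]) fun hxa' => ?_
        have hxa : dist x a ≤ ε := by linarith only [hr, hr0, hn]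
        have haa : dist a a' ≤ ε := by linarith only [hε, hd]
        rw [← L.T_comp x a a' hxa haa hxa', hq hxa]
        exact rel_close_NADev2 L (h1 σ hσ a a' ha ha') haa hd
    obtain ⟨r, hr, hc⟩ := exists_chain_lt (x := x) (y := y) (r := ε / 2) (by linarith)
    refine key x y r (X.fine_of_chain_NADev2 (by linarith) hc) ?_ (fun hx => L.T_self x hx _) h
    rw [dist_self]
    linarith

end DevCx

end Pool.Agent.Work.MP_0909b4_al.NA
end

-- merged part: Pool.Agent.Work.MP_0909b4_al.NAPoly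
section
-- merged part: Pool.Agent.Work.MP_0909b4_al.NAG2
section
/-! The action of the group on the universal cover.

Plan. `g` acts on vertices by the bijection `sh g` and on points by transport of the coordinates.
Chains go to chains of the same length (`dev_smul`), so the action is isometric.
* `sep`: with `1/3 ≤ x.co v` and `dist x (g • x) < 1 / (3 Λ)` one has `0 < (g • x).co v`, so `v` and
  `g⁻¹ v` lie in the support of `x` and `adj_label` gives `g = 1`.
* `cocompact`: the union of the finitely many simplices inside the sets `Mx` with `g = 1`.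
-/

namespace Pool.Agent.Work.MP_0909b4_al.NA

namespace GCx

variable (K : GCx)

/-- left multiplication on vertices -/
def sh (g : K.Γ) : K.V ≃ K.V where
  toFun v := (g * v.1, v.2)
  invFun v := (g⁻¹ * v.1, v.2)
  left_inv v := by simp
  right_inv v := by simp

theorem sh_apply_NAG2 (g h : K.Γ) (o : Option K.L) : K.sh g (h, o) = (g * h, o) := rfl

theorem mx_map_NAG2 (g : K.Γ) {M : Set K.V} (h : K.Mx M) : K.Mx (K.sh g '' M) := by
  cases h with
  | cone h l =>
    simp only [Set.image_insert_eq, Set.image_singleton, sh_apply_NAG2]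
    exact .cone _ l
  | edge h e =>
    simp only [Set.image_insert_eq, Set.image_singleton, sh_apply_NAG2, ← mul_assoc]
    exact .edge _ e
  | tri h t =>
    simp only [Set.image_insert_eq, Set.image_singleton, sh_apply_NAG2, ← mul_assoc]
    exact .tri _ t

theorem map_mem (g : K.Γ) {σ : Finset K.V} (h : σ ∈ K.faces) :
    σ.map (K.sh g).toEmbedding ∈ K.faces := by
  obtain ⟨h1, M, hM, h2⟩ := h
  refine ⟨h1.map, _, K.mx_map_NAG2 g hM, ?_⟩
  rw [Finset.coe_map]
  exact Set.image_mono h2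

noncomputable instance : MulAction K.Γ K.cx.P where
  smul g x := ⟨Finsupp.equivMapDomain (K.sh g) x.co, fun _ => x.nonneg _, by
    refine Eq.trans (Finset.sum_map x.co.support (K.sh g).toEmbedding _) (Eq.trans ?_ x.sum_one)
    exact Finset.sum_congr rfl fun v _ => congrArg x.co ((K.sh g).symm_apply_apply v),
    K.map_mem g x.mem⟩
  one_smul x := DevCx.pt_ext fun v => by
    change x.co (1⁻¹ * v.1, v.2) = x.co v
    rw [inv_one, one_mul]
    rfl
  mul_smul g h x := DevCx.pt_ext fun v => by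
    change x.co ((g * h)⁻¹ * v.1, v.2) = x.co (h⁻¹ * (g⁻¹ * v.1), v.2)
    rw [mul_inv_rev, mul_assoc]

theorem smul_co (g : K.Γ) (x : K.cx.P) (v : K.V) : (g • x).co v = x.co (g⁻¹ * v.1, v.2) := rfl

theorem smul_vpt (g h : K.Γ) (o : Option K.L) : g • K.cx.vpt (h, o) = K.cx.vpt (g * h, o) := by
  exact DevCx.pt_ext fun v =>
    DFunLike.congr_fun (Finsupp.equivMapDomain_single (K.sh g) (h, o) (1 : ℝ)) v

theorem supp_smul_NAG2 (g : K.Γ) (x : K.cx.P) :
    (g • x).co.support = Finset.map (K.sh g).toEmbedding x.co.support := rfl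

theorem pos_sh_NAG2 (g : K.Γ) (v : K.V) : K.pos (K.sh g v) = K.hol g • K.pos v := by
  change K.hol (g * v.1) • _ = K.hol g • K.hol v.1 • _
  rw [map_mul, mul_smul]
  rfl

theorem dev_smul (g : K.Γ) (x : K.cx.P) : K.cx.dev (g • x) = K.hol g • K.cx.dev x := by
  have e : K.cx.dev (g • x) = ∑ v ∈ x.co.support, x.co v • (K.hol g • K.pos v) := by
    refine Eq.trans (Finset.sum_map x.co.support (K.sh g).toEmbedding _) ?_
    refine Finset.sum_congr rfl fun v _ => ?_
    exact congrArg₂ (· • ·) (congrArg x.co ((K.sh g).symm_apply_apply v)) (K.pos_sh_NAG2 g v)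
  have e1 : ∑ v ∈ x.co.support, x.co v • (K.hol g).b = (K.hol g).b := by
    rw [← Finset.sum_smul, x.sum_one, one_smul]
  rw [e, Mot.smul_def, DevCx.dev, Finset.mul_sum, ← e1, ← Finset.sum_add_distrib]
  refine Finset.sum_congr rfl fun v _ => ?_
  rw [Mot.smul_def, smul_add, mul_smul_comm]
  rfl

theorem chain_smul_NAG2 (g : K.Γ) {x y : K.cx.P} {r : ℝ} (h : K.cx.toPECx.Chain x y r) :
    K.cx.toPECx.Chain (g • x) (g • y) r := by
  induction h with
  | nil x => exact .nil _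
  | @cons x y z r σ hσ hx hy _ ih =>
    have hx' : (g • x).co.support ⊆ Finset.map (K.sh g).toEmbedding σ :=
      Finset.map_subset_map.2 hx
    have hy' : (g • y).co.support ⊆ Finset.map (K.sh g).toEmbedding σ :=
      Finset.map_subset_map.2 hy
    have k := PECx.Chain.cons _ (K.map_mem g hσ) hx' hy' ih
    rwa [DevCx.img_eq hx', DevCx.img_eq hy', dev_smul, dev_smul, Mot.dist_smul',
      ← DevCx.img_eq hx, ← DevCx.img_eq hy] at k

theorem dist_smul_le_NAG2 (g : K.Γ) (x y : K.cx.P) : dist (g • x) (g • y) ≤ dist x y := by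
  refine le_of_forall_gt fun r hr => ?_
  obtain ⟨r', h1, h2⟩ := DevCx.exists_chain_lt hr
  exact (DevCx.dist_le_chain (K.chain_smul_NAG2 g h2)).trans_lt h1

theorem iso (g : K.Γ) (x y : K.cx.P) : dist (g • x) (g • y) = dist x y := by
  refine le_antisymm (K.dist_smul_le_NAG2 g x y) ?_
  simpa only [inv_smul_smul] using K.dist_smul_le_NAG2 g⁻¹ (g • x) (g • y)

theorem sep : ∃ δ : ℝ, 0 < δ ∧ ∀ g : K.Γ, g ≠ 1 → ∀ x : K.cx.P, δ ≤ dist x (g • x) := by
  obtain ⟨Λ, hΛ, h⟩ := K.cx.co_lip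
  refine ⟨1 / (3 * Λ), by positivity, fun g hg x => le_of_not_gt fun hlt => hg ?_⟩
  obtain ⟨v, hv⟩ := DevCx.exists_big x
  have h1 : Λ * dist x (g • x) < 1 / 3 := by
    rw [lt_div_iff₀ (by positivity)] at hlt
    linarith only [hlt]
  have h2 : 0 < (g • x).co v := by linarith only [hv, h1, h, h x (g • x) v, le_abs_self (x.co v - (g • x).co v)]
  have h3 : v.1 = g⁻¹ * v.1 := K.adj_label (o := v.2) ⟨x.co.support, x.mem,
    Finsupp.mem_support_iff.2 (by change x.co v ≠ 0; linarith only [hv]), Finsupp.mem_support_iff.2 h2.ne'⟩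
  exact inv_eq_one.1 (right_eq_mul.1 h3)

noncomputable def act : DevAct K.Γ K.cx.P where
  dev := K.cx.dev
  hol := K.hol
  δ := K.sep.choose
  δ_pos := K.sep.choose_spec.1
  iso := K.iso
  dev_smul := K.dev_smul
  dev_lip := DevCx.dev_lip
  sep := K.sep.choose_spec.2

theorem proper (x : K.cx.P) : ∃ r > 0,
    {g : K.Γ | ∃ y ∈ Metric.ball x r, g • y ∈ Metric.ball x r}.Finite := by
  obtain ⟨δ, hδ, h⟩ := K.sep
  refine ⟨δ / 2, by positivity, (Set.finite_singleton 1).subset ?_⟩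
  rintro g ⟨y, h1, h2⟩
  by_contra hg
  rw [Metric.mem_ball] at h1 h2
  linarith only [h1, h2, h, hg, h g hg y, dist_triangle_right y (g • y) x]

theorem cocompact : ∃ C : Set K.cx.P, IsCompact C ∧ ∀ x : K.cx.P, ∃ g : K.Γ, g • x ∈ C := by
  have := K.finL
  have := K.finE
  have hU : (Set.range (fun o : Option K.L => ((1, o) : K.V)) ∪
      Set.range fun e : K.Ed => ((K.gen e, some (K.tgt e)) : K.V)).Finite :=
    (Set.finite_range _).union (Set.finite_range _)
  have hS : {σ : Finset K.V | σ ∈ K.faces ∧ σ ⊆ hU.toFinset}.Finite :=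
    hU.toFinset.powerset.finite_toSet.subset fun σ h => by simpa using h.2
  refine ⟨⋃ σ ∈ {σ : Finset K.V | σ ∈ K.faces ∧ σ ⊆ hU.toFinset},
    {x : K.cx.P | x.co.support ⊆ σ},
    hS.isCompact_biUnion fun σ hσ => K.cx.isCompact_simplex hσ.1, fun x => ?_⟩
  obtain ⟨-, M, hM, h⟩ := x.mem
  have key : ∃ g : K.Γ, ∀ v ∈ M, K.sh g v ∈ hU.toFinset := by
    simp only [Set.Finite.mem_toFinset]
    cases hM with
    | cone g l =>
      refine ⟨g⁻¹, ?_⟩
      rintro v (rfl | rfl) <;> exact Or.inl ⟨_, by rw [sh_apply_NAG2, inv_mul_cancel]⟩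
    | edge g e =>
      refine ⟨g⁻¹, ?_⟩
      rintro v (rfl | rfl)
      · exact Or.inl ⟨_, by rw [sh_apply_NAG2, inv_mul_cancel]⟩
      · exact Or.inr ⟨_, by rw [sh_apply_NAG2, inv_mul_cancel_left]⟩
    | tri g t =>
      refine ⟨g⁻¹, ?_⟩
      rintro v (rfl | rfl | rfl)
      · exact Or.inl ⟨_, by rw [sh_apply_NAG2, inv_mul_cancel]⟩
      · exact Or.inr ⟨_, by rw [sh_apply_NAG2, inv_mul_cancel_left]⟩
      · exact Or.inr ⟨_, by rw [sh_apply_NAG2, inv_mul_cancel_left]⟩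
  obtain ⟨g, hg⟩ := key
  refine ⟨g, Set.mem_biUnion (x := (g • x).co.support) ⟨(g • x).mem, fun w hw => ?_⟩
    (Finset.Subset.refl _)⟩
  obtain ⟨v, hv, rfl⟩ := Finset.mem_map.1 hw
  exact hg v (h hv)

theorem cob (x₀ : K.cx.P) : ∃ R₀ : ℝ, ∀ x : K.cx.P, ∃ g : K.Γ, dist x (g • x₀) ≤ R₀ := by
  obtain ⟨C, hC, h⟩ := K.cocompact
  obtain ⟨R, hR⟩ := hC.isBounded.subset_closedBall x₀
  refine ⟨R, fun x => ?_⟩
  obtain ⟨g, hg⟩ := h x
  refine ⟨g⁻¹, ?_⟩
  rw [← K.iso g, smul_inv_smul]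
  exact hR hg

end GCx

end Pool.Agent.Work.MP_0909b4_al.NA
end

-- merged part: Pool.Agent.Work.MP_0909b4_al.NAPoly
section
/-! Finite polygonal complexes and their barycentric subdivision.

Apexes, sides and faces have their own frames; an apex sits at the origin of its frame. A corner
`c` of a face is the start of the side `sd c`, which is run backwards when `fl c`.

Plan.
* `inj`: `vt_inj`, `three`, `len`. `nd_e`, `nd_t`: `ctr_side`, `ctr_cross`, `len`.
* link at a face `f`: the link is the cycle `FA c, FS c, FA (nx c), ...`. Take `F` on the `FA` from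
  `ctr_pot c₀`. For `c ≠ c₀` give `FS c` a value within `α₁ c` of `F (FA c)` and within `α₂ c` of
  `F (FA (nx c))` (possible as `angle ≤ α₁ + α₂`, `exists_between_abs`); for `c₀` take
  `F (FA (nx c₀)) - α₂` or `F (FA c₀) + α₁`.
* link at a side: two poles `SA s false`, `SA s true` with opposite directions and paths through
  the `FS c`; for the removed edge from the pole `b` to `FS c₀` with angle `α`: `F` is `0` at that
  pole, `π` at the other one, `2π - α` at `FS c₀`, and the angle to the pole `b` at the other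
  `FS c` (`angle_neg_right`).
* link at an apex: the potential of `Poly.link` on the `SA`, and the `FA` as for a face. The
  direction of `SA s b` at the apex is `dirS s b / 2`.
-/

namespace Pool.Agent.Work.MP_0909b4_al.NA

open Real InnerProductGeometry

/-- the data of a polygonal complex -/
structure Poly0 where
  Ap : Type
  Si : Type
  Fa : Type
  Cn : Type
  finA : Finite Ap
  finS : Finite Si
  finF : Finite Fa
  finC : Finite Cn
  neF : Nonempty Fa
  en : Si → Bool → Ap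
  m1 : Si → Bool → Mot
  fc : Cn → Fa
  nx : Cn → Cn
  sd : Cn → Si
  fl : Cn → Bool
  m2 : Cn → Mot

namespace Poly0

variable (P : Poly0)

/-- the apex of a corner -/
def ap (c : P.Cn) : P.Ap := P.en (P.sd c) (P.fl c)

/-- from the frame of the apex to the frame of the face -/
noncomputable def ma (c : P.Cn) : Mot := P.m2 c * P.m1 (P.sd c) (P.fl c)

noncomputable def vt (c : P.Cn) : ℂ := (P.ma c).b

/-- the direction of a half side in the frame of its apex -/
noncomputable def dirS (h : P.Si × Bool) : ℂ := (P.m1 h.1 h.2)⁻¹ • (P.m1 h.1 (!h.2)).b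

/-- the half side at the start of the side of `c` -/
def out (c : P.Cn) : P.Si × Bool := (P.sd c, P.fl c)

/-- the half side at the end of the side of `c` -/
def inn (c : P.Cn) : P.Si × Bool := (P.sd c, !P.fl c)

/-- the angle at the corner `nx c` -/
noncomputable def wt (c : P.Cn) : ℝ := angle (P.dirS (P.inn c)) (P.dirS (P.out (P.nx c)))

/-- a side in its own frame -/
def sseg (s : P.Si) : Set ℂ := segment ℝ (P.m1 s false).b (P.m1 s true).b

end Poly0

/-- a nonpositively curved polygonal complex with strictly convex faces -/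
structure Poly extends Poly0 where
  fc_nx : ∀ c, fc (nx c) = fc c
  cyc : ∀ c c', fc c = fc c' → ∃ n, nx^[n] c = c'
  three : ∀ c, nx (nx c) ≠ c
  close_ap : ∀ c, toPoly0.ap (nx c) = en (sd c) (!fl c)
  close_mo : ∀ c, toPoly0.ma (nx c) = m2 c * m1 (sd c) (!fl c)
  convex : ∀ c c', fc c = fc c' → c' ≠ c → c' ≠ nx c →
    0 < cross (toPoly0.vt (nx c) - toPoly0.vt c) (toPoly0.vt c' - toPoly0.vt c)
  link : ∀ c, ∃ F : Si × Bool → ℝ,
    2 * π - toPoly0.wt c ≤ |F (toPoly0.inn c) - F (toPoly0.out (nx c))| ∧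
    ∀ c', toPoly0.ap (nx c') = toPoly0.ap (nx c) → c' ≠ c →
      |F (toPoly0.inn c') - F (toPoly0.out (nx c'))| ≤ toPoly0.wt c'

theorem exists_between_abs {x y a b : ℝ} (ha : 0 ≤ a) (hb : 0 ≤ b) (h : |x - y| ≤ a + b) :
    ∃ z, |z - x| ≤ a ∧ |z - y| ≤ b := by
  rw [abs_le] at h
  refine ⟨max (x - a) (y - b), ?_, ?_⟩
  · rw [abs_le]
    constructor
    · linarith [le_max_left (x - a) (y - b)]
    · have : max (x - a) (y - b) ≤ x + a := max_le (by linarith only [ha]) (by linarith [h.1])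
      linarith
  · rw [abs_le]
    constructor
    · linarith [le_max_right (x - a) (y - b)]
    · have : max (x - a) (y - b) ≤ y + b := max_le (by linarith [h.2]) (by linarith)
      linarith

/-- a potential extends to the midpoints of the edges -/
theorem NAPoly_subdiv {ι : Type} (S : ι → Prop) (w α : ι → Bool → ℝ) (hα : ∀ c β, 0 ≤ α c β)
    (c₀ : ι) (β₀ : Bool) (h₀ : 2 * π - (α c₀ false + α c₀ true) ≤ |w c₀ false - w c₀ true|)
    (h : ∀ c, S c → c ≠ c₀ → |w c false - w c true| ≤ α c false + α c true) :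
    ∃ H : ι → ℝ, 2 * π - α c₀ β₀ ≤ |H c₀ - w c₀ β₀| ∧
      ∀ c β, S c → ¬(c = c₀ ∧ β = β₀) → |H c - w c β| ≤ α c β := by
  classical
  have key : ∀ x y a : ℝ, 0 ≤ a → ∃ z, |x - y| + a ≤ |z - x| ∧ |z - y| ≤ a := by
    intro x y a ha
    rcases le_total x y with hxy | hxy
    · refine ⟨y + a, ?_, ?_⟩
      · rw [abs_of_nonpos (by linarith), abs_of_nonneg (by linarith)]
        linarith
      · rw [abs_of_nonneg (by linarith)]
        linarith
    · refine ⟨y - a, ?_, ?_⟩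
      · rw [abs_of_nonneg (by linarith), abs_of_nonpos (by linarith)]
        linarith
      · rw [abs_of_nonpos (by linarith)]
        linarith
  have h1 : ∀ c, ∃ z, S c → c ≠ c₀ → |z - w c false| ≤ α c false ∧ |z - w c true| ≤ α c true := by
    intro c
    by_cases hc : S c ∧ c ≠ c₀
    · obtain ⟨z, hz⟩ := exists_between_abs (hα c false) (hα c true) (h c hc.1 hc.2)
      exact ⟨z, fun _ _ => hz⟩
    · exact ⟨0, fun a b => (hc ⟨a, b⟩).elim⟩
  choose Z hZ using h1
  obtain ⟨z₀, hz₁, hz₂⟩ := key (w c₀ β₀) (w c₀ (!β₀)) (α c₀ (!β₀)) (hα _ _)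
  refine ⟨fun c => if c = c₀ then z₀ else Z c, ?_, ?_⟩
  · simp only [if_true]
    cases β₀
    · simp only [Bool.not_false] at hz₁
      linarith
    · simp only [Bool.not_true] at hz₁
      rw [abs_sub_comm] at h₀
      linarith
  · intro c β hS hne
    by_cases hc : c = c₀
    · subst hc
      have hβ : β = !β₀ := by
        cases β <;> cases β₀ <;> simp_all
      simp only [if_true, hβ]
      exact hz₂
    · simp only [hc, if_false]
      cases β
      · exact (hZ c hS hc).1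
      · exact (hZ c hS hc).2

theorem NAPoly_seg (m : Mot) (A B y : ℂ) :
    m • y ∈ segment ℝ (m • A) (m • B) ↔ y ∈ segment ℝ A B := by
  have key : ∀ (m : Mot) (A B y : ℂ), y ∈ segment ℝ A B → m • y ∈ segment ℝ (m • A) (m • B) := by
    rintro m A B y ⟨a, b, ha, hb, hab, rfl⟩
    refine ⟨a, b, ha, hb, hab, ?_⟩
    have : (a : ℂ) + b = 1 := by exact_mod_cast hab
    simp only [Mot.smul_def, Complex.real_smul]
    linear_combination m.b * this
  refine ⟨fun h => ?_, key m A B y⟩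
  simpa using key m⁻¹ _ _ _ h

theorem NAPoly_mid (m : Mot) (A B : ℂ) : m • ((A + B) / 2) = (m • A + m • B) / 2 := by
  simp only [Mot.smul_def]
  ring

namespace Poly

variable (P : Poly)

noncomputable def gon : Gon P.Cn P.Fa where
  fin := P.finC
  fc := P.fc
  nx := P.nx
  vt := P.vt
  fc_nx := P.fc_nx
  cyc := P.cyc
  three := P.three
  convex := P.convex

theorem NAPoly_vt (c : P.Cn) : P.vt c = P.m2 c • (P.m1 (P.sd c) (P.fl c)).b := rfl

theorem NAPoly_vt_nx (c : P.Cn) : P.vt (P.nx c) = P.m2 c • (P.m1 (P.sd c) (!P.fl c)).b := by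
  unfold Poly0.vt
  rw [P.close_mo]
  rfl

theorem len (c : P.Cn) : (P.m1 (P.sd c) false).b ≠ (P.m1 (P.sd c) true).b := by
  intro h
  apply P.gon.vt_nx_ne c
  change P.vt (P.nx c) = P.vt c
  rw [NAPoly_vt_nx, NAPoly_vt]
  cases P.fl c
  · simp [h]
  · simp [h]

theorem m2_seg (c : P.Cn) (y : ℂ) : P.m2 c • y ∈ P.gon.seg c ↔ y ∈ P.sseg (P.sd c) := by
  change P.m2 c • y ∈ segment ℝ (P.vt c) (P.vt (P.nx c)) ↔ _
  rw [NAPoly_vt_nx, NAPoly_vt, NAPoly_seg]
  unfold Poly0.sseg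
  cases P.fl c
  · simp
  · simp [segment_symm]

theorem NAPoly_m2_mid (c : P.Cn) :
    P.m2 c • (((P.m1 (P.sd c) false).b + (P.m1 (P.sd c) true).b) / 2) =
      (P.vt c + P.vt (P.nx c)) / 2 := by
  rw [NAPoly_vt_nx, NAPoly_vt, NAPoly_mid]
  cases P.fl c
  · simp
  · simp [add_comm]

theorem NAPoly_cross (c : P.Cn) :
    0 < cross (P.vt c - P.gon.ctr (P.fc c)) (P.vt (P.nx c) - P.gon.ctr (P.fc c)) :=
  P.gon.ctr_cross c

theorem NAPoly_vt_inj {c c' : P.Cn} (h : P.fc c = P.fc c') (e : P.vt c = P.vt c') : c = c' :=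
  P.gon.vt_inj h e

/-- edges of the barycentric subdivision: side-apex, face-side, face-apex -/
inductive Ed : Type
  | SA (s : {s : P.Si // ∃ c, P.sd c = s}) (b : Bool)
  | FS (c : P.Cn)
  | FA (c : P.Cn)

theorem finEd : Finite P.Ed := by
  have := P.finS
  have := P.finC
  let f : ({s : P.Si // ∃ c, P.sd c = s} × Bool) ⊕ P.Cn ⊕ P.Cn → P.Ed := fun x =>
    match x with
    | Sum.inl y => .SA y.1 y.2
    | Sum.inr (Sum.inl c) => .FS c
    | Sum.inr (Sum.inr c) => .FA c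
  refine Finite.of_surjective f ?_
  rintro (⟨s, b⟩ | c | c)
  · exact ⟨Sum.inl (s, b), rfl⟩
  · exact ⟨Sum.inr (Sum.inl c), rfl⟩
  · exact ⟨Sum.inr (Sum.inr c), rfl⟩

/-- the barycentric subdivision -/
noncomputable def gc0 : GC0 where
  L := P.Ap ⊕ P.Si ⊕ P.Fa
  Ed := P.Ed
  Tr := P.Cn × Bool
  finL := by have := P.finA; have := P.finS; have := P.finF; infer_instance
  finE := P.finEd
  finT := by have := P.finC; infer_instance
  neL := ⟨Sum.inr (Sum.inr P.neF.some)⟩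
  src
    | .SA s _ => Sum.inr (Sum.inl s.1)
    | .FS c => Sum.inr (Sum.inr (P.fc c))
    | .FA c => Sum.inr (Sum.inr (P.fc c))
  tgt
    | .SA s b => Sum.inl (P.en s.1 b)
    | .FS c => Sum.inr (Sum.inl (P.sd c))
    | .FA c => Sum.inl (P.ap c)
  rk
    | Sum.inl _ => 0
    | Sum.inr (Sum.inl _) => 1
    | Sum.inr (Sum.inr _) => 2
  rk_lt := by
    rintro (⟨s, b⟩ | c | c) <;> simp
  e01 t := .FS t.1
  e12 t := .SA ⟨P.sd t.1, t.1, rfl⟩ (xor (P.fl t.1) t.2)
  e02 t := .FA (if t.2 then P.nx t.1 else t.1)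
  src02 := by
    rintro ⟨c, _ | _⟩
    · rfl
    · simp [P.fc_nx]
  src12 := fun _ => rfl
  tgt02 := by
    rintro ⟨c, _ | _⟩
    · simp [Poly0.ap]
    · simp [P.close_ap]
  mo
    | .SA s b => P.m1 s.1 b
    | .FS c => P.m2 c
    | .FA c => P.ma c
  mo_tri := by
    rintro ⟨c, _ | _⟩
    · simp [Poly0.ma]
    · simp [P.close_mo]
  p
    | Sum.inl _ => 0
    | Sum.inr (Sum.inl s) => ((P.m1 s false).b + (P.m1 s true).b) / 2
    | Sum.inr (Sum.inr f) => P.gon.ctr f
  inj := by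
    rintro (⟨⟨s, c, rfl⟩, b⟩ | c | c) (⟨⟨s', c', rfl⟩, b'⟩ | c' | c') h₁ h₂ h₃ <;>
      simp only [Sum.inr.injEq, Sum.inl.injEq, reduceCtorEq] at h₁ h₂ h₃
    · have hb : b = b' := by
        by_contra hb
        apply P.len c
        rw [← h₁] at h₃
        cases b <;> cases b' <;> simp_all
      subst hb
      congr 1
      exact Subtype.ext h₁
    · congr 1
      by_cases hf : P.fl c = P.fl c'
      · apply P.NAPoly_vt_inj h₁
        rw [NAPoly_vt, NAPoly_vt, h₂, h₃, hf]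
      · exfalso
        have hf' : P.fl c = !P.fl c' := by
          cases h : P.fl c <;> cases h' : P.fl c' <;> simp_all
        have e₁ : c = P.nx c' := by
          apply P.NAPoly_vt_inj (by rw [P.fc_nx, h₁])
          rw [NAPoly_vt_nx, NAPoly_vt, h₂, h₃, hf']
        have e₂ : P.nx c = c' := by
          apply P.NAPoly_vt_inj (by rw [P.fc_nx, h₁])
          rw [NAPoly_vt_nx, NAPoly_vt, h₂, h₃, hf', Bool.not_not]
        apply P.three c
        rw [e₂, ← e₁]
    · congr 1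
      apply P.NAPoly_vt_inj h₁
      unfold Poly0.vt
      rw [h₃]
  nd_e := by
    rintro (⟨⟨s, c, rfl⟩, b⟩ | c | c)
    · have := P.len c
      simp only [Mot.smul_zero']
      intro h
      apply this
      cases b
      · linear_combination 2 * h
      · linear_combination -2 * h
    · have := P.NAPoly_cross c
      simp only [P.NAPoly_m2_mid]
      intro h
      rw [← h] at this
      simp only [cross, Complex.sub_re, Complex.sub_im, Complex.div_ofNat_re, Complex.div_ofNat_im,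
        Complex.add_re, Complex.add_im] at this
      linarith
    · have := P.NAPoly_cross c
      simp only [Mot.smul_zero']
      intro h
      change P.vt c = _ at h
      rw [← h] at this
      simp [cross] at this
  nd_t := by
    rintro ⟨c, _ | _⟩
    · have := P.NAPoly_cross c
      simp only [P.NAPoly_m2_mid, Mot.smul_zero', Bool.false_eq_true, if_false]
      change cross _ (P.vt c - _) ≠ 0
      intro h
      simp only [cross, Complex.sub_re, Complex.sub_im, Complex.div_ofNat_re, Complex.div_ofNat_im,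
        Complex.add_re, Complex.add_im] at this h
      linarith
    · have := P.NAPoly_cross c
      simp only [P.NAPoly_m2_mid, Mot.smul_zero', if_true]
      change cross _ (P.vt (P.nx c) - _) ≠ 0
      intro h
      simp only [cross, Complex.sub_re, Complex.sub_im, Complex.div_ofNat_re, Complex.div_ofNat_im,
        Complex.add_re, Complex.add_im] at this h
      linarith

theorem NAPoly_cor_face {f : P.Fa} {x y : P.Ed} (h : P.gc0.Cor (Sum.inr (Sum.inr f)) x y) :
    ∃ (c : P.Cn) (β : Bool), P.fc c = f ∧ x = .FS c ∧ y = .FA (if β then P.nx c else c) := by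
  obtain ⟨⟨c, β⟩, ⟨h₁, h₂, h₃⟩ | ⟨h₁, -⟩ | ⟨h₁, -⟩⟩ := h
  · exact ⟨c, β, (Sum.inr.inj (Sum.inr.inj h₁)).symm, h₂, h₃⟩
  · cases h₁
  · cases h₁

theorem NAPoly_cor_side {s : P.Si} {x y : P.Ed} (h : P.gc0.Cor (Sum.inr (Sum.inl s)) x y) :
    ∃ (c : P.Cn) (b : Bool), P.sd c = s ∧ x = .FS c ∧ y = .SA ⟨P.sd c, c, rfl⟩ b := by
  obtain ⟨⟨c, β⟩, ⟨h₁, -⟩ | ⟨h₁, h₂, h₃⟩ | ⟨h₁, -⟩⟩ := h
  · cases h₁
  · exact ⟨c, _, (Sum.inl.inj (Sum.inr.inj h₁)).symm, h₂, h₃⟩
  · cases h₁

/-- the two half sides at the corner `nx c` -/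
def NAPolyHs (c : P.Cn) (β : Bool) : P.Ed :=
  if β then .SA ⟨P.sd (P.nx c), P.nx c, rfl⟩ (P.fl (P.nx c)) else .SA ⟨P.sd c, c, rfl⟩ (!P.fl c)

theorem NAPoly_cor_apex {v : P.Ap} {x y : P.Ed} (h : P.gc0.Cor (Sum.inl v) x y) :
    ∃ (c : P.Cn) (β : Bool), P.ap (P.nx c) = v ∧ x = .FA (P.nx c) ∧ y = P.NAPolyHs c β := by
  obtain ⟨⟨c, β⟩, ⟨h₁, -⟩ | ⟨h₁, -⟩ | ⟨h₁, h₂, h₃⟩⟩ := h
  · cases h₁
  · cases h₁
  · cases β
    · obtain ⟨d, rfl⟩ := P.gon.nx_bij.2 c
      refine ⟨d, true, (Sum.inl.inj h₁).symm, h₂, ?_⟩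
      rw [h₃]
      simp [NAPolyHs, gc0, gon]
    · refine ⟨c, false, (Sum.inl.inj h₁).symm, h₂, ?_⟩
      rw [h₃]
      simp [NAPolyHs, gc0]

theorem NAPoly_dir_FA (c : P.Cn) :
    P.gc0.dir (Sum.inr (Sum.inr (P.fc c))) (.FA c) = P.vt c - P.gon.ctr (P.fc c) := by
  refine (if_pos rfl).trans ?_
  change P.ma c • (0 : ℂ) - _ = _
  rw [Mot.smul_zero']
  rfl

theorem NAPoly_dir_SA_side (s : {s : P.Si // ∃ c, P.sd c = s}) (b : Bool) :
    P.gc0.dir (Sum.inr (Sum.inl s.1)) (.SA s b) =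
      (P.m1 s.1 b).b - ((P.m1 s.1 false).b + (P.m1 s.1 true).b) / 2 := by
  refine (if_pos rfl).trans ?_
  change P.m1 s.1 b • (0 : ℂ) - _ = _
  rw [Mot.smul_zero']
  rfl

theorem NAPoly_dir_SA_neg (s : {s : P.Si // ∃ c, P.sd c = s}) (b : Bool) :
    P.gc0.dir (Sum.inr (Sum.inl s.1)) (.SA s (!b)) =
      -P.gc0.dir (Sum.inr (Sum.inl s.1)) (.SA s b) := by
  rw [NAPoly_dir_SA_side, NAPoly_dir_SA_side]
  cases b
  · simp only [Bool.not_false]
    ring
  · simp only [Bool.not_true]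
    ring

theorem NAPoly_dir_SA_apex (v : P.Ap) (s : {s : P.Si // ∃ c, P.sd c = s}) (b : Bool) :
    P.gc0.dir (Sum.inl v) (.SA s b) = (1 / 2 : ℝ) • P.dirS (s.1, b) := by
  unfold GC0.dir
  rw [if_neg (by intro h; cases h)]
  change (P.m1 s.1 b)⁻¹ • (((P.m1 s.1 false).b + (P.m1 s.1 true).b) / 2) - 0 = _
  have h0 : (P.m1 s.1 b)⁻¹ • (P.m1 s.1 b).b = 0 := by
    rw [← Mot.smul_zero', inv_smul_smul]
  rw [NAPoly_mid]
  unfold Poly0.dirS
  cases b
  · rw [h0]
    simp only [Bool.not_false, Complex.real_smul]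
    push_cast
    ring
  · rw [h0]
    simp only [Bool.not_true, Complex.real_smul]
    push_cast
    ring

theorem link_face (f : P.Fa) (a b : P.Ed) (h : P.gc0.Cor (Sum.inr (Sum.inr f)) a b) :
    ∃ F : P.Ed → ℝ, 2 * π - angle (P.gc0.dir (Sum.inr (Sum.inr f)) a)
      (P.gc0.dir (Sum.inr (Sum.inr f)) b) ≤ |F a - F b| ∧
      ∀ x y, P.gc0.Cor (Sum.inr (Sum.inr f)) x y → ¬(x = a ∧ y = b) → |F x - F y| ≤
        angle (P.gc0.dir (Sum.inr (Sum.inr f)) x) (P.gc0.dir (Sum.inr (Sum.inr f)) y) := by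
  obtain ⟨c₀, β₀, rfl, rfl, rfl⟩ := P.NAPoly_cor_face h
  obtain ⟨G, hG₁, hG₂⟩ := P.gon.ctr_pot c₀
  have tri : ∀ c, P.fc c = P.fc c₀ →
      angle (P.vt c - P.gon.ctr (P.fc c)) (P.vt (P.nx c) - P.gon.ctr (P.fc c)) ≤
      angle (P.gc0.dir (Sum.inr (Sum.inr (P.fc c₀))) (.FS c))
        (P.gc0.dir (Sum.inr (Sum.inr (P.fc c₀))) (.FA c)) +
      angle (P.gc0.dir (Sum.inr (Sum.inr (P.fc c₀))) (.FS c))
        (P.gc0.dir (Sum.inr (Sum.inr (P.fc c₀))) (.FA (P.nx c))) := by
    intro c hc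
    have e₁ := P.NAPoly_dir_FA c
    have e₂ := P.NAPoly_dir_FA (P.nx c)
    rw [P.fc_nx] at e₂
    rw [← hc, e₁, e₂, angle_comm _ (P.vt c - _)]
    exact angle_le_angle_add_angle _ _ _
  obtain ⟨H, hH₁, hH₂⟩ := NAPoly_subdiv (fun c => P.fc c = P.fc c₀)
    (fun c β => G (if β then P.nx c else c))
    (fun c β => angle (P.gc0.dir (Sum.inr (Sum.inr (P.fc c₀))) (.FS c))
      (P.gc0.dir (Sum.inr (Sum.inr (P.fc c₀))) (.FA (if β then P.nx c else c))))
    (fun _ _ => angle_nonneg _ _) c₀ β₀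
    (by
      simp only [Bool.false_eq_true, if_false, if_true]
      have h₁ := tri c₀ rfl
      have h₂ := le_abs_self (G c₀ - G (P.nx c₀))
      have h₃ : 2 * π - angle (P.vt c₀ - P.gon.ctr (P.fc c₀))
        (P.vt (P.nx c₀) - P.gon.ctr (P.fc c₀)) ≤ G c₀ - G (P.nx c₀) := hG₁
      linarith)
    (by
      intro c hc hne
      simp only [Bool.false_eq_true, if_false, if_true]
      have h₁ := tri c hc
      have h₃ : G (P.nx c) = G c + angle (P.vt c - P.gon.ctr (P.fc c))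
        (P.vt (P.nx c) - P.gon.ctr (P.fc c)) := hG₂ c hc hne
      rw [h₃, sub_add_cancel_left, abs_neg, abs_of_nonneg (angle_nonneg _ _)]
      exact h₁)
  refine ⟨fun e => match e with
    | .SA _ _ => 0
    | .FS c => H c
    | .FA c => G c, hH₁, ?_⟩
  intro x y hxy hne
  obtain ⟨c, β, hc, rfl, rfl⟩ := P.NAPoly_cor_face hxy
  refine hH₂ c β hc ?_
  rintro ⟨rfl, rfl⟩
  exact hne ⟨rfl, rfl⟩

theorem link_side (s : P.Si) (a b : P.Ed) (h : P.gc0.Cor (Sum.inr (Sum.inl s)) a b) :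
    ∃ F : P.Ed → ℝ, 2 * π - angle (P.gc0.dir (Sum.inr (Sum.inl s)) a)
      (P.gc0.dir (Sum.inr (Sum.inl s)) b) ≤ |F a - F b| ∧
      ∀ x y, P.gc0.Cor (Sum.inr (Sum.inl s)) x y → ¬(x = a ∧ y = b) → |F x - F y| ≤
        angle (P.gc0.dir (Sum.inr (Sum.inl s)) x) (P.gc0.dir (Sum.inr (Sum.inl s)) y) := by
  classical
  obtain ⟨c₀, b₀, rfl, rfl, rfl⟩ := P.NAPoly_cor_side h
  set d := P.gc0.dir (Sum.inr (Sum.inl (P.sd c₀))) (.SA ⟨P.sd c₀, c₀, rfl⟩ b₀) with hd
  have hneg : P.gc0.dir (Sum.inr (Sum.inl (P.sd c₀))) (.SA ⟨P.sd c₀, c₀, rfl⟩ (!b₀)) = -d :=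
    P.NAPoly_dir_SA_neg ⟨P.sd c₀, c₀, rfl⟩ b₀
  refine ⟨fun e => match e with
    | .SA _ b => if b = b₀ then 0 else π
    | .FS c => if c = c₀ then 2 * π - angle (P.gc0.dir (Sum.inr (Sum.inl (P.sd c₀))) (.FS c)) d
        else angle (P.gc0.dir (Sum.inr (Sum.inl (P.sd c₀))) (.FS c)) d
    | .FA _ => 0, ?_, ?_⟩
  · simp only [if_true, sub_zero]
    exact le_abs_self _
  · intro x y hxy hne
    obtain ⟨c, b, hc, rfl, rfl⟩ := P.NAPoly_cor_side hxy
    have hs : (⟨P.sd c, c, rfl⟩ : {s : P.Si // ∃ c, P.sd c = s}) = ⟨P.sd c₀, c₀, rfl⟩ :=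
      Subtype.ext hc
    rw [hs] at hne ⊢
    have h₁ := angle_nonneg (P.gc0.dir (Sum.inr (Sum.inl (P.sd c₀))) (.FS c)) d
    have h₂ := angle_le_pi (P.gc0.dir (Sum.inr (Sum.inl (P.sd c₀))) (.FS c)) d
    by_cases hb : b = b₀
    · subst hb
      have hcc : c ≠ c₀ := by
        rintro rfl
        exact hne ⟨rfl, rfl⟩
      simp only [hcc, if_true, if_false, sub_zero]
      rw [abs_of_nonneg h₁]
    · have hb' : b = !b₀ := Bool.eq_not_iff.2 hb
      simp only [hb, if_false]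
      rw [hb', hneg, angle_neg_right]
      split_ifs
      · rw [abs_of_nonneg (by linarith only [h₂])]
        linarith
      · rw [abs_of_nonpos (by linarith)]
        linarith

theorem link_apex (v : P.Ap) (a b : P.Ed) (h : P.gc0.Cor (Sum.inl v) a b) :
    ∃ F : P.Ed → ℝ, 2 * π - angle (P.gc0.dir (Sum.inl v) a) (P.gc0.dir (Sum.inl v) b) ≤
      |F a - F b| ∧ ∀ x y, P.gc0.Cor (Sum.inl v) x y → ¬(x = a ∧ y = b) → |F x - F y| ≤
        angle (P.gc0.dir (Sum.inl v) x) (P.gc0.dir (Sum.inl v) y) := by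
  obtain ⟨c₀, β₀, rfl, rfl, rfl⟩ := P.NAPoly_cor_apex h
  obtain ⟨G, hG₁, hG₂⟩ := P.link c₀
  have tri : ∀ c, P.wt c ≤
      angle (P.gc0.dir (Sum.inl (P.ap (P.nx c₀))) (.FA (P.nx c)))
        (P.gc0.dir (Sum.inl (P.ap (P.nx c₀))) (P.NAPolyHs c false)) +
      angle (P.gc0.dir (Sum.inl (P.ap (P.nx c₀))) (.FA (P.nx c)))
        (P.gc0.dir (Sum.inl (P.ap (P.nx c₀))) (P.NAPolyHs c true)) := by
    intro c
    simp only [NAPolyHs, Bool.false_eq_true, if_false, if_true, NAPoly_dir_SA_apex]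
    rw [angle_smul_right_of_pos _ _ (by norm_num), angle_smul_right_of_pos _ _ (by norm_num),
      angle_comm _ (P.dirS (P.sd c, _))]
    exact angle_le_angle_add_angle _ _ _
  obtain ⟨H, hH₁, hH₂⟩ := NAPoly_subdiv (fun c => P.ap (P.nx c) = P.ap (P.nx c₀))
    (fun c β => G (if β then P.out (P.nx c) else P.inn c))
    (fun c β => angle (P.gc0.dir (Sum.inl (P.ap (P.nx c₀))) (.FA (P.nx c)))
      (P.gc0.dir (Sum.inl (P.ap (P.nx c₀))) (P.NAPolyHs c β)))
    (fun _ _ => angle_nonneg _ _) c₀ β₀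
    (by
      simp only [Bool.false_eq_true, if_false, if_true]
      linarith [tri c₀])
    (by
      intro c hc hne
      simp only [Bool.false_eq_true, if_false, if_true]
      linarith [tri c, hG₂ c hc hne])
  have hpv : ∀ c, Function.surjInv P.gon.nx_bij.2 (P.nx c) = c := fun c =>
    P.gon.nx_bij.1 (Function.surjInv_eq P.gon.nx_bij.2 (P.nx c))
  let F : P.Ed → ℝ := fun e => match e with
    | .SA s b => G (s.1, b)
    | .FS _ => 0
    | .FA c => H (Function.surjInv P.gon.nx_bij.2 c)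
  have hF₁ : ∀ c, F (.FA (P.nx c)) = H c := fun c => congrArg H (hpv c)
  have hF₂ : ∀ c β, F (P.NAPolyHs c β) = G (if β then P.out (P.nx c) else P.inn c) := by
    rintro c (_ | _) <;> rfl
  refine ⟨F, ?_, ?_⟩
  · rw [hF₁, hF₂]
    exact hH₁
  · intro x y hxy hne
    obtain ⟨c, β, hc, rfl, rfl⟩ := P.NAPoly_cor_apex hxy
    rw [hF₁, hF₂]
    refine hH₂ c β hc ?_
    rintro ⟨rfl, rfl⟩
    exact hne ⟨rfl, rfl⟩

noncomputable def gcx : GCx where
  toGC0 := P.gc0
  link := by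
    rintro (v | s | f) a b h
    · exact P.link_apex v a b h
    · exact P.link_side s a b h
    · exact P.link_face f a b h

end Poly

end Pool.Agent.Work.MP_0909b4_al.NA
end
end
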